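import Pool.Agent.Lib.MP_947a32_pr.Transfer68

set_option autoImplicit false
set_option linter.unusedSectionVars false

open MeasureTheory ProbabilityTheory Filter
open scoped ENNReal

namespace MP947a32

namespace Transfer

section Limit

variable {V : Type} {Ω : Type}

/-- the limit of an increasing sequence of partial partner functions (`v` itself if undecided) -/
noncomputable def lim (Ψ : ℕ → Ω → V → Option V) (ω : Ω) (v : V) : V := by
  classical
  exact if h : ∃ t, Ψ t ω v ≠ none then (Ψ (Nat.find h) ω v).getD v else v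

theorem lim_eq (Ψ : ℕ → Ω → V → Option V) (ω : Ω) (v w : V) (t : ℕ)
    (ht : Ψ t ω v = some w) (hlt : ∀ s < t, Ψ s ω v = none) : lim Ψ ω v = w := by
  classical
  have h : ∃ t, Ψ t ω v ≠ none := ⟨t, by rw [ht]; simp⟩
  have hf : Nat.find h = t := by
    rw [Nat.find_eq_iff]
    exact ⟨by rw [ht]; simp, fun n hn => by simpa using hlt n hn⟩
  unfold lim
  rw [dif_pos h, hf, ht]
  rfl

theorem lim_of_none (Ψ : ℕ → Ω → V → Option V) (ω : Ω) (v : V)
    (h : ∀ t, Ψ t ω v = none) : lim Ψ ω v = v := by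
  classical
  unfold lim
  rw [dif_neg]
  push Not
  exact h

/-- first decision time -/
theorem exists_first (Ψ : ℕ → Ω → V → Option V) (ω : Ω) (v : V) {t : ℕ} {w : V}
    (h : Ψ t ω v = some w) : ∃ s u, s ≤ t ∧ Ψ s ω v = some u ∧ ∀ s' < s, Ψ s' ω v = none := by
  classical
  have hex : ∃ t, Ψ t ω v ≠ none := ⟨t, by rw [h]; simp⟩
  obtain ⟨u, hu⟩ := Option.ne_none_iff_exists'.mp (Nat.find_spec hex)
  exact ⟨Nat.find hex, u, Nat.find_min' hex (by rw [h]; simp), hu,
    fun s' hs' => by simpa using Nat.find_min hex hs'⟩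

end Limit

/-- **Limit theorem**: it suffices to construct an increasing sequence of finitary partial
matchings such that the probability that a vertex is unmatched tends to zero. -/
theorem limit_theorem (Δ : ℕ) (V : Type) (G : SimpleGraph V) (hG : G.IsTree)
    (hreg : ∀ v : V, (G.neighborSet v).encard = ((Δ : ℕ) : ℕ∞))
    {X : Type} [MeasurableSpace X] [StandardBorelSpace X] (ν : Measure X) [IsProbabilityMeasure ν]
    (Ψ : ℕ → (V ⊕ G.Dart → X) → V → Option V)
    (hmeas : ∀ t v w, MeasurableSet {ω : V ⊕ G.Dart → X | Ψ t ω v = some w})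
    (hequiv : ∀ t, ∀ (φ : G ≃g G) (ω : V ⊕ G.Dart → X) (v : V),
      Ψ t (fun i => ω (act φ.symm i)) (φ v) = (Ψ t ω v).map φ)
    (hmono : ∀ᵐ ω ∂(Measure.infinitePi (fun _ : V ⊕ G.Dart => ν)), ∀ t v w,
      Ψ t ω v = some w → Ψ (t + 1) ω v = some w)
    (hadj : ∀ᵐ ω ∂(Measure.infinitePi (fun _ : V ⊕ G.Dart => ν)), ∀ t v w,
      Ψ t ω v = some w → G.Adj v w)
    (hsymm : ∀ᵐ ω ∂(Measure.infinitePi (fun _ : V ⊕ G.Dart => ν)), ∀ t v w,
      Ψ t ω v = some w → Ψ t ω w = some v)
    (hfin : ∀ t, ∀ᵐ ω ∂(Measure.infinitePi (fun _ : V ⊕ G.Dart => ν)),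
      ∀ v : V, ∃ r : ℕ, ∀ ω' : V ⊕ G.Dart → X,
        (∀ i, near G v r i → ω' i = ω i) → Ψ t ω' v = Ψ t ω v)
    (hlim : ∀ v : V, Tendsto (fun t => (Measure.infinitePi (fun _ : V ⊕ G.Dart => ν))
      {ω | Ψ t ω v = none}) atTop (nhds 0)) :
    ∃ (μ : MeasureTheory.Measure ℝ) (_ : MeasureTheory.IsProbabilityMeasure μ)
        (F : (V → ℝ) → V → V),
        (∀ v w : V, MeasurableSet {ω : V → ℝ | F ω v = w}) ∧
        (∀ (φ : G ≃g G) (ω : V → ℝ) (v : V),
          F (fun u => ω (φ.symm u)) (φ v) = φ (F ω v)) ∧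
        (∀ᵐ ω ∂(MeasureTheory.Measure.infinitePi (fun _ : V => μ)),
          ∀ v : V, G.Adj v (F ω v) ∧ F ω (F ω v) = v) ∧
        (∀ᵐ ω ∂(MeasureTheory.Measure.infinitePi (fun _ : V => μ)),
          ∀ v : V, ∃ r : ℕ, ∀ ω' : V → ℝ,
            (∀ u : V, G.dist v u ≤ r → ω' u = ω u) → F ω' v = F ω v) := by
  classical
  have hV : Countable V := countable_of_tree hG (nbr_finite hreg)
  set P := Measure.infinitePi (fun _ : V ⊕ G.Dart => ν) with hP
  -- measurability of the undecided events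
  have hnone : ∀ t v, MeasurableSet {ω : V ⊕ G.Dart → X | Ψ t ω v = none} := by
    intro t v
    have : {ω : V ⊕ G.Dart → X | Ψ t ω v = none} = ⋂ w, {ω | Ψ t ω v = some w}ᶜ := by
      ext ω
      simp only [Set.mem_ofPred_eq, Set.mem_iInter, Set.mem_compl_iff]
      constructor
      · intro h w; rw [h]; simp
      · intro h
        by_contra hne
        obtain ⟨u, hu⟩ := Option.ne_none_iff_exists'.mp hne
        exact h u hu
    rw [this]
    exact MeasurableSet.iInter fun w => (hmeas t v w).compl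
  -- almost surely every vertex is decided
  have hdec : ∀ᵐ ω ∂P, ∀ v, ∃ t w, Ψ t ω v = some w := by
    rw [ae_all_iff]
    intro v
    have h0 : P {ω | ∀ t, Ψ t ω v = none} = 0 := by
      refine le_antisymm ?_ bot_le
      refine ge_of_tendsto (hlim v) (Eventually.of_forall fun t => ?_)
      exact measure_mono fun ω hω => hω t
    rw [ae_iff]
    refine measure_mono_null ?_ h0
    intro ω hω t
    by_contra hne
    obtain ⟨u, hu⟩ := Option.ne_none_iff_exists'.mp hne
    exact hω ⟨t, u, hu⟩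
  refine transfer Δ V G hG hreg ν (lim Ψ) ?_ ?_ ?_ ?_
  · -- measurability
    intro v w
    have : {ω : V ⊕ G.Dart → X | lim Ψ ω v = w} =
        (⋃ t, ({ω | Ψ t ω v = some w} ∩ ⋂ s, ⋂ (_ : s < t), {ω | Ψ s ω v = none})) ∪
        ({ω | v = w} ∩ ⋂ t, {ω | Ψ t ω v = none}) := by
      ext ω
      simp only [Set.mem_ofPred_eq, Set.mem_union, Set.mem_iUnion, Set.mem_inter_iff,
        Set.mem_iInter]
      constructor
      · intro h
        by_cases hex : ∃ t, Ψ t ω v ≠ none
        · obtain ⟨t, ht⟩ := hex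
          obtain ⟨u', hu'⟩ := Option.ne_none_iff_exists'.mp ht
          obtain ⟨s, u, _, hs1, hs2⟩ := exists_first Ψ ω v hu'
          have := lim_eq Ψ ω v u s hs1 hs2
          left
          refine ⟨s, ?_, hs2⟩
          rw [hs1, ← h, this]
        · push Not at hex
          right
          refine ⟨?_, hex⟩
          rw [← h, lim_of_none Ψ ω v hex]
      · rintro (⟨t, h1, h2⟩ | ⟨h1, h2⟩)
        · exact lim_eq Ψ ω v w t h1 h2
        · rw [lim_of_none Ψ ω v h2, h1]
    rw [this]
    refine MeasurableSet.union (MeasurableSet.iUnion fun t => (hmeas t v w).inter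
      (MeasurableSet.iInter fun s => MeasurableSet.iInter fun _ => hnone s v)) ?_
    exact (MeasurableSet.const _).inter (MeasurableSet.iInter fun t => hnone t v)
  · -- equivariance
    intro φ ω v
    by_cases hex : ∃ t, Ψ t ω v ≠ none
    · obtain ⟨t, ht⟩ := hex
      obtain ⟨u', hu'⟩ := Option.ne_none_iff_exists'.mp ht
      obtain ⟨s, u, _, hs1, hs2⟩ := exists_first Ψ ω v hu'
      rw [lim_eq Ψ ω v u s hs1 hs2]
      refine lim_eq Ψ _ (φ v) (φ u) s ?_ fun s' hs' => ?_
      · rw [hequiv, hs1]; rfl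
      · rw [hequiv, hs2 s' hs']; rfl
    · push Not at hex
      rw [lim_of_none Ψ ω v hex, lim_of_none Ψ _ (φ v)]
      intro t
      rw [hequiv, hex t]; rfl
  · -- perfect matching
    filter_upwards [hmono, hadj, hsymm, hdec] with ω h1 h2 h3 h4 v
    have hmon : ∀ s t v w, s ≤ t → Ψ s ω v = some w → Ψ t ω v = some w := by
      intro s t v w hst h
      induction hst with
      | refl => exact h
      | step _ ih => exact h1 _ _ _ ih
    have hval : ∀ t v w, Ψ t ω v = some w → lim Ψ ω v = w := by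
      intro t v w h
      obtain ⟨s, u, hst, hs1, hs2⟩ := exists_first Ψ ω v h
      rw [lim_eq Ψ ω v u s hs1 hs2]
      have := hmon s t v u hst hs1
      rw [h] at this
      exact (Option.some.inj this).symm
    obtain ⟨t, w, hw⟩ := h4 v
    rw [hval t v w hw]
    exact ⟨h2 t v w hw, hval t w v (h3 t v w hw)⟩
  · -- finitary
    have hfin' : ∀ᵐ ω ∂P, ∀ t, ∀ v : V, ∃ r : ℕ, ∀ ω' : V ⊕ G.Dart → X,
        (∀ i, near G v r i → ω' i = ω i) → Ψ t ω' v = Ψ t ω v := ae_all_iff.mpr hfin
    filter_upwards [hfin', hdec] with ω h1 h2 v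
    obtain ⟨t', w', hw'⟩ := h2 v
    obtain ⟨s, u, _, hs1, hs2⟩ := exists_first Ψ ω v hw'
    choose r hr using fun t => h1 t v
    have hnear : ∀ (a b : ℕ) (i : V ⊕ G.Dart), a ≤ b → near G v a i → near G v b i := by
      intro a b i hab hi
      rcases i with x | d
      · exact le_trans hi hab
      · exact le_trans hi hab
    refine ⟨(Finset.range (s + 1)).sup r, fun ω' hω' => ?_⟩
    have hle : ∀ s' ≤ s, r s' ≤ (Finset.range (s + 1)).sup r := fun s' hs' =>
      Finset.le_sup (f := r) (Finset.mem_range.mpr (Nat.lt_succ_of_le hs'))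
    have hsame : ∀ s' ≤ s, Ψ s' ω' v = Ψ s' ω v := fun s' hs' =>
      hr s' ω' fun i hi => hω' i (hnear _ _ i (hle s' hs') hi)
    rw [lim_eq Ψ ω v u s hs1 hs2]
    refine lim_eq Ψ ω' v u s ((hsame s le_rfl).trans hs1) fun s' hs' => ?_
    rw [hsame s' hs'.le, hs2 s' hs']

end Transfer

end MP947a32
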