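import Pool.Agent.Lib.MP_947a32_pr.Defs
import Pool.Agent.Lib.MP_947a32_pr.Limit68

/-!
# From the labels `Om G` to the frozen statement (helper68)
-/

set_option autoImplicit false

open Classical MeasureTheory Filter

namespace Pool.Agent.PM

open MP947a32

variable {V : Type} {G : SimpleGraph V}

instance ad_unif_prob : IsProbabilityMeasure unif := ⟨by simp [unif]⟩

/-- labels of one dart (all stages) -/
abbrev Y1 := ℕ × Fin 3 → ℝ

noncomputable def nu1 : Measure Y1 := Measure.infinitePi (fun _ => unif)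

instance ad_nu1_prob : IsProbabilityMeasure nu1 := by unfold nu1; infer_instance

/-- from labels on vertices and darts to the labels of the core construction -/
def conv (y : V ⊕ G.Dart → Y1) : Om G := fun i => y (Sum.inr ⟨i.1.1, i.1.2⟩) i.2

theorem measurable_conv : Measurable (conv (V := V) (G := G)) :=
  measurable_pi_lambda _ fun i => (measurable_pi_apply i.2).comp (measurable_pi_apply _)

theorem law_conv : (Measure.infinitePi (fun _ : V ⊕ G.Dart => nu1)).map conv = PP G := by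
  have e2 := Measure.infinitePi_map_curry_symm (ι := V ⊕ G.Dart) (κ := ℕ × Fin 3)
    (fun _ _ => unif)
  let e : Dt G × ℕ × Fin 3 → (V ⊕ G.Dart) × (ℕ × Fin 3) :=
    fun i => (Sum.inr ⟨i.1.1, i.1.2⟩, i.2)
  have he : Function.Injective e := by
    rintro ⟨⟨d, hd⟩, k⟩ ⟨⟨d', hd'⟩, k'⟩ h
    simp only [e, Prod.mk.injEq, Sum.inr.injEq, SimpleGraph.Dart.mk.injEq] at h
    obtain ⟨h1, h2⟩ := h
    subst h1
    subst h2
    rfl
  have h3 := (Meas.measurePreserving_comp unif e he).map_eq
  rw [← e2, Measure.map_map] at h3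
  · exact h3
  · exact measurable_pi_lambda _ fun a => measurable_pi_apply _
  · exact (MeasurableEquiv.curry _ _ _).symm.measurable

theorem conv_act (φ : G ≃g G) (y : V ⊕ G.Dart → Y1) :
    conv (fun i => y (Transfer.act φ.symm i)) = Om.map φ (conv y) := rfl

/-- near version of locality from a finite set of labels -/
theorem near_of_finset {W : Type} (f : Om G → W) (v : V) (ω : Om G)
    (h : ∃ s : Finset (Dt G × ℕ × Fin 3), ∀ ω' : Om G, (∀ i ∈ s, ω' i = ω i) → f ω' = f ω) :
    ∃ r : ℕ, ∀ ω' : Om G, (∀ i : Dt G × ℕ × Fin 3, G.dist v i.1.1.1 ≤ r → ω' i = ω i) →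
      f ω' = f ω := by
  obtain ⟨s, hs⟩ := h
  refine ⟨s.sup (fun i => G.dist v i.1.1.1), fun ω' h' => hs ω' fun i hi => h' i ?_⟩
  exact Finset.le_sup (f := fun i : Dt G × ℕ × Fin 3 => G.dist v i.1.1.1) hi

/-- **Adapter**: an increasing sequence of finitary partial matchings, as functions of the labels
`Om G`, gives the conclusion of the frozen statement. -/
theorem adapter (Δ : ℕ) (V : Type) (G : SimpleGraph V) (hG : G.IsTree)
    (hreg : ∀ v : V, (G.neighborSet v).encard = ((Δ : ℕ) : ℕ∞))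
    (Ψ : ℕ → Om G → V → Option V)
    (hmeas : ∀ t v w, MeasurableSet {ω : Om G | Ψ t ω v = some w})
    (hequiv : ∀ t, ∀ (φ : G ≃g G) (ω : Om G) (v : V),
      Ψ t (Om.map φ ω) (φ v) = (Ψ t ω v).map φ)
    (hmono : ∀ᵐ ω ∂(PP G), ∀ t v w, Ψ t ω v = some w → Ψ (t + 1) ω v = some w)
    (hadj : ∀ᵐ ω ∂(PP G), ∀ t v w, Ψ t ω v = some w → G.Adj v w)
    (hsymm : ∀ᵐ ω ∂(PP G), ∀ t v w, Ψ t ω v = some w → Ψ t ω w = some v)
    (hfin : ∀ t, ∀ᵐ ω ∂(PP G), ∀ v : V, ∃ r : ℕ, ∀ ω' : Om G,
      (∀ i : Dt G × ℕ × Fin 3, G.dist v i.1.1.1 ≤ r → ω' i = ω i) → Ψ t ω' v = Ψ t ω v)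
    (hlim : ∀ v : V, Tendsto (fun t => PP G {ω | Ψ t ω v = none}) atTop (nhds 0)) :
    ∃ (μ : MeasureTheory.Measure ℝ) (_ : MeasureTheory.IsProbabilityMeasure μ)
        (F : (V → ℝ) → V → V),
        (∀ v w : V, MeasurableSet {ω : V → ℝ | F ω v = w}) ∧
        (∀ (φ : G ≃g G) (ω : V → ℝ) (v : V),
          F (fun u => ω (φ.symm u)) (φ v) = φ (F ω v)) ∧
        (∀ᵐ ω ∂(MeasureTheory.Measure.infinitePi (fun _ : V => μ)),
          ∀ v : V, G.Adj v (F ω v) ∧ F ω (F ω v) = v) ∧
        (∀ᵐ ω ∂(MeasureTheory.Measure.infinitePi (fun _ : V => μ)),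
          ∀ v : V, ∃ r : ℕ, ∀ ω' : V → ℝ,
            (∀ u : V, G.dist v u ≤ r → ω' u = ω u) → F ω' v = F ω v) := by
  have hlaw := law_conv (V := V) (G := G)
  refine Transfer.limit_theorem Δ V G hG hreg nu1 (fun t y => Ψ t (conv y)) ?_ ?_ ?_ ?_ ?_ ?_ ?_
  · intro t v w
    exact measurable_conv (hmeas t v w)
  · intro t φ y v
    show Ψ t (conv (fun i => y (Transfer.act φ.symm i))) (φ v) = _
    rw [conv_act, hequiv]
  · rw [← hlaw] at hmono
    exact ae_of_ae_map measurable_conv.aemeasurable hmono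
  · rw [← hlaw] at hadj
    exact ae_of_ae_map measurable_conv.aemeasurable hadj
  · rw [← hlaw] at hsymm
    exact ae_of_ae_map measurable_conv.aemeasurable hsymm
  · intro t
    have h := hfin t
    rw [← hlaw] at h
    filter_upwards [ae_of_ae_map measurable_conv.aemeasurable h] with y hy v
    obtain ⟨r, hr⟩ := hy v
    refine ⟨r, fun y' h' => hr (conv y') fun i hi => ?_⟩
    show y' (Sum.inr ⟨i.1.1, i.1.2⟩) i.2 = y (Sum.inr ⟨i.1.1, i.1.2⟩) i.2
    rw [h' (Sum.inr ⟨i.1.1, i.1.2⟩) hi]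
  · intro v
    have h : ∀ t, (Measure.infinitePi (fun _ : V ⊕ G.Dart => nu1))
        {y | Ψ t (conv y) v = none} = PP G {ω | Ψ t ω v = none} := by
      intro t
      have hm : MeasurableSet {ω : Om G | Ψ t ω v = none} := by
        have hV : Countable V := Transfer.countable_of_tree hG (Transfer.nbr_finite hreg)
        have : {ω : Om G | Ψ t ω v = none} = ⋂ w, {ω | Ψ t ω v = some w}ᶜ := by
          ext ω
          simp only [Set.mem_ofPred_eq, Set.mem_iInter, Set.mem_compl_iff]
          constructor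
          · intro h w; rw [h]; simp
          · intro h
            by_contra hne
            obtain ⟨u, hu⟩ := Option.ne_none_iff_exists'.mp hne
            exact h u hu
        rw [this]
        exact MeasurableSet.iInter fun w => (hmeas t v w).compl
      rw [← hlaw, Measure.map_apply measurable_conv hm]
      rfl
    simp only [h]
    exact hlim v

end Pool.Agent.PM
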