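import Pool.Agent.Lib.MP_947a32_pr.Tree68

set_option autoImplicit false

namespace MP947a32

namespace Tree

variable {V : Type*} {G : SimpleGraph V}

theorem exists_beta (Δ : ℕ) (hreg : ∀ v : V, (G.neighborSet v).encard = ((Δ : ℕ) : ℕ∞))
    (p x u y : V) :
    ∃ β : V → V, G.Adj p u → G.Adj x y →
      Set.BijOn β (G.neighborSet p) (G.neighborSet x) ∧ β u = y := by
  classical
  have hfin : (G.neighborSet p).Finite := by
    rw [← Set.encard_ne_top_iff, hreg p]; exact ENat.natCast_ne_top Δ
  have : Nonempty V := ⟨p⟩
  obtain ⟨β, hβ⟩ := hfin.exists_bijOn_of_encard_eq (t := G.neighborSet x)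
    ((hreg p).trans (hreg x).symm)
  refine ⟨fun v => Equiv.swap (β u) y (β v), fun hpu hxy => ⟨?_, by simp⟩⟩
  have hbu : β u ∈ G.neighborSet x := hβ.mapsTo hpu
  have hsw : Set.BijOn (Equiv.swap (β u) y) (G.neighborSet x) (G.neighborSet x) := by
    refine ⟨?_, (Equiv.swap (β u) y).injective.injOn, ?_⟩
    · intro z hz
      rcases eq_or_ne z (β u) with h | h
      · subst h; rw [Equiv.swap_apply_left]; exact hxy
      · rcases eq_or_ne z y with h' | h'
        · subst h'; rw [Equiv.swap_apply_right]; exact hbu
        · rw [Equiv.swap_apply_of_ne_of_ne h h']; exact hz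
    · intro z hz
      refine ⟨Equiv.swap (β u) y z, ?_, by simp⟩
      rcases eq_or_ne z (β u) with h | h
      · subst h; rw [Equiv.swap_apply_left]; exact hxy
      · rcases eq_or_ne z y with h' | h'
        · subst h'; rw [Equiv.swap_apply_right]; exact hbu
        · rw [Equiv.swap_apply_of_ne_of_ne h h']; exact hz
  exact hsw.comp hβ

/-- The automorphism group of a regular tree is transitive on darts. -/
theorem exists_iso_dart (hG : G.IsTree) (Δ : ℕ)
    (hreg : ∀ v : V, (G.neighborSet v).encard = ((Δ : ℕ) : ℕ∞))
    {a b c d : V} (hab : G.Adj a b) (hcd : G.Adj c d) :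
    ∃ φ : G ≃g G, φ a = c ∧ φ b = d := by
  classical
  -- parents with respect to `a`, with the convention that the parent of `a` is `b`
  have hpar : ∀ v : V, ∃ w, G.Adj v w ∧ (v = a → w = b) ∧ (v ≠ a → G.dist a w + 1 = G.dist a v) := by
    intro v
    by_cases h : v = a
    · exact ⟨b, h ▸ hab, fun _ => rfl, fun h' => absurd h h'⟩
    · obtain ⟨w, hw, dw⟩ := exists_parent hG h
      exact ⟨w, hw, fun h' => absurd h' h, fun _ => dw⟩
  choose par par_adj par_a par_dist using hpar
  choose β hβ using exists_beta (G := G) Δ hreg
  -- the recursion
  let F : ℕ → V → V × V := fun n => Nat.rec (motive := fun _ => V → V × V) (fun _ => (c, d))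
    (fun _ Fn v => (β (par v) (Fn (par v)).1 (par (par v)) (Fn (par v)).2 v, (Fn (par v)).1)) n
  have F0 : ∀ v, F 0 v = (c, d) := fun v => rfl
  have FS : ∀ n v, F (n+1) v = (β (par v) (F n (par v)).1 (par (par v)) (F n (par v)).2 v,
    (F n (par v)).1) := fun n v => rfl
  let f : V → V := fun v => (F (G.dist a v) v).1
  let g : V → V := fun v => (F (G.dist a v) v).2
  have fa : f a = c := by simp [f, F0]
  have ga : g a = d := by simp [g, F0]
  have fS : ∀ v, v ≠ a → f v = β (par v) (f (par v)) (par (par v)) (g (par v)) v := by
    intro v hv
    have := par_dist v hv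
    show (F (G.dist a v) v).1 = _
    rw [← this, FS]
  have gS : ∀ v, v ≠ a → g v = f (par v) := by
    intro v hv
    have := par_dist v hv
    show (F (G.dist a v) v).2 = _
    rw [← this, FS]
  -- invariants
  have inv : ∀ n v, G.dist a v = n → G.Adj (f v) (g v) ∧ G.dist c (f v) = n ∧
      (v ≠ a → G.dist c (g v) + 1 = n) := by
    intro n
    induction n with
    | zero =>
      intro v hv
      have hva : v = a := ((dist_zero_iff hG).mp hv).symm
      subst hva
      refine ⟨by rw [fa, ga]; exact hcd, by rw [fa]; simp, fun h => absurd rfl h⟩
    | succ n ih =>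
      intro v hv
      have hva : v ≠ a := by rintro rfl; simp at hv
      have hp : G.dist a (par v) = n := by have := par_dist v hva; omega
      obtain ⟨i1, i2, i3⟩ := ih (par v) hp
      obtain ⟨hb1, hb2⟩ := hβ (par v) (f (par v)) (par (par v)) (g (par v)) (par_adj _) i1
      have hmem : f v ∈ G.neighborSet (f (par v)) := by
        rw [fS v hva]; exact hb1.mapsTo (par_adj v).symm
      have hadj : G.Adj (f v) (g v) := by
        rw [gS v hva]; exact hmem.symm
      refine ⟨hadj, ?_, ?_⟩
      · have hd := dist_adj hG c hadj
        rw [gS v hva, i2] at hd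
        rcases hd with hd | hd
        · exact hd
        · exfalso
          by_cases hpa : par v = a
          · have : n = 0 := by rw [hpa] at hp; simpa using hp.symm
            omega
          · have i3' := i3 hpa
            have hfg : f v = g (par v) := by
              refine parent_unique hG (r := c) hmem i1 ?_ ?_
              · rw [i2]; omega
              · rw [i2]; omega
            have hvp : v = par (par v) := by
              refine hb1.injOn (par_adj v).symm (par_adj (par v)) ?_
              exact (fS v hva).symm.trans (hfg.trans hb2.symm)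
            have := par_dist (par v) hpa
            rw [← hvp] at this
            omega
      · intro _
        rw [gS v hva, i2]
  have fdist : ∀ v, G.dist c (f v) = G.dist a v := fun v => (inv _ v rfl).2.1
  have hbij : ∀ p, Set.BijOn (β p (f p) (par p) (g p)) (G.neighborSet p) (G.neighborSet (f p)) ∧
      β p (f p) (par p) (g p) (par p) = g p :=
    fun p => hβ p (f p) (par p) (g p) (par_adj p) (inv _ p rfl).1
  have fpar : ∀ v, v ≠ a → G.Adj (f v) (f (par v)) ∧ G.dist c (f (par v)) + 1 = G.dist c (f v) := by
    intro v hv
    have h1 := (inv _ v rfl).1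
    rw [gS v hv] at h1
    refine ⟨h1, ?_⟩
    rw [fdist, fdist]; exact par_dist v hv
  have finj : Function.Injective f := by
    have key : ∀ n u v, G.dist a u = n → f u = f v → u = v := by
      intro n
      induction n with
      | zero =>
        intro u v hu huv
        have hv : G.dist a v = 0 := by rw [← fdist, ← huv, fdist, hu]
        rw [← (dist_zero_iff hG).mp hu, ← (dist_zero_iff hG).mp hv]
      | succ n ih =>
        intro u v hu huv
        have hv : G.dist a v = n + 1 := by rw [← fdist, ← huv, fdist, hu]
        have hua : u ≠ a := by rintro rfl; simp at hu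
        have hva : v ≠ a := by rintro rfl; simp at hv
        have e1 := fpar u hua
        have e2 := fpar v hva
        rw [← huv] at e2
        have e3 : f (par u) = f (par v) := parent_unique hG (r := c) e1.1 e2.1 e1.2 e2.2
        have e4 : par u = par v := ih _ _ (by have := par_dist u hua; omega) e3
        refine (hbij (par u)).1.injOn (par_adj u).symm (e4 ▸ (par_adj v).symm) ?_
        have h1 := fS u hua
        have h2 := fS v hva
        rw [← e4] at h2
        rw [← h1, ← h2, huv]
    exact fun u v h => key _ u v rfl h
  have fsurj : Function.Surjective f := by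
    have key : ∀ n w, G.dist c w = n → ∃ v, f v = w := by
      intro n
      induction n with
      | zero =>
        intro w hw
        exact ⟨a, by rw [fa]; exact (dist_zero_iff hG).mp hw⟩
      | succ n ih =>
        intro w hw
        have hwc : w ≠ c := by rintro rfl; simp at hw
        obtain ⟨x, hx, dx⟩ := exists_parent hG hwc
        obtain ⟨p, hp⟩ := ih x (by omega)
        subst hp
        obtain ⟨v, hv, hvw⟩ := (hbij p).1.surjOn hx.symm
        by_cases hvp : v = par p ∧ p ≠ a
        · exfalso
          have h1 : w = f (par p) := by
            rw [← gS p hvp.2, ← (hbij p).2, ← hvw]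
            exact congrArg _ hvp.1
          have := (fpar p hvp.2).2
          rw [← h1] at this
          omega
        · have hva : v ≠ a := by
            rintro rfl
            -- v = a is a neighbour of p, so it is the parent of p
            have hpa : p ≠ v := fun h => G.loopless.irrefl _ (h ▸ hv : G.Adj v v)
            apply hvp
            refine ⟨?_, hpa⟩
            refine parent_unique hG (r := v) hv (par_adj p) ?_ (par_dist p hpa)
            have := SimpleGraph.dist_eq_one_iff_adj.mpr (show G.Adj v p from hv.symm)
            rw [SimpleGraph.dist_self, this]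
          have hpv : par v = p := by
            by_cases hpa : p = a
            · refine parent_unique hG (r := a) (par_adj v) hv.symm (par_dist v hva) ?_
              have h1 : G.Adj p v := hv
              rw [hpa] at h1 ⊢
              have := SimpleGraph.dist_eq_one_iff_adj.mpr h1
              rw [SimpleGraph.dist_self, this]
            · refine parent_unique hG (r := a) (par_adj v) hv.symm (par_dist v hva) ?_
              rcases dist_adj hG a hv with h | h
              · exfalso
                exact hvp ⟨parent_unique hG (r := a) hv (par_adj p) h.symm (par_dist p hpa), hpa⟩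
              · exact h.symm
          refine ⟨v, ?_⟩
          rw [fS v hva, hpv, hvw]
    exact fun w => key _ w rfl
  let e : V ≃ V := Equiv.ofBijective f ⟨finj, fsurj⟩
  have hchild : ∀ u v, G.Adj u v → (u ≠ a ∧ v = par u) ∨ (v ≠ a ∧ u = par v) := by
    intro u v huv
    rcases dist_adj hG a huv with h | h
    · have hua : u ≠ a := by rintro rfl; simp at h
      exact Or.inl ⟨hua, parent_unique hG (r := a) huv (par_adj u) h.symm (par_dist u hua)⟩
    · have hva : v ≠ a := by rintro rfl; simp at h
      exact Or.inr ⟨hva, parent_unique hG (r := a) huv.symm (par_adj v) h.symm (par_dist v hva)⟩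
  have hadj1 : ∀ u v, G.Adj u v → G.Adj (f u) (f v) := by
    intro u v huv
    rcases hchild u v huv with ⟨h1, h2⟩ | ⟨h1, h2⟩
    · rw [h2]; exact (fpar u h1).1
    · rw [h2]; exact (fpar v h1).1.symm
  have hadj2 : ∀ u v, G.Adj (f u) (f v) → G.Adj u v := by
    have key : ∀ u v, G.Adj (f u) (f v) → G.dist c (f u) = G.dist c (f v) + 1 → G.Adj u v := by
      intro u v huv h
      have hua : u ≠ a := by
        rintro rfl
        rw [fa] at h; simp at h
      have := fpar u hua
      have e1 : f v = f (par u) := parent_unique hG (r := c) huv this.1 h.symm this.2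
      rw [finj e1]; exact par_adj u
    intro u v huv
    rcases dist_adj hG c huv with h | h
    · exact key u v huv h
    · exact (key v u huv.symm h).symm
  refine ⟨⟨e, ?_⟩, fa, ?_⟩
  · intro u v
    exact ⟨hadj2 u v, hadj1 u v⟩
  · -- φ b = d
    show f b = d
    have hba : b ≠ a := hab.ne'
    have hpb : par b = a := by
      refine parent_unique hG (r := a) (par_adj b) hab.symm (par_dist b hba) ?_
      simp [SimpleGraph.dist_eq_one_iff_adj.mpr hab]
    rw [fS b hba, hpb, fa, ga, par_a a rfl]
    have := (hbij a).2
    rw [fa, ga, par_a a rfl] at this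
    exact this

end Tree

end MP947a32
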