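import Mathlib

set_option autoImplicit false
set_option linter.unusedSectionVars false

open MeasureTheory ProbabilityTheory
open scoped ENNReal

namespace MP947a32

namespace Meas

variable {ι : Type*} {X : Type*} [MeasurableSpace X]

/-- A measurable function depending only on the coordinates in `S` is measurable with respect to
the σ-algebra generated by these coordinates. -/
theorem measurable_iSup_of_dependsOn {β : Type*} [MeasurableSpace β] {f : (ι → X) → β}
    (hf : Measurable f) {S : Set ι} (hfS : DependsOn f S) :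
    Measurable[⨆ i ∈ S, MeasurableSpace.comap (fun ω : ι → X => ω i) inferInstance] f := by
  classical
  rcases isEmpty_or_nonempty (ι → X) with hE | ⟨⟨x⟩⟩
  · intro s _
    have : f ⁻¹' s = ∅ := Set.eq_empty_of_isEmpty _
    rw [this]
    exact @MeasurableSet.empty _ (⨆ i ∈ S, MeasurableSpace.comap (fun ω : ι → X => ω i) inferInstance)
  · have h1 : f = f ∘ (fun ω i => if i ∈ S then ω i else x i) := by
      funext ω
      apply hfS
      intro i hi
      simp [hi]
    rw [h1]
    refine hf.comp ?_
    refine @measurable_pi_lambda (ι → X) ι (fun _ => X)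
      (⨆ i ∈ S, MeasurableSpace.comap (fun ω : ι → X => ω i) inferInstance) _ _ ?_
    intro i
    by_cases hi : i ∈ S
    · simp only [hi, if_true]
      have : MeasurableSpace.comap (fun ω : ι → X => ω i) inferInstance ≤
          (⨆ i ∈ S, MeasurableSpace.comap (fun ω : ι → X => ω i) inferInstance) :=
        le_iSup₂_of_le i hi le_rfl
      exact measurable_iff_comap_le.mpr this
    · simp only [hi, if_false]
      exact @measurable_const _ _ _
        (⨆ i ∈ S, MeasurableSpace.comap (fun ω : ι → X => ω i) inferInstance) _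

variable (P : ι → Measure X) [∀ i, IsProbabilityMeasure (P i)]

theorem indep_coords {S T : Set ι} (hST : Disjoint S T) :
    Indep (⨆ i ∈ S, MeasurableSpace.comap (fun ω : ι → X => ω i) inferInstance)
      (⨆ i ∈ T, MeasurableSpace.comap (fun ω : ι → X => ω i) inferInstance)
      (Measure.infinitePi P) := by
  have h := iIndepFun_infinitePi (P := P) (X := fun _ (x : X) => x) (fun _ => measurable_id)
  exact indep_iSup_of_disjoint (fun i => (measurable_pi_apply i).comap_le) h hST

/-- Functions of disjoint sets of coordinates are independent. -/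
theorem indepFun_of_dependsOn {β γ : Type*} [MeasurableSpace β] [MeasurableSpace γ]
    {f : (ι → X) → β} {g : (ι → X) → γ} (hf : Measurable f) (hg : Measurable g)
    {S T : Set ι} (hfS : DependsOn f S) (hgT : DependsOn g T) (hST : Disjoint S T) :
    IndepFun f g (Measure.infinitePi P) := by
  have h := indep_coords P hST
  exact indep_of_indep_of_le_left
    (indep_of_indep_of_le_right h
      (measurable_iff_comap_le.mp (measurable_iSup_of_dependsOn hg hgT)))
    (measurable_iff_comap_le.mp (measurable_iSup_of_dependsOn hf hfS))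

theorem lintegral_mul_of_dependsOn {f g : (ι → X) → ℝ≥0∞} (hf : Measurable f) (hg : Measurable g)
    {S T : Set ι} (hfS : DependsOn f S) (hgT : DependsOn g T) (hST : Disjoint S T) :
    ∫⁻ ω, f ω * g ω ∂(Measure.infinitePi P) =
      (∫⁻ ω, f ω ∂(Measure.infinitePi P)) * ∫⁻ ω, g ω ∂(Measure.infinitePi P) :=
  lintegral_mul_eq_lintegral_mul_lintegral_of_indepFun hf hg
    (indepFun_of_dependsOn P hf hg hfS hgT hST)

theorem integral_mul_of_dependsOn {f g : (ι → X) → ℝ} (hf : Measurable f) (hg : Measurable g)
    {S T : Set ι} (hfS : DependsOn f S) (hgT : DependsOn g T) (hST : Disjoint S T) :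
    ∫ ω, f ω * g ω ∂(Measure.infinitePi P) =
      (∫ ω, f ω ∂(Measure.infinitePi P)) * ∫ ω, g ω ∂(Measure.infinitePi P) :=
  (indepFun_of_dependsOn P hf hg hfS hgT hST).integral_fun_mul_eq_mul_integral
    hf.aestronglyMeasurable hg.aestronglyMeasurable

/-- a set of configurations depends only on the coordinates in `S` -/
def SetDependsOn (A : Set (ι → X)) (S : Set ι) : Prop :=
  ∀ ⦃x y : ι → X⦄, (∀ i ∈ S, x i = y i) → (x ∈ A ↔ y ∈ A)

theorem SetDependsOn.mono {A : Set (ι → X)} {S T : Set ι} (h : SetDependsOn A S) (hST : S ⊆ T) :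
    SetDependsOn A T := fun _ _ hxy => h fun i hi => hxy i (hST hi)

theorem SetDependsOn.compl {A : Set (ι → X)} {S : Set ι} (h : SetDependsOn A S) :
    SetDependsOn Aᶜ S := fun _ _ hxy => not_congr (h hxy)

theorem SetDependsOn.inter {A B : Set (ι → X)} {S T : Set ι} (hA : SetDependsOn A S)
    (hB : SetDependsOn B T) : SetDependsOn (A ∩ B) (S ∪ T) := fun _ _ hxy =>
  and_congr (hA fun i hi => hxy i (Or.inl hi)) (hB fun i hi => hxy i (Or.inr hi))

theorem SetDependsOn.union {A B : Set (ι → X)} {S T : Set ι} (hA : SetDependsOn A S)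
    (hB : SetDependsOn B T) : SetDependsOn (A ∪ B) (S ∪ T) := fun _ _ hxy =>
  or_congr (hA fun i hi => hxy i (Or.inl hi)) (hB fun i hi => hxy i (Or.inr hi))

theorem SetDependsOn.iUnion {κ : Sort*} {A : κ → Set (ι → X)} {S : Set ι}
    (hA : ∀ k, SetDependsOn (A k) S) : SetDependsOn (⋃ k, A k) S := fun _ _ hxy => by
  simp only [Set.mem_iUnion]
  exact exists_congr fun k => hA k hxy

theorem SetDependsOn.iInter {κ : Sort*} {A : κ → Set (ι → X)} {S : Set ι}
    (hA : ∀ k, SetDependsOn (A k) S) : SetDependsOn (⋂ k, A k) S := fun _ _ hxy => by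
  simp only [Set.mem_iInter]
  exact forall_congr' fun k => hA k hxy

theorem SetDependsOn.dependsOn {A : Set (ι → X)} {S : Set ι} (h : SetDependsOn A S) :
    DependsOn (fun ω => (ω ∈ A : Prop)) S := fun _ _ hxy => propext (h hxy)

theorem SetDependsOn.indicator {A : Set (ι → X)} {S : Set ι} (h : SetDependsOn A S)
    {β : Type*} [Zero β] (c : β) :
    DependsOn (A.indicator (fun _ => c)) S := by
  classical
  intro x y hxy
  by_cases hx : x ∈ A
  · rw [Set.indicator_of_mem hx, Set.indicator_of_mem ((h hxy).mp hx)]
  · rw [Set.indicator_of_notMem hx, Set.indicator_of_notMem (fun hy => hx ((h hxy).mpr hy))]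

theorem measure_inter_of_dependsOn {A B : Set (ι → X)} (hA : MeasurableSet A)
    (hB : MeasurableSet B) {S T : Set ι} (hAS : SetDependsOn A S) (hBT : SetDependsOn B T)
    (hST : Disjoint S T) :
    Measure.infinitePi P (A ∩ B) = Measure.infinitePi P A * Measure.infinitePi P B := by
  have h := lintegral_mul_of_dependsOn P (f := A.indicator (fun _ => 1))
    (g := B.indicator (fun _ => 1)) (measurable_const.indicator hA)
    (measurable_const.indicator hB) (hAS.indicator 1) (hBT.indicator 1) hST
  have e : (fun ω => A.indicator (fun _ => (1:ℝ≥0∞)) ω * B.indicator (fun _ => (1:ℝ≥0∞)) ω) =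
      (A ∩ B).indicator (fun _ => 1) := by
    funext ω
    classical
    by_cases h1 : ω ∈ A <;> by_cases h2 : ω ∈ B <;> simp [Set.indicator, h1, h2]
  rw [e] at h
  have i1 := lintegral_indicator_one (μ := Measure.infinitePi P) (hA.inter hB)
  have i2 := lintegral_indicator_one (μ := Measure.infinitePi P) hA
  have i3 := lintegral_indicator_one (μ := Measure.infinitePi P) hB
  rw [← i1, ← i2, ← i3]
  exact h

/-- finite products of functions of pairwise disjoint sets of coordinates -/
theorem lintegral_prod_of_dependsOn {κ : Type*} (s : Finset κ) {f : κ → (ι → X) → ℝ≥0∞}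
    (hf : ∀ k ∈ s, Measurable (f k)) {S : κ → Set ι} (hfS : ∀ k ∈ s, DependsOn (f k) (S k))
    (hS : ∀ k ∈ s, ∀ l ∈ s, k ≠ l → Disjoint (S k) (S l)) :
    ∫⁻ ω, ∏ k ∈ s, f k ω ∂(Measure.infinitePi P) =
      ∏ k ∈ s, ∫⁻ ω, f k ω ∂(Measure.infinitePi P) := by
  classical
  induction s using Finset.induction_on with
  | empty => simp
  | insert a s ha ih =>
    simp only [Finset.prod_insert ha]
    rw [lintegral_mul_of_dependsOn P (f := f a) (g := fun ω => ∏ k ∈ s, f k ω)
      (S := S a) (T := ⋃ k ∈ s, S k) (hf a (Finset.mem_insert_self a s))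
      (Finset.measurable_prod s fun k hk => hf k (Finset.mem_insert_of_mem hk))
      (hfS a (Finset.mem_insert_self a s)) ?_ ?_, ih]
    · exact fun k hk => hf k (Finset.mem_insert_of_mem hk)
    · exact fun k hk => hfS k (Finset.mem_insert_of_mem hk)
    · exact fun k hk l hl => hS k (Finset.mem_insert_of_mem hk) l (Finset.mem_insert_of_mem hl)
    · intro x y hxy
      refine Finset.prod_congr rfl fun k hk => ?_
      exact hfS k (Finset.mem_insert_of_mem hk) fun i hi =>
        hxy i (Set.mem_biUnion (show k ∈ (s : Set κ) from hk) hi)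
    · rw [Set.disjoint_iUnion₂_right]
      intro k hk
      exact hS a (Finset.mem_insert_self a s) k (Finset.mem_insert_of_mem hk)
        (fun h => ha (h ▸ hk))

theorem measure_iInter_of_dependsOn {κ : Type*} (s : Finset κ) {A : κ → Set (ι → X)}
    (hA : ∀ k ∈ s, MeasurableSet (A k)) {S : κ → Set ι} (hAS : ∀ k ∈ s, SetDependsOn (A k) (S k))
    (hS : ∀ k ∈ s, ∀ l ∈ s, k ≠ l → Disjoint (S k) (S l)) :
    Measure.infinitePi P (⋂ k ∈ s, A k) = ∏ k ∈ s, Measure.infinitePi P (A k) := by
  classical
  induction s using Finset.induction_on with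
  | empty => simp
  | insert a s ha ih =>
    rw [Finset.prod_insert ha, Finset.set_biInter_insert,
      measure_inter_of_dependsOn P (S := S a) (T := ⋃ k ∈ s, S k)
      (hA a (Finset.mem_insert_self a s))
      (Finset.measurableSet_biInter s fun k hk => hA k (Finset.mem_insert_of_mem hk))
      (hAS a (Finset.mem_insert_self a s)) ?_ ?_, ih]
    · exact fun k hk => hA k (Finset.mem_insert_of_mem hk)
    · exact fun k hk => hAS k (Finset.mem_insert_of_mem hk)
    · exact fun k hk l hl => hS k (Finset.mem_insert_of_mem hk) l (Finset.mem_insert_of_mem hl)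
    · intro x y hxy
      simp only [Set.mem_iInter]
      refine forall_congr' fun k => forall_congr' fun hk => ?_
      exact hAS k (Finset.mem_insert_of_mem hk) fun i hi =>
        hxy i (Set.mem_biUnion (show k ∈ (s : Set κ) from hk) hi)
    · rw [Set.disjoint_iUnion₂_right]
      intro k hk
      exact hS a (Finset.mem_insert_self a s) k (Finset.mem_insert_of_mem hk)
        (fun h => ha (h ▸ hk))

/-- Functions of pairwise disjoint sets of coordinates are jointly independent. -/
theorem iIndepFun_of_dependsOn {κ : Type*} {β : κ → Type*} [∀ k, MeasurableSpace (β k)]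
    {f : ∀ k, (ι → X) → β k} (hf : ∀ k, Measurable (f k)) {S : κ → Set ι}
    (hfS : ∀ k, DependsOn (f k) (S k)) (hS : Pairwise (Function.onFun Disjoint S)) :
    iIndepFun f (Measure.infinitePi P) := by
  rw [iIndepFun_iff_measure_inter_preimage_eq_mul]
  intro s sets hsets
  refine measure_iInter_of_dependsOn P s (fun k hk => hf k (hsets k hk)) (S := S) ?_ ?_
  · intro k _ x y hxy
    show f k x ∈ sets k ↔ f k y ∈ sets k
    rw [hfS k hxy]
  · intro k _ l _ hkl
    exact hS hkl

/-- Relabelling coordinates along an injection preserves the iid measure. -/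
theorem measurePreserving_comp {α : Type*} (μ : Measure X) [IsProbabilityMeasure μ] (e : α → ι)
    (he : Function.Injective e) :
    MeasurePreserving (fun (ω : ι → X) (a : α) => ω (e a)) (Measure.infinitePi fun _ => μ)
      (Measure.infinitePi fun _ => μ) := by
  refine ⟨measurable_pi_lambda _ fun a => measurable_pi_apply _, ?_⟩
  refine Measure.eq_infinitePi _ fun s t ht => ?_
  classical
  have hm : Measurable (fun (ω : ι → X) (a : α) => ω (e a)) :=
    measurable_pi_lambda _ fun a => measurable_pi_apply _
  rw [Measure.map_apply hm (MeasurableSet.pi s.countable_toSet fun i _ => ht i)]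
  have e1 : (fun (ω : ι → X) (a : α) => ω (e a)) ⁻¹' ((s : Set α).pi t) =
      ⋂ a ∈ s, (fun ω : ι → X => ω (e a)) ⁻¹' (t a) := by
    ext ω
    simp [Set.mem_pi]
  rw [e1, measure_iInter_of_dependsOn (fun _ => μ) s (S := fun a => {e a})]
  · refine Finset.prod_congr rfl fun a _ => ?_
    have h2 := (measurePreserving_eval_infinitePi (fun _ : ι => μ) (e a)).measure_preimage
      (ht a).nullMeasurableSet
    exact h2
  · intro a _
    exact (measurable_pi_apply (e a)) (ht a)
  · intro a _ x y hxy
    show x (e a) ∈ t a ↔ y (e a) ∈ t a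
    rw [hxy (e a) rfl]
  · intro a _ b _ hab
    exact Set.disjoint_singleton.mpr fun h => hab (he h)

theorem lintegral_comp_inj {α : Type*} (μ : Measure X) [IsProbabilityMeasure μ] (e : α → ι)
    (he : Function.Injective e) {f : (α → X) → ℝ≥0∞} (hf : Measurable f) :
    ∫⁻ ω, f (fun a => ω (e a)) ∂(Measure.infinitePi fun _ : ι => μ) =
      ∫⁻ ω, f ω ∂(Measure.infinitePi fun _ : α => μ) :=
  (measurePreserving_comp μ e he).lintegral_comp hf

theorem measure_comp_inj {α : Type*} (μ : Measure X) [IsProbabilityMeasure μ] (e : α → ι)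
    (he : Function.Injective e) {A : Set (α → X)} (hA : MeasurableSet A) :
    Measure.infinitePi (fun _ : ι => μ) {ω | (fun a => ω (e a)) ∈ A} =
      Measure.infinitePi (fun _ : α => μ) A :=
  (measurePreserving_comp μ e he).measure_preimage hA.nullMeasurableSet

end Meas

end MP947a32
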