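import Pool.Agent.Lib.MP_947a32_pr.Tree68
import Pool.Agent.Lib.MP_947a32_pr.Meas68

set_option autoImplicit false
set_option linter.unusedSectionVars false

open MeasureTheory ProbabilityTheory
open scoped ENNReal

namespace MP947a32

namespace Transfer

theorem countable_of_tree {V : Type*} {G : SimpleGraph V} (hG : G.IsTree)
    (hfin : ∀ v, (G.neighborSet v).Finite) : Countable V := by
  classical
  rcases isEmpty_or_nonempty V with h | ⟨⟨r⟩⟩
  · infer_instance
  · have h1 : ∀ n, {v | G.dist r v = n}.Finite := by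
      intro n
      induction n with
      | zero =>
        refine (Set.finite_singleton r).subset ?_
        intro v hv
        exact ((Tree.dist_zero_iff hG).mp hv).symm
      | succ n ih =>
        refine (ih.biUnion (fun v _ => hfin v)).subset ?_
        intro v hv
        have hv' : G.dist r v = n + 1 := hv
        have hne : v ≠ r := by rintro rfl; simp at hv'
        obtain ⟨w, hw, dw⟩ := Tree.exists_parent hG hne
        simp only [Set.mem_iUnion]
        exact ⟨w, by show G.dist r w = n; omega, hw.symm⟩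
    have h2 : (Set.univ : Set V) = ⋃ n, {v | G.dist r v = n} := by
      ext v; simp
    rw [← Set.countable_univ_iff, h2]
    exact Set.countable_iUnion fun n => (h1 n).countable

variable {V : Type*} {G : SimpleGraph V} {Δ : ℕ}

/-- action of an automorphism on vertices and darts -/
def act (φ : G ≃g G) : V ⊕ G.Dart → V ⊕ G.Dart
  | Sum.inl v => Sum.inl (φ v)
  | Sum.inr d => Sum.inr ⟨(φ d.fst, φ d.snd), φ.map_adj_iff.mpr d.adj⟩

theorem nbr_finite (hreg : ∀ v : V, (G.neighborSet v).encard = ((Δ : ℕ) : ℕ∞)) (v : V) :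
    (G.neighborSet v).Finite := by
  rw [← Set.encard_ne_top_iff, hreg v]; exact ENat.natCast_ne_top Δ

theorem rank_lt (hreg : ∀ v : V, (G.neighborSet v).encard = ((Δ : ℕ) : ℕ∞)) (c : V → ℝ)
    (d : G.Dart) : (G.neighborSet d.fst ∩ {w | c w < c d.snd}).ncard < Δ := by
  have h1 : (G.neighborSet d.fst).ncard = Δ := by
    rw [Set.ncard, hreg]; rfl
  rw [← h1]
  refine Set.ncard_lt_ncard ⟨Set.inter_subset_left, fun h => ?_⟩ (nbr_finite hreg _)
  exact lt_irrefl (c d.snd) (h d.adj).2

/-- rank of the head of a dart among the neighbours of its tail -/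
noncomputable def rank (hreg : ∀ v : V, (G.neighborSet v).encard = ((Δ : ℕ) : ℕ∞)) (c : V → ℝ)
    (d : G.Dart) : Fin Δ := ⟨(G.neighborSet d.fst ∩ {w | c w < c d.snd}).ncard, rank_lt hreg c d⟩

theorem rank_equiv (hreg : ∀ v : V, (G.neighborSet v).encard = ((Δ : ℕ) : ℕ∞)) (c : V → ℝ)
    (φ : G ≃g G) (d : G.Dart) (d' : G.Dart) (h1 : d'.fst = φ d.fst) (h2 : d'.snd = φ d.snd) :
    rank hreg (fun u => c (φ.symm u)) d' = rank hreg c d := by
  apply Fin.ext
  show (G.neighborSet d'.fst ∩ {w | c (φ.symm w) < c (φ.symm d'.snd)}).ncard =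
    (G.neighborSet d.fst ∩ {w | c w < c d.snd}).ncard
  rw [h1, h2, ← Set.ncard_image_of_injective (G.neighborSet d.fst ∩ {w | c w < c d.snd})
    φ.injective]
  congr 1
  ext w
  constructor
  · rintro ⟨hw1, hw2⟩
    refine ⟨φ.symm w, ⟨?_, ?_⟩, by simp⟩
    · have : G.Adj (φ d.fst) (φ (φ.symm w)) := by simpa using hw1
      exact φ.map_adj_iff.mp this
    · simpa using hw2
  · rintro ⟨z, ⟨hz1, hz2⟩, rfl⟩
    refine ⟨φ.map_adj_iff.mpr hz1, ?_⟩
    simpa using hz2

theorem rank_inj (hreg : ∀ v : V, (G.neighborSet v).encard = ((Δ : ℕ) : ℕ∞)) (c : V → ℝ)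
    {v : V} (hc : Set.InjOn c (G.neighborSet v)) {w w' : V} (hw : G.Adj v w) (hw' : G.Adj v w')
    (h : rank hreg c ⟨(v, w), hw⟩ = rank hreg c ⟨(v, w'), hw'⟩) : w = w' := by
  have key : ∀ w w' : V, ∀ (hw : G.Adj v w) (hw' : G.Adj v w'),
      rank hreg c ⟨(v, w), hw⟩ = rank hreg c ⟨(v, w'), hw'⟩ → ¬ c w < c w' := by
    intro w w' hw hw' h hlt
    have h' : (G.neighborSet v ∩ {z | c z < c w}).ncard =
      (G.neighborSet v ∩ {z | c z < c w'}).ncard := congrArg Fin.val h
    have : (G.neighborSet v ∩ {z | c z < c w}).ncard <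
      (G.neighborSet v ∩ {z | c z < c w'}).ncard := by
      refine Set.ncard_lt_ncard ⟨?_, fun hss => ?_⟩ ((nbr_finite hreg v).inter_of_left _)
      · intro z hz; exact ⟨hz.1, lt_trans hz.2 hlt⟩
      · have := hss ⟨hw, hlt⟩
        exact lt_irrefl (c w) this.2
    omega
  have h1 := key w w' hw hw' h
  have h2 := key w' w hw' hw h.symm
  exact hc hw hw' (le_antisymm (not_lt.mp h2) (not_lt.mp h1))

theorem measurable_rank (hreg : ∀ v : V, (G.neighborSet v).encard = ((Δ : ℕ) : ℕ∞))
    (d : G.Dart) : Measurable (fun c : V → ℝ => rank hreg c d) := by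
  classical
  have h1 : Measurable (fun c : V → ℝ => (G.neighborSet d.fst ∩ {w | c w < c d.snd}).ncard) := by
    have e : (fun c : V → ℝ => (G.neighborSet d.fst ∩ {w | c w < c d.snd}).ncard) =
        fun c => ∑ w ∈ (nbr_finite hreg d.fst).toFinset, if c w < c d.snd then 1 else 0 := by
      funext c
      rw [← Finset.card_filter, ← Set.ncard_coe_finset]
      congr 1
      ext w; simp
    rw [e]
    refine Finset.measurable_sum _ fun w _ => ?_
    exact Measurable.ite (measurableSet_lt (measurable_pi_apply w) (measurable_pi_apply d.snd))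
      measurable_const measurable_const
  refine measurable_to_countable' fun i => ?_
  have : (fun c : V → ℝ => rank hreg c d) ⁻¹' {i} =
      (fun c : V → ℝ => (G.neighborSet d.fst ∩ {w | c w < c d.snd}).ncard) ⁻¹' {i.val} := by
    ext c
    simp only [Set.mem_preimage, Set.mem_singleton_iff, Fin.ext_iff]
    rfl
  rw [this]
  exact h1 (measurableSet_singleton _)

section Law

variable {X : Type*} [MeasurableSpace X] (ν : Measure X) [IsProbabilityMeasure ν]

/-- uniform measure on [0,1] -/
noncomputable abbrev unif : Measure ℝ := volume.restrict (Set.Icc 0 1)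

instance : IsProbabilityMeasure unif := ⟨by simp [unif]⟩

/-- slots at each vertex -/
abbrev Slot (Δ : ℕ) := Option (Option (Fin Δ))

def cmap (ω : V × Slot Δ → ℝ × X) (v : V) : ℝ := (ω (v, none)).1

def emb : V ⊕ V × Fin Δ → V × Slot Δ
  | Sum.inl v => (v, some none)
  | Sum.inr p => (p.1, some (some p.2))

theorem emb_inj : Function.Injective (emb (V := V) (Δ := Δ)) := by
  rintro (v | ⟨v, i⟩) (w | ⟨w, j⟩) h <;> simp_all [emb]

def xmap (ω : V × Slot Δ → ℝ × X) (i : V ⊕ V × Fin Δ) : X := (ω (emb i)).2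

noncomputable def idx (hreg : ∀ v : V, (G.neighborSet v).encard = ((Δ : ℕ) : ℕ∞)) (c : V → ℝ) :
    V ⊕ G.Dart → V ⊕ V × Fin Δ
  | Sum.inl v => Sum.inl v
  | Sum.inr d => Sum.inr (d.fst, rank hreg c d)

theorem idx_inj (hreg : ∀ v : V, (G.neighborSet v).encard = ((Δ : ℕ) : ℕ∞)) (c : V → ℝ)
    (hc : Function.Injective c) : Function.Injective (idx hreg c) := by
  rintro (v | ⟨⟨v, w⟩, h⟩) (v' | ⟨⟨v', w'⟩, h'⟩) e
  · simpa [idx] using e
  · simp [idx] at e
  · simp [idx] at e
  · simp only [idx, Sum.inr.injEq, Prod.mk.injEq] at e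
    obtain ⟨e1, e2⟩ := e
    have e1' : v = v' := e1
    subst e1'
    have := rank_inj hreg c hc.injOn h h' e2
    subst this
    rfl

theorem measurable_cmap : Measurable (cmap (V := V) (Δ := Δ) (X := X)) :=
  measurable_pi_lambda _ fun _ => (measurable_pi_apply _).fst

theorem measurable_xmap : Measurable (xmap (V := V) (Δ := Δ) (X := X)) :=
  measurable_pi_lambda _ fun _ => (measurable_pi_apply _).snd

theorem measurable_T (hreg : ∀ v : V, (G.neighborSet v).encard = ((Δ : ℕ) : ℕ∞)) :
    Measurable (fun (p : (V → ℝ) × (V ⊕ V × Fin Δ → X)) (i : V ⊕ G.Dart) => p.2 (idx hreg p.1 i)) := by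
  refine measurable_pi_lambda _ fun i => ?_
  rcases i with v | d
  · exact (measurable_pi_apply (Sum.inl v)).comp measurable_snd
  · show Measurable (fun p : (V → ℝ) × (V ⊕ V × Fin Δ → X) =>
      p.2 (Sum.inr (d.fst, rank hreg p.1 d)))
    have h1 : Measurable (fun q : (V ⊕ V × Fin Δ → X) × Fin Δ => q.1 (Sum.inr (d.fst, q.2))) :=
      measurable_from_prod_countable_left fun j => measurable_pi_apply (Sum.inr (d.fst, j))
    exact h1.comp (measurable_snd.prodMk ((measurable_rank hreg d).comp measurable_fst))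

theorem law_x : (Measure.infinitePi (fun _ : V × Slot Δ => unif.prod ν)).map xmap =
    Measure.infinitePi (fun _ : V ⊕ V × Fin Δ => ν) := by
  have h1 : (Measure.infinitePi (fun _ : V × Slot Δ => unif.prod ν)).map (fun ω p => (ω p).2) =
      Measure.infinitePi (fun _ : V × Slot Δ => ν) := by
    rw [Measure.infinitePi_map_pi (μ := fun _ : V × Slot Δ => unif.prod ν)
      (f := fun _ (y : ℝ × X) => y.2) (fun _ => measurable_snd)]
    congr 1
    funext _
    have := (measurePreserving_snd (μ := unif) (ν := ν)).map_eq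
    exact this
  have h2 := (Meas.measurePreserving_comp (X := X) ν (emb (V := V) (Δ := Δ)) emb_inj).map_eq
  rw [← h2, ← h1, Measure.map_map]
  · rfl
  · exact measurable_pi_lambda _ fun _ => measurable_pi_apply _
  · exact measurable_pi_lambda _ fun _ => (measurable_pi_apply _).snd

theorem indep_c_x : IndepFun (cmap (V := V) (Δ := Δ) (X := X)) xmap
    (Measure.infinitePi (fun _ : V × Slot Δ => unif.prod ν)) := by
  refine Meas.indepFun_of_dependsOn _ measurable_cmap measurable_xmap
    (S := {p | p.2 = none}) (T := {p | p.2 ≠ none}) ?_ ?_ ?_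
  · intro ω ω' h
    funext v
    show (ω (v, none)).1 = (ω' (v, none)).1
    rw [h (v, none) rfl]
  · intro ω ω' h
    funext i
    show (ω (emb i)).2 = (ω' (emb i)).2
    rw [h (emb i) (by rcases i with v | p <;> simp [emb])]
  · rw [Set.disjoint_left]
    intro p h1 h2
    exact h2 h1

theorem ae_c_ne {v w : V} (hvw : v ≠ w) :
    ∀ᵐ ω ∂(Measure.infinitePi (fun _ : V × Slot Δ => unif.prod ν)), cmap ω v ≠ cmap ω w := by
  set P := Measure.infinitePi (fun _ : V × Slot Δ => (unif.prod ν : Measure (ℝ × X))) with hP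
  have hm : ∀ u : V, Measurable (fun ω : V × Slot Δ → ℝ × X => cmap ω u) :=
    fun u => (measurable_pi_apply u).comp measurable_cmap
  have hi : IndepFun (fun ω : V × Slot Δ → ℝ × X => cmap ω v) (fun ω => cmap ω w) P := by
    refine Meas.indepFun_of_dependsOn _ (hm v) (hm w) (S := {(v, none)}) (T := {(w, none)}) ?_ ?_ ?_
    · intro ω ω' h
      show (ω (v, none)).1 = (ω' (v, none)).1
      rw [h (v, none) rfl]
    · intro ω ω' h
      show (ω (w, none)).1 = (ω' (w, none)).1
      rw [h (w, none) rfl]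
    · exact Set.disjoint_singleton.mpr fun h => hvw (congrArg Prod.fst h)
  have hl : ∀ u : V, P.map (fun ω : V × Slot Δ → ℝ × X => cmap ω u) = unif := by
    intro u
    have h1 := (measurePreserving_eval_infinitePi (fun _ : V × Slot Δ => (unif.prod ν : Measure (ℝ × X)))
      (u, none))
    have h2 := (measurePreserving_fst (μ := unif) (ν := ν)).comp h1
    exact h2.map_eq
  rw [indepFun_iff_map_prod_eq_prod_map_map (hm v).aemeasurable (hm w).aemeasurable, hl, hl] at hi
  have hms : MeasurableSet {p : ℝ × ℝ | p.1 = p.2} := measurableSet_eq_fun measurable_fst measurable_snd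
  have h0 : (unif.prod unif) {p : ℝ × ℝ | p.1 = p.2} = 0 := by
    rw [Measure.measure_prod_null hms]
    refine Filter.Eventually.of_forall fun x => ?_
    have : (Prod.mk x ⁻¹' {p : ℝ × ℝ | p.1 = p.2}) = {x} := by
      ext y; simp [eq_comm]
    show unif (Prod.mk x ⁻¹' {p : ℝ × ℝ | p.1 = p.2}) = 0
    rw [this]
    simp
  rw [← hi, Measure.map_apply ((hm v).prodMk (hm w)) hms] at h0
  rw [ae_iff]
  refine measure_mono_null ?_ h0
  intro ω hω
  simpa using hω

/-- The transferred labels are iid. -/
theorem law_T [Countable V] (hreg : ∀ v : V, (G.neighborSet v).encard = ((Δ : ℕ) : ℕ∞)) :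
    (Measure.infinitePi (fun _ : V × Slot Δ => unif.prod ν)).map
      (fun ω (i : V ⊕ G.Dart) => xmap ω (idx hreg (cmap ω) i)) =
    Measure.infinitePi (fun _ : V ⊕ G.Dart => ν) := by
  set P := Measure.infinitePi (fun _ : V × Slot Δ => (unif.prod ν : Measure (ℝ × X))) with hP
  have hpair : P.map (fun ω => (cmap ω, xmap ω)) = (P.map cmap).prod (P.map xmap) :=
    (indepFun_iff_map_prod_eq_prod_map_map measurable_cmap.aemeasurable
      measurable_xmap.aemeasurable).mp (indep_c_x ν)
  have hmp : Measurable (fun ω : V × Slot Δ → ℝ × X => (cmap ω, xmap ω)) :=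
    measurable_cmap.prodMk measurable_xmap
  have hcomp : (fun ω (i : V ⊕ G.Dart) => (xmap ω (idx hreg (cmap ω) i) : X)) =
      (fun (p : (V → ℝ) × (V ⊕ V × Fin Δ → X)) (i : V ⊕ G.Dart) => p.2 (idx hreg p.1 i)) ∘
      (fun ω => (cmap ω, xmap ω)) := rfl
  rw [hcomp, ← Measure.map_map (measurable_T hreg) hmp, hpair, law_x]
  have : IsProbabilityMeasure (P.map (cmap (X := X))) :=
    Measure.isProbabilityMeasure_map measurable_cmap.aemeasurable
  ext A hA
  rw [Measure.map_apply (measurable_T hreg) hA, Measure.prod_apply (measurable_T hreg hA)]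
  have hae : ∀ᵐ c ∂(P.map (cmap (X := X))), (Measure.infinitePi (fun _ : V ⊕ V × Fin Δ => ν))
      (Prod.mk c ⁻¹' ((fun (p : (V → ℝ) × (V ⊕ V × Fin Δ → X)) (i : V ⊕ G.Dart) =>
        p.2 (idx hreg p.1 i)) ⁻¹' A)) = Measure.infinitePi (fun _ : V ⊕ G.Dart => ν) A := by
    have h1 : ∀ᵐ c ∂(P.map (cmap (X := X))), Function.Injective c := by
      have hms : MeasurableSet {c : V → ℝ | ∀ v w, v ≠ w → c v ≠ c w} := by
        have : {c : V → ℝ | ∀ v w, v ≠ w → c v ≠ c w} = ⋂ v, ⋂ w, ⋂ (_ : v ≠ w),
            {c : V → ℝ | c v = c w}ᶜ := by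
          ext c; simp
        rw [this]
        refine MeasurableSet.iInter fun v => MeasurableSet.iInter fun w =>
          MeasurableSet.iInter fun _ => ?_
        exact (measurableSet_eq_fun (measurable_pi_apply v) (measurable_pi_apply w)).compl
      have h2 : ∀ᵐ c ∂(P.map (cmap (X := X))), c ∈ {c : V → ℝ | ∀ v w, v ≠ w → c v ≠ c w} := by
        refine (ae_map_iff measurable_cmap.aemeasurable hms).mpr ?_
        show ∀ᵐ ω ∂P, ∀ v w, v ≠ w → cmap ω v ≠ cmap ω w
        rw [ae_all_iff]; intro v
        rw [ae_all_iff]; intro w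
        by_cases hvw : v = w
        · exact Filter.Eventually.of_forall fun _ h => absurd hvw h
        · filter_upwards [ae_c_ne ν hvw] with ω hω _ using hω
      filter_upwards [h2] with c hc v w h
      by_contra hne
      exact hc v w hne h
    filter_upwards [h1] with c hc
    exact Meas.measure_comp_inj ν (idx hreg c) (idx_inj hreg c hc) hA
  rw [lintegral_congr_ae hae, lintegral_const, measure_univ, mul_one]

end Law

/-- the vertex or dart `i` starts within distance `r` of `v` -/
def near (G : SimpleGraph V) (v : V) (r : ℕ) : V ⊕ G.Dart → Prop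
  | Sum.inl u => G.dist v u ≤ r
  | Sum.inr d => G.dist v d.fst ≤ r

section Main

variable {V : Type} {G : SimpleGraph V} {Δ : ℕ} {X : Type} [MeasurableSpace X]
  [StandardBorelSpace X]

noncomputable def coder (Δ : ℕ) (X : Type) [MeasurableSpace X] [StandardBorelSpace X]
    [Nonempty X] : (Slot Δ → ℝ × X) ≃ᵐ ℝ := by
  refine PolishSpace.measurableEquivOfNotCountable ?_ ?_
  · intro h
    obtain ⟨x0⟩ := ‹Nonempty X›
    have hinj : Function.Injective (fun (r : ℝ) (_ : Slot Δ) => ((r, x0) : ℝ × X)) := by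
      intro r s hrs
      exact congrArg Prod.fst (congrFun hrs none)
    have := hinj.countable
    exact not_countable (α := ℝ) this
  · exact not_countable

/-- the labels on vertices and darts extracted from real vertex labels -/
noncomputable def labels [Nonempty X]
    (hreg : ∀ v : V, (G.neighborSet v).encard = ((Δ : ℕ) : ℕ∞)) (ω : V → ℝ) :
    V ⊕ G.Dart → X :=
  fun i => xmap (fun p : V × Slot Δ => (coder Δ X).symm (ω p.1) p.2)
    (idx hreg (cmap (fun p : V × Slot Δ => (coder Δ X).symm (ω p.1) p.2)) i)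

theorem measurable_labels [Nonempty X]
    (hreg : ∀ v : V, (G.neighborSet v).encard = ((Δ : ℕ) : ℕ∞)) :
    Measurable (labels (X := X) hreg) := by
  have h1 : Measurable (fun (ω : V → ℝ) (p : V × Slot Δ) => (coder Δ X).symm (ω p.1) p.2) := by
    refine measurable_pi_lambda _ fun p => ?_
    exact (measurable_pi_apply p.2).comp
      ((coder Δ X).symm.measurable.comp (measurable_pi_apply p.1))
  exact (measurable_T hreg).comp
    ((measurable_cmap.comp h1).prodMk (measurable_xmap.comp h1))

theorem law_labels [Nonempty X] [Countable V] (ν : Measure X) [IsProbabilityMeasure ν]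
    (hreg : ∀ v : V, (G.neighborSet v).encard = ((Δ : ℕ) : ℕ∞)) :
    (Measure.infinitePi (fun _ : V =>
      (Measure.infinitePi (fun _ : Slot Δ => unif.prod ν)).map (coder Δ X))).map
      (labels (X := X) hreg) = Measure.infinitePi (fun _ : V ⊕ G.Dart => ν) := by
  have hp : IsProbabilityMeasure
      ((Measure.infinitePi (fun _ : Slot Δ => unif.prod ν)).map (coder Δ X)) :=
    Measure.isProbabilityMeasure_map (coder Δ X).measurable.aemeasurable
  have h1 : Measurable (fun (ω : V → ℝ) (p : V × Slot Δ) => (coder Δ X).symm (ω p.1) p.2) := by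
    refine measurable_pi_lambda _ fun p => ?_
    exact (measurable_pi_apply p.2).comp
      ((coder Δ X).symm.measurable.comp (measurable_pi_apply p.1))
  have h2 : (Measure.infinitePi (fun _ : V =>
      (Measure.infinitePi (fun _ : Slot Δ => unif.prod ν)).map (coder Δ X))).map
      (fun (ω : V → ℝ) (p : V × Slot Δ) => (coder Δ X).symm (ω p.1) p.2) =
      Measure.infinitePi (fun _ : V × Slot Δ => unif.prod ν) := by
    have e1 : (Measure.infinitePi (fun _ : V =>
      (Measure.infinitePi (fun _ : Slot Δ => unif.prod ν)).map (coder Δ X))).map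
      (fun (ω : V → ℝ) (v : V) => (coder Δ X).symm (ω v)) =
      Measure.infinitePi (fun _ : V => Measure.infinitePi (fun _ : Slot Δ => unif.prod ν)) := by
      rw [Measure.infinitePi_map_pi (μ := fun _ : V =>
        (Measure.infinitePi (fun _ : Slot Δ => unif.prod ν)).map (coder Δ X))
        (f := fun _ y => (coder Δ X).symm y) (fun _ => (coder Δ X).symm.measurable)]
      congr 1
      funext _
      rw [Measure.map_map (coder Δ X).symm.measurable (coder Δ X).measurable]
      have : ((coder Δ X).symm ∘ (coder Δ X)) = id := by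
        funext x; simp
      rw [this, Measure.map_id]
    have e2 := Measure.infinitePi_map_curry_symm (ι := V) (κ := Slot Δ)
      (fun _ _ => (unif.prod ν : Measure (ℝ × X)))
    rw [← e1, Measure.map_map] at e2
    · exact e2
    · exact (MeasurableEquiv.curry _ _ _).symm.measurable
    · exact measurable_pi_lambda _ fun v =>
        (coder Δ X).symm.measurable.comp (measurable_pi_apply v)
  have h3 := law_T (V := V) (G := G) (Δ := Δ) ν hreg
  rw [← h2, Measure.map_map] at h3
  · exact h3
  · exact (measurable_T hreg).comp (measurable_cmap.prodMk measurable_xmap)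
  · exact h1

theorem labels_equiv [Nonempty X]
    (hreg : ∀ v : V, (G.neighborSet v).encard = ((Δ : ℕ) : ℕ∞)) (φ : G ≃g G) (ω : V → ℝ) :
    labels (X := X) hreg (fun u => ω (φ.symm u)) =
      fun i => labels (X := X) hreg ω (act φ.symm i) := by
  funext i
  rcases i with v | d
  · rfl
  · show ((coder Δ X).symm (ω (φ.symm d.fst)) _).2 = ((coder Δ X).symm (ω (φ.symm d.fst)) _).2
    have := rank_equiv hreg (fun v => ((coder Δ X).symm (ω v) none).1) φ
      ⟨(φ.symm d.fst, φ.symm d.snd), φ.symm.map_adj_iff.mpr d.adj⟩ d (by simp) (by simp)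
    exact congrArg (fun j => ((coder Δ X).symm (ω (φ.symm d.fst)) (some (some j))).2) this

theorem labels_local [Nonempty X] (hG : G.IsTree)
    (hreg : ∀ v : V, (G.neighborSet v).encard = ((Δ : ℕ) : ℕ∞)) (ω ω' : V → ℝ) (v : V) (r : ℕ)
    (h : ∀ u, G.dist v u ≤ r + 1 → ω' u = ω u) (i : V ⊕ G.Dart) (hi : near G v r i) :
    labels (X := X) hreg ω' i = labels (X := X) hreg ω i := by
  rcases i with u | d
  · show ((coder Δ X).symm (ω' u) _).2 = ((coder Δ X).symm (ω u) _).2
    rw [h u (le_trans hi (Nat.le_succ r))]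
    rfl
  · show ((coder Δ X).symm (ω' d.fst) (some (some (rank hreg _ d)))).2 =
      ((coder Δ X).symm (ω d.fst) (some (some (rank hreg _ d)))).2
    have hd : G.dist v d.fst ≤ r := hi
    rw [h d.fst (le_trans hd (Nat.le_succ r))]
    have : rank hreg (fun v => ((coder Δ X).symm (ω' v) none).1) d =
        rank hreg (fun v => ((coder Δ X).symm (ω v) none).1) d := by
      apply Fin.ext
      show (G.neighborSet d.fst ∩ {w | ((coder Δ X).symm (ω' w) none).1 <
          ((coder Δ X).symm (ω' d.snd) none).1}).ncard =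
        (G.neighborSet d.fst ∩ {w | ((coder Δ X).symm (ω w) none).1 <
          ((coder Δ X).symm (ω d.snd) none).1}).ncard
      have hn : ∀ w, G.Adj d.fst w → ω' w = ω w := by
        intro w hw
        apply h
        have := hG.connected.dist_triangle (u := v) (v := d.fst) (w := w)
        rw [SimpleGraph.dist_eq_one_iff_adj.mpr hw] at this
        omega
      congr 1
      ext w
      refine and_congr_right fun hw => ?_
      show (((coder Δ X).symm (ω' w) none).1 < ((coder Δ X).symm (ω' d.snd) none).1) ↔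
        (((coder Δ X).symm (ω w) none).1 < ((coder Δ X).symm (ω d.snd) none).1)
      rw [hn w hw, hn d.snd d.adj]
    exact congrArg (fun j => ((coder Δ X).symm (ω d.fst) (some (some j))).2) this

/-- **Transfer theorem**: it suffices to construct the matching as a factor of iid labels (with
values in any standard Borel space) on the vertices and the darts. -/
theorem transfer (Δ : ℕ) (V : Type) (G : SimpleGraph V) (hG : G.IsTree)
    (hreg : ∀ v : V, (G.neighborSet v).encard = ((Δ : ℕ) : ℕ∞))
    {X : Type} [MeasurableSpace X] [StandardBorelSpace X] (ν : Measure X) [IsProbabilityMeasure ν]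
    (Φ : (V ⊕ G.Dart → X) → V → V)
    (hmeas : ∀ v w, MeasurableSet {ω : V ⊕ G.Dart → X | Φ ω v = w})
    (hequiv : ∀ (φ : G ≃g G) (ω : V ⊕ G.Dart → X) (v : V),
      Φ (fun i => ω (act φ.symm i)) (φ v) = φ (Φ ω v))
    (hpm : ∀ᵐ ω ∂(Measure.infinitePi (fun _ : V ⊕ G.Dart => ν)),
      ∀ v : V, G.Adj v (Φ ω v) ∧ Φ ω (Φ ω v) = v)
    (hfin : ∀ᵐ ω ∂(Measure.infinitePi (fun _ : V ⊕ G.Dart => ν)),
      ∀ v : V, ∃ r : ℕ, ∀ ω' : V ⊕ G.Dart → X,
        (∀ i, near G v r i → ω' i = ω i) → Φ ω' v = Φ ω v) :
    ∃ (μ : MeasureTheory.Measure ℝ) (_ : MeasureTheory.IsProbabilityMeasure μ)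
        (F : (V → ℝ) → V → V),
        (∀ v w : V, MeasurableSet {ω : V → ℝ | F ω v = w}) ∧
        (∀ (φ : G ≃g G) (ω : V → ℝ) (v : V),
          F (fun u => ω (φ.symm u)) (φ v) = φ (F ω v)) ∧
        (∀ᵐ ω ∂(MeasureTheory.Measure.infinitePi (fun _ : V => μ)),
          ∀ v : V, G.Adj v (F ω v) ∧ F ω (F ω v) = v) ∧
        (∀ᵐ ω ∂(MeasureTheory.Measure.infinitePi (fun _ : V => μ)),
          ∀ v : V, ∃ r : ℕ, ∀ ω' : V → ℝ,
            (∀ u : V, G.dist v u ≤ r → ω' u = ω u) → F ω' v = F ω v) := by
  have hX : Nonempty X := nonempty_of_isProbabilityMeasure ν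
  have hV : Countable V := countable_of_tree hG (nbr_finite hreg)
  have hp : IsProbabilityMeasure
      ((Measure.infinitePi (fun _ : Slot Δ => unif.prod ν)).map (coder Δ X)) :=
    Measure.isProbabilityMeasure_map (coder Δ X).measurable.aemeasurable
  have hlaw := law_labels (V := V) (G := G) (Δ := Δ) ν hreg
  refine ⟨(Measure.infinitePi (fun _ : Slot Δ => unif.prod ν)).map (coder Δ X), hp,
    fun ω => Φ (labels hreg ω), ?_, ?_, ?_, ?_⟩
  · intro v w
    exact measurable_labels hreg (hmeas v w)
  · intro φ ω v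
    show Φ (labels hreg (fun u => ω (φ.symm u))) (φ v) = φ (Φ (labels hreg ω) v)
    rw [labels_equiv, hequiv]
  · rw [← hlaw] at hpm
    exact ae_of_ae_map (measurable_labels hreg).aemeasurable hpm
  · rw [← hlaw] at hfin
    filter_upwards [ae_of_ae_map (measurable_labels hreg).aemeasurable hfin] with ω hω v
    obtain ⟨r, hr⟩ := hω v
    refine ⟨r + 1, fun ω' h => hr _ fun i hi => ?_⟩
    exact labels_local hG hreg ω ω' v r h i hi

end Main

end Transfer

end MP947a32
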