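import Pool.Agent.Lib.MP_947a32_pr.Aut68
import Pool.Agent.Lib.MP_947a32_pr.Transfer68

set_option autoImplicit false
set_option linter.unusedSectionVars false

open MeasureTheory ProbabilityTheory
open scoped ENNReal

namespace MP947a32

namespace Tree

variable {V : Type*} {G : SimpleGraph V}

theorem iso_dist_le (hG : G.Connected) (φ : G ≃g G) (u v : V) :
    G.dist (φ u) (φ v) ≤ G.dist u v := by
  obtain ⟨p, hp⟩ := hG.exists_walk_length_eq_dist u v
  have h := SimpleGraph.dist_le (p.map φ.toHom)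
  rw [SimpleGraph.Walk.length_map, hp] at h
  exact h

theorem iso_dist (hG : G.Connected) (φ : G ≃g G) (u v : V) :
    G.dist (φ u) (φ v) = G.dist u v := by
  refine le_antisymm (iso_dist_le hG φ u v) ?_
  have := iso_dist_le hG φ.symm (φ u) (φ v)
  simpa using this

theorem iso_side (hG : G.Connected) (φ : G ≃g G) {a b v : V} :
    φ v ∈ Side G (φ a) (φ b) ↔ v ∈ Side G a b := by
  simp only [Side, Set.mem_ofPred_eq, iso_dist hG]

/-- swapping two branches at a vertex -/
theorem exists_branch_swap (hG : G.IsTree) (Δ : ℕ)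
    (hreg : ∀ v : V, (G.neighborSet v).encard = ((Δ : ℕ) : ℕ∞)) {m z z' : V}
    (hz : G.Adj m z) (hz' : G.Adj m z') :
    ∃ σ : G ≃g G, σ z = z' ∧ σ m = m ∧ ∀ x, x ∉ Side G z m → x ∉ Side G z' m → σ x = x := by
  classical
  by_cases hzz : z = z'
  · subst hzz
    exact ⟨SimpleGraph.Iso.refl, rfl, rfl, fun _ _ _ => rfl⟩
  obtain ⟨ρ, hρm, hρz⟩ := exists_iso_dart hG Δ hreg hz hz'
  have hc := hG.connected
  -- images of the sides
  have s1 : ∀ x, x ∈ Side G z m → ρ x ∈ Side G z' m := by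
    intro x hx
    have := (iso_side hc ρ (a := z) (b := m) (v := x)).mpr hx
    rwa [hρm, hρz] at this
  have s2 : ∀ x, x ∈ Side G z' m → ρ.symm x ∈ Side G z m := by
    intro x hx
    have := (iso_side hc ρ (a := z) (b := m) (v := ρ.symm x))
    rw [hρm, hρz] at this
    exact this.mp (by simpa using hx)
  have hdis : ∀ x, x ∈ Side G z m → x ∉ Side G z' m := by
    intro x hx hx'
    have e1 := (mem_side_iff_next hG hz).mp hx
    have e2 := (mem_side_iff_next hG hz').mp hx'
    exact hzz (next_unique hG hz hz' e1 e2)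
  let f : V → V := fun x => if x ∈ Side G z m then ρ x else if x ∈ Side G z' m then ρ.symm x else x
  have f1 : ∀ x, x ∈ Side G z m → f x = ρ x := fun x hx => by simp [f, hx]
  have f2 : ∀ x, x ∈ Side G z' m → f x = ρ.symm x := fun x hx => by
    have : x ∉ Side G z m := fun h => hdis x h hx
    simp [f, hx, this]
  have f3 : ∀ x, x ∉ Side G z m → x ∉ Side G z' m → f x = x := fun x h1 h2 => by
    simp [f, h1, h2]
  have hff : ∀ x, f (f x) = x := by
    intro x
    by_cases h1 : x ∈ Side G z m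
    · rw [f1 x h1, f2 _ (s1 x h1)]; simp
    · by_cases h2 : x ∈ Side G z' m
      · rw [f2 x h2, f1 _ (s2 x h2)]; simp
      · rw [f3 x h1 h2, f3 x h1 h2]
  have hm1 : m ∉ Side G z m := (not_mem_side_iff hG hz.symm m).mpr (self_mem_side hz)
  have hm2 : m ∉ Side G z' m := (not_mem_side_iff hG hz'.symm m).mpr (self_mem_side hz')
  have fz : f z = z' := by rw [f1 z (self_mem_side hz.symm), hρz]
  have fm : f m = m := f3 m hm1 hm2
  have fz' : f z' = z := by
    rw [f2 z' (self_mem_side hz'.symm), ← hρz]; simp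
  have hadj : ∀ x y, G.Adj x y → G.Adj (f x) (f y) := by
    have key : ∀ x y, G.Adj x y → x ∈ Side G z m → G.Adj (f x) (f y) := by
      intro x y hxy hx
      by_cases hy : y ∈ Side G z m
      · rw [f1 x hx, f1 y hy]; exact ρ.map_adj_iff.mpr hxy
      · have hy' := (not_mem_side_iff hG hz.symm y).mp hy
        obtain ⟨rfl, rfl⟩ := side_cross hG hz.symm hxy hx hy'
        rw [fz, fm]; exact hz'.symm
    have key' : ∀ x y, G.Adj x y → x ∈ Side G z' m → G.Adj (f x) (f y) := by
      intro x y hxy hx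
      by_cases hy : y ∈ Side G z' m
      · rw [f2 x hx, f2 y hy]; exact ρ.symm.map_adj_iff.mpr hxy
      · have hy' := (not_mem_side_iff hG hz'.symm y).mp hy
        obtain ⟨rfl, rfl⟩ := side_cross hG hz'.symm hxy hx hy'
        rw [fz', fm]; exact hz.symm
    intro x y hxy
    by_cases h1 : x ∈ Side G z m
    · exact key x y hxy h1
    by_cases h2 : x ∈ Side G z' m
    · exact key' x y hxy h2
    by_cases h3 : y ∈ Side G z m
    · exact (key y x hxy.symm h3).symm
    by_cases h4 : y ∈ Side G z' m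
    · exact (key' y x hxy.symm h4).symm
    rw [f3 x h1 h2, f3 y h3 h4]; exact hxy
  refine ⟨⟨⟨f, f, hff, hff⟩, ?_⟩, fz, fm, f3⟩
  intro x y
  constructor
  · intro h
    have := hadj _ _ h
    simpa [hff] using this
  · exact hadj x y

/-- The automorphism group of a regular tree is distance-transitive. -/
theorem exists_iso_of_dist (hG : G.IsTree) (Δ : ℕ) (hΔ : 1 ≤ Δ)
    (hreg : ∀ v : V, (G.neighborSet v).encard = ((Δ : ℕ) : ℕ∞)) :
    ∀ (n : ℕ) (v w v' w' : V), G.dist v w = n → G.dist v' w' = n →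
      ∃ φ : G ≃g G, φ v = v' ∧ φ w = w' := by
  have hnb : ∀ v : V, ∃ w, G.Adj v w := by
    intro v
    have : (G.neighborSet v).Nonempty := by
      rw [← Set.encard_ne_zero, hreg]
      exact_mod_cast (by omega : Δ ≠ 0)
    exact this
  intro n
  induction n with
  | zero =>
    intro v w v' w' h h'
    have e := (dist_zero_iff hG).mp h
    have e' := (dist_zero_iff hG).mp h'
    subst e; subst e'
    obtain ⟨x, hx⟩ := hnb v
    obtain ⟨x', hx'⟩ := hnb v'
    obtain ⟨φ, h1, _⟩ := exists_iso_dart hG Δ hreg hx hx'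
    exact ⟨φ, h1, h1⟩
  | succ n ih =>
    intro v w v' w' h h'
    have hne : w ≠ v := by rintro rfl; simp at h
    have hne' : w' ≠ v' := by rintro rfl; simp at h'
    obtain ⟨u, hu, du⟩ := exists_parent hG hne
    obtain ⟨u', hu', du'⟩ := exists_parent hG hne'
    obtain ⟨φ, h1, h2⟩ := ih v u v' u' (by omega) (by omega)
    have hz : G.Adj u' (φ w) := by
      rw [← h2]; exact φ.map_adj_iff.mpr hu.symm
    obtain ⟨σ, s1, s2, s3⟩ := exists_branch_swap hG Δ hreg hz hu'.symm
    have d1 : G.dist v' (φ w) = n + 1 := by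
      rw [← h1, iso_dist hG.connected, h]
    refine ⟨φ.trans σ, ?_, by simpa using s1⟩
    show σ (φ v) = v'
    rw [h1]
    apply s3
    · show ¬ G.dist v' (φ w) < G.dist v' u'
      omega
    · show ¬ G.dist v' w' < G.dist v' u'
      omega

/-- Any two vertices can be swapped. -/
theorem exists_swap (hG : G.IsTree) (Δ : ℕ) (hΔ : 1 ≤ Δ)
    (hreg : ∀ v : V, (G.neighborSet v).encard = ((Δ : ℕ) : ℕ∞)) (v w : V) :
    ∃ φ : G ≃g G, φ v = w ∧ φ w = v :=
  exists_iso_of_dist hG Δ hΔ hreg _ v w w v rfl (G.dist_comm)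

end Tree

namespace Transfer

variable {V : Type*} {G : SimpleGraph V} {X : Type*} [MeasurableSpace X]
  (ν : Measure X) [IsProbabilityMeasure ν]

theorem act_inj (φ : G ≃g G) : Function.Injective (act φ) := by
  rintro (v | d) (w | d') h
  · simp only [act, Sum.inl.injEq] at h
    exact congrArg Sum.inl (φ.injective h)
  · simp [act] at h
  · simp [act] at h
  · simp only [act, Sum.inr.injEq, SimpleGraph.Dart.mk.injEq, Prod.mk.injEq] at h
    refine congrArg Sum.inr (SimpleGraph.Dart.ext _ _ (Prod.ext ?_ ?_))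
    · exact φ.injective h.1
    · exact φ.injective h.2

theorem act_symm_act (φ : G ≃g G) (i : V ⊕ G.Dart) : act φ.symm (act φ i) = i := by
  rcases i with v | d
  · simp [act]
  · simp [act]

theorem act_act_symm (φ : G ≃g G) (i : V ⊕ G.Dart) : act φ (act φ.symm i) = i := by
  rcases i with v | d
  · simp [act]
  · simp [act]

/-- The automorphism action preserves the iid law. -/
theorem measurePreserving_act (φ : G ≃g G) :
    MeasurePreserving (fun (ω : V ⊕ G.Dart → X) i => ω (act φ i))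
      (Measure.infinitePi fun _ => ν) (Measure.infinitePi fun _ => ν) :=
  Meas.measurePreserving_comp ν (act φ) (act_inj φ)

/-- expectation is invariant -/
theorem lintegral_act (φ : G ≃g G) {f : (V ⊕ G.Dart → X) → ℝ≥0∞} (hf : Measurable f) :
    ∫⁻ ω, f (fun i => ω (act φ i)) ∂(Measure.infinitePi fun _ => ν) =
      ∫⁻ ω, f ω ∂(Measure.infinitePi fun _ => ν) :=
  (measurePreserving_act ν φ).lintegral_comp hf

/-- Symmetry of expectations of diagonally invariant functions on the regular tree. -/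
theorem lintegral_swap (hG : G.IsTree) (Δ : ℕ) (hΔ : 1 ≤ Δ)
    (hreg : ∀ v : V, (G.neighborSet v).encard = ((Δ : ℕ) : ℕ∞))
    {f : V → V → (V ⊕ G.Dart → X) → ℝ≥0∞} (hf : ∀ v w, Measurable (f v w))
    (hinv : ∀ (φ : G ≃g G) (v w : V) (ω : V ⊕ G.Dart → X),
      f (φ v) (φ w) (fun i => ω (act φ.symm i)) = f v w ω) (v w : V) :
    ∫⁻ ω, f v w ω ∂(Measure.infinitePi fun _ => ν) =
      ∫⁻ ω, f w v ω ∂(Measure.infinitePi fun _ => ν) := by
  obtain ⟨φ, h1, h2⟩ := Tree.exists_swap hG Δ hΔ hreg v w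
  have := lintegral_act ν φ.symm (hf (φ v) (φ w))
  rw [h1, h2] at this
  rw [← this]
  refine lintegral_congr fun ω => ?_
  rw [← hinv φ v w ω, h1, h2]

/-- Mass transport principle on the regular tree. -/
theorem mass_transport (hG : G.IsTree) (Δ : ℕ) (hΔ : 1 ≤ Δ)
    (hreg : ∀ v : V, (G.neighborSet v).encard = ((Δ : ℕ) : ℕ∞))
    {f : V → V → (V ⊕ G.Dart → X) → ℝ≥0∞} (hf : ∀ v w, Measurable (f v w))
    (hinv : ∀ (φ : G ≃g G) (v w : V) (ω : V ⊕ G.Dart → X),
      f (φ v) (φ w) (fun i => ω (act φ.symm i)) = f v w ω) (v : V) :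
    ∫⁻ ω, ∑' w, f v w ω ∂(Measure.infinitePi fun _ => ν) =
      ∫⁻ ω, ∑' w, f w v ω ∂(Measure.infinitePi fun _ => ν) := by
  have hfin : ∀ v, (G.neighborSet v).Finite := nbr_finite hreg
  have : Countable V := countable_of_tree hG hfin
  rw [lintegral_tsum fun w => (hf v w).aemeasurable, lintegral_tsum fun w => (hf w v).aemeasurable]
  exact tsum_congr fun w => lintegral_swap ν hG Δ hΔ hreg hf hinv v w

/-- invariance under automorphisms: the expectation does not depend on the vertex -/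
theorem lintegral_vertex (hG : G.IsTree) (Δ : ℕ) (hΔ : 1 ≤ Δ)
    (hreg : ∀ v : V, (G.neighborSet v).encard = ((Δ : ℕ) : ℕ∞))
    {f : V → (V ⊕ G.Dart → X) → ℝ≥0∞} (hf : ∀ v, Measurable (f v))
    (hinv : ∀ (φ : G ≃g G) (v : V) (ω : V ⊕ G.Dart → X),
      f (φ v) (fun i => ω (act φ.symm i)) = f v ω) (v w : V) :
    ∫⁻ ω, f v ω ∂(Measure.infinitePi fun _ => ν) =
      ∫⁻ ω, f w ω ∂(Measure.infinitePi fun _ => ν) :=
  lintegral_swap ν hG Δ hΔ hreg (f := fun v _ => f v) (fun v _ => hf v)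
    (fun φ v _ ω => hinv φ v ω) v w

/-- invariance under automorphisms: the expectation does not depend on the dart -/
theorem lintegral_dart (hG : G.IsTree) (Δ : ℕ)
    (hreg : ∀ v : V, (G.neighborSet v).encard = ((Δ : ℕ) : ℕ∞))
    {f : V → V → (V ⊕ G.Dart → X) → ℝ≥0∞} (hf : ∀ v w, Measurable (f v w))
    (hinv : ∀ (φ : G ≃g G) (v w : V) (ω : V ⊕ G.Dart → X),
      f (φ v) (φ w) (fun i => ω (act φ.symm i)) = f v w ω) {a b c d : V}
    (hab : G.Adj a b) (hcd : G.Adj c d) :
    ∫⁻ ω, f a b ω ∂(Measure.infinitePi fun _ => ν) =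
      ∫⁻ ω, f c d ω ∂(Measure.infinitePi fun _ => ν) := by
  obtain ⟨φ, h1, h2⟩ := Tree.exists_iso_dart hG Δ hreg hab hcd
  have := lintegral_act ν φ.symm (hf (φ a) (φ b))
  rw [h1, h2] at this
  rw [← this]
  refine lintegral_congr fun ω => ?_
  rw [← hinv φ a b ω, h1, h2]

end Transfer

end MP947a32
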