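import Pool.Agent.Lib.MP_947a32_pr.Defs
import Pool.Agent.Lib.MP_947a32_pr.Mtp68

/-!
# Tree geometry for `side G p` (helper68)
-/

set_option autoImplicit false

open Classical MeasureTheory

namespace Pool.Agent.PM

open MP947a32

variable {V : Type} {G : SimpleGraph V}

theorem side_def {p : V × V} {x : V} : side G p x ↔ x ∈ Tree.Side G p.1 p.2 := Iff.rfl

theorem side_iff (hG : G.IsTree) {p : V × V} (hp : G.Adj p.1 p.2) (x : V) :
    ¬ side G p x ↔ side G p.swap x :=
  Tree.not_mem_side_iff hG hp x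

theorem side_swap_iff (hG : G.IsTree) {p : V × V} (hp : G.Adj p.1 p.2) (x : V) :
    side G p x ↔ ¬ side G p.swap x := by
  rw [← side_iff hG hp x, not_not]

theorem side_fst {p : V × V} (hp : G.Adj p.1 p.2) : side G p p.1 :=
  Tree.self_mem_side hp

theorem not_side_snd (p : V × V) : ¬ side G p p.2 := by
  intro h
  have h2 : G.dist p.2 p.1 < G.dist p.2 p.2 := h
  rw [SimpleGraph.dist_self] at h2
  exact Nat.not_lt_zero _ h2

theorem side_cross (hG : G.IsTree) {p : V × V} (hp : G.Adj p.1 p.2) {x y : V} (hxy : G.Adj x y)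
    (hx : side G p x) (hy : ¬ side G p y) : x = p.1 ∧ y = p.2 :=
  Tree.side_cross hG hp hxy hx ((side_iff hG hp y).mp hy)

theorem side_cross' (hG : G.IsTree) {p : V × V} (hp : G.Adj p.1 p.2) {u v : V} (huv : G.Adj u v)
    (hu : side G p u) (hv : ¬ side G p v) : (u, v) = p := by
  obtain ⟨h1, h2⟩ := side_cross hG hp huv hu hv
  exact Prod.ext h1 h2

/-- an edge different from `p` has both ends on the same side of `p` -/
theorem side_adj (hG : G.IsTree) {p : V × V} (hp : G.Adj p.1 p.2) {u v : V} (huv : G.Adj u v)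
    (h1 : (u, v) ≠ p) (h2 : (v, u) ≠ p) : side G p u ↔ side G p v := by
  constructor
  · intro h
    by_contra hv
    exact h1 (side_cross' hG hp huv h hv)
  · intro h
    by_contra hv
    exact h2 (side_cross' hG hp huv.symm h hv)

/-- distances across the dart `p` -/
theorem dist_across (hG : G.IsTree) {p : V × V} (hp : G.Adj p.1 p.2) {u v : V}
    (hu : side G p u) (hv : ¬ side G p v) :
    G.dist u v = G.dist u p.1 + 1 + G.dist p.2 v :=
  Tree.dist_of_sides hG hp hu ((side_iff hG hp v).mp hv)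

theorem dist_snd_of_side (hG : G.IsTree) {p : V × V} (hp : G.Adj p.1 p.2) {u : V}
    (hu : side G p u) : G.dist u p.2 = G.dist u p.1 + 1 :=
  Tree.side_dist hG hp hu

theorem dist_fst_of_not_side (hG : G.IsTree) {p : V × V} (hp : G.Adj p.1 p.2) {u : V}
    (hu : ¬ side G p u) : G.dist u p.1 = G.dist u p.2 + 1 :=
  Tree.side_dist hG hp.symm ((side_iff hG hp u).mp hu)

/-- if `q` points away from `p` then the head side of `q` is contained in the head side of `p` -/
theorem side_nest (hG : G.IsTree) {p q : V × V} (hp : G.Adj p.1 p.2) (hq : G.Adj q.1 q.2)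
    (h1 : side G q p.2) (h2 : ¬ side G p q.1) (hne : q ≠ p.swap) :
    ∀ x, ¬ side G q x → ¬ side G p x := by
  intro x hx hxp
  have e1 := dist_across hG hq h1 hx
  have e2 : G.dist p.2 x = 1 + G.dist p.1 x := by
    have := dist_snd_of_side hG hp hxp
    rw [G.dist_comm (u := p.2), G.dist_comm (u := p.1)]
    omega
  have e3 := dist_across hG hp hxp h2
  have e4 : G.dist q.1 x = 1 + G.dist q.2 x := by
    have := dist_fst_of_not_side hG hq hx
    rw [G.dist_comm (u := q.1), G.dist_comm (u := q.2)]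
    omega
  rw [G.dist_comm (u := x) (v := q.1), G.dist_comm (u := x) (v := p.1)] at e3
  have h0 : G.dist p.2 q.1 = 0 := by omega
  have hpq : p.2 = q.1 := (Tree.dist_zero_iff hG).mp h0
  apply hne
  have hnext : q.2 = p.1 := by
    refine Tree.next_unique hG (m := q.1) (v := x) hq (hpq ▸ hp.symm) (by omega) ?_
    rw [← hpq]; omega
  exact Prod.ext hpq.symm hnext

/-- contrapositive form of `side_nest` -/
theorem side_nest' (hG : G.IsTree) {p q : V × V} (hp : G.Adj p.1 p.2) (hq : G.Adj q.1 q.2)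
    (h1 : side G q p.2) (h2 : ¬ side G p q.1) (hne : q ≠ p.swap) :
    ∀ x, side G p x → side G q x := by
  intro x hx
  by_contra h
  exact side_nest hG hp hq h1 h2 hne x h hx

/-- the head sides of two darts pointing away from each other are disjoint -/
theorem side_disj (hG : G.IsTree) {q q' : V × V} (hq : G.Adj q.1 q.2) (hq' : G.Adj q'.1 q'.2)
    (h1 : side G q q'.1) (h2 : side G q' q.1) (hne : q ≠ q') :
    ∀ x, ¬ side G q x → side G q' x := by
  intro x hx
  by_contra hx'
  have e1 := dist_across hG hq h1 hx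
  have e2 := dist_across hG hq' h2 hx'
  have e3 : G.dist q.1 x = 1 + G.dist q.2 x := by
    have := dist_fst_of_not_side hG hq hx
    rw [G.dist_comm (u := q.1), G.dist_comm (u := q.2)]
    omega
  have e4 : G.dist q'.1 x = 1 + G.dist q'.2 x := by
    have := dist_fst_of_not_side hG hq' hx'
    rw [G.dist_comm (u := q'.1), G.dist_comm (u := q'.2)]
    omega
  rw [G.dist_comm (u := q'.1) (v := q.1)] at e1
  have h0 : G.dist q.1 q'.1 = 0 := by omega
  have hpq : q.1 = q'.1 := (Tree.dist_zero_iff hG).mp h0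
  apply hne
  refine Prod.ext hpq ?_
  refine Tree.next_unique hG (m := q.1) (v := x) hq (hpq ▸ hq') (by omega) ?_
  rw [hpq]; omega

theorem mp_fst (φ : V ≃ V) (p : V × V) : (mp φ p).1 = φ p.1 := rfl
theorem mp_snd (φ : V ≃ V) (p : V × V) : (mp φ p).2 = φ p.2 := rfl
theorem mp_swap (φ : V ≃ V) (p : V × V) : (mp φ p).swap = mp φ p.swap := rfl

theorem mp_inj (φ : V ≃ V) : Function.Injective (mp φ) := by
  intro p q h
  have h1 := congrArg Prod.fst h
  have h2 := congrArg Prod.snd h
  exact Prod.ext (φ.injective h1) (φ.injective h2)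

theorem mp_symm_mp (φ : V ≃ V) (p : V × V) : mp φ.symm (mp φ p) = p := by
  simp [mp]

theorem mp_mp_symm (φ : V ≃ V) (p : V × V) : mp φ (mp φ.symm p) = p := by
  simp [mp]

theorem dist_map' (φ : G ≃g G) (u v : V) : G.dist (φ u) (φ v) = G.dist u v := by
  have key : ∀ (φ : G ≃g G) (u v : V), G.Reachable u v → G.dist (φ u) (φ v) ≤ G.dist u v := by
    intro φ u v h
    obtain ⟨p, hp⟩ := h.exists_walk_length_eq_dist
    have h := SimpleGraph.dist_le (p.map φ.toHom)
    rw [SimpleGraph.Walk.length_map, hp] at h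
    exact h
  by_cases h : G.Reachable u v
  · refine le_antisymm (key φ u v h) ?_
    have h' : G.Reachable (φ u) (φ v) := h.map φ.toHom
    have := key φ.symm (φ u) (φ v) h'
    simpa using this
  · have h' : ¬ G.Reachable (φ u) (φ v) := by
      intro h'
      have := h'.map φ.symm.toHom
      apply h
      have e1 : φ.symm.toHom (φ u) = u := φ.symm_apply_apply u
      have e2 : φ.symm.toHom (φ v) = v := φ.symm_apply_apply v
      rwa [e1, e2] at this
    rw [SimpleGraph.dist_eq_zero_of_not_reachable h, SimpleGraph.dist_eq_zero_of_not_reachable h']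

/-- `side_map` without the tree assumption -/
theorem side_map' (φ : G ≃g G) (p : V × V) (x : V) :
    side G (mp φ.toEquiv p) (φ x) ↔ side G p x := by
  show G.dist (φ x) (φ p.1) < G.dist (φ x) (φ p.2) ↔ _
  rw [dist_map', dist_map']
  rfl

theorem side_map (hG : G.IsTree) (φ : G ≃g G) (p : V × V) (x : V) :
    side G (mp φ.toEquiv p) (φ x) ↔ side G p x :=
  Tree.iso_side hG.connected φ

theorem side_map_symm (hG : G.IsTree) (φ : G ≃g G) (p : V × V) (x : V) :
    side G (mp φ.toEquiv p) x ↔ side G p (φ.symm x) := by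
  have := side_map hG φ p (φ.symm x)
  rwa [φ.apply_symm_apply] at this

theorem exists_aut (hG : G.IsTree) (Δ : ℕ)
    (hreg : ∀ v : V, (G.neighborSet v).encard = ((Δ : ℕ) : ℕ∞)) {p q : V × V}
    (hp : G.Adj p.1 p.2) (hq : G.Adj q.1 q.2) : ∃ φ : G ≃g G, mp φ.toEquiv p = q := by
  obtain ⟨φ, h1, h2⟩ := Tree.exists_iso_dart hG Δ hreg hp hq
  exact ⟨φ, Prod.ext h1 h2⟩

theorem exists_aut_vertex (hG : G.IsTree) {Δ : ℕ} (hΔ : 1 ≤ Δ)
    (hreg : ∀ v : V, (G.neighborSet v).encard = ((Δ : ℕ) : ℕ∞)) (u v : V) :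
    ∃ φ : G ≃g G, φ u = v := by
  obtain ⟨φ, h1, _⟩ := Tree.exists_iso_of_dist hG Δ hΔ hreg 0 u u v v (by simp) (by simp)
  exact ⟨φ, h1⟩

theorem exists_aut_swap (hG : G.IsTree) {Δ : ℕ} (hΔ : 1 ≤ Δ)
    (hreg : ∀ v : V, (G.neighborSet v).encard = ((Δ : ℕ) : ℕ∞)) (u v : V) :
    ∃ φ : G ≃g G, φ u = v ∧ φ v = u :=
  Tree.exists_swap hG Δ hΔ hreg u v

theorem nbr_finite {Δ : ℕ} (hreg : ∀ v : V, (G.neighborSet v).encard = ((Δ : ℕ) : ℕ∞)) (v : V) :
    (G.neighborSet v).Finite := Transfer.nbr_finite hreg v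

theorem mem_nb (Δ : ℕ) (hreg : ∀ v : V, (G.neighborSet v).encard = ((Δ : ℕ) : ℕ∞)) (v u : V) :
    u ∈ nb G v ↔ G.Adj v u := by
  unfold nb
  rw [dif_pos (nbr_finite hreg v)]
  simp

theorem card_nb (Δ : ℕ) (hreg : ∀ v : V, (G.neighborSet v).encard = ((Δ : ℕ) : ℕ∞)) (v : V) :
    (nb G v).card = Δ := by
  have h1 : (G.neighborSet v).ncard = Δ := by
    rw [Set.ncard, hreg]; rfl
  unfold nb
  rw [dif_pos (nbr_finite hreg v), ← Set.ncard_eq_toFinset_card _ (nbr_finite hreg v), h1]

theorem countable_V (hG : G.IsTree) (Δ : ℕ)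
    (hreg : ∀ v : V, (G.neighborSet v).encard = ((Δ : ℕ) : ℕ∞)) : Countable V :=
  Transfer.countable_of_tree hG (nbr_finite hreg)

theorem exists_dart {Δ : ℕ} (hΔ : 1 ≤ Δ)
    (hreg : ∀ v : V, (G.neighborSet v).encard = ((Δ : ℕ) : ℕ∞)) (v : V) : ∃ w, G.Adj v w := by
  have : (G.neighborSet v).Nonempty := by
    rw [← Set.encard_ne_zero, hreg]
    exact_mod_cast (by omega : Δ ≠ 0)
  exact this

/-- balls are finite -/
theorem ball_finite (hG : G.IsTree) {Δ : ℕ}
    (hreg : ∀ v : V, (G.neighborSet v).encard = ((Δ : ℕ) : ℕ∞)) (v : V) (n : ℕ) :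
    {u | G.dist v u ≤ n}.Finite := by
  induction n with
  | zero =>
    refine (Set.finite_singleton v).subset ?_
    intro u hu
    have : G.dist v u = 0 := Nat.le_zero.mp hu
    exact ((Tree.dist_zero_iff hG).mp this).symm
  | succ n ih =>
    refine (ih.union (ih.biUnion (fun u _ => nbr_finite hreg u))).subset ?_
    intro u hu
    by_cases hun : G.dist v u ≤ n
    · exact Or.inl hun
    · right
      have hu' : G.dist v u ≤ n + 1 := hu
      have hne : u ≠ v := by rintro rfl; simp at hun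
      obtain ⟨w, hw, dw⟩ := Tree.exists_parent hG hne
      simp only [Set.mem_iUnion]
      exact ⟨w, by show G.dist v w ≤ n; omega, hw.symm⟩

end Pool.Agent.PM
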