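import Pool.Agent.Lib.MP_947a32_pr.RfxA
import Pool.Agent.Lib.MP_947a32_pr.TreeS

/-! # MP_947a32_pr, piece RFXB: label probabilities given the state (helper14) -/

set_option autoImplicit false
set_option linter.unusedVariables false

open Classical MeasureTheory ProbabilityTheory
open scoped ENNReal

namespace Pool.Agent.PM

variable {V : Type} {G : SimpleGraph V}

theorem rfx_meas_lab (i : Fin 3) (d : V × V) : Measurable (fun l : Lb G => lab l i d) := by
  unfold lab
  by_cases h : G.Adj d.1 d.2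
  · simp only [dif_pos h]
    exact measurable_pi_apply _
  · simp only [dif_neg h]
    exact measurable_const

/-! ### activation -/

theorem rfx_lab_lt {δ : ℝ} (i : Fin 3) {d : V × V} (hd : G.Adj d.1 d.2) :
    lam G {l | lab l i d < δ} ≤ ENNReal.ofReal δ := by
  have := rfx_unif_prob
  have h := measurePreserving_eval_infinitePi (fun _ : Dt G × Fin 3 => unif) (⟨d, hd⟩, i)
  have h1 : {l : Lb G | lab l i d < δ} = (Function.eval (⟨d, hd⟩, i)) ⁻¹' (Set.Iio δ) := by
    ext l
    simp only [Set.mem_ofPred_eq, Set.mem_preimage, Set.mem_Iio, Function.eval]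
    unfold lab
    rw [dif_pos hd]
  rw [h1]
  unfold lam
  rw [h.measure_preimage measurableSet_Iio.nullMeasurableSet]
  unfold unif
  rw [Measure.restrict_apply measurableSet_Iio]
  calc volume (Set.Iio δ ∩ Set.Icc (0 : ℝ) 1) ≤ volume (Set.Ico (0 : ℝ) δ) := by
        refine measure_mono ?_
        intro y hy
        exact ⟨hy.2.1, hy.1⟩
    _ = ENNReal.ofReal δ := by rw [Real.volume_Ico, sub_zero]

theorem rfx_act {σ : St V} (h : WF0 G σ) (δ : ℝ) (x : V) :
    lam G {l | act δ (lab l 0) (σ x)} ≤ ENNReal.ofReal (1000 * δ) := by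
  by_cases hc : (σ x).ports.card ≤ 1000
  · have h1 : {l : Lb G | act δ (lab l 0) (σ x)} ⊆ ⋃ q ∈ (σ x).ports, {l | lab l 0 q < δ} := by
      rintro l ⟨_, q, hq, hl⟩
      exact Set.mem_biUnion hq hl
    calc lam G {l | act δ (lab l 0) (σ x)} ≤ lam G (⋃ q ∈ (σ x).ports, {l | lab l 0 q < δ}) :=
          measure_mono h1
      _ ≤ ∑ q ∈ (σ x).ports, lam G {l | lab l 0 q < δ} := measure_biUnion_finset_le _ _
      _ ≤ ∑ q ∈ (σ x).ports, ENNReal.ofReal δ :=
          Finset.sum_le_sum (fun q hq => rfx_lab_lt 0 (h.tail x q hq).2)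
      _ = ((σ x).ports.card : ℝ≥0∞) * ENNReal.ofReal δ := by
          rw [Finset.sum_const, nsmul_eq_mul]
      _ ≤ 1000 * ENNReal.ofReal δ := by
          gcongr
          exact_mod_cast hc
      _ = ENNReal.ofReal (1000 * δ) := by
          rw [ENNReal.ofReal_mul (by norm_num)]
          norm_num
  · have h1 : {l : Lb G | act δ (lab l 0) (σ x)} = ∅ := by
      rw [Set.eq_empty_iff_forall_notMem]
      rintro l ⟨h1, _⟩
      exact hc h1
    rw [h1]
    simp

/-- a comp all of whose ports are proposed by itself is activated -/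
theorem rfx_allop_act {σ : St V} (h : WF0 G σ) {δ : ℝ} {l : Lb G} (hl : Gen δ l) {x : V}
    (ha : allop (OO δ (σ, l)) (σ x)) : act δ (lab l 0) (σ x) := by
  by_contra hn
  have h1 := rfx_large h hl ha.1 hn
  have h2 : (σ x).ports.filter (fun q => q ∉ OO δ (σ, l)) = ∅ := by
    rw [Finset.filter_eq_empty_iff]
    intro q hq hq'
    exact hq' (ha.2 q hq)
  rw [h2] at h1
  have := ha.1
  simp at h1
  omega

theorem rfx_ind_le {P Q : Prop} (h : P → Q) : ind P ≤ ind Q := by
  unfold ind
  by_cases hP : P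
  · rw [if_pos hP, if_pos (h hP)]
  · rw [if_neg hP]
    exact zero_le

theorem rfx_lintegral_ind_le (ν : Measure (Lb G)) (P : Lb G → Prop) :
    ∫⁻ l, ind (P l) ∂ν ≤ ν {l | P l} := by
  have : (fun l => ind (P l)) = Set.indicator {l | P l} (fun _ => (1 : ℝ≥0∞)) := by
    funext l
    unfold ind Set.indicator
    rfl
  rw [this]
  exact lintegral_indicator_one_le _

theorem rfx_int_allop [Countable V] {σ : St V} (h : WF0 G σ) (δ : ℝ) (x : V) :
    ∫⁻ l, ind (allop (OO δ (σ, l)) (σ x)) ∂(lam G) ≤ ENNReal.ofReal (1000 * δ) := by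
  calc ∫⁻ l, ind (allop (OO δ (σ, l)) (σ x)) ∂(lam G)
      ≤ ∫⁻ l, ind (act δ (lab l 0) (σ x)) ∂(lam G) := by
        refine lintegral_mono_ae ?_
        filter_upwards [rfx_ae_Gen_lam (G := G) δ] with l hl
        exact rfx_ind_le (rfx_allop_act h hl)
    _ ≤ lam G {l | act δ (lab l 0) (σ x)} := rfx_lintegral_ind_le _ _
    _ ≤ _ := rfx_act h δ x

theorem rfx_int_allop_card [Countable V] {σ : St V} (h : WF0 G σ) (δ : ℝ) (x : V) :
    ∫⁻ l, ind (allop (OO δ (σ, l)) (σ x)) * ((σ x).ports.card : ℝ≥0∞) ∂(lam G) ≤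
      ENNReal.ofReal (10 ^ 6 * δ) := by
  calc ∫⁻ l, ind (allop (OO δ (σ, l)) (σ x)) * ((σ x).ports.card : ℝ≥0∞) ∂(lam G)
      ≤ ∫⁻ l, 1000 * ind (act δ (lab l 0) (σ x)) ∂(lam G) := by
        refine lintegral_mono_ae ?_
        filter_upwards [rfx_ae_Gen_lam (G := G) δ] with l hl
        by_cases ha : allop (OO δ (σ, l)) (σ x)
        · have h1 := rfx_allop_act h hl ha
          unfold ind
          rw [if_pos ha, if_pos h1, one_mul, mul_one]
          exact_mod_cast h1.1
        · unfold ind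
          rw [if_neg ha, zero_mul]
          exact zero_le
    _ = 1000 * ∫⁻ l, ind (act δ (lab l 0) (σ x)) ∂(lam G) :=
        lintegral_const_mul' _ _ (by norm_num)
    _ ≤ 1000 * lam G {l | act δ (lab l 0) (σ x)} := by
        gcongr
        exact rfx_lintegral_ind_le _ _
    _ ≤ 1000 * ENNReal.ofReal (1000 * δ) := by
        gcongr
        exact rfx_act h δ x
    _ = ENNReal.ofReal (10 ^ 6 * δ) := by
        have : (1000 : ℝ≥0∞) = ENNReal.ofReal 1000 := by norm_num
        rw [this, ← ENNReal.ofReal_mul (by norm_num)]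
        congr 1
        ring

/-! ### expectations -/

theorem rfx_meas_alive (e : V × V) : MeasurableSet {σ : St V | alive σ e} := by
  have h1 : MeasurableSet {L : Loc V | e ∈ L.ports} := by
    have h2 : MeasurableSpace.comap (fun L : Loc V => L.ports) ⊤ ≤
        (inferInstance : MeasurableSpace (Loc V)) :=
      le_sup_of_le_left (le_sup_of_le_left le_sup_right)
    exact h2 _ ⟨{P | e ∈ P}, trivial, rfl⟩
  exact measurable_pi_apply (X := fun _ : V => Loc V) e.1 h1

theorem rfx_EE_le {μ : Measure (St V)} (hL : Law G μ) {e : V × V} (he : G.Adj e.1 e.2)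
    {Y : XX G → ℝ≥0∞} {g : St V → ℝ≥0∞}
    {c : ℝ≥0∞} (h : ∀ᵐ σ ∂μ, alive σ e → ∫⁻ l, Y (σ, l) ∂(lam G) ≤ g σ + c) :
    EE μ e Y ≤ EE (G := G) μ e (fun x => g x.1) + c := by
  have : IsProbabilityMeasure (lam G) := rfx_lam_prob
  have := hL.prob
  have h1 : ∫⁻ x, ind (alive x.1 e) * Y x ∂(μ.prod (lam G)) ≤
      ∫⁻ σ, ∫⁻ l, ind (alive σ e) * Y (σ, l) ∂(lam G) ∂μ := lintegral_prod_le _
  have h2 : ∫⁻ σ, ∫⁻ l, ind (alive σ e) * Y (σ, l) ∂(lam G) ∂μ ≤
      ∫⁻ σ, (ind (alive σ e) * g σ + ind (alive σ e) * c) ∂μ := by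
    refine lintegral_mono_ae ?_
    filter_upwards [h] with σ hσ
    by_cases ha : alive σ e
    · unfold ind
      rw [if_pos ha]
      simp only [one_mul]
      exact hσ ha
    · unfold ind
      rw [if_neg ha]
      simp
  have hi : (fun σ : St V => ind (alive σ e) * c) =
      Set.indicator {σ | alive σ e} (fun _ => c) := by
    funext σ
    unfold ind Set.indicator
    by_cases ha : alive σ e
    · simp [ha]
    · simp [ha]
  have h3 : ∫⁻ σ, (ind (alive σ e) * g σ + ind (alive σ e) * c) ∂μ ≤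
      ∫⁻ σ, ind (alive σ e) * g σ ∂μ + ∫⁻ σ, ind (alive σ e) * c ∂μ := by
    refine (lintegral_add_right _ ?_).le
    rw [hi]
    exact measurable_const.indicator (rfx_meas_alive e)
  have h4 : ∫⁻ σ, ind (alive σ e) * c ∂μ ≤ c * μ {σ | alive σ e} := by
    rw [hi]
    exact lintegral_indicator_const_le _ _
  have h5 : ∫⁻ σ, ind (alive σ e) * g σ ∂μ ≤
      ∫⁻ x, ind (alive x.1 e) * g x.1 ∂(μ.prod (lam G)) := by
    have hm : (μ.prod (lam G)).map Prod.fst = μ := by
      rw [Measure.map_fst_prod, measure_univ, one_smul]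
    conv_lhs => rw [← hm]
    exact lintegral_map_le _ _
  unfold EE
  refine ENNReal.div_le_of_le_mul ?_
  refine (h1.trans (h2.trans (h3.trans (add_le_add h5 h4)))).trans ?_
  rw [add_mul, ENNReal.div_mul_cancel (hL.pos e he) (measure_ne_top _ _)]

theorem rfx_EE_le' {μ : Measure (St V)} (hL : Law G μ) {e : V × V} (he : G.Adj e.1 e.2)
    {Y : XX G → ℝ≥0∞}
    {c : ℝ≥0∞} (h : ∀ᵐ σ ∂μ, alive σ e → ∫⁻ l, Y (σ, l) ∂(lam G) ≤ c) :
    EE μ e Y ≤ c := by
  have h1 := rfx_EE_le (G := G) hL he (Y := Y) (g := fun _ => 0) (c := c) (by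
    filter_upwards [h] with σ hσ ha
    rw [zero_add]
    exact hσ ha)
  refine h1.trans ?_
  have : EE (G := G) μ e (fun _ => 0) = 0 := by
    unfold EE
    simp
  rw [this, zero_add]

theorem rfx_countable {Δ : ℕ} (hT : Std G Δ) : Countable V :=
  countable_V hT.tree Δ hT.reg

theorem br_allop {μ : Measure (St V)} {Δ : ℕ} (hT : Std G Δ) (hL : Law G μ) {δ : ℝ} (hδ : 0 < δ)
    {e : V × V} (he : G.Adj e.1 e.2) :
    br (G := G) μ e (fun x e => ind (allop (OO δ x) (x.1 e.2))) ≤ ENNReal.ofReal (1000 * δ) := by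
  have := rfx_countable hT
  unfold br
  refine rfx_EE_le' hL he ?_
  filter_upwards [hL.wf] with σ hσ _
  exact rfx_int_allop hσ.toWF0 δ e.2

theorem br_allop_card {μ : Measure (St V)} {Δ : ℕ} (hT : Std G Δ) (hL : Law G μ) {δ : ℝ}
    (hδ : 0 < δ) {e : V × V} (he : G.Adj e.1 e.2) :
    br (G := G) μ e (fun x e => ind (allop (OO δ x) (x.1 e.2)) * ((x.1 e.2).ports.card : ℝ≥0∞)) ≤
      ENNReal.ofReal (10 ^ 6 * δ) := by
  have := rfx_countable hT
  unfold br
  refine rfx_EE_le' hL he ?_
  filter_upwards [hL.wf] with σ hσ _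
  exact rfx_int_allop_card hσ.toWF0 δ e.2

/-! ### exchangeability of the ranks -/

theorem rfx_meas_rank (S : Finset (V × V)) (d : V × V) (m : ℕ) :
    MeasurableSet {l : Lb G | m ≤ (S.filter (fun q => lab l 2 q < lab l 2 d)).card} := by
  have h1 : Measurable (fun l : Lb G => (S.filter (fun q => lab l 2 q < lab l 2 d)).card) := by
    have h2 : (fun l : Lb G => (S.filter (fun q => lab l 2 q < lab l 2 d)).card) =
        fun l => ∑ q ∈ S, if lab l 2 q < lab l 2 d then 1 else 0 := by
      funext l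
      rw [Finset.card_filter]
    rw [h2]
    refine Finset.measurable_fun_sum _ (fun q _ => ?_)
    refine Measurable.ite ?_ measurable_const measurable_const
    exact measurableSet_lt (rfx_meas_lab 2 q) (rfx_meas_lab 2 d)
  exact h1 (measurableSet_Ici (a := m))

theorem rfx_rank_symm (S : Finset (V × V)) (hS : ∀ q ∈ S, G.Adj q.1 q.2) {d d' : V × V}
    (hd : d ∈ S) (hd' : d' ∈ S) (m : ℕ) :
    lam G {l : Lb G | m ≤ (S.filter (fun q => lab l 2 q < lab l 2 d)).card} =
      lam G {l : Lb G | m ≤ (S.filter (fun q => lab l 2 q < lab l 2 d')).card} := by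
  have := rfx_unif_prob
  set π : Equiv.Perm (Dt G × Fin 3) :=
    Equiv.swap (⟨d, hS d hd⟩, 2) (⟨d', hS d' hd'⟩, 2) with hπ
  have hmp : MeasurePreserving (fun (l : Lb G) (i : Dt G × Fin 3) => l (π i)) (lam G) (lam G) := by
    refine ⟨measurable_pi_lambda _ (fun i => measurable_pi_apply _), ?_⟩
    unfold lam
    exact Measure.map_infinitePi_infinitePi_of_inj (P := fun _ : Dt G × Fin 3 => unif)
      π.injective
  rw [← hmp.measure_preimage (rfx_meas_rank S d m).nullMeasurableSet]
  congr 1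
  ext l
  simp only [Set.mem_preimage, Set.mem_ofPred_eq]
  have hlab : ∀ q : V × V, G.Adj q.1 q.2 →
      lab (fun i => l (π i)) 2 q = lab l 2 (Equiv.swap d d' q) := by
    intro q hq
    by_cases h1 : q = d
    · subst h1
      rw [Equiv.swap_apply_left]
      unfold lab
      rw [dif_pos (hS _ hd), dif_pos (hS _ hd')]
      show l (π (⟨q, hS q hd⟩, 2)) = l (⟨d', hS d' hd'⟩, 2)
      rw [hπ, Equiv.swap_apply_left]
    · by_cases h2 : q = d'
      · subst h2
        rw [Equiv.swap_apply_right]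
        unfold lab
        rw [dif_pos (hS _ hd), dif_pos (hS _ hd')]
        show l (π (⟨q, hS q hd'⟩, 2)) = l (⟨d, hS d hd⟩, 2)
        rw [hπ, Equiv.swap_apply_right]
      · rw [Equiv.swap_apply_of_ne_of_ne h1 h2]
        unfold lab
        rw [dif_pos hq, dif_pos hq]
        show l (π (⟨q, hq⟩, 2)) = l (⟨q, hq⟩, 2)
        rw [hπ, Equiv.swap_apply_of_ne_of_ne]
        · intro h
          exact h1 (congrArg (fun z : Dt G × Fin 3 => z.1.1) h)
        · intro h
          exact h2 (congrArg (fun z : Dt G × Fin 3 => z.1.1) h)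
  have hcard : (S.filter (fun q => lab (fun i => l (π i)) 2 q < lab (fun i => l (π i)) 2 d)).card =
      (S.filter (fun q => lab l 2 q < lab l 2 d')).card := by
    refine Finset.card_bij (fun q _ => Equiv.swap d d' q) ?_ ?_ ?_
    · intro q hq
      rw [Finset.mem_filter] at hq ⊢
      rw [hlab q (hS q hq.1), hlab d (hS d hd), Equiv.swap_apply_left] at hq
      refine ⟨?_, hq.2⟩
      by_cases h1 : q = d
      · rw [h1, Equiv.swap_apply_left]; exact hd'
      · by_cases h2 : q = d'
        · rw [h2, Equiv.swap_apply_right]; exact hd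
        · rw [Equiv.swap_apply_of_ne_of_ne h1 h2]; exact hq.1
    · intro q _ q' _ h
      exact (Equiv.swap d d').injective h
    · intro q hq
      rw [Finset.mem_filter] at hq
      have hmem : Equiv.swap d d' q ∈ S := by
        by_cases h1 : q = d
        · rw [h1, Equiv.swap_apply_left]; exact hd'
        · by_cases h2 : q = d'
          · rw [h2, Equiv.swap_apply_right]; exact hd
          · rw [Equiv.swap_apply_of_ne_of_ne h1 h2]; exact hq.1
      refine ⟨Equiv.swap d d' q, ?_, Equiv.swap_apply_self d d' q⟩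
      rw [Finset.mem_filter]
      refine ⟨hmem, ?_⟩
      rw [hlab _ (hS _ hmem), hlab d (hS d hd), Equiv.swap_apply_self, Equiv.swap_apply_left]
      exact hq.2
  rw [hcard]

theorem rfx_rank_prob [Countable V] (S : Finset (V × V)) (hS : ∀ q ∈ S, G.Adj q.1 q.2)
    {d : V × V} (hd : d ∈ S) (m : ℕ) :
    lam G {l : Lb G | m ≤ (S.filter (fun q => lab l 2 q < lab l 2 d)).card} ≤
      ((S.card - m : ℕ) : ℝ≥0∞) / (S.card : ℝ≥0∞) := by
  have := rfx_unif_prob
  have : IsProbabilityMeasure (lam G) := rfx_lam_prob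
  have hpos : (S.card : ℝ≥0∞) ≠ 0 := by
    have : 0 < S.card := Finset.card_pos.2 ⟨d, hd⟩
    exact_mod_cast this.ne'
  rw [ENNReal.le_div_iff_mul_le (Or.inl hpos) (Or.inl (ENNReal.natCast_ne_top _))]
  have h1 : lam G {l : Lb G | m ≤ (S.filter (fun q => lab l 2 q < lab l 2 d)).card} *
      (S.card : ℝ≥0∞) =
      ∑ d' ∈ S, lam G {l : Lb G | m ≤ (S.filter (fun q => lab l 2 q < lab l 2 d')).card} := by
    rw [Finset.sum_congr rfl (fun d' hd' => (rfx_rank_symm S hS hd hd' m).symm), Finset.sum_const,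
      nsmul_eq_mul, mul_comm]
  rw [h1]
  have h2 : ∀ d' : V × V,
      lam G {l : Lb G | m ≤ (S.filter (fun q => lab l 2 q < lab l 2 d')).card} =
      ∫⁻ l, ind (m ≤ (S.filter (fun q => lab l 2 q < lab l 2 d')).card) ∂(lam G) := by
    intro d'
    have : (fun l : Lb G => ind (m ≤ (S.filter (fun q => lab l 2 q < lab l 2 d')).card)) =
        Set.indicator {l : Lb G | m ≤ (S.filter (fun q => lab l 2 q < lab l 2 d')).card}
          (fun _ => (1 : ℝ≥0∞)) := by
      funext l
      unfold ind Set.indicator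
      rfl
    rw [this]
    exact (lintegral_indicator_one (rfx_meas_rank S d' m)).symm
  simp only [h2]
  rw [← lintegral_finsetSum]
  · calc ∫⁻ l, ∑ d' ∈ S, ind (m ≤ (S.filter (fun q => lab l 2 q < lab l 2 d')).card) ∂(lam G)
        ≤ ∫⁻ _, ((S.card - m : ℕ) : ℝ≥0∞) ∂(lam G) := by
          refine lintegral_mono_ae ?_
          filter_upwards [rfx_ae_Gen_lam (G := G) 0] with l hl
          have hinj : Set.InjOn (lab l 2) (S : Set (V × V)) := by
            intro q hq q' hq' h
            exact TI_of_Gen hl 2 q q' (hS q hq) (hS q' hq') h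
          have h3 := rfx_card_rank S (lab l 2) hinj m
          have h4 : ∑ d' ∈ S, ind (m ≤ (S.filter (fun q => lab l 2 q < lab l 2 d')).card) =
              ((S.filter (fun d' => m ≤ (S.filter (fun q => lab l 2 q < lab l 2 d')).card)).card :
                ℝ≥0∞) := by
            rw [Finset.card_filter, Nat.cast_sum]
            refine Finset.sum_congr rfl (fun d' _ => ?_)
            unfold ind
            by_cases hm : m ≤ (S.filter (fun q => lab l 2 q < lab l 2 d')).card
            · rw [if_pos hm, if_pos hm, Nat.cast_one]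
            · rw [if_neg hm, if_neg hm, Nat.cast_zero]
          rw [h4]
          have h5 := Finset.card_filter_add_card_filter_not (s := S)
            (p := fun d' => (S.filter (fun q => lab l 2 q < lab l 2 d')).card < m)
          have h6 : (S.filter (fun d' => ¬ (S.filter (fun q => lab l 2 q < lab l 2 d')).card < m)) =
              S.filter (fun d' => m ≤ (S.filter (fun q => lab l 2 q < lab l 2 d')).card) := by
            refine Finset.filter_congr (fun q _ => not_lt)
          rw [h6, h3] at h5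
          have h7 : (S.filter (fun d' => m ≤ (S.filter (fun q => lab l 2 q < lab l 2 d')).card)).card
              ≤ S.card - m := by omega
          exact_mod_cast h7
      _ = ((S.card - m : ℕ) : ℝ≥0∞) := by
          rw [lintegral_const, measure_univ, mul_one]
  · intro d' _
    have : (fun l : Lb G => ind (m ≤ (S.filter (fun q => lab l 2 q < lab l 2 d')).card)) =
        Set.indicator {l : Lb G | m ≤ (S.filter (fun q => lab l 2 q < lab l 2 d')).card}
          (fun _ => (1 : ℝ≥0∞)) := by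
      funext l
      unfold ind Set.indicator
      rfl
    rw [this]
    exact measurable_const.indicator (rfx_meas_rank S d' m)

/-- exchangeability of the ranks -/
theorem br_bighit {μ : Measure (St V)} {Δ : ℕ} (hT : Std G Δ) (hL : Law G μ) {δ : ℝ} (hδ : 0 < δ)
    {e : V × V} (he : G.Adj e.1 e.2) :
    br (G := G) μ e (fun x e => ind (e.swap ∈ OO δ x ∧ big (x.1 e.2))) ≤
      qx G μ e + ENNReal.ofReal (1000 * δ) := by
  have := rfx_countable hT
  have : IsProbabilityMeasure (lam G) := rfx_lam_prob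
  unfold br qx br
  refine rfx_EE_le (g := fun σ => xw (σ e.2)) hL he ?_
  filter_upwards [hL.wf] with σ hσ hal
  by_cases hb : big (σ e.2)
  · have hsw : e.swap ∈ (σ e.2).ports := hσ.swap e.1 e hal
    have hord : ordp (σ e.2) = (σ e.2).ports := by
      unfold ordp
      rw [hb.1, Finset.sdiff_empty]
    have hsub : {l : Lb G | e.swap ∈ OO δ (σ, l) ∧ big (σ e.2)} ⊆
        {l | act δ (lab l 0) (σ e.2)} ∪
        {l | 7 ≤ ((σ e.2).ports.filter (fun q => lab l 2 q < lab l 2 e.swap)).card} := by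
      rintro l ⟨⟨_, hl⟩, _⟩
      rcases hl with hl | hl | hl | hl
      · left
        exact hl
      · exfalso
        have hl' : (ordp (σ e.2)).card ≤ 2 := hl
        rw [hord] at hl'
        have := hb.2
        omega
      · exfalso
        have hl' : e.swap ∈ (σ e.2).spec := hl
        rw [hb.1] at hl'
        simp at hl'
      · right
        have hl' : 7 ≤ rnk (lab l 2) (σ e.2) e.swap := hl
        unfold rnk at hl'
        rw [hord] at hl'
        exact hl'
    calc ∫⁻ l, ind (e.swap ∈ OO δ (σ, l) ∧ big (σ e.2)) ∂(lam G)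
        ≤ lam G {l : Lb G | e.swap ∈ OO δ (σ, l) ∧ big (σ e.2)} := rfx_lintegral_ind_le _ _
      _ ≤ _ := measure_mono hsub
      _ ≤ lam G {l | act δ (lab l 0) (σ e.2)} + lam G
          {l | 7 ≤ ((σ e.2).ports.filter (fun q => lab l 2 q < lab l 2 e.swap)).card} :=
          measure_union_le _ _
      _ ≤ ENNReal.ofReal (1000 * δ) +
          (((σ e.2).ports.card - 7 : ℕ) : ℝ≥0∞) / ((σ e.2).ports.card : ℝ≥0∞) :=
          add_le_add (rfx_act hσ.toWF0 δ e.2)
            (rfx_rank_prob (σ e.2).ports (fun q hq => (hσ.tail e.2 q hq).2) hsw 7)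
      _ = xw (σ e.2) + ENNReal.ofReal (1000 * δ) := by
          unfold xw
          rw [if_pos hb, add_comm]
  · have : ∀ l : Lb G, ind (e.swap ∈ OO δ (σ, l) ∧ big (σ e.2)) = 0 := by
      intro l
      unfold ind
      rw [if_neg]
      exact fun h => hb h.2
    simp only [this]
    simp

/-- the comp of `v` is activated with probability at most `1000 δ`, independently of the state -/
theorem v_allop {μ : Measure (St V)} {Δ : ℕ} (hT : Std G Δ) (hL : Law G μ) {δ : ℝ} (hδ : 0 < δ)
    (v : V) {w : St V → ℝ≥0∞} (hw : Measurable w) :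
    ∫⁻ x, w x.1 * (ind (allop (OO δ x) (x.1 v)) * ((x.1 v).ports.card : ℝ≥0∞)) ∂(μ.prod (lam G)) ≤
      ENNReal.ofReal (10 ^ 6 * δ) * ∫⁻ σ, w σ ∂μ := by
  have := rfx_countable hT
  have : IsProbabilityMeasure (lam G) := rfx_lam_prob
  have := hL.prob
  refine (lintegral_prod_le _).trans ?_
  rw [← lintegral_const_mul _ hw]
  refine lintegral_mono_ae ?_
  filter_upwards [hL.wf] with σ hσ
  show ∫⁻ l, w σ * (ind (allop (OO δ (σ, l)) (σ v)) * ((σ v).ports.card : ℝ≥0∞)) ∂(lam G) ≤
    ENNReal.ofReal (10 ^ 6 * δ) * w σ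
  by_cases hw' : w σ = ∞
  · rw [hw']
    have : ENNReal.ofReal (10 ^ 6 * δ) ≠ 0 := by
      rw [Ne, ENNReal.ofReal_eq_zero, not_le]
      positivity
    rw [ENNReal.mul_top this]
    exact le_top
  · rw [lintegral_const_mul' _ _ hw', mul_comm]
    gcongr
    exact rfx_int_allop_card hσ.toWF0 δ v

end Pool.Agent.PM
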