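import Pool.Agent.Lib.MP_947a32_pr.EL
import Pool.Agent.Lib.MP_947a32_pr.RfxB

/-! Piece 17-NSYSA of MP_947a32_pr: first moments of the hot cluster (helper69). -/

set_option autoImplicit false

open Classical MeasureTheory
open scoped ENNReal

namespace Pool.Agent.PM

variable {V : Type} {G : SimpleGraph V}


section NSYSA

variable {μ : Measure (St V)} {Δ : ℕ} {δ : ℝ} {e : V × V}

/-! ### generalities on `ind` and measurability -/

theorem ns_ind_pos {P : Prop} (h : P) : ind P = 1 := by simp [ind, h]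
theorem ns_ind_neg {P : Prop} (h : ¬ P) : ind P = 0 := by simp [ind, h]
theorem ns_ind_le_one (P : Prop) : ind P ≤ 1 := by
  by_cases h : P
  · rw [ns_ind_pos h]
  · rw [ns_ind_neg h]; exact zero_le

theorem ns_meas_ind {P : XX G → Prop} (h : MeasurableSet {x | P x}) :
    Measurable (fun x => ind (P x)) := by
  unfold ind
  exact Measurable.ite h measurable_const measurable_const

/-- every function of the ports and flips at a vertex is measurable -/
theorem ns_mF [Countable V] (F : Finset (V × V) → Finset (V × V) → ℝ≥0∞) (v : V) :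
    Measurable (fun x : XX G => F (x.1 v).ports (x.1 v).spec) := by
  let _ : MeasurableSpace (Finset (V × V) × Finset (V × V)) := ⊤
  have h : Measurable (fun x : XX G => ((x.1 v).ports, (x.1 v).spec)) := by
    apply measurable_to_countable'
    rintro ⟨P, S⟩
    have h1 : (fun x : XX G => ((x.1 v).ports, (x.1 v).spec)) ⁻¹' {(P, S)} =
        {x | (x.1 v).ports = P} ∩ {x | (x.1 v).spec = S} := by
      ext x; simp [Prod.ext_iff]
    rw [h1]
    exact (meas_ports measurable_fst v (fun Q => Q = P)).inter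
      (meas_spec measurable_fst v (fun Q => Q = S))
  exact (measurable_from_top (f := fun y : Finset (V × V) × Finset (V × V) => F y.1 y.2)).comp h

theorem ns_mS [Countable V] {S : XX G → Finset (V × V)} (hS : ∀ p, MeasurableSet {x | p ∈ S x})
    {F : XX G → V × V → ℝ≥0∞} (hF : ∀ p, Measurable (fun x => F x p)) :
    Measurable (fun x => ∑ p ∈ S x, F x p) := by
  have h : (fun x => ∑ p ∈ S x, F x p) = fun x => ∑' p, (if p ∈ S x then F x p else 0) := by
    funext x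
    rw [tsum_eq_sum (s := S x) (fun p hp => by simp [hp])]
    exact Finset.sum_congr rfl (fun p hp => by simp [hp])
  rw [h]
  exact Measurable.tsum (fun p => Measurable.ite (hS p) (hF p) measurable_const)

theorem ns_monw [Countable V] (e p : V × V) : MeasurableSet {x : XX G | p ∈ onw x.1 e} :=
  meas_ports measurable_fst e.2 (fun P => p ∈ P.erase e.swap)

theorem ns_monwe [Countable V] (e q p : V × V) :
    MeasurableSet {x : XX G | p ∈ (onw x.1 e).erase q} :=
  meas_ports measurable_fst e.2 (fun P => p ∈ (P.erase e.swap).erase q)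

theorem ns_msum [Countable V] (e : V × V) {F : XX G → V × V → ℝ≥0∞}
    (hF : ∀ p, Measurable (fun x => F x p)) :
    Measurable (fun x : XX G => ∑ p ∈ onw x.1 e, F x p) :=
  ns_mS (ns_monw e) hF

theorem ns_countable (H : Hyp G μ δ e Δ) : Countable V := countable_V H.std.tree Δ H.std.reg

/-- the almost sure facts -/
theorem ns_ae (hT : Std G Δ) (hL : Law G μ) (δ : ℝ) :
    ∀ᵐ x ∂(μ.prod (lam G)), WF G x.1 ∧ RF (OO δ x) x.1 Set.univ := by
  have := countable_V hT.tree Δ hT.reg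
  have := hL.prob
  have h1 : ∀ᵐ x ∂(μ.prod (lam G)), WF G x.1 :=
    (Measure.quasiMeasurePreserving_fst (μ := μ) (ν := lam G)).ae hL.wf
  filter_upwards [h1, ae_Gen (G := G) (μ := μ) δ] with x hx hg
  exact ⟨hx, RF_of_Gen hx.toWF0 hg⟩

theorem ns_mono (H : Hyp G μ δ e Δ) {Y Z : XX G → ℝ≥0∞}
    (h : ∀ x : XX G, WF G x.1 → RF (OO δ x) x.1 Set.univ → alive x.1 e → Y x ≤ Z x) :
    EE μ e Y ≤ EE μ e Z := by
  apply EE_mono
  filter_upwards [ns_ae H.std H.law δ] with x hx ha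
  exact h x hx.1 hx.2 ha

/-! ### pointwise facts -/

section PWF

variable {O : Set (V × V)} {σ : St V}

theorem ns_swap_mem (h : WF0 G σ) (ha : alive σ e) : e.swap ∈ (σ e.2).ports := h.swap _ _ ha

theorem ns_onw_card (h : WF0 G σ) (ha : alive σ e) :
    (onw σ e).card + 1 = (σ e.2).ports.card := by
  unfold onw
  exact Finset.card_erase_add_one (ns_swap_mem h ha)

theorem ns_ordp_card (h : WF0 G σ) (v : V) :
    (ordp (σ v)).card + (σ v).spec.card = (σ v).ports.card := by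
  unfold ordp
  exact Finset.card_sdiff_add_card_eq_card (h.spec_sub v)

theorem ns_ordp_of_spec {L : Loc V} (hs : L.spec = ∅) : ordp L = L.ports := by
  unfold ordp; rw [hs]; simp

theorem ns_pass_cases (hR : RF O σ Set.univ) {v : V} (hp : passS (σ v)) :
    pass O (σ v) ∨ allop O (σ v) := by
  have ho : ordp (σ v) = (σ v).ports := ns_ordp_of_spec hp.1
  have h3 : 3 ≤ (ordp (σ v)).card := by rw [ho]; exact hp.2.1
  rcases hR.large v (Set.mem_univ v) h3 with h | h
  · exact Or.inr ⟨h3, h⟩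
  · left
    refine ⟨hp, ?_⟩
    rw [ho, min_eq_left hp.2.2] at h
    have h4 := Finset.card_filter_eq_iff.1 h
    exact h4

theorem ns_notpass (hR : RF O σ Set.univ) (v : V) :
    ind (¬ pass O (σ v)) ≤ ind (¬ passS (σ v)) + ind (allop O (σ v)) := by
  by_cases hp : passS (σ v)
  · rcases ns_pass_cases hR hp with h | h
    · rw [ns_ind_neg (not_not.2 h)]; exact zero_le
    · rw [ns_ind_pos h]; exact (ns_ind_le_one _).trans le_add_self
  · rw [ns_ind_pos hp]; exact (ns_ind_le_one _).trans le_self_add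

/-- number of kept ports -/
theorem ns_kept_le (hR : RF O σ Set.univ) (v : V) :
    ((σ v).ports.filter (fun q => q ∉ O)).card ≤ 7 := by
  by_cases h3 : 3 ≤ (ordp (σ v)).card
  · rcases hR.large v (Set.mem_univ v) h3 with h | h
    · have : (σ v).ports.filter (fun q => q ∉ O) = ∅ := by
        apply Finset.filter_false_of_mem
        intro q hq; simpa using h q hq
      rw [this]; simp
    · rw [h]; exact min_le_right _ _
  · have : (σ v).ports.filter (fun q => q ∉ O) = ∅ := by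
      apply Finset.filter_false_of_mem
      intro q hq
      simpa using hR.small v (Set.mem_univ v) (by omega) q hq
    rw [this]; simp

theorem ns_sum_ind (S : Finset (V × V)) (P : V × V → Prop) :
    ∑ q ∈ S, ind (P q) = ((S.filter P).card : ℝ≥0∞) := by
  unfold ind
  rw [Finset.sum_boole]

theorem ns_sum_ind_le (S T : Finset (V × V)) (P : V × V → Prop)
    (h : ∀ q ∈ S, P q → q ∈ T) : ∑ q ∈ S, ind (P q) ≤ (T.card : ℝ≥0∞) := by
  rw [ns_sum_ind]
  have h1 : S.filter P ⊆ T := by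
    intro q hq
    rw [Finset.mem_filter] at hq
    exact h q hq.1 hq.2
  exact_mod_cast Finset.card_le_card h1

/-- a kept onward port is hit if almost all onward ports are opened -/
theorem ns_kept_hit (hR : RF O σ Set.univ) (h3 : 3 ≤ (ordp (σ e.2)).card)
    (hal : ¬ allop O (σ e.2)) (hbu : (bu O σ e).card ≤ 1) :
    ∃ r ∈ onw σ e, r ∉ O ∧ r.swap ∈ O := by
  rcases hR.large e.2 (Set.mem_univ _) h3 with h | h
  · exact absurd ⟨h3, h⟩ hal
  · by_contra hcon
    push Not at hcon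
    have h1 : ((σ e.2).ports.filter (fun q => q ∉ O)).erase e.swap ⊆ bu O σ e := by
      intro q hq
      rw [Finset.mem_erase, Finset.mem_filter] at hq
      unfold bu
      rw [Finset.mem_filter]
      have hq1 : q ∈ onw σ e := by unfold onw; rw [Finset.mem_erase]; exact ⟨hq.1, hq.2.1⟩
      refine ⟨hq1, ?_⟩
      rintro (h5 | h5)
      · exact hq.2.2 h5
      · exact hcon q hq1 hq.2.2 h5
    have h2 := Finset.card_le_card h1
    have h4 := Finset.pred_card_le_card_erase (s := (σ e.2).ports.filter (fun q => q ∉ O))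
      (a := e.swap)
    have h5 : 3 ≤ min (ordp (σ e.2)).card 7 := le_min h3 (by norm_num)
    omega

/-- (6.2) -/
theorem ns_hp_le (hR : RF O σ Set.univ) {q : V × V} (hq : q ∈ onw σ e) :
    ind (hp O σ e q) ≤ ind (q ∈ (σ e.2).spec) + ind (q ∈ O) * ind (tr O σ q) + ind (q.swap ∈ O)
      + (ind ((ordp (σ e.2)).card ≤ 2) + ind (allop O (σ e.2)))
      + ∑ r ∈ (onw σ e).erase q, ind (¬ passS (σ e.2)) * ind (r ∉ O) * ind (r.swap ∈ O) := by
  by_cases hh : hp O σ e q
  swap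
  · rw [ns_ind_neg hh]; exact zero_le
  rw [ns_ind_pos hh]
  by_cases h1 : q.swap ∈ O
  · rw [ns_ind_pos h1]
    refine le_trans ?_ le_self_add
    refine le_trans ?_ le_self_add
    exact le_add_self
  by_cases h2 : q ∈ (σ e.2).spec
  · rw [ns_ind_pos h2]
    refine le_trans ?_ le_self_add
    refine le_trans ?_ le_self_add
    refine le_trans ?_ le_self_add
    exact le_self_add
  have hqO : q ∈ O := by
    rcases hh.1 with h | h
    · exact h
    · exact absurd h h1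
  by_cases h3 : tr O σ q
  · rw [ns_ind_pos h3, ns_ind_pos hqO, one_mul]
    refine le_trans ?_ le_self_add
    refine le_trans ?_ le_self_add
    refine le_trans ?_ le_self_add
    exact le_add_self
  have hbu : (bu O σ e).card ≤ 1 := by
    rcases hh.2 with h | h | h
    · exact absurd h h2
    · exact h
    · exact absurd h h3
  by_cases h4 : (ordp (σ e.2)).card ≤ 2
  · rw [ns_ind_pos h4]
    refine le_trans ?_ le_self_add
    refine le_trans ?_ le_add_self
    exact le_self_add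
  by_cases h5 : allop O (σ e.2)
  · rw [ns_ind_pos h5]
    refine le_trans ?_ le_self_add
    refine le_trans ?_ le_add_self
    exact le_add_self
  obtain ⟨r, hr, hrO, hrs⟩ := ns_kept_hit hR (by omega) h5 hbu
  have hnp : ¬ passS (σ e.2) := by
    intro hps
    rcases ns_pass_cases hR hps with h | h
    · have : q ∈ (σ e.2).ports := Finset.mem_of_mem_erase hq
      exact h.2 q this hqO
    · exact h5 h
  have hrq : r ∈ (onw σ e).erase q := by
    rw [Finset.mem_erase]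
    exact ⟨fun h => hrO (h ▸ hqO), hr⟩
  refine le_trans ?_ le_add_self
  refine le_trans ?_ (Finset.single_le_sum (f := fun r => ind (¬ passS (σ e.2)) * ind (r ∉ O) *
    ind (r.swap ∈ O)) (fun _ _ => zero_le) hrq)
  simp only [ns_ind_pos hnp, ns_ind_pos hrO, ns_ind_pos hrs, mul_one, le_refl]

end PWF

/-! ### locality of the data of the head comp -/

theorem ns_loc (hT : G.IsTree) {x y : XX G} (hx : WF0 G x.1) (hy : WF0 G y.1) {e p : V × V}
    (hp : p ∈ onw x.1 e) (hp' : p ∈ onw y.1 e) (hA : Agr G p x y) :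
    x.1 e.2 = y.1 e.2 ∧ ∀ q ∈ (x.1 e.2).ports, (q ∈ OO δ x ↔ q ∈ OO δ y) := by
  have h1 : p ∈ (x.1 e.2).ports := Finset.mem_of_mem_erase hp
  have h1' : p ∈ (y.1 e.2).ports := Finset.mem_of_mem_erase hp'
  have h2 := hx.tail e.2 p h1
  have h2' := hy.tail e.2 p h1'
  have h3 : alive x.1 p := by
    unfold alive; rw [(hx.eqv e.2 p.1 h2.1).2.1]; exact h1
  have h3' : alive y.1 p := by
    unfold alive; rw [(hy.eqv e.2 p.1 h2'.1).2.1]; exact h1'
  have h4 : side G p e.2 := (hx.sep p h3 e.2 p.1 h2.1).1 (side_fst h2.2)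
  refine ⟨hA.1 _ h4, fun q hq => ?_⟩
  have h5 := hx.tail e.2 q hq
  have h6 : side G p q.1 := (hx.sep p h3 e.2 q.1 h5.1).2 h4
  refine rule_local hT hx hy h3 h3' hA.1 ?_ q h6
  intro d hd
  constructor
  · unfold lab
    split_ifs with h7
    · exact hA.2 ⟨d, h7⟩ 0 hd
    · rfl
  · unfold lab
    split_ifs with h7
    · exact hA.2 ⟨d, h7⟩ 2 hd
    · rfl

theorem ns_Tl5 [Countable V] (hT : G.IsTree) (δ : ℝ) :
    Tl (G := G) (fun x e p => ∑ q ∈ (onw x.1 e).erase p,
      (ind (¬ passS (x.1 e.2)) * ind (q ∉ OO δ x)) * ind (q.swap ∈ OO δ x)) := by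
  refine Tl_erase hT (f := fun x e _ q => ind (¬ passS (x.1 e.2)) * ind (q ∉ OO δ x)) ?_ ?_
    (HP_hit hT δ).ind
  · intro e p q
    exact (ns_mF (fun P S => ind (¬ (S = ∅ ∧ 3 ≤ P.card ∧ P.card ≤ 7))) e.2).mul
      (ns_meas_ind (meas_OO δ q).compl)
  · intro e p q x y hx hy _ _ hp hp' hq _ hA
    have h := ns_loc (δ := δ) hT hx hy hp hp' hA
    have h1 : (q ∈ OO δ x ↔ q ∈ OO δ y) := h.2 q (Finset.mem_of_mem_erase hq)
    simp only [h.1, h1]

/-! ### expectations of the coefficients -/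

theorem ns_m_nps [Countable V] (v : V) :
    Measurable (fun x : XX G => ind (¬ passS (x.1 v))) :=
  ns_mF (fun P S => ind (¬ (S = ∅ ∧ 3 ≤ P.card ∧ P.card ≤ 7))) v

theorem ns_m_allop [Countable V] (hT : G.IsTree) (δ : ℝ) (e : V × V) :
    Measurable (fun x : XX G => ind (allop (OO δ x) (x.1 e.2))) := (HP_allop hT δ).ind.meas e

theorem ns_m_hit [Countable V] (δ : ℝ) (q : V × V) :
    Measurable (fun x : XX G => ind (q ∈ OO δ x)) := ns_meas_ind (meas_OO δ q)

theorem ns_m_card [Countable V] (v : V) :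
    Measurable (fun x : XX G => ((x.1 v).ports.card : ℝ≥0∞)) :=
  ns_mF (fun P _ => (P.card : ℝ≥0∞)) v

theorem card_le (H : Hyp G μ δ e Δ) :
    br (G := G) μ e (fun x e => ((x.1 e.2).ports.card : ℝ≥0∞)) ≤ 7 + qr G μ e := by
  have := ns_countable H
  have h1 : br (G := G) μ e (fun x e => ((x.1 e.2).ports.card : ℝ≥0∞)) ≤
      EE (G := G) μ e (fun x => 7 + ((x.1 e.2).ports.card : ℝ≥0∞) * ind (¬ passS (x.1 e.2))) := by
    apply ns_mono H
    intro x hW hR ha
    change ((x.1 e.2).ports.card : ℝ≥0∞) ≤ 7 + ((x.1 e.2).ports.card : ℝ≥0∞) *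
      ind (¬ passS (x.1 e.2))
    by_cases hp : passS (x.1 e.2)
    · refine le_trans ?_ le_self_add
      exact_mod_cast hp.2.2
    · rw [ns_ind_pos hp, mul_one]; exact le_add_self
  rw [EE_add measurable_const, EE_const H.law H.adj] at h1
  exact h1

theorem q3S_le (H : Hyp G μ δ e Δ) : q3 G μ e + qS G μ e ≤ 1 := by
  have := ns_countable H
  have hm : Measurable (fun x : XX G => ind (thr (x.1 e.2))) :=
    ns_mF (fun P S => ind ((S = ∅ ∧ 3 ≤ P.card ∧ P.card ≤ 7) ∧ P.card = 3)) e.2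
  have h1 : q3 G μ e + qS G μ e = EE (G := G) μ e (fun x => ind (thr (x.1 e.2)) +
      ind (passS (x.1 e.2) ∧ 4 ≤ (x.1 e.2).ports.card)) := (EE_add hm).symm
  rw [h1, ← EE_const (G := G) H.law H.adj 1]
  apply ns_mono H
  intro x _ _ _
  by_cases h : thr (x.1 e.2)
  · have h2 : ¬ (passS (x.1 e.2) ∧ 4 ≤ (x.1 e.2).ports.card) := by
      rintro ⟨_, h3⟩
      have := h.2
      omega
    rw [ns_ind_pos h, ns_ind_neg h2, add_zero]
  · rw [ns_ind_neg h, zero_add]; exact ns_ind_le_one _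

theorem ns_hit_le {O : Set (V × V)} {σ : St V} (h : WF G σ) (hR : RF O σ Set.univ)
    (ha : alive σ e) :
    ind (e.swap ∈ O) ≤ ind (wire (σ e.2)) + (((σ e.2).spec.card : ℝ≥0∞) +
      (ind (allop O (σ e.2)) + ind (e.swap ∈ O ∧ big (σ e.2)))) := by
  by_cases hh : e.swap ∈ O
  swap
  · rw [ns_ind_neg hh]; exact zero_le
  by_cases hs : (σ e.2).spec = ∅
  swap
  · refine (ns_ind_le_one _).trans ?_
    refine le_trans ?_ le_add_self
    refine le_trans ?_ le_self_add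
    have : 1 ≤ (σ e.2).spec.card := Finset.card_pos.2 (Finset.nonempty_iff_ne_empty.2 hs)
    exact_mod_cast this
  have ho : ordp (σ e.2) = (σ e.2).ports := ns_ordp_of_spec hs
  by_cases h3 : 3 ≤ (ordp (σ e.2)).card
  · rcases hR.large e.2 (Set.mem_univ _) h3 with h4 | h4
    · rw [ns_ind_pos (show allop O (σ e.2) from ⟨h3, h4⟩)]
      refine (ns_ind_le_one _).trans ?_
      refine le_trans ?_ le_add_self
      refine le_trans ?_ le_add_self
      exact le_self_add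
    · have hb : big (σ e.2) := by
        refine ⟨hs, ?_⟩
        by_contra hc
        rw [ho, min_eq_left (by omega)] at h4
        exact Finset.card_filter_eq_iff.1 h4 _ (ns_swap_mem h.toWF0 ha) hh
      rw [ns_ind_pos hh, ns_ind_pos (show e.swap ∈ O ∧ big (σ e.2) from ⟨hh, hb⟩)]
      refine le_trans ?_ le_add_self
      refine le_trans ?_ le_add_self
      exact le_add_self
  · have hw : wire (σ e.2) := by
      refine ⟨hs, ?_⟩
      have := h.two e.2
      rw [ho] at h3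
      omega
    rw [ns_ind_pos hw]
    exact (ns_ind_le_one _).trans le_self_add

theorem qh_le (H : Hyp G μ δ e Δ) :
    qh G μ δ e ≤ qx G μ e + qy G μ e + qm G μ e + ENNReal.ofReal (2000 * δ) := by
  have := ns_countable H
  have h1 : qh G μ δ e ≤ EE (G := G) μ e (fun x => ind (wire (x.1 e.2)) +
      (((x.1 e.2).spec.card : ℝ≥0∞) +
      (ind (allop (OO δ x) (x.1 e.2)) + ind (e.swap ∈ OO δ x ∧ big (x.1 e.2))))) := by
    apply ns_mono H
    intro x hW hR ha
    exact ns_hit_le hW hR ha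
  have m1 : Measurable (fun x : XX G => ind (wire (x.1 e.2))) :=
    ns_mF (fun P S => ind (S = ∅ ∧ P.card = 2)) e.2
  have m2 : Measurable (fun x : XX G => ((x.1 e.2).spec.card : ℝ≥0∞)) :=
    ns_mF (fun _ S => (S.card : ℝ≥0∞)) e.2
  rw [EE_add m1, EE_add m2, EE_add (ns_m_allop H.std.tree δ e)] at h1
  have h2 := br_allop H.std H.law H.dpos H.adj
  have h3 := br_bighit H.std H.law H.dpos H.adj
  have h4 : ENNReal.ofReal (2000 * δ) = ENNReal.ofReal (1000 * δ) + ENNReal.ofReal (1000 * δ) := by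
    rw [← ENNReal.ofReal_add (by linarith [H.dpos]) (by linarith [H.dpos])]
    congr 1; ring
  calc qh G μ δ e ≤ qy G μ e + (qm G μ e + (ENNReal.ofReal (1000 * δ) +
        (qx G μ e + ENNReal.ofReal (1000 * δ)))) := by
        refine h1.trans ?_
        exact add_le_add le_rfl (add_le_add le_rfl (add_le_add h2 h3))
    _ = qx G μ e + qy G μ e + qm G μ e + ENNReal.ofReal (2000 * δ) := by rw [h4]; ring

theorem ns_qh (H : Hyp G μ δ e Δ) : qh G μ δ e ≤ qx G μ e + qy G μ e + qm G μ e + qA δ := by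
  refine (qh_le H).trans ?_
  unfold qA
  gcongr
  · exact H.dpos.le
  · norm_num

theorem ns_E1 (H : Hyp G μ δ e Δ) :
    EE (G := G) μ e (fun x => ∑ q ∈ onw x.1 e, ind (q ∈ (x.1 e.2).spec)) ≤ qm G μ e := by
  apply ns_mono H
  intro x _ _ _
  exact ns_sum_ind_le _ _ _ (fun q _ h => h)

theorem ns_E9 (H : Hyp G μ δ e Δ) :
    EE (G := G) μ e (fun x => ((x.1 e.2).ports.card : ℝ≥0∞) * ind (¬ passS (x.1 e.2)) +
      ind (allop (OO δ x) (x.1 e.2)) * ((x.1 e.2).ports.card : ℝ≥0∞)) ≤ qr G μ e + qA δ := by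
  have := ns_countable H
  rw [EE_add (Y := fun x : XX G => ((x.1 e.2).ports.card : ℝ≥0∞) * ind (¬ passS (x.1 e.2)))
    ((ns_m_card e.2).mul (ns_m_nps e.2))]
  exact add_le_add le_rfl (br_allop_card H.std H.law H.dpos H.adj)

theorem ns_onw_le {σ : St V} (e : V × V) : (onw σ e).card ≤ (σ e.2).ports.card :=
  Finset.card_le_card (Finset.erase_subset _ _)

theorem ns_E2 (H : Hyp G μ δ e Δ) :
    EE (G := G) μ e (fun x => ∑ q ∈ onw x.1 e, ind (q ∈ OO δ x)) ≤ qr G μ e + qA δ := by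
  refine le_trans ?_ (ns_E9 H)
  apply ns_mono H
  intro x _ hR _
  have h1 : ∑ q ∈ onw x.1 e, ind (q ∈ OO δ x) ≤ ((x.1 e.2).ports.card : ℝ≥0∞) := by
    rw [ns_sum_ind]
    exact_mod_cast (Finset.card_filter_le _ _).trans (ns_onw_le e)
  by_cases hp : passS (x.1 e.2)
  · rcases ns_pass_cases hR hp with h | h
    · have h2 : ∑ q ∈ onw x.1 e, ind (q ∈ OO δ x) = 0 :=
        Finset.sum_eq_zero (fun q hq => ns_ind_neg (h.2 q (Finset.mem_of_mem_erase hq)))
      rw [h2]; exact zero_le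
    · rw [ns_ind_pos h, one_mul]
      exact h1.trans le_add_self
  · rw [ns_ind_pos hp, mul_one]
    exact h1.trans le_self_add

theorem ns_E3 (H : Hyp G μ δ e Δ) :
    EE (G := G) μ e (fun x => ∑ _q ∈ onw x.1 e, (1 : ℝ≥0∞)) ≤ 7 + qr G μ e := by
  refine le_trans ?_ (card_le H)
  apply ns_mono H
  intro x _ _ _
  rw [Finset.sum_const, nsmul_eq_mul, mul_one]
  change _ ≤ ((x.1 e.2).ports.card : ℝ≥0∞)
  exact_mod_cast ns_onw_le e

theorem ns_E6 (H : Hyp G μ δ e Δ) :
    EE (G := G) μ e (fun x => ∑ _q ∈ onw x.1 e, (ind (¬ passS (x.1 e.2)) +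
      ind (allop (OO δ x) (x.1 e.2)))) ≤ qr G μ e + qA δ := by
  refine le_trans ?_ (ns_E9 H)
  apply ns_mono H
  intro x _ _ _
  rw [Finset.sum_const, nsmul_eq_mul, mul_add]
  have h1 : ((onw x.1 e).card : ℝ≥0∞) ≤ ((x.1 e.2).ports.card : ℝ≥0∞) := by
    exact_mod_cast ns_onw_le e
  rw [mul_comm (ind (allop (OO δ x) (x.1 e.2)))]
  gcongr

theorem ns_E10 (H : Hyp G μ δ e Δ) :
    EE (G := G) μ e (fun x => ind (¬ passS (x.1 e.2)) + ind (allop (OO δ x) (x.1 e.2))) ≤
      qr G μ e + qA δ := by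
  refine le_trans ?_ (ns_E9 H)
  apply ns_mono H
  intro x hW _ _
  have h1 : (1 : ℝ≥0∞) ≤ ((x.1 e.2).ports.card : ℝ≥0∞) := by
    have := hW.two e.2
    exact_mod_cast (by omega : 1 ≤ (x.1 e.2).ports.card)
  calc ind (¬ passS (x.1 e.2)) + ind (allop (OO δ x) (x.1 e.2))
      = 1 * ind (¬ passS (x.1 e.2)) + ind (allop (OO δ x) (x.1 e.2)) * 1 := by ring
    _ ≤ _ := by gcongr

theorem ns_E4 (H : Hyp G μ δ e Δ) :
    EE (G := G) μ e (fun x => ∑ _q ∈ onw x.1 e, (ind ((ordp (x.1 e.2)).card ≤ 2) +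
      ind (allop (OO δ x) (x.1 e.2)))) ≤ 2 * qy G μ e + 3 * qm G μ e + qA δ := by
  have := ns_countable H
  have m1 : Measurable (fun x : XX G => ind (wire (x.1 e.2))) :=
    ns_mF (fun P S => ind (S = ∅ ∧ P.card = 2)) e.2
  have m2 : Measurable (fun x : XX G => ((x.1 e.2).spec.card : ℝ≥0∞)) :=
    ns_mF (fun _ S => (S.card : ℝ≥0∞)) e.2
  have h0 : 2 * qy G μ e + 3 * qm G μ e + br (G := G) μ e (fun x e =>
      ind (allop (OO δ x) (x.1 e.2)) * ((x.1 e.2).ports.card : ℝ≥0∞)) =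
      EE (G := G) μ e (fun x => (2 * ind (wire (x.1 e.2)) + 3 * ((x.1 e.2).spec.card : ℝ≥0∞)) +
        ind (allop (OO δ x) (x.1 e.2)) * ((x.1 e.2).ports.card : ℝ≥0∞)) := by
    rw [EE_add (Y := fun x : XX G => 2 * ind (wire (x.1 e.2)) +
        3 * ((x.1 e.2).spec.card : ℝ≥0∞)) ((m1.const_mul 2).add (m2.const_mul 3)),
      EE_add (Y := fun x : XX G => 2 * ind (wire (x.1 e.2))) (m1.const_mul 2),
      EE_mul_left _ m1, EE_mul_left _ m2]
    rfl
  refine le_trans ?_ (add_le_add le_rfl (br_allop_card H.std H.law H.dpos H.adj))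
  rw [h0]
  apply ns_mono H
  intro x hW _ _
  rw [Finset.sum_const, nsmul_eq_mul, mul_add]
  have h1 : ((onw x.1 e).card : ℝ≥0∞) ≤ ((x.1 e.2).ports.card : ℝ≥0∞) := by
    exact_mod_cast ns_onw_le e
  refine add_le_add ?_ (by rw [mul_comm]; gcongr)
  by_cases hk : (ordp (x.1 e.2)).card ≤ 2
  swap
  · rw [ns_ind_neg hk, mul_zero]; exact zero_le
  rw [ns_ind_pos hk, mul_one]
  refine h1.trans ?_
  have hc := ns_ordp_card hW.toWF0 e.2
  by_cases hs : (x.1 e.2).spec = ∅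
  · have hw : wire (x.1 e.2) := by
      refine ⟨hs, ?_⟩
      have := hW.two e.2
      rw [hs, Finset.card_empty] at hc
      omega
    rw [ns_ind_pos hw, hw.2, mul_one]
    exact le_self_add
  · have hs1 : 1 ≤ (x.1 e.2).spec.card := Finset.card_pos.2 (Finset.nonempty_iff_ne_empty.2 hs)
    refine le_trans ?_ le_add_self
    exact_mod_cast (by omega : (x.1 e.2).ports.card ≤ 3 * (x.1 e.2).spec.card)

theorem ns_fs (H : Hyp G μ δ e Δ) {f : XX G → V × V → V × V → ℝ≥0∞} (hf : Tl f)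
    {g : XX G → V × V → ℝ≥0∞} (hg : Hd g) {c : ℝ≥0∞}
    (hc : EE μ e (fun x => ∑ p ∈ onw x.1 e, f x e p) ≤ c) :
    EE μ e (fun x => ∑ p ∈ onw x.1 e, f x e p * g x p) ≤ c * br μ e g := by
  rw [factsum H.std H.law hf hg H.adj]
  gcongr

/-- swapping the sum over pairs of different onward ports -/
theorem ns_pairs (S : Finset (V × V)) (F : V × V → ℝ≥0∞) :
    ∑ q ∈ S, ∑ r ∈ S.erase q, F r ≤ ∑ r ∈ S, ((S.card - 1 : ℕ) : ℝ≥0∞) * F r := by
  have h1 : ∑ q ∈ S, ∑ r ∈ S.erase q, F r = ∑ r ∈ S, ∑ q ∈ S.erase r, F r := by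
    apply Finset.sum_comm'
    intro x y
    simp only [Finset.mem_erase]
    constructor
    · rintro ⟨h1, h2, h3⟩; exact ⟨⟨fun h => h2 h.symm, h1⟩, h3⟩
    · rintro ⟨⟨h1, h2⟩, h3⟩; exact ⟨h2, fun h => h1 h.symm, h3⟩
  rw [h1]
  apply Finset.sum_le_sum
  intro r hr
  rw [Finset.sum_const, nsmul_eq_mul, Finset.card_erase_of_mem hr]

theorem ns_E5 (H : Hyp G μ δ e Δ) :
    EE (G := G) μ e (fun x => ∑ q ∈ onw x.1 e, ∑ r ∈ (onw x.1 e).erase q,
      (ind (¬ passS (x.1 e.2)) * ind (r ∉ OO δ x)) * ind (r.swap ∈ OO δ x)) ≤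
      7 * qr G μ e * qh G μ δ e := by
  have := ns_countable H
  have hT := H.std.tree
  have h1 : EE (G := G) μ e (fun x => ∑ q ∈ onw x.1 e, ∑ r ∈ (onw x.1 e).erase q,
      (ind (¬ passS (x.1 e.2)) * ind (r ∉ OO δ x)) * ind (r.swap ∈ OO δ x)) ≤
      EE (G := G) μ e (fun x => ∑ r ∈ onw x.1 e,
        ((((x.1 e.2).ports.card : ℝ≥0∞) * ind (¬ passS (x.1 e.2))) * ind (r ∉ OO δ x)) *
          ind (r.swap ∈ OO δ x)) := by
    apply ns_mono H
    intro x _ _ _
    refine (ns_pairs _ _).trans ?_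
    apply Finset.sum_le_sum
    intro r _
    have h2 : (((onw x.1 e).card - 1 : ℕ) : ℝ≥0∞) ≤ ((x.1 e.2).ports.card : ℝ≥0∞) := by
      exact_mod_cast (Nat.sub_le _ _).trans (ns_onw_le e)
    calc (((onw x.1 e).card - 1 : ℕ) : ℝ≥0∞) * ((ind (¬ passS (x.1 e.2)) * ind (r ∉ OO δ x)) *
          ind (r.swap ∈ OO δ x)) ≤ ((x.1 e.2).ports.card : ℝ≥0∞) *
          ((ind (¬ passS (x.1 e.2)) * ind (r ∉ OO δ x)) * ind (r.swap ∈ OO δ x)) := by gcongr
      _ = _ := by ring
  refine h1.trans ?_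
  have hf : Tl (G := G) (fun x e p => ((((x.1 e.2).ports.card : ℝ≥0∞) *
      ind (¬ passS (x.1 e.2))) * ind (p ∉ OO δ x))) :=
    (Tl_F (G := G) (fun P S _ _ => (P.card : ℝ≥0∞) *
      ind (¬ (S = ∅ ∧ 3 ≤ P.card ∧ P.card ≤ 7)))).mul (Tl_nprop hT δ)
  refine ns_fs H hf (HP_hit hT δ).ind ?_
  have h3 : (7 : ℝ≥0∞) * qr G μ e = EE (G := G) μ e (fun x =>
      7 * (((x.1 e.2).ports.card : ℝ≥0∞) * ind (¬ passS (x.1 e.2)))) :=
    (EE_mul_left 7 ((ns_m_card e.2).mul (ns_m_nps e.2))).symm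
  rw [h3]
  apply ns_mono H
  intro x _ hR _
  rw [← Finset.mul_sum, mul_comm (7 : ℝ≥0∞)]
  have h5 : ∑ q ∈ onw x.1 e, ind (q ∉ OO δ x) ≤ 7 := by
    refine (ns_sum_ind_le _ ((x.1 e.2).ports.filter (fun q => q ∉ OO δ x)) _ ?_).trans ?_
    · intro q hq h
      rw [Finset.mem_filter]
      exact ⟨Finset.mem_of_mem_erase hq, h⟩
    · exact_mod_cast ns_kept_le hR e.2
  exact mul_le_mul' le_rfl h5

theorem ns_E7 (H : Hyp G μ δ e Δ) :
    EE (G := G) μ e (fun x => ∑ _q ∈ onw x.1 e, ind (pass (OO δ x) (x.1 e.2))) ≤ 6 := by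
  rw [← EE_const (G := G) H.law H.adj 6]
  apply ns_mono H
  intro x hW _ ha
  rw [Finset.sum_const, nsmul_eq_mul]
  by_cases hp : pass (OO δ x) (x.1 e.2)
  · rw [ns_ind_pos hp, mul_one]
    have h1 := ns_onw_card hW.toWF0 ha
    have h2 := hp.1.2.2
    exact_mod_cast (by omega : (onw x.1 e).card ≤ 6)
  · rw [ns_ind_neg hp, mul_zero]; exact zero_le


/-! ### one step bounds -/

theorem ns_tr_hit {O : Set (V × V)} {σ : St V} (h : WF0 G σ) (ha : alive σ e)
    (hp : pass O (σ e.2)) (ht : tr O σ e) : ∃ r ∈ onw σ e, r.swap ∈ O := by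
  rcases ht with h1 | h1
  · rw [hp.1.1] at h1; exact absurd h1 (Finset.notMem_empty _)
  · by_contra hcon
    push Not at hcon
    have h2 : onw σ e ⊆ bu O σ e := by
      intro q hq
      unfold bu
      rw [Finset.mem_filter]
      refine ⟨hq, ?_⟩
      rintro (h3 | h3)
      · exact hp.2 q (Finset.mem_of_mem_erase hq) h3
      · exact hcon q hq h3
    have h3 := Finset.card_le_card h2
    have h4 := ns_onw_card h ha
    have h5 := hp.1.2.1
    omega

theorem ns_zsum {O : Set (V × V)} {σ : St V} (e : V × V) :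
    zb O σ e = ind (¬ pass O (σ e.2)) +
      ∑ q ∈ onw σ e, ind (pass O (σ e.2)) * ind (q.swap ∈ O) := by
  unfold zb; rw [Finset.mul_sum]

/-- `tr e` needs a non-passive comp or a hit -/
theorem ns_tr_zb {O : Set (V × V)} {σ : St V} (h : WF0 G σ) (ha : alive σ e) :
    ind (tr O σ e) ≤ zb O σ e := by
  by_cases ht : tr O σ e
  swap
  · rw [ns_ind_neg ht]; exact zero_le
  refine (ns_ind_le_one _).trans ?_
  rw [ns_zsum]
  by_cases hp : pass O (σ e.2)
  · obtain ⟨r, hr, hrO⟩ := ns_tr_hit h ha hp ht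
    refine le_trans ?_ le_add_self
    refine le_trans ?_ (Finset.single_le_sum (f := fun q => ind (pass O (σ e.2)) *
      ind (q.swap ∈ O)) (fun _ _ => zero_le) hr)
    simp only [ns_ind_pos hp, ns_ind_pos hrO, mul_one, le_refl]
  · rw [ns_ind_pos hp]; exact le_self_add

theorem ns_passhit (H : Hyp G μ δ e Δ) {X : XX G → V × V → ℝ≥0∞} (hX : Hd X) :
    EE (G := G) μ e (fun x => ∑ q ∈ onw x.1 e, ind (pass (OO δ x) (x.1 e.2)) *
      (ind (q.swap ∈ OO δ x) * X x q)) ≤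
      6 * br (G := G) μ e (fun x e => ind (e.swap ∈ OO δ x) * X x e) := by
  have := ns_countable H
  exact ns_fs H (Tl_pass H.std.tree δ) ((HP_hit H.std.tree δ).ind.mul hX) (ns_E7 H)

theorem ns_zb (H : Hyp G μ δ e Δ) :
    br (G := G) μ e (fun x e => zb (OO δ x) x.1 e) ≤ (qr G μ e + qA δ) + 6 * qh G μ δ e := by
  have := ns_countable H
  have hT := H.std.tree
  have h1 : br (G := G) μ e (fun x e => zb (OO δ x) x.1 e) ≤ EE (G := G) μ e (fun x =>
      (ind (¬ passS (x.1 e.2)) + ind (allop (OO δ x) (x.1 e.2))) +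
      ∑ q ∈ onw x.1 e, ind (pass (OO δ x) (x.1 e.2)) * ind (q.swap ∈ OO δ x)) := by
    apply ns_mono H
    intro x hW hR ha
    change zb (OO δ x) x.1 e ≤ _
    rw [ns_zsum]
    gcongr
    exact ns_notpass hR e.2
  rw [EE_add (Y := fun x : XX G => ind (¬ passS (x.1 e.2)) + ind (allop (OO δ x) (x.1 e.2)))
    ((ns_m_nps e.2).add (ns_m_allop hT δ e))] at h1
  refine h1.trans (add_le_add (ns_E10 H) ?_)
  exact ns_fs H (Tl_pass hT δ) (HP_hit hT δ).ind (ns_E7 H)

theorem ns_eta (H : Hyp G μ δ e Δ) : qh G μ δ e ≤ eta G μ δ e := by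
  refine (ns_qh H).trans ?_
  unfold eta
  exact add_le_add le_self_add le_rfl

theorem ns_zb_eta (H : Hyp G μ δ e Δ) :
    (qr G μ e + qA δ) + 6 * qh G μ δ e ≤ 10 * eta G μ δ e := by
  have h1 : qr G μ e + qA δ ≤ eta G μ δ e := by
    unfold eta
    calc qr G μ e + qA δ ≤ (qx G μ e + qy G μ e + qm G μ e) + (qr G μ e + qA δ) := le_add_self
      _ = _ := by ring
  calc (qr G μ e + qA δ) + 6 * qh G μ δ e ≤ eta G μ δ e + 6 * eta G μ δ e :=
        add_le_add h1 (mul_le_mul' le_rfl (ns_eta H))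
    _ = 7 * eta G μ δ e := by ring
    _ ≤ 10 * eta G μ δ e := by gcongr; norm_num

theorem zb_le (H : Hyp G μ δ e Δ) :
    br (G := G) μ e (fun x e => zb (OO δ x) x.1 e) ≤ 10 * eta G μ δ e :=
  (ns_zb H).trans (ns_zb_eta H)

theorem tr_le (H : Hyp G μ δ e Δ) :
    br (G := G) μ e (fun x e => ind (tr (OO δ x) x.1 e)) ≤ 10 * eta G μ δ e := by
  refine le_trans ?_ (zb_le H)
  apply ns_mono H
  intro x hW _ ha
  exact ns_tr_zb hW.toWF0 ha

theorem bighittr_le (H : Hyp G μ δ e Δ) :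
    br (G := G) μ e (fun x e => ind (e.swap ∈ OO δ x ∧ big (x.1 e.2) ∧ tr (OO δ x) x.1 e)) ≤
      qA δ + 10 * eta G μ δ e ^ 2 := by
  have := ns_countable H
  have hT := H.std.tree
  have h1 : br (G := G) μ e (fun x e => ind (e.swap ∈ OO δ x ∧ big (x.1 e.2) ∧
      tr (OO δ x) x.1 e)) ≤ EE (G := G) μ e (fun x => ind (allop (OO δ x) (x.1 e.2)) +
      ∑ r ∈ onw x.1 e, (ind (big (x.1 e.2)) * ind (r ∉ OO δ x)) * ind (r.swap ∈ OO δ x)) := by
    apply ns_mono H
    intro x hW hR ha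
    change ind (e.swap ∈ OO δ x ∧ big (x.1 e.2) ∧ tr (OO δ x) x.1 e) ≤ _
    by_cases hh : e.swap ∈ OO δ x ∧ big (x.1 e.2) ∧ tr (OO δ x) x.1 e
    swap
    · rw [ns_ind_neg hh]; exact zero_le
    refine (ns_ind_le_one _).trans ?_
    obtain ⟨_, hb, ht⟩ := hh
    by_cases hal : allop (OO δ x) (x.1 e.2)
    · rw [ns_ind_pos hal]; exact le_self_add
    have h3 : 3 ≤ (ordp (x.1 e.2)).card := by
      rw [ns_ordp_of_spec hb.1]
      have := hb.2
      omega
    have hbu : (bu (OO δ x) x.1 e).card ≤ 1 := by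
      rcases ht with h | h
      · rw [hb.1] at h; exact absurd h (Finset.notMem_empty _)
      · exact h
    obtain ⟨r, hr, hrO, hrs⟩ := ns_kept_hit hR h3 hal hbu
    refine le_trans ?_ le_add_self
    refine le_trans ?_ (Finset.single_le_sum (f := fun r => (ind (big (x.1 e.2)) *
      ind (r ∉ OO δ x)) * ind (r.swap ∈ OO δ x)) (fun _ _ => zero_le) hr)
    simp only [ns_ind_pos hb, ns_ind_pos hrO, ns_ind_pos hrs, mul_one, le_refl]
  rw [EE_add (ns_m_allop hT δ e)] at h1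
  have hf : Tl (G := G) (fun x e p => ind (big (x.1 e.2)) * ind (p ∉ OO δ x)) :=
    (Tl_F (G := G) (fun P S _ _ => ind (S = ∅ ∧ 8 ≤ P.card))).mul (Tl_nprop hT δ)
  have h2 : EE (G := G) μ e (fun x => ∑ r ∈ onw x.1 e, (ind (big (x.1 e.2)) *
      ind (r ∉ OO δ x)) * ind (r.swap ∈ OO δ x)) ≤ qr G μ e * qh G μ δ e := by
    refine ns_fs H hf (HP_hit hT δ).ind ?_
    apply ns_mono H
    intro x _ hR _
    rw [← Finset.mul_sum]
    change _ ≤ ((x.1 e.2).ports.card : ℝ≥0∞) * ind (¬ passS (x.1 e.2))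
    by_cases hb : big (x.1 e.2)
    swap
    · rw [ns_ind_neg hb, zero_mul]; exact zero_le
    have hnp : ¬ passS (x.1 e.2) := by
      intro hps
      have := hps.2.2
      have := hb.2
      omega
    rw [ns_ind_pos hb, ns_ind_pos hnp, one_mul, mul_one]
    exact ns_sum_ind_le _ _ _ (fun q hq _ => Finset.mem_of_mem_erase hq)
  have h3 : ENNReal.ofReal (1000 * δ) ≤ qA δ := by
    unfold qA
    apply ENNReal.ofReal_le_ofReal
    have := H.dpos
    norm_num
    linarith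
  refine h1.trans (add_le_add ((br_allop H.std H.law H.dpos H.adj).trans h3) (h2.trans ?_))
  have h4 : qr G μ e ≤ eta G μ δ e := by
    unfold eta
    refine le_trans ?_ le_self_add
    exact le_add_self
  calc qr G μ e * qh G μ δ e ≤ eta G μ δ e * eta G μ δ e := mul_le_mul' h4 (ns_eta H)
    _ = 1 * eta G μ δ e ^ 2 := by ring
    _ ≤ 10 * eta G μ δ e ^ 2 := by gcongr; norm_num

/-- the part of the bounds common to (6.3) L1 and L2 -/
theorem ns_L (H : Hyp G μ δ e Δ) {X : XX G → V × V → ℝ≥0∞} (hX : Hd X)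
    {f : XX G → V × V → V × V → ℝ≥0∞} (hf : Tl f) {c : ℝ≥0∞}
    (hc : EE (G := G) μ e (fun x => ∑ q ∈ onw x.1 e, f x e q) ≤ c) :
    EE (G := G) μ e (fun x => ∑ q ∈ onw x.1 e, ind (q ∈ (x.1 e.2).spec) * X x q +
      (∑ q ∈ onw x.1 e, ind (q ∈ OO δ x) * (ind (tr (OO δ x) x.1 q) * X x q) +
      (∑ q ∈ onw x.1 e, f x e q * (ind (q.swap ∈ OO δ x) * X x q) +
      (∑ q ∈ onw x.1 e, (ind ((ordp (x.1 e.2)).card ≤ 2) + ind (allop (OO δ x) (x.1 e.2))) * X x q +
      ∑ q ∈ onw x.1 e, (∑ r ∈ (onw x.1 e).erase q,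
        (ind (¬ passS (x.1 e.2)) * ind (r ∉ OO δ x)) * ind (r.swap ∈ OO δ x)) * X x q)))) ≤
      qm G μ e * br (G := G) μ e X + ((qr G μ e + qA δ) *
        br (G := G) μ e (fun x e => ind (tr (OO δ x) x.1 e) * X x e) +
      (c * br (G := G) μ e (fun x e => ind (e.swap ∈ OO δ x) * X x e) +
      ((2 * qy G μ e + 3 * qm G μ e + qA δ) * br (G := G) μ e X +
      7 * qr G μ e * qh G μ δ e * br (G := G) μ e X))) := by
  have := ns_countable H
  have hT := H.std.tree
  have t1 : Tl (G := G) (fun x e p => ind (p ∈ (x.1 e.2).spec)) :=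
    Tl_F (G := G) (fun _ S _ p => ind (p ∈ S))
  have t2 := Tl_prop (G := G) hT δ
  have t4 : Tl (G := G) (fun x e _ => ind ((ordp (x.1 e.2)).card ≤ 2) +
      ind (allop (OO δ x) (x.1 e.2))) :=
    (Tl_F (G := G) (fun P S _ _ => ind ((P \ S).card ≤ 2))).add (Tl_allop hT δ)
  have t5 := ns_Tl5 (G := G) hT δ
  have g2 : Hd (G := G) (fun x q => ind (tr (OO δ x) x.1 q) * X x q) := (HP_tr hT δ).ind.mul hX
  have g3 : Hd (G := G) (fun x q => ind (q.swap ∈ OO δ x) * X x q) := (HP_hit hT δ).ind.mul hX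
  rw [EE_add (Y := fun x : XX G => ∑ q ∈ onw x.1 e, ind (q ∈ (x.1 e.2).spec) * X x q)
      (ns_msum e (fun q => (t1.meas e q).mul (hX.meas q))),
    EE_add (Y := fun x : XX G => ∑ q ∈ onw x.1 e,
      ind (q ∈ OO δ x) * (ind (tr (OO δ x) x.1 q) * X x q))
      (ns_msum e (fun q => (t2.meas e q).mul (g2.meas q))),
    EE_add (Y := fun x : XX G => ∑ q ∈ onw x.1 e, f x e q * (ind (q.swap ∈ OO δ x) * X x q))
      (ns_msum e (fun q => (hf.meas e q).mul (g3.meas q))),
    EE_add (Y := fun x : XX G => ∑ q ∈ onw x.1 e, (ind ((ordp (x.1 e.2)).card ≤ 2) +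
      ind (allop (OO δ x) (x.1 e.2))) * X x q)
      (ns_msum e (fun q => (t4.meas e q).mul (hX.meas q)))]
  exact add_le_add (ns_fs H t1 hX (ns_E1 H)) (add_le_add (ns_fs H t2 g2 (ns_E2 H))
    (add_le_add (ns_fs H hf g3 hc) (add_le_add (ns_fs H t4 hX (ns_E4 H))
    (ns_fs H t5 hX (ns_E5 H)))))

theorem ns_hpsum {O : Set (V × V)} {σ : St V} (hR : RF O σ Set.univ) (X : V × V → ℝ≥0∞) :
    ∑ q ∈ onw σ e, ind (hp O σ e q) * X q ≤
      ∑ q ∈ onw σ e, ind (q ∈ (σ e.2).spec) * X q +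
      (∑ q ∈ onw σ e, ind (q ∈ O) * (ind (tr O σ q) * X q) +
      (∑ q ∈ onw σ e, 1 * (ind (q.swap ∈ O) * X q) +
      (∑ q ∈ onw σ e, (ind ((ordp (σ e.2)).card ≤ 2) + ind (allop O (σ e.2))) * X q +
      ∑ q ∈ onw σ e, (∑ r ∈ (onw σ e).erase q,
        (ind (¬ passS (σ e.2)) * ind (r ∉ O)) * ind (r.swap ∈ O)) * X q))) := by
  rw [← Finset.sum_add_distrib, ← Finset.sum_add_distrib, ← Finset.sum_add_distrib,
    ← Finset.sum_add_distrib]
  apply Finset.sum_le_sum
  intro q hq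
  refine (mul_le_mul' (ns_hp_le hR hq) le_rfl).trans (le_of_eq ?_)
  ring

theorem ns_L1 (H : Hyp G μ δ e Δ) {X : XX G → V × V → ℝ≥0∞} (hX : Hd X) :
    EE (G := G) μ e (fun x => ∑ q ∈ onw x.1 e, ind (hp (OO δ x) x.1 e q) * X x q) ≤
      qm G μ e * br (G := G) μ e X + ((qr G μ e + qA δ) *
        br (G := G) μ e (fun x e => ind (tr (OO δ x) x.1 e) * X x e) +
      ((7 + qr G μ e) * br (G := G) μ e (fun x e => ind (e.swap ∈ OO δ x) * X x e) +
      ((2 * qy G μ e + 3 * qm G μ e + qA δ) * br (G := G) μ e X +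
      7 * qr G μ e * qh G μ δ e * br (G := G) μ e X))) := by
  have := ns_countable H
  refine le_trans ?_ (ns_L H hX (Tl_const 1) (ns_E3 H))
  apply ns_mono H
  intro x _ hR _
  exact ns_hpsum hR (fun q => X x q)

theorem ns_L2 (H : Hyp G μ δ e Δ) {X : XX G → V × V → ℝ≥0∞} (hX : Hd X) :
    EE (G := G) μ e (fun x => ind (e.swap ∈ OO δ x) *
      ∑ q ∈ onw x.1 e, ind (hp (OO δ x) x.1 e q) * X x q) ≤
      qm G μ e * br (G := G) μ e X + ((qr G μ e + qA δ) *
        br (G := G) μ e (fun x e => ind (tr (OO δ x) x.1 e) * X x e) +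
      ((qr G μ e + qA δ) * br (G := G) μ e (fun x e => ind (e.swap ∈ OO δ x) * X x e) +
      ((2 * qy G μ e + 3 * qm G μ e + qA δ) * br (G := G) μ e X +
      7 * qr G μ e * qh G μ δ e * br (G := G) μ e X))) := by
  have := ns_countable H
  have t3 : Tl (G := G) (fun x e _ => ind (¬ passS (x.1 e.2)) +
      ind (allop (OO δ x) (x.1 e.2))) :=
    (Tl_F (G := G) (fun P S _ _ => ind (¬ (S = ∅ ∧ 3 ≤ P.card ∧ P.card ≤ 7)))).add
      (Tl_allop H.std.tree δ)
  refine le_trans ?_ (ns_L H hX t3 (ns_E6 H))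
  apply ns_mono H
  intro x hW hR ha
  by_cases hh : e.swap ∈ OO δ x
  swap
  · rw [ns_ind_neg hh, zero_mul]; exact zero_le
  rw [ns_ind_pos hh, one_mul]
  refine (ns_hpsum hR (fun q => X x q)).trans ?_
  have hnp : ¬ pass (OO δ x) (x.1 e.2) := fun hp => hp.2 _ (ns_swap_mem hW.toWF0 ha) hh
  have h1 : (1 : ℝ≥0∞) ≤ ind (¬ passS (x.1 e.2)) + ind (allop (OO δ x) (x.1 e.2)) := by
    rw [← ns_ind_pos hnp]; exact ns_notpass hR e.2
  refine add_le_add le_rfl (add_le_add le_rfl (add_le_add ?_ le_rfl))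
  exact Finset.sum_le_sum (fun q _ => mul_le_mul' h1 le_rfl)

theorem ns_L3 (H : Hyp G μ δ e Δ) {X : XX G → V × V → ℝ≥0∞} (hX : Hd X) :
    EE (G := G) μ e (fun x => ind (tr (OO δ x) x.1 e) *
      (1 + ∑ q ∈ onw x.1 e, ind (hp (OO δ x) x.1 e q) * X x q)) ≤
      (qr G μ e + qA δ) * (1 + br (G := G) μ e X) + (6 * qh G μ δ e +
        6 * br (G := G) μ e (fun x e => ind (e.swap ∈ OO δ x) * X x e)) := by
  have := ns_countable H
  have hT := H.std.tree
  have t3 : Tl (G := G) (fun x e _ => ind (¬ passS (x.1 e.2)) +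
      ind (allop (OO δ x) (x.1 e.2))) :=
    (Tl_F (G := G) (fun P S _ _ => ind (¬ (S = ∅ ∧ 3 ≤ P.card ∧ P.card ≤ 7)))).add
      (Tl_allop H.std.tree δ)
  have g1 : Hd (G := G) (fun x q => ind (q.swap ∈ OO δ x)) := (HP_hit hT δ).ind
  have g3 : Hd (G := G) (fun x q => ind (q.swap ∈ OO δ x) * X x q) := g1.mul hX
  have tp := Tl_pass (G := G) hT δ
  have h1 : EE (G := G) μ e (fun x => ind (tr (OO δ x) x.1 e) *
      (1 + ∑ q ∈ onw x.1 e, ind (hp (OO δ x) x.1 e q) * X x q)) ≤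
      EE (G := G) μ e (fun x => (ind (¬ passS (x.1 e.2)) + ind (allop (OO δ x) (x.1 e.2))) +
        (∑ q ∈ onw x.1 e, (ind (¬ passS (x.1 e.2)) + ind (allop (OO δ x) (x.1 e.2))) * X x q +
        (∑ q ∈ onw x.1 e, ind (pass (OO δ x) (x.1 e.2)) * ind (q.swap ∈ OO δ x) +
        ∑ q ∈ onw x.1 e, ind (pass (OO δ x) (x.1 e.2)) * (ind (q.swap ∈ OO δ x) * X x q)))) := by
    apply ns_mono H
    intro x hW hR ha
    by_cases hp : pass (OO δ x) (x.1 e.2)
    · have h2 : ind (tr (OO δ x) x.1 e) ≤ ∑ q ∈ onw x.1 e,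
          ind (pass (OO δ x) (x.1 e.2)) * ind (q.swap ∈ OO δ x) := by
        refine (ns_tr_zb hW.toWF0 ha).trans ?_
        rw [ns_zsum, ns_ind_neg (not_not.2 hp), zero_add]
      have h3 : ∑ q ∈ onw x.1 e, ind (Pool.Agent.PM.hp (OO δ x) x.1 e q) * X x q ≤
          ∑ q ∈ onw x.1 e, ind (pass (OO δ x) (x.1 e.2)) * (ind (q.swap ∈ OO δ x) * X x q) := by
        apply Finset.sum_le_sum
        intro q hq
        rw [ns_ind_pos hp, one_mul]
        by_cases hh : Pool.Agent.PM.hp (OO δ x) x.1 e q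
        · have h4 : q.swap ∈ OO δ x := by
            rcases hh.1 with h | h
            · exact absurd h (hp.2 q (Finset.mem_of_mem_erase hq))
            · exact h
          rw [ns_ind_pos hh, ns_ind_pos h4]
        · rw [ns_ind_neg hh, zero_mul]; exact zero_le
      rw [mul_add, mul_one]
      refine le_trans ?_ le_add_self
      refine le_trans ?_ le_add_self
      refine add_le_add h2 (le_trans ?_ h3)
      calc ind (tr (OO δ x) x.1 e) * ∑ q ∈ onw x.1 e, ind (Pool.Agent.PM.hp (OO δ x) x.1 e q) * X x q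
          ≤ 1 * ∑ q ∈ onw x.1 e, ind (Pool.Agent.PM.hp (OO δ x) x.1 e q) * X x q :=
            mul_le_mul' (ns_ind_le_one _) le_rfl
        _ = _ := one_mul _
    · have h5 : (1 : ℝ≥0∞) ≤ ind (¬ passS (x.1 e.2)) + ind (allop (OO δ x) (x.1 e.2)) := by
        rw [← ns_ind_pos hp]; exact ns_notpass hR e.2
      have h6 : ind (tr (OO δ x) x.1 e) *
          (1 + ∑ q ∈ onw x.1 e, ind (Pool.Agent.PM.hp (OO δ x) x.1 e q) * X x q) ≤
          1 + ∑ q ∈ onw x.1 e, ind (Pool.Agent.PM.hp (OO δ x) x.1 e q) * X x q := by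
        calc _ ≤ 1 * (1 + ∑ q ∈ onw x.1 e, ind (Pool.Agent.PM.hp (OO δ x) x.1 e q) * X x q) :=
              mul_le_mul' (ns_ind_le_one _) le_rfl
          _ = _ := one_mul _
      refine h6.trans (add_le_add h5 (le_trans ?_ le_self_add))
      exact Finset.sum_le_sum (fun q _ => mul_le_mul' ((ns_ind_le_one _).trans h5) le_rfl)
  rw [EE_add (Y := fun x : XX G => ind (¬ passS (x.1 e.2)) + ind (allop (OO δ x) (x.1 e.2)))
      ((ns_m_nps e.2).add (ns_m_allop hT δ e)),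
    EE_add (Y := fun x : XX G => ∑ q ∈ onw x.1 e, (ind (¬ passS (x.1 e.2)) +
      ind (allop (OO δ x) (x.1 e.2))) * X x q)
      (ns_msum e (fun q => (t3.meas e q).mul (hX.meas q))),
    EE_add (Y := fun x : XX G => ∑ q ∈ onw x.1 e,
      ind (pass (OO δ x) (x.1 e.2)) * ind (q.swap ∈ OO δ x))
      (ns_msum e (fun q => (tp.meas e q).mul (g1.meas q)))] at h1
  refine h1.trans ?_
  rw [mul_add, mul_one, add_assoc]
  exact add_le_add (ns_E10 H) (add_le_add (ns_fs H t3 hX (ns_E6 H))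
    (add_le_add (ns_fs H tp g1 (ns_E7 H)) (ns_passhit H hX)))

/-! ### the recursion -/

theorem ns_real {x y m r A h u t v s w : ℝ} (hx : 0 ≤ x) (hy : 0 ≤ y) (hm : 0 ≤ m) (hr : 0 ≤ r)
    (hA : 0 ≤ A) (hh0 : 0 ≤ h) (hu0 : 0 ≤ u) (ht0 : 0 ≤ t) (hv0 : 0 ≤ v)
    (hs : s = x + y + m + r + A) (hw : w = x + y + m + A)
    (hη : s ≤ 1 / 10 ^ 6) (hh : h ≤ w) (hu : u ≤ 2) (ht : t ≤ 9 * w + 134 * s ^ 2)
    (hv : v ≤ 70 * s) :
    1 + (m * u + ((r + A) * v + ((7 + r) * t + ((2 * y + 3 * m + A) * u + 7 * r * h * u)))) ≤ 2 ∧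
    h + (m * u + ((r + A) * v + ((r + A) * t + ((2 * y + 3 * m + A) * u + 7 * r * h * u)))) ≤
      9 * w + 134 * s ^ 2 ∧
    (r + A) * (1 + u) + (6 * h + 6 * t) ≤ 70 * s := by
  have hs0 : 0 ≤ s := by rw [hs]; positivity
  have hw0 : 0 ≤ w := by rw [hw]; positivity
  have hws : w ≤ s := by rw [hs, hw]; linarith
  have hrA : r + A ≤ s := by rw [hs]; linarith
  have hrA0 : 0 ≤ r + A := by positivity
  have hss : s ^ 2 ≤ s * (1 / 10 ^ 6) := by
    rw [pow_two]; exact mul_le_mul_of_nonneg_left hη hs0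
  have hs20 : 0 ≤ s ^ 2 := by positivity
  have ht10 : t ≤ 10 * s := by
    norm_num at hss
    linarith
  have a1 : m * u ≤ 2 * m := by
    have := mul_le_mul_of_nonneg_left hu hm; linarith
  have a2 : (r + A) * v ≤ 70 * s ^ 2 := by
    have h1 : (r + A) * v ≤ s * (70 * s) := mul_le_mul hrA hv hv0 hs0
    calc (r + A) * v ≤ s * (70 * s) := h1
      _ = 70 * s ^ 2 := by ring
  have a3 : (2 * y + 3 * m + A) * u ≤ 2 * (2 * y + 3 * m + A) := by
    have h0 : 0 ≤ 2 * y + 3 * m + A := by positivity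
    have := mul_le_mul_of_nonneg_left hu h0; linarith
  have a4 : r * h ≤ s ^ 2 := by
    have h1 : r * h ≤ s * s := mul_le_mul (by rw [hs]; linarith) (hh.trans hws) hh0 hs0
    calc r * h ≤ s * s := h1
      _ = s ^ 2 := by ring
  have a5 : 7 * r * h * u ≤ 14 * s ^ 2 := by
    have h0 : 0 ≤ r * h := by positivity
    have h1 : (r * h) * u ≤ s ^ 2 * 2 := mul_le_mul a4 hu hu0 hs20
    calc 7 * r * h * u = 7 * ((r * h) * u) := by ring
      _ ≤ 7 * (s ^ 2 * 2) := by linarith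
      _ = 14 * s ^ 2 := by ring
  have a6 : (r + A) * t ≤ 10 * s ^ 2 := by
    have h1 : (r + A) * t ≤ s * (10 * s) := mul_le_mul hrA ht10 ht0 hs0
    calc (r + A) * t ≤ s * (10 * s) := h1
      _ = 10 * s ^ 2 := by ring
  have a7 : (7 + r) * t ≤ 80 * s := by
    have h1 : (7 + r) * t ≤ 8 * (10 * s) := by
      refine mul_le_mul ?_ ht10 ht0 (by norm_num)
      have : r ≤ s := by rw [hs]; linarith
      norm_num at hη
      linarith
    linarith
  have a8 : (r + A) * (1 + u) ≤ 3 * s := by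
    have h1 : (r + A) * (1 + u) ≤ s * 3 := mul_le_mul hrA (by linarith) (by linarith) hs0
    linarith
  norm_num at hη hss
  have hms : m ≤ s := by rw [hs]; linarith
  have hys : y ≤ s := by rw [hs]; linarith
  have hAs : A ≤ s := by rw [hs]; linarith
  refine ⟨by linarith, ?_, by linarith⟩
  rw [hw] at hh ⊢
  linarith

theorem ns_num {x y m r A h u t v : ℝ≥0∞}
    (hη : x + y + m + r + A ≤ ENNReal.ofReal (1 / 10 ^ 6)) (hh : h ≤ x + y + m + A)
    (hu : u ≤ 2) (ht : t ≤ 9 * (x + y + m + A) + 134 * (x + y + m + r + A) ^ 2)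
    (hv : v ≤ 70 * (x + y + m + r + A)) :
    1 + (m * u + ((r + A) * v + ((7 + r) * t + ((2 * y + 3 * m + A) * u + 7 * r * h * u)))) ≤ 2 ∧
    h + (m * u + ((r + A) * v + ((r + A) * t + ((2 * y + 3 * m + A) * u + 7 * r * h * u)))) ≤
      9 * (x + y + m + A) + 134 * (x + y + m + r + A) ^ 2 ∧
    (r + A) * (1 + u) + (6 * h + 6 * t) ≤ 70 * (x + y + m + r + A) := by
  have hf : x + y + m + r + A ≠ ⊤ := ne_top_of_le_ne_top ENNReal.ofReal_ne_top hη
  simp only [ne_eq, ENNReal.add_eq_top, not_or] at hf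
  obtain ⟨⟨⟨⟨hx, hy⟩, hm⟩, hr⟩, hA⟩ := hf
  lift x to NNReal using hx
  lift y to NNReal using hy
  lift m to NNReal using hm
  lift r to NNReal using hr
  lift A to NNReal using hA
  have h1 : h ≠ ⊤ := ne_top_of_le_ne_top (by simp) hh
  have h2 : u ≠ ⊤ := ne_top_of_le_ne_top (by simp) hu
  have h4 : v ≠ ⊤ := ne_top_of_le_ne_top (ENNReal.mul_ne_top (by simp) (by simp)) hv
  have h3 : t ≠ ⊤ := ne_top_of_le_ne_top (ENNReal.add_ne_top.2
    ⟨ENNReal.mul_ne_top (by simp) (by simp),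
      ENNReal.mul_ne_top (by simp) (ENNReal.pow_ne_top (by simp))⟩) ht
  lift h to NNReal using h1
  lift u to NNReal using h2
  lift t to NNReal using h3
  lift v to NNReal using h4
  have hη' : ((x : ℝ) + y + m + r + A) ≤ 1 / 10 ^ 6 := by
    have h5 : ((x + y + m + r + A : NNReal) : ℝ≥0∞) ≤ ENNReal.ofReal (1 / 10 ^ 6) := by
      push_cast; exact hη
    rw [ENNReal.ofReal, ENNReal.coe_le_coe, ← NNReal.coe_le_coe,
      Real.coe_toNNReal _ (by norm_num)] at h5
    push_cast at h5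
    exact h5
  norm_cast at hh hu ht hv ⊢
  rw [← NNReal.coe_le_coe] at hh hu ht hv ⊢
  rw [← NNReal.coe_le_coe, ← NNReal.coe_le_coe]
  push_cast at hh hu ht hv ⊢
  exact ns_real x.2 y.2 m.2 r.2 A.2 h.2 u.2 t.2 v.2 rfl rfl hη' hh hu ht hv

/-- the three moments at depth `j` -/
theorem ns_rec (H : Hyp G μ δ e Δ) (j : ℕ) :
    br (G := G) μ e (fun x e => Nn (OO δ x) x.1 j e) ≤ 2 ∧
    br (G := G) μ e (fun x e => ind (e.swap ∈ OO δ x) * Nn (OO δ x) x.1 j e) ≤
      9 * (qx G μ e + qy G μ e + qm G μ e + qA δ) + 134 * eta G μ δ e ^ 2 ∧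
    br (G := G) μ e (fun x e => ind (tr (OO δ x) x.1 e) * Nn (OO δ x) x.1 j e) ≤
      70 * eta G μ δ e := by
  have := ns_countable H
  have hT := H.std.tree
  induction j with
  | zero =>
    refine ⟨?_, ?_, ?_⟩
    · have h1 : br (G := G) μ e (fun x e => Nn (OO δ x) x.1 0 e) = 1 :=
        EE_const H.law H.adj 1
      rw [h1]; norm_num
    · have h1 : br (G := G) μ e (fun x e => ind (e.swap ∈ OO δ x) * Nn (OO δ x) x.1 0 e) ≤
          qh G μ δ e := by
        apply ns_mono H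
        intro x _ _ _
        change ind (e.swap ∈ OO δ x) * 1 ≤ ind (e.swap ∈ OO δ x)
        rw [mul_one]
      refine (h1.trans (ns_qh H)).trans ?_
      refine le_trans ?_ le_self_add
      calc qx G μ e + qy G μ e + qm G μ e + qA δ
          = 1 * (qx G μ e + qy G μ e + qm G μ e + qA δ) := (one_mul _).symm
        _ ≤ _ := by gcongr; norm_num
    · have h1 : br (G := G) μ e (fun x e => ind (tr (OO δ x) x.1 e) * Nn (OO δ x) x.1 0 e) ≤
          br (G := G) μ e (fun x e => ind (tr (OO δ x) x.1 e)) := by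
        apply ns_mono H
        intro x _ _ _
        change ind (tr (OO δ x) x.1 e) * 1 ≤ ind (tr (OO δ x) x.1 e)
        rw [mul_one]
      refine (h1.trans (tr_le H)).trans ?_
      gcongr
      norm_num
  | succ j ih =>
    obtain ⟨hu, ht, hv⟩ := ih
    have hX := Hd_Nn (G := G) hT δ j
    have hn := ns_num (h := qh G μ δ e) (by simpa only [eta] using H.small) (ns_qh H) hu
      (by simpa only [eta] using ht) (by simpa only [eta] using hv)
    obtain ⟨n1, n2, n3⟩ := hn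
    refine ⟨?_, ?_, ?_⟩
    · have h1 : br (G := G) μ e (fun x e => Nn (OO δ x) x.1 (j + 1) e) =
          1 + EE (G := G) μ e (fun x => ∑ q ∈ onw x.1 e,
            ind (hp (OO δ x) x.1 e q) * Nn (OO δ x) x.1 j q) := by
        rw [← EE_const (G := G) H.law H.adj 1, ← EE_add measurable_const]
        rfl
      rw [h1]
      exact (add_le_add le_rfl (ns_L1 H hX)).trans n1
    · have h1 : br (G := G) μ e (fun x e => ind (e.swap ∈ OO δ x) * Nn (OO δ x) x.1 (j + 1) e) =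
          qh G μ δ e + EE (G := G) μ e (fun x => ind (e.swap ∈ OO δ x) * ∑ q ∈ onw x.1 e,
            ind (hp (OO δ x) x.1 e q) * Nn (OO δ x) x.1 j q) := by
        unfold qh br
        rw [← EE_add (ns_m_hit δ e.swap)]
        congr 1
        funext x
        change ind (e.swap ∈ OO δ x) * (1 + ∑ q ∈ onw x.1 e,
          ind (hp (OO δ x) x.1 e q) * Nn (OO δ x) x.1 j q) = _
        rw [mul_add, mul_one]
      rw [h1]
      exact (add_le_add le_rfl (ns_L2 H hX)).trans n2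
    · exact (ns_L3 H hX).trans n3

theorem ns_Nn_mono (O : Set (V × V)) (σ : St V) (j : ℕ) (p : V × V) :
    Nn O σ j p ≤ Nn O σ (j + 1) p := by
  induction j generalizing p with
  | zero => exact le_self_add
  | succ j ih =>
    change 1 + ∑ q ∈ onw σ p, ind (hp O σ p q) * Nn O σ j q ≤
      1 + ∑ q ∈ onw σ p, ind (hp O σ p q) * Nn O σ (j + 1) q
    gcongr with q _
    exact ih q

theorem ns_iSup [Countable V] {e : V × V} {Y : ℕ → XX G → ℝ≥0∞} (hm : ∀ j, Measurable (Y j))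
    (hmono : Monotone Y) {c : ℝ≥0∞} (h : ∀ j, EE μ e (Y j) ≤ c) :
    EE μ e (fun x => ⨆ j, Y j x) ≤ c := by
  have ma : Measurable (fun x : XX G => ind (alive x.1 e)) :=
    ns_meas_ind (meas_ports measurable_fst e.1 (fun P => e ∈ P))
  have h1 : ∫⁻ x, ind (alive x.1 e) * (⨆ j, Y j x) ∂(μ.prod (lam G)) =
      ⨆ j, ∫⁻ x, ind (alive x.1 e) * Y j x ∂(μ.prod (lam G)) := by
    have h2 := lintegral_iSup (μ := μ.prod (lam G))
      (f := fun (j : ℕ) (x : XX G) => ind (alive x.1 e) * Y j x) (fun j => ma.mul (hm j))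
      (fun i j hij x => mul_le_mul' le_rfl (hmono hij x))
    rw [← h2]
    refine lintegral_congr (fun x => ?_)
    exact ENNReal.mul_iSup _ _
  unfold EE at h ⊢
  rw [h1, ENNReal.iSup_div]
  exact iSup_le h

theorem ns_sup [Countable V] (hT : G.IsTree) {e : V × V} {W : XX G → V × V → ℝ≥0∞} (hW : Hd W)
    {c : ℝ≥0∞} (h : ∀ j, br (G := G) μ e (fun x e => W x e * Nn (OO δ x) x.1 j e) ≤ c) :
    br (G := G) μ e (fun x e => W x e * NN (OO δ x) x.1 e) ≤ c := by
  have h1 : br (G := G) μ e (fun x e => W x e * NN (OO δ x) x.1 e) =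
      EE (G := G) μ e (fun x => ⨆ j, W x e * Nn (OO δ x) x.1 j e) := by
    unfold br
    congr 1
    funext x
    exact ENNReal.mul_iSup _ _
  rw [h1]
  refine ns_iSup (fun j => (hW.mul (Hd_Nn hT δ j)).meas e) ?_ h
  exact monotone_nat_of_le_succ (fun j x => mul_le_mul' le_rfl (ns_Nn_mono _ _ j e))

theorem nn_le (H : Hyp G μ δ e Δ) : br (G := G) μ e (fun x e => NN (OO δ x) x.1 e) ≤ 2 := by
  have := ns_countable H
  have h1 := ns_sup (μ := μ) (δ := δ) (e := e) (c := 2) H.std.tree (Hd_const (G := G) 1) (fun j => by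
    simpa only [one_mul] using (ns_rec H j).1)
  simpa only [one_mul] using h1

theorem hit_nn_le (H : Hyp G μ δ e Δ) :
    br (G := G) μ e (fun x e => ind (e.swap ∈ OO δ x) * NN (OO δ x) x.1 e) ≤
      10 * (qx G μ e + qy G μ e + qm G μ e + qA δ) + 200 * eta G μ δ e ^ 2 := by
  have := ns_countable H
  refine (ns_sup H.std.tree (HP_hit H.std.tree δ).ind (fun j => (ns_rec H j).2.1)).trans ?_
  gcongr <;> norm_num

theorem tr_nn_le (H : Hyp G μ δ e Δ) :
    br (G := G) μ e (fun x e => ind (tr (OO δ x) x.1 e) * NN (OO δ x) x.1 e) ≤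
      70 * eta G μ δ e := by
  have := ns_countable H
  exact ns_sup H.std.tree (HP_tr H.std.tree δ).ind (fun j => (ns_rec H j).2.2)

end NSYSA

end Pool.Agent.PM
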