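import Pool.Agent.Lib.MP_947a32_pr.EL
import Pool.Agent.Lib.MP_947a32_pr.NsysA
import Pool.Agent.Lib.MP_947a32_pr.RfxB

/-! Piece 20-BAD: the expectation of the bad terms (helper19) -/

set_option autoImplicit false

open Classical MeasureTheory
open scoped ENNReal

namespace Pool.Agent.PM


section BadE

variable {V : Type} {G : SimpleGraph V} {μ : Measure (St V)} {Δ : ℕ} {δ : ℝ} {e : V × V}

theorem bad_qh_eta (H : Hyp G μ δ e Δ) : qh G μ δ e ≤ eta G μ δ e := by
  refine (qh_le H).trans ?_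
  unfold eta qA
  have h1 : ENNReal.ofReal (2000 * δ) ≤ ENNReal.ofReal (10 ^ 6 * δ) := by
    apply ENNReal.ofReal_le_ofReal
    have := H.dpos
    nlinarith
  calc qx G μ e + qy G μ e + qm G μ e + ENNReal.ofReal (2000 * δ)
      ≤ qx G μ e + qy G μ e + qm G μ e + ENNReal.ofReal (10 ^ 6 * δ) := by gcongr
    _ ≤ qx G μ e + qy G μ e + qm G μ e + qr G μ e + ENNReal.ofReal (10 ^ 6 * δ) :=
        add_le_add le_self_add le_rfl

theorem bad_qA (H : Hyp G μ δ e Δ) : 6 * ENNReal.ofReal (1000 * δ) ≤ qA δ := by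
  unfold qA
  have := H.dpos
  rw [show (6 : ℝ≥0∞) = ENNReal.ofReal 6 by norm_num, ← ENNReal.ofReal_mul (by norm_num)]
  apply ENNReal.ofReal_le_ofReal
  nlinarith

/-- `¬ pass` and the tagged port is not proposed: not state-passive -/
theorem bad_npassS {O : Set (V × V)} {σ : St V} (h : WF0 G σ) (hR : RF O σ Set.univ) {e : V × V}
    (ha : alive σ e) (hp : ¬ pass O (σ e.2)) (he : e.swap ∉ O) : ¬ passS (σ e.2) := by
  intro hS
  apply hp
  refine ⟨hS, ?_⟩
  have ho : ordp (σ e.2) = (σ e.2).ports := by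
    unfold ordp
    rw [hS.1, Finset.sdiff_empty]
  have h3 : 3 ≤ (ordp (σ e.2)).card := by rw [ho]; exact hS.2.1
  rcases hR.large e.2 (Set.mem_univ _) h3 with h' | h'
  · exact absurd (h' _ (swap_mem h ha)) he
  · rw [ho, min_eq_left hS.2.2] at h'
    have := Finset.filter_card_eq h'
    exact this

/-- the seven terms -/
theorem bad_pointwise {O : Set (V × V)} {σ : St V} (h : WF0 G σ) (hR : RF O σ Set.univ) {e : V × V}
    (ha : alive σ e) :
    Bad O σ e ≤
      ind (pass O (σ e.2)) * ∑ p ∈ onw σ e, ∑ q ∈ (onw σ e).erase p, ind (q.swap ∈ O) * ind (p.swap ∈ O)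
      + (∑ p ∈ onw σ e, ind (pass O (σ e.2)) * ind ((σ p.2).spec ≠ ∅)
      + (∑ p ∈ onw σ e, ind (pass O (σ e.2)) * ind (allop O (σ p.2))
      + (∑ p ∈ onw σ e, ind (pass O (σ e.2)) * ind (p.swap ∈ O ∧ big (σ p.2) ∧ tr O σ p)
      + (∑ p ∈ onw σ e, ind (pass O (σ e.2)) * (∑ g ∈ onw σ p, ind (wire (σ p.2)) * zb O σ g)
      + (((σ e.2).spec.card : ℝ≥0∞)
      + (∑ p ∈ onw σ e, (ind (¬ passS (σ e.2)) * ind (p ∉ O)) * ind (p.swap ∈ O)
      + ∑ p ∈ onw σ e, ind (¬ passS (σ e.2)) * ind (tr O σ p))))))) := by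
  unfold Bad
  by_cases hp : pass O (σ e.2)
  · rw [ind_true hp, ind_false (P := ¬ pass O (σ e.2) ∧ e.swap ∉ O) (fun h => h.1 hp), one_mul,
      zero_mul, add_zero]
    unfold BadP hit2
    have e1 : ∀ p ∈ onw σ e, ind (wire (σ p.2)) * ∑ g ∈ onw σ p, zb O σ g =
        1 * ∑ g ∈ onw σ p, ind (wire (σ p.2)) * zb O σ g := by
      intro p _
      rw [Finset.mul_sum, one_mul]
    rw [Finset.sum_congr rfl e1]
    have a1 : ∑ p ∈ onw σ e, ∑ q ∈ (onw σ e).erase p, ind (p.swap ∈ O) * ind (q.swap ∈ O) =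
        1 * ∑ p ∈ onw σ e, ∑ q ∈ (onw σ e).erase p, ind (q.swap ∈ O) * ind (p.swap ∈ O) := by
      rw [one_mul]
      refine Finset.sum_congr rfl fun p _ => Finset.sum_congr rfl fun q _ => mul_comm _ _
    have a2 : ∑ p ∈ onw σ e, ind (p.swap ∈ O ∧ (σ p.2).spec ≠ ∅) ≤
        ∑ p ∈ onw σ e, 1 * ind ((σ p.2).spec ≠ ∅) :=
      Finset.sum_le_sum fun p _ => by rw [one_mul]; exact ind_mono fun h => h.2
    have a3 : ∑ p ∈ onw σ e, ind (p.swap ∈ O ∧ allop O (σ p.2)) ≤
        ∑ p ∈ onw σ e, 1 * ind (allop O (σ p.2)) :=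
      Finset.sum_le_sum fun p _ => by rw [one_mul]; exact ind_mono fun h => h.2
    have a4 : ∑ p ∈ onw σ e, ind (p.swap ∈ O ∧ big (σ p.2) ∧ tr O σ p) =
        ∑ p ∈ onw σ e, 1 * ind (p.swap ∈ O ∧ big (σ p.2) ∧ tr O σ p) :=
      Finset.sum_congr rfl fun p _ => (one_mul _).symm
    rw [a1, a4]
    calc _ ≤ 1 * ∑ p ∈ onw σ e, ∑ q ∈ (onw σ e).erase p, ind (q.swap ∈ O) * ind (p.swap ∈ O)
          + (∑ p ∈ onw σ e, 1 * ind ((σ p.2).spec ≠ ∅)
          + (∑ p ∈ onw σ e, 1 * ind (allop O (σ p.2))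
          + (∑ p ∈ onw σ e, 1 * ind (p.swap ∈ O ∧ big (σ p.2) ∧ tr O σ p)
          + (∑ p ∈ onw σ e, 1 * (∑ g ∈ onw σ p, ind (wire (σ p.2)) * zb O σ g))))) := by
            rw [← add_assoc, ← add_assoc, ← add_assoc]
            gcongr
      _ ≤ _ := by
            gcongr
            exact le_self_add
  · rw [ind_false hp, zero_mul, zero_add, zero_mul, zero_add]
    by_cases he : e.swap ∈ O
    · rw [ind_false (P := ¬ pass O (σ e.2) ∧ e.swap ∉ O) (fun h => h.2 he), zero_mul]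
      exact zero_le
    · have hS := bad_npassS h hR ha hp he
      rw [ind_true (P := ¬ pass O (σ e.2) ∧ e.swap ∉ O) ⟨hp, he⟩, one_mul, ind_true hS]
      unfold BadR
      have b1 : ind ((σ e.2).spec ≠ ∅) ≤ ((σ e.2).spec.card : ℝ≥0∞) := by
        by_cases hs : (σ e.2).spec = ∅
        · rw [ind_false (fun h => h hs)]; exact zero_le
        · rw [ind_true hs]
          have : 1 ≤ (σ e.2).spec.card := Finset.card_pos.2 (Finset.nonempty_iff_ne_empty.2 hs)
          exact_mod_cast this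
      have b2 : ∑ p ∈ onw σ e, ind (p ∉ O) * ind (p.swap ∈ O) =
          ∑ p ∈ onw σ e, (1 * ind (p ∉ O)) * ind (p.swap ∈ O) :=
        Finset.sum_congr rfl fun p _ => by rw [one_mul]
      have b3 : ∑ p ∈ onw σ e, ind (p ∈ O) * ind (tr O σ p) ≤
          ∑ p ∈ onw σ e, 1 * ind (tr O σ p) :=
        Finset.sum_le_sum fun p _ => by gcongr; exact ind_le_one _
      rw [b2, add_assoc]
      calc _ ≤ ((σ e.2).spec.card : ℝ≥0∞)
            + (∑ p ∈ onw σ e, (1 * ind (p ∉ O)) * ind (p.swap ∈ O)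
            + ∑ p ∈ onw σ e, 1 * ind (tr O σ p)) := by gcongr
        _ ≤ _ := by
            refine le_add_left (le_add_left (le_add_left (le_add_left ?_)))
            exact le_rfl

/-- the wire term, seen from the wire -/
theorem bad_wire (H : Hyp G μ δ e Δ) :
    br (G := G) μ e (fun x e => ∑ g ∈ onw x.1 e, ind (wire (x.1 e.2)) * zb (OO δ x) x.1 g) ≤
      10 * eta G μ δ e ^ 2 := by
  have := countable_V H.std.tree Δ H.std.reg
  have hG := H.std.tree
  have hf : Tl (G := G) (fun x e _ => ind (wire (x.1 e.2))) :=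
    Tl_F (fun P S _ _ => ind (S = ∅ ∧ P.card = 2))
  have h1 := E_fact H hf (Hd_zb hG δ) (c := qy G μ e) ?_
  · refine h1.trans ?_
    calc qy G μ e * br (G := G) μ e (fun x e => zb (OO δ x) x.1 e)
        ≤ eta G μ δ e * (10 * eta G μ δ e) := by
          gcongr
          · unfold eta
            calc qy G μ e ≤ qx G μ e + qy G μ e := le_add_self
              _ ≤ qx G μ e + qy G μ e + (qm G μ e + (qr G μ e + qA δ)) := le_self_add
              _ = _ := by ring
          · exact zb_le H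
      _ = 10 * eta G μ δ e ^ 2 := by ring
  · refine EE_mono ?_
    filter_upwards [ae_facts H.std H.law δ] with x hx ha
    by_cases hw : wire (x.1 e.2)
    · have h1 := card_onw hx.1.toWF0 ha
      have h2 := hw.2
      have h3 : (onw x.1 e).card = 1 := by omega
      simp [ind_true hw, h3]
    · simp [ind_false hw]

theorem Bad_le (H : Hyp G μ δ e Δ) :
    br (G := G) μ e (fun x e => Bad (OO δ x) x.1 e) ≤
      10 ^ 3 * (qm G μ e + qA δ) + 10 ^ 3 * eta G μ δ e ^ 2 := by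
  have := countable_V H.std.tree Δ H.std.reg
  have hG := H.std.tree
  -- abbreviations
  set η := eta G μ δ e with hη
  have hh : qh G μ δ e ≤ η := bad_qh_eta H
  have hr : qr G μ e ≤ η := by
    rw [hη]
    unfold eta
    calc qr G μ e ≤ qx G μ e + qy G μ e + qm G μ e + qr G μ e := le_add_self
      _ ≤ _ := le_self_add
  -- measurability
  have hpass := Tl_pass (G := G) hG δ
  have hhit := (HP_hit (G := G) hG δ).ind
  have hspec : Hd (G := G) (fun x e => ind ((x.1 e.2).spec ≠ ∅)) :=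
    Hd_F (fun _ S => ind (S ≠ ∅)) (by intro φ P S; simp)
  have hall := (HP_allop (G := G) hG δ).ind
  have hbig : HP (G := G) (fun x e => big (x.1 e.2)) :=
    HP_F (fun P S => S = ∅ ∧ 8 ≤ P.card) (by
      intro φ P S
      rw [Finset.image_eq_empty, Finset.card_image_of_injective]
      intro a b hab
      simp only [mp, Prod.mk.injEq, EmbeddingLike.apply_eq_iff_eq] at hab
      exact Prod.ext hab.1 hab.2)
  have hwire : HP (G := G) (fun x e => wire (x.1 e.2)) :=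
    HP_F (fun P S => S = ∅ ∧ P.card = 2) (by
      intro φ P S
      rw [Finset.image_eq_empty, Finset.card_image_of_injective]
      intro a b hab
      simp only [mp, Prod.mk.injEq, EmbeddingLike.apply_eq_iff_eq] at hab
      exact Prod.ext hab.1 hab.2)
  have hbt : Hd (G := G) (fun x e => ind (e.swap ∈ OO δ x ∧ big (x.1 e.2) ∧ tr (OO δ x) x.1 e)) :=
    ((HP_hit hG δ).and (hbig.and (HP_tr hG δ))).ind
  have hwz : Hd (G := G) (fun x e => ∑ g ∈ onw x.1 e, ind (wire (x.1 e.2)) * zb (OO δ x) x.1 g) :=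
    Hd_sum hG hwire.ind.Md_fst (Hd_zb hG δ)
  have htr := (HP_tr (G := G) hG δ).ind
  have hnp : Tl (G := G) (fun x e _ => ind (¬ passS (x.1 e.2))) := Tl_npassS
  have hnk : Tl (G := G) (fun x e p => ind (¬ passS (x.1 e.2)) * ind (p ∉ OO δ x)) :=
    Tl_npassS.mul (Tl_nprop hG δ)
  -- the sum
  have key : br (G := G) μ e (fun x e => Bad (OO δ x) x.1 e) ≤
      EE (G := G) μ e (fun x => ind (pass (OO δ x) (x.1 e.2)) *
        ∑ p ∈ onw x.1 e, ∑ q ∈ (onw x.1 e).erase p, ind (q.swap ∈ OO δ x) * ind (p.swap ∈ OO δ x))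
      + (EE (G := G) μ e (fun x => ∑ p ∈ onw x.1 e, ind (pass (OO δ x) (x.1 e.2)) *
          ind ((x.1 p.2).spec ≠ ∅))
      + (EE (G := G) μ e (fun x => ∑ p ∈ onw x.1 e, ind (pass (OO δ x) (x.1 e.2)) *
          ind (allop (OO δ x) (x.1 p.2)))
      + (EE (G := G) μ e (fun x => ∑ p ∈ onw x.1 e, ind (pass (OO δ x) (x.1 e.2)) *
          ind (p.swap ∈ OO δ x ∧ big (x.1 p.2) ∧ tr (OO δ x) x.1 p))
      + (EE (G := G) μ e (fun x => ∑ p ∈ onw x.1 e, ind (pass (OO δ x) (x.1 e.2)) *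
          (∑ g ∈ onw x.1 p, ind (wire (x.1 p.2)) * zb (OO δ x) x.1 g))
      + (EE (G := G) μ e (fun x => ((x.1 e.2).spec.card : ℝ≥0∞))
      + (EE (G := G) μ e (fun x => ∑ p ∈ onw x.1 e,
          (ind (¬ passS (x.1 e.2)) * ind (p ∉ OO δ x)) * ind (p.swap ∈ OO δ x))
      + EE (G := G) μ e (fun x => ∑ p ∈ onw x.1 e, ind (¬ passS (x.1 e.2)) *
          ind (tr (OO δ x) x.1 p)))))))) := by
    rw [← EE_add, ← EE_add, ← EE_add, ← EE_add, ← EE_add, ← EE_add, ← EE_add]
    · unfold br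
      refine EE_mono ?_
      filter_upwards [ae_facts H.std H.law δ] with x hx ha
      exact bad_pointwise hx.1.toWF0 hx.2.1 ha
    · exact (hpass.meas e e).mul (meas_sum_onw e fun p => meas_sum_erase e p fun q =>
        (hhit.meas q).mul (hhit.meas p))
    · exact meas_sum_onw e fun p => (hpass.meas e p).mul (hspec.meas p)
    · exact meas_sum_onw e fun p => (hpass.meas e p).mul (hall.meas p)
    · exact meas_sum_onw e fun p => (hpass.meas e p).mul (hbt.meas p)
    · exact meas_sum_onw e fun p => (hpass.meas e p).mul (hwz.meas p)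
    · exact (Tl_F (G := G) (fun _ S _ _ => (S.card : ℝ≥0∞))).meas e e
    · exact meas_sum_onw e fun p => (hnk.meas e p).mul (hhit.meas p)
  have t1 : EE (G := G) μ e (fun x => ind (pass (OO δ x) (x.1 e.2)) *
        ∑ p ∈ onw x.1 e, ∑ q ∈ (onw x.1 e).erase p, ind (q.swap ∈ OO δ x) * ind (p.swap ∈ OO δ x)) ≤
      30 * η ^ 2 := by
    refine (E_pass2 H hhit hhit).trans ?_
    rw [sq]
    gcongr <;> exact hh
  have t2 : EE (G := G) μ e (fun x => ∑ p ∈ onw x.1 e, ind (pass (OO δ x) (x.1 e.2)) *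
      ind ((x.1 p.2).spec ≠ ∅)) ≤ 6 * qm G μ e := by
    refine (E_fact H hpass hspec (EE_pass H)).trans ?_
    gcongr
    refine EE_mono (Filter.Eventually.of_forall fun x _ => ?_)
    show ind ((x.1 e.2).spec ≠ ∅) ≤ ((x.1 e.2).spec.card : ℝ≥0∞)
    by_cases hs : (x.1 e.2).spec = ∅
    · rw [ind_false (fun h => h hs)]; exact zero_le
    · rw [ind_true hs]
      have : 1 ≤ (x.1 e.2).spec.card := Finset.card_pos.2 (Finset.nonempty_iff_ne_empty.2 hs)
      exact_mod_cast this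
  have t3 : EE (G := G) μ e (fun x => ∑ p ∈ onw x.1 e, ind (pass (OO δ x) (x.1 e.2)) *
      ind (allop (OO δ x) (x.1 p.2))) ≤ qA δ := by
    refine (E_fact H hpass hall (EE_pass H)).trans ?_
    refine le_trans ?_ (bad_qA H)
    gcongr
    exact br_allop H.std H.law H.dpos H.adj
  have t4 : EE (G := G) μ e (fun x => ∑ p ∈ onw x.1 e, ind (pass (OO δ x) (x.1 e.2)) *
      ind (p.swap ∈ OO δ x ∧ big (x.1 p.2) ∧ tr (OO δ x) x.1 p)) ≤ 6 * (qA δ + 10 * η ^ 2) := by
    refine (E_fact H hpass hbt (EE_pass H)).trans ?_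
    gcongr
    exact bighittr_le H
  have t5 : EE (G := G) μ e (fun x => ∑ p ∈ onw x.1 e, ind (pass (OO δ x) (x.1 e.2)) *
      (∑ g ∈ onw x.1 p, ind (wire (x.1 p.2)) * zb (OO δ x) x.1 g)) ≤ 6 * (10 * η ^ 2) := by
    refine (E_fact H hpass hwz (EE_pass H)).trans ?_
    gcongr
    exact bad_wire H
  have t7 : EE (G := G) μ e (fun x => ∑ p ∈ onw x.1 e,
      (ind (¬ passS (x.1 e.2)) * ind (p ∉ OO δ x)) * ind (p.swap ∈ OO δ x)) ≤ 4 * η ^ 2 := by
    refine (E_fact H hnk hhit (EE_kept H)).trans ?_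
    rw [sq, mul_assoc]
    gcongr
    exact hh
  have t8 : EE (G := G) μ e (fun x => ∑ p ∈ onw x.1 e, ind (¬ passS (x.1 e.2)) *
      ind (tr (OO δ x) x.1 p)) ≤ 10 * η ^ 2 := by
    refine (E_fact H hnp htr (EE_npassS H)).trans ?_
    calc qr G μ e * br (G := G) μ e (fun x e => ind (tr (OO δ x) x.1 e))
        ≤ η * (10 * η) := by gcongr; exact tr_le H
      _ = 10 * η ^ 2 := by ring
  refine key.trans ?_
  calc _ ≤ 30 * η ^ 2 + (6 * qm G μ e + (qA δ + (6 * (qA δ + 10 * η ^ 2) + (6 * (10 * η ^ 2) +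
        (qm G μ e + (4 * η ^ 2 + 10 * η ^ 2)))))) :=
        add_le_add t1 (add_le_add t2 (add_le_add t3 (add_le_add t4 (add_le_add t5
          (add_le_add le_rfl (add_le_add t7 t8))))))
    _ = 7 * qm G μ e + 7 * qA δ + 164 * η ^ 2 := by ring
    _ ≤ 10 ^ 3 * qm G μ e + 10 ^ 3 * qA δ + 10 ^ 3 * η ^ 2 := by
        gcongr <;> norm_num
    _ = 10 ^ 3 * (qm G μ e + qA δ) + 10 ^ 3 * η ^ 2 := by ring

end BadE

end Pool.Agent.PM
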