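import Pool.Agent.Lib.MP_947a32_pr.Step

/-!
# Piece CLU: finiteness of the hot cluster and counting (helper72)
-/

set_option autoImplicit false

open Classical MeasureTheory
open scoped ENNReal

namespace Pool.Agent.PM

variable {V : Type} {G : SimpleGraph V}


/-! ### basic facts on `WF0` states -/

theorem WF0.cl_ports_fst {σ : St V} (h : WF0 G σ) {v : V} {p : V × V} (hp : p ∈ (σ v).ports) :
    (σ p.1).ports = (σ v).ports :=
  (h.eqv v p.1 (h.tail v p hp).1).2.1

theorem WF0.cl_spec_fst {σ : St V} (h : WF0 G σ) {v : V} {p : V × V} (hp : p ∈ (σ v).ports) :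
    (σ p.1).spec = (σ v).spec :=
  (h.eqv v p.1 (h.tail v p hp).1).2.2

theorem WF0.cl_comp_fst {σ : St V} (h : WF0 G σ) {v : V} {p : V × V} (hp : p ∈ (σ v).ports) :
    (σ p.1).comp = (σ v).comp :=
  (h.eqv v p.1 (h.tail v p hp).1).1

theorem WF0.cl_mem_comp_symm {σ : St V} (h : WF0 G σ) {u v : V} (hu : u ∈ (σ v).comp) :
    v ∈ (σ u).comp := by
  rw [(h.eqv v u hu).1]; exact h.mem v

theorem cl_unop_eq_of_ports {O : Set (V × V)} {L L' : Loc V} (h : L.ports = L'.ports) :
    unop O L = unop O L' := by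
  unfold unop; rw [h]

/-- if the edge of `p` is opened, the unopened ports of its head comp are onward ports -/
theorem cl_unop_eq_bu {σ : St V} {O : Set (V × V)} {p : V × V} (ho : opd O p) :
    unop O (σ p.2) = bu O σ p := by
  unfold unop bu onw
  ext q
  simp only [Finset.mem_filter, Finset.mem_erase]
  constructor
  · rintro ⟨h1, h2⟩
    refine ⟨⟨?_, h1⟩, h2⟩
    rintro rfl
    apply h2
    unfold opd at ho ⊢
    rw [Prod.swap_swap]
    exact ho.symm
  · rintro ⟨⟨_, h1⟩, h2⟩
    exact ⟨h1, h2⟩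

theorem hot_cases {σ : St V} {O : Set (V × V)} {v : V} {p : V × V} (h : WF0 G σ)
    (hp : p ∈ (σ v).ports) (hh : hot O σ p) :
    opd O p ∧ (p ∈ (σ v).spec ∨ (unop O (σ v)).card ≤ 1 ∨ tr O σ p) := by
  obtain ⟨_, _, ho, hc⟩ := hh
  refine ⟨ho, ?_⟩
  rcases hc with hc | hc | hc | hc
  · left; rw [← h.cl_spec_fst hp]; exact hc
  · right; right; left; exact hc
  · right; left; rw [cl_unop_eq_of_ports (h.cl_ports_fst hp).symm]; exact hc
  · right; right; right; rw [← cl_unop_eq_bu ho]; exact hc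

/-- a hot onward port is a possible continuation -/
theorem cl_hp_of_hot {σ : St V} {O : Set (V × V)} (h : WF0 G σ) {p q : V × V} (ho : opd O p)
    (hq : q ∈ onw σ p) (hh : hot O σ q) : PM.hp O σ p q := by
  have hq' : q ∈ (σ p.2).ports := Finset.mem_of_mem_erase hq
  obtain ⟨h1, h2⟩ := hot_cases h hq' hh
  refine ⟨h1, ?_⟩
  rcases h2 with h2 | h2 | h2
  · exact Or.inl h2
  · right; left; rw [← cl_unop_eq_bu ho]; exact h2
  · exact Or.inr (Or.inr h2)

/-! ### hot chains -/

/-- `p` is a hot dart at depth `k` of the hot cluster of `v` -/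
inductive ClRch (O : Set (V × V)) (σ : St V) (v : V) : ℕ → V × V → Prop
  | base {p : V × V} (hp : p ∈ (σ v).ports) (hh : hot O σ p) : ClRch O σ v 0 p
  | next {k : ℕ} {p q : V × V} (hp : ClRch O σ v k p) (hq : q ∈ onw σ p) (hh : hot O σ q) :
      ClRch O σ v (k + 1) q

theorem ClRch.hot {O : Set (V × V)} {σ : St V} {v : V} {k : ℕ} {p : V × V} (h : ClRch O σ v k p) :
    hot O σ p := by
  cases h with
  | base _ hh => exact hh
  | next _ _ hh => exact hh

theorem cl_Rl_comp {O : Set (V × V)} {σ : St V} {u w : V} (h : w ∈ (σ u).comp) : Rl O σ u w :=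
  Or.inl h

/-- tails and heads of the chain darts are in the region -/
theorem ClRch.mem_region {O : Set (V × V)} {σ : St V} (h0 : WF0 G σ) {v : V} {k : ℕ} {p : V × V}
    (h : ClRch O σ v k p) : p.1 ∈ region O σ v ∧ p.2 ∈ region O σ v := by
  induction h with
  | @base p hp hh =>
    have h1 : p.1 ∈ region O σ v :=
      Relation.ReflTransGen.single (Or.inl (h0.tail v p hp).1)
    exact ⟨h1, Relation.ReflTransGen.tail h1 (Or.inr hh)⟩
  | @next k p q _ hq hh ih =>
    have hq' : q ∈ (σ p.2).ports := Finset.mem_of_mem_erase hq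
    have h1 : q.1 ∈ region O σ v :=
      Relation.ReflTransGen.tail ih.2 (Or.inl (h0.tail _ q hq').1)
    exact ⟨h1, Relation.ReflTransGen.tail h1 (Or.inr hh)⟩

/-- the vertices covered by chains -/
def ClCov (O : Set (V × V)) (σ : St V) (v w : V) : Prop :=
  w ∈ (σ v).comp ∨ ∃ k p, ClRch O σ v k p ∧ w ∈ (σ p.2).comp

theorem cl_cov_of_region {O : Set (V × V)} {σ : St V} (h : WF0 G σ) {v w : V}
    (hw : w ∈ region O σ v) : ClCov O σ v w := by
  induction hw with
  | refl => exact Or.inl (h.mem v)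
  | @tail x y _ hxy ih =>
    have hcomp : ∀ {a b c : V}, b ∈ (σ a).comp → c ∈ (σ b).comp → c ∈ (σ a).comp := by
      intro a b c hb hc
      rwa [(h.eqv a b hb).1] at hc
    rcases hxy with hxy | hxy
    · rcases ih with ih | ⟨k, p, hp, hx⟩
      · exact Or.inl (hcomp ih hxy)
      · exact Or.inr ⟨k, p, hp, hcomp hx hxy⟩
    · rcases ih with ih | ⟨k, p, hp, hx⟩
      · refine Or.inr ⟨0, (x, y), ClRch.base ?_ hxy, h.mem y⟩
        have := hxy.1
        rwa [(h.eqv v x ih).2.1] at this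
      · -- `x` in the head comp of `p`
        have hxp : (x, y) ∈ (σ p.2).ports := by
          have := hxy.1
          rwa [(h.eqv p.2 x hx).2.1] at this
        by_cases hback : (x, y) = p.swap
        · -- going back
          have hy : y = p.1 := by
            have := congrArg Prod.snd hback
            simpa using this
          subst hy
          cases hp with
          | base hp hh => exact Or.inl (h.tail v p hp).1
          | @next k p' _ hp' hq hh =>
            refine Or.inr ⟨k, p', hp', ?_⟩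
            exact (h.tail _ p (Finset.mem_of_mem_erase hq)).1
        · refine Or.inr ⟨k + 1, (x, y), ClRch.next hp ?_ hxy, h.mem y⟩
          exact Finset.mem_erase.2 ⟨hback, hxp⟩

/-! ### depth bound -/

theorem cl_Nn_mono (O : Set (V × V)) (σ : St V) : ∀ (j : ℕ) (p : V × V),
    Nn O σ j p ≤ Nn O σ (j + 1) p
  | 0, p => by
    simp only [Nn]
    exact le_self_add
  | j + 1, p => by
    show 1 + ∑ q ∈ onw σ p, ind (hp O σ p q) * Nn O σ j q ≤
      1 + ∑ q ∈ onw σ p, ind (hp O σ p q) * Nn O σ (j + 1) q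
    gcongr
    exact cl_Nn_mono O σ j _

theorem cl_Nn_monotone (O : Set (V × V)) (σ : St V) (p : V × V) : Monotone (fun j => Nn O σ j p) :=
  monotone_nat_of_le_succ (fun j => cl_Nn_mono O σ j p)

theorem cl_Nn_le_NN (O : Set (V × V)) (σ : St V) (j : ℕ) (p : V × V) : Nn O σ j p ≤ NN O σ p :=
  le_iSup (fun j => Nn O σ j p) j

theorem cl_ind_true {P : Prop} (h : P) : ind P = 1 := by unfold ind; rw [if_pos h]
theorem cl_ind_false {P : Prop} (h : ¬ P) : ind P = 0 := by unfold ind; rw [if_neg h]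

theorem cl_one_le_Nn (O : Set (V × V)) (σ : St V) (j : ℕ) (p : V × V) : 1 ≤ Nn O σ j p := by
  cases j with
  | zero => exact le_refl _
  | succ j => exact le_self_add

/-- chains starting with the dart `p` -/
inductive ClCh (O : Set (V × V)) (σ : St V) : ℕ → V × V → V × V → Prop
  | base (p : V × V) : ClCh O σ 0 p p
  | next {k : ℕ} {p q r : V × V} (hq : q ∈ onw σ p) (hh : hot O σ q) (h : ClCh O σ k q r) :
      ClCh O σ (k + 1) p r

theorem ClCh.snoc {O : Set (V × V)} {σ : St V} {k : ℕ} {p q r : V × V} (h : ClCh O σ k p q)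
    (hr : r ∈ onw σ q) (hh : hot O σ r) : ClCh O σ (k + 1) p r := by
  induction h with
  | base p => exact ClCh.next hr hh (ClCh.base r)
  | next hq hh' _ ih => exact ClCh.next hq hh' (ih hr)

theorem ClRch.toCh {O : Set (V × V)} {σ : St V} {v : V} {k : ℕ} {q : V × V}
    (h : ClRch O σ v k q) : ∃ p ∈ (σ v).ports, PM.hot O σ p ∧ ClCh O σ k p q := by
  induction h with
  | base hp hh => exact ⟨_, hp, hh, ClCh.base _⟩
  | next _ hq hh ih =>
    obtain ⟨p, hp, hh', hc⟩ := ih
    exact ⟨p, hp, hh', hc.snoc hq hh⟩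

theorem ClCh.len {O : Set (V × V)} {σ : St V} (h0 : WF0 G σ) {k : ℕ} {p q : V × V}
    (h : ClCh O σ k p q) (hp : opd O p) : (k : ℝ≥0∞) + 1 ≤ Nn O σ k p := by
  induction h with
  | base p => simp [Nn]
  | @next k p q r hq hh _ ih =>
    have h1 := ih hh.2.2.1
    have h2 : Nn O σ k q ≤ ∑ q ∈ onw σ p, ind (PM.hp O σ p q) * Nn O σ k q := by
      calc Nn O σ k q = ind (PM.hp O σ p q) * Nn O σ k q := by
            rw [cl_ind_true (cl_hp_of_hot h0 hp hq hh), one_mul]
        _ ≤ _ := Finset.single_le_sum (f := fun q => ind (PM.hp O σ p q) * Nn O σ k q)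
            (fun _ _ => zero_le) hq
    show ((k + 1 : ℕ) : ℝ≥0∞) + 1 ≤ 1 + ∑ q ∈ onw σ p, ind (PM.hp O σ p q) * Nn O σ k q
    calc ((k + 1 : ℕ) : ℝ≥0∞) + 1 = 1 + ((k : ℝ≥0∞) + 1) := by push_cast; ring
      _ ≤ 1 + Nn O σ k q := by gcongr
      _ ≤ _ := by gcongr

theorem cl_Rch_finite {O : Set (V × V)} {σ : St V} (v : V) (k : ℕ) :
    {p | ClRch O σ v k p}.Finite := by
  induction k with
  | zero =>
    apply ((σ v).ports.finite_toSet).subset
    intro p hp
    cases hp with
    | base hp _ => exact hp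
  | succ k ih =>
    apply (ih.biUnion (t := fun p => ((onw σ p : Finset (V × V)) : Set (V × V)))
      (fun p _ => (onw σ p).finite_toSet)).subset
    intro q hq
    cases hq with
    | next hp hq _ =>
      simp only [Set.mem_iUnion]
      exact ⟨_, hp, hq⟩

theorem region_finite (hG : G.IsTree) {σ : St V} (h : WF0 G σ) {O : Set (V × V)} (v : V)
    (hN : ∀ p ∈ (σ v).ports, hot O σ p → NN O σ p ≠ ∞) : (region O σ v).Finite := by
  -- depth bound
  have hb : ∃ K : ℕ, ∀ p ∈ (σ v).ports, hot O σ p → NN O σ p ≤ K := by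
    choose! f hf using fun (p : V × V) (hp : p ∈ (σ v).ports) (hh : hot O σ p) =>
      ENNReal.exists_nat_gt (hN p hp hh)
    refine ⟨(σ v).ports.sup f, fun p hp hh => ?_⟩
    refine (hf p hp hh).le.trans ?_
    exact_mod_cast Finset.le_sup (f := f) hp
  obtain ⟨K, hK⟩ := hb
  have hdep : ∀ k p, ClRch O σ v k p → k < K := by
    intro k q hq
    obtain ⟨p, hp, hh, hc⟩ := hq.toCh
    have h1 := hc.len h hh.2.2.1
    have h2 := (h1.trans (cl_Nn_le_NN O σ k p)).trans (hK p hp hh)
    have h3 : ((k + 1 : ℕ) : ℝ≥0∞) ≤ (K : ℝ≥0∞) := by push_cast; exact h2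
    exact_mod_cast h3
  have hfin : (((σ v).comp : Set V) ∪ ⋃ k ∈ Finset.range K, ⋃ p ∈ {p | ClRch O σ v k p},
      ((σ p.2).comp : Set V)).Finite := by
    refine Set.Finite.union (Finset.finite_toSet _) ?_
    refine Set.Finite.biUnion (Finset.finite_toSet _) fun k _ => ?_
    exact (cl_Rch_finite v k).biUnion fun p _ => Finset.finite_toSet _
  apply hfin.subset
  intro w hw
  rcases cl_cov_of_region h hw with hw | ⟨k, p, hp, hw⟩
  · exact Or.inl hw
  · right
    simp only [Set.mem_iUnion]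
    exact ⟨k, Finset.mem_range.2 (hdep k p hp), p, hp, hw⟩

theorem hotSet_finite {σ : St V} (h : WF0 G σ) {O : Set (V × V)} (t : V × V → ℝ) {v : V}
    (hf : (region O σ v).Finite) : (hotSet O t σ v).Finite := by
  apply (hf.biUnion (t := fun x => ((σ x).ports : Set (V × V)))
    (fun x _ => Finset.finite_toSet _)).subset
  rintro d ⟨h1, h2, _⟩
  simp only [Set.mem_iUnion]
  exact ⟨d.1, h1, h2.1⟩

theorem cl_hot_swap {σ : St V} {O : Set (V × V)} {d : V × V} (h : hot O σ d) : hot O σ d.swap := by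
  obtain ⟨h1, h2, h3, h4⟩ := h
  refine ⟨h2, by rw [Prod.swap_swap]; exact h1, ?_, ?_⟩
  · unfold opd at h3 ⊢; rw [Prod.swap_swap]; exact h3.symm
  · rw [Prod.swap_swap]
    rcases h4 with h4 | h4 | h4 | h4
    · exact Or.inr (Or.inl h4)
    · exact Or.inl h4
    · exact Or.inr (Or.inr (Or.inr h4))
    · exact Or.inr (Or.inr (Or.inl h4))

theorem region_finite_of_hotSet {σ : St V} (h : WF0 G σ) {O : Set (V × V)} {t : V × V → ℝ}
    (ht : TI G t) {v : V} (hf : (hotSet O t σ v).Finite) : (region O σ v).Finite := by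
  set H : Set (V × V) := hotSet O t σ v ∪ Prod.swap '' hotSet O t σ v with hH
  have hHf : H.Finite := hf.union (hf.image _)
  have hmem : ∀ d : V × V, d.1 ∈ region O σ v → hot O σ d → d ∈ H := by
    intro d hd hh
    have hadj : G.Adj d.1 d.2 := (h.tail d.1 d hh.1).2
    rcases lt_trichotomy (t d) (t d.swap) with h1 | h1 | h1
    · exact Or.inl ⟨hd, hh, h1⟩
    · have := ht d d.swap hadj hadj.symm h1
      have h2 : d.1 = d.2 := by
        have := congrArg Prod.fst this
        simpa using this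
      exact absurd h2 hadj.ne
    · right
      refine ⟨d.swap, ⟨?_, cl_hot_swap hh, by rw [Prod.swap_swap]; exact h1⟩, Prod.swap_swap d⟩
      exact Relation.ReflTransGen.tail hd (Or.inr hh)
  have hfin : (((σ v).comp : Set V) ∪ ⋃ d ∈ H, ((σ d.2).comp : Set V)).Finite :=
    (Finset.finite_toSet _).union (hHf.biUnion fun d _ => Finset.finite_toSet _)
  apply hfin.subset
  intro w hw
  rcases cl_cov_of_region h hw with hw | ⟨k, p, hp, hw⟩
  · exact Or.inl hw
  · right
    simp only [Set.mem_iUnion]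
    exact ⟨p, hmem p (hp.mem_region h).1 hp.hot, hw⟩

/-! ### the ports of the new comp -/

/-- unopened ports beyond `p`, depth at most `j` -/
noncomputable def ClTn (O : Set (V × V)) (σ : St V) : ℕ → V × V → Finset (V × V)
  | 0, p => unop O (σ p.2)
  | j + 1, p => unop O (σ p.2) ∪
      ((onw σ p).filter (fun q => hot O σ q)).biUnion (fun q => ClTn O σ j q)

theorem cl_Tn_mono (O : Set (V × V)) (σ : St V) : ∀ (j : ℕ) (p : V × V),
    ClTn O σ j p ⊆ ClTn O σ (j + 1) p
  | 0, p => by
    simp only [ClTn]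
    exact Finset.subset_union_left
  | j + 1, p => by
    show unop O (σ p.2) ∪ ((onw σ p).filter (fun q => hot O σ q)).biUnion (fun q => ClTn O σ j q) ⊆
      unop O (σ p.2) ∪ ((onw σ p).filter (fun q => hot O σ q)).biUnion (fun q => ClTn O σ (j + 1) q)
    apply Finset.union_subset_union_right
    intro x hx
    rw [Finset.mem_biUnion] at hx ⊢
    obtain ⟨q, hq, hx⟩ := hx
    exact ⟨q, hq, cl_Tn_mono O σ j q hx⟩

theorem cl_Tn_monotone (O : Set (V × V)) (σ : St V) (p : V × V) : Monotone (fun j => ClTn O σ j p) :=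
  monotone_nat_of_le_succ (fun j => cl_Tn_mono O σ j p)

theorem ClCh.mem_ClTn {O : Set (V × V)} {σ : St V} {k : ℕ} {p r : V × V} (h : ClCh O σ k p r)
    {q : V × V} (hq : q ∈ unop O (σ r.2)) : q ∈ ClTn O σ k p := by
  induction h with
  | base p => exact hq
  | @next k p r' r hr hh _ ih =>
    show q ∈ unop O (σ p.2) ∪
      ((onw σ p).filter (fun q => hot O σ q)).biUnion (fun q => ClTn O σ k q)
    refine Finset.mem_union_right _ (Finset.mem_biUnion.2 ⟨r', ?_, ih hq⟩)
    exact Finset.mem_filter.2 ⟨hr, hh⟩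

theorem cl_region_step {O : Set (V × V)} {σ : St V} (h0 : WF0 G σ) {v x : V} {q : V × V}
    (hx : x ∈ region O σ v) (hq : q ∈ (σ x).ports) (hh : hot O σ q) : q.2 ∈ region O σ v := by
  have h1 : q.1 ∈ region O σ v :=
    Relation.ReflTransGen.tail hx (Or.inl (h0.tail _ q hq).1)
  exact Relation.ReflTransGen.tail h1 (Or.inr hh)

theorem cl_Tn_card {O : Set (V × V)} {σ : St V} (h0 : WF0 G σ) {v : V}
    (hU : ∀ x ∈ region O σ v, (unop O (σ x)).card ≤ 7) :
    ∀ (j : ℕ) (p : V × V), opd O p → p.2 ∈ region O σ v →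
      ((ClTn O σ j p).card : ℝ≥0∞) ≤ 7 * Nn O σ j p
  | 0, p, _, hp => by
    simp only [ClTn, Nn, mul_one]
    exact_mod_cast hU _ hp
  | j + 1, p, ho, hp => by
    show (((unop O (σ p.2) ∪ ((onw σ p).filter (fun q => hot O σ q)).biUnion
      (fun q => ClTn O σ j q)).card : ℕ) : ℝ≥0∞) ≤
      7 * (1 + ∑ q ∈ onw σ p, ind (PM.hp O σ p q) * Nn O σ j q)
    calc (((unop O (σ p.2) ∪ ((onw σ p).filter (fun q => hot O σ q)).biUnion
          (fun q => ClTn O σ j q)).card : ℕ) : ℝ≥0∞)
        ≤ (((unop O (σ p.2)).card + ∑ q ∈ (onw σ p).filter (fun q => hot O σ q),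
            (ClTn O σ j q).card : ℕ) : ℝ≥0∞) := by
          exact_mod_cast (Finset.card_union_le _ _).trans
            (Nat.add_le_add_left Finset.card_biUnion_le _)
      _ = ((unop O (σ p.2)).card : ℝ≥0∞) + ∑ q ∈ (onw σ p).filter (fun q => hot O σ q),
            ((ClTn O σ j q).card : ℝ≥0∞) := by push_cast; rfl
      _ ≤ 7 + ∑ q ∈ (onw σ p).filter (fun q => hot O σ q), 7 * Nn O σ j q := by
          refine add_le_add (by exact_mod_cast hU _ hp) (Finset.sum_le_sum fun q hq => ?_)
          obtain ⟨hq, hh⟩ := Finset.mem_filter.1 hq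
          exact cl_Tn_card h0 hU j q hh.2.2.1 (cl_region_step h0 hp (Finset.mem_of_mem_erase hq) hh)
      _ ≤ 7 + ∑ q ∈ onw σ p, 7 * (ind (PM.hp O σ p q) * Nn O σ j q) := by
          refine add_le_add le_rfl ?_
          rw [Finset.sum_filter]
          refine Finset.sum_le_sum fun q hq => ?_
          split_ifs with hh
          · rw [cl_ind_true (cl_hp_of_hot h0 ho hq hh), one_mul]
          · exact zero_le
      _ = _ := by rw [← Finset.mul_sum, mul_add, mul_one]

/-- an unopened port of the comp of a vertex of the region is found by a chain -/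
theorem cl_unop_region {O : Set (V × V)} {σ : St V} (h0 : WF0 G σ) {v : V} {q : V × V}
    (hq : q.1 ∈ region O σ v) (ha : alive σ q) (ho : ¬ opd O q) :
    q ∈ unop O (σ v) ∨ ∃ k p r, p ∈ (σ v).ports ∧ hot O σ p ∧ ClCh O σ k p r ∧
      q.1 ∈ (σ r.2).comp ∧ q ∈ unop O (σ r.2) := by
  rcases cl_cov_of_region h0 hq with hw | ⟨k, r, hr, hw⟩
  · left
    unfold unop
    rw [Finset.mem_filter, ← (h0.eqv v q.1 hw).2.1]
    exact ⟨ha, ho⟩
  · right
    obtain ⟨p, hp, hh, hc⟩ := hr.toCh
    refine ⟨k, p, r, hp, hh, hc, hw, ?_⟩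
    unfold unop
    rw [Finset.mem_filter, ← (h0.eqv r.2 q.1 hw).2.1]
    exact ⟨ha, ho⟩

/-- size of the new comp -/
theorem out5 (hG : G.IsTree) {σ : St V} (h : WF0 G σ) (O : Set (V × V)) (t : V × V → ℝ) (v : V)
    (hU : ∀ x ∈ region O σ v, (unop O (σ x)).card ≤ 7) :
    ((step O t σ v).ports.card : ℝ≥0∞) ≤
      (unop O (σ v)).card + 7 * ∑ p ∈ (σ v).ports, ind (hot O σ p) * NN O σ p := by
  have h1 : WF0 G (step O t σ) := step_WF0 hG h O t
  have hex : ∀ q ∈ (step O t σ v).ports, ∃ k : ℕ, q ∈ unop O (σ v) ∪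
      ((σ v).ports.filter (fun p => hot O σ p)).biUnion (fun p => ClTn O σ k p) := by
    intro q hq
    have hqc : q.1 ∈ (step O t σ v).comp := (h1.tail v q hq).1
    have hal : alive (step O t σ) q := by
      unfold alive
      rw [(h1.eqv v q.1 hqc).2.1]
      exact hq
    obtain ⟨ha, ho⟩ := (alive_step hG h O t q).1 hal
    rcases cl_unop_region h (step_comp_sub hG h O t v q.1 hqc) ha ho with hc |
      ⟨k, p, r, hp, hh, hc, _, hu⟩
    · exact ⟨0, Finset.mem_union_left _ hc⟩
    · refine ⟨k, Finset.mem_union_right _ (Finset.mem_biUnion.2 ⟨p, ?_, hc.mem_ClTn hu⟩)⟩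
      exact Finset.mem_filter.2 ⟨hp, hh⟩
  choose! f hf using hex
  set K := (step O t σ v).ports.sup f with hK
  have hsub : (step O t σ v).ports ⊆ unop O (σ v) ∪
      ((σ v).ports.filter (fun p => hot O σ p)).biUnion (fun p => ClTn O σ K p) := by
    intro q hq
    have h2 := hf q hq
    rw [Finset.mem_union, Finset.mem_biUnion] at h2 ⊢
    rcases h2 with h2 | ⟨p, hp, h2⟩
    · exact Or.inl h2
    · exact Or.inr ⟨p, hp, cl_Tn_monotone O σ p (Finset.le_sup (f := f) hq) h2⟩
  calc ((step O t σ v).ports.card : ℝ≥0∞)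
      ≤ (((unop O (σ v)).card + ∑ p ∈ (σ v).ports.filter (fun p => hot O σ p),
          (ClTn O σ K p).card : ℕ) : ℝ≥0∞) := by
        exact_mod_cast (Finset.card_le_card hsub).trans ((Finset.card_union_le _ _).trans
          (Nat.add_le_add_left Finset.card_biUnion_le _))
    _ = ((unop O (σ v)).card : ℝ≥0∞) + ∑ p ∈ (σ v).ports.filter (fun p => hot O σ p),
          ((ClTn O σ K p).card : ℝ≥0∞) := by push_cast; rfl
    _ ≤ ((unop O (σ v)).card : ℝ≥0∞) + ∑ p ∈ (σ v).ports.filter (fun p => hot O σ p),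
          7 * NN O σ p := by
        refine add_le_add le_rfl (Finset.sum_le_sum fun p hp => ?_)
        obtain ⟨hp, hh⟩ := Finset.mem_filter.1 hp
        refine (cl_Tn_card h hU K p hh.2.2.1 ?_).trans ?_
        · exact cl_region_step h (Relation.ReflTransGen.refl : v ∈ region O σ v) hp hh
        · gcongr
          exact cl_Nn_le_NN O σ K p
    _ = _ := by
        rw [Finset.sum_filter, Finset.mul_sum]
        congr 1
        refine Finset.sum_congr rfl fun p _ => ?_
        by_cases hh : hot O σ p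
        · rw [if_pos hh, cl_ind_true hh, one_mul]
        · rw [if_neg hh, cl_ind_false hh, zero_mul, mul_zero]

end Pool.Agent.PM
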