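import Mathlib

/-!
# MP_947a32_pr : definitions (helper40, version 2)

`G` = a `Δ`-regular tree on `V`.  A *state* cuts the tree into finite *comps*; the alive (closed) edges
between comps are recorded as *ports* (darts `(v,w)`, `v` in the comp, `w` outside).  The constraint of a
comp is: exactly one port `p` has value `x_p xor [p in spec] = 1`; `M p` is the partner of the vertex when
port `p` is the selected one.

One *stage*: every comp proposes some of its ports (`rule`), an edge is opened iff one of its two darts is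
proposed; opened edges that are not `hot` are deleted (`chill`), hot ones are processed one by one (`op`)
in the order of their times (`run`).
-/

set_option autoImplicit false

open Classical MeasureTheory
open scoped ENNReal

namespace Pool.Agent.PM

/-- local state at a vertex (the same `comp`, `ports`, `spec` at all vertices of a comp) -/
@[ext] structure Loc (V : Type) where
  comp : Finset V
  ports : Finset (V × V)
  spec : Finset (V × V)
  M : V × V → V

abbrev St (V : Type) := V → Loc V

/-! ### deterministic part -/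

section Basic

variable {V : Type}

/-- `w` is the partner of `v` in all patterns of the comp of `v` -/
def Dec (σ : St V) (v w : V) : Prop := ∀ p ∈ (σ v).ports, (σ v).M p = w

/-- value of the port `r` when the port `p` is selected -/
def val (L : Loc V) (p r : V × V) : Prop := (r = p ∧ r ∉ L.spec) ∨ (r ≠ p ∧ r ∈ L.spec)

/-- the tail side of the dart `p` -/
def side (G : SimpleGraph V) (p : V × V) (x : V) : Prop := G.dist x p.1 < G.dist x p.2

/-- the edge of `p` is alive (for a `WF0` state this does not depend on the orientation) -/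
def alive (σ : St V) (p : V × V) : Prop := p ∈ (σ p.1).ports

/-- structural invariants (hold surely) -/
structure WF0 (G : SimpleGraph V) (σ : St V) : Prop where
  mem : ∀ v, v ∈ (σ v).comp
  eqv : ∀ v, ∀ u ∈ (σ v).comp,
    (σ u).comp = (σ v).comp ∧ (σ u).ports = (σ v).ports ∧ (σ u).spec = (σ v).spec
  tail : ∀ v, ∀ p ∈ (σ v).ports, p.1 ∈ (σ v).comp ∧ G.Adj p.1 p.2
  swap : ∀ v, ∀ p ∈ (σ v).ports, p.swap ∈ (σ p.2).ports
  spec_sub : ∀ v, (σ v).spec ⊆ (σ v).ports
  sep : ∀ p, p ∈ (σ p.1).ports → ∀ v, ∀ x ∈ (σ v).comp, (side G p x ↔ side G p v)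

/-- full invariants (hold a.s.) -/
structure WF (G : SimpleGraph V) (σ : St V) : Prop extends WF0 G σ where
  two : ∀ v, 2 ≤ (σ v).ports.card
  adj : ∀ v, ∀ p ∈ (σ v).ports, G.Adj v ((σ v).M p)
  out : ∀ v, ∀ r ∈ (σ v).ports, r.1 = v → ∀ p ∈ (σ v).ports, ((σ v).M p = r.2 ↔ val (σ v) p r)
  inn : ∀ v, ∀ p ∈ (σ v).ports, (σ v).M p ∈ (σ v).comp → (σ ((σ v).M p)).M p = v
  ded : ∀ v, ∀ p ∈ (σ v).ports, (σ v).M p ∉ (σ v).comp → (v, (σ v).M p) ∉ (σ v).ports →
    Dec σ v ((σ v).M p) ∧ Dec σ ((σ v).M p) v

/-- the element of `S` different from `d`, if it is unique -/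
noncomputable def other (S : Finset (V × V)) (d : V × V) : V × V :=
  if h : ∃! g, g ∈ S ∧ g ≠ d then h.exists.choose else d

/-- processing one opened edge (given by one of its darts `d`) -/
noncomputable def op (σ : St V) (d : V × V) : St V := fun v =>
  if d ∈ (σ d.1).ports ∧ d.swap ∈ (σ d.2).ports ∧ (v ∈ (σ d.1).comp ∨ v ∈ (σ d.2).comp) then
    if (d ∈ (σ d.1).spec ↔ d.swap ∈ (σ d.2).spec) then
      if 3 ≤ (σ d.1).ports.card ∧ 3 ≤ (σ d.2).ports.card then
        -- deletion of the edge
        { comp := (σ v).comp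
          ports := ((σ v).ports.erase d).erase d.swap
          spec := ((σ v).spec.erase d).erase d.swap
          M := (σ v).M }
      else if (σ d.2).ports.card = 2 then
        -- the comp of `d.2` is absorbed by the comp of `d.1`
        { comp := (σ d.1).comp ∪ (σ d.2).comp
          ports := (σ d.1).ports.erase d ∪ (σ d.2).ports.erase d.swap
          spec := (σ d.1).spec.erase d ∪ ((σ d.2).ports.erase d.swap \ (σ d.2).spec)
          M := fun p =>
            if v ∈ (σ d.1).comp then
              (if p ∈ (σ d.2).ports then (σ v).M d else (σ v).M p)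
            else
              (if p ∈ (σ d.1).ports then (σ v).M (other (σ d.2).ports d.swap)
                else (σ v).M d.swap) }
      else
        -- the comp of `d.1` is absorbed by the comp of `d.2`
        { comp := (σ d.1).comp ∪ (σ d.2).comp
          ports := (σ d.1).ports.erase d ∪ (σ d.2).ports.erase d.swap
          spec := ((σ d.1).ports.erase d \ (σ d.1).spec) ∪ (σ d.2).spec.erase d.swap
          M := fun p =>
            if v ∈ (σ d.2).comp then
              (if p ∈ (σ d.1).ports then (σ v).M d.swap else (σ v).M p)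
            else
              (if p ∈ (σ d.2).ports then (σ v).M (other (σ d.1).ports d)
                else (σ v).M d) }
    else
      -- merge
      { comp := (σ d.1).comp ∪ (σ d.2).comp
        ports := (σ d.1).ports.erase d ∪ (σ d.2).ports.erase d.swap
        spec := (σ d.1).spec.erase d ∪ (σ d.2).spec.erase d.swap
        M := fun p =>
          if v ∈ (σ d.1).comp then
            (if p ∈ (σ d.2).ports then (σ v).M d else (σ v).M p)
          else
            (if p ∈ (σ d.1).ports then (σ v).M d.swap else (σ v).M p) }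
  else σ v

/-- the edge of `d` is opened -/
def opd (O : Set (V × V)) (d : V × V) : Prop := d ∈ O ∨ d.swap ∈ O

/-- unopened ports -/
noncomputable def unop (O : Set (V × V)) (L : Loc V) : Finset (V × V) :=
  L.ports.filter (fun q => ¬ opd O q)

/-- hot darts are processed one by one; opened darts that are not hot are deleted at once -/
def hot (O : Set (V × V)) (σ : St V) (d : V × V) : Prop :=
  d ∈ (σ d.1).ports ∧ d.swap ∈ (σ d.2).ports ∧ opd O d ∧
    (d ∈ (σ d.1).spec ∨ d.swap ∈ (σ d.2).spec ∨
      (unop O (σ d.1)).card ≤ 1 ∨ (unop O (σ d.2)).card ≤ 1)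

/-- delete the opened darts that are not hot -/
noncomputable def chill (O : Set (V × V)) (σ : St V) : St V := fun v =>
  { comp := (σ v).comp
    ports := (σ v).ports.filter (fun q => opd O q → hot O σ q)
    spec := (σ v).spec.filter (fun q => opd O q → hot O σ q)
    M := (σ v).M }

/-- same comp, or joined by a hot dart -/
def Rl (O : Set (V × V)) (σ : St V) (u w : V) : Prop :=
  w ∈ (σ u).comp ∨ hot O σ (u, w)

def region (O : Set (V × V)) (σ : St V) (v : V) : Set V :=
  {w | Relation.ReflTransGen (Rl O σ) v w}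

/-- one dart for every hot edge of the region of `v` (the one with the smaller time) -/
def hotSet (O : Set (V × V)) (t : V × V → ℝ) (σ : St V) (v : V) : Set (V × V) :=
  {d | d.1 ∈ region O σ v ∧ hot O σ d ∧ t d < t d.swap}

/-- process the darts of `S` in the order of their times -/
noncomputable def run (t : V × V → ℝ) : ℕ → Finset (V × V) → St V → St V
  | 0, _, σ => σ
  | n + 1, S, σ =>
    if h : ∃ d ∈ S, ∀ d' ∈ S, d' ≠ d → t d < t d' then
      run t n (S.erase h.choose) (op σ h.choose)
    else σ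

/-- forget the opened ports -/
noncomputable def post (O : Set (V × V)) (L : Loc V) : Loc V :=
  { comp := L.comp
    ports := L.ports.filter (fun q => ¬ opd O q)
    spec := L.spec.filter (fun q => ¬ opd O q)
    M := L.M }

noncomputable def step (O : Set (V × V)) (t : V × V → ℝ) (σ : St V) : St V := fun v =>
  if h : (hotSet O t σ v).Finite then
    post O (run t h.toFinset.card h.toFinset (chill O σ) v)
  else post O (chill O σ v)

/-! ### the rule -/

/-- ordinary ports -/
noncomputable def ordp (L : Loc V) : Finset (V × V) := L.ports \ L.spec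

noncomputable def rnk (r : V × V → ℝ) (L : Loc V) (d : V × V) : ℕ :=
  ((ordp L).filter (fun q => r q < r d)).card

/-- the comp is activated -/
def act (δ : ℝ) (a : V × V → ℝ) (L : Loc V) : Prop :=
  L.ports.card ≤ 1000 ∧ ∃ q ∈ L.ports, a q < δ

/-- the darts that their own comp proposes -/
def rule (δ : ℝ) (a r : V × V → ℝ) (σ : St V) : Set (V × V) :=
  {d | d ∈ (σ d.1).ports ∧
    (act δ a (σ d.1) ∨ (ordp (σ d.1)).card ≤ 2 ∨ d ∈ (σ d.1).spec ∨ 7 ≤ rnk r (σ d.1) d)}

noncomputable def nb (G : SimpleGraph V) (v : V) : Finset V :=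
  if h : (G.neighborSet v).Finite then h.toFinset else ∅

noncomputable def init (G : SimpleGraph V) : St V := fun v =>
  { comp := {v}
    ports := (nb G v).image (fun u => (v, u))
    spec := ∅
    M := fun p => p.2 }

/-! ### halving (used for the first stages when `Δ ≥ 8`) -/

/-- rank of the port `d` in the port set `P` -/
noncomputable def rk (r : V × V → ℝ) (P : Finset (V × V)) (d : V × V) : ℕ :=
  (P.filter (fun q => r q < r d)).card

/-- `d` and `g` are mates in the port set `P`: ranks `2j` and `2j+1`; if `b`, the top rank is unpaired -/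
def Mate (b : Bool) (r : V × V → ℝ) (P : Finset (V × V)) (d g : V × V) : Prop :=
  d ∈ P ∧ g ∈ P ∧ ∃ j : ℕ, 2 * j + 1 < P.card - (if b then 1 else 0) ∧
    ((rk r P d = 2 * j ∧ rk r P g = 2 * j + 1) ∨ (rk r P g = 2 * j ∧ rk r P d = 2 * j + 1))

/-- the dart following the dart `d` on its path -/
noncomputable def nx (b : Bool) (r : V × V → ℝ) (σ : St V) (d : V × V) : Option (V × V) :=
  if h : ∃! g, Mate b r (σ d.2).ports d.swap g then some h.exists.choose else none

/-- the `n`-th dart of the path starting with `d` -/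
noncomputable def wk (b : Bool) (r : V × V → ℝ) (σ : St V) : ℕ → V × V → Option (V × V)
  | 0, d => some d
  | n + 1, d => (wk b r σ n d).bind (nx b r σ)

/-- the path starting with `d` stops after `n` steps, at the unpaired port `u` -/
def Stop (b : Bool) (r : V × V → ℝ) (σ : St V) (d : V × V) (n : ℕ) (u : V × V) : Prop :=
  wk b r σ n d = some u.swap ∧ nx b r σ u.swap = none

/-- the colour of the edge of `e`: the end with the smaller `t`-label decides by its coin `a`,
then the colours alternate; `False` if the path is infinite -/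
def col (b : Bool) (a t r : V × V → ℝ) (σ : St V) (e : V × V) : Prop :=
  ∃ n m u w, Stop b r σ e n u ∧ Stop b r σ e.swap m w ∧
    ((t u < t w ∧ (a u < 1/2 ↔ Even n)) ∨ (t w < t u ∧ (a w < 1/2 ↔ Even m)))

/-- keep the edges of colour `True` -/
noncomputable def halve (b : Bool) (a t r : V × V → ℝ) (σ : St V) : St V := fun v =>
  { comp := (σ v).comp
    ports := (σ v).ports.filter (fun d => col b a t r σ d)
    spec := (σ v).spec.filter (fun d => col b a t r σ d)
    M := (σ v).M }

/-- automorphisms act on darts -/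
def mp (φ : V ≃ V) (d : V × V) : V × V := (φ d.1, φ d.2)

noncomputable def Loc.map (φ : V ≃ V) (L : Loc V) : Loc V :=
  { comp := L.comp.image φ
    ports := L.ports.image (mp φ)
    spec := L.spec.image (mp φ)
    M := fun p => φ (L.M (mp φ.symm p)) }

noncomputable def St.map (φ : V ≃ V) (σ : St V) : St V := fun v => (σ (φ.symm v)).map φ

instance : MeasurableSpace (Loc V) :=
  (MeasurableSpace.comap (fun L : Loc V => L.comp) ⊤ ⊔
    MeasurableSpace.comap (fun L : Loc V => L.ports) ⊤ ⊔
    MeasurableSpace.comap (fun L : Loc V => L.spec) ⊤) ⊔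
    ⨆ p : V × V, MeasurableSpace.comap (fun L : Loc V => L.M p) ⊤

end Basic

/-! ### labels -/

section Labels

variable {V : Type} (G : SimpleGraph V)

abbrev Dt := {d : V × V // G.Adj d.1 d.2}

/-- labels of one stage; `i = 0` activity/coin, `i = 1` time, `i = 2` rank -/
abbrev Lb := Dt G × Fin 3 → ℝ

/-- data of one stage -/
abbrev XX := St V × Lb G

/-- all labels -/
abbrev Om := Dt G × ℕ × Fin 3 → ℝ

noncomputable def unif : Measure ℝ := volume.restrict (Set.Icc 0 1)

noncomputable def lam : Measure (Lb G) := Measure.infinitePi (fun _ => unif)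

noncomputable def PP : Measure (Om G) := Measure.infinitePi (fun _ => unif)

variable {G}

/-- labels of stage `n` -/
def stg (ω : Om G) (n : ℕ) : Lb G := fun i => ω (i.1, n, i.2)

noncomputable def lab (l : Lb G) (i : Fin 3) (d : V × V) : ℝ :=
  if h : G.Adj d.1 d.2 then l (⟨d, h⟩, i) else 0

/-- proposals of a stage -/
noncomputable def OO (δ : ℝ) (x : XX G) : Set (V × V) := rule δ (lab x.2 0) (lab x.2 2) x.1

/-- a stage -/
noncomputable def stp (δ : ℝ) (x : XX G) : St V := step (OO δ x) (lab x.2 1) x.1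

/-- a halving stage -/
noncomputable def hv (b : Bool) (x : XX G) : St V :=
  halve b (lab x.2 0) (lab x.2 1) (lab x.2 2) x.1

/-- the `n`-th stage of the algorithm with `J` halving stages -/
noncomputable def stage (J : ℕ) (δ : ℝ) (n : ℕ) (x : XX G) : St V :=
  if n < J then hv (decide (n = 0)) x else stp δ x

/-- state before stage `n` -/
noncomputable def sig (J : ℕ) (δ : ℝ) (ω : Om G) : ℕ → St V
  | 0 => init G
  | n + 1 => stage J δ n (sig J δ ω n, stg ω n)

/-- action of an automorphism on labels -/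
def Lb.map (φ : G ≃g G) (l : Lb G) : Lb G := fun i =>
  l (⟨mp φ.toEquiv.symm i.1.1, (φ.symm.map_adj_iff).2 i.1.2⟩, i.2)

def Om.map (φ : G ≃g G) (ω : Om G) : Om G := fun i =>
  ω (⟨mp φ.toEquiv.symm i.1.1, (φ.symm.map_adj_iff).2 i.1.2⟩, i.2)

noncomputable def XX.map (φ : G ≃g G) (x : XX G) : XX G := (St.map φ.toEquiv x.1, Lb.map φ x.2)

/-- law of one stage: from the law of the state to the law of the next state -/
noncomputable def nextLaw (f : XX G → St V) (μ : Measure (St V)) : Measure (St V) :=
  (μ.prod (lam G)).map f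

/-- law of the state before stage `n` -/
noncomputable def law (J : ℕ) (δ : ℝ) : ℕ → Measure (St V)
  | 0 => Measure.dirac (init G)
  | n + 1 => nextLaw (G := G) (stage J δ n) (law J δ n)

end Labels

/-! ### laws, local functionals, expectations -/

section Laws

variable {V : Type}

noncomputable def ind (P : Prop) : ℝ≥0∞ := if P then 1 else 0

/-- `f` depends only on the state at the vertices of the tail side of `e` -/
def TL (G : SimpleGraph V) (e : V × V) (f : St V → ℝ≥0∞) : Prop :=
  ∀ σ σ', (∀ v, side G e v → σ v = σ' v) → f σ = f σ'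

/-- properties of the law of the state which are kept by all stages -/
structure Law (G : SimpleGraph V) (μ : Measure (St V)) : Prop where
  prob : IsProbabilityMeasure μ
  wf : ∀ᵐ σ ∂μ, WF G σ
  inv : ∀ φ : G ≃g G, μ.map (St.map φ.toEquiv) = μ
  pos : ∀ e : V × V, G.Adj e.1 e.2 → μ {σ | alive σ e} ≠ 0
  fac : ∀ e : V × V, G.Adj e.1 e.2 → ∀ f g : St V → ℝ≥0∞, Measurable f → Measurable g →
    TL G e f → TL G e.swap g →
    (∫⁻ σ, ind (alive σ e) * (f σ * g σ) ∂μ) * μ {σ | alive σ e} =
      (∫⁻ σ, ind (alive σ e) * f σ ∂μ) * (∫⁻ σ, ind (alive σ e) * g σ ∂μ)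

variable {G : SimpleGraph V}

/-- agreement of two data on the tail side of `e` -/
def Agr (G : SimpleGraph V) (e : V × V) (x y : XX G) : Prop :=
  (∀ v, side G e v → x.1 v = y.1 v) ∧
    ∀ (d : Dt G) (i : Fin 3), side G e d.1.1 → x.2 (d, i) = y.2 (d, i)

/-- conditional locality (on the tail side of `e`, among structurally valid data with `e` alive) -/
def Lc (G : SimpleGraph V) (e : V × V) (f : XX G → ℝ≥0∞) : Prop :=
  ∀ x y : XX G, WF0 G x.1 → WF0 G y.1 → alive x.1 e → alive y.1 e → Agr G e x y → f x = f y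

/-- nice functional of a tagged dart `e`, local on the *head* side of `e` -/
structure Hd (g : XX G → V × V → ℝ≥0∞) : Prop where
  meas : ∀ e, Measurable (fun x => g x e)
  loc : ∀ e : V × V, G.Adj e.1 e.2 → Lc G e.swap (fun x => g x e)
  equ : ∀ (φ : G ≃g G) (x : XX G) (e : V × V), g (XX.map φ x) (mp φ.toEquiv e) = g x e

/-- onward ports of the head comp of `p` -/
noncomputable def onw (σ : St V) (p : V × V) : Finset (V × V) := (σ p.2).ports.erase p.swap

/-- nice functional of `(e, p)`, `p` an onward port of the head comp of `e`: local on the tail side of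
`p` -/
structure Tl (f : XX G → V × V → V × V → ℝ≥0∞) : Prop where
  meas : ∀ e p, Measurable (fun x => f x e p)
  loc : ∀ e p : V × V, G.Adj e.1 e.2 → ∀ x y : XX G, WF0 G x.1 → WF0 G y.1 →
    e.swap ∈ (x.1 e.2).ports → e.swap ∈ (y.1 e.2).ports → p ∈ onw x.1 e → p ∈ onw y.1 e →
    Agr G p x y → f x e p = f y e p

/-- expectation given that the edge of `e` is alive -/
noncomputable def EE (μ : Measure (St V)) (e : V × V) (Y : XX G → ℝ≥0∞) : ℝ≥0∞ :=
  (∫⁻ x, ind (alive x.1 e) * Y x ∂(μ.prod (lam G))) / μ {σ | alive σ e}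

/-- the same, for a functional of the tagged dart -/
noncomputable def br (μ : Measure (St V)) (e : V × V) (g : XX G → V × V → ℝ≥0∞) : ℝ≥0∞ :=
  EE μ e (fun x => g x e)

/-- nice functional of `(v, p)`, `p` a port of the comp of `v`: local on the tail side of `p` -/
structure Vt (f : XX G → V → V × V → ℝ≥0∞) : Prop where
  meas : ∀ v p, Measurable (fun x => f x v p)
  loc : ∀ v p, ∀ x y : XX G, WF0 G x.1 → WF0 G y.1 → p ∈ (x.1 v).ports → p ∈ (y.1 v).ports →
    Agr G p x y → f x v p = f y v p

/-- the standing assumptions on the tree -/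
structure Std (G : SimpleGraph V) (Δ : ℕ) : Prop where
  tree : G.IsTree
  reg : ∀ v : V, (G.neighborSet v).encard = ((Δ : ℕ) : ℕ∞)
  three : 3 ≤ Δ

/-- distinct times -/
def TI (G : SimpleGraph V) (t : V × V → ℝ) : Prop :=
  ∀ d d' : V × V, G.Adj d.1 d.2 → G.Adj d'.1 d'.2 → t d = t d' → d = d'

/-- nice predicate of a tagged dart -/
structure HP (P : XX G → V × V → Prop) : Prop where
  meas : ∀ e, MeasurableSet {x | P x e}
  loc : ∀ e : V × V, G.Adj e.1 e.2 → ∀ x y : XX G, WF0 G x.1 → WF0 G y.1 →
    alive x.1 e.swap → alive y.1 e.swap → Agr G e.swap x y → (P x e ↔ P y e)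
  equ : ∀ (φ : G ≃g G) (x : XX G) (e : V × V), P (XX.map φ x) (mp φ.toEquiv e) ↔ P x e

/-- functional of `(e, p)`, `p` an onward port of the head comp of `e`, local on the head side of `e` -/
structure Md (f : XX G → V × V → V × V → ℝ≥0∞) : Prop where
  meas : ∀ e p, Measurable (fun x => f x e p)
  loc : ∀ e p : V × V, G.Adj e.1 e.2 → ∀ x y : XX G, WF0 G x.1 → WF0 G y.1 →
    alive x.1 e.swap → alive y.1 e.swap → p ∈ onw x.1 e → Agr G e.swap x y → f x e p = f y e p
  equ : ∀ (φ : G ≃g G) (x : XX G) (e p : V × V),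
    f (XX.map φ x) (mp φ.toEquiv e) (mp φ.toEquiv p) = f x e p

/-- generic labels -/
def Gen (δ : ℝ) (l : Lb G) : Prop := Function.Injective l ∧ ∀ i, l i ≠ δ ∧ l i ≠ 1/2

end Laws

/-! ### observables of a stage (functions of the opening set `O` and the state `σ`) -/

section Obs

variable {V : Type}

/-- state-passive -/
def passS (L : Loc V) : Prop := L.spec = ∅ ∧ 3 ≤ L.ports.card ∧ L.ports.card ≤ 7

/-- passive: state-passive and proposes nothing -/
def pass (O : Set (V × V)) (L : Loc V) : Prop := passS L ∧ ∀ q ∈ L.ports, q ∉ O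

def wire (L : Loc V) : Prop := L.spec = ∅ ∧ L.ports.card = 2

def big (L : Loc V) : Prop := L.spec = ∅ ∧ 8 ≤ L.ports.card

/-- at least 3 ordinary ports and all ports proposed by the comp itself -/
def allop (O : Set (V × V)) (L : Loc V) : Prop :=
  3 ≤ (ordp L).card ∧ ∀ q ∈ L.ports, q ∈ O

/-- unopened onward ports -/
noncomputable def bu (O : Set (V × V)) (σ : St V) (p : V × V) : Finset (V × V) :=
  (onw σ p).filter (fun q => ¬ opd O q)

/-- the head comp of `p` makes `p` hot (if `p` is opened) -/
def tr (O : Set (V × V)) (σ : St V) (p : V × V) : Prop :=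
  p.swap ∈ (σ p.2).spec ∨ (bu O σ p).card ≤ 1

/-- possible hot continuation of `p` by `q` -/
def hp (O : Set (V × V)) (σ : St V) (p q : V × V) : Prop :=
  opd O q ∧ (q ∈ (σ p.2).spec ∨ (bu O σ p).card ≤ 1 ∨ tr O σ q)

/-- number of comps in the hot cluster beyond `p`, depth at most `j` -/
noncomputable def Nn (O : Set (V × V)) (σ : St V) : ℕ → V × V → ℝ≥0∞
  | 0, _ => 1
  | j + 1, p => 1 + ∑ q ∈ onw σ p, ind (hp O σ p q) * Nn O σ j q

noncomputable def NN (O : Set (V × V)) (σ : St V) (p : V × V) : ℝ≥0∞ := ⨆ j, Nn O σ j p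

/-- number of comps in the opened cluster beyond `p` with exactly one unopened port, depth at most `j` -/
noncomputable def Cn (O : Set (V × V)) (σ : St V) : ℕ → V × V → ℝ≥0∞
  | 0, _ => 0
  | j + 1, p => ind ((bu O σ p).card = 1) + ∑ q ∈ onw σ p, ind (opd O q) * Cn O σ j q

noncomputable def CC (O : Set (V × V)) (σ : St V) (p : V × V) : ℝ≥0∞ := ⨆ j, Cn O σ j p

/-- facts on the set of proposals, at the comps of the vertices of `U` -/
structure RF (O : Set (V × V)) (σ : St V) (U : Set V) : Prop where
  sub : ∀ d ∈ O, d ∈ (σ d.1).ports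
  small : ∀ x ∈ U, (ordp (σ x)).card ≤ 2 → ∀ q ∈ (σ x).ports, q ∈ O
  spec : ∀ x ∈ U, ∀ q ∈ (σ x).spec, q ∈ O
  large : ∀ x ∈ U, 3 ≤ (ordp (σ x)).card → (∀ q ∈ (σ x).ports, q ∈ O) ∨
    ((σ x).ports.filter (fun q => q ∉ O)).card = min (ordp (σ x)).card 7

/-- two different onward ports hit -/
noncomputable def hit2 (O : Set (V × V)) (σ : St V) (e : V × V) : ℝ≥0∞ :=
  ∑ p ∈ onw σ e, ∑ q ∈ (onw σ e).erase p, ind (p.swap ∈ O) * ind (q.swap ∈ O)

/-- trouble at the head comp of `g` -/
noncomputable def zb (O : Set (V × V)) (σ : St V) (g : V × V) : ℝ≥0∞ :=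
  ind (¬ pass O (σ g.2)) + ind (pass O (σ g.2)) * ∑ q ∈ onw σ g, ind (q.swap ∈ O)

/-- bad terms when the head comp of `e` is passive -/
noncomputable def BadP (O : Set (V × V)) (σ : St V) (e : V × V) : ℝ≥0∞ :=
  hit2 O σ e
  + ∑ p ∈ onw σ e, ind (p.swap ∈ O ∧ (σ p.2).spec ≠ ∅)
  + ∑ p ∈ onw σ e, ind (p.swap ∈ O ∧ allop O (σ p.2))
  + ∑ p ∈ onw σ e, ind (p.swap ∈ O ∧ big (σ p.2) ∧ tr O σ p)
  + ∑ p ∈ onw σ e, ind (wire (σ p.2)) * ∑ g ∈ onw σ p, zb O σ g

/-- bad terms when the head comp of `e` is not passive -/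
noncomputable def BadR (O : Set (V × V)) (σ : St V) (e : V × V) : ℝ≥0∞ :=
  ind ((σ e.2).spec ≠ ∅)
  + ∑ p ∈ onw σ e, ind (p ∉ O) * ind (p.swap ∈ O)
  + ∑ p ∈ onw σ e, ind (p ∈ O) * ind (tr O σ p)

noncomputable def Bad (O : Set (V × V)) (σ : St V) (e : V × V) : ℝ≥0∞ :=
  ind (pass O (σ e.2)) * BadP O σ e + ind (¬ pass O (σ e.2) ∧ e.swap ∉ O) * BadR O σ e

/-- expected fraction of the ports proposed by a big comp -/
noncomputable def xw (L : Loc V) : ℝ≥0∞ :=
  if big L then ((L.ports.card - 7 : ℕ) : ℝ≥0∞) / (L.ports.card : ℝ≥0∞) else 0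

/-- comps with 3 ports and no flips -/
def thr (L : Loc V) : Prop := passS L ∧ L.ports.card = 3

/-- value of `xw` for the merger of two passive comps with `a` and `b` ports through a wire -/
noncomputable def phi2 (a b : ℕ) : ℝ≥0∞ := ((a + b - 9 : ℕ) : ℝ≥0∞) / ((a + b - 2 : ℕ) : ℝ≥0∞)

end Obs

/-! ### parameters of a law -/

section Par

variable {V : Type} (G : SimpleGraph V) (μ : Measure (St V)) (δ : ℝ) (e : V × V)

/-- the head comp proposes / does not propose the tagged edge -/
noncomputable def qh : ℝ≥0∞ := br (G := G) μ e (fun x e => ind (e.swap ∈ OO δ x))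
noncomputable def qb : ℝ≥0∞ := br (G := G) μ e (fun x e => ind (e.swap ∉ OO δ x))
noncomputable def qx : ℝ≥0∞ := br (G := G) μ e (fun x e => xw (x.1 e.2))
noncomputable def qy : ℝ≥0∞ := br (G := G) μ e (fun x e => ind (wire (x.1 e.2)))
noncomputable def qm : ℝ≥0∞ := br (G := G) μ e (fun x e => ((x.1 e.2).spec.card : ℝ≥0∞))
noncomputable def qr : ℝ≥0∞ :=
  br (G := G) μ e (fun x e => ((x.1 e.2).ports.card : ℝ≥0∞) * ind (¬ passS (x.1 e.2)))
noncomputable def q3 : ℝ≥0∞ := br (G := G) μ e (fun x e => ind (thr (x.1 e.2)))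
noncomputable def qS : ℝ≥0∞ :=
  br (G := G) μ e (fun x e => ind (passS (x.1 e.2) ∧ 4 ≤ (x.1 e.2).ports.card))
noncomputable def qA : ℝ≥0∞ := ENNReal.ofReal (10 ^ 6 * δ)
noncomputable def eta : ℝ≥0∞ := qx G μ e + qy G μ e + qm G μ e + qr G μ e + qA δ

/-- `v` is undecided -/
def und (σ : St V) (v : V) : Prop := ¬ ∃ w, Dec σ v w

noncomputable def vU (v : V) : ℝ≥0∞ := ∫⁻ σ, ind (und σ v) ∂μ
noncomputable def vP (v : V) : ℝ≥0∞ := ∫⁻ σ, ind (und σ v) * ((σ v).ports.card : ℝ≥0∞) ∂μ
noncomputable def vT (v : V) : ℝ≥0∞ := ∫⁻ σ, ind (und σ v) * ((σ v).spec.card : ℝ≥0∞) ∂μ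

/-- hypotheses of the one-step estimates -/
structure Hyp (Δ : ℕ) : Prop where
  std : Std G Δ
  law : Law G μ
  adj : G.Adj e.1 e.2
  dpos : 0 < δ
  small : eta G μ δ e ≤ ENNReal.ofReal (1 / 10 ^ 6)

end Par

end Pool.Agent.PM
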