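import Pool.Agent.Lib.MP_947a32_pr.Defs

/-! MP_947a32_pr : further definitions of the skeleton (assembly, helper78). -/

set_option autoImplicit false

open Classical MeasureTheory
open scoped ENNReal

namespace Pool.Agent.PM

variable {V : Type} {G : SimpleGraph V}

/-- the conclusions of one step; `μ'` is the next law -/
structure OneStep (G : SimpleGraph V) (μ μ' : Measure (St V)) (δ : ℝ) (e : V × V) : Prop where
  hh : qh G μ δ e ≤ eta G μ δ e
  hb : qb G μ δ e + qh G μ δ e = 1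
  h3S : q3 G μ e + qS G μ e ≤ 1
  x : qx G μ' e * qb G μ δ e ≤ qy G μ e * (q3 G μ e * qS G μ e + 5 / 2 * qS G μ e ^ 2) +
    10 ^ 4 * (qm G μ e + qA δ) + 10 ^ 4 * eta G μ δ e ^ 2
  y : qy G μ' e * qb G μ δ e ≤ 2 * q3 G μ e * qx G μ e +
    10 ^ 4 * (qm G μ e + qA δ) + 10 ^ 4 * eta G μ δ e ^ 2
  m : qm G μ' e * qb G μ δ e ≤ 10 ^ 5 * eta G μ δ e ^ 2
  r : qr G μ' e * qb G μ δ e ≤ 10 ^ 5 * (qx G μ e + qy G μ e + qm G μ e + qA δ) +
    10 ^ 5 * eta G μ δ e ^ 2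
  p3u : q3 G μ' e * qb G μ δ e ≤ q3 G μ e + 10 ^ 3 * eta G μ δ e
  p3l : q3 G μ e ≤ q3 G μ' e * qb G μ δ e + 10 ^ 3 * eta G μ δ e

/-- `n` engine stages starting from the law `μ` -/
noncomputable def iter (G : SimpleGraph V) (δ : ℝ) (μ : Measure (St V)) : ℕ → Measure (St V)
  | 0 => μ
  | n + 1 => nextLaw (stp (G := G) δ) (iter G δ μ n)

/-- the starting hypothesis: no flips, between 3 and 7 ports -/
def Start (μ : Measure (St V)) : Prop :=
  ∀ᵐ σ ∂μ, ∀ v, (σ v).spec = ∅ ∧ 3 ≤ (σ v).ports.card ∧ (σ v).ports.card ≤ 7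

/-- decision probability -/
noncomputable def kap (δ : ℝ) : ℝ≥0∞ := ENNReal.ofReal (δ ^ 2 / 2 ^ 2100)

/-- all comps are singletons, as in the initial state -/
def Sing (σ : St V) : Prop := ∀ v, (σ v).comp = {v} ∧ (σ v).spec = ∅ ∧ (σ v).M = fun p => p.2

/-- some odd degree has positive probability -/
def OddPos (μ : Measure (St V)) (v : V) : Prop := ∃ m, Odd m ∧ μ {σ | (σ v).ports.card = m} ≠ 0

end Pool.Agent.PM
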