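import Pool.Agent.Lib.MP_947a32_pr.Defs

/-!
# Measurability (helper68)
-/

set_option autoImplicit false
set_option linter.unusedSectionVars false

open Classical MeasureTheory

namespace Pool.Agent.PM

variable {V : Type} {G : SimpleGraph V} {X : Type} [MeasurableSpace X]

/-- discrete measurability -/
def DM {X : Type} [MeasurableSpace X] {α : Type*} (f : X → α) : Prop :=
  ∀ a, MeasurableSet {x | f x = a}

namespace DM

variable {α β γ : Type*}

theorem pred [Countable α] {f : X → α} (hf : DM f) (P : α → Prop) :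
    MeasurableSet {x | P (f x)} := by
  have : {x | P (f x)} = ⋃ a, ⋃ (_ : P a), {x | f x = a} := by
    ext x
    simp only [Set.mem_ofPred_eq, Set.mem_iUnion]
    constructor
    · intro h; exact ⟨f x, h, rfl⟩
    · rintro ⟨a, ha, rfl⟩; exact ha
  rw [this]
  exact MeasurableSet.iUnion fun a => MeasurableSet.iUnion fun _ => hf a

/-- a function which factors through a discrete countable one -/
theorem factor [Countable α] {T : X → α} (hT : DM T) {f : X → β}
    (h : ∀ x y, T x = T y → f x = f y) : DM f := by
  intro b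
  have : {x | f x = b} = {x | T x ∈ T '' {x | f x = b}} := by
    ext x
    constructor
    · intro hx; exact ⟨x, hx, rfl⟩
    · rintro ⟨y, hy, hxy⟩
      exact (h x y hxy.symm).trans hy
  rw [this]
  exact hT.pred (fun a => a ∈ T '' {x | f x = b})

theorem map [Countable α] {f : X → α} (hf : DM f) (h : α → β) : DM (fun x => h (f x)) :=
  hf.factor fun x y e => by rw [e]

theorem const (b : β) : DM (fun _ : X => b) := by
  intro c
  exact MeasurableSet.const _

theorem bind [Countable α] {f : X → α} {g : α → X → β} (hf : DM f) (hg : ∀ a, DM (g a)) :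
    DM (fun x => g (f x) x) := by
  intro b
  have : {x | g (f x) x = b} = ⋃ a, ({x | f x = a} ∩ {x | g a x = b}) := by
    ext x
    simp only [Set.mem_ofPred_eq, Set.mem_iUnion, Set.mem_inter_iff]
    constructor
    · intro h; exact ⟨f x, rfl, h⟩
    · rintro ⟨a, ha, h⟩; rw [ha]; exact h
  rw [this]
  exact MeasurableSet.iUnion fun a => (hf a).inter (hg a b)

theorem pair {f : X → α} {g : X → β} (hf : DM f) (hg : DM g) : DM (fun x => (f x, g x)) := by
  rintro ⟨a, b⟩
  have : {x | (f x, g x) = (a, b)} = {x | f x = a} ∩ {x | g x = b} := by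
    ext x
    simp only [Set.mem_ofPred_eq, Prod.mk.injEq, Set.mem_inter_iff]
  rw [this]
  exact (hf a).inter (hg b)

theorem ite {P : X → Prop} [∀ x, Decidable (P x)] (hP : MeasurableSet {x | P x}) {f g : X → α}
    (hf : DM f) (hg : DM g) :
    DM (fun x => if P x then f x else g x) := by
  intro a
  have : {x | (if P x then f x else g x) = a} =
      ({x | P x} ∩ {x | f x = a}) ∪ ({x | P x}ᶜ ∩ {x | g x = a}) := by
    ext x
    by_cases h : P x <;> simp [h]
  rw [this]
  exact (hP.inter (hf a)).union (hP.compl.inter (hg a))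

theorem prop {P : X → Prop} (hP : MeasurableSet {x | P x}) : DM P := by
  intro a
  by_cases ha : a
  · have : {x | P x = a} = {x | P x} := by ext x; simp [ha]
    rw [this]; exact hP
  · have : {x | P x = a} = {x | P x}ᶜ := by ext x; simp [ha]
    rw [this]; exact hP.compl

theorem finset [Countable γ] {f : X → Finset γ} (h : ∀ q, MeasurableSet {x | q ∈ f x}) : DM f := by
  intro a
  have : {x | f x = a} = ⋂ q, {x | q ∈ f x ↔ q ∈ a} := by
    ext x
    simp only [Set.mem_ofPred_eq, Set.mem_iInter]
    exact Finset.ext_iff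
  rw [this]
  exact MeasurableSet.iInter fun q => (prop (h q)).pred (fun P => (P ↔ q ∈ a))

theorem filter [Countable γ] {S : X → Finset γ} (hS : DM S) {P : X → γ → Prop}
    [∀ x, DecidablePred (P x)]
    (hP : ∀ q, MeasurableSet {x | P x q}) : DM (fun x => (S x).filter (P x)) := by
  refine finset fun q => ?_
  have : {x | q ∈ (S x).filter (P x)} = {x | q ∈ S x} ∩ {x | P x q} := by
    ext x
    simp only [Set.mem_ofPred_eq, Finset.mem_filter, Set.mem_inter_iff]
  rw [this]
  exact (hS.pred (fun a => q ∈ a)).inter (hP q)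

theorem comp_meas {Y : Type} [MeasurableSpace Y] {f : Y → α} (hf : DM f) {g : X → Y}
    (hg : Measurable g) : DM (fun x => f (g x)) := fun a => hg (hf a)

end DM

/-! ### measurable states -/

/-- discrete measurability of a random local state -/
structure DL (L : X → Loc V) : Prop where
  comp : DM (fun x => (L x).comp)
  ports : DM (fun x => (L x).ports)
  spec : DM (fun x => (L x).spec)
  M : ∀ p, DM (fun x => (L x).M p)

/-- discrete measurability of a random state -/
def DS (s : X → St V) : Prop := ∀ v, DL (fun x => s x v)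

theorem DL.glue {α : Type*} [Countable α] {f : X → α} (hf : DM f) {L : X → Loc V}
    {K : α → X → Loc V} (hK : ∀ a, DL (K a)) (h : ∀ x, L x = K (f x) x) : DL L := by
  have e : L = fun x => K (f x) x := funext h
  subst e
  refine ⟨?_, ?_, ?_, fun p => ?_⟩
  · exact DM.bind (g := fun a x => (K a x).comp) hf fun a => (hK a).comp
  · exact DM.bind (g := fun a x => (K a x).ports) hf fun a => (hK a).ports
  · exact DM.bind (g := fun a x => (K a x).spec) hf fun a => (hK a).spec
  · exact DM.bind (g := fun a x => (K a x).M p) hf fun a => (hK a).M p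

theorem measurable_Loc [Countable V] {L : X → Loc V} (h : DL L) : Measurable L := by
  have htop : ∀ {α : Type} [Countable α] {f : X → α}, DM f → Measurable[_, ⊤] f := by
    intro α _ f hf s _
    exact hf.pred (fun a => a ∈ s)
  rw [measurable_iff_comap_le]
  show MeasurableSpace.comap L ((MeasurableSpace.comap (fun L : Loc V => L.comp) ⊤ ⊔
    MeasurableSpace.comap (fun L : Loc V => L.ports) ⊤ ⊔
    MeasurableSpace.comap (fun L : Loc V => L.spec) ⊤) ⊔
    ⨆ p : V × V, MeasurableSpace.comap (fun L : Loc V => L.M p) ⊤) ≤ _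
  rw [MeasurableSpace.comap_sup, MeasurableSpace.comap_sup, MeasurableSpace.comap_sup,
    MeasurableSpace.comap_iSup]
  refine sup_le (sup_le (sup_le ?_ ?_) ?_) (iSup_le fun p => ?_)
  · rw [MeasurableSpace.comap_comp]
    exact measurable_iff_comap_le.mp (htop h.comp)
  · rw [MeasurableSpace.comap_comp]
    exact measurable_iff_comap_le.mp (htop h.ports)
  · rw [MeasurableSpace.comap_comp]
    exact measurable_iff_comap_le.mp (htop h.spec)
  · rw [MeasurableSpace.comap_comp]
    exact measurable_iff_comap_le.mp (htop (h.M p))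

theorem DL_id : DL (fun L : Loc V => L) := by
  have hle1 : MeasurableSpace.comap (fun L : Loc V => L.comp) ⊤ ≤
      (inferInstance : MeasurableSpace (Loc V)) :=
    le_sup_of_le_left (le_sup_of_le_left (le_sup_left))
  have hle2 : MeasurableSpace.comap (fun L : Loc V => L.ports) ⊤ ≤
      (inferInstance : MeasurableSpace (Loc V)) :=
    le_sup_of_le_left (le_sup_of_le_left (le_sup_right))
  have hle3 : MeasurableSpace.comap (fun L : Loc V => L.spec) ⊤ ≤
      (inferInstance : MeasurableSpace (Loc V)) :=
    le_sup_of_le_left le_sup_right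
  have hle4 : ∀ p, MeasurableSpace.comap (fun L : Loc V => L.M p) ⊤ ≤
      (inferInstance : MeasurableSpace (Loc V)) := fun p =>
    le_sup_of_le_right (le_iSup (fun p : V × V =>
      MeasurableSpace.comap (fun L : Loc V => L.M p) ⊤) p)
  refine ⟨fun a => ?_, fun a => ?_, fun a => ?_, fun p a => ?_⟩
  · exact hle1 _ ⟨{a}, trivial, rfl⟩
  · exact hle2 _ ⟨{a}, trivial, rfl⟩
  · exact hle3 _ ⟨{a}, trivial, rfl⟩
  · exact hle4 p _ ⟨{a}, trivial, rfl⟩

theorem DL.comp_meas {Y : Type} [MeasurableSpace Y] {L : Y → Loc V} (h : DL L) {g : X → Y}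
    (hg : Measurable g) : DL (fun x => L (g x)) :=
  ⟨h.comp.comp_meas hg, h.ports.comp_meas hg, h.spec.comp_meas hg,
    fun p => (h.M p).comp_meas hg⟩

theorem DS_of_measurable {s : X → St V} (hs : Measurable s) : DS s := fun v =>
  DL_id.comp_meas ((measurable_pi_apply v).comp hs)

theorem measurable_of_DS [Countable V] {s : X → St V} (hs : DS s) : Measurable s :=
  measurable_pi_lambda _ fun v => measurable_Loc (hs v)

theorem meas_ports [Countable V] {s : X → St V} (hs : Measurable s) (v : V)
    (P : Finset (V × V) → Prop) : MeasurableSet {x | P (s x v).ports} :=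
  (DS_of_measurable hs v).ports.pred P

theorem meas_spec [Countable V] {s : X → St V} (hs : Measurable s) (v : V)
    (P : Finset (V × V) → Prop) : MeasurableSet {x | P (s x v).spec} :=
  (DS_of_measurable hs v).spec.pred P

theorem meas_comp [Countable V] {s : X → St V} (hs : Measurable s) (v : V)
    (P : Finset V → Prop) : MeasurableSet {x | P (s x v).comp} :=
  (DS_of_measurable hs v).comp.pred P

theorem meas_M [Countable V] {s : X → St V} (hs : Measurable s) (v : V) (p : V × V)
    (P : V → Prop) : MeasurableSet {x | P ((s x v).M p)} :=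
  ((DS_of_measurable hs v).M p).pred P

/-- a map into states is measurable iff all its discrete observables are -/
theorem measurable_St [Countable V] {s : X → St V}
    (h1 : ∀ v c, MeasurableSet {x | (s x v).comp = c})
    (h2 : ∀ v c, MeasurableSet {x | (s x v).ports = c})
    (h3 : ∀ v c, MeasurableSet {x | (s x v).spec = c})
    (h4 : ∀ v p w, MeasurableSet {x | (s x v).M p = w}) : Measurable s :=
  measurable_of_DS fun v => ⟨h1 v, h2 v, h3 v, h4 v⟩

/-! ### the deterministic operations -/

section Ops

variable [Countable V]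

omit [Countable V] in
theorem DL.ite {P : X → Prop} [∀ x, Decidable (P x)] (hP : MeasurableSet {x | P x})
    {f g : X → Loc V} (hf : DL f) (hg : DL g) : DL (fun x => if P x then f x else g x) := by
  have e : ∀ {β : Type} (F : Loc V → β), (fun x => F (if P x then f x else g x)) =
      fun x => if P x then F (f x) else F (g x) := by
    intro β F
    funext x
    split_ifs <;> rfl
  refine ⟨?_, ?_, ?_, fun p => ?_⟩
  · rw [e (fun L => L.comp)]; exact DM.ite hP hf.comp hg.comp
  · rw [e (fun L => L.ports)]; exact DM.ite hP hf.ports hg.ports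
  · rw [e (fun L => L.spec)]; exact DM.ite hP hf.spec hg.spec
  · rw [e (fun L => L.M p)]; exact DM.ite hP (hf.M p) (hg.M p)

theorem DS_op {s : X → St V} (hs : DS s) (d : V × V) : DS (fun x => op (s x) d) := by
  intro v
  have hc1 : MeasurableSet {x | v ∈ (s x d.1).comp} := (hs d.1).comp.pred (fun c => v ∈ c)
  have hc2 : MeasurableSet {x | v ∈ (s x d.2).comp} := (hs d.2).comp.pred (fun c => v ∈ c)
  have hp1 : ∀ q, MeasurableSet {x | q ∈ (s x d.1).ports} := fun q =>
    (hs d.1).ports.pred (fun c => q ∈ c)
  have hp2 : ∀ q, MeasurableSet {x | q ∈ (s x d.2).ports} := fun q =>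
    (hs d.2).ports.pred (fun c => q ∈ c)
  have hC : DM (fun x => (s x d.1).comp ∪ (s x d.2).comp) :=
    ((hs d.1).comp.pair (hs d.2).comp).map (fun a => a.1 ∪ a.2)
  have hP : DM (fun x => (s x d.1).ports.erase d ∪ (s x d.2).ports.erase d.swap) :=
    ((hs d.1).ports.pair (hs d.2).ports).map (fun a => a.1.erase d ∪ a.2.erase d.swap)
  have hO1 : DM (fun x => (s x v).M (other (s x d.2).ports d.swap)) :=
    DM.bind (g := fun P x => (s x v).M (other P d.swap)) (hs d.2).ports fun P => (hs v).M _
  have hO2 : DM (fun x => (s x v).M (other (s x d.1).ports d)) :=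
    DM.bind (g := fun P x => (s x v).M (other P d)) (hs d.1).ports fun P => (hs v).M _
  have hcond : MeasurableSet {x | d ∈ (s x d.1).ports ∧ d.swap ∈ (s x d.2).ports ∧
      (v ∈ (s x d.1).comp ∨ v ∈ (s x d.2).comp)} := (hp1 d).inter ((hp2 d.swap).inter (hc1.union hc2))
  have hflip : MeasurableSet {x | d ∈ (s x d.1).spec ↔ d.swap ∈ (s x d.2).spec} :=
    ((hs d.1).spec.pair (hs d.2).spec).pred (fun a => (d ∈ a.1 ↔ d.swap ∈ a.2))
  have hcard : MeasurableSet {x | 3 ≤ (s x d.1).ports.card ∧ 3 ≤ (s x d.2).ports.card} :=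
    ((hs d.1).ports.pair (hs d.2).ports).pred (fun a => 3 ≤ a.1.card ∧ 3 ≤ a.2.card)
  have hcard2 : MeasurableSet {x | (s x d.2).ports.card = 2} :=
    (hs d.2).ports.pred (fun a => a.card = 2)
  refine DL.ite hcond (DL.ite hflip (DL.ite hcard ?_ (DL.ite hcard2 ?_ ?_)) ?_) (hs v)
  · refine ⟨(hs v).comp, ?_, ?_, (hs v).M⟩
    · exact (hs v).ports.map (fun a => (a.erase d).erase d.swap)
    · exact (hs v).spec.map (fun a => (a.erase d).erase d.swap)
  · refine ⟨hC, hP, ?_, fun p => ?_⟩
    · exact ((hs d.1).spec.pair ((hs d.2).ports.pair (hs d.2).spec)).map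
        (fun a => a.1.erase d ∪ (a.2.1.erase d.swap \ a.2.2))
    · exact DM.ite hc1 (DM.ite (hp2 p) ((hs v).M d) ((hs v).M p))
        (DM.ite (hp1 p) hO1 ((hs v).M d.swap))
  · refine ⟨hC, hP, ?_, fun p => ?_⟩
    · exact ((hs d.2).spec.pair ((hs d.1).ports.pair (hs d.1).spec)).map
        (fun a => (a.2.1.erase d \ a.2.2) ∪ a.1.erase d.swap)
    · exact DM.ite hc2 (DM.ite (hp1 p) ((hs v).M d.swap) ((hs v).M p))
        (DM.ite (hp2 p) hO2 ((hs v).M d))
  · refine ⟨hC, hP, ?_, fun p => ?_⟩
    · exact ((hs d.1).spec.pair (hs d.2).spec).map (fun a => a.1.erase d ∪ a.2.erase d.swap)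
    · exact DM.ite hc1 (DM.ite (hp2 p) ((hs v).M d) ((hs v).M p))
        (DM.ite (hp1 p) ((hs v).M d.swap) ((hs v).M p))

theorem meas_opd {O : X → Set (V × V)} (hO : ∀ d, MeasurableSet {x | d ∈ O x}) (d : V × V) :
    MeasurableSet {x | opd (O x) d} := (hO d).union (hO d.swap)

theorem DM_unop {L : X → Loc V} (hL : DL L) {O : X → Set (V × V)}
    (hO : ∀ d, MeasurableSet {x | d ∈ O x}) : DM (fun x => unop (O x) (L x)) := by
  unfold unop
  exact hL.ports.filter (P := fun x q => ¬ opd (O x) q) fun q => (meas_opd hO q).compl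

theorem meas_hot {s : X → St V} (hs : DS s) {O : X → Set (V × V)}
    (hO : ∀ d, MeasurableSet {x | d ∈ O x}) (d : V × V) :
    MeasurableSet {x | hot (O x) (s x) d} := by
  have e : {x | hot (O x) (s x) d} = {x | d ∈ (s x d.1).ports} ∩ ({x | d.swap ∈ (s x d.2).ports} ∩
      ({x | opd (O x) d} ∩ ({x | d ∈ (s x d.1).spec} ∪ ({x | d.swap ∈ (s x d.2).spec} ∪
      ({x | (unop (O x) (s x d.1)).card ≤ 1} ∪ {x | (unop (O x) (s x d.2)).card ≤ 1}))))) := rfl
  rw [e]
  exact ((hs d.1).ports.pred (fun P => d ∈ P)).inter
    (((hs d.2).ports.pred (fun P => d.swap ∈ P)).inter ((meas_opd hO d).inter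
      (((hs d.1).spec.pred (fun P => d ∈ P)).union (((hs d.2).spec.pred
        (fun P => d.swap ∈ P)).union (((DM_unop (hs d.1) hO).pred (fun P => P.card ≤ 1)).union
          ((DM_unop (hs d.2) hO).pred (fun P => P.card ≤ 1)))))))

theorem DS_chill {s : X → St V} (hs : DS s) {O : X → Set (V × V)}
    (hO : ∀ d, MeasurableSet {x | d ∈ O x}) : DS (fun x => chill (O x) (s x)) := by
  have hm : ∀ q, MeasurableSet {x | opd (O x) q → hot (O x) (s x) q} := by
    intro q
    have : {x | opd (O x) q → hot (O x) (s x) q} =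
        {x | opd (O x) q}ᶜ ∪ {x | hot (O x) (s x) q} := by
      ext x
      simp only [Set.mem_ofPred_eq, Set.mem_union, Set.mem_compl_iff]
      exact imp_iff_not_or
    rw [this]
    exact (meas_opd hO q).compl.union (meas_hot hs hO q)
  intro v
  refine ⟨(hs v).comp, ?_, ?_, (hs v).M⟩
  · exact (hs v).ports.filter (P := fun x q => opd (O x) q → hot (O x) (s x) q) hm
  · exact (hs v).spec.filter (P := fun x q => opd (O x) q → hot (O x) (s x) q) hm

theorem meas_Rl {s : X → St V} (hs : DS s) {O : X → Set (V × V)}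
    (hO : ∀ d, MeasurableSet {x | d ∈ O x}) (u w : V) :
    MeasurableSet {x | Rl (O x) (s x) u w} :=
  ((hs u).comp.pred (fun c => w ∈ c)).union (meas_hot hs hO (u, w))

/-- reachability by a measurable random relation -/
theorem meas_reach {R : X → V → V → Prop} (hR : ∀ u w, MeasurableSet {x | R x u w}) (v w : V) :
    MeasurableSet {x | Relation.ReflTransGen (R x) v w} := by
  let A : ℕ → V → Set X := fun n => Nat.rec (motive := fun _ => V → Set X)
    (fun w => {_x | v = w}) (fun _ An w => ⋃ u, (An u ∩ {x | R x u w})) n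
  have hA : ∀ n w, MeasurableSet (A n w) := by
    intro n
    induction n with
    | zero => intro w; exact MeasurableSet.const _
    | succ n ih => intro w; exact MeasurableSet.iUnion fun u => (ih u).inter (hR u w)
  have : {x | Relation.ReflTransGen (R x) v w} = ⋃ n, A n w := by
    ext x
    simp only [Set.mem_iUnion, Set.mem_ofPred_eq]
    constructor
    · intro h
      induction h with
      | refl => exact ⟨0, rfl⟩
      | tail _ hbc ih =>
        obtain ⟨n, hn⟩ := ih
        refine ⟨n + 1, ?_⟩
        show x ∈ ⋃ u, (A n u ∩ {x | R x u _})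
        exact Set.mem_iUnion.mpr ⟨_, hn, hbc⟩
    · rintro ⟨n, hn⟩
      induction n generalizing w with
      | zero =>
        have : v = w := hn
        subst this
        exact Relation.ReflTransGen.refl
      | succ n ih =>
        obtain ⟨u, hu1, hu2⟩ := Set.mem_iUnion.mp hn
        exact (ih u hu1).tail hu2
  rw [this]
  exact MeasurableSet.iUnion fun n => hA n w

theorem meas_region {s : X → St V} (hs : DS s) {O : X → Set (V × V)}
    (hO : ∀ d, MeasurableSet {x | d ∈ O x}) (v w : V) :
    MeasurableSet {x | w ∈ region (O x) (s x) v} :=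
  meas_reach (fun u w => meas_Rl hs hO u w) v w

theorem meas_hotSet {s : X → St V} (hs : DS s) {O : X → Set (V × V)}
    (hO : ∀ d, MeasurableSet {x | d ∈ O x}) {t : X → V × V → ℝ}
    (ht : ∀ d, Measurable (fun x => t x d)) (v : V) (d : V × V) :
    MeasurableSet {x | d ∈ hotSet (O x) (t x) (s x) v} :=
  (meas_region hs hO v d.1).inter ((meas_hot hs hO d).inter
    (measurableSet_lt (ht d) (ht d.swap)))

theorem meas_min {t : X → V × V → ℝ} (ht : ∀ d, Measurable (fun x => t x d))
    (S : Finset (V × V)) (d : V × V) :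
    MeasurableSet {x | d ∈ S ∧ ∀ d' ∈ S, d' ≠ d → t x d < t x d'} := by
  have : {x | d ∈ S ∧ ∀ d' ∈ S, d' ≠ d → t x d < t x d'} =
      {_x | d ∈ S} ∩ ⋂ d', ⋂ (_ : d' ∈ S), ⋂ (_ : d' ≠ d), {x | t x d < t x d'} := by
    ext x
    simp only [Set.mem_ofPred_eq, Set.mem_inter_iff, Set.mem_iInter]
  rw [this]
  exact (MeasurableSet.const _).inter (MeasurableSet.iInter fun d' => MeasurableSet.iInter fun _ =>
    MeasurableSet.iInter fun _ => measurableSet_lt (ht d) (ht d'))

/-- the strict minimum, if there is one -/
noncomputable def smin (t : V × V → ℝ) (S : Finset (V × V)) : Option (V × V) :=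
  if h : ∃ d ∈ S, ∀ d' ∈ S, d' ≠ d → t d < t d' then some h.choose else none

theorem smin_some {t : V × V → ℝ} {S : Finset (V × V)} {d : V × V} :
    smin t S = some d ↔ (d ∈ S ∧ ∀ d' ∈ S, d' ≠ d → t d < t d') := by
  unfold smin
  constructor
  · intro h
    split_ifs at h with h1
    have := h1.choose_spec
    rwa [Option.some.inj h] at this
  · intro h
    have h1 : ∃ d ∈ S, ∀ d' ∈ S, d' ≠ d → t d < t d' := ⟨d, h⟩
    rw [dif_pos h1]
    congr 1
    by_contra hne
    exact lt_asymm (h1.choose_spec.2 d h.1 (Ne.symm hne)) (h.2 _ h1.choose_spec.1 hne)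

theorem DM_smin {t : X → V × V → ℝ} (ht : ∀ d, Measurable (fun x => t x d))
    (S : Finset (V × V)) : DM (fun x => smin (t x) S) := by
  have hsome : ∀ d, MeasurableSet {x | smin (t x) S = some d} := by
    intro d
    have : {x | smin (t x) S = some d} =
      {x | d ∈ S ∧ ∀ d' ∈ S, d' ≠ d → t x d < t x d'} := by
      ext x; exact smin_some
    rw [this]
    exact meas_min ht S d
  intro a
  cases a with
  | some d => exact hsome d
  | none =>
    have : {x | smin (t x) S = none} = (⋃ d, {x | smin (t x) S = some d})ᶜ := by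
      ext x
      simp only [Set.mem_ofPred_eq, Set.mem_compl_iff, Set.mem_iUnion, not_exists]
      exact Option.eq_none_iff_forall_ne_some
    rw [this]
    exact (MeasurableSet.iUnion hsome).compl

theorem run_succ (t : V × V → ℝ) (n : ℕ) (S : Finset (V × V)) (σ : St V) :
    run t (n + 1) S σ = match smin t S with
      | some d => run t n (S.erase d) (op σ d)
      | none => σ := by
  rw [run]
  unfold smin
  by_cases h : ∃ d ∈ S, ∀ d' ∈ S, d' ≠ d → t d < t d'
  · rw [dif_pos h, dif_pos h]
  · rw [dif_neg h, dif_neg h]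

theorem DS_run {t : X → V × V → ℝ} (ht : ∀ d, Measurable (fun x => t x d)) (n : ℕ) :
    ∀ (S : Finset (V × V)) {s : X → St V}, DS s → DS (fun x => run (t x) n S (s x)) := by
  induction n with
  | zero => intro S s hs; exact hs
  | succ n ih =>
    intro S s hs v
    refine DL.glue (DM_smin ht S) (K := fun a x => (match a with
      | some d => run (t x) n (S.erase d) (op (s x) d)
      | none => s x) v) ?_ ?_
    · intro a
      cases a with
      | none => exact hs v
      | some d => exact ih (S.erase d) (DS_op hs d) v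
    · intro x
      exact congrFun (run_succ (t x) n S (s x)) v

theorem DL_post {L : X → Loc V} (hL : DL L) {O : X → Set (V × V)}
    (hO : ∀ d, MeasurableSet {x | d ∈ O x}) : DL (fun x => post (O x) (L x)) := by
  refine ⟨hL.comp, ?_, ?_, hL.M⟩
  · exact hL.ports.filter (P := fun x q => ¬ opd (O x) q) fun q => (meas_opd hO q).compl
  · exact hL.spec.filter (P := fun x q => ¬ opd (O x) q) fun q => (meas_opd hO q).compl

/-- the value of a random set if it is finite -/
theorem DM_toFinset {A : X → Set (V × V)} (hA : ∀ d, MeasurableSet {x | d ∈ A x}) :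
    DM (fun x => if h : (A x).Finite then some h.toFinset else none) := by
  have hsome : ∀ S : Finset (V × V), MeasurableSet
      {x | (if h : (A x).Finite then some h.toFinset else none) = some S} := by
    intro S
    have : {x | (if h : (A x).Finite then some h.toFinset else none) = some S} =
        ⋂ d, {x | d ∈ A x ↔ d ∈ S} := by
      ext x
      simp only [Set.mem_ofPred_eq, Set.mem_iInter]
      constructor
      · intro h
        split_ifs at h with h1
        intro d
        rw [← Option.some.inj h, h1.mem_toFinset]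
      · intro h
        have h1 : A x = ↑S := by ext d; exact h d
        have h2 : (A x).Finite := by rw [h1]; exact S.finite_toSet
        rw [dif_pos h2]
        congr 1
        ext d
        rw [h2.mem_toFinset]; exact h d
    rw [this]
    exact MeasurableSet.iInter fun d => (DM.prop (hA d)).pred (fun P => (P ↔ d ∈ S))
  intro a
  cases a with
  | some S => exact hsome S
  | none =>
    have : {x | (if h : (A x).Finite then some h.toFinset else none) = none} =
        (⋃ S, {x | (if h : (A x).Finite then some h.toFinset else none) = some S})ᶜ := by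
      ext x
      simp only [Set.mem_ofPred_eq, Set.mem_compl_iff, Set.mem_iUnion, not_exists]
      exact Option.eq_none_iff_forall_ne_some
    rw [this]
    exact (MeasurableSet.iUnion hsome).compl

theorem DS_step {s : X → St V} (hs : DS s) {O : X → Set (V × V)}
    (hO : ∀ d, MeasurableSet {x | d ∈ O x}) {t : X → V × V → ℝ}
    (ht : ∀ d, Measurable (fun x => t x d)) : DS (fun x => step (O x) (t x) (s x)) := by
  intro v
  refine DL.glue (DM_toFinset (fun d => meas_hotSet hs hO ht v d)) (K := fun a x => match a with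
    | some S => post (O x) (run (t x) S.card S (chill (O x) (s x)) v)
    | none => post (O x) (chill (O x) (s x) v)) ?_ ?_
  · intro a
    cases a with
    | none => exact DL_post (DS_chill hs hO v) hO
    | some S => exact DL_post (DS_run ht S.card S (DS_chill hs hO) v) hO
  · intro x
    show step (O x) (t x) (s x) v = _
    unfold step
    by_cases h : (hotSet (O x) (t x) (s x) v).Finite
    · rw [dif_pos h, dif_pos h]
    · rw [dif_neg h, dif_neg h]

end Ops

theorem meas_step [Countable V] {s : X → St V} (hs : Measurable s) {O : X → Set (V × V)}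
    (hO : ∀ d, MeasurableSet {x | d ∈ O x}) {t : X → V × V → ℝ}
    (ht : ∀ d, Measurable (fun x => t x d)) : Measurable (fun x => step (O x) (t x) (s x)) :=
  measurable_of_DS (DS_step (DS_of_measurable hs) hO ht)

/-! ### the rule -/

theorem DM_ordp [Countable V] {L : X → Loc V} (hL : DL L) : DM (fun x => ordp (L x)) :=
  (hL.ports.pair hL.spec).map (fun a => a.1 \ a.2)

theorem DM_rnk [Countable V] {L : X → Loc V} (hL : DL L) {r : X → V × V → ℝ}
    (hr : ∀ d, Measurable (fun x => r x d)) (d : V × V) : DM (fun x => rnk (r x) (L x) d) :=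
  DM.map (DM.filter (DM_ordp hL) (P := fun x q => r x q < r x d)
    fun q => measurableSet_lt (hr q) (hr d)) Finset.card

theorem meas_act [Countable V] {L : X → Loc V} (hL : DL L) (δ : ℝ) {a : X → V × V → ℝ}
    (ha : ∀ d, Measurable (fun x => a x d)) : MeasurableSet {x | act δ (a x) (L x)} := by
  have : {x | act δ (a x) (L x)} = {x | (L x).ports.card ≤ 1000} ∩
      ⋃ q, ({x | q ∈ (L x).ports} ∩ {x | a x q < δ}) := by
    ext x
    simp only [Set.mem_ofPred_eq, Set.mem_inter_iff, Set.mem_iUnion, act]
  rw [this]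
  exact (hL.ports.pred (fun P => P.card ≤ 1000)).inter (MeasurableSet.iUnion fun q =>
    (hL.ports.pred (fun P => q ∈ P)).inter (measurableSet_lt (ha q) measurable_const))

theorem meas_rule [Countable V] {s : X → St V} (hs : Measurable s) (δ : ℝ)
    {a r : X → V × V → ℝ} (ha : ∀ d, Measurable (fun x => a x d))
    (hr : ∀ d, Measurable (fun x => r x d)) (d : V × V) :
    MeasurableSet {x | d ∈ rule δ (a x) (r x) (s x)} := by
  have hs' := DS_of_measurable hs
  have : {x | d ∈ rule δ (a x) (r x) (s x)} = {x | d ∈ (s x d.1).ports} ∩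
      ({x | act δ (a x) (s x d.1)} ∪ ({x | (ordp (s x d.1)).card ≤ 2} ∪
      ({x | d ∈ (s x d.1).spec} ∪ {x | 7 ≤ rnk (r x) (s x d.1) d}))) := rfl
  rw [this]
  exact ((hs' d.1).ports.pred (fun P => d ∈ P)).inter ((meas_act (hs' d.1) δ ha).union
    (((DM_ordp (hs' d.1)).pred (fun P => P.card ≤ 2)).union
      (((hs' d.1).spec.pred (fun P => d ∈ P)).union
        ((DM_rnk (hs' d.1) hr d).pred (fun n => 7 ≤ n)))))

theorem meas_lab (i : Fin 3) (d : V × V) : Measurable (fun l : Lb G => lab l i d) := by
  unfold lab
  by_cases h : G.Adj d.1 d.2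
  · simp only [dif_pos h]
    exact measurable_pi_apply _
  · simp only [dif_neg h]
    exact measurable_const

theorem meas_lab' (i : Fin 3) (d : V × V) : Measurable (fun x : XX G => lab x.2 i d) :=
  (meas_lab i d).comp measurable_snd

theorem meas_OO [Countable V] (δ : ℝ) (d : V × V) : MeasurableSet {x : XX G | d ∈ OO δ x} :=
  meas_rule measurable_fst δ (fun d => meas_lab' 0 d) (fun d => meas_lab' 2 d) d

theorem meas_stp [Countable V] (δ : ℝ) : Measurable (stp (G := G) δ) :=
  meas_step measurable_fst (fun d => meas_OO δ d) (fun d => meas_lab' 1 d)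

/-! ### halving -/

section Halving

variable [Countable V]

theorem DM_rk {P : X → Finset (V × V)} (hP : DM P) {r : X → V × V → ℝ}
    (hr : ∀ d, Measurable (fun x => r x d)) (d : V × V) : DM (fun x => rk (r x) (P x) d) :=
  DM.map (DM.filter hP (P := fun x q => r x q < r x d)
    fun q => measurableSet_lt (hr q) (hr d)) Finset.card

theorem meas_Mate (b : Bool) {P : X → Finset (V × V)} (hP : DM P) {r : X → V × V → ℝ}
    (hr : ∀ d, Measurable (fun x => r x d)) (d g : V × V) :
    MeasurableSet {x | Mate b (r x) (P x) d g} := by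
  have hT := (hP.pair ((DM_rk hP hr d).pair (DM_rk hP hr g)))
  exact hT.pred (fun T => d ∈ T.1 ∧ g ∈ T.1 ∧ ∃ j : ℕ, 2 * j + 1 < T.1.card - (if b then 1 else 0) ∧
    ((T.2.1 = 2 * j ∧ T.2.2 = 2 * j + 1) ∨ (T.2.2 = 2 * j ∧ T.2.1 = 2 * j + 1)))

theorem meas_exUnique {P : X → V × V → Prop} (hP : ∀ g, MeasurableSet {x | P x g}) :
    MeasurableSet {x | ∃! g, P x g} := by
  have : {x | ∃! g, P x g} = ⋃ g, ({x | P x g} ∩ ⋂ g', ⋂ (_ : g' ≠ g), {x | P x g'}ᶜ) := by
    ext x
    simp only [Set.mem_ofPred_eq, Set.mem_iUnion, Set.mem_inter_iff, Set.mem_iInter,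
      Set.mem_compl_iff]
    constructor
    · rintro ⟨g, hg, hu⟩
      exact ⟨g, hg, fun g' hne h => hne (hu g' h)⟩
    · rintro ⟨g, hg, hu⟩
      exact ⟨g, hg, fun g' h => by_contra fun hne => hu g' hne h⟩
  rw [this]
  exact MeasurableSet.iUnion fun g => (hP g).inter (MeasurableSet.iInter fun g' =>
    MeasurableSet.iInter fun _ => (hP g').compl)

theorem DM_nx (b : Bool) {s : X → St V} (hs : DS s) {r : X → V × V → ℝ}
    (hr : ∀ d, Measurable (fun x => r x d)) (d : V × V) : DM (fun x => nx b (r x) (s x) d) := by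
  have hM : ∀ g, MeasurableSet {x | Mate b (r x) (s x d.2).ports d.swap g} := fun g =>
    meas_Mate b (hs d.2).ports hr d.swap g
  have hsome : ∀ g, MeasurableSet {x | nx b (r x) (s x) d = some g} := by
    intro g
    have : {x | nx b (r x) (s x) d = some g} =
        {x | ∃! g, Mate b (r x) (s x d.2).ports d.swap g} ∩
        {x | Mate b (r x) (s x d.2).ports d.swap g} := by
      ext x
      simp only [Set.mem_ofPred_eq, Set.mem_inter_iff]
      unfold nx
      constructor
      · intro h
        split_ifs at h with h1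
        have := h1.exists.choose_spec
        rw [Option.some.inj h] at this
        exact ⟨h1, this⟩
      · rintro ⟨h1, h2⟩
        rw [dif_pos h1]
        congr 1
        exact h1.unique h1.exists.choose_spec h2
    rw [this]
    exact (meas_exUnique hM).inter (hM g)
  intro a
  cases a with
  | some g => exact hsome g
  | none =>
    have : {x | nx b (r x) (s x) d = none} = (⋃ g, {x | nx b (r x) (s x) d = some g})ᶜ := by
      ext x
      simp only [Set.mem_ofPred_eq, Set.mem_compl_iff, Set.mem_iUnion, not_exists]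
      exact Option.eq_none_iff_forall_ne_some
    rw [this]
    exact (MeasurableSet.iUnion hsome).compl

theorem DM_wk (b : Bool) {s : X → St V} (hs : DS s) {r : X → V × V → ℝ}
    (hr : ∀ d, Measurable (fun x => r x d)) (n : ℕ) (d : V × V) :
    DM (fun x => wk b (r x) (s x) n d) := by
  induction n with
  | zero => exact DM.const _
  | succ n ih =>
    exact DM.bind (g := fun a x => a.bind (nx b (r x) (s x))) ih fun a => by
      cases a with
      | none => exact DM.const _
      | some e => exact DM_nx b hs hr e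

theorem meas_Stop_DS (b : Bool) {s : X → St V} (hs : DS s) {r : X → V × V → ℝ}
    (hr : ∀ d, Measurable (fun x => r x d)) (d : V × V) (n : ℕ) (u : V × V) :
    MeasurableSet {x | Stop b (r x) (s x) d n u} :=
  (DM_wk b hs hr n d (some u.swap)).inter (DM_nx b hs hr u.swap none)

theorem meas_col (b : Bool) {s : X → St V} (hs : DS s) {a t r : X → V × V → ℝ}
    (ha : ∀ d, Measurable (fun x => a x d)) (ht : ∀ d, Measurable (fun x => t x d))
    (hr : ∀ d, Measurable (fun x => r x d)) (e : V × V) :
    MeasurableSet {x | col b (a x) (t x) (r x) (s x) e} := by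
  have : {x | col b (a x) (t x) (r x) (s x) e} =
      ⋃ n, ⋃ m, ⋃ u, ⋃ w, ({x | Stop b (r x) (s x) e n u} ∩ ({x | Stop b (r x) (s x) e.swap m w} ∩
        (({x | t x u < t x w} ∩ {x | a x u < 1/2 ↔ Even n}) ∪
          ({x | t x w < t x u} ∩ {x | a x w < 1/2 ↔ Even m})))) := by
    ext x
    simp only [Set.mem_ofPred_eq, Set.mem_iUnion, Set.mem_inter_iff, Set.mem_union, col]
  rw [this]
  refine MeasurableSet.iUnion fun n => MeasurableSet.iUnion fun m => MeasurableSet.iUnion fun u =>
    MeasurableSet.iUnion fun w => ?_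
  exact (meas_Stop_DS b hs hr e n u).inter ((meas_Stop_DS b hs hr e.swap m w).inter
    (((measurableSet_lt (ht u) (ht w)).inter
      ((DM.prop (measurableSet_lt (ha u) measurable_const)).pred (fun P => (P ↔ Even n)))).union
    ((measurableSet_lt (ht w) (ht u)).inter
      ((DM.prop (measurableSet_lt (ha w) measurable_const)).pred (fun P => (P ↔ Even m))))))

theorem DS_halve (b : Bool) {s : X → St V} (hs : DS s) {a t r : X → V × V → ℝ}
    (ha : ∀ d, Measurable (fun x => a x d)) (ht : ∀ d, Measurable (fun x => t x d))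
    (hr : ∀ d, Measurable (fun x => r x d)) :
    DS (fun x => halve b (a x) (t x) (r x) (s x)) := by
  intro v
  refine ⟨(hs v).comp, ?_, ?_, (hs v).M⟩
  · exact (hs v).ports.filter (P := fun x d => col b (a x) (t x) (r x) (s x) d)
      fun d => meas_col b hs ha ht hr d
  · exact (hs v).spec.filter (P := fun x d => col b (a x) (t x) (r x) (s x) d)
      fun d => meas_col b hs ha ht hr d

end Halving

theorem meas_Stop [Countable V] {X : Type} [MeasurableSpace X] {s : X → St V}
    (hs : Measurable s) {r : X → V × V → ℝ} (hr : ∀ d, Measurable (fun x => r x d)) (b : Bool)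
    (d : V × V) (n : ℕ) (u : V × V) : MeasurableSet {x | Stop b (r x) (s x) d n u} :=
  meas_Stop_DS b (DS_of_measurable hs) hr d n u

theorem meas_hv [Countable V] (b : Bool) : Measurable (hv (G := G) b) :=
  measurable_of_DS (DS_halve b (DS_of_measurable measurable_fst) (fun d => meas_lab' 0 d)
    (fun d => meas_lab' 1 d) (fun d => meas_lab' 2 d))

theorem meas_map [Countable V] (φ : G ≃g G) : Measurable (St.map (V := V) φ.toEquiv) := by
  have hid : DS (fun σ : St V => σ) := DS_of_measurable measurable_id
  refine measurable_of_DS fun v => ⟨?_, ?_, ?_, fun p => ?_⟩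
  · exact (hid (φ.toEquiv.symm v)).comp.map (fun c => c.image φ.toEquiv)
  · exact (hid (φ.toEquiv.symm v)).ports.map (fun c => c.image (mp φ.toEquiv))
  · exact (hid (φ.toEquiv.symm v)).spec.map (fun c => c.image (mp φ.toEquiv))
  · exact ((hid (φ.toEquiv.symm v)).M (mp φ.toEquiv.symm p)).map (fun w => φ.toEquiv w)

theorem meas_stage [Countable V] (J : ℕ) (δ : ℝ) (n : ℕ) :
    Measurable (stage (G := G) J δ n) := by
  unfold stage
  by_cases h : n < J
  · simp only [h, if_true]
    exact meas_hv _
  · simp only [h, if_false]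
    exact meas_stp δ

theorem meas_stg (n : ℕ) : Measurable (fun ω : Om G => stg ω n) :=
  measurable_pi_lambda _ fun _ => measurable_pi_apply _

theorem meas_sig [Countable V] (J : ℕ) (δ : ℝ) (n : ℕ) :
    Measurable (fun ω : Om G => sig J δ ω n) := by
  induction n with
  | zero => exact measurable_const
  | succ n ih => exact (meas_stage J δ n).comp (ih.prodMk (meas_stg n))

theorem meas_Dec [Countable V] {s : X → St V} (hs : Measurable s) (v w : V) :
    MeasurableSet {x | Dec (s x) v w} := by
  have : {x | Dec (s x) v w} = ⋂ p, ({x | p ∈ (s x v).ports}ᶜ ∪ {x | (s x v).M p = w}) := by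
    ext x
    simp only [Set.mem_ofPred_eq, Set.mem_iInter, Set.mem_union, Set.mem_compl_iff, Dec]
    exact forall_congr' fun p => imp_iff_not_or
  rw [this]
  exact MeasurableSet.iInter fun p => (meas_ports hs v (fun P => p ∈ P)).compl.union
    (meas_M hs v p (fun u => u = w))

theorem meas_und [Countable V] {s : X → St V} (hs : Measurable s) (v : V) :
    MeasurableSet {x | und (s x) v} := by
  have : {x | und (s x) v} = (⋃ w, {x | Dec (s x) v w})ᶜ := by
    ext x
    simp only [Set.mem_ofPred_eq, Set.mem_iUnion, Set.mem_compl_iff, und]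
  rw [this]
  exact (MeasurableSet.iUnion fun w => meas_Dec hs v w).compl

theorem meas_alive [Countable V] {s : X → St V} (hs : Measurable s) (e : V × V) :
    MeasurableSet {x | alive (s x) e} :=
  meas_ports hs e.1 (fun P => e ∈ P)

end Pool.Agent.PM
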