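import Pool.Agent.Lib.MP_947a32_pr.Fac
import Pool.Agent.Lib.MP_947a32_pr.Meas
import Pool.Agent.Lib.MP_947a32_pr.Meas68

/-! MP_947a32_pr, piece LAWB: consequences of `Law` (helper79). -/

set_option autoImplicit false

open Classical MeasureTheory
open scoped ENNReal

namespace Pool.Agent.PM

variable {V : Type} {G : SimpleGraph V}


variable {μ : Measure (St V)}

/-! ### small measurability facts (no countability needed) -/

theorem lawb_meas_portsSet (v : V) (P : Finset (V × V) → Prop) :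
    MeasurableSet {σ : St V | P (σ v).ports} := by
  have h1 : Measurable (fun σ : St V => σ v) := measurable_pi_apply v
  refine h1 (t := {L : Loc V | P L.ports}) ?_
  refine (le_trans (le_trans le_sup_right le_sup_left) le_sup_left :
    MeasurableSpace.comap (fun L : Loc V => L.ports) ⊤ ≤ _) _ ?_
  exact ⟨{S | P S}, trivial, rfl⟩

theorem lawb_meas_alive (e : V × V) : MeasurableSet {σ : St V | alive σ e} :=
  lawb_meas_portsSet e.1 (fun S => e ∈ S)

theorem lawb_meas_ports (v : V) (P : Finset (V × V) → Prop) :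
    MeasurableSet {x : XX G | P (x.1 v).ports} :=
  measurable_fst (lawb_meas_portsSet v P)

theorem lawb_meas_ind {X : Type*} [MeasurableSpace X] {P : X → Prop} (h : MeasurableSet {x | P x}) :
    Measurable (fun x => ind (P x)) := by
  unfold ind
  exact Measurable.ite h measurable_const measurable_const

theorem lawb_meas_ind_alive (e : V × V) : Measurable (fun x : XX G => ind (alive x.1 e)) :=
  lawb_meas_ind (lawb_meas_ports (G := G) e.1 (fun S => e ∈ S))

theorem lawb_ind_true {P : Prop} (h : P) : ind P = 1 := by simp [ind, h]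
theorem lawb_ind_false {P : Prop} (h : ¬ P) : ind P = 0 := by simp [ind, h]

theorem lawb_ind_and (P Q : Prop) : ind (P ∧ Q) = ind P * ind Q := by
  unfold ind
  by_cases hP : P <;> by_cases hQ : Q <;> simp [hP, hQ]

/-! ### the expectations -/

/-- the same with an indicator/weight depending on the state at `v` only -/
theorem EE_mono {e : V × V} {Y Z : XX G → ℝ≥0∞}
    (h : ∀ᵐ x ∂(μ.prod (lam G)), alive x.1 e → Y x ≤ Z x) : EE μ e Y ≤ EE μ e Z := by
  unfold EE
  gcongr ?_ / _
  refine lintegral_mono_ae (h.mono fun x hx => ?_)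
  by_cases ha : alive x.1 e
  · rw [lawb_ind_true ha, one_mul, one_mul]; exact hx ha
  · rw [lawb_ind_false ha, zero_mul, zero_mul]

theorem lawb_measure_alive [SFinite μ] (e : V × V) :
    ∫⁻ x : XX G, ind (alive x.1 e) ∂(μ.prod (lam G)) = μ {σ | alive σ e} := by
  have h1 : ∀ x : XX G, ind (alive x.1 e) = Set.indicator {x : XX G | alive x.1 e} 1 x := by
    intro x
    by_cases ha : alive x.1 e
    · rw [lawb_ind_true ha, Set.indicator_of_mem (by exact ha)]; rfl
    · rw [lawb_ind_false ha, Set.indicator_of_notMem (by exact ha)]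
  simp_rw [h1]
  rw [lintegral_indicator_one (show MeasurableSet {x : XX G | alive x.1 e} from
    lawb_meas_ports (G := G) e.1 (fun S => e ∈ S))]
  have h2 : {x : XX G | alive x.1 e} = {σ : St V | alive σ e} ×ˢ (Set.univ : Set (Lb G)) := by
    ext x; simp
  rw [h2, Measure.prod_prod, measure_univ, mul_one]

theorem EE_const (hL : Law G μ) {e : V × V} (he : G.Adj e.1 e.2) (c : ℝ≥0∞) :
    EE (G := G) μ e (fun _ => c) = c := by
  have := hL.prob
  unfold EE
  rw [lintegral_mul_const _ (lawb_meas_ind_alive e), lawb_measure_alive]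
  rw [mul_comm, ENNReal.mul_div_cancel_right (hL.pos e he) (measure_ne_top _ _)]

theorem EE_add {e : V × V} {Y Z : XX G → ℝ≥0∞} (hY : Measurable Y) :
    EE μ e (fun x => Y x + Z x) = EE μ e Y + EE μ e Z := by
  have h : Measurable (fun x : XX G => ind (alive x.1 e) * Y x) := (lawb_meas_ind_alive e).mul hY
  unfold EE
  rw [← ENNReal.add_div, ← lintegral_add_left h]
  congr 1
  exact lintegral_congr fun x => mul_add _ _ _

theorem EE_mul_left {e : V × V} (c : ℝ≥0∞) {Y : XX G → ℝ≥0∞} (hY : Measurable Y) :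
    EE μ e (fun x => c * Y x) = c * EE μ e Y := by
  have h : Measurable (fun x : XX G => ind (alive x.1 e) * Y x) := (lawb_meas_ind_alive e).mul hY
  unfold EE
  rw [← mul_div_assoc, ← lintegral_const_mul c h]
  congr 1
  exact lintegral_congr fun x => mul_left_comm _ _ _

/-! ### automorphisms -/

theorem lawb_mp_lb (φ : G ≃g G) : MeasurePreserving (Lb.map φ) (lam G) (lam G) := by
  unfold lam
  refine MP947a32.Meas.measurePreserving_comp unif
    (fun i : Dt G × Fin 3 => ((⟨mp φ.toEquiv.symm i.1.1, (φ.symm.map_adj_iff).2 i.1.2⟩ : Dt G), i.2)) ?_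
  intro i j hij
  have h1 := congrArg (fun q : Dt G × Fin 3 => q.1.1) hij
  have h2 := congrArg (fun q : Dt G × Fin 3 => q.2) hij
  exact Prod.ext (Subtype.ext (mp_inj φ.toEquiv.symm h1)) h2

theorem lawb_mp_xx [Countable V] (hL : Law G μ) (φ : G ≃g G) :
    MeasurePreserving (XX.map φ) (μ.prod (lam G)) (μ.prod (lam G)) := by
  have := hL.prob
  exact (⟨meas_map φ, hL.inv φ⟩ : MeasurePreserving (St.map φ.toEquiv) μ μ).prod (lawb_mp_lb φ)

theorem lintegral_XX_map [Countable V] (hL : Law G μ) (φ : G ≃g G) {f : XX G → ℝ≥0∞}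
    (hf : Measurable f) :
    ∫⁻ x, f (XX.map φ x) ∂(μ.prod (lam G)) = ∫⁻ x, f x ∂(μ.prod (lam G)) :=
  (lawb_mp_xx hL φ).lintegral_comp hf

theorem lawb_alive_map (φ : G ≃g G) (σ : St V) (e : V × V) :
    alive (St.map φ.toEquiv σ) (mp φ.toEquiv e) ↔ alive σ e := by
  unfold alive St.map Loc.map
  simp only [Finset.mem_image]
  constructor
  · rintro ⟨a, ha, hae⟩
    have := mp_inj _ hae
    subst this
    have h2 : φ.toEquiv.symm (mp φ.toEquiv a).1 = a.1 := φ.toEquiv.symm_apply_apply a.1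
    rwa [h2] at ha
  · intro h
    refine ⟨e, ?_, rfl⟩
    have h2 : φ.toEquiv.symm (mp φ.toEquiv e).1 = e.1 := φ.toEquiv.symm_apply_apply e.1
    rwa [h2]

/-- `br` does not depend on the dart -/
theorem br_eq {Δ : ℕ} (hT : Std G Δ) (hL : Law G μ) {g : XX G → V × V → ℝ≥0∞} (hg : Hd g)
    {e e' : V × V} (he : G.Adj e.1 e.2)
    (he' : G.Adj e'.1 e'.2) : br μ e g = br μ e' g := by
  have := hL.prob
  have : Countable V := countable_V hT.tree Δ hT.reg
  obtain ⟨φ, hφ⟩ := exists_aut hT.tree Δ hT.reg he he'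
  subst hφ
  unfold br EE
  congr 1
  · have hm : Measurable (fun x : XX G => ind (alive x.1 (mp φ.toEquiv e)) * g x (mp φ.toEquiv e)) :=
      (lawb_meas_ind_alive (mp φ.toEquiv e)).mul (hg.meas _)
    show _ = ∫⁻ x, ind (alive x.1 (mp φ.toEquiv e)) * g x (mp φ.toEquiv e) ∂(μ.prod (lam G))
    rw [← lintegral_XX_map hL φ hm]
    refine lintegral_congr fun x => ?_
    show ind (alive x.1 e) * g x e =
      ind (alive (St.map φ.toEquiv x.1) (mp φ.toEquiv e)) * g (XX.map φ x) (mp φ.toEquiv e)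
    rw [hg.equ φ x e, propext (lawb_alive_map φ x.1 e)]
  · conv_rhs => rw [← hL.inv φ]
    rw [Measure.map_apply (meas_map φ) (lawb_meas_alive _)]
    congr 1
    ext σ
    exact (lawb_alive_map φ σ e).symm

/-! ### factorisation -/

/-- factorisation at one alive dart `p` -/
theorem lawb_fac {Δ : ℕ} (hT : Std G Δ) (hL : Law G μ) {F : XX G → ℝ≥0∞} (hF : Measurable F)
    {g : XX G → V × V → ℝ≥0∞} (hg : Hd g) {p e : V × V} (hp : G.Adj p.1 p.2) (he : G.Adj e.1 e.2)
    (hFl : Lc G p F) :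
    ∫⁻ x, ind (alive x.1 p) * (F x * g x p) ∂(μ.prod (lam G)) =
      (∫⁻ x, ind (alive x.1 p) * F x ∂(μ.prod (lam G))) * br μ e g := by
  have := hL.prob
  have : Countable V := countable_V hT.tree Δ hT.reg
  rw [br_eq hT hL hg he hp]
  have h := fac2 hT.tree hL hp hF (hg.meas p) hFl (hg.loc p hp)
  have h0 := hL.pos p hp
  have h1 : μ {σ | alive σ p} ≠ ∞ := measure_ne_top _ _
  unfold br EE
  rw [← mul_div_assoc, ← h, ENNReal.mul_div_cancel_right h0 h1]

/-- ports of the comp of `v` have `v` on their tail side -/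
theorem lawb_side {σ : St V} (h : WF0 G σ) {v : V} {p : V × V} (hp : p ∈ (σ v).ports) :
    side G p v ∧ alive σ p ∧ G.Adj p.1 p.2 := by
  obtain ⟨h1, h2⟩ := h.tail v p hp
  obtain ⟨_, h4, _⟩ := h.eqv v p.1 h1
  have h5 : p ∈ (σ p.1).ports := by rw [h4]; exact hp
  exact ⟨(h.sep p h5 v p.1 h1).1 (side_fst h2), h5, h2⟩

/-- finite sums as series -/
theorem lawb_sum_eq_tsum {α : Type*} (S : Finset α) (a : α → ℝ≥0∞) :
    ∑ p ∈ S, a p = ∑' p, ind (p ∈ S) * a p := by
  rw [tsum_eq_sum (s := S)]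
  · exact Finset.sum_congr rfl fun p hp => by rw [lawb_ind_true hp, one_mul]
  · intro p hp
    rw [lawb_ind_false hp, zero_mul]

theorem lawb_wf0 (hL : Law G μ) [SFinite μ] : ∀ᵐ x : XX G ∂(μ.prod (lam G)), WF G x.1 :=
  (Measure.quasiMeasurePreserving_fst (μ := μ) (ν := lam G)).ae hL.wf

/-- factorisation at the ports of the comp of a vertex -/
theorem vfact {Δ : ℕ} (hT : Std G Δ) (hL : Law G μ)
    {f : XX G → V → V × V → ℝ≥0∞} (hf : Vt f) {g : XX G → V × V → ℝ≥0∞} (hg : Hd g)
    (v : V) {e : V × V} (he : G.Adj e.1 e.2) :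
    ∫⁻ x, ∑ p ∈ (x.1 v).ports, f x v p * g x p ∂(μ.prod (lam G)) =
      (∫⁻ x, ∑ p ∈ (x.1 v).ports, f x v p ∂(μ.prod (lam G))) * br μ e g := by
  have := hL.prob
  have : Countable V := countable_V hT.tree Δ hT.reg
  have hwf := lawb_wf0 (G := G) hL
  have hm : ∀ p, Measurable (fun x : XX G => ind (p ∈ (x.1 v).ports)) := fun p =>
    lawb_meas_ind (lawb_meas_ports (G := G) v (fun S => p ∈ S))
  have hm1 : ∀ p, AEMeasurable (fun x : XX G => ind (p ∈ (x.1 v).ports) * (f x v p * g x p))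
      (μ.prod (lam G)) := fun p => ((hm p).mul ((hf.meas v p).mul (hg.meas p))).aemeasurable
  have hm2 : ∀ p, AEMeasurable (fun x : XX G => ind (p ∈ (x.1 v).ports) * f x v p)
      (μ.prod (lam G)) := fun p => ((hm p).mul (hf.meas v p)).aemeasurable
  simp_rw [lawb_sum_eq_tsum]
  rw [lintegral_tsum hm1, lintegral_tsum hm2, ← ENNReal.tsum_mul_right]
  refine tsum_congr fun p => ?_
  by_cases hp : G.Adj p.1 p.2
  · have h1 : ∀ Y : XX G → ℝ≥0∞, ∫⁻ x, ind (p ∈ (x.1 v).ports) * Y x ∂(μ.prod (lam G)) =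
        ∫⁻ x, ind (alive x.1 p) * (ind (p ∈ (x.1 v).ports) * Y x) ∂(μ.prod (lam G)) := by
      intro Y
      refine lintegral_congr_ae (hwf.mono fun x hx => ?_)
      by_cases hpx : p ∈ (x.1 v).ports
      · simp only [lawb_ind_true (lawb_side hx.toWF0 hpx).2.1, one_mul]
      · simp only [lawb_ind_false hpx, zero_mul, mul_zero]
    rw [h1, h1]
    have h2 := lawb_fac hT hL (F := fun x => ind (p ∈ (x.1 v).ports) * f x v p)
      ((hm p).mul (hf.meas v p)) hg hp he (by
        intro x y hx hy hax hay hag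
        by_cases hs : side G p v
        · have hxy := hag.1 v hs
          by_cases hpx : p ∈ (x.1 v).ports
          · have hpy : p ∈ (y.1 v).ports := by rw [← hxy]; exact hpx
            show ind (p ∈ (x.1 v).ports) * f x v p = ind (p ∈ (y.1 v).ports) * f y v p
            rw [hf.loc v p x y hx hy hpx hpy hag, hxy]
          · have hpy : p ∉ (y.1 v).ports := by rw [← hxy]; exact hpx
            show ind (p ∈ (x.1 v).ports) * f x v p = ind (p ∈ (y.1 v).ports) * f y v p
            rw [lawb_ind_false hpx, lawb_ind_false hpy, zero_mul, zero_mul]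
        · have hpx : p ∉ (x.1 v).ports := fun h => hs (lawb_side hx h).1
          have hpy : p ∉ (y.1 v).ports := fun h => hs (lawb_side hy h).1
          show ind (p ∈ (x.1 v).ports) * f x v p = ind (p ∈ (y.1 v).ports) * f y v p
          rw [lawb_ind_false hpx, lawb_ind_false hpy, zero_mul, zero_mul])
    rw [← h2]
    refine lintegral_congr fun x => ?_
    simp only [mul_assoc]
  · have h0 : ∀ Y : XX G → ℝ≥0∞, ∫⁻ x, ind (p ∈ (x.1 v).ports) * Y x ∂(μ.prod (lam G)) = 0 := by
      intro Y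
      rw [← lintegral_zero (μ := μ.prod (lam G))]
      refine lintegral_congr_ae (hwf.mono fun x hx => ?_)
      have : p ∉ (x.1 v).ports := fun h => hp (lawb_side hx.toWF0 h).2.2
      simp only [lawb_ind_false this, zero_mul]
    rw [h0, h0, zero_mul]

/-- factorisation at the onward ports -/
theorem factsum {Δ : ℕ} (hT : Std G Δ) (hL : Law G μ)
    {f : XX G → V × V → V × V → ℝ≥0∞} (hf : Tl f) {g : XX G → V × V → ℝ≥0∞} (hg : Hd g)
    {e : V × V} (he : G.Adj e.1 e.2) :
    EE μ e (fun x => ∑ p ∈ onw x.1 e, f x e p * g x p) =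
      EE μ e (fun x => ∑ p ∈ onw x.1 e, f x e p) * br μ e g := by
  have := hL.prob
  have : Countable V := countable_V hT.tree Δ hT.reg
  have hwf := lawb_wf0 (G := G) hL
  -- `f` with the indicator that `e` is alive and `p` is onward
  have key := vfact (G := G) (μ := μ) hT hL (f := fun x v p =>
      ind (v = e.2 ∧ e.swap ∈ (x.1 v).ports ∧ p ≠ e.swap) * f x e p) ?_ hg e.2 he
  · have h1 : ∀ Y : XX G → V × V → ℝ≥0∞,
        ∫⁻ x, ind (alive x.1 e) * ∑ p ∈ onw x.1 e, Y x p ∂(μ.prod (lam G)) =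
        ∫⁻ x, ∑ p ∈ (x.1 e.2).ports,
          ind (e.2 = e.2 ∧ e.swap ∈ (x.1 e.2).ports ∧ p ≠ e.swap) * Y x p ∂(μ.prod (lam G)) := by
      intro Y
      refine lintegral_congr_ae (hwf.mono fun x hx => ?_)
      have hiff : alive x.1 e ↔ e.swap ∈ (x.1 e.2).ports :=
        ⟨fun h => hx.swap e.1 e h, fun h => by
          have := hx.swap e.2 e.swap h
          simpa [alive] using this⟩
      by_cases ha : alive x.1 e
      · have ha' := hiff.1 ha
        show ind (alive x.1 e) * ∑ p ∈ onw x.1 e, Y x p =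
          ∑ p ∈ (x.1 e.2).ports, ind (e.2 = e.2 ∧ e.swap ∈ (x.1 e.2).ports ∧ p ≠ e.swap) * Y x p
        rw [lawb_ind_true ha, one_mul]
        unfold onw
        rw [← Finset.sum_erase_add _ _ ha', lawb_ind_false (P := e.2 = e.2 ∧ e.swap ∈ (x.1 e.2).ports ∧
          e.swap ≠ e.swap) (by simp), zero_mul, add_zero]
        refine Finset.sum_congr rfl fun p hp => ?_
        rw [lawb_ind_true ⟨rfl, ha', (Finset.mem_erase.1 hp).1⟩, one_mul]
      · have ha' : ¬ e.swap ∈ (x.1 e.2).ports := fun h => ha (hiff.2 h)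
        show ind (alive x.1 e) * ∑ p ∈ onw x.1 e, Y x p =
          ∑ p ∈ (x.1 e.2).ports, ind (e.2 = e.2 ∧ e.swap ∈ (x.1 e.2).ports ∧ p ≠ e.swap) * Y x p
        rw [lawb_ind_false ha, zero_mul]
        symm
        refine Finset.sum_eq_zero fun p _ => ?_
        rw [lawb_ind_false (fun h => ha' h.2.1), zero_mul]
    unfold EE
    rw [h1, h1 (fun x p => f x e p)]
    have e1 : ∀ x : XX G, ∑ p ∈ (x.1 e.2).ports,
          ind (e.2 = e.2 ∧ e.swap ∈ (x.1 e.2).ports ∧ p ≠ e.swap) * (f x e p * g x p) =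
        ∑ p ∈ (x.1 e.2).ports,
          ind (e.2 = e.2 ∧ e.swap ∈ (x.1 e.2).ports ∧ p ≠ e.swap) * f x e p * g x p := by
      intro x
      exact Finset.sum_congr rfl fun p _ => (mul_assoc _ _ _).symm
    have e2 := lintegral_congr (μ := μ.prod (lam G)) e1
    show (∫⁻ x, ∑ p ∈ (x.1 e.2).ports, ind (e.2 = e.2 ∧ e.swap ∈ (x.1 e.2).ports ∧ p ≠ e.swap) *
      (f x e p * g x p) ∂(μ.prod (lam G))) / _ = _
    rw [e2, key, ENNReal.mul_div_right_comm]
  · constructor
    · intro v p
      refine (lawb_meas_ind ?_).mul (hf.meas e p)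
      exact lawb_meas_ports (G := G) v (fun S => v = e.2 ∧ e.swap ∈ S ∧ p ≠ e.swap)
    · intro v p x y hx hy hpx hpy hag
      by_cases hv : v = e.2
      · subst hv
        have hs : side G p e.2 := (lawb_side hx hpx).1
        have hxy := hag.1 e.2 hs
        by_cases hc : e.swap ∈ (x.1 e.2).ports ∧ p ≠ e.swap
        · have hc' : e.swap ∈ (y.1 e.2).ports := by rw [← hxy]; exact hc.1
          show ind (e.2 = e.2 ∧ e.swap ∈ (x.1 e.2).ports ∧ p ≠ e.swap) * f x e p =
            ind (e.2 = e.2 ∧ e.swap ∈ (y.1 e.2).ports ∧ p ≠ e.swap) * f y e p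
          rw [hf.loc e p he x y hx hy hc.1 hc' (Finset.mem_erase.2 ⟨hc.2, hpx⟩)
            (Finset.mem_erase.2 ⟨hc.2, hpy⟩) hag, hxy]
        · have hc' : ¬ (e.swap ∈ (y.1 e.2).ports ∧ p ≠ e.swap) := by rw [← hxy]; exact hc
          show ind (e.2 = e.2 ∧ e.swap ∈ (x.1 e.2).ports ∧ p ≠ e.swap) * f x e p =
            ind (e.2 = e.2 ∧ e.swap ∈ (y.1 e.2).ports ∧ p ≠ e.swap) * f y e p
          rw [lawb_ind_false (fun h => hc h.2), lawb_ind_false (fun h => hc' h.2), zero_mul, zero_mul]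
      · show ind (v = e.2 ∧ e.swap ∈ (x.1 v).ports ∧ p ≠ e.swap) * f x e p =
            ind (v = e.2 ∧ e.swap ∈ (y.1 v).ports ∧ p ≠ e.swap) * f y e p
        rw [lawb_ind_false (fun h => hv h.1), lawb_ind_false (fun h => hv h.1), zero_mul, zero_mul]

theorem qb_add_qh {Δ : ℕ} {e : V × V} (hT : Std G Δ) (hL : Law G μ) (δ : ℝ) (he : G.Adj e.1 e.2) :
    qb G μ δ e + qh G μ δ e = 1 := by
  have := hL.prob
  have : Countable V := countable_V hT.tree Δ hT.reg
  have hm : Measurable (fun x : XX G => ind (e.swap ∉ OO δ x)) :=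
    lawb_meas_ind (meas_OO (G := G) δ e.swap).compl
  show EE μ e (fun x => ind (e.swap ∉ OO δ x)) + EE μ e (fun x => ind (e.swap ∈ OO δ x)) = 1
  rw [← EE_add hm]
  have : (fun x : XX G => ind (e.swap ∉ OO δ x) + ind (e.swap ∈ OO δ x)) = fun _ => 1 := by
    funext x
    by_cases h : e.swap ∈ OO δ x
    · rw [lawb_ind_true h, lawb_ind_false (not_not.2 h), zero_add]
    · rw [lawb_ind_false h, lawb_ind_true h, add_zero]
  rw [this, EE_const hL he]

end Pool.Agent.PM
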