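import Pool.Agent.Lib.MP_947a32_pr.TreeS

/-!
# Locality and finite dependence of one stage (helper5, piece 08-LOC)
-/

set_option autoImplicit false

open Classical MeasureTheory
open scoped ENNReal

namespace Pool.Agent.PM

variable {V : Type} {G : SimpleGraph V}

/-! ### general facts on `op` and `run` -/

theorem op_congr {τ τ' : St V} {d : V × V} {v : V} (h1 : τ d.1 = τ' d.1) (h2 : τ d.2 = τ' d.2)
    (hv : τ v = τ' v) : op τ d v = op τ' d v := by
  unfold op
  rw [h1, h2, hv]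

/-- everything in the new ports or flips is an old port or flip -/
theorem mem_op {τ : St V} {d q : V × V} {v : V}
    (hq : q ∈ (op τ d v).ports ∨ q ∈ (op τ d v).spec) :
    (q ∈ (τ v).ports ∨ q ∈ (τ v).spec) ∨ (q ∈ (τ d.1).ports ∨ q ∈ (τ d.1).spec) ∨
      (q ∈ (τ d.2).ports ∨ q ∈ (τ d.2).spec) := by
  unfold op at hq
  have e1 : ∀ {S : Finset (V × V)} {x : V × V}, q ∈ S.erase x → q ∈ S := fun h =>
    Finset.mem_of_mem_erase h
  have e2 : ∀ {S T : Finset (V × V)}, q ∈ S \ T → q ∈ S := fun h => (Finset.mem_sdiff.mp h).1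
  split_ifs at hq
  all_goals first
    | exact Or.inl hq
    | exact Or.inl (hq.imp (fun h => e1 (e1 h)) (fun h => e1 (e1 h)))
    | (right
       rcases hq with hq | hq <;> rcases Finset.mem_union.mp hq with hq | hq <;> first
        | exact Or.inl (Or.inl (e1 hq))
        | exact Or.inl (Or.inr (e1 hq))
        | exact Or.inr (Or.inl (e1 hq))
        | exact Or.inr (Or.inr (e1 hq))
        | exact Or.inr (Or.inl (e1 (e2 hq)))
        | exact Or.inl (Or.inl (e1 (e2 hq))))

theorem min_unique {t : V × V → ℝ} {S : Finset (V × V)} {d d' : V × V}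
    (h : d ∈ S ∧ ∀ q ∈ S, q ≠ d → t d < t q) (h' : d' ∈ S ∧ ∀ q ∈ S, q ≠ d' → t d' < t q) :
    d = d' := by
  by_contra hne
  exact lt_asymm (h.2 d' h'.1 (Ne.symm hne)) (h'.2 d h.1 hne)

theorem run_congr {A : Set V} {t t' : V × V → ℝ} :
    ∀ (n : ℕ) (S : Finset (V × V)) (τ τ' : St V),
      (∀ d ∈ S, d.1 ∈ A ∧ d.2 ∈ A ∧ t d = t' d) → (∀ v ∈ A, τ v = τ' v) →
      ∀ v ∈ A, run t n S τ v = run t' n S τ' v := by
  intro n
  induction n with
  | zero => intro S τ τ' _ hτ v hv; exact hτ v hv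
  | succ n ih =>
    intro S τ τ' hS hτ v hv
    have hiff : (∃ d ∈ S, ∀ d' ∈ S, d' ≠ d → t d < t d') ↔
        (∃ d ∈ S, ∀ d' ∈ S, d' ≠ d → t' d < t' d') := by
      constructor
      · rintro ⟨d, hd, hm⟩
        exact ⟨d, hd, fun d' hd' hne => by
          rw [← (hS d hd).2.2, ← (hS d' hd').2.2]; exact hm d' hd' hne⟩
      · rintro ⟨d, hd, hm⟩
        exact ⟨d, hd, fun d' hd' hne => by
          rw [(hS d hd).2.2, (hS d' hd').2.2]; exact hm d' hd' hne⟩
    by_cases h : ∃ d ∈ S, ∀ d' ∈ S, d' ≠ d → t d < t d'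
    · have h' := hiff.mp h
      have e1 : run t (n + 1) S τ = run t n (S.erase h.choose) (op τ h.choose) := by
        simp only [run, dif_pos h]
      have e2 : run t' (n + 1) S τ' = run t' n (S.erase h'.choose) (op τ' h'.choose) := by
        simp only [run, dif_pos h']
      have hd := h.choose_spec
      have hd' := h'.choose_spec
      have heq : h.choose = h'.choose := by
        refine min_unique hd ⟨hd'.1, fun q hq hne => ?_⟩
        rw [(hS _ hd'.1).2.2, (hS _ hq).2.2]
        exact hd'.2 q hq hne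
      rw [e1, e2, ← heq]
      refine ih _ _ _ (fun d hd => hS d (Finset.mem_of_mem_erase hd)) (fun w hw => ?_) v hv
      exact op_congr (hτ _ (hS _ hd.1).1) (hτ _ (hS _ hd.1).2.1) (hτ w hw)
    · have h' : ¬ ∃ d ∈ S, ∀ d' ∈ S, d' ≠ d → t' d < t' d' := fun hc => h (hiff.mpr hc)
      have e1 : run t (n + 1) S τ = τ := by simp only [run, dif_neg h]
      have e2 : run t' (n + 1) S τ' = τ' := by simp only [run, dif_neg h']
      rw [e1, e2]
      exact hτ v hv

theorem mem_run {A : Set V} {t : V × V → ℝ} :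
    ∀ (n : ℕ) (S : Finset (V × V)) (τ : St V), (∀ d ∈ S, d.1 ∈ A ∧ d.2 ∈ A) →
      ∀ v ∈ A, ∀ q, (q ∈ (run t n S τ v).ports ∨ q ∈ (run t n S τ v).spec) →
        ∃ x ∈ A, q ∈ (τ x).ports ∨ q ∈ (τ x).spec := by
  intro n
  induction n with
  | zero => intro S τ _ v hv q hq; exact ⟨v, hv, hq⟩
  | succ n ih =>
    intro S τ hS v hv q hq
    by_cases h : ∃ d ∈ S, ∀ d' ∈ S, d' ≠ d → t d < t d'
    · have e1 : run t (n + 1) S τ = run t n (S.erase h.choose) (op τ h.choose) := by
        simp only [run, dif_pos h]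
      rw [e1] at hq
      obtain ⟨x, hx, hq'⟩ := ih _ _ (fun d hd => hS d (Finset.mem_of_mem_erase hd)) v hv q hq
      have hd := h.choose_spec
      rcases mem_op hq' with h1 | h1 | h1
      · exact ⟨x, hx, h1⟩
      · exact ⟨_, (hS _ hd.1).1, h1⟩
      · exact ⟨_, (hS _ hd.1).2, h1⟩
    · have e1 : run t (n + 1) S τ = τ := by simp only [run, dif_neg h]
      rw [e1] at hq
      exact ⟨v, hv, hq⟩

theorem post_congr {O O' : Set (V × V)} {L L' : Loc V} (hL : L = L')
    (h : ∀ q, (q ∈ L.ports ∨ q ∈ L.spec) → (opd O q ↔ opd O' q)) : post O L = post O' L' := by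
  subst hL
  unfold post
  congr 1
  · exact Finset.filter_congr fun q hq => not_congr (h q (Or.inl hq))
  · exact Finset.filter_congr fun q hq => not_congr (h q (Or.inr hq))

/-! ### the common argument -/

/-- Two data which agree on a set `A` of vertices closed under `Rl`, in the sense needed for one
stage: the stages agree on `A`. -/
theorem step_congr {A : Set V} {σ σ' : St V} (h : WF0 G σ) {O O' : Set (V × V)}
    {t t' : V × V → ℝ}
    (hs : ∀ v ∈ A, σ v = σ' v)
    (hop : ∀ v ∈ A, ∀ q ∈ (σ v).ports, (opd O q ↔ opd O' q))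
    (hhot : ∀ d : V × V, d.1 ∈ A → (hot O σ d ↔ hot O' σ' d))
    (hcl : ∀ u ∈ A, ∀ w, Rl O σ u w → w ∈ A)
    (ht : ∀ d : V × V, d.1 ∈ A → d.2 ∈ A → t d = t' d) :
    ∀ v ∈ A, step O t σ v = step O' t' σ' v := by
  intro v hv
  have hRl : ∀ u ∈ A, ∀ w, (Rl O σ u w ↔ Rl O' σ' u w) := by
    intro u hu w
    unfold Rl
    rw [hs u hu, hhot (u, w) hu]
  have hreg : ∀ w, (w ∈ region O σ v ↔ w ∈ region O' σ' v) ∧ (w ∈ region O σ v → w ∈ A) := by
    have h1 : ∀ w, Relation.ReflTransGen (Rl O σ) v w →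
        w ∈ A ∧ Relation.ReflTransGen (Rl O' σ') v w := by
      intro w hw
      induction hw with
      | refl => exact ⟨hv, Relation.ReflTransGen.refl⟩
      | tail _ hbc ih => exact ⟨hcl _ ih.1 _ hbc, ih.2.tail ((hRl _ ih.1 _).mp hbc)⟩
    have h2 : ∀ w, Relation.ReflTransGen (Rl O' σ') v w →
        w ∈ A ∧ Relation.ReflTransGen (Rl O σ) v w := by
      intro w hw
      induction hw with
      | refl => exact ⟨hv, Relation.ReflTransGen.refl⟩
      | tail _ hbc ih =>
        have := (hRl _ ih.1 _).mpr hbc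
        exact ⟨hcl _ ih.1 _ this, ih.2.tail this⟩
    intro w
    exact ⟨⟨fun hw => (h1 w hw).2, fun hw => (h2 w hw).2⟩, fun hw => (h1 w hw).1⟩
  have hregeq : region O σ v = region O' σ' v := Set.ext fun w => (hreg w).1
  have hhs : ∀ d, d ∈ hotSet O t σ v → d.1 ∈ A ∧ d.2 ∈ A := by
    intro d hd
    have h1 := (hreg d.1).2 hd.1
    exact ⟨h1, hcl _ h1 _ (Or.inr (by simpa using hd.2.1))⟩
  have hset : hotSet O t σ v = hotSet O' t' σ' v := by
    ext d
    constructor
    · intro hd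
      have hA := hhs d hd
      refine ⟨(hreg _).1.mp hd.1, (hhot d hA.1).mp hd.2.1, ?_⟩
      rw [← ht d hA.1 hA.2, ← ht d.swap hA.2 hA.1]
      exact hd.2.2
    · intro hd
      have h1 := (hreg d.1).1.mpr hd.1
      have h1A := (hreg d.1).2 h1
      have h2 := (hhot d h1A).mpr hd.2.1
      have h2A : d.2 ∈ A := hcl _ h1A _ (Or.inr (by simpa using h2))
      refine ⟨h1, h2, ?_⟩
      rw [ht d h1A h2A, ht d.swap h2A h1A]
      exact hd.2.2
  have hchill : ∀ x ∈ A, chill O σ x = chill O' σ' x := by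
    intro x hx
    have key : ∀ q ∈ (σ x).ports, ((opd O q → hot O σ q) ↔ (opd O' q → hot O' σ' q)) := by
      intro q hq
      have hq1 : q.1 ∈ A := hcl x hx _ (Or.inl (h.tail x q hq).1)
      rw [hop x hx q hq, hhot q hq1]
    unfold chill
    rw [hs x hx]
    rw [hs x hx] at key
    congr 1
    · exact Finset.filter_congr key
    · refine Finset.filter_congr fun q hq => key q ?_
      rw [← hs x hx] at hq ⊢
      exact h.spec_sub x hq
  have hopc : ∀ x ∈ A, ∀ q, (q ∈ (chill O σ x).ports ∨ q ∈ (chill O σ x).spec) →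
      (opd O q ↔ opd O' q) := by
    intro x hx q hq
    refine hop x hx q ?_
    rcases hq with hq | hq
    · exact Finset.mem_of_mem_filter q hq
    · exact h.spec_sub x (Finset.mem_of_mem_filter q hq)
  unfold step
  by_cases hf : (hotSet O t σ v).Finite
  · have hf' : (hotSet O' t' σ' v).Finite := hset ▸ hf
    rw [dif_pos hf, dif_pos hf']
    have hS : hf.toFinset = hf'.toFinset := by
      ext d; rw [Set.Finite.mem_toFinset, Set.Finite.mem_toFinset, hset]
    rw [← hS]
    have hSA : ∀ d ∈ hf.toFinset, d.1 ∈ A ∧ d.2 ∈ A := fun d hd =>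
      hhs d ((Set.Finite.mem_toFinset hf).mp hd)
    refine post_congr (run_congr _ _ _ _ (fun d hd => ?_) hchill v hv) (fun q hq => ?_)
    · exact ⟨(hSA d hd).1, (hSA d hd).2, ht d (hSA d hd).1 (hSA d hd).2⟩
    · obtain ⟨x, hx, hq'⟩ := mem_run _ _ _ hSA v hv q hq
      exact hopc x hx q hq'
  · have hf' : ¬ (hotSet O' t' σ' v).Finite := hset ▸ hf
    rw [dif_neg hf, dif_neg hf']
    exact post_congr (hchill v hv) (hopc v hv)

/-! ### locality -/

theorem side_of_port {σ : St V} (h : WF0 G σ) {e : V × V} (ha : alive σ e) {v : V}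
    (hv : side G e v) {q : V × V} (hq : q ∈ (σ v).ports) : side G e q.1 :=
  (h.sep e ha v q.1 (h.tail v q hq).1).mpr hv

theorem rule_local (hG : G.IsTree) {σ σ' : St V} (h : WF0 G σ) (h' : WF0 G σ') {e : V × V}
    (ha : alive σ e) (ha' : alive σ' e) {δ : ℝ} {a a' r r' : V × V → ℝ}
    (hs : ∀ v, side G e v → σ v = σ' v)
    (hl : ∀ d : V × V, side G e d.1 → a d = a' d ∧ r d = r' d) :
    ∀ d : V × V, side G e d.1 → (d ∈ rule δ a r σ ↔ d ∈ rule δ a' r' σ') := by
  intro d hd
  have hp : ∀ q ∈ (σ d.1).ports, a q = a' q ∧ r q = r' q := fun q hq =>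
    hl q (side_of_port h ha hd hq)
  have hact : act δ a (σ d.1) ↔ act δ a' (σ' d.1) := by
    unfold act
    rw [← hs d.1 hd]
    refine and_congr_right fun _ => exists_congr fun q => and_congr_right fun hq => ?_
    rw [(hp q hq).1]
  have hrnk : rnk r (σ d.1) d = rnk r' (σ' d.1) d := by
    unfold rnk
    rw [← hs d.1 hd]
    congr 1
    refine Finset.filter_congr fun q hq => ?_
    rw [(hp q (Finset.mem_sdiff.mp hq).1).2, (hl d hd).2]
  unfold rule
  simp only [Set.mem_ofPred_eq]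
  rw [hact, hrnk, hs d.1 hd]

theorem step_local (hG : G.IsTree) {σ σ' : St V} (h : WF0 G σ) (h' : WF0 G σ') {e : V × V}
    (ha : alive σ e) (ha' : alive σ' e) {O O' : Set (V × V)} {t t' : V × V → ℝ}
    (ho : ¬ opd O e) (ho' : ¬ opd O' e)
    (hs : ∀ v, side G e v → σ v = σ' v)
    (hl : ∀ d : V × V, side G e d.1 → ((d ∈ O ↔ d ∈ O') ∧ t d = t' d)) :
    ∀ v, side G e v → step O t σ v = step O' t' σ' v := by
  have he : G.Adj e.1 e.2 := (h.tail _ _ ha).2
  -- a port with tail on the side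
  have hport : ∀ v, side G e v → ∀ q ∈ (σ v).ports, q ≠ e → side G e q.2 := by
    intro v hv q hq hne
    by_contra hc
    obtain ⟨h1, h2⟩ := side_cross hG he (h.tail v q hq).2 (side_of_port h ha hv hq) hc
    exact hne (Prod.ext h1 h2)
  have hop : ∀ v, side G e v → ∀ q ∈ (σ v).ports, (opd O q ↔ opd O' q) := by
    intro v hv q hq
    by_cases hqe : q = e
    · subst hqe; exact ⟨fun hc => (ho hc).elim, fun hc => (ho' hc).elim⟩
    · unfold opd
      rw [(hl q (side_of_port h ha hv hq)).1, (hl q.swap (hport v hv q hq hqe)).1]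
  have hunop : ∀ v, side G e v → unop O (σ v) = unop O' (σ' v) := by
    intro v hv
    unfold unop
    rw [← hs v hv]
    exact Finset.filter_congr fun q hq => not_congr (hop v hv q hq)
  have hhot : ∀ d : V × V, side G e d.1 → (hot O σ d ↔ hot O' σ' d) := by
    intro d hd
    by_cases hde : d = e
    · subst hde
      exact ⟨fun hc => (ho hc.2.2.1).elim, fun hc => (ho' hc.2.2.1).elim⟩
    · by_cases hdp : d ∈ (σ d.1).ports
      · have h2 := hport d.1 hd d hdp hde
        unfold hot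
        rw [hunop _ hd, hunop _ h2, hop d.1 hd d hdp, hs _ hd, hs _ h2]
      · refine ⟨fun hc => (hdp hc.1).elim, fun hc => (hdp ?_).elim⟩
        rw [hs _ hd]; exact hc.1
  have key := step_congr (A := {v | side G e v}) h (O := O) (O' := O') (t := t) (t' := t')
    hs hop hhot ?_ (fun d hd _ => (hl d hd).2)
  · exact key
  · intro u hu w hw
    rcases hw with hw | hw
    · exact (h.sep e ha u w hw).mpr hu
    · have hne : ((u, w) : V × V) ≠ e := fun hc => ho (hc ▸ hw.2.2.1)
      exact hport u hu (u, w) hw.1 hne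

theorem rule_fin {σ : St V} (δ : ℝ) (a r : V × V → ℝ) (d : V × V) :
    ∃ K : Finset (V × V), ∀ (σ' : St V) (a' r' : V × V → ℝ), σ' d.1 = σ d.1 →
      (∀ q ∈ K, a' q = a q ∧ r' q = r q) → (d ∈ rule δ a' r' σ' ↔ d ∈ rule δ a r σ) := by
  refine ⟨insert d (σ d.1).ports, fun σ' a' r' hs hl => ?_⟩
  have hp : ∀ q ∈ (σ d.1).ports, a' q = a q ∧ r' q = r q := fun q hq =>
    hl q (Finset.mem_insert_of_mem hq)
  have hact : act δ a' (σ d.1) ↔ act δ a (σ d.1) := by
    unfold act
    refine and_congr_right fun _ => exists_congr fun q => and_congr_right fun hq => ?_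
    rw [(hp q hq).1]
  have hrnk : rnk r' (σ d.1) d = rnk r (σ d.1) d := by
    unfold rnk
    congr 1
    refine Finset.filter_congr fun q hq => ?_
    rw [(hp q (Finset.mem_sdiff.mp hq).1).2, (hl d (Finset.mem_insert_self _ _)).2]
  unfold rule
  simp only [Set.mem_ofPred_eq]
  rw [hs, hact, hrnk]

theorem step_fin {σ : St V} (h : WF0 G σ) {O : Set (V × V)} {t : V × V → ℝ} (v : V)
    (hf : (region O σ v).Finite) :
    ∃ K : Finset V, ∀ (σ' : St V) (O' : Set (V × V)) (t' : V × V → ℝ),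
      (∀ x ∈ K, σ' x = σ x) →
      (∀ d : V × V, d.1 ∈ K → d.2 ∈ K → ((d ∈ O' ↔ d ∈ O) ∧ t' d = t d)) →
      step O' t' σ' v = step O t σ v := by
  -- endpoints of the ports of a finite set of vertices
  let N : Finset V → Finset V := fun A =>
    A.biUnion (fun x => (σ x).ports.image Prod.fst ∪ (σ x).ports.image Prod.snd)
  have hN1 : ∀ (A : Finset V) (x : V), x ∈ A → ∀ q ∈ (σ x).ports, q.1 ∈ N A ∧ q.2 ∈ N A := by
    intro A x hx q hq
    constructor
    · exact Finset.mem_biUnion.mpr ⟨x, hx, Finset.mem_union_left _ (Finset.mem_image_of_mem _ hq)⟩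
    · exact Finset.mem_biUnion.mpr ⟨x, hx, Finset.mem_union_right _ (Finset.mem_image_of_mem _ hq)⟩
  let R : Finset V := hf.toFinset
  have hR : ∀ x, x ∈ R ↔ x ∈ region O σ v := fun x => Set.Finite.mem_toFinset hf
  have hRcl : ∀ u ∈ R, ∀ w, Rl O σ u w → w ∈ R := by
    intro u hu w hw
    rw [hR] at hu ⊢
    exact Relation.ReflTransGen.tail hu hw
  let K1 : Finset V := R ∪ N R
  let K : Finset V := K1 ∪ N K1
  have hRK1 : ∀ x ∈ R, x ∈ K1 := fun x hx => Finset.mem_union_left _ hx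
  have hK1K : ∀ x ∈ K1, x ∈ K := fun x hx => Finset.mem_union_left _ hx
  refine ⟨K, fun σ' O' t' hs hl => ?_⟩
  have hop1 : ∀ x ∈ K1, ∀ q ∈ (σ x).ports, (opd O q ↔ opd O' q) := by
    intro x hx q hq
    have hq' := hN1 K1 x hx q hq
    have h1 : q.1 ∈ K := Finset.mem_union_right _ hq'.1
    have h2 : q.2 ∈ K := Finset.mem_union_right _ hq'.2
    unfold opd
    rw [(hl q h1 h2).1, (hl q.swap h2 h1).1]
  have hunop : ∀ x ∈ K1, unop O (σ x) = unop O' (σ' x) := by
    intro x hx
    unfold unop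
    rw [hs x (hK1K x hx)]
    exact Finset.filter_congr fun q hq => not_congr (hop1 x hx q hq)
  have hhot : ∀ d : V × V, d.1 ∈ R → (hot O σ d ↔ hot O' σ' d) := by
    intro d hd
    by_cases hdp : d ∈ (σ d.1).ports
    · have h1 : d.1 ∈ K1 := hRK1 _ hd
      have h2 : d.2 ∈ K1 := Finset.mem_union_right _ (hN1 R d.1 hd d hdp).2
      unfold hot
      rw [hunop _ h1, hunop _ h2, hop1 d.1 h1 d hdp, hs _ (hK1K _ h1), hs _ (hK1K _ h2)]
    · refine ⟨fun hc => (hdp hc.1).elim, fun hc => (hdp ?_).elim⟩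
      have := hc.1
      rwa [hs _ (hK1K _ (hRK1 _ hd))] at this
  have key := step_congr (A := {x | x ∈ R}) h (O := O) (O' := O') (t := t) (t' := t')
    (σ' := σ') (fun x hx => (hs x (hK1K _ (hRK1 _ hx))).symm)
    (fun x hx => hop1 x (hRK1 _ hx)) hhot hRcl
    (fun d hd hd2 => ((hl d (hK1K _ (hRK1 _ hd)) (hK1K _ (hRK1 _ hd2))).2).symm)
  exact (key v ((hR v).mpr Relation.ReflTransGen.refl)).symm

end Pool.Agent.PM
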