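import Pool.Agent.Lib.MP_947a32_pr.Equi
import Pool.Agent.Lib.MP_947a32_pr.Loc
import Pool.Agent.Lib.MP_947a32_pr.Meas

/-!
# MP_947a32_pr, piece NICE: calculus of nice functionals (helper10)
-/

set_option autoImplicit false
set_option linter.unusedVariables false

open Classical MeasureTheory
open scoped ENNReal

namespace Pool.Agent.PM

variable {V : Type} {G : SimpleGraph V}


/-! ### geometry of the onward ports -/

section Geo

variable {σ : St V} {e p q : V × V}

theorem nc_alive_of_mem (h : WF0 G σ) {v : V} (hp : p ∈ (σ v).ports) : alive σ p := by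
  have h1 := (h.tail v p hp).1
  have h2 := (h.eqv v p.1 h1).2.1
  unfold alive
  rw [h2]; exact hp

theorem nc_alive_swap (h : WF0 G σ) (hp : alive σ p) : alive σ p.swap :=
  h.swap p.1 p hp

theorem nc_adj (h : WF0 G σ) (hp : alive σ p) : G.Adj p.1 p.2 := (h.tail p.1 p hp).2

theorem nc_mem_onw : p ∈ onw σ e ↔ p ≠ e.swap ∧ p ∈ (σ e.2).ports := by
  unfold onw; rw [Finset.mem_erase]

theorem nc_onw_alive (h : WF0 G σ) (hp : p ∈ onw σ e) : alive σ p :=
  nc_alive_of_mem h (nc_mem_onw.1 hp).2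

theorem nc_onw_adj (h : WF0 G σ) (hp : p ∈ onw σ e) : G.Adj p.1 p.2 :=
  nc_adj h (nc_onw_alive h hp)

/-- two vertices of a comp are on the same side of an alive dart -/
theorem nc_port_side (h : WF0 G σ) (hp : alive σ p) {v : V} (hq : q ∈ (σ v).ports) :
    side G p q.1 ↔ side G p v :=
  h.sep p hp v q.1 (h.tail v q hq).1

/-- `e.2` is on the tail side of an onward port -/
theorem nc_side_snd (h : WF0 G σ) (hp : p ∈ onw σ e) : side G p e.2 :=
  (nc_port_side h (nc_onw_alive h hp) (nc_mem_onw.1 hp).2).1 (side_fst (nc_onw_adj h hp))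

/-- the head side of an onward port is contained in the head side of `e` -/
theorem nc_head_sub (hT : G.IsTree) (h : WF0 G σ) (he : alive σ e.swap) (hp : p ∈ onw σ e) {v : V}
    (hv : side G p.swap v) : side G e.swap v := by
  have hea : alive σ e := by simpa using nc_alive_swap h he
  have hadj : G.Adj e.1 e.2 := nc_adj h hea
  have hpadj := nc_onw_adj h hp
  rw [← side_iff hT hadj]
  rw [← side_iff hT hpadj] at hv
  refine side_nest hT hadj hpadj (nc_side_snd h hp) ?_ (nc_mem_onw.1 hp).1 _ hv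
  rw [nc_port_side h hea (nc_mem_onw.1 hp).2]
  exact not_side_snd e

/-- the head side of another onward port is contained in the tail side of `p` -/
theorem nc_head_sub' (hT : G.IsTree) (h : WF0 G σ) (hp : p ∈ onw σ e) (hq : q ∈ onw σ e)
    (hne : q ≠ p) {v : V} (hv : side G q.swap v) : side G p v := by
  have hpadj := nc_onw_adj h hp
  have hqadj := nc_onw_adj h hq
  rw [← side_iff hT hqadj] at hv
  refine side_disj hT hqadj hpadj ?_ ?_ hne _ hv
  · rw [nc_port_side h (nc_onw_alive h hq) (nc_mem_onw.1 hp).2]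
    exact nc_side_snd h hq
  · rw [nc_port_side h (nc_onw_alive h hp) (nc_mem_onw.1 hq).2]
    exact nc_side_snd h hp

end Geo

/-! ### agreement -/

section AgrSec

variable {x y : XX G} {e p q : V × V}

theorem nc_Agr_symm (h : Agr G e x y) : Agr G e y x :=
  ⟨fun v hv => (h.1 v hv).symm, fun d i hd => (h.2 d i hd).symm⟩

theorem nc_Agr_onw (hT : G.IsTree) (h : WF0 G x.1) (he : alive x.1 e.swap) (hp : p ∈ onw x.1 e)
    (ha : Agr G e.swap x y) : Agr G p.swap x y :=
  ⟨fun v hv => ha.1 v (nc_head_sub hT h he hp hv),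
    fun d i hd => ha.2 d i (nc_head_sub hT h he hp hd)⟩

theorem nc_Agr_onw' (hT : G.IsTree) (h : WF0 G x.1) (hp : p ∈ onw x.1 e) (hq : q ∈ onw x.1 e)
    (hne : q ≠ p) (ha : Agr G p x y) : Agr G q.swap x y :=
  ⟨fun v hv => ha.1 v (nc_head_sub' hT h hp hq hne hv),
    fun d i hd => ha.2 d i (nc_head_sub' hT h hp hq hne hd)⟩

theorem nc_lab_agr (ha : Agr G e x y) (i : Fin 3) {d : V × V} (hd : side G e d.1) :
    lab x.2 i d = lab y.2 i d := by
  unfold lab
  split_ifs with h
  · exact ha.2 ⟨d, h⟩ i hd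
  · rfl

theorem nc_OO_agr (hT : G.IsTree) (δ : ℝ) (hx : WF0 G x.1) (hy : WF0 G y.1) (hxa : alive x.1 e)
    (hya : alive y.1 e) (ha : Agr G e x y) {d : V × V} (hd : side G e d.1) :
    d ∈ OO δ x ↔ d ∈ OO δ y :=
  rule_local hT hx hy hxa hya ha.1
    (fun _ hd => ⟨nc_lab_agr ha 0 hd, nc_lab_agr ha 2 hd⟩) d hd

theorem nc_eq_snd (he : G.Adj e.1 e.2) (ha : Agr G e.swap x y) : x.1 e.2 = y.1 e.2 :=
  ha.1 e.2 (side_fst (p := e.swap) he.symm)

theorem nc_onw_eq (he : G.Adj e.1 e.2) (ha : Agr G e.swap x y) : onw x.1 e = onw y.1 e := by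
  unfold onw; rw [nc_eq_snd he ha]

theorem nc_side_port (h : WF0 G x.1) (hea : alive x.1 e.swap) {q : V × V}
    (hq : q ∈ (x.1 e.2).ports) : side G e.swap q.1 := by
  rw [nc_port_side h hea hq]
  exact side_fst (p := e.swap) (nc_adj h hea)

end AgrSec

/-! ### measurability -/

section Meas

variable {X : Type} [MeasurableSpace X]

theorem nc_meas_obs [Countable V] {s : X → St V} (hs : Measurable s) (v : V) {B : Type}
    [MeasurableSpace B] (F : Finset (V × V) → Finset (V × V) → B) :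
    Measurable (fun x => F (s x v).ports (s x v).spec) := by
  let _ : MeasurableSpace (Finset (V × V) × Finset (V × V)) := ⊤
  have h : Measurable (fun x => ((s x v).ports, (s x v).spec)) := by
    apply measurable_to_countable'
    rintro ⟨P, S⟩
    have : (fun x => ((s x v).ports, (s x v).spec)) ⁻¹' {(P, S)}
        = {x | (s x v).ports = P} ∩ {x | (s x v).spec = S} := by
      ext x; simp
    rw [this]
    exact (meas_ports hs v (fun Q => Q = P)).inter (meas_spec hs v (fun Q => Q = S))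
  exact (measurable_from_top (f := fun q : Finset (V × V) × Finset (V × V) => F q.1 q.2)).comp h

theorem nc_meas_ind {P : X → Prop} (h : MeasurableSet {x | P x}) :
    Measurable (fun x => ind (P x)) := by
  unfold ind
  exact Measurable.ite h measurable_const measurable_const

theorem nc_meas_sum {ι : Type} [Countable ι] {S : X → Finset ι}
    (hS : ∀ p, MeasurableSet {x | p ∈ S x}) {h : X → ι → ℝ≥0∞}
    (hh : ∀ p, Measurable (fun x => h x p)) : Measurable (fun x => ∑ p ∈ S x, h x p) := by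
  have h1 : (fun x => ∑ p ∈ S x, h x p) = fun x => ∑' p, ind (p ∈ S x) * h x p := by
    funext x
    rw [tsum_eq_sum (s := S x)]
    · exact Finset.sum_congr rfl fun p hp => by simp [ind, hp]
    · intro p hp; simp [ind, hp]
  rw [h1]
  exact Measurable.tsum fun p => (nc_meas_ind (hS p)).mul (hh p)

theorem nc_meas_onw [Countable V] (e p : V × V) : MeasurableSet {x : XX G | p ∈ onw x.1 e} :=
  meas_ports (s := fun x : XX G => x.1) measurable_fst e.2 (fun P => p ∈ P.erase e.swap)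

theorem nc_meas_sum_onw [Countable V] (e : V × V) {h : XX G → V × V → ℝ≥0∞}
    (hh : ∀ p, Measurable (fun x => h x p)) :
    Measurable (fun x : XX G => ∑ p ∈ onw x.1 e, h x p) :=
  nc_meas_sum (fun p => nc_meas_onw e p) hh

theorem nc_meas_sum_onw_erase [Countable V] (e p : V × V) {h : XX G → V × V → ℝ≥0∞}
    (hh : ∀ p, Measurable (fun x => h x p)) :
    Measurable (fun x : XX G => ∑ q ∈ (onw x.1 e).erase p, h x q) := by
  refine nc_meas_sum (fun q => ?_) hh
  exact meas_ports (s := fun x : XX G => x.1) measurable_fst e.2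
    (fun P => q ∈ (P.erase e.swap).erase p)

end Meas

/-! ### equivariance -/

section Equ

theorem nc_onw_map (φ : V ≃ V) (σ : St V) (e : V × V) :
    onw (St.map φ σ) (mp φ e) = (onw σ e).image (mp φ) := by
  unfold onw
  rw [map_snd, mp_swap, Loc.map_ports]
  exact mF_erase φ _ _

theorem nc_mem_onw_map (φ : V ≃ V) (σ : St V) (e p : V × V) :
    mp φ p ∈ onw (St.map φ σ) (mp φ e) ↔ p ∈ onw σ e := by
  rw [nc_onw_map]
  exact mem_mF φ _ _

theorem nc_sum_onw_map (φ : V ≃ V) (σ : St V) (e : V × V) (h : V × V → ℝ≥0∞) :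
    ∑ p ∈ onw (St.map φ σ) (mp φ e), h p = ∑ p ∈ onw σ e, h (mp φ p) := by
  rw [nc_onw_map, Finset.sum_image]
  intro a _ b _ hab
  exact mp_inj φ hab

theorem nc_sum_onw_erase_map (φ : V ≃ V) (σ : St V) (e p : V × V) (h : V × V → ℝ≥0∞) :
    ∑ q ∈ (onw (St.map φ σ) (mp φ e)).erase (mp φ p), h q
      = ∑ q ∈ (onw σ e).erase p, h (mp φ q) := by
  rw [nc_onw_map]
  have : ((onw σ e).image (mp φ)).erase (mp φ p) = ((onw σ e).erase p).image (mp φ) :=
    mF_erase φ _ _
  rw [this, Finset.sum_image]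
  intro a _ b _ hab
  exact mp_inj φ hab

theorem nc_OO_map (φ : G ≃g G) (δ : ℝ) (x : XX G) (d : V × V) :
    mp φ.toEquiv d ∈ OO δ (XX.map φ x) ↔ d ∈ OO δ x := by
  rw [OO_map, mem_mO]

end Equ

/-! ### closure lemmas -/

theorem Hd_const (c : ℝ≥0∞) : Hd (G := G) (fun _ _ => c) where
  meas _ := measurable_const
  loc _ _ _ _ _ _ _ _ _ := rfl
  equ _ _ _ := rfl

theorem Hd.add {f g : XX G → V × V → ℝ≥0∞} (hf : Hd f) (hg : Hd g) :
    Hd (fun x e => f x e + g x e) where
  meas e := (hf.meas e).add (hg.meas e)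
  loc e he x y hx hy hxa hya ha := by
    have h1 := hf.loc e he x y hx hy hxa hya ha
    have h2 := hg.loc e he x y hx hy hxa hya ha
    simp only at h1 h2 ⊢
    rw [h1, h2]
  equ φ x e := by simp only [hf.equ φ x e, hg.equ φ x e]

theorem Hd.mul {f g : XX G → V × V → ℝ≥0∞} (hf : Hd f) (hg : Hd g) :
    Hd (fun x e => f x e * g x e) where
  meas e := (hf.meas e).mul (hg.meas e)
  loc e he x y hx hy hxa hya ha := by
    have h1 := hf.loc e he x y hx hy hxa hya ha
    have h2 := hg.loc e he x y hx hy hxa hya ha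
    simp only at h1 h2 ⊢
    rw [h1, h2]
  equ φ x e := by simp only [hf.equ φ x e, hg.equ φ x e]

theorem nc_ind_congr {P Q : Prop} (h : P ↔ Q) : ind P = ind Q := by
  unfold ind; simp only [h]

theorem HP.ind {P : XX G → V × V → Prop} (hP : HP P) : Hd (fun x e => ind (P x e)) where
  meas e := nc_meas_ind (hP.meas e)
  loc e he x y hx hy hxa hya ha := nc_ind_congr (hP.loc e he x y hx hy hxa hya ha)
  equ φ x e := nc_ind_congr (hP.equ φ x e)

theorem HP.and {P Q : XX G → V × V → Prop} (hP : HP P) (hQ : HP Q) :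
    HP (fun x e => P x e ∧ Q x e) where
  meas e := (hP.meas e).inter (hQ.meas e)
  loc e he x y hx hy hxa hya ha :=
    and_congr (hP.loc e he x y hx hy hxa hya ha) (hQ.loc e he x y hx hy hxa hya ha)
  equ φ x e := and_congr (hP.equ φ x e) (hQ.equ φ x e)

theorem HP.or {P Q : XX G → V × V → Prop} (hP : HP P) (hQ : HP Q) :
    HP (fun x e => P x e ∨ Q x e) where
  meas e := (hP.meas e).union (hQ.meas e)
  loc e he x y hx hy hxa hya ha :=
    or_congr (hP.loc e he x y hx hy hxa hya ha) (hQ.loc e he x y hx hy hxa hya ha)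
  equ φ x e := or_congr (hP.equ φ x e) (hQ.equ φ x e)

theorem HP.not {P : XX G → V × V → Prop} (hP : HP P) : HP (fun x e => ¬ P x e) where
  meas e := (hP.meas e).compl
  loc e he x y hx hy hxa hya ha := not_congr (hP.loc e he x y hx hy hxa hya ha)
  equ φ x e := not_congr (hP.equ φ x e)

theorem nc_F_map {B : Type} (F : Finset (V × V) → Finset (V × V) → B) (φ : G ≃g G) (x : XX G)
    (e : V × V) : F ((XX.map φ x).1 (mp φ.toEquiv e).2).ports
      ((XX.map φ x).1 (mp φ.toEquiv e).2).spec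
    = F ((x.1 e.2).ports.image (mp φ.toEquiv)) ((x.1 e.2).spec.image (mp φ.toEquiv)) := by
  have h : (XX.map φ x).1 (mp φ.toEquiv e).2 = Loc.map φ.toEquiv (x.1 e.2) :=
    map_snd φ.toEquiv x.1 e
  rw [h]
  rfl

/-- observables of the ports and flips of the head comp -/
theorem Hd_F [Countable V] (F : Finset (V × V) → Finset (V × V) → ℝ≥0∞)
    (hF : ∀ (φ : V ≃ V) P S, F (P.image (mp φ)) (S.image (mp φ)) = F P S) :
    Hd (G := G) (fun x e => F (x.1 e.2).ports (x.1 e.2).spec) where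
  meas e := nc_meas_obs (s := fun x : XX G => x.1) measurable_fst e.2 F
  loc e he x y hx hy hxa hya ha := by
    simp only [nc_eq_snd he ha]
  equ φ x e := by
    simp only [nc_F_map, hF]

theorem HP_F [Countable V] (F : Finset (V × V) → Finset (V × V) → Prop)
    (hF : ∀ (φ : V ≃ V) P S, F (P.image (mp φ)) (S.image (mp φ)) ↔ F P S) :
    HP (G := G) (fun x e => F (x.1 e.2).ports (x.1 e.2).spec) where
  meas e := measurableSet_setOfPred.2
    (nc_meas_obs (s := fun x : XX G => x.1) measurable_fst e.2 F)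
  loc e he x y hx hy hxa hya ha := by
    rw [nc_eq_snd he ha]
  equ φ x e := by
    rw [nc_F_map F, hF]

theorem Hd_sum [Countable V] (hT : G.IsTree) {f : XX G → V × V → V × V → ℝ≥0∞} (hf : Md f)
    {g : XX G → V × V → ℝ≥0∞} (hg : Hd g) :
    Hd (fun x e => ∑ p ∈ onw x.1 e, f x e p * g x p) where
  meas e := nc_meas_sum_onw e fun p => (hf.meas e p).mul (hg.meas p)
  loc e he x y hx hy hxa hya ha := by
    simp only
    rw [← nc_onw_eq he ha]
    refine Finset.sum_congr rfl fun p hp => ?_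
    have hp' : p ∈ onw y.1 e := by rw [← nc_onw_eq he ha]; exact hp
    have h1 := hf.loc e p he x y hx hy hxa hya hp ha
    have h2 := hg.loc p (nc_onw_adj hx hp) x y hx hy (nc_alive_swap hx (nc_onw_alive hx hp))
      (nc_alive_swap hy (nc_onw_alive hy hp')) (nc_Agr_onw hT hx hxa hp ha)
    simp only at h2
    rw [h1, h2]
  equ φ x e := by
    have h := nc_sum_onw_map φ.toEquiv x.1 e
      (fun p => f (XX.map φ x) (mp φ.toEquiv e) p * g (XX.map φ x) p)
    refine h.trans (Finset.sum_congr rfl fun p _ => ?_)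
    rw [hf.equ, hg.equ]

theorem Hd_iSup {g : ℕ → XX G → V × V → ℝ≥0∞} (hg : ∀ j, Hd (g j)) :
    Hd (fun x e => ⨆ j, g j x e) where
  meas e := Measurable.iSup fun j => (hg j).meas e
  loc e he x y hx hy hxa hya ha := iSup_congr fun j => (hg j).loc e he x y hx hy hxa hya ha
  equ φ x e := iSup_congr fun j => (hg j).equ φ x e

theorem Md_const (c : ℝ≥0∞) : Md (G := G) (fun _ _ _ => c) where
  meas _ _ := measurable_const
  loc _ _ _ _ _ _ _ _ _ _ _ := rfl
  equ _ _ _ _ := rfl

theorem Md.add {f g : XX G → V × V → V × V → ℝ≥0∞} (hf : Md f) (hg : Md g) :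
    Md (fun x e p => f x e p + g x e p) where
  meas e p := (hf.meas e p).add (hg.meas e p)
  loc e p he x y hx hy hxa hya hp ha := by
    rw [hf.loc e p he x y hx hy hxa hya hp ha, hg.loc e p he x y hx hy hxa hya hp ha]
  equ φ x e p := by rw [hf.equ, hg.equ]

theorem Md.mul {f g : XX G → V × V → V × V → ℝ≥0∞} (hf : Md f) (hg : Md g) :
    Md (fun x e p => f x e p * g x e p) where
  meas e p := (hf.meas e p).mul (hg.meas e p)
  loc e p he x y hx hy hxa hya hp ha := by
    rw [hf.loc e p he x y hx hy hxa hya hp ha, hg.loc e p he x y hx hy hxa hya hp ha]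
  equ φ x e p := by rw [hf.equ, hg.equ]

theorem Hd.Md_fst {g : XX G → V × V → ℝ≥0∞} (hg : Hd g) : Md (fun x e _ => g x e) where
  meas e _ := hg.meas e
  loc e p he x y hx hy hxa hya hp ha := hg.loc e he x y hx hy hxa hya ha
  equ φ x e _ := hg.equ φ x e

theorem Hd.Md_snd (hT : G.IsTree) {g : XX G → V × V → ℝ≥0∞} (hg : Hd g) :
    Md (fun x _ p => g x p) where
  meas _ p := hg.meas p
  loc e p he x y hx hy hxa hya hp ha := by
    have hp' : p ∈ onw y.1 e := by rw [← nc_onw_eq he ha]; exact hp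
    exact hg.loc p (nc_onw_adj hx hp) x y hx hy (nc_alive_swap hx (nc_onw_alive hx hp))
      (nc_alive_swap hy (nc_onw_alive hy hp')) (nc_Agr_onw hT hx hxa hp ha)
  equ φ x _ p := hg.equ φ x p

/-- nice predicates of `(e, p)` -/
structure MdP (P : XX G → V × V → V × V → Prop) : Prop where
  meas : ∀ e p, MeasurableSet {x | P x e p}
  loc : ∀ e p : V × V, G.Adj e.1 e.2 → ∀ x y : XX G, WF0 G x.1 → WF0 G y.1 →
    alive x.1 e.swap → alive y.1 e.swap → p ∈ onw x.1 e → Agr G e.swap x y → (P x e p ↔ P y e p)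
  equ : ∀ (φ : G ≃g G) (x : XX G) (e p : V × V),
    P (XX.map φ x) (mp φ.toEquiv e) (mp φ.toEquiv p) ↔ P x e p

theorem MdP.ind {P : XX G → V × V → V × V → Prop} (hP : MdP P) :
    Md (fun x e p => ind (P x e p)) where
  meas e p := nc_meas_ind (hP.meas e p)
  loc e p he x y hx hy hxa hya hp ha := nc_ind_congr (hP.loc e p he x y hx hy hxa hya hp ha)
  equ φ x e p := nc_ind_congr (hP.equ φ x e p)

theorem MdP.and {P Q : XX G → V × V → V × V → Prop} (hP : MdP P) (hQ : MdP Q) :
    MdP (fun x e p => P x e p ∧ Q x e p) where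
  meas e p := (hP.meas e p).inter (hQ.meas e p)
  loc e p he x y hx hy hxa hya hp ha :=
    and_congr (hP.loc e p he x y hx hy hxa hya hp ha) (hQ.loc e p he x y hx hy hxa hya hp ha)
  equ φ x e p := and_congr (hP.equ φ x e p) (hQ.equ φ x e p)

theorem MdP.or {P Q : XX G → V × V → V × V → Prop} (hP : MdP P) (hQ : MdP Q) :
    MdP (fun x e p => P x e p ∨ Q x e p) where
  meas e p := (hP.meas e p).union (hQ.meas e p)
  loc e p he x y hx hy hxa hya hp ha :=
    or_congr (hP.loc e p he x y hx hy hxa hya hp ha) (hQ.loc e p he x y hx hy hxa hya hp ha)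
  equ φ x e p := or_congr (hP.equ φ x e p) (hQ.equ φ x e p)

theorem MdP.not {P : XX G → V × V → V × V → Prop} (hP : MdP P) :
    MdP (fun x e p => ¬ P x e p) where
  meas e p := (hP.meas e p).compl
  loc e p he x y hx hy hxa hya hp ha := not_congr (hP.loc e p he x y hx hy hxa hya hp ha)
  equ φ x e p := not_congr (hP.equ φ x e p)

theorem HP.MdP_fst {P : XX G → V × V → Prop} (hP : HP P) : MdP (fun x e _ => P x e) where
  meas e _ := hP.meas e
  loc e p he x y hx hy hxa hya hp ha := hP.loc e he x y hx hy hxa hya ha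
  equ φ x e _ := hP.equ φ x e

theorem HP.MdP_snd (hT : G.IsTree) {P : XX G → V × V → Prop} (hP : HP P) :
    MdP (fun x _ p => P x p) where
  meas _ p := hP.meas p
  loc e p he x y hx hy hxa hya hp ha := by
    have hp' : p ∈ onw y.1 e := by rw [← nc_onw_eq he ha]; exact hp
    exact hP.loc p (nc_onw_adj hx hp) x y hx hy (nc_alive_swap hx (nc_onw_alive hx hp))
      (nc_alive_swap hy (nc_onw_alive hy hp')) (nc_Agr_onw hT hx hxa hp ha)
  equ φ x _ p := hP.equ φ x p

theorem MdP_prop [Countable V] (hT : G.IsTree) (δ : ℝ) :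
    MdP (G := G) (fun x _ p => p ∈ OO δ x) where
  meas _ p := meas_OO δ p
  loc e p he x y hx hy hxa hya hp ha :=
    nc_OO_agr hT δ hx hy hxa hya ha (nc_side_port hx hxa (nc_mem_onw.1 hp).2)
  equ φ x _ p := nc_OO_map φ δ x p

theorem MdP_spec [Countable V] : MdP (G := G) (fun x e p => p ∈ (x.1 e.2).spec) where
  meas e p := meas_spec (s := fun x : XX G => x.1) measurable_fst e.2 (fun P => p ∈ P)
  loc e p he x y hx hy hxa hya hp ha := by rw [nc_eq_snd he ha]
  equ φ x e p := by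
    have h : (XX.map φ x).1 (mp φ.toEquiv e).2 = Loc.map φ.toEquiv (x.1 e.2) :=
      map_snd φ.toEquiv x.1 e
    rw [h]
    exact mem_mF φ.toEquiv _ _

theorem Md_prop [Countable V] (hT : G.IsTree) (δ : ℝ) :
    Md (G := G) (fun x _ p => ind (p ∈ OO δ x)) := (MdP_prop hT δ).ind

theorem Md_nprop [Countable V] (hT : G.IsTree) (δ : ℝ) :
    Md (G := G) (fun x _ p => ind (p ∉ OO δ x)) := (MdP_prop hT δ).not.ind

theorem Md_spec [Countable V] : Md (G := G) (fun x e p => ind (p ∈ (x.1 e.2).spec)) :=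
  MdP_spec.ind

theorem Md_erase [Countable V] (hT : G.IsTree) {f : XX G → V × V → V × V → ℝ≥0∞} (hf : Md f)
    {g : XX G → V × V → ℝ≥0∞} (hg : Hd g) :
    Md (fun x e p => ∑ q ∈ (onw x.1 e).erase p, f x e q * g x q) where
  meas e p := nc_meas_sum_onw_erase e p fun q => (hf.meas e q).mul (hg.meas q)
  loc e p he x y hx hy hxa hya hp ha := by
    rw [← nc_onw_eq he ha]
    refine Finset.sum_congr rfl fun q hq => ?_
    have hq := Finset.mem_of_mem_erase hq
    have hq' : q ∈ onw y.1 e := by rw [← nc_onw_eq he ha]; exact hq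
    have h1 := hf.loc e q he x y hx hy hxa hya hq ha
    have h2 := hg.loc q (nc_onw_adj hx hq) x y hx hy (nc_alive_swap hx (nc_onw_alive hx hq))
      (nc_alive_swap hy (nc_onw_alive hy hq')) (nc_Agr_onw hT hx hxa hq ha)
    simp only at h2
    rw [h1, h2]
  equ φ x e p := by
    have h := nc_sum_onw_erase_map φ.toEquiv x.1 e p
      (fun q => f (XX.map φ x) (mp φ.toEquiv e) q * g (XX.map φ x) q)
    refine h.trans (Finset.sum_congr rfl fun q _ => ?_)
    rw [hf.equ, hg.equ]

theorem Tl_const (c : ℝ≥0∞) : Tl (G := G) (fun _ _ _ => c) where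
  meas _ _ := measurable_const
  loc _ _ _ _ _ _ _ _ _ _ _ _ := rfl

theorem Tl.add {f g : XX G → V × V → V × V → ℝ≥0∞} (hf : Tl f) (hg : Tl g) :
    Tl (fun x e p => f x e p + g x e p) where
  meas e p := (hf.meas e p).add (hg.meas e p)
  loc e p he x y hx hy hxe hye hp hp' ha := by
    rw [hf.loc e p he x y hx hy hxe hye hp hp' ha, hg.loc e p he x y hx hy hxe hye hp hp' ha]

theorem Tl.mul {f g : XX G → V × V → V × V → ℝ≥0∞} (hf : Tl f) (hg : Tl g) :
    Tl (fun x e p => f x e p * g x e p) where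
  meas e p := (hf.meas e p).mul (hg.meas e p)
  loc e p he x y hx hy hxe hye hp hp' ha := by
    rw [hf.loc e p he x y hx hy hxe hye hp hp' ha, hg.loc e p he x y hx hy hxe hye hp hp' ha]

theorem Tl_F [Countable V] (F : Finset (V × V) → Finset (V × V) → V × V → V × V → ℝ≥0∞) :
    Tl (G := G) (fun x e p => F (x.1 e.2).ports (x.1 e.2).spec e p) where
  meas e p := nc_meas_obs (s := fun x : XX G => x.1) measurable_fst e.2 (fun P S => F P S e p)
  loc e p he x y hx hy hxe hye hp hp' ha := by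
    rw [ha.1 e.2 (nc_side_snd hx hp)]

theorem Tl_prop [Countable V] (hT : G.IsTree) (δ : ℝ) :
    Tl (G := G) (fun x _ p => ind (p ∈ OO δ x)) where
  meas e p := nc_meas_ind (meas_OO δ p)
  loc e p he x y hx hy hxe hye hp hp' ha :=
    nc_ind_congr (nc_OO_agr hT δ hx hy (nc_onw_alive hx hp) (nc_onw_alive hy hp') ha
      (side_fst (nc_onw_adj hx hp)))

theorem Tl_nprop [Countable V] (hT : G.IsTree) (δ : ℝ) :
    Tl (G := G) (fun x _ p => ind (p ∉ OO δ x)) where
  meas e p := nc_meas_ind (meas_OO δ p).compl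
  loc e p he x y hx hy hxe hye hp hp' ha :=
    nc_ind_congr (not_congr (nc_OO_agr hT δ hx hy (nc_onw_alive hx hp) (nc_onw_alive hy hp') ha
      (side_fst (nc_onw_adj hx hp))))

theorem Tl_hit [Countable V] (hT : G.IsTree) (δ : ℝ) :
    Tl (G := G) (fun x e _ => ind (e.swap ∈ OO δ x)) where
  meas e p := nc_meas_ind (meas_OO δ e.swap)
  loc e p he x y hx hy hxe hye hp hp' ha :=
    nc_ind_congr (nc_OO_agr hT δ hx hy (nc_onw_alive hx hp) (nc_onw_alive hy hp') ha
      (nc_side_snd hx hp))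

/-- all ports of the head comp of `e` start on the tail side of `p` -/
theorem nc_OO_ports (hT : G.IsTree) (δ : ℝ) {x y : XX G} {e p : V × V} (hx : WF0 G x.1)
    (hy : WF0 G y.1) (hp : p ∈ onw x.1 e) (hp' : p ∈ onw y.1 e) (ha : Agr G p x y) {q : V × V}
    (hq : q ∈ (x.1 e.2).ports) : q ∈ OO δ x ↔ q ∈ OO δ y :=
  nc_OO_agr hT δ hx hy (nc_onw_alive hx hp) (nc_onw_alive hy hp') ha
    ((nc_port_side hx (nc_onw_alive hx hp) hq).2 (nc_side_snd hx hp))

theorem nc_pass_congr {O O' : Set (V × V)} {L : Loc V} (h : ∀ q ∈ L.ports, q ∈ O ↔ q ∈ O') :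
    pass O L ↔ pass O' L := by
  unfold pass
  refine and_congr Iff.rfl (forall_congr' fun q => ?_)
  exact ⟨fun h1 hq hO => h1 hq ((h q hq).2 hO), fun h1 hq hO => h1 hq ((h q hq).1 hO)⟩

theorem nc_allop_congr {O O' : Set (V × V)} {L : Loc V} (h : ∀ q ∈ L.ports, q ∈ O ↔ q ∈ O') :
    allop O L ↔ allop O' L := by
  unfold allop
  refine and_congr Iff.rfl (forall_congr' fun q => ?_)
  exact ⟨fun h1 hq => (h q hq).1 (h1 hq), fun h1 hq => (h q hq).2 (h1 hq)⟩

/-- measurability of `∀ q ∈ ports, P q` -/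
theorem nc_meas_forall [Countable V] (v : V) {P : XX G → V × V → Prop}
    (hP : ∀ q, MeasurableSet {x | P x q}) :
    MeasurableSet {x : XX G | ∀ q ∈ (x.1 v).ports, P x q} := by
  have h : {x : XX G | ∀ q ∈ (x.1 v).ports, P x q}
      = ⋂ q : V × V, ({x : XX G | q ∉ (x.1 v).ports} ∪ {x | P x q}) := by
    ext x
    simp only [Set.mem_ofPred_eq, Set.mem_iInter, Set.mem_union]
    exact forall_congr' fun q => by tauto
  rw [h]
  exact MeasurableSet.iInter fun q =>
    (meas_ports (s := fun x : XX G => x.1) measurable_fst v (fun P => q ∉ P)).union (hP q)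

theorem nc_meas_pass [Countable V] (δ : ℝ) (v : V) :
    MeasurableSet {x : XX G | pass (OO δ x) (x.1 v)} := by
  have h1 : MeasurableSet {x : XX G | passS (x.1 v)} :=
    measurableSet_setOfPred.2 (nc_meas_obs (s := fun x : XX G => x.1) measurable_fst v
      (fun P S => S = ∅ ∧ 3 ≤ P.card ∧ P.card ≤ 7))
  exact h1.inter (nc_meas_forall v fun q => (meas_OO δ q).compl)

theorem nc_meas_allop [Countable V] (δ : ℝ) (v : V) :
    MeasurableSet {x : XX G | allop (OO δ x) (x.1 v)} := by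
  have h1 : MeasurableSet {x : XX G | 3 ≤ (ordp (x.1 v)).card} :=
    measurableSet_setOfPred.2 (nc_meas_obs (s := fun x : XX G => x.1) measurable_fst v
      (fun P S => 3 ≤ (P \ S).card))
  exact h1.inter (nc_meas_forall v fun q => meas_OO δ q)

theorem Tl_pass [Countable V] (hT : G.IsTree) (δ : ℝ) :
    Tl (G := G) (fun x e _ => ind (pass (OO δ x) (x.1 e.2))) where
  meas e p := nc_meas_ind (nc_meas_pass δ e.2)
  loc e p he x y hx hy hxe hye hp hp' ha := by
    apply nc_ind_congr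
    rw [← ha.1 e.2 (nc_side_snd hx hp)]
    exact nc_pass_congr fun q hq => nc_OO_ports hT δ hx hy hp hp' ha hq

theorem Tl_allop [Countable V] (hT : G.IsTree) (δ : ℝ) :
    Tl (G := G) (fun x e _ => ind (allop (OO δ x) (x.1 e.2))) where
  meas e p := nc_meas_ind (nc_meas_allop δ e.2)
  loc e p he x y hx hy hxe hye hp hp' ha := by
    apply nc_ind_congr
    rw [← ha.1 e.2 (nc_side_snd hx hp)]
    exact nc_allop_congr fun q hq => nc_OO_ports hT δ hx hy hp hp' ha hq

/-- other onward ports -/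
theorem Tl_erase [Countable V] (hT : G.IsTree)
    {f : XX G → V × V → V × V → V × V → ℝ≥0∞}
    (hf1 : ∀ e p q, Measurable (fun x => f x e p q))
    (hf2 : ∀ (e p q : V × V) (x y : XX G), WF0 G x.1 → WF0 G y.1 → e.swap ∈ (x.1 e.2).ports →
      e.swap ∈ (y.1 e.2).ports → p ∈ onw x.1 e → p ∈ onw y.1 e → q ∈ onw x.1 e → q ≠ p →
      Agr G p x y → f x e p q = f y e p q)
    {g : XX G → V × V → ℝ≥0∞} (hg : Hd g) :
    Tl (fun x e p => ∑ q ∈ (onw x.1 e).erase p, f x e p q * g x q) where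
  meas e p := nc_meas_sum_onw_erase e p fun q => (hf1 e p q).mul (hg.meas q)
  loc e p he x y hx hy hxe hye hp hp' ha := by
    have hon : onw x.1 e = onw y.1 e := by
      unfold onw; rw [ha.1 e.2 (nc_side_snd hx hp)]
    rw [← hon]
    refine Finset.sum_congr rfl fun q hq => ?_
    have hne := Finset.ne_of_mem_erase hq
    have hq := Finset.mem_of_mem_erase hq
    have hq' : q ∈ onw y.1 e := by rw [← hon]; exact hq
    have h1 := hf2 e p q x y hx hy hxe hye hp hp' hq hne ha
    have h2 := hg.loc q (nc_onw_adj hx hq) x y hx hy (nc_alive_swap hx (nc_onw_alive hx hq))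
      (nc_alive_swap hy (nc_onw_alive hy hq')) (nc_Agr_onw' hT hx hp hq hne ha)
    simp only at h2
    rw [h1, h2]

/-! ### the list -/

theorem HP_hit [Countable V] (hT : G.IsTree) (δ : ℝ) :
    HP (G := G) (fun x e => e.swap ∈ OO δ x) where
  meas e := meas_OO δ e.swap
  loc e he x y hx hy hxa hya ha :=
    nc_OO_agr hT δ hx hy hxa hya ha (side_fst (p := e.swap) he.symm)
  equ φ x e := by
    have := nc_OO_map φ δ x e.swap
    rwa [← mp_swap] at this

theorem HP_pass [Countable V] (hT : G.IsTree) (δ : ℝ) :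
    HP (G := G) (fun x e => pass (OO δ x) (x.1 e.2)) where
  meas e := nc_meas_pass δ e.2
  loc e he x y hx hy hxa hya ha := by
    rw [← nc_eq_snd he ha]
    exact nc_pass_congr fun q hq => nc_OO_agr hT δ hx hy hxa hya ha (nc_side_port hx hxa hq)
  equ φ x e := by
    have h : (XX.map φ x).1 (mp φ.toEquiv e).2 = Loc.map φ.toEquiv (x.1 e.2) :=
      map_snd φ.toEquiv x.1 e
    rw [h]
    unfold pass passS
    rw [Loc.map_ports, Loc.map_spec, card_mF]
    refine and_congr (and_congr ?_ Iff.rfl) ?_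
    · exact Finset.image_eq_empty
    · constructor
      · intro h1 q hq hO
        exact h1 (mp φ.toEquiv q) ((mem_mF _ _ _).2 hq) ((nc_OO_map φ δ x q).2 hO)
      · intro h1 q hq hO
        have e1 : mp φ.toEquiv (mp φ.toEquiv.symm q) = q := mp_mp_symm _ _
        rw [← e1] at hq hO
        exact h1 _ ((mem_mF _ _ _).1 hq) ((nc_OO_map φ δ x _).1 hO)

theorem HP_allop [Countable V] (hT : G.IsTree) (δ : ℝ) :
    HP (G := G) (fun x e => allop (OO δ x) (x.1 e.2)) where
  meas e := nc_meas_allop δ e.2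
  loc e he x y hx hy hxa hya ha := by
    rw [← nc_eq_snd he ha]
    exact nc_allop_congr fun q hq => nc_OO_agr hT δ hx hy hxa hya ha (nc_side_port hx hxa hq)
  equ φ x e := by
    have h : (XX.map φ x).1 (mp φ.toEquiv e).2 = Loc.map φ.toEquiv (x.1 e.2) :=
      map_snd φ.toEquiv x.1 e
    rw [h]
    unfold allop
    rw [ordp_map, Loc.map_ports, card_mF]
    refine and_congr Iff.rfl ?_
    constructor
    · intro h1 q hq
      exact (nc_OO_map φ δ x q).1 (h1 (mp φ.toEquiv q) ((mem_mF _ _ _).2 hq))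
    · intro h1 q hq
      have e1 : mp φ.toEquiv (mp φ.toEquiv.symm q) = q := mp_mp_symm _ _
      rw [← e1] at hq ⊢
      exact (nc_OO_map φ δ x _).2 (h1 _ ((mem_mF _ _ _).1 hq))

theorem MdP_opd [Countable V] (hT : G.IsTree) (δ : ℝ) :
    MdP (G := G) (fun x _ p => opd (OO δ x) p) :=
  (MdP_prop hT δ).or ((HP_hit hT δ).MdP_snd hT)

theorem Hd_bu [Countable V] (hT : G.IsTree) (δ : ℝ) :
    Hd (G := G) (fun x e => ((bu (OO δ x) x.1 e).card : ℝ≥0∞)) := by
  have h := Hd_sum hT (MdP_opd hT δ).not.ind (Hd_const (G := G) 1)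
  have e1 : (fun (x : XX G) (e : V × V) => ((bu (OO δ x) x.1 e).card : ℝ≥0∞))
      = fun x e => ∑ p ∈ onw x.1 e, ind (¬ opd (OO δ x) p) * 1 := by
    funext x e
    unfold bu
    rw [Finset.card_filter]
    push_cast
    exact Finset.sum_congr rfl fun p _ => by by_cases hp : opd (OO δ x) p <;> simp [ind, hp]
  rw [e1]
  exact h

theorem HP_of_Hd {f : XX G → V × V → ℕ} (hf : Hd (fun x e => ((f x e : ℕ) : ℝ≥0∞)))
    (F : ℕ → Prop) : HP (fun x e => F (f x e)) where
  meas e := by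
    have h : {x | F (f x e)} = (fun x => ((f x e : ℕ) : ℝ≥0∞)) ⁻¹' ((fun n : ℕ => (n : ℝ≥0∞)) '' {n | F n}) := by
      ext x
      simp only [Set.mem_ofPred_eq, Set.mem_preimage, Set.mem_image, Nat.cast_inj, exists_eq_right]
    rw [h]
    exact (hf.meas e) (Set.Countable.measurableSet ((Set.to_countable _).image _))
  loc e he x y hx hy hxa hya ha := by
    have h := hf.loc e he x y hx hy hxa hya ha
    simp only [Nat.cast_inj] at h
    rw [h]
  equ φ x e := by
    have h := hf.equ φ x e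
    simp only [Nat.cast_inj] at h
    rw [h]

theorem HP_bu [Countable V] (hT : G.IsTree) (δ : ℝ) (F : ℕ → Prop) :
    HP (G := G) (fun x e => F (bu (OO δ x) x.1 e).card) := HP_of_Hd (Hd_bu hT δ) F

theorem HP_swap_spec [Countable V] : HP (G := G) (fun x e => e.swap ∈ (x.1 e.2).spec) where
  meas e := meas_spec (s := fun x : XX G => x.1) measurable_fst e.2 (fun P => e.swap ∈ P)
  loc e he x y hx hy hxa hya ha := by rw [nc_eq_snd he ha]
  equ φ x e := by
    have h : (XX.map φ x).1 (mp φ.toEquiv e).2 = Loc.map φ.toEquiv (x.1 e.2) :=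
      map_snd φ.toEquiv x.1 e
    rw [h, mp_swap]
    exact mem_mF φ.toEquiv _ _

theorem HP_tr [Countable V] (hT : G.IsTree) (δ : ℝ) :
    HP (G := G) (fun x e => tr (OO δ x) x.1 e) :=
  HP_swap_spec.or (HP_bu hT δ (fun n => n ≤ 1))

theorem MdP_hp [Countable V] (hT : G.IsTree) (δ : ℝ) :
    MdP (G := G) (fun x e p => hp (OO δ x) x.1 e p) :=
  (MdP_opd hT δ).and (MdP_spec.or ((HP_bu hT δ (fun n => n ≤ 1)).MdP_fst.or
    ((HP_tr hT δ).MdP_snd hT)))

theorem Hd_Nn [Countable V] (hT : G.IsTree) (δ : ℝ) (j : ℕ) :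
    Hd (G := G) (fun x e => Nn (OO δ x) x.1 j e) := by
  induction j with
  | zero => exact Hd_const 1
  | succ j ih => exact (Hd_const 1).add (Hd_sum hT (MdP_hp hT δ).ind ih)

theorem Hd_NN [Countable V] (hT : G.IsTree) (δ : ℝ) :
    Hd (G := G) (fun x e => NN (OO δ x) x.1 e) := Hd_iSup fun j => Hd_Nn hT δ j

theorem Hd_Cn [Countable V] (hT : G.IsTree) (δ : ℝ) (j : ℕ) :
    Hd (G := G) (fun x e => Cn (OO δ x) x.1 j e) := by
  induction j with
  | zero => exact Hd_const 0
  | succ j ih => exact (HP_bu hT δ (fun n => n = 1)).ind.add (Hd_sum hT (MdP_opd hT δ).ind ih)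

theorem Hd_CC [Countable V] (hT : G.IsTree) (δ : ℝ) :
    Hd (G := G) (fun x e => CC (OO δ x) x.1 e) := Hd_iSup fun j => Hd_Cn hT δ j

/-- sums over onward ports without weight -/
theorem Hd_sum1 [Countable V] (hT : G.IsTree) {f : XX G → V × V → V × V → ℝ≥0∞} (hf : Md f) :
    Hd (fun x e => ∑ p ∈ onw x.1 e, f x e p) := by
  simpa only [mul_one] using Hd_sum hT hf (Hd_const (G := G) 1)

theorem Hd_zb [Countable V] (hT : G.IsTree) (δ : ℝ) :
    Hd (G := G) (fun x e => zb (OO δ x) x.1 e) :=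
  (HP_pass hT δ).not.ind.add ((HP_pass hT δ).ind.mul (Hd_sum1 hT ((HP_hit hT δ).ind.Md_snd hT)))

theorem Hd_hit2 [Countable V] (hT : G.IsTree) (δ : ℝ) :
    Hd (G := G) (fun x e => hit2 (OO δ x) x.1 e) := by
  have h1 := Md_erase hT (Md_const (G := G) 1) (HP_hit hT δ).ind
  have h2 := Hd_sum hT h1 (HP_hit hT δ).ind
  have e1 : (fun (x : XX G) (e : V × V) => hit2 (OO δ x) x.1 e)
      = fun x e => ∑ p ∈ onw x.1 e, (∑ q ∈ (onw x.1 e).erase p, 1 * ind (q.swap ∈ OO δ x))
        * ind (p.swap ∈ OO δ x) := by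
    funext x e
    unfold hit2
    refine Finset.sum_congr rfl fun p _ => ?_
    rw [Finset.sum_mul]
    refine Finset.sum_congr rfl fun q _ => ?_
    rw [one_mul, mul_comm]
  rw [e1]
  exact h2

theorem nc_image_eq_empty (φ : V ≃ V) (S : Finset (V × V)) : S.image (mp φ) = ∅ ↔ S = ∅ :=
  Finset.image_eq_empty

theorem nc_card_image (φ : V ≃ V) (S : Finset (V × V)) : (S.image (mp φ)).card = S.card :=
  card_mF φ S

theorem HP_spec_ne [Countable V] : HP (G := G) (fun x e => (x.1 e.2).spec ≠ ∅) :=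
  HP_F (fun _ S => S ≠ ∅) fun φ P S => not_congr (nc_image_eq_empty φ S)

theorem HP_wire [Countable V] : HP (G := G) (fun x e => wire (x.1 e.2)) :=
  HP_F (fun P S => S = ∅ ∧ P.card = 2) fun φ P S => by
    rw [nc_image_eq_empty, nc_card_image]

theorem HP_big [Countable V] : HP (G := G) (fun x e => big (x.1 e.2)) :=
  HP_F (fun P S => S = ∅ ∧ 8 ≤ P.card) fun φ P S => by
    rw [nc_image_eq_empty, nc_card_image]

theorem HP_passS [Countable V] : HP (G := G) (fun x e => passS (x.1 e.2)) :=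
  HP_F (fun P S => S = ∅ ∧ 3 ≤ P.card ∧ P.card ≤ 7) fun φ P S => by
    rw [nc_image_eq_empty, nc_card_image]

theorem HP_thr [Countable V] : HP (G := G) (fun x e => thr (x.1 e.2)) :=
  HP_F (fun P S => (S = ∅ ∧ 3 ≤ P.card ∧ P.card ≤ 7) ∧ P.card = 3) fun φ P S => by
    rw [nc_image_eq_empty, nc_card_image]

theorem Hd_BadP [Countable V] (hT : G.IsTree) (δ : ℝ) :
    Hd (G := G) (fun x e => BadP (OO δ x) x.1 e) := by
  have h1 := Hd_hit2 (G := G) hT δ
  have h2 : Hd (G := G) (fun x e => ∑ p ∈ onw x.1 e,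
      ind (p.swap ∈ OO δ x ∧ (x.1 p.2).spec ≠ ∅)) :=
    Hd_sum1 hT (((HP_hit hT δ).and HP_spec_ne).ind.Md_snd hT)
  have h3 : Hd (G := G) (fun x e => ∑ p ∈ onw x.1 e,
      ind (p.swap ∈ OO δ x ∧ allop (OO δ x) (x.1 p.2))) :=
    Hd_sum1 hT (((HP_hit hT δ).and (HP_allop hT δ)).ind.Md_snd hT)
  have h4 : Hd (G := G) (fun x e => ∑ p ∈ onw x.1 e,
      ind (p.swap ∈ OO δ x ∧ big (x.1 p.2) ∧ tr (OO δ x) x.1 p)) :=
    Hd_sum1 hT (((HP_hit hT δ).and (HP_big.and (HP_tr hT δ))).ind.Md_snd hT)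
  have h5 : Hd (G := G) (fun x e => ∑ p ∈ onw x.1 e,
      ind (wire (x.1 p.2)) * ∑ g ∈ onw x.1 p, zb (OO δ x) x.1 g) :=
    Hd_sum hT (HP_wire.ind.Md_snd hT) (Hd_sum1 hT ((Hd_zb hT δ).Md_snd hT))
  exact (((h1.add h2).add h3).add h4).add h5

theorem Hd_BadR [Countable V] (hT : G.IsTree) (δ : ℝ) :
    Hd (G := G) (fun x e => BadR (OO δ x) x.1 e) := by
  have h1 : Hd (G := G) (fun x e => ind ((x.1 e.2).spec ≠ ∅)) := HP_spec_ne.ind
  have h2 : Hd (G := G) (fun x e => ∑ p ∈ onw x.1 e,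
      ind (p ∉ OO δ x) * ind (p.swap ∈ OO δ x)) :=
    Hd_sum hT (Md_nprop hT δ) (HP_hit hT δ).ind
  have h3 : Hd (G := G) (fun x e => ∑ p ∈ onw x.1 e,
      ind (p ∈ OO δ x) * ind (tr (OO δ x) x.1 p)) :=
    Hd_sum hT (Md_prop hT δ) (HP_tr hT δ).ind
  exact (h1.add h2).add h3

theorem Hd_Bad [Countable V] (hT : G.IsTree) (δ : ℝ) :
    Hd (G := G) (fun x e => Bad (OO δ x) x.1 e) :=
  ((HP_pass hT δ).ind.mul (Hd_BadP hT δ)).add
    (((HP_pass hT δ).not.and (HP_hit hT δ).not).ind.mul (Hd_BadR hT δ))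

end Pool.Agent.PM
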