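import Pool.Agent.Lib.MP_947a32_pr.Defs

/-! # MP_947a32_pr, piece RFXA: generic labels and facts on the rule (helper14) -/

set_option autoImplicit false

open Classical MeasureTheory ProbabilityTheory
open scoped ENNReal

namespace Pool.Agent.PM

variable {V : Type} {G : SimpleGraph V}

/-! ### labels are generic -/

theorem rfx_unif_prob : IsProbabilityMeasure unif := by
  refine ⟨?_⟩
  unfold unif
  simp

theorem rfx_lam_prob : IsProbabilityMeasure (lam G) := by
  have := rfx_unif_prob
  unfold lam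
  infer_instance

theorem rfx_unif_singleton (c : ℝ) : unif {c} = 0 := by
  unfold unif
  rw [Measure.restrict_apply (measurableSet_singleton c)]
  refine measure_mono_null Set.inter_subset_left ?_
  exact Real.volume_singleton

theorem rfx_ae_ne (i : Dt G × Fin 3) (c : ℝ) : ∀ᵐ l ∂(lam G), l i ≠ c := by
  have := rfx_unif_prob
  have h := measurePreserving_eval_infinitePi (fun _ : Dt G × Fin 3 => unif) i
  have h1 : (lam G) ((Function.eval i) ⁻¹' {c}) = 0 := by
    unfold lam
    rw [h.measure_preimage (measurableSet_singleton c).nullMeasurableSet]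
    exact rfx_unif_singleton c
  rw [ae_iff]
  refine measure_mono_null ?_ h1
  intro l hl
  simpa using hl

theorem rfx_ae_ne2 {i j : Dt G × Fin 3} (hij : i ≠ j) : ∀ᵐ l ∂(lam G), l i ≠ l j := by
  have := rfx_unif_prob
  have : IsProbabilityMeasure (lam G) := rfx_lam_prob
  have h0 := iIndepFun_infinitePi (P := fun _ : Dt G × Fin 3 => unif)
    (X := fun _ (x : ℝ) => x) (fun _ => measurable_id)
  have h1 : IndepFun (fun l : Lb G => l i) (fun l : Lb G => l j) (lam G) := h0.indepFun hij
  have h2 := (indepFun_iff_map_prod_eq_prod_map_map (measurable_pi_apply i).aemeasurable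
    (measurable_pi_apply j).aemeasurable).1 h1
  have h3 : ∀ k : Dt G × Fin 3, (lam G).map (fun l : Lb G => l k) = unif := fun k =>
    (measurePreserving_eval_infinitePi (fun _ : Dt G × Fin 3 => unif) k).map_eq
  rw [h3, h3] at h2
  have hm : MeasurableSet {z : ℝ × ℝ | z.1 = z.2} := measurableSet_eq_fun measurable_fst measurable_snd
  have h4 : (unif.prod unif) {z : ℝ × ℝ | z.1 = z.2} = 0 := by
    rw [Measure.measure_prod_null hm]
    refine Filter.Eventually.of_forall (fun x => ?_)
    refine measure_mono_null ?_ (rfx_unif_singleton x)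
    intro y hy
    exact hy.symm
  rw [← h2, Measure.map_apply ((measurable_pi_apply i).prodMk (measurable_pi_apply j)) hm] at h4
  rw [ae_iff]
  refine measure_mono_null ?_ h4
  intro l hl
  simpa using hl

theorem rfx_ae_Gen_lam [Countable V] (δ : ℝ) : ∀ᵐ l ∂(lam G), Gen δ l := by
  have h1 : ∀ᵐ l ∂(lam G), ∀ i j : Dt G × Fin 3, i ≠ j → l i ≠ l j := by
    rw [ae_all_iff]
    intro i
    rw [ae_all_iff]
    intro j
    by_cases hij : i = j
    · refine Filter.Eventually.of_forall (fun l h => absurd hij h)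
    · filter_upwards [rfx_ae_ne2 (G := G) hij] with l hl _ using hl
  have h2 : ∀ᵐ l ∂(lam G), ∀ i : Dt G × Fin 3, l i ≠ δ := by
    rw [ae_all_iff]
    exact fun i => rfx_ae_ne i δ
  have h3 : ∀ᵐ l ∂(lam G), ∀ i : Dt G × Fin 3, l i ≠ 1/2 := by
    rw [ae_all_iff]
    exact fun i => rfx_ae_ne i (1/2)
  filter_upwards [h1, h2, h3] with l a1 a2 a3
  refine ⟨fun i j hij => ?_, fun i => ⟨a2 i, a3 i⟩⟩
  by_contra hne
  exact a1 i j hne hij

theorem ae_Gen [Countable V] {μ : Measure (St V)} [SFinite μ] (δ : ℝ) :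
    ∀ᵐ x ∂(μ.prod (lam G)), Gen δ x.2 := by
  have := rfx_unif_prob
  have : IsProbabilityMeasure (lam G) := rfx_lam_prob
  exact Measure.quasiMeasurePreserving_snd.ae (rfx_ae_Gen_lam δ)

theorem TI_of_Gen {δ : ℝ} {l : Lb G} (hl : Gen δ l) (i : Fin 3) : TI G (lab l i) := by
  intro d d' hd hd' h
  unfold lab at h
  rw [dif_pos hd, dif_pos hd'] at h
  have := hl.1 h
  simpa using this

/-! ### ranks -/

/-- among the elements of a finite set, exactly `min #S m` have rank less than `m` -/
theorem rfx_card_rank {α : Type} (S : Finset α) (r : α → ℝ) (hr : Set.InjOn r S) (m : ℕ) :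
    (S.filter (fun d => (S.filter (fun q => r q < r d)).card < m)).card = min S.card m := by
  set rk' : α → ℕ := fun d => (S.filter (fun q => r q < r d)).card with hrk
  have hlt : ∀ d ∈ S, ∀ d' ∈ S, r d < r d' → rk' d < rk' d' := by
    intro d hd d' hd' h
    refine Finset.card_lt_card ?_
    refine (Finset.ssubset_iff_of_subset ?_).2 ⟨d, ?_, ?_⟩
    · intro q hq
      rw [Finset.mem_filter] at hq ⊢
      exact ⟨hq.1, hq.2.trans h⟩
    · rw [Finset.mem_filter]
      exact ⟨hd, h⟩
    · rw [Finset.mem_filter]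
      exact fun h' => lt_irrefl _ h'.2
  have hinj : Set.InjOn rk' S := by
    intro d hd d' hd' h
    by_contra hne
    have hne' : r d ≠ r d' := fun h' => hne (hr hd hd' h')
    rcases lt_or_gt_of_ne hne' with h1 | h1
    · exact absurd h (hlt d hd d' hd' h1).ne
    · exact absurd h (hlt d' hd' d hd h1).ne'
  have himg : S.image rk' = Finset.range S.card := by
    refine Finset.eq_of_subset_of_card_le ?_ ?_
    · intro n hn
      obtain ⟨d, hd, rfl⟩ := Finset.mem_image.1 hn
      rw [Finset.mem_range]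
      refine Finset.card_lt_card ?_
      refine (Finset.ssubset_iff_of_subset (Finset.filter_subset _ _)).2 ⟨d, hd, ?_⟩
      rw [Finset.mem_filter]
      exact fun h' => lt_irrefl _ h'.2
    · rw [Finset.card_range, Finset.card_image_of_injOn hinj]
  have h1 : ((S.filter (fun d => rk' d < m)).image rk') = (Finset.range (min S.card m)) := by
    ext n
    rw [Finset.mem_image, Finset.mem_range, lt_min_iff]
    constructor
    · rintro ⟨d, hd, rfl⟩
      rw [Finset.mem_filter] at hd
      refine ⟨?_, hd.2⟩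
      have : rk' d ∈ S.image rk' := Finset.mem_image_of_mem _ hd.1
      rwa [himg, Finset.mem_range] at this
    · rintro ⟨h1, h2⟩
      have : n ∈ S.image rk' := by rw [himg, Finset.mem_range]; exact h1
      obtain ⟨d, hd, rfl⟩ := Finset.mem_image.1 this
      exact ⟨d, Finset.mem_filter.2 ⟨hd, h2⟩, rfl⟩
  have h2 := congrArg Finset.card h1
  rw [Finset.card_range, Finset.card_image_of_injOn] at h2
  · exact h2
  · intro d hd d' hd' h
    exact hinj (Finset.filter_subset _ _ hd) (Finset.filter_subset _ _ hd') h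

/-! ### the rule at a comp -/

theorem rfx_fst_comp {σ : St V} (h : WF0 G σ) {x : V} {q : V × V} (hq : q ∈ (σ x).ports) :
    (σ q.1).ports = (σ x).ports ∧ (σ q.1).spec = (σ x).spec ∧ ordp (σ q.1) = ordp (σ x) := by
  have h1 := h.eqv x q.1 (h.tail x q hq).1
  refine ⟨h1.2.1, h1.2.2, ?_⟩
  unfold ordp
  rw [h1.2.1, h1.2.2]

theorem rfx_lab_inj {δ : ℝ} {l : Lb G} (hl : Gen δ l) (i : Fin 3) {σ : St V} (h : WF0 G σ) (x : V) :
    Set.InjOn (lab l i) ((σ x).ports : Set (V × V)) := by
  intro d hd d' hd' he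
  exact TI_of_Gen hl i d d' (h.tail x d hd).2 (h.tail x d' hd').2 he

/-- a comp that is not activated keeps the ordinary ports of rank less than 7 -/
theorem rfx_large {σ : St V} (h : WF0 G σ) {δ : ℝ} {l : Lb G} (hl : Gen δ l) {x : V}
    (hx : 3 ≤ (ordp (σ x)).card) (ha : ¬ act δ (lab l 0) (σ x)) :
    ((σ x).ports.filter (fun q => q ∉ OO δ (σ, l))).card = min (ordp (σ x)).card 7 := by
  have hinj : Set.InjOn (lab l 2) ((ordp (σ x)) : Set (V × V)) := by
    refine (rfx_lab_inj hl 2 h x).mono ?_
    intro q hq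
    exact (Finset.mem_sdiff.1 hq).1
  rw [← rfx_card_rank (ordp (σ x)) (lab l 2) hinj 7]
  congr 1
  ext q
  rw [Finset.mem_filter, Finset.mem_filter]
  constructor
  · rintro ⟨hq, hqO⟩
    obtain ⟨h1, h2, h3⟩ := rfx_fst_comp h hq
    have hspec : q ∉ (σ x).spec := by
      intro hs
      apply hqO
      refine ⟨?_, Or.inr (Or.inr (Or.inl ?_))⟩
      · show q ∈ (σ q.1).ports
        rw [h1]; exact hq
      · show q ∈ (σ q.1).spec
        rw [h2]; exact hs
    refine ⟨Finset.mem_sdiff.2 ⟨hq, hspec⟩, ?_⟩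
    by_contra hcon
    apply hqO
    refine ⟨?_, Or.inr (Or.inr (Or.inr ?_))⟩
    · show q ∈ (σ q.1).ports
      rw [h1]; exact hq
    · show 7 ≤ rnk (lab l 2) (σ q.1) q
      unfold rnk
      rw [h3]
      exact not_lt.1 hcon
  · rintro ⟨hq, hrk⟩
    have hqp := (Finset.mem_sdiff.1 hq).1
    have hqs := (Finset.mem_sdiff.1 hq).2
    obtain ⟨h1, h2, h3⟩ := rfx_fst_comp h hqp
    refine ⟨hqp, ?_⟩
    rintro ⟨_, hc⟩
    rcases hc with hc | hc | hc | hc
    · apply ha
      have hc' : act δ (lab l 0) (σ q.1) := hc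
      unfold act at hc' ⊢
      rw [h1] at hc'
      exact hc'
    · have hc' : (ordp (σ q.1)).card ≤ 2 := hc
      rw [h3] at hc'
      omega
    · have hc' : q ∈ (σ q.1).spec := hc
      rw [h2] at hc'
      exact hqs hc'
    · have hc' : 7 ≤ rnk (lab l 2) (σ q.1) q := hc
      unfold rnk at hc'
      rw [h3] at hc'
      omega

theorem RF_of_Gen {σ : St V} (h : WF0 G σ) {δ : ℝ} {l : Lb G} (hl : Gen δ l) :
    RF (OO δ (σ, l)) σ Set.univ where
  sub := fun d hd => hd.1
  small := by
    intro x _ hx q hq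
    obtain ⟨h1, h2, h3⟩ := rfx_fst_comp h hq
    refine ⟨?_, Or.inr (Or.inl ?_)⟩
    · show q ∈ (σ q.1).ports
      rw [h1]; exact hq
    · show (ordp (σ q.1)).card ≤ 2
      rw [h3]; exact hx
  spec := by
    intro x _ q hq
    have hq' := h.spec_sub x hq
    obtain ⟨h1, h2, h3⟩ := rfx_fst_comp h hq'
    refine ⟨?_, Or.inr (Or.inr (Or.inl ?_))⟩
    · show q ∈ (σ q.1).ports
      rw [h1]; exact hq'
    · show q ∈ (σ q.1).spec
      rw [h2]; exact hq
  large := by
    intro x _ hx
    by_cases ha : act δ (lab l 0) (σ x)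
    · left
      intro q hq
      obtain ⟨h1, h2, h3⟩ := rfx_fst_comp h hq
      refine ⟨?_, Or.inl ?_⟩
      · show q ∈ (σ q.1).ports
        rw [h1]; exact hq
      · show act δ (lab l 0) (σ q.1)
        unfold act at ha ⊢
        rw [h1]; exact ha
    · right
      exact rfx_large h hl hx ha

set_option linter.unusedVariables false in
/-- at most 7 unopened ports -/
theorem unop_le {O : Set (V × V)} {σ : St V} (h : WF0 G σ) (hR : RF O σ Set.univ) (v : V) :
    (unop O (σ v)).card ≤ 7 := by
  have hsub : unop O (σ v) ⊆ (σ v).ports.filter (fun q => q ∉ O) := by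
    intro q hq
    unfold unop at hq
    rw [Finset.mem_filter] at hq ⊢
    exact ⟨hq.1, fun hO => hq.2 (Or.inl hO)⟩
  have hzero : (∀ q ∈ (σ v).ports, q ∈ O) → (unop O (σ v)).card ≤ 7 := by
    intro hall
    have : unop O (σ v) = ∅ := by
      rw [Finset.eq_empty_iff_forall_notMem]
      intro q hq
      have := hsub hq
      rw [Finset.mem_filter] at this
      exact this.2 (hall q this.1)
    rw [this]; simp
  by_cases hk : (ordp (σ v)).card ≤ 2
  · exact hzero (hR.small v (Set.mem_univ v) hk)
  · rcases hR.large v (Set.mem_univ v) (by omega) with h1 | h1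
    · exact hzero h1
    · refine (Finset.card_le_card hsub).trans ?_
      rw [h1]
      exact min_le_right _ _

end Pool.Agent.PM
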