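import Pool.Agent.Lib.MP_947a32_pr.TreeS
import Pool.Agent.Lib.MP_947a32_pr.LawB
import Pool.Agent.Lib.MP_947a32_pr.RfxA
import Pool.Agent.Lib.MP_947a32_pr.Nice
import Pool.Agent.Lib.MP_947a32_pr.Meas
import Pool.Agent.Lib.MP_947a32_pr.Loc

/-! E-lemmas: expectations of sums over onward ports (helper40) -/

set_option autoImplicit false

open Classical MeasureTheory
open scoped ENNReal

namespace Pool.Agent.PM


section EL

variable {V : Type} {G : SimpleGraph V} {μ : Measure (St V)} {Δ : ℕ} {δ : ℝ} {e : V × V}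

theorem ind_true {P : Prop} (h : P) : ind P = 1 := if_pos h
theorem ind_false {P : Prop} (h : ¬ P) : ind P = 0 := if_neg h
theorem ind_le_one (P : Prop) : ind P ≤ 1 := by unfold ind; split_ifs <;> simp
theorem ind_mono {P Q : Prop} (h : P → Q) : ind P ≤ ind Q := by
  by_cases hP : P
  · rw [ind_true hP, ind_true (h hP)]
  · rw [ind_false hP]; exact zero_le
theorem ind_and (P Q : Prop) : ind (P ∧ Q) = ind P * ind Q := by
  by_cases hP : P <;> by_cases hQ : Q <;> simp [ind, hP, hQ]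

/-- almost sure facts -/
theorem ae_facts (hT : Std G Δ) (hL : Law G μ) (δ : ℝ) :
    ∀ᵐ x ∂(μ.prod (lam G)), WF G x.1 ∧ RF (OO δ x) x.1 Set.univ ∧ TI G (lab x.2 1) := by
  have := hL.prob
  have := countable_V hT.tree Δ hT.reg
  have h1 : ∀ᵐ x ∂(μ.prod (lam G)), WF G x.1 :=
    Measure.quasiMeasurePreserving_fst.ae (p := fun σ => WF G σ) hL.wf
  filter_upwards [h1, ae_Gen (G := G) (μ := μ) δ] with x hx hl
  exact ⟨hx, RF_of_Gen hx.toWF0 hl, TI_of_Gen hl 1⟩

/-- the swapped tag is a port of the head comp -/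
theorem swap_mem {σ : St V} (h : WF0 G σ) {e : V × V} (ha : alive σ e) : e.swap ∈ (σ e.2).ports :=
  h.swap _ _ ha

theorem card_onw {σ : St V} (h : WF0 G σ) {e : V × V} (ha : alive σ e) :
    (onw σ e).card + 1 = (σ e.2).ports.card := by
  unfold onw
  rw [Finset.card_erase_of_mem (swap_mem h ha)]
  have : 0 < (σ e.2).ports.card := Finset.card_pos.2 ⟨_, swap_mem h ha⟩
  omega


theorem meas_ind {X : Type} [MeasurableSpace X] {P : X → Prop} (h : MeasurableSet {x | P x}) :
    Measurable (fun x => ind (P x)) :=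
  Measurable.ite h measurable_const measurable_const

theorem meas_mem_onw [Countable V] (e p : V × V) : MeasurableSet {x : XX G | p ∈ onw x.1 e} :=
  meas_ports (measurable_fst) e.2 (fun P => p ∈ P.erase e.swap)

theorem sum_eq_tsum (S : Finset (V × V)) (F : V × V → ℝ≥0∞) :
    ∑ p ∈ S, F p = ∑' p, ind (p ∈ S) * F p := by
  rw [tsum_eq_sum (s := S)]
  · refine Finset.sum_congr rfl fun p hp => ?_
    rw [ind_true hp, one_mul]
  · intro p hp
    rw [ind_false hp, zero_mul]

theorem meas_sum_onw [Countable V] (e : V × V) {F : XX G → V × V → ℝ≥0∞}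
    (hF : ∀ p, Measurable (fun x => F x p)) :
    Measurable (fun x => ∑ p ∈ onw x.1 e, F x p) := by
  simp_rw [sum_eq_tsum]
  exact Measurable.tsum fun p => (meas_ind (meas_mem_onw e p)).mul (hF p)

theorem meas_sum_erase [Countable V] (e p : V × V) {F : XX G → V × V → ℝ≥0∞}
    (hF : ∀ p, Measurable (fun x => F x p)) :
    Measurable (fun x => ∑ q ∈ (onw x.1 e).erase p, F x q) := by
  simp_rw [sum_eq_tsum]
  refine Measurable.tsum fun q => (meas_ind ?_).mul (hF q)
  exact meas_ports (measurable_fst) e.2 (fun P => q ∈ (P.erase e.swap).erase p)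

/-- factorisation with a bound of the first factor -/
theorem E_fact (H : Hyp G μ δ e Δ) {f : XX G → V × V → V × V → ℝ≥0∞} (hf : Tl f)
    {g : XX G → V × V → ℝ≥0∞} (hg : Hd g) {c : ℝ≥0∞}
    (hc : EE μ e (fun x => ∑ p ∈ onw x.1 e, f x e p) ≤ c) :
    EE μ e (fun x => ∑ p ∈ onw x.1 e, f x e p * g x p) ≤ c * br μ e g := by
  rw [factsum H.std H.law hf hg H.adj]
  gcongr

theorem Tl_npassS [Countable V] : Tl (G := G) (fun x e _ => ind (¬ passS (x.1 e.2))) :=
  Tl_F (fun P S _ _ => ind (¬ (S = ∅ ∧ 3 ≤ P.card ∧ P.card ≤ 7)))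

theorem Tl_thr [Countable V] : Tl (G := G) (fun x e _ => ind (thr (x.1 e.2))) :=
  Tl_F (fun P S _ _ => ind ((S = ∅ ∧ 3 ≤ P.card ∧ P.card ≤ 7) ∧ P.card = 3))

theorem Tl_spec [Countable V] : Tl (G := G) (fun x e p => ind (p ∈ (x.1 e.2).spec)) :=
  Tl_F (fun _ S _ p => ind (p ∈ S))

theorem EE_pass (H : Hyp G μ δ e Δ) :
    EE (G := G) μ e (fun x => ∑ _p ∈ onw x.1 e, ind (pass (OO δ x) (x.1 e.2))) ≤ 6 := by
  rw [← EE_const (G := G) H.law H.adj 6]
  refine EE_mono ?_
  filter_upwards [ae_facts H.std H.law δ] with x hx ha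
  by_cases hp : pass (OO δ x) (x.1 e.2)
  · simp only [ind_true hp, Finset.sum_const, nsmul_eq_mul, mul_one]
    have h1 := card_onw hx.1.toWF0 ha
    have h2 := hp.1.2.2
    have : (onw x.1 e).card ≤ 6 := by omega
    exact_mod_cast this
  · simp [ind_false hp]

theorem EE_npassS (H : Hyp G μ δ e Δ) :
    EE (G := G) μ e (fun x => ∑ _p ∈ onw x.1 e, ind (¬ passS (x.1 e.2))) ≤ qr G μ e := by
  refine EE_mono ?_
  filter_upwards [ae_facts H.std H.law δ] with x hx ha
  rw [Finset.sum_const, nsmul_eq_mul]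
  have h1 := card_onw hx.1.toWF0 ha
  have h2 : (onw x.1 e).card ≤ (x.1 e.2).ports.card := by omega
  gcongr

/-- at most 7 ports of a comp are not proposed by it -/
theorem kept_le {O : Set (V × V)} {σ : St V} (hR : RF O σ Set.univ) (v : V) :
    ((σ v).ports.filter (fun q => q ∉ O)).card ≤ 7 := by
  have h0 : (∀ q ∈ (σ v).ports, q ∈ O) → ((σ v).ports.filter (fun q => q ∉ O)).card ≤ 7 := by
    intro h
    rw [Finset.filter_eq_empty_iff.2 (fun q hq hn => hn (h q hq))]
    simp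
  rcases le_or_gt (ordp (σ v)).card 2 with h | h
  · exact h0 (hR.small v (Set.mem_univ _) h)
  · rcases hR.large v (Set.mem_univ _) h with h' | h'
    · exact h0 h'
    · rw [h']; exact min_le_right _ _

theorem sum_ind_le {S : Finset (V × V)} (P : V × V → Prop) [DecidablePred P] :
    ∑ p ∈ S, ind (P p) = ((S.filter P).card : ℝ≥0∞) := by
  have h : ∀ p, ind (P p) = if P p then 1 else 0 := by
    intro p
    by_cases h : P p <;> simp [ind, h]
  simp_rw [h]
  exact Finset.sum_boole _ _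

theorem sum_kept_le {O : Set (V × V)} {σ : St V} (hR : RF O σ Set.univ) (e : V × V) :
    ∑ p ∈ onw σ e, ind (p ∉ O) ≤ 7 := by
  rw [sum_ind_le]
  have h1 : ((onw σ e).filter (fun q => q ∉ O)).card ≤ 7 :=
    (Finset.card_le_card (Finset.filter_subset_filter _ (Finset.erase_subset _ _))).trans
      (kept_le hR e.2)
  exact_mod_cast h1

theorem two_le {σ : St V} (h : WF G σ) (v : V) : (2 : ℝ≥0∞) ≤ ((σ v).ports.card : ℝ≥0∞) := by
  exact_mod_cast h.two v

theorem EE_kept (H : Hyp G μ δ e Δ) :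
    EE (G := G) μ e (fun x => ∑ p ∈ onw x.1 e, ind (¬ passS (x.1 e.2)) * ind (p ∉ OO δ x)) ≤
      4 * qr G μ e := by
  have := countable_V H.std.tree Δ H.std.reg
  unfold qr br
  rw [← EE_mul_left]
  · refine EE_mono ?_
    filter_upwards [ae_facts H.std H.law δ] with x hx ha
    rw [← Finset.mul_sum]
    calc ind (¬ passS (x.1 e.2)) * ∑ p ∈ onw x.1 e, ind (p ∉ OO δ x)
        ≤ ind (¬ passS (x.1 e.2)) * 7 := by gcongr; exact sum_kept_le hx.2.1 e
      _ ≤ ind (¬ passS (x.1 e.2)) * (4 * ((x.1 e.2).ports.card : ℝ≥0∞)) := by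
        gcongr
        calc (7 : ℝ≥0∞) ≤ 4 * 2 := by norm_num
          _ ≤ 4 * ((x.1 e.2).ports.card : ℝ≥0∞) := by gcongr; exact two_le hx.1 e.2
      _ = 4 * (((x.1 e.2).ports.card : ℝ≥0∞) * ind (¬ passS (x.1 e.2))) := by ring
  · exact ((Tl_F (G := G) (fun P S _ _ => (P.card : ℝ≥0∞) *
      ind (¬ (S = ∅ ∧ 3 ≤ P.card ∧ P.card ≤ 7)))).meas e e)

theorem EE_spec (H : Hyp G μ δ e Δ) :
    EE (G := G) μ e (fun x => ∑ p ∈ onw x.1 e, ind (p ∈ (x.1 e.2).spec)) ≤ qm G μ e := by
  refine EE_mono ?_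
  filter_upwards [ae_facts H.std H.law δ] with x hx ha
  rw [sum_ind_le]
  have : ((onw x.1 e).filter (fun p => p ∈ (x.1 e.2).spec)).card ≤ (x.1 e.2).spec.card :=
    Finset.card_le_card (fun p hp => (Finset.mem_filter.1 hp).2)
  exact_mod_cast this

/-- double sum over two different onward ports of a passive comp -/
theorem E_pass2 (H : Hyp G μ δ e Δ) {g g' : XX G → V × V → ℝ≥0∞} (hg : Hd g) (hg' : Hd g') :
    EE (G := G) μ e (fun x => ind (pass (OO δ x) (x.1 e.2)) *
      ∑ p ∈ onw x.1 e, ∑ r ∈ (onw x.1 e).erase p, g' x r * g x p) ≤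
      30 * (br μ e g' * br μ e g) := by
  have := countable_V H.std.tree Δ H.std.reg
  have hG := H.std.tree
  have hTl : Tl (G := G) (fun x e p => ∑ r ∈ (onw x.1 e).erase p,
      ind (pass (OO δ x) (x.1 e.2)) * g' x r) := by
    refine Tl_erase (f := fun x e _ _ => ind (pass (OO δ x) (x.1 e.2))) hG ?_ ?_ hg'
    · intro e p q
      exact (Tl_pass (G := G) hG δ).meas e p
    · intro e p q x y hx hy hex hey hpx hpy _ _ hag
      exact (Tl_pass (G := G) hG δ).loc e p (hx.tail _ _ hex).2.symm x y hx hy hex hey hpx hpy hag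
  have h1 : EE (G := G) μ e (fun x => ind (pass (OO δ x) (x.1 e.2)) *
      ∑ p ∈ onw x.1 e, ∑ r ∈ (onw x.1 e).erase p, g' x r * g x p) =
      EE (G := G) μ e (fun x => ∑ p ∈ onw x.1 e, (∑ r ∈ (onw x.1 e).erase p,
        ind (pass (OO δ x) (x.1 e.2)) * g' x r) * g x p) := by
    congr 1
    funext x
    rw [Finset.mul_sum]
    refine Finset.sum_congr rfl fun p _ => ?_
    rw [Finset.mul_sum, Finset.sum_mul]
    refine Finset.sum_congr rfl fun r _ => ?_
    ring
  rw [h1, factsum H.std H.law hTl hg H.adj, ← mul_assoc]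
  gcongr
  -- the first factor
  have hTl2 : Tl (G := G) (fun x e _ => 5 * ind (pass (OO δ x) (x.1 e.2))) :=
    (Tl_const (G := G) 5).mul (Tl_pass (G := G) hG δ)
  have h2 : EE (G := G) μ e (fun x => ∑ p ∈ onw x.1 e, ∑ r ∈ (onw x.1 e).erase p,
      ind (pass (OO δ x) (x.1 e.2)) * g' x r) ≤
      EE (G := G) μ e (fun x => ∑ r ∈ onw x.1 e, (5 * ind (pass (OO δ x) (x.1 e.2))) * g' x r) := by
    refine EE_mono ?_
    filter_upwards [ae_facts H.std H.law δ] with x hx ha
    by_cases hp : pass (OO δ x) (x.1 e.2)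
    · have hc : (onw x.1 e).card ≤ 6 := by
        have h1 := card_onw hx.1.toWF0 ha
        have h2 := hp.1.2.2
        omega
      simp only [ind_true hp, one_mul, mul_one]
      calc ∑ p ∈ onw x.1 e, ∑ r ∈ (onw x.1 e).erase p, g' x r
          = ∑ p ∈ onw x.1 e, ∑ r ∈ onw x.1 e, (if r ≠ p then g' x r else 0) := by
            refine Finset.sum_congr rfl fun p hp => ?_
            rw [← Finset.sum_filter]
            refine Finset.sum_congr ?_ fun _ _ => rfl
            ext r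
            simp only [Finset.mem_erase, Finset.mem_filter]
            tauto
        _ = ∑ r ∈ onw x.1 e, ∑ p ∈ onw x.1 e, (if r ≠ p then g' x r else 0) :=
            Finset.sum_comm
        _ ≤ ∑ r ∈ onw x.1 e, 5 * g' x r := by
            refine Finset.sum_le_sum fun r hr => ?_
            rw [← Finset.sum_filter, Finset.sum_const, nsmul_eq_mul]
            gcongr
            have : ((onw x.1 e).filter (fun p => r ≠ p)) = (onw x.1 e).erase r := by
              ext p
              simp only [Finset.mem_erase, Finset.mem_filter]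
              constructor
              · rintro ⟨h1, h2⟩; exact ⟨fun h => h2 h.symm, h1⟩
              · rintro ⟨h1, h2⟩; exact ⟨h2, fun h => h1 h.symm⟩
            rw [this, Finset.card_erase_of_mem hr]
            have : (onw x.1 e).card - 1 ≤ 5 := by omega
            exact_mod_cast this
    · simp [ind_false hp]
  refine h2.trans ?_
  refine E_fact H hTl2 hg' ?_
  have h3 : EE (G := G) μ e (fun x => ∑ _p ∈ onw x.1 e, 5 * ind (pass (OO δ x) (x.1 e.2))) =
      EE (G := G) μ e (fun x => 5 * ∑ _p ∈ onw x.1 e, ind (pass (OO δ x) (x.1 e.2))) := by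
    congr 1
    funext x
    rw [Finset.mul_sum]
  rw [h3, EE_mul_left]
  · calc (5 : ℝ≥0∞) * EE (G := G) μ e (fun x => ∑ _p ∈ onw x.1 e, ind (pass (OO δ x) (x.1 e.2)))
        ≤ 5 * 6 := by gcongr; exact EE_pass H
      _ = 30 := by norm_num
  · exact meas_sum_onw e fun p => (Tl_pass (G := G) hG δ).meas e p


theorem sum_erase_comm {S : Finset (V × V)} (F : V × V → V × V → ℝ≥0∞) :
    ∑ p ∈ S, ∑ r ∈ S.erase p, F p r = ∑ r ∈ S, ∑ p ∈ S.erase r, F p r := by
  have h1 : ∀ p ∈ S, ∑ r ∈ S.erase p, F p r = ∑ r ∈ S, (if r ≠ p then F p r else 0) := by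
    intro p _
    rw [← Finset.sum_filter]
    refine Finset.sum_congr ?_ fun _ _ => rfl
    ext r
    simp only [Finset.mem_erase, Finset.mem_filter]
    tauto
  have h2 : ∀ r ∈ S, ∑ p ∈ S.erase r, F p r = ∑ p ∈ S, (if r ≠ p then F p r else 0) := by
    intro r _
    rw [← Finset.sum_filter]
    refine Finset.sum_congr ?_ fun _ _ => rfl
    ext p
    simp only [Finset.mem_erase, Finset.mem_filter]
    tauto
  rw [Finset.sum_congr rfl h1, Finset.sum_congr rfl h2, Finset.sum_comm]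

/-- the head-side of `p` membership in the proposals is decided on the tail side of `p` for the other
onward ports -/
theorem prop_loc (hG : G.IsTree) (δ : ℝ) {e p q : V × V} {x y : XX G} (hx : WF0 G x.1)
    (hy : WF0 G y.1) (hpx : p ∈ onw x.1 e) (hpy : p ∈ onw y.1 e)
    (hq : q ∈ onw x.1 e) (hag : Agr G p x y) : (q ∈ OO δ x ↔ q ∈ OO δ y) := by
  have hpx' := (Finset.mem_erase.1 hpx).2
  have hpy' := (Finset.mem_erase.1 hpy).2
  have hq' := (Finset.mem_erase.1 hq).2
  have eqx := hx.eqv e.2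
  have hap : alive x.1 p := by
    show p ∈ (x.1 p.1).ports
    rw [(hx.eqv e.2 p.1 (hx.tail _ _ hpx').1).2.1]; exact hpx'
  have hap' : alive y.1 p := by
    show p ∈ (y.1 p.1).ports
    rw [(hy.eqv e.2 p.1 (hy.tail _ _ hpy').1).2.1]; exact hpy'
  have hside : side G p q.1 := by
    have h1 := hx.sep p hap e.2 q.1 (hx.tail _ _ hq').1
    have h2 := hx.sep p hap e.2 p.1 (hx.tail _ _ hpx').1
    rw [h1, ← h2]
    exact side_fst (hx.tail _ _ hpx').2
  refine rule_local hG hx hy hap hap' hag.1 ?_ q hside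
  intro d hd
  unfold lab
  by_cases h : G.Adj d.1 d.2
  · simp only [dif_pos h]
    exact ⟨hag.2 ⟨d, h⟩ 0 hd, hag.2 ⟨d, h⟩ 2 hd⟩
  · simp only [dif_neg h, and_self]

/-- double sum with a kept onward port that is hit -/
theorem E_npass2 (H : Hyp G μ δ e Δ) {g g' : XX G → V × V → ℝ≥0∞} (hg : Hd g) (hg' : Hd g') :
    EE (G := G) μ e (fun x => ind (¬ passS (x.1 e.2)) *
      ∑ p ∈ onw x.1 e, (∑ r ∈ onw x.1 e, ind (r ∉ OO δ x) * g' x r) * g x p) ≤
      4 * qr G μ e * br μ e (fun x e => g' x e * g x e) +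
        7 * qr G μ e * br μ e g' * br μ e g := by
  have := countable_V H.std.tree Δ H.std.reg
  have hG := H.std.tree
  -- split the diagonal
  have h1 : EE (G := G) μ e (fun x => ind (¬ passS (x.1 e.2)) *
      ∑ p ∈ onw x.1 e, (∑ r ∈ onw x.1 e, ind (r ∉ OO δ x) * g' x r) * g x p) =
      EE (G := G) μ e (fun x => (∑ p ∈ onw x.1 e, (ind (¬ passS (x.1 e.2)) * ind (p ∉ OO δ x)) *
          (g' x p * g x p)) +
        ∑ p ∈ onw x.1 e, (∑ r ∈ (onw x.1 e).erase p,
          (ind (¬ passS (x.1 e.2)) * ind (r ∉ OO δ x)) * g' x r) * g x p) := by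
    congr 1
    funext x
    rw [Finset.mul_sum, ← Finset.sum_add_distrib]
    refine Finset.sum_congr rfl fun p hp => ?_
    rw [← Finset.add_sum_erase _ _ hp, Finset.sum_congr rfl (fun r _ => mul_assoc
      (ind (¬ passS (x.1 e.2))) (ind (r ∉ OO δ x)) (g' x r)), ← Finset.mul_sum]
    ring
  have hTl0 : Tl (G := G) (fun x e p => ind (¬ passS (x.1 e.2)) * ind (p ∉ OO δ x)) :=
    Tl_npassS.mul (Tl_nprop hG δ)
  rw [h1, EE_add]
  swap
  · exact meas_sum_onw e fun p => (hTl0.meas e p).mul ((hg'.meas p).mul (hg.meas p))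
  refine add_le_add (E_fact H hTl0 (hg'.mul hg) (EE_kept H)) ?_
  have hTl : Tl (G := G) (fun x e p => ∑ r ∈ (onw x.1 e).erase p,
      (ind (¬ passS (x.1 e.2)) * ind (r ∉ OO δ x)) * g' x r) := by
    refine Tl_erase (f := fun x e _ r => ind (¬ passS (x.1 e.2)) * ind (r ∉ OO δ x)) hG ?_ ?_ hg'
    · intro e p q
      exact hTl0.meas e q
    · intro e p q x y hx hy hex hey hpx hpy hqx _ hag
      have e1 := Tl_npassS.loc e p (hx.tail _ _ hex).2.symm x y hx hy hex hey hpx hpy hag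
      have e2 := prop_loc hG δ hx hy hpx hpy hqx hag
      show ind (¬ passS (x.1 e.2)) * ind (q ∉ OO δ x) = ind (¬ passS (y.1 e.2)) * ind (q ∉ OO δ y)
      rw [e1]
      congr 1
      rw [e2]
  rw [factsum H.std H.law hTl hg H.adj]
  gcongr
  -- the first factor
  have hTl2 : Tl (G := G) (fun x e r => ((x.1 e.2).ports.card : ℝ≥0∞) *
      (ind (¬ passS (x.1 e.2)) * ind (r ∉ OO δ x))) :=
    (Tl_F (G := G) (fun P _ _ _ => (P.card : ℝ≥0∞))).mul hTl0
  have h2 : EE (G := G) μ e (fun x => ∑ p ∈ onw x.1 e, ∑ r ∈ (onw x.1 e).erase p,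
      (ind (¬ passS (x.1 e.2)) * ind (r ∉ OO δ x)) * g' x r) ≤
      EE (G := G) μ e (fun x => ∑ r ∈ onw x.1 e, (((x.1 e.2).ports.card : ℝ≥0∞) *
        (ind (¬ passS (x.1 e.2)) * ind (r ∉ OO δ x))) * g' x r) := by
    refine EE_mono ?_
    filter_upwards [ae_facts H.std H.law δ] with x hx ha
    rw [sum_erase_comm]
    refine Finset.sum_le_sum fun r hr => ?_
    have h1 := card_onw hx.1.toWF0 ha
    have h2 := Finset.card_le_card (Finset.erase_subset r (onw x.1 e))
    have h3 : ((onw x.1 e).erase r).card ≤ (x.1 e.2).ports.card := by omega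
    rw [Finset.sum_const, nsmul_eq_mul]
    calc (((onw x.1 e).erase r).card : ℝ≥0∞) *
          (ind (¬ passS (x.1 e.2)) * ind (r ∉ OO δ x) * g' x r)
        ≤ ((x.1 e.2).ports.card : ℝ≥0∞) *
          (ind (¬ passS (x.1 e.2)) * ind (r ∉ OO δ x) * g' x r) :=
          mul_le_mul' (Nat.cast_le.2 h3) le_rfl
      _ = ((x.1 e.2).ports.card : ℝ≥0∞) *
          (ind (¬ passS (x.1 e.2)) * ind (r ∉ OO δ x)) * g' x r := by ring
  refine h2.trans (E_fact H hTl2 hg' ?_)
  unfold qr br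
  rw [← EE_mul_left]
  · refine EE_mono ?_
    filter_upwards [ae_facts H.std H.law δ] with x hx ha
    calc ∑ p ∈ onw x.1 e, ((x.1 e.2).ports.card : ℝ≥0∞) *
          (ind (¬ passS (x.1 e.2)) * ind (p ∉ OO δ x))
        = ((x.1 e.2).ports.card : ℝ≥0∞) * (ind (¬ passS (x.1 e.2)) *
            ∑ p ∈ onw x.1 e, ind (p ∉ OO δ x)) := by
          rw [Finset.mul_sum, Finset.mul_sum]
      _ ≤ ((x.1 e.2).ports.card : ℝ≥0∞) * (ind (¬ passS (x.1 e.2)) * 7) := by
          gcongr; exact sum_kept_le hx.2.1 e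
      _ = 7 * (((x.1 e.2).ports.card : ℝ≥0∞) * ind (¬ passS (x.1 e.2))) := by ring
  · exact ((Tl_F (G := G) (fun P S _ _ => (P.card : ℝ≥0∞) *
      ind (¬ (S = ∅ ∧ 3 ≤ P.card ∧ P.card ≤ 7)))).meas e e)

end EL

end Pool.Agent.PM
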