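import Pool.Agent.Lib.MP_947a32_pr.TreeS

/-!
# Equivariance of all stages (helper68)
-/

set_option autoImplicit false
set_option linter.unusedSectionVars false

open Classical MeasureTheory

namespace Pool.Agent.PM

variable {V : Type}

/-! ### combinatorial part, `φ : V ≃ V` -/

section Comb

variable (φ : V ≃ V)

/-- image of a set of darts -/
def mO (O : Set (V × V)) : Set (V × V) := {d | mp φ.symm d ∈ O}

/-- transported labels -/
def mt (t : V × V → ℝ) : V × V → ℝ := fun d => t (mp φ.symm d)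

theorem mem_mO (O : Set (V × V)) (d : V × V) : mp φ d ∈ mO φ O ↔ d ∈ O := by
  show mp φ.symm (mp φ d) ∈ O ↔ d ∈ O
  rw [mp_symm_mp]

theorem mt_mp (t : V × V → ℝ) (d : V × V) : mt φ t (mp φ d) = t d := by
  show t (mp φ.symm (mp φ d)) = t d
  rw [mp_symm_mp]

/-- the transported finset of darts -/
noncomputable abbrev mF (S : Finset (V × V)) : Finset (V × V) := S.image (mp φ)

theorem mem_mF (S : Finset (V × V)) (d : V × V) : mp φ d ∈ mF φ S ↔ d ∈ S := by
  rw [Finset.mem_image]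
  constructor
  · rintro ⟨e, he, h⟩; rwa [← mp_inj φ h]
  · intro h; exact ⟨d, h, rfl⟩

theorem mem_mF' (S : Finset (V × V)) (d : V × V) : d ∈ mF φ S ↔ mp φ.symm d ∈ S := by
  rw [← mem_mF φ S (mp φ.symm d), mp_mp_symm]

theorem mF_ext (S T : Finset (V × V)) (h : ∀ d, mp φ d ∈ S ↔ d ∈ T) : S = mF φ T := by
  ext d
  rw [mem_mF', ← h, mp_mp_symm]

theorem card_mF (S : Finset (V × V)) : (mF φ S).card = S.card :=
  Finset.card_image_of_injective _ (mp_inj φ)

theorem mF_erase (S : Finset (V × V)) (d : V × V) : (mF φ S).erase (mp φ d) = mF φ (S.erase d) := by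
  refine mF_ext φ _ _ fun e => ?_
  rw [Finset.mem_erase, Finset.mem_erase, mem_mF, (mp_inj φ).ne_iff]

theorem mF_union (S T : Finset (V × V)) : mF φ S ∪ mF φ T = mF φ (S ∪ T) := by
  refine mF_ext φ _ _ fun e => ?_
  rw [Finset.mem_union, Finset.mem_union, mem_mF, mem_mF]

theorem mF_sdiff (S T : Finset (V × V)) : mF φ S \ mF φ T = mF φ (S \ T) := by
  refine mF_ext φ _ _ fun e => ?_
  rw [Finset.mem_sdiff, Finset.mem_sdiff, mem_mF, mem_mF]

theorem mF_filter (S : Finset (V × V)) (P Q : V × V → Prop) [DecidablePred P]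
    [DecidablePred Q] (h : ∀ d, P (mp φ d) ↔ Q d) :
    (mF φ S).filter P = mF φ (S.filter Q) := by
  refine mF_ext φ _ _ fun e => ?_
  rw [Finset.mem_filter, Finset.mem_filter, mem_mF, h]

theorem mem_mV (S : Finset V) (v : V) : φ v ∈ S.image φ ↔ v ∈ S := by
  rw [Finset.mem_image]
  constructor
  · rintro ⟨e, he, h⟩; rwa [← φ.injective h]
  · intro h; exact ⟨v, h, rfl⟩

theorem mV_union (S T : Finset V) : S.image φ ∪ T.image φ = (S ∪ T).image φ := by
  rw [Finset.image_union]

theorem St.map_apply (σ : St V) (v : V) : St.map φ σ (φ v) = Loc.map φ (σ v) := by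
  show Loc.map φ (σ (φ.symm (φ v))) = _
  rw [φ.symm_apply_apply]

theorem St.ext_map {σ τ : St V} (h : ∀ v, σ (φ v) = Loc.map φ (τ v)) : σ = St.map φ τ := by
  funext v
  have := h (φ.symm v)
  rw [φ.apply_symm_apply] at this
  exact this

theorem Loc.map_comp' (L : Loc V) : (Loc.map φ L).comp = L.comp.image φ := rfl
theorem Loc.map_ports (L : Loc V) : (Loc.map φ L).ports = mF φ L.ports := rfl
theorem Loc.map_spec (L : Loc V) : (Loc.map φ L).spec = mF φ L.spec := rfl
theorem Loc.map_M (L : Loc V) (p : V × V) : (Loc.map φ L).M (mp φ p) = φ (L.M p) := by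
  show φ (L.M (mp φ.symm (mp φ p))) = _
  rw [mp_symm_mp]

theorem Loc.ext_map {K L : Loc V} (h1 : K.comp = L.comp.image φ) (h2 : K.ports = mF φ L.ports)
    (h3 : K.spec = mF φ L.spec) (h4 : ∀ p, K.M (mp φ p) = φ (L.M p)) : K = Loc.map φ L := by
  refine Loc.ext h1 h2 h3 ?_
  funext p
  have := h4 (mp φ.symm p)
  rw [mp_mp_symm] at this
  exact this

theorem map_fst (σ : St V) (d : V × V) : St.map φ σ (mp φ d).1 = Loc.map φ (σ d.1) :=
  St.map_apply φ σ d.1

theorem map_snd (σ : St V) (d : V × V) : St.map φ σ (mp φ d).2 = Loc.map φ (σ d.2) :=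
  St.map_apply φ σ d.2

theorem other_map (S : Finset (V × V)) (d : V × V) :
    other (mF φ S) (mp φ d) = mp φ (other S d) := by
  unfold other
  by_cases h : ∃! g, g ∈ S ∧ g ≠ d
  · have h' : ∃! g, g ∈ mF φ S ∧ g ≠ mp φ d := by
      obtain ⟨g, hg, hu⟩ := h
      refine ⟨mp φ g, ⟨(mem_mF φ S g).mpr hg.1, (mp_inj φ).ne hg.2⟩, ?_⟩
      rintro k ⟨hk1, hk2⟩
      have := hu (mp φ.symm k) ⟨(mem_mF' φ S k).mp hk1, fun e => hk2 (by rw [← e, mp_mp_symm])⟩
      rw [← this, mp_mp_symm]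
    rw [dif_pos h, dif_pos h']
    have e1 := h.exists.choose_spec
    have e2 := h'.exists.choose_spec
    refine h'.unique e2 ⟨(mem_mF φ S _).mpr e1.1, (mp_inj φ).ne e1.2⟩
  · have h' : ¬ ∃! g, g ∈ mF φ S ∧ g ≠ mp φ d := by
      rintro ⟨g, hg, hu⟩
      apply h
      refine ⟨mp φ.symm g, ⟨(mem_mF' φ S g).mp hg.1, fun e => hg.2 (by rw [← e, mp_mp_symm])⟩, ?_⟩
      rintro k ⟨hk1, hk2⟩
      have := hu (mp φ k) ⟨(mem_mF φ S k).mpr hk1, (mp_inj φ).ne hk2⟩
      rw [← this, mp_symm_mp]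
    rw [dif_neg h, dif_neg h']

theorem op_map (σ : St V) (d : V × V) : op (St.map φ σ) (mp φ d) = St.map φ (op σ d) := by
  refine St.ext_map φ fun v => ?_
  unfold op
  simp only [mp_swap, map_fst, map_snd, St.map_apply, Loc.map_comp', Loc.map_ports, Loc.map_spec,
    mem_mF, mem_mV, card_mF, mF_erase, mF_union, mF_sdiff, mV_union]
  split_ifs <;>
  first
    | rfl
    | (refine Loc.ext_map φ rfl rfl rfl fun p => ?_
       simp only [mem_mF, Loc.map_M, other_map]
       try split_ifs <;> rfl)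

theorem opd_map (O : Set (V × V)) (d : V × V) : opd (mO φ O) (mp φ d) ↔ opd O d := by
  unfold opd
  rw [mp_swap, mem_mO, mem_mO]

theorem unop_map (O : Set (V × V)) (L : Loc V) :
    unop (mO φ O) (Loc.map φ L) = mF φ (unop O L) :=
  mF_filter φ L.ports (fun q => ¬ opd (mO φ O) q) (fun q => ¬ opd O q)
    fun d => not_congr (opd_map φ O d)

theorem hot_map (O : Set (V × V)) (σ : St V) (d : V × V) :
    hot (mO φ O) (St.map φ σ) (mp φ d) ↔ hot O σ d := by
  unfold hot
  simp only [mp_swap, map_fst, map_snd, Loc.map_ports, Loc.map_spec, mem_mF, opd_map, unop_map,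
    card_mF]

theorem chill_map (O : Set (V × V)) (σ : St V) :
    chill (mO φ O) (St.map φ σ) = St.map φ (chill O σ) := by
  refine St.ext_map φ fun v => ?_
  unfold chill
  simp only [St.map_apply]
  refine Loc.ext_map φ rfl ?_ ?_ fun p => Loc.map_M φ _ _
  · exact mF_filter φ (σ v).ports (fun q => opd (mO φ O) q → hot (mO φ O) (St.map φ σ) q)
      (fun q => opd O q → hot O σ q) fun d => by rw [opd_map, hot_map]
  · exact mF_filter φ (σ v).spec (fun q => opd (mO φ O) q → hot (mO φ O) (St.map φ σ) q)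
      (fun q => opd O q → hot O σ q) fun d => by rw [opd_map, hot_map]

theorem Rl_map (O : Set (V × V)) (σ : St V) (u w : V) :
    Rl (mO φ O) (St.map φ σ) (φ u) (φ w) ↔ Rl O σ u w := by
  unfold Rl
  rw [St.map_apply, Loc.map_comp', mem_mV]
  exact or_congr Iff.rfl (hot_map φ O σ (u, w))

theorem region_map (O : Set (V × V)) (σ : St V) (v w : V) :
    φ w ∈ region (mO φ O) (St.map φ σ) (φ v) ↔ w ∈ region O σ v := by
  constructor
  · intro h
    have h' : Relation.ReflTransGen (Rl (mO φ O) (St.map φ σ)) (φ v) (φ w) := h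
    have : Relation.ReflTransGen (Rl O σ) (φ.symm (φ v)) (φ.symm (φ w)) :=
      Relation.ReflTransGen.lift (r := Rl (mO φ O) (St.map φ σ)) (p := Rl O σ) φ.symm
      (fun a b hab => by
        show Rl O σ (φ.symm a) (φ.symm b)
        rw [← Rl_map φ, φ.apply_symm_apply, φ.apply_symm_apply]; exact hab) _ _ h'
    rwa [φ.symm_apply_apply, φ.symm_apply_apply] at this
  · intro h
    exact Relation.ReflTransGen.lift (r := Rl O σ) (p := Rl (mO φ O) (St.map φ σ)) φ
      (fun a b hab => (Rl_map φ O σ a b).mpr hab) _ _ h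

theorem hotSet_map (O : Set (V × V)) (t : V × V → ℝ) (σ : St V) (v : V) (d : V × V) :
    mp φ d ∈ hotSet (mO φ O) (mt φ t) (St.map φ σ) (φ v) ↔ d ∈ hotSet O t σ v := by
  unfold hotSet
  simp only [Set.mem_ofPred_eq, mp_swap, mt_mp, hot_map, mp_fst, region_map]

theorem hotSet_map' (O : Set (V × V)) (t : V × V → ℝ) (σ : St V) (v : V) :
    hotSet (mO φ O) (mt φ t) (St.map φ σ) (φ v) = mp φ '' hotSet O t σ v := by
  ext d
  rw [Set.mem_image]
  constructor
  · intro h
    refine ⟨mp φ.symm d, ?_, mp_mp_symm φ d⟩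
    rw [← hotSet_map φ, mp_mp_symm]; exact h
  · rintro ⟨e, he, rfl⟩
    exact (hotSet_map φ O t σ v e).mpr he

theorem run_map (t : V × V → ℝ) (n : ℕ) (S : Finset (V × V)) (σ : St V) :
    run (mt φ t) n (mF φ S) (St.map φ σ) = St.map φ (run t n S σ) := by
  induction n generalizing S σ with
  | zero => rfl
  | succ n ih =>
    have huniq : ∀ (t : V × V → ℝ) (S : Finset (V × V)) (a b : V × V),
        (a ∈ S ∧ ∀ d' ∈ S, d' ≠ a → t a < t d') → (b ∈ S ∧ ∀ d' ∈ S, d' ≠ b → t b < t d') →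
        a = b := by
      intro t S a b ha hb
      by_contra hab
      have h1 := ha.2 b hb.1 (Ne.symm hab)
      have h2 := hb.2 a ha.1 hab
      exact lt_asymm h1 h2
    have htr : ∀ d, (mp φ d ∈ mF φ S ∧ ∀ d' ∈ mF φ S, d' ≠ mp φ d → mt φ t (mp φ d) < mt φ t d') ↔
        (d ∈ S ∧ ∀ d' ∈ S, d' ≠ d → t d < t d') := by
      intro d
      rw [mem_mF, mt_mp]
      refine and_congr_right fun _ => ?_
      constructor
      · intro h d' hd' hne
        have := h (mp φ d') ((mem_mF φ S d').mpr hd') ((mp_inj φ).ne hne)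
        rwa [mt_mp] at this
      · intro h d' hd' hne
        have := h (mp φ.symm d') ((mem_mF' φ S d').mp hd') (fun e => hne (by rw [← e, mp_mp_symm]))
        exact this
    by_cases h : ∃ d ∈ S, ∀ d' ∈ S, d' ≠ d → t d < t d'
    · have h' : ∃ d ∈ mF φ S, ∀ d' ∈ mF φ S, d' ≠ d → mt φ t d < mt φ t d' := by
        obtain ⟨d, hd⟩ := h
        exact ⟨mp φ d, (htr d).mpr hd⟩
      have e : h'.choose = mp φ h.choose :=
        huniq _ _ _ _ h'.choose_spec ((htr _).mpr h.choose_spec)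
      rw [run, run, dif_pos h, dif_pos h', e, mF_erase, op_map, ih]
    · have h' : ¬ ∃ d ∈ mF φ S, ∀ d' ∈ mF φ S, d' ≠ d → mt φ t d < mt φ t d' := by
        rintro ⟨d, hd⟩
        apply h
        refine ⟨mp φ.symm d, (htr _).mp ?_⟩
        rw [mp_mp_symm]; exact hd
      rw [run, run, dif_neg h, dif_neg h']

theorem post_map (O : Set (V × V)) (L : Loc V) :
    post (mO φ O) (Loc.map φ L) = Loc.map φ (post O L) := by
  refine Loc.ext_map φ rfl ?_ ?_ fun p => Loc.map_M φ _ _
  · exact mF_filter φ L.ports (fun q => ¬ opd (mO φ O) q) (fun q => ¬ opd O q)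
      fun d => by rw [opd_map]
  · exact mF_filter φ L.spec (fun q => ¬ opd (mO φ O) q) (fun q => ¬ opd O q)
      fun d => by rw [opd_map]

theorem step_map (O : Set (V × V)) (t : V × V → ℝ) (σ : St V) :
    step (mO φ O) (mt φ t) (St.map φ σ) = St.map φ (step O t σ) := by
  refine St.ext_map φ fun v => ?_
  unfold step
  have himg := hotSet_map' φ O t σ v
  by_cases h : (hotSet O t σ v).Finite
  · have h' : (hotSet (mO φ O) (mt φ t) (St.map φ σ) (φ v)).Finite := by
      rw [himg]; exact h.image _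
    have e : h'.toFinset = mF φ h.toFinset := by
      refine mF_ext φ _ _ fun d => ?_
      rw [Set.Finite.mem_toFinset, Set.Finite.mem_toFinset, hotSet_map]
    rw [dif_pos h, dif_pos h', e, card_mF, chill_map, run_map, St.map_apply, post_map]
  · have h' : ¬ (hotSet (mO φ O) (mt φ t) (St.map φ σ) (φ v)).Finite := by
      rw [himg]
      exact fun hf => h (Set.Finite.of_finite_image hf (mp_inj φ).injOn)
    rw [dif_neg h, dif_neg h', chill_map, St.map_apply, post_map]

theorem ordp_map (L : Loc V) : ordp (Loc.map φ L) = mF φ (ordp L) :=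
  mF_sdiff φ _ _

theorem rnk_map (r : V × V → ℝ) (L : Loc V) (d : V × V) :
    rnk (mt φ r) (Loc.map φ L) (mp φ d) = rnk r L d := by
  unfold rnk
  rw [ordp_map, mF_filter φ (ordp L) _ (fun q => r q < r d) (fun q => by rw [mt_mp, mt_mp]),
    card_mF]

theorem act_map (δ : ℝ) (a : V × V → ℝ) (L : Loc V) :
    act δ (mt φ a) (Loc.map φ L) ↔ act δ a L := by
  unfold act
  rw [Loc.map_ports, card_mF]
  refine and_congr_right fun _ => ?_
  constructor
  · rintro ⟨q, hq, h⟩
    exact ⟨mp φ.symm q, (mem_mF' φ _ q).mp hq, h⟩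
  · rintro ⟨q, hq, h⟩
    exact ⟨mp φ q, (mem_mF φ _ q).mpr hq, by rw [mt_mp]; exact h⟩

theorem rule_mO (δ : ℝ) (a r : V × V → ℝ) (σ : St V) :
    rule δ (mt φ a) (mt φ r) (St.map φ σ) = mO φ (rule δ a r σ) := by
  ext d
  have key : ∀ d, mp φ d ∈ rule δ (mt φ a) (mt φ r) (St.map φ σ) ↔ d ∈ rule δ a r σ := by
    intro d
    unfold rule
    simp only [Set.mem_ofPred_eq, map_fst, Loc.map_ports, mem_mF, act_map, ordp_map, card_mF,
      Loc.map_spec, rnk_map]
  have := key (mp φ.symm d)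
  rw [mp_mp_symm] at this
  exact this

/-! halving -/

theorem rk_map (r : V × V → ℝ) (P : Finset (V × V)) (d : V × V) :
    rk (mt φ r) (mF φ P) (mp φ d) = rk r P d := by
  unfold rk
  rw [mF_filter φ P _ (fun q => r q < r d) (fun q => by rw [mt_mp, mt_mp]), card_mF]

theorem Mate_map (b : Bool) (r : V × V → ℝ) (P : Finset (V × V)) (d g : V × V) :
    Mate b (mt φ r) (mF φ P) (mp φ d) (mp φ g) ↔ Mate b r P d g := by
  unfold Mate
  simp only [mem_mF, card_mF, rk_map]

theorem nx_map (b : Bool) (r : V × V → ℝ) (σ : St V) (d : V × V) :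
    nx b (mt φ r) (St.map φ σ) (mp φ d) = (nx b r σ d).map (mp φ) := by
  have hP : (St.map φ σ (mp φ d).2).ports = mF φ (σ d.2).ports := by
    rw [map_snd]; rfl
  have htr : ∀ g, Mate b (mt φ r) (St.map φ σ (mp φ d).2).ports (mp φ d).swap (mp φ g) ↔
      Mate b r (σ d.2).ports d.swap g := by
    intro g
    rw [hP, mp_swap, Mate_map]
  unfold nx
  by_cases h : ∃! g, Mate b r (σ d.2).ports d.swap g
  · have h' : ∃! g, Mate b (mt φ r) (St.map φ σ (mp φ d).2).ports (mp φ d).swap g := by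
      obtain ⟨g, hg, hu⟩ := h
      refine ⟨mp φ g, (htr g).mpr hg, fun k hk => ?_⟩
      have := hu (mp φ.symm k) ((htr _).mp (by rw [mp_mp_symm]; exact hk))
      rw [← this, mp_mp_symm]
    rw [dif_pos h, dif_pos h']
    show some h'.exists.choose = some (mp φ h.exists.choose)
    congr 1
    exact h'.unique h'.exists.choose_spec ((htr _).mpr h.exists.choose_spec)
  · have h' : ¬ ∃! g, Mate b (mt φ r) (St.map φ σ (mp φ d).2).ports (mp φ d).swap g := by
      rintro ⟨g, hg, hu⟩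
      apply h
      refine ⟨mp φ.symm g, (htr _).mp (by rw [mp_mp_symm]; exact hg), fun k hk => ?_⟩
      have := hu (mp φ k) ((htr _).mpr hk)
      rw [← this, mp_symm_mp]
    rw [dif_neg h, dif_neg h']
    rfl

theorem wk_map (b : Bool) (r : V × V → ℝ) (σ : St V) (n : ℕ) (d : V × V) :
    wk b (mt φ r) (St.map φ σ) n (mp φ d) = (wk b r σ n d).map (mp φ) := by
  induction n with
  | zero => rfl
  | succ n ih =>
    rw [wk, wk, ih]
    cases wk b r σ n d with
    | none => rfl
    | some e => exact nx_map φ b r σ e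

theorem Stop_map (b : Bool) (r : V × V → ℝ) (σ : St V) (d : V × V) (n : ℕ) (u : V × V) :
    Stop b (mt φ r) (St.map φ σ) (mp φ d) n (mp φ u) ↔ Stop b r σ d n u := by
  unfold Stop
  rw [wk_map, mp_swap, nx_map]
  refine and_congr ?_ ?_
  · rw [← Option.map_some (f := mp φ)]
    exact (Option.map_injective (mp_inj φ)).eq_iff
  · exact Option.map_eq_none_iff

theorem col_map (b : Bool) (a t r : V × V → ℝ) (σ : St V) (e : V × V) :
    col b (mt φ a) (mt φ t) (mt φ r) (St.map φ σ) (mp φ e) ↔ col b a t r σ e := by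
  unfold col
  constructor
  · rintro ⟨n, m, u, w, h1, h2, h3⟩
    refine ⟨n, m, mp φ.symm u, mp φ.symm w, ?_, ?_, ?_⟩
    · rw [← Stop_map φ, mp_mp_symm]; exact h1
    · rw [← Stop_map φ, mp_mp_symm, ← mp_swap]; exact h2
    · exact h3
  · rintro ⟨n, m, u, w, h1, h2, h3⟩
    refine ⟨n, m, mp φ u, mp φ w, ?_, ?_, ?_⟩
    · rw [Stop_map]; exact h1
    · rw [mp_swap, Stop_map]; exact h2
    · rw [mt_mp, mt_mp, mt_mp, mt_mp]; exact h3

theorem halve_map (b : Bool) (a t r : V × V → ℝ) (σ : St V) :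
    halve b (mt φ a) (mt φ t) (mt φ r) (St.map φ σ) = St.map φ (halve b a t r σ) := by
  refine St.ext_map φ fun v => ?_
  unfold halve
  simp only [St.map_apply]
  refine Loc.ext_map φ rfl ?_ ?_ fun p => Loc.map_M φ _ _
  · exact mF_filter φ _ _ _ fun d => col_map φ b a t r σ d
  · exact mF_filter φ _ _ _ fun d => col_map φ b a t r σ d

/-! predicates -/

theorem alive_map (σ : St V) (p : V × V) : alive (St.map φ σ) (mp φ p) ↔ alive σ p := by
  unfold alive
  rw [map_fst, Loc.map_ports, mem_mF]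

theorem Dec_mp (σ : St V) (v w : V) : Dec (St.map φ σ) (φ v) (φ w) ↔ Dec σ v w := by
  unfold Dec
  rw [St.map_apply, Loc.map_ports]
  constructor
  · intro h p hp
    have := h (mp φ p) ((mem_mF φ _ p).mpr hp)
    rw [Loc.map_M] at this
    exact φ.injective this
  · intro h p hp
    have := h (mp φ.symm p) ((mem_mF' φ _ p).mp hp)
    show φ ((σ v).M (mp φ.symm p)) = φ w
    rw [this]

theorem val_map (L : Loc V) (p r : V × V) :
    val (Loc.map φ L) (mp φ p) (mp φ r) ↔ val L p r := by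
  unfold val
  rw [Loc.map_spec, mem_mF, (mp_inj φ).eq_iff, (mp_inj φ).ne_iff]

/-! observables -/

theorem onw_map (σ : St V) (p : V × V) : onw (St.map φ σ) (mp φ p) = mF φ (onw σ p) := by
  unfold onw
  rw [map_snd, Loc.map_ports, mp_swap, mF_erase]

theorem bu_map (O : Set (V × V)) (σ : St V) (p : V × V) :
    bu (mO φ O) (St.map φ σ) (mp φ p) = mF φ (bu O σ p) := by
  unfold bu
  rw [onw_map]
  exact mF_filter φ _ _ _ fun d => not_congr (opd_map φ O d)

theorem tr_map (O : Set (V × V)) (σ : St V) (p : V × V) :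
    tr (mO φ O) (St.map φ σ) (mp φ p) ↔ tr O σ p := by
  unfold tr
  rw [bu_map, card_mF, map_snd, mp_swap, Loc.map_spec, mem_mF]

theorem hp_map (O : Set (V × V)) (σ : St V) (p q : V × V) :
    hp (mO φ O) (St.map φ σ) (mp φ p) (mp φ q) ↔ hp O σ p q := by
  unfold hp
  rw [opd_map, map_snd, Loc.map_spec, mem_mF, bu_map, card_mF, tr_map]

theorem mF_eq_empty (S : Finset (V × V)) : mF φ S = ∅ ↔ S = ∅ := Finset.image_eq_empty

theorem passS_map (L : Loc V) : passS (Loc.map φ L) ↔ passS L := by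
  unfold passS
  rw [Loc.map_spec, Loc.map_ports, card_mF, mF_eq_empty]

theorem forall_mF (S : Finset (V × V)) (P Q : V × V → Prop) (h : ∀ d, P (mp φ d) ↔ Q d) :
    (∀ q ∈ mF φ S, P q) ↔ ∀ q ∈ S, Q q := by
  constructor
  · intro H q hq
    exact (h q).mp (H _ ((mem_mF φ S q).mpr hq))
  · intro H q hq
    have := (h (mp φ.symm q)).mpr (H _ ((mem_mF' φ S q).mp hq))
    rwa [mp_mp_symm] at this

theorem pass_map (O : Set (V × V)) (L : Loc V) :
    pass (mO φ O) (Loc.map φ L) ↔ pass O L := by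
  unfold pass
  rw [passS_map, Loc.map_ports,
    forall_mF φ L.ports (fun q => q ∉ mO φ O) (fun q => q ∉ O) fun d => not_congr (mem_mO φ O d)]

theorem wire_map (L : Loc V) : wire (Loc.map φ L) ↔ wire L := by
  unfold wire
  rw [Loc.map_spec, Loc.map_ports, card_mF, mF_eq_empty]

theorem big_map (L : Loc V) : big (Loc.map φ L) ↔ big L := by
  unfold big
  rw [Loc.map_spec, Loc.map_ports, card_mF, mF_eq_empty]

theorem thr_map (L : Loc V) : thr (Loc.map φ L) ↔ thr L := by
  unfold thr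
  rw [passS_map, Loc.map_ports, card_mF]

theorem allop_map (O : Set (V × V)) (L : Loc V) :
    allop (mO φ O) (Loc.map φ L) ↔ allop O L := by
  unfold allop
  rw [ordp_map, card_mF, Loc.map_ports,
    forall_mF φ L.ports (fun q => q ∈ mO φ O) (fun q => q ∈ O) fun d => mem_mO φ O d]

theorem xw_map (L : Loc V) : xw (Loc.map φ L) = xw L := by
  unfold xw
  rw [Loc.map_ports, card_mF]
  by_cases h : big L
  · rw [if_pos h, if_pos ((big_map φ L).mpr h)]
  · rw [if_neg h, if_neg (fun h' => h ((big_map φ L).mp h'))]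

theorem sum_mF {R : Type*} [AddCommMonoid R] (S : Finset (V × V)) (f g : V × V → R)
    (h : ∀ d, f (mp φ d) = g d) : ∑ q ∈ mF φ S, f q = ∑ q ∈ S, g q := by
  rw [Finset.sum_image fun a _ b _ hab => mp_inj φ hab]
  exact Finset.sum_congr rfl fun d _ => h d

theorem ind_congr {P Q : Prop} (h : P ↔ Q) : ind P = ind Q := by rw [propext h]

theorem Nn_map (O : Set (V × V)) (σ : St V) (j : ℕ) (p : V × V) :
    Nn (mO φ O) (St.map φ σ) j (mp φ p) = Nn O σ j p := by
  induction j generalizing p with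
  | zero => rfl
  | succ j ih =>
    rw [Nn, Nn, onw_map]
    congr 1
    refine sum_mF φ _ _ _ fun d => ?_
    rw [ih, ind_congr (hp_map φ O σ p d)]

theorem NN_map (O : Set (V × V)) (σ : St V) (p : V × V) :
    NN (mO φ O) (St.map φ σ) (mp φ p) = NN O σ p := by
  unfold NN
  exact iSup_congr fun j => Nn_map φ O σ j p

theorem Cn_map (O : Set (V × V)) (σ : St V) (j : ℕ) (p : V × V) :
    Cn (mO φ O) (St.map φ σ) j (mp φ p) = Cn O σ j p := by
  induction j generalizing p with
  | zero => rfl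
  | succ j ih =>
    rw [Cn, Cn, onw_map, bu_map, card_mF]
    congr 1
    refine sum_mF φ _ _ _ fun d => ?_
    rw [ih, ind_congr (opd_map φ O d)]

theorem CC_map (O : Set (V × V)) (σ : St V) (p : V × V) :
    CC (mO φ O) (St.map φ σ) (mp φ p) = CC O σ p := by
  unfold CC
  exact iSup_congr fun j => Cn_map φ O σ j p

theorem hit2_map (O : Set (V × V)) (σ : St V) (e : V × V) :
    hit2 (mO φ O) (St.map φ σ) (mp φ e) = hit2 O σ e := by
  unfold hit2
  rw [onw_map]
  refine sum_mF φ _ _ _ fun p => ?_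
  rw [mF_erase]
  refine sum_mF φ _ _ _ fun q => ?_
  rw [mp_swap, mp_swap, ind_congr (mem_mO φ O p.swap), ind_congr (mem_mO φ O q.swap)]

theorem zb_map (O : Set (V × V)) (σ : St V) (g : V × V) :
    zb (mO φ O) (St.map φ σ) (mp φ g) = zb O σ g := by
  unfold zb
  have h1 : pass (mO φ O) (St.map φ σ (mp φ g).2) ↔ pass O (σ g.2) := by
    rw [map_snd, pass_map]
  rw [ind_congr h1, ind_congr (not_congr h1), onw_map,
    sum_mF φ (onw σ g) (fun q => ind (q.swap ∈ mO φ O)) (fun q => ind (q.swap ∈ O))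
      fun q => by rw [mp_swap]; exact ind_congr (mem_mO φ O q.swap)]

theorem BadP_map (O : Set (V × V)) (σ : St V) (e : V × V) :
    BadP (mO φ O) (St.map φ σ) (mp φ e) = BadP O σ e := by
  unfold BadP
  have hs : ∀ p : V × V, (mp φ p).swap ∈ mO φ O ↔ p.swap ∈ O := fun p => by
    rw [mp_swap]; exact mem_mO φ O p.swap
  have hspec : ∀ p : V × V, (St.map φ σ (mp φ p).2).spec ≠ ∅ ↔ (σ p.2).spec ≠ ∅ := fun p => by
    rw [map_snd, Loc.map_spec]; exact not_congr (mF_eq_empty φ _)
  have hall : ∀ p : V × V, allop (mO φ O) (St.map φ σ (mp φ p).2) ↔ allop O (σ p.2) := fun p => by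
    rw [map_snd, allop_map]
  have hbig : ∀ p : V × V, big (St.map φ σ (mp φ p).2) ↔ big (σ p.2) := fun p => by
    rw [map_snd, big_map]
  have hwire : ∀ p : V × V, wire (St.map φ σ (mp φ p).2) ↔ wire (σ p.2) := fun p => by
    rw [map_snd, wire_map]
  rw [hit2_map, onw_map]
  congr 1
  · congr 1
    · congr 1
      · congr 1
        exact sum_mF φ _ _ _ fun p => ind_congr (and_congr (hs p) (hspec p))
      · exact sum_mF φ _ _ _ fun p => ind_congr (and_congr (hs p) (hall p))
    · exact sum_mF φ _ _ _ fun p =>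
        ind_congr (and_congr (hs p) (and_congr (hbig p) (tr_map φ O σ p)))
  · refine sum_mF φ _ _ _ fun p => ?_
    rw [ind_congr (hwire p), onw_map]
    congr 1
    exact sum_mF φ _ _ _ fun g => zb_map φ O σ g

theorem BadR_map (O : Set (V × V)) (σ : St V) (e : V × V) :
    BadR (mO φ O) (St.map φ σ) (mp φ e) = BadR O σ e := by
  unfold BadR
  have hs : ∀ p : V × V, (mp φ p).swap ∈ mO φ O ↔ p.swap ∈ O := fun p => by
    rw [mp_swap]; exact mem_mO φ O p.swap
  have hspec : ∀ p : V × V, (St.map φ σ (mp φ p).2).spec ≠ ∅ ↔ (σ p.2).spec ≠ ∅ := fun p => by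
    rw [map_snd, Loc.map_spec]; exact not_congr (mF_eq_empty φ _)
  rw [ind_congr (hspec e), onw_map]
  congr 1
  · congr 1
    exact sum_mF φ _ _ _ fun p => by
      rw [ind_congr (not_congr (mem_mO φ O p)), ind_congr (hs p)]
  · exact sum_mF φ _ _ _ fun p => by
      rw [ind_congr (mem_mO φ O p), ind_congr (tr_map φ O σ p)]

theorem Bad_map (O : Set (V × V)) (σ : St V) (e : V × V) :
    Bad (mO φ O) (St.map φ σ) (mp φ e) = Bad O σ e := by
  unfold Bad
  have h1 : pass (mO φ O) (St.map φ σ (mp φ e).2) ↔ pass O (σ e.2) := by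
    rw [map_snd, pass_map]
  have h2 : (¬ pass (mO φ O) (St.map φ σ (mp φ e).2) ∧ (mp φ e).swap ∉ mO φ O) ↔
      (¬ pass O (σ e.2) ∧ e.swap ∉ O) := by
    rw [h1, mp_swap, mem_mO]
  rw [ind_congr h1, ind_congr h2, BadP_map, BadR_map]

theorem und_map (σ : St V) (v : V) : und (St.map φ σ) (φ v) ↔ und σ v := by
  unfold und
  refine not_congr ?_
  constructor
  · rintro ⟨w, hw⟩
    refine ⟨φ.symm w, (Dec_mp φ σ _ _).mp ?_⟩
    rw [φ.apply_symm_apply]; exact hw
  · rintro ⟨w, hw⟩
    exact ⟨φ w, (Dec_mp φ σ _ _).mpr hw⟩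

theorem Loc.map_id (L : Loc V) : Loc.map (Equiv.refl V) L = L := by
  have hmp : mp (Equiv.refl V) = id := rfl
  refine Loc.ext ?_ ?_ ?_ ?_
  · show L.comp.image id = _
    exact Finset.image_id
  · show L.ports.image (mp (Equiv.refl V)) = _
    rw [hmp]; exact Finset.image_id
  · show L.spec.image (mp (Equiv.refl V)) = _
    rw [hmp]; exact Finset.image_id
  · rfl

theorem Loc.map_map (ψ : V ≃ V) (L : Loc V) :
    Loc.map ψ (Loc.map φ L) = Loc.map (φ.trans ψ) L := by
  refine Loc.ext ?_ ?_ ?_ ?_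
  · show (L.comp.image φ).image ψ = _
    rw [Finset.image_image]; rfl
  · show (L.ports.image (mp φ)).image (mp ψ) = _
    rw [Finset.image_image]; rfl
  · show (L.spec.image (mp φ)).image (mp ψ) = _
    rw [Finset.image_image]; rfl
  · rfl

theorem St.map_map (ψ : V ≃ V) (σ : St V) :
    St.map ψ (St.map φ σ) = St.map (φ.trans ψ) σ := by
  funext v
  show Loc.map ψ (Loc.map φ (σ (φ.symm (ψ.symm v)))) = _
  rw [Loc.map_map]; rfl

theorem St.map_refl (σ : St V) : St.map (Equiv.refl V) σ = σ := by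
  funext v
  exact Loc.map_id _

theorem St.map_symm_map (σ : St V) : St.map φ.symm (St.map φ σ) = σ := by
  rw [St.map_map, Equiv.self_trans_symm, St.map_refl]

theorem St.map_map_symm (σ : St V) : St.map φ (St.map φ.symm σ) = σ := by
  rw [St.map_map, Equiv.symm_trans_self, St.map_refl]

end Comb

section Lab

variable {G : SimpleGraph V} (φ : G ≃g G)

theorem adj_map {d : V × V} : G.Adj (mp φ.toEquiv d).1 (mp φ.toEquiv d).2 ↔ G.Adj d.1 d.2 :=
  φ.map_adj_iff

theorem lab_map (l : Lb G) (i : Fin 3) : lab (Lb.map φ l) i = mt φ.toEquiv (lab l i) := by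
  funext d
  unfold mt
  unfold lab
  by_cases h : G.Adj d.1 d.2
  · have h' : G.Adj (mp φ.toEquiv.symm d).1 (mp φ.toEquiv.symm d).2 :=
      (φ.symm.map_adj_iff).2 h
    rw [dif_pos h, dif_pos h']
    rfl
  · have h' : ¬ G.Adj (mp φ.toEquiv.symm d).1 (mp φ.toEquiv.symm d).2 :=
      fun h' => h ((φ.symm.map_adj_iff).1 h')
    rw [dif_neg h, dif_neg h']

theorem OO_map (δ : ℝ) (x : XX G) : OO δ (XX.map φ x) = mO φ.toEquiv (OO δ x) := by
  unfold OO
  show rule δ (lab (Lb.map φ x.2) 0) (lab (Lb.map φ x.2) 2) (St.map φ.toEquiv x.1) = _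
  rw [lab_map, lab_map, rule_mO]

theorem rule_map (δ : ℝ) (φ : G ≃g G) (x : XX G) (d : V × V) :
    mp φ.toEquiv d ∈ OO δ (XX.map φ x) ↔ d ∈ OO δ x := by
  rw [OO_map, mem_mO]

theorem stp_map (δ : ℝ) (φ : G ≃g G) (x : XX G) : stp δ (XX.map φ x) = St.map φ.toEquiv (stp δ x) := by
  unfold stp
  rw [OO_map]
  show step (mO φ.toEquiv (OO δ x)) (lab (Lb.map φ x.2) 1) (St.map φ.toEquiv x.1) = _
  rw [lab_map, step_map]

theorem hv_map (b : Bool) (φ : G ≃g G) (x : XX G) : hv b (XX.map φ x) = St.map φ.toEquiv (hv b x) := by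
  unfold hv
  show halve b (lab (Lb.map φ x.2) 0) (lab (Lb.map φ x.2) 1) (lab (Lb.map φ x.2) 2)
    (St.map φ.toEquiv x.1) = _
  rw [lab_map, lab_map, lab_map, halve_map]

theorem stage_map (J : ℕ) (δ : ℝ) (n : ℕ) (x : XX G) :
    stage J δ n (XX.map φ x) = St.map φ.toEquiv (stage J δ n x) := by
  unfold stage
  split_ifs
  · exact hv_map _ φ x
  · exact stp_map δ φ x

theorem nb_map (v : V) : nb G (φ v) = (nb G v).image φ := by
  have himg : G.neighborSet (φ v) = φ '' G.neighborSet v := by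
    ext u
    rw [Set.mem_image]
    constructor
    · intro hu
      refine ⟨φ.symm u, ?_, φ.apply_symm_apply u⟩
      have : G.Adj (φ v) (φ (φ.symm u)) := by rw [φ.apply_symm_apply]; exact hu
      exact φ.map_adj_iff.mp this
    · rintro ⟨w, hw, rfl⟩
      exact φ.map_adj_iff.mpr hw
  unfold nb
  by_cases h : (G.neighborSet v).Finite
  · have h' : (G.neighborSet (φ v)).Finite := by rw [himg]; exact h.image _
    rw [dif_pos h, dif_pos h']
    ext u
    rw [Set.Finite.mem_toFinset, himg, Finset.mem_image, Set.mem_image]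
    constructor
    · rintro ⟨w, hw, rfl⟩; exact ⟨w, h.mem_toFinset.mpr hw, rfl⟩
    · rintro ⟨w, hw, rfl⟩; exact ⟨w, h.mem_toFinset.mp hw, rfl⟩
  · have h' : ¬ (G.neighborSet (φ v)).Finite := by
      rw [himg]
      exact fun hf => h (Set.Finite.of_finite_image hf φ.injective.injOn)
    rw [dif_neg h, dif_neg h', Finset.image_empty]

theorem init_map (φ : G ≃g G) : St.map φ.toEquiv (init G) = init G := by
  symm
  refine St.ext_map φ.toEquiv fun v => ?_
  refine Loc.ext_map φ.toEquiv ?_ ?_ ?_ fun p => rfl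
  · show ({φ v} : Finset V) = ({v} : Finset V).image φ
    rw [Finset.image_singleton]
  · refine mF_ext φ.toEquiv _ _ fun d => ?_
    show mp φ.toEquiv d ∈ (nb G (φ v)).image (fun u => (φ v, u)) ↔
      d ∈ (nb G v).image (fun u => (v, u))
    rw [Finset.mem_image, Finset.mem_image, nb_map]
    constructor
    · rintro ⟨u, hu, h⟩
      obtain ⟨w, hw, rfl⟩ := Finset.mem_image.mp hu
      refine ⟨w, hw, ?_⟩
      have h1 : φ v = φ d.1 := congrArg Prod.fst h
      have h2 : φ w = φ d.2 := congrArg Prod.snd h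
      exact Prod.ext (φ.injective h1) (φ.injective h2)
    · rintro ⟨u, hu, rfl⟩
      exact ⟨φ u, Finset.mem_image.mpr ⟨u, hu, rfl⟩, rfl⟩
  · rfl

theorem stg_map (ω : Om G) (n : ℕ) : stg (Om.map φ ω) n = Lb.map φ (stg ω n) := rfl

theorem sig_map (J : ℕ) (δ : ℝ) (φ : G ≃g G) (ω : Om G) (n : ℕ) :
    sig J δ (Om.map φ ω) n = St.map φ.toEquiv (sig J δ ω n) := by
  induction n with
  | zero => exact (init_map φ).symm
  | succ n ih =>
    show stage J δ n (sig J δ (Om.map φ ω) n, stg (Om.map φ ω) n) = _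
    rw [ih, stg_map]
    exact stage_map φ J δ n (sig J δ ω n, stg ω n)

theorem WF0_map (φ : G ≃g G) {σ : St V} (h : WF0 G σ) : WF0 G (St.map φ.toEquiv σ) := by
  have hv : ∀ v, v = φ.toEquiv (φ.toEquiv.symm v) := fun v => (φ.toEquiv.apply_symm_apply v).symm
  refine ⟨?_, ?_, ?_, ?_, ?_, ?_⟩
  · intro v
    rw [hv v, St.map_apply, Loc.map_comp', mem_mV]
    exact h.mem _
  · intro v u hu
    rw [hv v, St.map_apply, Loc.map_comp'] at hu
    rw [hv u, mem_mV] at hu
    obtain ⟨h1, h2, h3⟩ := h.eqv _ _ hu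
    rw [hv v, hv u, St.map_apply, St.map_apply]
    refine ⟨?_, ?_, ?_⟩
    · rw [Loc.map_comp', Loc.map_comp', h1]
    · rw [Loc.map_ports, Loc.map_ports, h2]
    · rw [Loc.map_spec, Loc.map_spec, h3]
  · intro v p hp
    rw [hv v, St.map_apply, Loc.map_ports, mem_mF'] at hp
    obtain ⟨h1, h2⟩ := h.tail _ _ hp
    refine ⟨?_, ?_⟩
    · rw [hv v, St.map_apply, Loc.map_comp', hv p.1, mem_mV]
      exact h1
    · exact (φ.symm.map_adj_iff).1 h2
  · intro v p hp
    rw [hv v, St.map_apply, Loc.map_ports, mem_mF'] at hp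
    have := h.swap _ _ hp
    rw [hv p.2, St.map_apply, Loc.map_ports, mem_mF']
    exact this
  · intro v
    rw [hv v, St.map_apply, Loc.map_spec, Loc.map_ports]
    exact Finset.image_subset_image (h.spec_sub _)
  · intro p hp v x hx
    have hp' : mp φ.toEquiv.symm p ∈ (σ (mp φ.toEquiv.symm p).1).ports := by
      rw [hv p.1, St.map_apply, Loc.map_ports, mem_mF'] at hp
      exact hp
    have hx' : φ.toEquiv.symm x ∈ (σ (φ.toEquiv.symm v)).comp := by
      rw [hv v, St.map_apply, Loc.map_comp', hv x, mem_mV] at hx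
      exact hx
    have := h.sep _ hp' _ _ hx'
    have e1 := side_map' φ (mp φ.toEquiv.symm p) (φ.symm x)
    have e2 := side_map' φ (mp φ.toEquiv.symm p) (φ.symm v)
    rw [mp_mp_symm, φ.apply_symm_apply] at e1 e2
    rw [e1, e2]
    exact this

theorem Dec_map (φ : G ≃g G) {σ : St V} {v w : V} :
    Dec (St.map φ.toEquiv σ) (φ v) (φ w) ↔ Dec σ v w :=
  Dec_mp φ.toEquiv σ v w

theorem WF_map (φ : G ≃g G) {σ : St V} (h : WF G σ) : WF G (St.map φ.toEquiv σ) := by
  have hv : ∀ v, v = φ.toEquiv (φ.toEquiv.symm v) := fun v => (φ.toEquiv.apply_symm_apply v).symm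
  have key : ∀ (P : V → Prop), (∀ v, P (φ.toEquiv v)) → ∀ v, P v := by
    intro P h v; rw [hv v]; exact h _
  have keyp : ∀ (P : V × V → Prop), (∀ v, P (mp φ.toEquiv v)) → ∀ v, P v := by
    intro P h v
    have := h (mp φ.toEquiv.symm v)
    rwa [mp_mp_symm] at this
  refine ⟨WF0_map φ h.toWF0, ?_, ?_, ?_, ?_, ?_⟩
  · refine key _ fun v => ?_
    rw [St.map_apply, Loc.map_ports, card_mF]
    exact h.two v
  · refine key _ fun v => ?_
    refine keyp _ fun p hp => ?_
    rw [St.map_apply, Loc.map_ports, mem_mF] at hp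
    rw [St.map_apply, Loc.map_M]
    exact φ.map_adj_iff.mpr (h.adj v p hp)
  · refine key _ fun v => ?_
    refine keyp _ fun r hr hrv => keyp _ fun p hp => ?_
    rw [St.map_apply, Loc.map_ports, mem_mF] at hr hp
    rw [St.map_apply, Loc.map_M, val_map]
    have e : r.1 = v := φ.toEquiv.injective hrv
    rw [← h.out v r hr e p hp]
    exact φ.toEquiv.injective.eq_iff
  · refine key _ fun v => ?_
    refine keyp _ fun p hp hM => ?_
    rw [St.map_apply, Loc.map_ports, mem_mF] at hp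
    rw [St.map_apply, Loc.map_M, Loc.map_comp', mem_mV] at hM
    rw [St.map_apply, Loc.map_M, St.map_apply, Loc.map_M]
    exact congrArg φ.toEquiv (h.inn v p hp hM)
  · refine key _ fun v => ?_
    refine keyp _ fun p hp hM hM2 => ?_
    rw [St.map_apply, Loc.map_ports, mem_mF] at hp
    rw [St.map_apply, Loc.map_M, Loc.map_comp', mem_mV] at hM
    rw [St.map_apply, Loc.map_M, Loc.map_ports] at hM2
    have hM3 : (v, (σ v).M p) ∉ (σ v).ports := by
      intro hin
      exact hM2 ((mem_mF φ.toEquiv _ (v, (σ v).M p)).mpr hin)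
    obtain ⟨h1, h2⟩ := h.ded v p hp hM hM3
    rw [St.map_apply, Loc.map_M]
    exact ⟨(Dec_mp φ.toEquiv σ _ _).mpr h1, (Dec_mp φ.toEquiv σ _ _).mpr h2⟩

end Lab

end Pool.Agent.PM
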