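import Pool.Agent.Lib.MP_947a32_pr.TreeS

/-!
# Piece FAC2 (helper39): property (M) for conditionally local functionals of state and labels
-/

set_option autoImplicit false

open Classical MeasureTheory
open scoped ENNReal

namespace Pool.Agent.PM

variable {V : Type} {G : SimpleGraph V}

/-! ### probability instances -/

instance : IsProbabilityMeasure unif := by
  refine ⟨?_⟩
  unfold unif
  rw [Measure.restrict_apply_univ, Real.volume_Icc]
  norm_num

instance : IsProbabilityMeasure (lam G) := by unfold lam; infer_instance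
instance : IsProbabilityMeasure (PP G) := by unfold PP; infer_instance

/-! ### independence of functions of disjoint coordinates -/

section indep

variable {ι : Type}

/-- the σ-algebra generated by the coordinates in `S` -/
@[reducible] def facSigma (S : Set ι) : MeasurableSpace (ι → ℝ) :=
  ⨆ i ∈ S, MeasurableSpace.comap (fun ω : ι → ℝ => ω i) inferInstance

theorem fac_measurable {β : Type*} [MeasurableSpace β] {S : Set ι}
    {f : (ι → ℝ) → β} (hf : Measurable f)
    (hS : ∀ ω ω' : ι → ℝ, (∀ i ∈ S, ω i = ω' i) → f ω = f ω') :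
    Measurable[facSigma S] f := by
  let r : (ι → ℝ) → (ι → ℝ) := fun ω i => if i ∈ S then ω i else 0
  have hfr : f = f ∘ r := by
    funext ω
    refine hS ω (r ω) fun i hi => ?_
    simp only [r, if_pos hi]
  rw [hfr]
  have hr : @Measurable _ _ (facSigma S) _ r := by
    refine @measurable_pi_lambda _ _ _ (facSigma S) _ r fun i => ?_
    by_cases hi : i ∈ S
    · have : (fun ω => r ω i) = fun ω : ι → ℝ => ω i := by
        funext ω
        simp only [r, if_pos hi]
      rw [this]
      have h1 : MeasurableSpace.comap (fun ω : ι → ℝ => ω i) inferInstance ≤ facSigma S :=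
        le_iSup₂ (f := fun i (_ : i ∈ S) =>
          MeasurableSpace.comap (fun ω : ι → ℝ => ω i) inferInstance) i hi
      exact (comap_measurable _).mono h1 le_rfl
    · have : (fun ω => r ω i) = fun _ : ι → ℝ => (0 : ℝ) := by
        funext ω
        simp only [r, if_neg hi]
      rw [this]
      exact @measurable_const _ _ _ (facSigma S) _
  exact hf.comp hr

theorem facSigma_le (S : Set ι) :
    facSigma S ≤ (MeasurableSpace.pi : MeasurableSpace (ι → ℝ)) := by
  refine iSup₂_le fun i _ => ?_
  exact (measurable_pi_apply i).comap_le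

theorem fac_indep {S T : Set ι} (hST : Disjoint S T) :
    ProbabilityTheory.Indep (facSigma S) (facSigma T)
      (Measure.infinitePi (fun _ : ι => unif)) := by
  refine ProbabilityTheory.indep_iSup_of_disjoint (m := fun i : ι =>
    MeasurableSpace.comap (fun ω : ι → ℝ => ω i) inferInstance) ?_ ?_ hST
  · intro i
    exact (measurable_pi_apply i).comap_le
  · exact ProbabilityTheory.iIndepFun_infinitePi (P := fun _ : ι => unif)
      (X := fun _ (x : ℝ) => x) (fun _ => measurable_id)

/-- Functions of disjoint sets of coordinates are independent. -/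
theorem fac_mul {S T : Set ι} (hST : Disjoint S T)
    {f g : (ι → ℝ) → ℝ≥0∞} (hf : Measurable f) (hg : Measurable g)
    (hS : ∀ ω ω' : ι → ℝ, (∀ i ∈ S, ω i = ω' i) → f ω = f ω')
    (hT : ∀ ω ω' : ι → ℝ, (∀ i ∈ T, ω i = ω' i) → g ω = g ω') :
    ∫⁻ ω, f ω * g ω ∂(Measure.infinitePi (fun _ : ι => unif)) =
      (∫⁻ ω, f ω ∂(Measure.infinitePi (fun _ : ι => unif))) *
        ∫⁻ ω, g ω ∂(Measure.infinitePi (fun _ : ι => unif)) :=
  ProbabilityTheory.lintegral_mul_eq_lintegral_mul_lintegral_of_independent_measurableSpace
    (facSigma_le S) (facSigma_le T) (fac_indep hST)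
    (fac_measurable hf hS) (fac_measurable hg hT)

end indep

/-! ### gluing -/

theorem fac_cross (hG : G.IsTree) {p : V × V} (hp : G.Adj p.1 p.2) {u v : V} (huv : G.Adj u v)
    (hu : side G p u) (hv : ¬ side G p v) : u = p.1 ∧ v = p.2 := by
  have h := side_cross hG hp huv hu hv
  first
    | exact h
    | exact Prod.ext_iff.mp h

/-- the state on the tail side of `e`, singletons on the head side -/
noncomputable def glS (G : SimpleGraph V) (e : V × V) (σ : St V) : St V := fun v =>
  if side G e v then σ v else
    { comp := {v}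
      ports := if v = e.2 then {e.swap} else ∅
      spec := ∅
      M := fun p => p.2 }

/-- the labels on the tail side of `e` -/
noncomputable def glL (e : V × V) (l : Lb G) : Lb G := fun i =>
  if side G e i.1.1.1 then l i else 0

theorem glS_pos {e : V × V} (σ : St V) {v : V} (h : side G e v) : glS G e σ v = σ v := by
  simp only [glS, if_pos h]

theorem glS_neg {e : V × V} (σ : St V) {v : V} (h : ¬ side G e v) :
    glS G e σ v = { comp := {v}, ports := if v = e.2 then {e.swap} else ∅, spec := ∅,
                    M := fun p => p.2 } := by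
  simp only [glS, if_neg h]

theorem glS_alive {e : V × V} (he : G.Adj e.1 e.2) {σ : St V} (ha : alive σ e) :
    alive (glS G e σ) e := by
  unfold alive at *
  rw [glS_pos σ (side_fst he)]
  exact ha

theorem glS_side {e : V × V} {σ : St V} (h : WF0 G σ)
    (ha : alive σ e) {v u : V} (hv : side G e v) (hu : u ∈ (σ v).comp) : side G e u :=
  (h.sep e ha v u hu).mpr hv

theorem glS_WF0 (hG : G.IsTree) {e : V × V} (he : G.Adj e.1 e.2) {σ : St V} (h : WF0 G σ)
    (ha : alive σ e) : WF0 G (glS G e σ) := by
  have hs : ∀ {v u : V}, side G e v → u ∈ (σ v).comp → side G e u := fun hv hu =>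
    glS_side h ha hv hu
  constructor
  · intro v
    by_cases hv : side G e v
    · rw [glS_pos σ hv]; exact h.mem v
    · rw [glS_neg σ hv]; simp
  · intro v u hu
    by_cases hv : side G e v
    · rw [glS_pos σ hv] at hu ⊢
      rw [glS_pos σ (hs hv hu)]
      exact h.eqv v u hu
    · rw [glS_neg σ hv] at hu
      have : u = v := by simpa using hu
      subst this
      exact ⟨rfl, rfl, rfl⟩
  · intro v p hp
    by_cases hv : side G e v
    · rw [glS_pos σ hv] at hp ⊢
      exact h.tail v p hp
    · rw [glS_neg σ hv] at hp ⊢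
      simp only at hp ⊢
      by_cases hve : v = e.2
      · rw [if_pos hve] at hp
        have hpe : p = e.swap := by simpa using hp
        subst hpe
        refine ⟨by simp [hve], he.symm⟩
      · rw [if_neg hve] at hp
        simp at hp
  · intro v p hp
    by_cases hv : side G e v
    · rw [glS_pos σ hv] at hp
      obtain ⟨h1, h2⟩ := h.tail v p hp
      have hp1 : side G e p.1 := hs hv h1
      by_cases hp2 : side G e p.2
      · rw [glS_pos σ hp2]
        exact h.swap v p hp
      · obtain ⟨h3, h4⟩ := fac_cross hG he h2 hp1 hp2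
        have hpe : p = e := Prod.ext h3 h4
        subst hpe
        rw [glS_neg σ hp2]
        simp
    · rw [glS_neg σ hv] at hp
      simp only at hp
      by_cases hve : v = e.2
      · rw [if_pos hve] at hp
        have hpe : p = e.swap := by simpa using hp
        subst hpe
        have : side G e e.1 := side_fst he
        show e ∈ (glS G e σ e.1).ports
        rw [glS_pos σ this]
        exact ha
      · rw [if_neg hve] at hp
        simp at hp
  · intro v
    by_cases hv : side G e v
    · rw [glS_pos σ hv]; exact h.spec_sub v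
    · rw [glS_neg σ hv]; simp
  · intro p hp v x hx
    by_cases hv : side G e v
    · rw [glS_pos σ hv] at hx
      by_cases hp1 : side G e p.1
      · rw [glS_pos σ hp1] at hp
        exact h.sep p hp v x hx
      · rw [glS_neg σ hp1] at hp
        simp only at hp
        by_cases hve : p.1 = e.2
        · rw [if_pos hve] at hp
          have hpe : p = e.swap := by simpa using hp
          subst hpe
          rw [← side_iff hG he x, ← side_iff hG he v]
          have := h.sep e ha v x hx
          tauto
        · rw [if_neg hve] at hp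
          simp at hp
    · rw [glS_neg σ hv] at hx
      have : x = v := by simpa using hx
      subst this
      exact Iff.rfl

theorem gl_congr {e : V × V} {σ σ' : St V} (h : ∀ v, side G e v → σ v = σ' v) :
    glS G e σ = glS G e σ' := by
  funext v
  by_cases hv : side G e v
  · rw [glS_pos σ hv, glS_pos σ' hv, h v hv]
  · rw [glS_neg σ hv, glS_neg σ' hv]

theorem glL_congr {e : V × V} {l l' : Lb G}
    (h : ∀ i : Dt G × Fin 3, side G e i.1.1.1 → l i = l' i) : glL e l = glL e l' := by
  funext i
  unfold glL
  by_cases hi : side G e i.1.1.1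
  · rw [if_pos hi, if_pos hi, h i hi]
  · rw [if_neg hi, if_neg hi]

theorem gl_agr (e : V × V) (x : XX G) : Agr G e x (glS G e x.1, glL e x.2) := by
  refine ⟨fun v hv => (glS_pos x.1 hv).symm, fun d i hd => ?_⟩
  simp only [glL, if_pos hd]

theorem meas_glS (e : V × V) : Measurable (glS G e) := by
  refine measurable_pi_lambda _ fun v => ?_
  by_cases hv : side G e v
  · have : (fun σ : St V => glS G e σ v) = fun σ => σ v := by
      funext σ; exact glS_pos σ hv
    rw [this]
    exact measurable_pi_apply v
  · have : (fun σ : St V => glS G e σ v) = fun _ =>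
        { comp := {v}, ports := if v = e.2 then {e.swap} else ∅, spec := ∅,
          M := fun p => p.2 } := by
      funext σ; exact glS_neg σ hv
    rw [this]
    exact measurable_const

theorem meas_glL (e : V × V) : Measurable (glL (G := G) e) := by
  refine measurable_pi_lambda _ fun i => ?_
  by_cases hi : side G e i.1.1.1
  · have : (fun l : Lb G => glL e l i) = fun l => l i := by
      funext l; simp only [glL, if_pos hi]
    rw [this]
    exact measurable_pi_apply i
  · have : (fun l : Lb G => glL e l i) = fun _ => (0 : ℝ) := by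
      funext l; simp only [glL, if_neg hi]
    rw [this]
    exact measurable_const

/-- the surely local version of a conditionally local functional -/
noncomputable def fac_ext (e : V × V) (f : XX G → ℝ≥0∞) : XX G → ℝ≥0∞ := fun x =>
  f (glS G e x.1, glL e x.2)

theorem meas_fac_ext (e : V × V) {f : XX G → ℝ≥0∞} (hf : Measurable f) :
    Measurable (fac_ext e f) := by
  unfold fac_ext
  exact hf.comp (((meas_glS e).comp measurable_fst).prodMk ((meas_glL e).comp measurable_snd))

theorem fac_ext_eq (hG : G.IsTree) {e : V × V} (he : G.Adj e.1 e.2) {f : XX G → ℝ≥0∞}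
    (hf : Lc G e f) {x : XX G} (h : WF0 G x.1) (ha : alive x.1 e) : fac_ext e f x = f x := by
  unfold fac_ext
  exact (hf x (glS G e x.1, glL e x.2) h (glS_WF0 hG he h ha) ha (glS_alive he ha)
    (gl_agr e x)).symm

theorem fac_meas_alive (e : V × V) : Measurable (fun σ : St V => ind (alive σ e)) := by
  have h1 : Measurable[_, ⊤] (fun L : Loc V => L.ports) := by
    have hle : MeasurableSpace.comap (fun L : Loc V => L.ports) ⊤ ≤
        (inferInstance : MeasurableSpace (Loc V)) := by
      refine le_trans ?_ le_sup_left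
      exact le_trans le_sup_right le_sup_left
    exact measurable_iff_comap_le.mpr hle
  have h2 : Measurable[_, ⊤] (fun σ : St V => (σ e.1).ports) := h1.comp (measurable_pi_apply e.1)
  have h3 : @Measurable _ _ ⊤ _ (fun P : Finset (V × V) => ind (e ∈ P)) :=
    @measurable_from_top _ _ _ _
  exact @Measurable.comp _ _ _ _ ⊤ _ _ _ h3 h2

/-- property (M) for functionals of state and labels that are conditionally local -/
theorem fac2 [Countable V] {μ : Measure (St V)} (hG : G.IsTree) (hL : Law G μ) {e : V × V}
    (he : G.Adj e.1 e.2)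
    {f g : XX G → ℝ≥0∞} (hf : Measurable f) (hg : Measurable g) (hfl : Lc G e f)
    (hgl : Lc G e.swap g) :
    (∫⁻ x, ind (alive x.1 e) * (f x * g x) ∂(μ.prod (lam G))) * μ {σ | alive σ e} =
      (∫⁻ x, ind (alive x.1 e) * f x ∂(μ.prod (lam G))) *
        (∫⁻ x, ind (alive x.1 e) * g x ∂(μ.prod (lam G))) := by
  have := hL.prob
  have hms : e.swap.swap = e := Prod.swap_swap e
  have hes : G.Adj e.swap.1 e.swap.2 := he.symm
  have hwf : ∀ᵐ x ∂(μ.prod (lam G)), WF G x.1 :=
    Measure.quasiMeasurePreserving_fst.ae hL.wf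
  have halv : ∀ {σ : St V}, WF0 G σ → alive σ e → alive σ e.swap := by
    intro σ h ha
    exact h.swap e.1 e ha
  have eF : ∀ᵐ x ∂(μ.prod (lam G)),
      ind (alive x.1 e) * f x = ind (alive x.1 e) * fac_ext e f x := by
    filter_upwards [hwf] with x hx
    by_cases ha : alive x.1 e
    · rw [fac_ext_eq hG he hfl hx.toWF0 ha]
    · simp [ind, ha]
  have eG : ∀ᵐ x ∂(μ.prod (lam G)),
      ind (alive x.1 e) * g x = ind (alive x.1 e) * fac_ext e.swap g x := by
    filter_upwards [hwf] with x hx
    by_cases ha : alive x.1 e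
    · rw [fac_ext_eq hG hes hgl hx.toWF0 (halv hx.toWF0 ha)]
    · simp [ind, ha]
  have eFG : ∀ᵐ x ∂(μ.prod (lam G)), ind (alive x.1 e) * (f x * g x) =
      ind (alive x.1 e) * (fac_ext e f x * fac_ext e.swap g x) := by
    filter_upwards [hwf] with x hx
    by_cases ha : alive x.1 e
    · rw [fac_ext_eq hG he hfl hx.toWF0 ha, fac_ext_eq hG hes hgl hx.toWF0 (halv hx.toWF0 ha)]
    · simp [ind, ha]
  rw [lintegral_congr_ae eF, lintegral_congr_ae eG, lintegral_congr_ae eFG]
  have mf := meas_fac_ext e hf
  have mg := meas_fac_ext e.swap hg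
  have mi : Measurable (fun x : XX G => ind (alive x.1 e)) :=
    (fac_meas_alive e).comp measurable_fst
  have j1 : ∫⁻ x, ind (alive x.1 e) * (fac_ext e f x * fac_ext e.swap g x) ∂(μ.prod (lam G)) =
      ∫⁻ σ, ∫⁻ l, ind (alive (σ, l).1 e) * (fac_ext e f (σ, l) * fac_ext e.swap g (σ, l))
        ∂(lam G) ∂μ := lintegral_prod _ (mi.mul (mf.mul mg)).aemeasurable
  have j2 : ∫⁻ x, ind (alive x.1 e) * fac_ext e f x ∂(μ.prod (lam G)) =
      ∫⁻ σ, ∫⁻ l, ind (alive (σ, l).1 e) * fac_ext e f (σ, l) ∂(lam G) ∂μ :=
    lintegral_prod _ (mi.mul mf).aemeasurable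
  have j3 : ∫⁻ x, ind (alive x.1 e) * fac_ext e.swap g x ∂(μ.prod (lam G)) =
      ∫⁻ σ, ∫⁻ l, ind (alive (σ, l).1 e) * fac_ext e.swap g (σ, l) ∂(lam G) ∂μ :=
    lintegral_prod _ (mi.mul mg).aemeasurable
  rw [j1, j2, j3]
  -- inner integrals
  have mf' : ∀ σ : St V, Measurable (fun l : Lb G => fac_ext e f (σ, l)) := fun σ =>
    mf.comp (measurable_const.prodMk measurable_id)
  have mg' : ∀ σ : St V, Measurable (fun l : Lb G => fac_ext e.swap g (σ, l)) := fun σ =>
    mg.comp (measurable_const.prodMk measurable_id)
  have i1 : ∀ σ : St V, ∫⁻ l, ind (alive (σ, l).1 e) * fac_ext e f (σ, l) ∂(lam G) =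
      ind (alive σ e) * ∫⁻ l, fac_ext e f (σ, l) ∂(lam G) := fun σ =>
    lintegral_const_mul (ind (alive σ e)) (mf' σ)
  have i2 : ∀ σ : St V, ∫⁻ l, ind (alive (σ, l).1 e) * fac_ext e.swap g (σ, l) ∂(lam G) =
      ind (alive σ e) * ∫⁻ l, fac_ext e.swap g (σ, l) ∂(lam G) := fun σ =>
    lintegral_const_mul (ind (alive σ e)) (mg' σ)
  have hdis : Disjoint {i : Dt G × Fin 3 | side G e i.1.1.1}
      {i : Dt G × Fin 3 | side G e.swap i.1.1.1} := by
    refine Set.disjoint_left.mpr fun i hi hi' => ?_
    exact (side_iff hG he _).mpr hi' hi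
  have i3 : ∀ σ : St V,
      ∫⁻ l, ind (alive (σ, l).1 e) * (fac_ext e f (σ, l) * fac_ext e.swap g (σ, l)) ∂(lam G) =
      ind (alive σ e) * ((∫⁻ l, fac_ext e f (σ, l) ∂(lam G)) *
        ∫⁻ l, fac_ext e.swap g (σ, l) ∂(lam G)) := by
    intro σ
    have hc : ∫⁻ l, ind (alive (σ, l).1 e) *
        (fac_ext e f (σ, l) * fac_ext e.swap g (σ, l)) ∂(lam G) =
        ind (alive σ e) * ∫⁻ l, fac_ext e f (σ, l) * fac_ext e.swap g (σ, l) ∂(lam G) :=
      lintegral_const_mul (ind (alive σ e)) ((mf' σ).mul (mg' σ))
    rw [hc]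
    congr 1
    refine fac_mul hdis (mf' σ) (mg' σ) ?_ ?_
    · intro l l' hl
      unfold fac_ext
      simp only
      rw [glL_congr (l := l) (l' := l') hl]
    · intro l l' hl
      unfold fac_ext
      simp only
      rw [glL_congr (l := l) (l' := l') hl]
  simp only [i1, i2, i3]
  refine hL.fac e he _ _ mf.lintegral_prod_right' mg.lintegral_prod_right' ?_ ?_
  · intro σ σ' hs
    refine lintegral_congr fun l => ?_
    unfold fac_ext
    simp only
    rw [gl_congr hs]
  · intro σ σ' hs
    refine lintegral_congr fun l => ?_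
    unfold fac_ext
    simp only
    rw [gl_congr hs]

end Pool.Agent.PM
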