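import Pool.Agent.Lib.MP_947a32_pr.Transfer68

set_option autoImplicit false
set_option linter.unusedSectionVars false

namespace MP947a32

namespace Transfer

/-- `f` is (strictly) finitary at `ω`: every output coordinate is determined by finitely many
input coordinates of `ω`. -/
def FinAt {I J X Y : Type*} (f : (I → X) → J → Y) (ω : I → X) : Prop :=
  ∀ j, ∃ s : Finset I, ∀ ω' : I → X, (∀ i ∈ s, ω' i = ω i) → f ω' j = f ω j

namespace FinAt

variable {I J K X Y Z W : Type*}

theorem comp {f : (I → X) → J → Y} {g : (J → Y) → K → Z} {ω : I → X}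
    (hf : FinAt f ω) (hg : FinAt g (f ω)) : FinAt (fun ω => g (f ω)) ω := by
  classical
  intro k
  obtain ⟨t, ht⟩ := hg k
  choose s hs using hf
  refine ⟨t.biUnion s, fun ω' h => ht _ fun j hj => ?_⟩
  exact hs j ω' fun i hi => h i (Finset.mem_biUnion.mpr ⟨j, hj, hi⟩)

theorem pair {f : (I → X) → J → Y} {g : (I → X) → J → Z} {ω : I → X}
    (hf : FinAt f ω) (hg : FinAt g ω) : FinAt (fun ω j => (f ω j, g ω j)) ω := by
  classical
  intro j
  obtain ⟨s, hs⟩ := hf j
  obtain ⟨t, ht⟩ := hg j
  refine ⟨s ∪ t, fun ω' h => ?_⟩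
  show (f ω' j, g ω' j) = (f ω j, g ω j)
  rw [hs ω' fun i hi => h i (Finset.mem_union_left _ hi),
    ht ω' fun i hi => h i (Finset.mem_union_right _ hi)]

theorem map {f : (I → X) → J → Y} {ω : I → X} (hf : FinAt f ω) (h : J → Y → Z) :
    FinAt (fun ω j => h j (f ω j)) ω := by
  intro j
  obtain ⟨s, hs⟩ := hf j
  exact ⟨s, fun ω' h' => congrArg (h j) (hs ω' h')⟩

theorem sum {f : (I → X) → J → Z} {g : (I → X) → K → Z} {ω : I → X}
    (hf : FinAt f ω) (hg : FinAt g ω) : FinAt (fun ω => Sum.elim (f ω) (g ω)) ω := by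
  rintro (j | k)
  · exact hf j
  · exact hg k

theorem of_eq {f : (I → X) → J → Y} {g : (I → X) → J → Y} {ω : I → X}
    (hf : FinAt f ω) (h : ∀ ω, g ω = f ω) : FinAt g ω := by
  have : g = f := funext h
  rw [this]; exact hf

theorem coord (h : J → X → Y) (e : J → I) (ω : I → X) :
    FinAt (fun (ω : I → X) j => h j (ω (e j))) ω := by
  intro j
  refine ⟨{e j}, fun ω' h' => ?_⟩
  show h j (ω' (e j)) = h j (ω (e j))
  rw [h' (e j) (Finset.mem_singleton_self _)]

theorem id (ω : I → X) : FinAt (fun (ω : I → X) => ω) ω :=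
  coord (fun _ x => x) (fun i => i) ω

/-- functions depending on a finite set of coordinates -/
theorem of_dependsOn {f : (I → X) → J → Y} (s : J → Set I) (hs : ∀ j, (s j).Finite)
    (h : ∀ j, DependsOn (fun ω => f ω j) (s j)) (ω : I → X) : FinAt f ω := by
  intro j
  refine ⟨(hs j).toFinset, fun ω' h' => ?_⟩
  exact h j fun i hi => h' i ((hs j).mem_toFinset.mpr hi)

theorem exists_near {V : Type*} {G : SimpleGraph V} {f : (V ⊕ G.Dart → X) → V → Y}
    {ω : V ⊕ G.Dart → X} (hf : FinAt f ω) (v : V) :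
    ∃ r : ℕ, ∀ ω' : V ⊕ G.Dart → X, (∀ i, near G v r i → ω' i = ω i) → f ω' v = f ω v := by
  classical
  obtain ⟨s, hs⟩ := hf v
  refine ⟨s.sup (fun i => match i with
    | Sum.inl u => G.dist v u
    | Sum.inr d => G.dist v d.fst), fun ω' h => hs ω' fun i hi => h i ?_⟩
  have := Finset.le_sup (f := fun i => match i with
    | Sum.inl u => G.dist v u
    | Sum.inr d => G.dist v d.fst) hi
  rcases i with u | d
  · exact this
  · exact this

end FinAt

/-- balls are finite -/
theorem finite_near {V : Type*} {G : SimpleGraph V} (hG : G.IsTree) {Δ : ℕ}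
    (hreg : ∀ v : V, (G.neighborSet v).encard = ((Δ : ℕ) : ℕ∞)) (v : V) (r : ℕ) :
    {i : V ⊕ G.Dart | near G v r i}.Finite := by
  classical
  have h1 : ∀ n, {u | G.dist v u ≤ n}.Finite := by
    intro n
    induction n with
    | zero =>
      refine (Set.finite_singleton v).subset ?_
      intro u hu
      have : G.dist v u = 0 := Nat.le_zero.mp hu
      exact ((Tree.dist_zero_iff hG).mp this).symm
    | succ n ih =>
      refine (ih.union (ih.biUnion (fun u _ => nbr_finite hreg u))).subset ?_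
      intro u hu
      by_cases hun : G.dist v u ≤ n
      · exact Or.inl hun
      · right
        have hu' : G.dist v u ≤ n + 1 := hu
        have hne : u ≠ v := by rintro rfl; simp at hun
        obtain ⟨w, hw, dw⟩ := Tree.exists_parent hG hne
        simp only [Set.mem_iUnion]
        exact ⟨w, by show G.dist v w ≤ n; omega, hw.symm⟩
  have h3 : {d : G.Dart | G.dist v d.fst ≤ r}.Finite := by
    have hs : ((fun d : G.Dart => d.toProd) '' {d : G.Dart | G.dist v d.fst ≤ r}) ⊆
        {u | G.dist v u ≤ r} ×ˢ {u | G.dist v u ≤ r + 1} := by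
      rintro _ ⟨d, hd, rfl⟩
      refine ⟨hd, ?_⟩
      have hd' : G.dist v d.fst ≤ r := hd
      have t := hG.connected.dist_triangle (u := v) (v := d.fst) (w := d.snd)
      rw [SimpleGraph.dist_eq_one_iff_adj.mpr d.adj] at t
      show G.dist v d.snd ≤ r + 1
      omega
    refine Set.Finite.of_finite_image ((((h1 r).prod (h1 (r + 1)))).subset hs) ?_
    intro d _ d' _ h
    exact SimpleGraph.Dart.ext _ _ h
  have h4 : {i : V ⊕ G.Dart | near G v r i} ⊆ Sum.inl '' {u | G.dist v u ≤ r} ∪
      Sum.inr '' {d : G.Dart | G.dist v d.fst ≤ r} := by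
    rintro (u | d) h
    · exact Or.inl ⟨u, h, rfl⟩
    · exact Or.inr ⟨d, h, rfl⟩
  exact (((h1 r).image _).union (h3.image _)).subset h4

end Transfer

end MP947a32
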