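import Pool.Agent.Lib.MP_947a32_pr.Joint
import Pool.Agent.Lib.MP_947a32_pr.Adapter
import Pool.Agent.Lib.MP_947a32_pr.Equi
import Pool.Agent.Lib.MP_947a32_pr.Meas

/-!
# The frozen statement from the core algorithm (helper68)
-/

set_option autoImplicit false

open Classical MeasureTheory
open scoped ENNReal

namespace Pool.Agent.PM

variable {V : Type} {G : SimpleGraph V}


/-- the decided partner, if it is unique -/
noncomputable def fin_part (σ : St V) (v : V) : Option V :=
  if h : ∃! w, Dec σ v w then some h.exists.choose else none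

theorem fin_part_some {σ : St V} {v w : V} :
    fin_part σ v = some w ↔ (∃! w, Dec σ v w) ∧ Dec σ v w := by
  unfold fin_part
  constructor
  · intro h
    split_ifs at h with h1
    have := h1.exists.choose_spec
    rw [Option.some.inj h] at this
    exact ⟨h1, this⟩
  · rintro ⟨h1, h2⟩
    rw [dif_pos h1]
    congr 1
    exact h1.unique h1.exists.choose_spec h2

theorem fin_part_map (φ : G ≃g G) (σ : St V) (v : V) :
    fin_part (St.map φ.toEquiv σ) (φ v) = (fin_part σ v).map φ := by
  have key : ∀ w, fin_part (St.map φ.toEquiv σ) (φ v) = some (φ w) ↔ fin_part σ v = some w := by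
    intro w
    rw [fin_part_some, fin_part_some, Dec_map]
    refine and_congr_left fun _ => ?_
    constructor
    · rintro ⟨u, hu, hun⟩
      refine ⟨φ.symm u, ?_, fun u' hu' => ?_⟩
      · show Dec σ v (φ.symm u)
        rw [← Dec_map φ, φ.apply_symm_apply]; exact hu
      · have := hun (φ u') ((Dec_map φ).mpr hu')
        rw [← this, φ.symm_apply_apply]
    · rintro ⟨u, hu, hun⟩
      refine ⟨φ u, (Dec_map φ).mpr hu, fun u' hu' => ?_⟩
      have : Dec σ v (φ.symm u') := by
        rw [← Dec_map φ, φ.apply_symm_apply]; exact hu'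
      rw [← hun _ this, φ.apply_symm_apply]
  cases h : fin_part σ v with
  | some w => exact (key w).mpr h
  | none =>
    show _ = none
    by_contra hne
    obtain ⟨u, hu⟩ := Option.ne_none_iff_exists'.mp hne
    have := (key (φ.symm u)).mp (by rw [φ.apply_symm_apply]; exact hu)
    rw [h] at this
    exact absurd this (by simp)

theorem meas_part [Countable V] {X : Type} [MeasurableSpace X] {s : X → St V}
    (hs : Measurable s) (v w : V) : MeasurableSet {x | fin_part (s x) v = some w} := by
  have : {x | fin_part (s x) v = some w} =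
      (⋃ g, ({x | Dec (s x) v g} ∩ ⋂ g', ⋂ (_ : g' ≠ g), {x | Dec (s x) v g'}ᶜ)) ∩
        {x | Dec (s x) v w} := by
    ext x
    simp only [Set.mem_ofPred_eq, Set.mem_iUnion, Set.mem_inter_iff, Set.mem_iInter,
      Set.mem_compl_iff, fin_part_some]
    refine and_congr_left fun _ => ?_
    constructor
    · rintro ⟨g, hg, hu⟩
      exact ⟨g, hg, fun g' hne h => hne (hu g' h)⟩
    · rintro ⟨g, hg, hu⟩
      exact ⟨g, hg, fun g' h => by_contra fun hne => hu g' hne h⟩
  rw [this]
  refine MeasurableSet.inter ?_ (meas_Dec hs v w)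
  exact MeasurableSet.iUnion fun g => (meas_Dec hs v g).inter (MeasurableSet.iInter fun g' =>
    MeasurableSet.iInter fun _ => (meas_Dec hs v g').compl)

theorem final (Δ : ℕ) (hΔ : 3 ≤ Δ) (V : Type) (G : SimpleGraph V) (hG : G.IsTree)
    (hreg : ∀ v : V, (G.neighborSet v).encard = ((Δ : ℕ) : ℕ∞)) :
    ∃ (μ : MeasureTheory.Measure ℝ) (_ : MeasureTheory.IsProbabilityMeasure μ)
      (F : (V → ℝ) → V → V),
      (∀ v w : V, MeasurableSet {ω : V → ℝ | F ω v = w}) ∧
      (∀ (φ : G ≃g G) (ω : V → ℝ) (v : V),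
        F (fun u => ω (φ.symm u)) (φ v) = φ (F ω v)) ∧
      (∀ᵐ ω ∂(MeasureTheory.Measure.infinitePi (fun _ : V => μ)),
        ∀ v : V, G.Adj v (F ω v) ∧ F ω (F ω v) = v) ∧
      (∀ᵐ ω ∂(MeasureTheory.Measure.infinitePi (fun _ : V => μ)),
        ∀ v : V, ∃ r : ℕ, ∀ ω' : V → ℝ,
          (∀ u : V, G.dist v u ≤ r → ω' u = ω u) → F ω' v = F ω v) := by
  have hV : Countable V := countable_V hG Δ hreg
  obtain ⟨J, δ, hWF, hdec, hmono, hfin⟩ := core (⟨hG, hreg, hΔ⟩ : Std G Δ)
  have hpart : ∀ {σ : St V}, WF G σ → ∀ {v w : V}, Dec σ v w → fin_part σ v = some w := by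
    intro σ h v w hd
    rw [fin_part_some]
    exact ⟨⟨w, hd, fun w' hw' => Dec_unique h hw' hd⟩, hd⟩
  refine adapter Δ V G hG hreg (fun n ω v => fin_part (sig J δ ω n) v) ?_ ?_ ?_ ?_ ?_ ?_ ?_
  · intro t v w
    exact meas_part (meas_sig J δ t) v w
  · intro t φ ω v
    show fin_part (sig J δ (Om.map φ ω) t) (φ v) = _
    rw [sig_map, fin_part_map]
  · filter_upwards [hWF, hmono] with ω h1 h2 t v w h
    exact hpart (h1 (t + 1)) (h2 t v w (fin_part_some.mp h).2)
  · filter_upwards [hWF] with ω h1 t v w h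
    exact (Dec_symm (h1 t) (fin_part_some.mp h).2).1
  · filter_upwards [hWF] with ω h1 t v w h
    exact hpart (h1 t) (Dec_symm (h1 t) (fin_part_some.mp h).2).2
  · intro t
    filter_upwards [hfin] with ω h v
    obtain ⟨I, hI⟩ := h t v
    refine near_of_finset (fun ω => fin_part (sig J δ ω t) v) v ω ⟨I, fun ω' h' => ?_⟩
    have e := hI ω' h'
    have hD : ∀ w, Dec (sig J δ ω' t) v w ↔ Dec (sig J δ ω t) v w := by
      intro w
      unfold Dec
      rw [e]
    have hD' : Dec (sig J δ ω' t) v = Dec (sig J δ ω t) v := funext fun w => propext (hD w)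
    show fin_part (sig J δ ω' t) v = fin_part (sig J δ ω t) v
    unfold fin_part
    simp only [hD']
  · intro v
    have hA : ∀ᵐ ω ∂(PP G), ∀ᶠ t in Filter.atTop,
        (ω ∈ {ω : Om G | fin_part (sig J δ ω t) v = none} ↔ ω ∈ (∅ : Set (Om G))) := by
      filter_upwards [hWF, hdec, hmono] with ω h1 h2 h3
      obtain ⟨n, w, hw⟩ := h2 v
      refine Filter.eventually_atTop.mpr ⟨n, fun t ht => ?_⟩
      have hDt : Dec (sig J δ ω t) v w := by
        induction ht with
        | refl => exact hw
        | step _ ih => exact h3 _ v w ih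
      have := hpart (h1 t) hDt
      simp [this]
    have hm : ∀ t, MeasurableSet {ω : Om G | fin_part (sig J δ ω t) v = none} := by
      intro t
      have : {ω : Om G | fin_part (sig J δ ω t) v = none} =
          (⋃ w, {ω : Om G | fin_part (sig J δ ω t) v = some w})ᶜ := by
        ext ω
        simp only [Set.mem_ofPred_eq, Set.mem_compl_iff, Set.mem_iUnion, not_exists]
        exact Option.eq_none_iff_forall_ne_some
      rw [this]
      exact (MeasurableSet.iUnion fun w => meas_part (meas_sig J δ t) v w).compl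
    have hp : IsProbabilityMeasure (PP G) := by unfold PP; infer_instance
    have := tendsto_measure_of_ae_tendsto_indicator_of_isFiniteMeasure Filter.atTop
      MeasurableSet.empty hm hA
    simpa using this

end Pool.Agent.PM
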