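import Pool.Agent.Lib.MP_947a32_pr.TreeS

/-! # MP_947a32_pr : the halving stage, pointwise (helper74) -/

set_option autoImplicit false

open Classical MeasureTheory
open scoped ENNReal

namespace Pool.Agent.PM

variable {V : Type} {G : SimpleGraph V}

/-! ### ranks and mates -/

section Rank

variable {r : V × V → ℝ} {P : Finset (V × V)}

theorem rk_lt_of_lt {d g : V × V} (hd : d ∈ P) (h : r d < r g) : rk r P d < rk r P g := by
  unfold rk
  apply Finset.card_lt_card
  rw [Finset.ssubset_iff_of_subset]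
  · exact ⟨d, Finset.mem_filter.mpr ⟨hd, h⟩, fun h2 => lt_irrefl _ (Finset.mem_filter.mp h2).2⟩
  · intro x hx
    rw [Finset.mem_filter] at hx ⊢
    exact ⟨hx.1, hx.2.trans h⟩

theorem rk_inj (hr : ∀ d ∈ P, ∀ g ∈ P, r d = r g → d = g) {d g : V × V} (hd : d ∈ P)
    (hg : g ∈ P) (h : rk r P d = rk r P g) : d = g := by
  rcases lt_trichotomy (r d) (r g) with h1 | h1 | h1
  · have := rk_lt_of_lt hd h1
    omega
  · exact hr d hd g hg h1
  · have := rk_lt_of_lt hg h1
    omega

theorem rk_lt_card {d : V × V} (hd : d ∈ P) : rk r P d < P.card := by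
  unfold rk
  apply Finset.card_lt_card
  rw [Finset.ssubset_iff_of_subset (Finset.filter_subset _ _)]
  exact ⟨d, hd, fun h2 => lt_irrefl _ (Finset.mem_filter.mp h2).2⟩

theorem rk_surj (hr : ∀ d ∈ P, ∀ g ∈ P, r d = r g → d = g) {i : ℕ} (hi : i < P.card) :
    ∃ d ∈ P, rk r P d = i := by
  have h := Finset.surj_on_of_inj_on_of_card_le (s := P) (t := Finset.range P.card)
    (fun d _ => rk r P d) (fun d hd => Finset.mem_range.mpr (rk_lt_card hd))
    (fun d g hd hg h => rk_inj hr hd hg h) (by rw [Finset.card_range]) i (Finset.mem_range.mpr hi)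
  obtain ⟨d, hd, h⟩ := h
  exact ⟨d, hd, h.symm⟩

theorem Mate.symm {b : Bool} {d g : V × V} (h : Mate b r P d g) : Mate b r P g d := by
  obtain ⟨h1, h2, j, h3, h4⟩ := h
  exact ⟨h2, h1, j, h3, h4.symm⟩

theorem Mate.ne {b : Bool} {d g : V × V} (h : Mate b r P d g) : d ≠ g := by
  rintro rfl
  obtain ⟨h1, h2, j, h3, h4⟩ := h
  omega

theorem Mate.unique {b : Bool} (hr : ∀ d ∈ P, ∀ g ∈ P, r d = r g → d = g) {d g g' : V × V}
    (h : Mate b r P d g) (h' : Mate b r P d g') : g = g' := by
  obtain ⟨h1, h2, j, h3, h4⟩ := h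
  obtain ⟨h1', h2', j', h3', h4'⟩ := h'
  apply rk_inj hr h2 h2'
  omega

/-- number of pairs -/
theorem Mate.exists {b : Bool} (hr : ∀ d ∈ P, ∀ g ∈ P, r d = r g → d = g) {j : ℕ}
    (hj : 2 * j + 1 < P.card - (if b then 1 else 0)) :
    ∃ d g, Mate b r P d g ∧ rk r P d = 2 * j ∧ rk r P g = 2 * j + 1 := by
  obtain ⟨d, hd, h1⟩ := rk_surj hr (i := 2 * j) (by omega)
  obtain ⟨g, hg, h2⟩ := rk_surj hr (i := 2 * j + 1) (by omega)
  exact ⟨d, g, ⟨hd, hg, j, hj, Or.inl ⟨h1, h2⟩⟩, h1, h2⟩

/-- if exactly one port of every pair is kept, about half of the ports are kept -/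
theorem half_card {b : Bool} (hr : ∀ d ∈ P, ∀ g ∈ P, r d = r g → d = g) (c : V × V → Prop)
    (hc : ∀ d g, Mate b r P d g → (c d ↔ ¬ c g)) :
    (P.card - (if b then 1 else 0)) / 2 ≤ (P.filter c).card ∧
      (P.filter c).card + (P.card - (if b then 1 else 0)) / 2 ≤ P.card := by
  have key : ∀ c : V × V → Prop, (∀ d g, Mate b r P d g → (c d ↔ ¬ c g)) →
      (P.card - (if b then 1 else 0)) / 2 ≤ (P.filter c).card := by
    intro c hc
    have hsub : Finset.range ((P.card - (if b then 1 else 0)) / 2) ⊆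
        (P.filter c).image (fun d => rk r P d / 2) := by
      intro j hj
      rw [Finset.mem_range] at hj
      obtain ⟨d, g, hm, h1, h2⟩ := Mate.exists (b := b) hr (j := j) (by omega)
      rw [Finset.mem_image]
      by_cases hd : c d
      · exact ⟨d, Finset.mem_filter.mpr ⟨hm.1, hd⟩, by omega⟩
      · have hg : c g := by
          by_contra hg
          exact hd ((hc d g hm).mpr hg)
        exact ⟨g, Finset.mem_filter.mpr ⟨hm.2.1, hg⟩, by omega⟩
    calc (P.card - (if b then 1 else 0)) / 2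
        = (Finset.range ((P.card - (if b then 1 else 0)) / 2)).card := (Finset.card_range _).symm
      _ ≤ _ := Finset.card_le_card hsub
      _ ≤ _ := Finset.card_image_le
  refine ⟨key c hc, ?_⟩
  have h2 := key (fun d => ¬ c d) (by
    intro d g hm
    have := hc d g hm
    tauto)
  have h3 : (P.filter c).card + (P.filter (fun d => ¬ c d)).card = P.card :=
    Finset.card_filter_add_card_filter_not _
  have h4 : (P.card - (if b then 1 else 0)) / 2 ≤ (P.filter (fun d => ¬ c d)).card := by
    convert h2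
  omega

end Rank

/-! ### paths -/

section Paths

variable {b : Bool} {r : V × V → ℝ} {σ : St V}

theorem nx_mate {d g : V × V} (h : nx b r σ d = some g) : Mate b r (σ d.2).ports d.swap g := by
  unfold nx at h
  split_ifs at h with h1
  rw [← Option.some.inj h]
  exact h1.exists.choose_spec

theorem wk_succ' (n : ℕ) (d : V × V) : wk b r σ (n + 1) d = (nx b r σ d).bind (wk b r σ n) := by
  induction n generalizing d with
  | zero =>
    change (some d).bind (nx b r σ) = (nx b r σ d).bind (fun x => some x)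
    simp
  | succ n ih =>
    change (wk b r σ (n + 1) d).bind (nx b r σ) = _
    rw [ih d, Option.bind_assoc]
    rfl

theorem Stop_zero {e u : V × V} : Stop b r σ e 0 u ↔ u = e.swap ∧ nx b r σ e = none := by
  unfold Stop wk
  constructor
  · rintro ⟨h1, h2⟩
    have h3 : e = u.swap := Option.some.inj h1
    subst h3
    exact ⟨(Prod.swap_swap u).symm, h2⟩
  · rintro ⟨rfl, h2⟩
    rw [Prod.swap_swap]
    exact ⟨rfl, h2⟩

theorem Stop_succ_iff {e u : V × V} {n : ℕ} :
    Stop b r σ e (n + 1) u ↔ ∃ g, nx b r σ e = some g ∧ Stop b r σ g n u := by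
  unfold Stop
  rw [wk_succ']
  constructor
  · rintro ⟨h1, h2⟩
    obtain ⟨g, h3, h4⟩ := Option.bind_eq_some_iff.mp h1
    exact ⟨g, h3, h4, h2⟩
  · rintro ⟨g, h3, h4, h2⟩
    exact ⟨Option.bind_eq_some_iff.mpr ⟨g, h3, h4⟩, h2⟩

theorem Stop_succ {e g u : V × V} {n : ℕ} (h : nx b r σ e = some g) :
    Stop b r σ e (n + 1) u ↔ Stop b r σ g n u := by
  rw [Stop_succ_iff]
  constructor
  · rintro ⟨g', h1, h2⟩
    rw [h] at h1
    rwa [Option.some.inj h1]
  · intro h1
    exact ⟨g, h, h1⟩

theorem Stop_unique {e u u' : V × V} {n n' : ℕ} (h : Stop b r σ e n u)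
    (h' : Stop b r σ e n' u') : n = n' ∧ u = u' := by
  induction n generalizing e n' with
  | zero =>
    rw [Stop_zero] at h
    cases n' with
    | zero =>
      rw [Stop_zero] at h'
      exact ⟨rfl, h.1.trans h'.1.symm⟩
    | succ n' =>
      rw [Stop_succ_iff] at h'
      obtain ⟨g, h1, h2⟩ := h'
      rw [h.2] at h1
      exact absurd h1 (by simp)
  | succ n ih =>
    rw [Stop_succ_iff] at h
    obtain ⟨g, h1, h2⟩ := h
    cases n' with
    | zero =>
      rw [Stop_zero] at h'
      rw [h'.2] at h1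
      exact absurd h1 (by simp)
    | succ n' =>
      rw [Stop_succ h1] at h'
      obtain ⟨h3, h4⟩ := ih h2 h'
      exact ⟨by omega, h4⟩

end Paths

/-- hypotheses on the state and the rank labels -/
structure HW (G : SimpleGraph V) (r : V × V → ℝ) (σ : St V) : Prop where
  tree : G.IsTree
  wf : WF0 G σ
  sing : ∀ v, (σ v).comp = {v}
  ti : TI G r

section HWs

variable {b : Bool} {r : V × V → ℝ} {σ : St V}

namespace HW

theorem fst (h : HW G r σ) {v : V} {p : V × V} (hp : p ∈ (σ v).ports) : p.1 = v := by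
  have h1 := (h.wf.tail v p hp).1
  rw [h.sing v, Finset.mem_singleton] at h1
  exact h1

theorem alive (h : HW G r σ) {v : V} {p : V × V} (hp : p ∈ (σ v).ports) : alive σ p := by
  unfold PM.alive
  rw [h.fst hp]
  exact hp

theorem adj (h : HW G r σ) {v : V} {p : V × V} (hp : p ∈ (σ v).ports) : G.Adj p.1 p.2 :=
  (h.wf.tail v p hp).2

theorem swap (h : HW G r σ) {p : V × V} (hp : PM.alive σ p) : PM.alive σ p.swap :=
  h.wf.swap p.1 p hp

theorem inj (h : HW G r σ) (v : V) : ∀ d ∈ (σ v).ports, ∀ g ∈ (σ v).ports, r d = r g → d = g :=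
  fun d hd g hg hdg => h.ti d g (h.adj hd) (h.adj hg) hdg

theorem nx_iff (h : HW G r σ) {d g : V × V} :
    nx b r σ d = some g ↔ Mate b r (σ d.2).ports d.swap g := by
  constructor
  · exact nx_mate
  · intro hm
    unfold nx
    have h1 : ∃! g, Mate b r (σ d.2).ports d.swap g :=
      ⟨g, hm, fun g' hg' => (Mate.unique (h.inj d.2) hg' hm)⟩
    rw [dif_pos h1]
    congr 1
    exact Mate.unique (h.inj d.2) h1.exists.choose_spec hm

theorem nx_none_iff (h : HW G r σ) {d : V × V} :
    nx b r σ d = none ↔ ∀ g, ¬ Mate b r (σ d.2).ports d.swap g := by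
  rw [Option.eq_none_iff_forall_ne_some]
  apply forall_congr'
  intro g
  rw [ne_eq, h.nx_iff]

/-- basic facts on consecutive darts -/
theorem nx_facts (h : HW G r σ) {d g : V × V} (hd : nx b r σ d = some g) :
    PM.alive σ d ∧ PM.alive σ g ∧ g.1 = d.2 ∧ g ≠ d.swap := by
  have hm := nx_mate hd
  have h1 : PM.alive σ d.swap := h.alive hm.1
  refine ⟨?_, h.alive hm.2.1, h.fst hm.2.1, hm.ne.symm⟩
  have := h.swap h1
  rwa [Prod.swap_swap] at this

theorem nx_rev (h : HW G r σ) {d g : V × V} (hd : nx b r σ d = some g) :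
    nx b r σ g.swap = some d.swap := by
  have hm := nx_mate hd
  have hf := h.fst hm.2.1
  rw [h.nx_iff, Prod.swap_swap]
  change Mate b r (σ g.1).ports g d.swap
  rw [hf]
  exact hm.symm

/-- reversal of a path -/
theorem wk_rev (h : HW G r σ) {n : ℕ} {e d : V × V} (hd : wk b r σ n e = some d) :
    wk b r σ n d.swap = some e.swap := by
  induction n generalizing e d with
  | zero =>
    have : e = d := Option.some.inj hd
    rw [this]
    rfl
  | succ n ih =>
    have h1 : (wk b r σ n e).bind (nx b r σ) = some d := hd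
    obtain ⟨d1, h2, h3⟩ := Option.bind_eq_some_iff.mp h1
    rw [wk_succ', h.nx_rev h3]
    exact ih h2

/-- a path stays beyond its first dart -/
theorem wk_side (h : HW G r σ) {n : ℕ} {e d : V × V} (he : PM.alive σ e)
    (hd : wk b r σ n e = some d) :
    PM.alive σ d ∧ ∀ x, ¬ side G d x → ¬ side G e x := by
  induction n generalizing d with
  | zero =>
    have : e = d := Option.some.inj hd
    subst this
    exact ⟨he, fun x hx => hx⟩
  | succ n ih =>
    have h1 : (wk b r σ n e).bind (nx b r σ) = some d := hd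
    obtain ⟨d1, h2, h3⟩ := Option.bind_eq_some_iff.mp h1
    obtain ⟨h4, h5⟩ := ih h2
    obtain ⟨h6, h7, h8, h9⟩ := h.nx_facts h3
    refine ⟨h7, fun x hx => h5 x ?_⟩
    apply side_nest h.tree (h.adj h6) (h.adj h7) _ _ h9 x hx
    · rw [← h8]
      exact side_fst (h.adj h7)
    · rw [h8]
      exact not_side_snd d1

theorem Stop_alive (h : HW G r σ) {n : ℕ} {e u : V × V} (he : PM.alive σ e)
    (hs : Stop b r σ e n u) : PM.alive σ u := by
  have h1 := h.swap (h.wk_side he hs.1).1
  rwa [Prod.swap_swap] at h1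

/-- the end of the path lies beyond its first dart -/
theorem Stop_side (h : HW G r σ) {n : ℕ} {e u : V × V} (he : PM.alive σ e)
    (hs : Stop b r σ e n u) : ¬ side G e u.1 :=
  (h.wk_side he hs.1).2 u.1 (not_side_snd u.swap)

/-- the two ends of a path are different -/
theorem ends_ne (h : HW G r σ) {n m : ℕ} {e u w : V × V} (he : PM.alive σ e)
    (hs : Stop b r σ e n u) (hs' : Stop b r σ e.swap m w) : u ≠ w := by
  rintro rfl
  have h1 := h.Stop_side he hs
  have h2 := h.Stop_side (h.swap he) hs'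
  exact h2 ((side_iff h.tree (h.adj he) _).mp h1)

/-- the path ends at once at a port of top rank -/
theorem nx_none_of_top (h : HW G r σ) {d : V × V}
    (hd : rk r (σ d.2).ports d.swap + 1 = (σ d.2).ports.card)
    (hb : b = true ∨ Odd (σ d.2).ports.card) : nx b r σ d = none := by
  rw [h.nx_none_iff]
  rintro g ⟨h1, h2, j, h3, h4⟩
  rcases hb with rfl | hb
  · simp only [if_true] at h3
    omega
  · obtain ⟨k, hk⟩ := hb
    rcases h4 with ⟨h5, h6⟩ | ⟨h5, h6⟩
    · split_ifs at h3 <;> omega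
    · omega

/-- existence of an unpaired port -/
theorem exists_unpaired (h : HW G r σ) {v : V} (hk : 0 < (σ v).ports.card)
    (hb : b = true ∨ Odd (σ v).ports.card) : ∃ p ∈ (σ v).ports, nx b r σ p.swap = none := by
  obtain ⟨p, hp, h1⟩ := rk_surj (h.inj v) (i := (σ v).ports.card - 1) (by omega)
  have hv := h.fst hp
  refine ⟨p, hp, h.nx_none_of_top ?_ ?_⟩
  · change rk r (σ p.1).ports p + 1 = (σ p.1).ports.card
    rw [hv, h1]
    omega
  · change b = true ∨ Odd (σ p.1).ports.card
    rwa [hv]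

end HW

end HWs

/-! ### colours -/

section Col

variable {b : Bool} {a t r : V × V → ℝ} {σ : St V}

theorem col_iff {e u w : V × V} {n m : ℕ} (hs : Stop b r σ e n u)
    (hs' : Stop b r σ e.swap m w) :
    col b a t r σ e ↔
      ((t u < t w ∧ (a u < 1/2 ↔ Even n)) ∨ (t w < t u ∧ (a w < 1/2 ↔ Even m))) := by
  constructor
  · rintro ⟨n', m', u', w', h1, h2, h3⟩
    obtain ⟨rfl, rfl⟩ := Stop_unique hs h1
    obtain ⟨rfl, rfl⟩ := Stop_unique hs' h2
    exact h3
  · intro h3
    exact ⟨n, m, u, w, hs, hs', h3⟩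

theorem col_swap (e : V × V) : col b a t r σ e.swap ↔ col b a t r σ e := by
  have key : ∀ e : V × V, col b a t r σ e → col b a t r σ e.swap := by
    rintro e ⟨n, m, u, w, h1, h2, h3⟩
    refine ⟨m, n, w, u, h2, ?_, h3.symm⟩
    rwa [Prod.swap_swap]
  constructor
  · intro h
    have := key _ h
    rwa [Prod.swap_swap] at this
  · exact key e

/-- the colours alternate along a path -/
theorem col_alt (h : HW G r σ) (ht : TI G t) {e g : V × V} (hg : nx b r σ e = some g)
    {n m : ℕ} {u w : V × V} (hs : Stop b r σ e n u) (hs' : Stop b r σ e.swap m w) :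
    col b a t r σ g ↔ ¬ col b a t r σ e := by
  obtain ⟨h6, h7, h8, h9⟩ := h.nx_facts hg
  have hne := h.ends_ne h6 hs hs'
  have hu := h.adj (h.Stop_alive h6 hs)
  have hw := h.adj (h.Stop_alive (h.swap h6) hs')
  have htt : t u ≠ t w := fun h1 => hne (ht u w hu hw h1)
  rw [col_iff hs hs']
  cases n with
  | zero =>
    rw [Stop_zero] at hs
    rw [hs.2] at hg
    exact absurd hg (by simp)
  | succ n =>
    rw [Stop_succ hg] at hs
    have hs2 : Stop b r σ g.swap (m + 1) w := (Stop_succ (h.nx_rev hg)).mpr hs'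
    rw [col_iff hs hs2]
    have e1 : Even (n + 1) ↔ ¬ Even n := Nat.even_add_one
    have e2 : Even (m + 1) ↔ ¬ Even m := Nat.even_add_one
    rcases lt_or_gt_of_ne htt with h1 | h1
    · have h2 : ¬ t w < t u := not_lt.mpr h1.le
      tauto
    · have h2 : ¬ t u < t w := not_lt.mpr h1.le
      tauto

/-- `AllStop`: all paths stop -/
def AllStop (b : Bool) (r : V × V → ℝ) (σ : St V) : Prop :=
  ∀ e, PM.alive σ e → ∃ n u, Stop b r σ e n u

/-- exactly one of two mates is kept -/
theorem col_mate (h : HW G r σ) (ht : TI G t) (hs : AllStop b r σ) {v : V} {d g : V × V}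
    (hm : Mate b r (σ v).ports d g) : col b a t r σ d ↔ ¬ col b a t r σ g := by
  have hv : d.1 = v := h.fst hm.1
  have hn : nx b r σ d.swap = some g := by
    rw [h.nx_iff, Prod.swap_swap]
    change Mate b r (σ d.1).ports d g
    rwa [hv]
  obtain ⟨h6, h7, h8, h9⟩ := h.nx_facts hn
  obtain ⟨n, u, h1⟩ := hs _ h6
  obtain ⟨m, w, h2⟩ := hs _ (h.swap h6)
  have h3 := col_alt (a := a) h ht hn h1 h2
  rw [col_swap] at h3
  tauto

/-- degrees of the halved state -/
theorem halve_card (h : HW G r σ) (ht : TI G t) (hs : AllStop b r σ) (v : V) :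
    ((σ v).ports.card - (if b then 1 else 0)) / 2 ≤ (halve b a t r σ v).ports.card ∧
      (halve b a t r σ v).ports.card + ((σ v).ports.card - (if b then 1 else 0)) / 2 ≤
        (σ v).ports.card :=
  half_card (h.inj v) (fun d => col b a t r σ d) (fun _ _ hm => col_mate h ht hs hm)

theorem halve_card_true (h : HW G r σ) (ht : TI G t) (hs : AllStop true r σ) (v : V) :
    2 * (halve true a t r σ v).ports.card ≤ (σ v).ports.card + 2 ∧
      (σ v).ports.card ≤ 2 * (halve true a t r σ v).ports.card + 2 := by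
  have := halve_card (a := a) h ht hs v
  simp only [if_true] at this
  omega

theorem halve_card_false (h : HW G r σ) (ht : TI G t) (hs : AllStop false r σ) (v : V) :
    2 * (halve false a t r σ v).ports.card ≤ (σ v).ports.card + 1 ∧
      (σ v).ports.card ≤ 2 * (halve false a t r σ v).ports.card + 1 := by
  have := halve_card (a := a) h ht hs v
  simp only [Bool.false_eq_true, if_false] at this
  omega

theorem halve_WF0 (h : WF0 G σ) (hs : ∀ v, (σ v).comp = {v}) : WF0 G (halve b a t r σ) := by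
  constructor
  · exact h.mem
  · intro v u hu
    have h1 : u = v := by
      have : u ∈ (σ v).comp := hu
      rw [hs v, Finset.mem_singleton] at this
      exact this
    subst h1
    exact ⟨rfl, rfl, rfl⟩
  · intro v p hp
    exact h.tail v p (Finset.mem_filter.mp hp).1
  · intro v p hp
    obtain ⟨h1, h2⟩ := Finset.mem_filter.mp hp
    exact Finset.mem_filter.mpr ⟨h.swap v p h1, (col_swap p).mpr h2⟩
  · intro v p hp
    obtain ⟨h1, h2⟩ := Finset.mem_filter.mp hp
    exact Finset.mem_filter.mpr ⟨h.spec_sub v h1, h2⟩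
  · intro p hp v x hx
    have h1 : x = v := by
      have : x ∈ (σ v).comp := hx
      rw [hs v, Finset.mem_singleton] at this
      exact this
    subst h1
    exact Iff.rfl

/-- a state with singleton comps, no flips and degrees at least 2 is valid -/
theorem WF_of_sing (h : WF0 G σ)
    (hs : ∀ v, (σ v).comp = {v} ∧ (σ v).spec = ∅ ∧ (σ v).M = fun p => p.2)
    (h2 : ∀ v, 2 ≤ (σ v).ports.card) : WF G σ := by
  have hf : ∀ v, ∀ p ∈ (σ v).ports, p.1 = v := by
    intro v p hp
    have h1 := (h.tail v p hp).1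
    rw [(hs v).1, Finset.mem_singleton] at h1
    exact h1
  have hM : ∀ v p, (σ v).M p = p.2 := fun v p => by rw [(hs v).2.2]
  refine ⟨h, h2, ?_, ?_, ?_, ?_⟩
  · intro v p hp
    rw [hM]
    have h1 := (h.tail v p hp).2
    rwa [hf v p hp] at h1
  · intro v q hq hqv p hp
    rw [hM]
    unfold val
    rw [(hs v).2.1]
    simp only [Finset.notMem_empty, not_false_eq_true, and_true, and_false, or_false]
    constructor
    · intro h1
      apply Prod.ext
      · rw [hf v p hp, hqv]
      · exact h1.symm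
    · rintro rfl
      rfl
  · intro v p hp hpc
    exfalso
    rw [hM, (hs v).1, Finset.mem_singleton] at hpc
    have h1 := (h.tail v p hp).2
    rw [hf v p hp, hpc] at h1
    exact G.loopless.irrefl _ h1
  · intro v p hp _ hpn
    exfalso
    apply hpn
    rw [hM]
    have : (v, p.2) = p := Prod.ext (hf v p hp).symm rfl
    rwa [this]

theorem halve_sing (hs : ∀ v, (σ v).comp = {v} ∧ (σ v).spec = ∅ ∧ (σ v).M = fun p => p.2) :
    ∀ v, (halve b a t r σ v).comp = {v} ∧ (halve b a t r σ v).spec = ∅ ∧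
      (halve b a t r σ v).M = fun p => p.2 := by
  intro v
  refine ⟨(hs v).1, ?_, (hs v).2.2⟩
  change (σ v).spec.filter _ = ∅
  rw [(hs v).2.1]
  simp

/-- the halved state is valid if all degrees are at least 6 -/
theorem halve_WF (h : HW G r σ) (ht : TI G t) (hs : AllStop b r σ)
    (hs1 : ∀ v, (σ v).comp = {v} ∧ (σ v).spec = ∅ ∧ (σ v).M = fun p => p.2)
    (hk : ∀ v, 6 ≤ (σ v).ports.card) : WF G (halve b a t r σ) := by
  refine WF_of_sing (halve_WF0 h.wf h.sing) (halve_sing hs1) ?_
  intro v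
  have h1 := (halve_card (a := a) h ht hs v).1
  have h2 := hk v
  have h3 : 2 ≤ ((σ v).ports.card - (if b then 1 else 0)) / 2 := by
    split_ifs <;> omega
  omega

end Col

/-! ### flipping the coin of a deciding end -/

section Flip

variable {b : Bool} {a a' t r : V × V → ℝ} {σ : St V}

/-- `c` is the deciding end of the path of `e` -/
def DE (b : Bool) (t r : V × V → ℝ) (σ : St V) (e c : V × V) : Prop :=
  ∃ n m u w, Stop b r σ e n u ∧ Stop b r σ e.swap m w ∧
    ((t u < t w ∧ c = u) ∨ (t w < t u ∧ c = w))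

/-- `a'` is `a` with the coin of `c` flipped -/
def Flip (a a' : V × V → ℝ) (c : V × V) : Prop :=
  (∀ d, d ≠ c → a' d = a d) ∧ (a' c < 1/2 ↔ ¬ a c < 1/2)

theorem DE_swap (e c : V × V) : DE b t r σ e.swap c ↔ DE b t r σ e c := by
  have key : ∀ e : V × V, DE b t r σ e c → DE b t r σ e.swap c := by
    rintro e ⟨n, m, u, w, h1, h2, h3⟩
    refine ⟨m, n, w, u, h2, ?_, h3.symm⟩
    rwa [Prod.swap_swap]
  constructor
  · intro h
    have := key _ h
    rwa [Prod.swap_swap] at this
  · exact key e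

theorem DE_unique {e c c' : V × V} (h : DE b t r σ e c) (h' : DE b t r σ e c') : c = c' := by
  obtain ⟨n, m, u, w, h1, h2, h3⟩ := h
  obtain ⟨n', m', u', w', h1', h2', h3'⟩ := h'
  obtain ⟨rfl, rfl⟩ := Stop_unique h1 h1'
  obtain ⟨rfl, rfl⟩ := Stop_unique h2 h2'
  rcases h3 with ⟨h4, rfl⟩ | ⟨h4, rfl⟩ <;> rcases h3' with ⟨h5, rfl⟩ | ⟨h5, rfl⟩
  · rfl
  · exact absurd h4 (not_lt.mpr h5.le)
  · exact absurd h4 (not_lt.mpr h5.le)
  · rfl

theorem DE_exists (h : HW G r σ) (ht : TI G t) (hs : AllStop b r σ) {e : V × V}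
    (he : PM.alive σ e) : ∃ c, DE b t r σ e c := by
  obtain ⟨n, u, h1⟩ := hs e he
  obtain ⟨m, w, h2⟩ := hs e.swap (h.swap he)
  have hne := h.ends_ne he h1 h2
  have hu := h.adj (h.Stop_alive he h1)
  have hw := h.adj (h.Stop_alive (h.swap he) h2)
  have htt : t u ≠ t w := fun h1 => hne (ht u w hu hw h1)
  rcases lt_or_gt_of_ne htt with h3 | h3
  · exact ⟨u, n, m, u, w, h1, h2, Or.inl ⟨h3, rfl⟩⟩
  · exact ⟨w, n, m, u, w, h1, h2, Or.inr ⟨h3, rfl⟩⟩

/-- the deciding end is constant along a path -/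
theorem DE_nx (h : HW G r σ) {e g c : V × V} (hg : nx b r σ e = some g) :
    DE b t r σ g c ↔ DE b t r σ e c := by
  constructor
  · rintro ⟨n, m, u, w, h1, h2, h3⟩
    cases m with
    | zero =>
      rw [Stop_zero, h.nx_rev hg] at h2
      exact absurd h2.2 (by simp)
    | succ m =>
      rw [Stop_succ (h.nx_rev hg)] at h2
      exact ⟨n + 1, m, u, w, (Stop_succ hg).mpr h1, h2, h3⟩
  · rintro ⟨n, m, u, w, h1, h2, h3⟩
    cases n with
    | zero =>
      rw [Stop_zero, hg] at h1
      exact absurd h1.2 (by simp)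
    | succ n =>
      rw [Stop_succ hg] at h1
      exact ⟨n, m + 1, u, w, h1, (Stop_succ (h.nx_rev hg)).mpr h2, h3⟩

/-- flipping the coin of the deciding end changes the colour -/
theorem col_flip {e c : V × V} (hc : DE b t r σ e c) (hf : Flip a a' c) :
    col b a' t r σ e ↔ ¬ col b a t r σ e := by
  obtain ⟨n, m, u, w, h1, h2, h3⟩ := hc
  rw [col_iff h1 h2, col_iff h1 h2]
  obtain ⟨hf1, hf2⟩ := hf
  rcases h3 with ⟨h4, rfl⟩ | ⟨h4, rfl⟩
  · have h5 : ¬ t w < t c := not_lt.mpr h4.le
    tauto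
  · have h5 : ¬ t u < t c := not_lt.mpr h4.le
    tauto

/-- other colours do not change -/
theorem col_flip_other {e c : V × V} (hc : ¬ DE b t r σ e c) (hf : ∀ d, d ≠ c → a' d = a d) :
    col b a' t r σ e ↔ col b a t r σ e := by
  have key : ∀ a a' : V × V → ℝ, (∀ d, d ≠ c → a' d = a d) → col b a t r σ e →
      col b a' t r σ e := by
    rintro a a' hf ⟨n, m, u, w, h1, h2, h3⟩
    refine ⟨n, m, u, w, h1, h2, ?_⟩
    rcases h3 with ⟨h4, h5⟩ | ⟨h4, h5⟩
    · left
      refine ⟨h4, ?_⟩
      rwa [hf u]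
      rintro rfl
      exact hc ⟨n, m, u, w, h1, h2, Or.inl ⟨h4, rfl⟩⟩
    · right
      refine ⟨h4, ?_⟩
      rwa [hf w]
      rintro rfl
      exact hc ⟨n, m, u, w, h1, h2, Or.inr ⟨h4, rfl⟩⟩
  exact ⟨key a' a (fun d hd => (hf d hd).symm), key a a' hf⟩

/-- the path of an unpaired port `p` of `v` does not use the other ports of `v` -/
theorem DE_port (h : HW G r σ) {v : V} {p q c : V × V} (hp : p ∈ (σ v).ports)
    (hpn : nx b r σ p.swap = none) (hq : q ∈ (σ v).ports) (hqp : q ≠ p)
    (hc : DE b t r σ p c) : ¬ DE b t r σ q c := by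
  intro hcq
  have hp1 := h.fst hp
  have hq1 := h.fst hq
  have hpa := h.alive hp
  have hqa := h.alive hq
  -- a path starting at another port of `v` which is not the path of `p`
  have hd : ∀ g : V × V, g ∈ (σ v).ports → g ≠ p → ∀ k, Stop b r σ g k c → False := by
    intro g hg hgp k hk
    have hg1 := h.fst hg
    have hga := h.alive hg
    have h1 := h.Stop_side hga hk
    obtain ⟨n, m, u, w, h2, h3, h4⟩ := hc
    cases m with
    | succ m =>
      rw [Stop_succ_iff] at h3
      obtain ⟨g', h5, _⟩ := h3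
      rw [hpn] at h5
      exact absurd h5 (by simp)
    | zero =>
      rw [Stop_zero, Prod.swap_swap] at h3
      rcases h4 with ⟨_, rfl⟩ | ⟨_, rfl⟩
      · -- `c` beyond `p` and beyond `g`
        have h5 := h.Stop_side hpa h2
        have h6 := side_disj h.tree (h.adj hp) (h.adj hg)
          (by rw [hg1, ← hp1]; exact side_fst (h.adj hp))
          (by rw [hp1, ← hg1]; exact side_fst (h.adj hg)) (Ne.symm hgp) c.1 h5
        exact h1 h6
      · rw [h3.1, hp1, ← hg1] at h1
        exact h1 (side_fst (h.adj hg))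
  obtain ⟨n, m, u, w, h2, h3, h4⟩ := hcq
  have hend : Stop b r σ q n c ∨ Stop b r σ q.swap m c := by
    rcases h4 with ⟨_, rfl⟩ | ⟨_, rfl⟩
    · exact Or.inl h2
    · exact Or.inr h3
  rcases hend with h5 | h5
  · exact hd q hq hqp n h5
  · cases m with
    | zero =>
      rw [Stop_zero, Prod.swap_swap] at h5
      -- `c = q`, but `c` is an end of the path of `p`
      obtain ⟨h6, _⟩ := h5
      subst h6
      obtain ⟨n', m', u', w', h2', h3', h4'⟩ := hc
      cases m' with
      | succ m' =>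
        rw [Stop_succ_iff] at h3'
        obtain ⟨g', h7, _⟩ := h3'
        rw [hpn] at h7
        exact absurd h7 (by simp)
      | zero =>
        rw [Stop_zero, Prod.swap_swap] at h3'
        rcases h4' with ⟨_, rfl⟩ | ⟨_, h8⟩
        · have h5 := h.Stop_side hpa h2'
          rw [hq1, ← hp1] at h5
          exact h5 (side_fst (h.adj hp))
        · exact hqp (h8.trans h3'.1)
    | succ m =>
      rw [Stop_succ_iff] at h5
      obtain ⟨g, h6, h7⟩ := h5
      have hm := nx_mate h6
      rw [Prod.swap_swap] at hm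
      have hm' : Mate b r (σ v).ports q g := by
        have : (σ q.swap.2).ports = (σ v).ports := by
          change (σ q.1).ports = _
          rw [hq1]
        rwa [this] at hm
      have hgp : g ≠ p := by
        rintro rfl
        rw [h.nx_none_iff] at hpn
        apply hpn q
        rw [Prod.swap_swap]
        change Mate b r (σ g.1).ports g q
        rw [hp1]
        exact hm'.symm
      exact hd g hm'.2.1 hgp m h7

/-- flipping the coin of the deciding end of the path of an unpaired port changes the degree by one -/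
theorem halve_card_flip (h : HW G r σ) {v : V} {p c : V × V} (hp : p ∈ (σ v).ports)
    (hpn : nx b r σ p.swap = none) (hc : DE b t r σ p c) (hf : Flip a a' c) :
    (halve b a' t r σ v).ports.card = (halve b a t r σ v).ports.card + 1 ∨
      (halve b a t r σ v).ports.card = (halve b a' t r σ v).ports.card + 1 := by
  have key : ∀ a a' : V × V → ℝ, Flip a a' c → col b a' t r σ p →
      (halve b a' t r σ v).ports.card = (halve b a t r σ v).ports.card + 1 := by
    intro a a' hf hcol
    have hncol : ¬ col b a t r σ p := (col_flip hc hf).mp hcol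
    have h1 : (halve b a' t r σ v).ports = insert p (halve b a t r σ v).ports := by
      ext q
      change q ∈ (σ v).ports.filter _ ↔ q ∈ insert p ((σ v).ports.filter _)
      rw [Finset.mem_insert, Finset.mem_filter, Finset.mem_filter]
      by_cases hqp : q = p
      · subst hqp
        simp [hp, hcol]
      · constructor
        · rintro ⟨h2, h3⟩
          exact Or.inr ⟨h2, (col_flip_other (DE_port h hp hpn h2 hqp hc) hf.1).mp h3⟩
        · rintro (h2 | ⟨h2, h3⟩)
          · exact absurd h2 hqp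
          · exact ⟨h2, (col_flip_other (DE_port h hp hpn h2 hqp hc) hf.1).mpr h3⟩
    rw [h1, Finset.card_insert_of_notMem]
    intro h2
    exact hncol (Finset.mem_filter.mp h2).2
  by_cases hcol : col b a' t r σ p
  · left
    exact key a a' hf hcol
  · right
    apply key a' a
    · refine ⟨fun d hd => (hf.1 d hd).symm, ?_⟩
      have := hf.2
      tauto
    · by_contra h2
      exact hcol ((col_flip hc hf).mpr h2)

end Flip

/-! ### finite dependence -/

section Fin

variable {b : Bool} {r : V × V → ℝ} {σ : St V}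

theorem rk_congr {P : Finset (V × V)} {r' : V × V → ℝ} (h : ∀ q ∈ P, r' q = r q) {d : V × V}
    (hd : d ∈ P) : rk r' P d = rk r P d := by
  unfold rk
  congr 1
  apply Finset.filter_congr
  intro q hq
  rw [h q hq, h d hd]

theorem Mate_congr {P : Finset (V × V)} {r' : V × V → ℝ} (h : ∀ q ∈ P, r' q = r q)
    (d g : V × V) : Mate b r' P d g ↔ Mate b r P d g := by
  unfold Mate
  constructor
  · rintro ⟨h1, h2, j, h3, h4⟩
    rw [rk_congr h h1, rk_congr h h2] at h4
    exact ⟨h1, h2, j, h3, h4⟩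
  · rintro ⟨h1, h2, j, h3, h4⟩
    rw [← rk_congr h h1, ← rk_congr h h2] at h4
    exact ⟨h1, h2, j, h3, h4⟩

/-- `nx` depends only on the state at the head and on the ranks of the ports there -/
theorem nx_congr {σ' : St V} {r' : V × V → ℝ} {d : V × V} (h1 : σ' d.2 = σ d.2)
    (h : ∀ q ∈ (σ d.2).ports, r' q = r q) : nx b r' σ' d = nx b r σ d := by
  have h2 : ∀ g, Mate b r' (σ' d.2).ports d.swap g ↔ Mate b r (σ d.2).ports d.swap g := by
    intro g
    rw [h1]
    exact Mate_congr h _ _
  have h3 : (fun g => Mate b r' (σ' d.2).ports d.swap g) =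
      (fun g => Mate b r (σ d.2).ports d.swap g) := funext fun g => propext (h2 g)
  unfold nx
  by_cases h4 : ∃! g, Mate b r (σ d.2).ports d.swap g
  · have h5 : ∃! g, Mate b r' (σ' d.2).ports d.swap g := by
      rw [h3]
      exact h4
    rw [dif_pos h4, dif_pos h5]
    congr 1
    apply h4.unique
    · rw [← h2]
      exact h5.exists.choose_spec
    · exact h4.exists.choose_spec
  · have h5 : ¬ ∃! g, Mate b r' (σ' d.2).ports d.swap g := by
      rw [h3]
      exact h4
    rw [dif_neg h4, dif_neg h5]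

/-- finite dependence of a stopping path -/
theorem Stop_fin {e u : V × V} {n : ℕ} (hs : Stop b r σ e n u) :
    ∃ (K : Finset V) (D : Finset (V × V)), ∀ (σ' : St V) (r' : V × V → ℝ),
      (∀ x ∈ K, σ' x = σ x) → (∀ d ∈ D, r' d = r d) → Stop b r' σ' e n u := by
  induction n generalizing e with
  | zero =>
    rw [Stop_zero] at hs
    refine ⟨{e.2}, (σ e.2).ports, fun σ' r' h1 h2 => ?_⟩
    rw [Stop_zero]
    refine ⟨hs.1, ?_⟩
    rw [nx_congr (h1 e.2 (Finset.mem_singleton_self _)) h2]
    exact hs.2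
  | succ n ih =>
    rw [Stop_succ_iff] at hs
    obtain ⟨g, h1, h2⟩ := hs
    obtain ⟨K, D, h3⟩ := ih h2
    refine ⟨insert e.2 K, (σ e.2).ports ∪ D, fun σ' r' h4 h5 => ?_⟩
    rw [Stop_succ_iff]
    refine ⟨g, ?_, h3 σ' r' (fun x hx => h4 x (Finset.mem_insert_of_mem hx))
      (fun d hd => h5 d (Finset.mem_union_right _ hd))⟩
    rw [nx_congr (h4 e.2 (Finset.mem_insert_self _ _))
      (fun q hq => h5 q (Finset.mem_union_left _ hq))]
    exact h1

/-- finite dependence of a colour -/
theorem col_fin {a t : V × V → ℝ} {e : V × V} (h1 : ∃ n u, Stop b r σ e n u)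
    (h2 : ∃ n u, Stop b r σ e.swap n u) :
    ∃ (K : Finset V) (D : Finset (V × V)), ∀ (σ' : St V) (a' t' r' : V × V → ℝ),
      (∀ x ∈ K, σ' x = σ x) → (∀ d ∈ D, a' d = a d ∧ t' d = t d ∧ r' d = r d) →
      (col b a' t' r' σ' e ↔ col b a t r σ e) := by
  obtain ⟨n, u, h1⟩ := h1
  obtain ⟨m, w, h2⟩ := h2
  obtain ⟨K1, D1, h3⟩ := Stop_fin h1
  obtain ⟨K2, D2, h4⟩ := Stop_fin h2
  refine ⟨K1 ∪ K2, insert u (insert w (D1 ∪ D2)), fun σ' a' t' r' h5 h6 => ?_⟩
  have h7 : Stop b r' σ' e n u := h3 σ' r' (fun x hx => h5 x (Finset.mem_union_left _ hx))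
    (fun d hd => (h6 d (by simp [hd])).2.2)
  have h8 : Stop b r' σ' e.swap m w := h4 σ' r' (fun x hx => h5 x (Finset.mem_union_right _ hx))
    (fun d hd => (h6 d (by simp [hd])).2.2)
  obtain ⟨h9, h10, _⟩ := h6 u (by simp)
  obtain ⟨h11, h12, _⟩ := h6 w (by simp)
  rw [col_iff h1 h2, col_iff h7 h8, h9, h10, h11, h12]

/-- finite dependence of the halving (the hypothesis `hsp` is not in the skeleton) -/
theorem hv_fin (b : Bool) {σ : St V} {a t r : V × V → ℝ} (v : V)
    (hsp : (σ v).spec ⊆ (σ v).ports)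
    (hf : ∀ d ∈ (σ v).ports, (∃ n u, Stop b r σ d n u) ∧ ∃ n u, Stop b r σ d.swap n u) :
    ∃ (K : Finset V) (D : Finset (V × V)), ∀ (σ' : St V) (a' t' r' : V × V → ℝ),
      (∀ x ∈ K, σ' x = σ x) → (∀ d ∈ D, a' d = a d ∧ t' d = t d ∧ r' d = r d) →
      halve b a' t' r' σ' v = halve b a t r σ v := by
  have hch : ∀ d : V × V, ∃ (K : Finset V) (D : Finset (V × V)), d ∈ (σ v).ports →
      ∀ (σ' : St V) (a' t' r' : V × V → ℝ),
      (∀ x ∈ K, σ' x = σ x) → (∀ d ∈ D, a' d = a d ∧ t' d = t d ∧ r' d = r d) →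
      (col b a' t' r' σ' d ↔ col b a t r σ d) := by
    intro d
    by_cases hd : d ∈ (σ v).ports
    · obtain ⟨K, D, h⟩ := col_fin (a := a) (t := t) (hf d hd).1 (hf d hd).2
      exact ⟨K, D, fun _ => h⟩
    · exact ⟨∅, ∅, fun h => absurd h hd⟩
  choose K D hKD using hch
  refine ⟨insert v ((σ v).ports.biUnion K), (σ v).ports.biUnion D, fun σ' a' t' r' h1 h2 => ?_⟩
  have hv : σ' v = σ v := h1 v (Finset.mem_insert_self _ _)
  have hcol : ∀ d ∈ (σ v).ports, (col b a' t' r' σ' d ↔ col b a t r σ d) := by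
    intro d hd
    apply hKD d hd
    · intro x hx
      exact h1 x (Finset.mem_insert_of_mem (Finset.mem_biUnion.mpr ⟨d, hd, hx⟩))
    · intro q hq
      exact h2 q (Finset.mem_biUnion.mpr ⟨d, hd, hq⟩)
  unfold halve
  rw [hv]
  congr 1
  · exact Finset.filter_congr hcol
  · exact Finset.filter_congr (fun d hd => hcol d (hsp hd))

end Fin

end Pool.Agent.PM
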