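import Pool.Agent.Lib.MP_947a32_pr.Halve2B

/-!
# Piece HALVE2, deterministic part (helper97): the state cut at an edge, colours
-/

set_option autoImplicit false

open Classical MeasureTheory
open scoped ENNReal

namespace Pool.Agent.PM.Hv2

variable {V : Type} {G : SimpleGraph V}

variable {b : Bool} {r r' : V × V → ℝ} {σ : St V} {e : V × V}

theorem Mate_congr {P : Finset (V × V)} (hr : ∀ q ∈ P, r' q = r q) {d g : V × V} :
    Mate b r' P d g ↔ Mate b r P d g := by
  have key : ∀ q ∈ P, rk r' P q = rk r P q := by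
    intro q hq
    unfold rk
    congr 1
    refine Finset.filter_congr fun p hp => ?_
    rw [hr p hp, hr q hq]
  unfold Mate
  constructor
  · rintro ⟨h1, h2, j, h3, h4⟩
    rw [key d h1, key g h2] at h4
    exact ⟨h1, h2, j, h3, h4⟩
  · rintro ⟨h1, h2, j, h3, h4⟩
    refine ⟨h1, h2, j, h3, ?_⟩
    rw [key d h1, key g h2]
    exact h4

theorem nx_congr {σ' : St V} {c : V × V} (hp : (σ' c.2).ports = (σ c.2).ports)
    (hr : ∀ q ∈ (σ c.2).ports, r' q = r q) : nx b r' σ' c = nx b r σ c := by
  have : ∀ g, Mate b r' (σ' c.2).ports c.swap g ↔ Mate b r (σ c.2).ports c.swap g := by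
    intro g
    rw [hp]
    exact Mate_congr hr
  have key : ∀ (P Q : V × V → Prop), (∀ g, P g ↔ Q g) →
      (if h : ∃! g, P g then some h.exists.choose else none) =
        (if h : ∃! g, Q g then some h.exists.choose else none) := by
    intro P Q h
    have hPQ : P = Q := funext fun g => propext (h g)
    subst hPQ
    rfl
  exact key _ _ this

theorem nx_cut (h : H2 G r σ) (hr : ∀ q : V × V, side G e q.1 → r' q = r q) {c : V × V}
    (hc : side G e c.2) : nx b r' (glS G e σ) c = nx b r σ c := by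
  refine nx_congr (by rw [glS_pos σ hc]) fun q hq => hr q ?_
  rw [h.fst hq]; exact hc

theorem nx_cut_e : nx b r' (glS G e σ) e = none := by
  unfold nx
  rw [dif_neg]
  rintro ⟨g, hg, -⟩
  have h1 := hg.2.1
  rw [glS_neg σ (not_side_snd e)] at h1
  simp only [if_true, Finset.mem_singleton] at h1
  subst h1
  exact Mate_ne hg rfl

theorem wk_self (h : H2 G r σ) {k : ℕ} (hw : wk b r σ k e = some e) : k = 0 := by
  cases k with
  | zero => rfl
  | succ k =>
    exfalso
    rw [wk_succ'] at hw
    obtain ⟨c, hc, hg⟩ := Option.bind_eq_some_iff.mp hw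
    have h1 := nx_mem h hc
    have hca := h.alive_of h1.1
    have h2 := wk_nest h hca k hg e.2 (not_side_snd e)
    rw [← h1.2.1] at h2
    exact h2 (side_fst (h.adj hca))

theorem wk_cut_aux (h : H2 G r σ) (hr : ∀ q : V × V, side G e q.1 → r' q = r q)
    (he : alive σ e) {d : V × V} (hds : side G e d.2) (j : ℕ) :
    (∀ i ≤ j, wk b r σ i d ≠ some e) → ∀ g, wk b r σ j d = some g →
      wk b r' (glS G e σ) j d = some g ∧ side G e g.2 := by
  induction j with
  | zero =>
    intro _ g hg
    rw [wk_zero] at hg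
    have := Option.some.inj hg
    subst this
    exact ⟨rfl, hds⟩
  | succ j ih =>
    intro hne g hg
    have hg0 := hg
    rw [wk_succ] at hg
    obtain ⟨c, hc, hcg⟩ := Option.bind_eq_some_iff.mp hg
    obtain ⟨h1, h2⟩ := ih (fun i hi => hne i (hi.trans (Nat.le_succ j))) c hc
    have h3 := nx_mem h hcg
    refine ⟨?_, ?_⟩
    · rw [wk_succ, h1, Option.bind_some, nx_cut h hr h2]
      exact hcg
    · by_contra hs
      have hga : G.Adj g.1 g.2 := h.adj h3.1
      have := side_cross' h.tree (h.adj he) hga (by rw [h3.2.1]; exact h2) hs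
      refine hne (j + 1) le_rfl ?_
      rw [hg0, ← this]

/-- path that hits `e` -/
theorem Stop_cutB (h : H2 G r σ) (hr : ∀ q : V × V, side G e q.1 → r' q = r q)
    (he : alive σ e) {d : V × V} (hds : side G e d.2) {i : ℕ} (hw : wk b r σ i d = some e) :
    Stop b r' (glS G e σ) d i e.swap := by
  have hex : ∃ i, wk b r σ i d = some e := ⟨i, hw⟩
  obtain ⟨i0, hi0, hmin⟩ : ∃ i0, wk b r σ i0 d = some e ∧ ∀ j < i0, wk b r σ j d ≠ some e :=
    ⟨Nat.find hex, Nat.find_spec hex, fun j hj => Nat.find_min hex hj⟩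
  have hle : i0 ≤ i := by
    by_contra hlt
    exact hmin i (not_le.mp hlt) hw
  obtain ⟨k, rfl⟩ := Nat.exists_eq_add_of_le hle
  have hk : wk b r σ k e = some e := by
    rw [wk_add, hi0, Option.bind_some] at hw
    exact hw
  have := wk_self h hk
  subst this
  rw [Nat.add_zero]
  cases i0 with
  | zero =>
    rw [wk_zero] at hi0
    have := Option.some.inj hi0
    subst this
    exact absurd hds (not_side_snd d)
  | succ j =>
    rw [wk_succ] at hi0
    obtain ⟨c, hc, hcg⟩ := Option.bind_eq_some_iff.mp hi0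
    obtain ⟨h1, h2⟩ := wk_cut_aux h hr he hds j (fun i hi => hmin i (Nat.lt_succ_of_le hi)) c hc
    refine ⟨?_, ?_⟩
    · rw [wk_succ, h1, Option.bind_some, nx_cut h hr h2, Prod.swap_swap]
      exact hcg
    · rw [Prod.swap_swap]
      exact nx_cut_e

/-- path that does not hit `e` -/
theorem Stop_cutA (h : H2 G r σ) (hr : ∀ q : V × V, side G e q.1 → r' q = r q)
    (he : alive σ e) {d : V × V} (hds : side G e d.2) (hne : ∀ i, wk b r σ i d ≠ some e)
    {n : ℕ} {u : V × V} (hs : Stop b r σ d n u) :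
    Stop b r' (glS G e σ) d n u ∧ side G e u.1 := by
  obtain ⟨h1, h2⟩ := wk_cut_aux h hr he hds n (fun i _ => hne i) _ hs.1
  refine ⟨⟨h1, ?_⟩, h2⟩
  rw [nx_cut h hr h2]
  exact hs.2

/-- at most one direction of a path hits `e` -/
theorem not_both (h : H2 G r σ) {d : V × V} (hd : alive σ d) {i j : ℕ}
    (h1 : wk b r σ i d = some e) (h2 : wk b r σ j d.swap = some e) : False := by
  have h3 := wk_nest h hd i h1 e.2 (not_side_snd e)
  have h4 := wk_nest h (h.swap hd) j h2 e.2 (not_side_snd e)
  exact h4 ((side_iff h.tree (h.adj hd) _).mp h3)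

/-- the path going from `e.swap` never hits `e` -/
theorem ne_of_swap (h : H2 G r σ) (he : alive σ e) (i : ℕ) : wk b r σ i e.swap ≠ some e := by
  intro hw
  exact not_both h he (i := 0) rfl hw

/-- relation between the cut labels and the original labels -/
structure CutL (G : SimpleGraph V) (e : V × V) (a t r a' t' r' : V × V → ℝ) : Prop where
  ha : ∀ q : V × V, side G e q.1 → a' q = a q
  ht : ∀ q : V × V, side G e q.1 → t' q = t q
  hr : ∀ q : V × V, side G e q.1 → r' q = r q
  a0 : a' e.swap = 0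
  t0 : t' e.swap = -1
  pos : ∀ q, 0 ≤ t q

variable {a t a' t' : V × V → ℝ}

theorem cut_e (h : H2 G r σ) (he : alive σ e) (hc : CutL G e a t r a' t' r')
    {m : ℕ} {w : V × V} (hs : Stop b r σ e.swap m w) :
    col b a' t' r' (glS G e σ) e := by
  have h1 : Stop b r' (glS G e σ) e 0 e.swap := by
    refine ⟨?_, ?_⟩
    · rw [wk_zero, Prod.swap_swap]
    · rw [Prod.swap_swap]; exact nx_cut_e
  obtain ⟨h2, h3⟩ := Stop_cutA (d := e.swap) h hc.hr he (side_fst (h.adj he)) (ne_of_swap h he) hs
  rw [col_iff h1 h2]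
  left
  rw [hc.t0, hc.a0, hc.ht w h3]
  refine ⟨by linarith [hc.pos w], by norm_num⟩

theorem cut_B (h : H2 G r σ) (he : alive σ e) (hc : CutL G e a t r a' t' r') {d : V × V}
    (hd : alive σ d) (hd1 : side G e d.1) (hd2 : side G e d.2)
    {i m : ℕ} {w : V × V} (hw : wk b r σ i d = some e) (hs : Stop b r σ d.swap m w) :
    col b a' t' r' (glS G e σ) d ↔ Even i := by
  have h1 := Stop_cutB h hc.hr he hd2 hw
  obtain ⟨h2, h3⟩ := Stop_cutA (d := d.swap) h hc.hr he hd1 (fun j hj => not_both h hd hw hj) hs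
  rw [col_iff h1 h2, hc.t0, hc.a0, hc.ht w h3]
  have h4 : (-1 : ℝ) < t w := by linarith [hc.pos w]
  have h5 : ¬ t w < -1 := by linarith
  simp only [h4, h5, true_and, false_and, or_false]
  norm_num

theorem cut_B' (h : H2 G r σ) (he : alive σ e) (hc : CutL G e a t r a' t' r') {d : V × V}
    (hd : alive σ d) (hd1 : side G e d.1) (hd2 : side G e d.2)
    {i n : ℕ} {u : V × V} (hw : wk b r σ i d.swap = some e) (hs : Stop b r σ d n u) :
    col b a' t' r' (glS G e σ) d ↔ Even i := by
  rw [← col_swap]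
  refine cut_B (d := d.swap) h he hc (h.swap hd) hd2 hd1 hw (m := n) (w := u) ?_
  rw [Prod.swap_swap]
  exact hs

theorem cut_A (h : H2 G r σ) (he : alive σ e) (hc : CutL G e a t r a' t' r') {d : V × V}
    (hd1 : side G e d.1) (hd2 : side G e d.2)
    (hn1 : ∀ i, wk b r σ i d ≠ some e) (hn2 : ∀ i, wk b r σ i d.swap ≠ some e)
    {n m : ℕ} {u w : V × V} (hs : Stop b r σ d n u) (hs' : Stop b r σ d.swap m w) :
    col b a' t' r' (glS G e σ) d ↔ col b a t r σ d := by
  obtain ⟨h1, h1s⟩ := Stop_cutA h hc.hr he hd2 hn1 hs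
  obtain ⟨h2, h2s⟩ := Stop_cutA (d := d.swap) h hc.hr he hd1 hn2 hs'
  rw [col_iff h1 h2, col_iff hs hs', hc.ht u h1s, hc.ht w h2s, hc.ha u h1s, hc.ha w h2s]

/-- in the cut state with `e` forced to be kept the colours are the true ones if `e` is kept -/
theorem cut_col (h : H2 G r σ) (he : alive σ e) (hc : CutL G e a t r a' t' r') (ht : TI G t)
    (hst : ∀ d, alive σ d → ∃ n u, Stop b r σ d n u) (hce : col b a t r σ e)
    {d : V × V} (hd : alive σ d) (hd1 : side G e d.1) :
    col b a' t' r' (glS G e σ) d ↔ col b a t r σ d := by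
  obtain ⟨n, u, hs⟩ := hst d hd
  obtain ⟨m, w, hs'⟩ := hst d.swap (h.swap hd)
  by_cases hde : d = e
  · subst hde
    exact ⟨fun _ => hce, fun _ => cut_e h he hc hs'⟩
  · have hd2 : side G e d.2 := by
      by_contra hd2
      exact hde (side_cross' h.tree (h.adj he) (h.adj hd) hd1 hd2)
    have htuw : t u ≠ t w := by
      intro heq
      exact Stop_ne h hd hs hs' (ht u w (h.adj (Stop_alive h hd hs))
        (h.adj (Stop_alive h (h.swap hd) hs')) heq)
    by_cases hB : ∃ i, wk b r σ i d = some e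
    · obtain ⟨i, hi⟩ := hB
      rw [cut_B h he hc hd hd1 hd2 hi hs', col_alt h hi hs hs' htuw]
      simp [hce]
    · by_cases hB' : ∃ i, wk b r σ i d.swap = some e
      · obtain ⟨i, hi⟩ := hB'
        have hs2 : Stop b r σ d.swap.swap n u := by rw [Prod.swap_swap]; exact hs
        rw [cut_B' h he hc hd hd1 hd2 hi hs, ← col_swap, col_alt h hi hs' hs2 htuw.symm]
        simp [hce]
      · push Not at hB hB'
        exact cut_A h he hc hd1 hd2 hB hB' hs hs'

/-- the colours on the tail side of the cut state do not depend on the coin of the tail end of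
the path of `e` -/
theorem cut_ins (h : H2 G r σ) (he : alive σ e) {a2 a2' : V × V → ℝ}
    (hc : CutL G e a t r a' t' r') (hc2 : CutL G e a2 t r a2' t' r')
    (hst : ∀ d, alive σ d → ∃ n u, Stop b r σ d n u)
    {m0 : ℕ} {w0 : V × V} (hw0 : Stop b r σ e.swap m0 w0) (h2 : ∀ q, q ≠ w0 → a2 q = a q)
    {d : V × V} (hd : alive σ d) (hd1 : side G e d.1) :
    col b a2' t' r' (glS G e σ) d ↔ col b a' t' r' (glS G e σ) d := by
  obtain ⟨n, u, hs⟩ := hst d hd
  obtain ⟨m, w, hs'⟩ := hst d.swap (h.swap hd)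
  by_cases hde : d = e
  · subst hde
    exact ⟨fun _ => cut_e h he hc hs', fun _ => cut_e h he hc2 hs'⟩
  · have hd2 : side G e d.2 := by
      by_contra hd2
      exact hde (side_cross' h.tree (h.adj he) (h.adj hd) hd1 hd2)
    by_cases hB : ∃ i, wk b r σ i d = some e
    · obtain ⟨i, hi⟩ := hB
      rw [cut_B h he hc hd hd1 hd2 hi hs', cut_B h he hc2 hd hd1 hd2 hi hs']
    · by_cases hB' : ∃ i, wk b r σ i d.swap = some e
      · obtain ⟨i, hi⟩ := hB'
        rw [cut_B' h he hc hd hd1 hd2 hi hs, cut_B' h he hc2 hd hd1 hd2 hi hs]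
      · push Not at hB hB'
        have hwe : wk b r σ m0 w0 = some e := by
          have := wk_rev h m0 hw0.1
          rwa [Prod.swap_swap, Prod.swap_swap] at this
        -- an end of the path of `d` is not `w0`
        have key : ∀ {d : V × V} {n : ℕ} {u : V × V}, alive σ d → side G e d.1 →
            (∀ i, wk b r σ i d.swap ≠ some e) → Stop b r σ d n u → u ≠ w0 := by
          rintro d n u hd hd1 hB' hs rfl
          have hwd : wk b r σ n u = some d.swap := by
            have := wk_rev h n hs.1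
            rwa [Prod.swap_swap] at this
          rcases le_total n m0 with hle | hle
          · obtain ⟨k, rfl⟩ := Nat.exists_eq_add_of_le hle
            rw [wk_add, hwd, Option.bind_some] at hwe
            exact hB' k hwe
          · obtain ⟨k, rfl⟩ := Nat.exists_eq_add_of_le hle
            rw [wk_add, hwe, Option.bind_some] at hwd
            exact wk_nest h he k hwd d.1 (not_side_snd d.swap) hd1
        have hu : u ≠ w0 := key hd hd1 hB' hs
        have hw : w ≠ w0 := by
          refine key (d := d.swap) (h.swap hd) hd2 ?_ hs'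
          intro i
          rw [Prod.swap_swap]
          exact hB i
        rw [cut_A h he hc hd1 hd2 hB hB' hs hs', cut_A h he hc2 hd1 hd2 hB hB' hs hs',
          col_iff hs hs', col_iff hs hs', h2 u hu, h2 w hw]

end Pool.Agent.PM.Hv2
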