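import Pool.Agent.Lib.MP_947a32_pr.Fac

/-!
# Piece HALVE2, deterministic part (helper97): paths in the state cut at an edge
-/

set_option autoImplicit false

open Classical MeasureTheory
open scoped ENNReal

namespace Pool.Agent.PM.Hv2

variable {V : Type} {G : SimpleGraph V}

/-- standing hypotheses on a state with singleton comps -/
structure H2 (G : SimpleGraph V) (r : V × V → ℝ) (σ : St V) : Prop where
  tree : G.IsTree
  wf : WF0 G σ
  sing : ∀ v, (σ v).comp = {v}
  ti : TI G r

variable {b : Bool} {r : V × V → ℝ} {σ : St V}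

theorem H2.fst (h : H2 G r σ) {v : V} {p : V × V} (hp : p ∈ (σ v).ports) : p.1 = v := by
  have := (h.wf.tail v p hp).1
  rw [h.sing v] at this
  simpa using this

theorem H2.adj (h : H2 G r σ) {v : V} {p : V × V} (hp : p ∈ (σ v).ports) : G.Adj p.1 p.2 :=
  (h.wf.tail v p hp).2

theorem H2.swap (h : H2 G r σ) {p : V × V} (hp : alive σ p) : alive σ p.swap :=
  h.wf.swap p.1 p hp

theorem H2.alive_of (h : H2 G r σ) {v : V} {p : V × V} (hp : p ∈ (σ v).ports) : alive σ p := by
  have := h.fst hp
  subst this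
  exact hp

/-! ### mates -/

theorem rk_lt {v : V} {d g : V × V} (hd : d ∈ (σ v).ports)
    (hlt : r d < r g) : rk r (σ v).ports d < rk r (σ v).ports g := by
  unfold rk
  refine Finset.card_lt_card ?_
  refine ⟨fun q hq => ?_, fun hs => ?_⟩
  · rw [Finset.mem_filter] at hq ⊢
    exact ⟨hq.1, hq.2.trans hlt⟩
  · have : d ∈ (σ v).ports.filter (fun q => r q < r g) := Finset.mem_filter.mpr ⟨hd, hlt⟩
    have := hs this
    rw [Finset.mem_filter] at this
    exact lt_irrefl _ this.2

theorem rk_inj (h : H2 G r σ) {v : V} {d g : V × V} (hd : d ∈ (σ v).ports)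
    (hg : g ∈ (σ v).ports) (he : rk r (σ v).ports d = rk r (σ v).ports g) : d = g := by
  rcases lt_trichotomy (r d) (r g) with h1 | h1 | h1
  · exact absurd he (rk_lt hd h1).ne
  · exact h.ti d g (h.adj hd) (h.adj hg) h1
  · exact absurd he (rk_lt hg h1).ne'

theorem Mate_symm {P : Finset (V × V)} {d g : V × V} (hm : Mate b r P d g) : Mate b r P g d := by
  obtain ⟨h1, h2, j, h3, h4⟩ := hm
  exact ⟨h2, h1, j, h3, h4.symm⟩

theorem Mate_ne {P : Finset (V × V)} {d g : V × V} (hm : Mate b r P d g) : g ≠ d := by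
  rintro rfl
  obtain ⟨h1, h2, j, h3, h4⟩ := hm
  omega

theorem Mate_unique (h : H2 G r σ) {v : V} {d g g' : V × V} (hm : Mate b r (σ v).ports d g)
    (hm' : Mate b r (σ v).ports d g') : g = g' := by
  obtain ⟨h1, h2, j, h3, h4⟩ := hm
  obtain ⟨h1', h2', j', h3', h4'⟩ := hm'
  refine rk_inj h h2 h2' ?_
  omega

theorem nx_iff (h : H2 G r σ) {d g : V × V} :
    nx b r σ d = some g ↔ Mate b r (σ d.2).ports d.swap g := by
  unfold nx
  by_cases hu : ∃! g, Mate b r (σ d.2).ports d.swap g
  · rw [dif_pos hu]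
    have h1 := hu.exists.choose_spec
    constructor
    · intro he
      have he' := Option.some.inj he
      rw [← he']; exact h1
    · intro hm
      rw [Mate_unique h h1 hm]
  · rw [dif_neg hu]
    constructor
    · intro he; exact absurd he (by simp)
    · intro hm
      exact absurd ⟨g, hm, fun g' hg' => Mate_unique h hg' hm⟩ hu

theorem nx_mem (h : H2 G r σ) {d g : V × V} (hn : nx b r σ d = some g) :
    g ∈ (σ d.2).ports ∧ g.1 = d.2 ∧ g ≠ d.swap := by
  have hm := (nx_iff h).mp hn
  exact ⟨hm.2.1, h.fst hm.2.1, Mate_ne hm⟩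

theorem nx_rev (h : H2 G r σ) {d g : V × V} (hn : nx b r σ d = some g) :
    nx b r σ g.swap = some d.swap := by
  have h1 := nx_mem h hn
  rw [nx_iff h]
  have h2 : g.swap.2 = d.2 := h1.2.1
  rw [h2, Prod.swap_swap]
  exact Mate_symm ((nx_iff h).mp hn)

/-! ### walks -/

theorem wk_zero (d : V × V) : wk b r σ 0 d = some d := rfl

theorem wk_succ (n : ℕ) (d : V × V) : wk b r σ (n + 1) d = (wk b r σ n d).bind (nx b r σ) := rfl

theorem wk_add (m n : ℕ) (d : V × V) :
    wk b r σ (m + n) d = (wk b r σ m d).bind (wk b r σ n) := by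
  induction n with
  | zero =>
    rw [Nat.add_zero]
    cases wk b r σ m d <;> rfl
  | succ n ih =>
    rw [← Nat.add_assoc, wk_succ, ih, Option.bind_assoc]
    rfl

theorem wk_succ' (n : ℕ) (d : V × V) :
    wk b r σ (n + 1) d = (nx b r σ d).bind (wk b r σ n) := by
  rw [Nat.add_comm, wk_add]
  rfl

theorem wk_rev (h : H2 G r σ) (n : ℕ) : ∀ {d g : V × V}, wk b r σ n d = some g →
    wk b r σ n g.swap = some d.swap := by
  induction n with
  | zero =>
    intro d g hd
    rw [wk_zero] at hd
    rw [Option.some.inj hd]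
    rfl
  | succ n ih =>
    intro d g hd
    rw [wk_succ] at hd
    obtain ⟨c, hc, hg⟩ := Option.bind_eq_some_iff.mp hd
    rw [wk_succ', nx_rev h hg]
    exact ih hc

theorem wk_alive (h : H2 G r σ) {d g : V × V} (hd : alive σ d) {n : ℕ}
    (hw : wk b r σ n d = some g) : alive σ g := by
  cases n with
  | zero => rw [wk_zero] at hw; rw [← Option.some.inj hw]; exact hd
  | succ n =>
    rw [wk_succ] at hw
    obtain ⟨c, hc, hg⟩ := Option.bind_eq_some_iff.mp hw
    exact h.alive_of (nx_mem h hg).1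

theorem wk_nest (h : H2 G r σ) {d : V × V} (hd : alive σ d) (n : ℕ) : ∀ {g : V × V},
    wk b r σ n d = some g → ∀ x, ¬ side G g x → ¬ side G d x := by
  induction n with
  | zero => intro g hw x hx; rw [wk_zero] at hw; rw [Option.some.inj hw]; exact hx
  | succ n ih =>
    intro g hw x hx
    rw [wk_succ] at hw
    obtain ⟨c, hc, hg⟩ := Option.bind_eq_some_iff.mp hw
    have hca := wk_alive h hd hc
    have h1 := nx_mem h hg
    have hga : G.Adj g.1 g.2 := h.adj h1.1
    refine ih hc x (side_nest h.tree (h.adj hca) hga ?_ ?_ h1.2.2 x hx)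
    · rw [← h1.2.1]; exact side_fst hga
    · rw [h1.2.1]; exact not_side_snd c

/-! ### stops -/

theorem Stop_unique {d : V × V} {n n' : ℕ} {u u' : V × V}
    (h1 : Stop b r σ d n u) (h2 : Stop b r σ d n' u') : n = n' ∧ u = u' := by
  have key : ∀ {n n' : ℕ} {u u' : V × V}, Stop b r σ d n u → Stop b r σ d n' u' → n ≤ n' →
      n = n' := by
    intro n n' u u' h1 h2 hle
    by_contra hne
    have hlt : n < n' := lt_of_le_of_ne hle hne
    obtain ⟨k, rfl⟩ := Nat.exists_eq_add_of_lt hlt
    have h3 := h2.1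
    rw [Nat.add_assoc, wk_add, h1.1, Option.bind_some, wk_succ', h1.2] at h3
    simp at h3
  have hn : n = n' := by
    rcases le_total n n' with h | h
    · exact key h1 h2 h
    · exact (key h2 h1 h).symm
  subst hn
  refine ⟨rfl, ?_⟩
  have := h1.1.symm.trans h2.1
  exact Prod.swap_injective (Option.some.inj this)

theorem Stop_alive (h : H2 G r σ) {d u : V × V} (hd : alive σ d) {n : ℕ}
    (hs : Stop b r σ d n u) : alive σ u := by
  have := h.swap (wk_alive h hd hs.1)
  rwa [Prod.swap_swap] at this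

theorem Stop_side (h : H2 G r σ) {d u : V × V} (hd : alive σ d) {n : ℕ}
    (hs : Stop b r σ d n u) : ¬ side G d u.1 :=
  wk_nest h hd n hs.1 u.1 (not_side_snd u.swap)

/-- the two ends of a path are different -/
theorem Stop_ne (h : H2 G r σ) {d u w : V × V} (hd : alive σ d) {n m : ℕ}
    (hs : Stop b r σ d n u) (hs' : Stop b r σ d.swap m w) : u ≠ w := by
  rintro rfl
  have h1 := Stop_side h hd hs
  have h2 := Stop_side h (h.swap hd) hs'
  rw [side_iff h.tree (h.adj hd)] at h1
  exact h2 h1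

/-- the end of a path, seen from a dart of the path -/
theorem Stop_tail {d g u : V × V} {i n : ℕ} (hw : wk b r σ i d = some g)
    (hs : Stop b r σ d n u) : ∃ k, n = i + k ∧ Stop b r σ g k u := by
  have hle : i ≤ n := by
    by_contra hlt
    push Not at hlt
    obtain ⟨k, rfl⟩ := Nat.exists_eq_add_of_lt hlt
    rw [Nat.add_assoc, wk_add, hs.1, Option.bind_some, wk_succ', hs.2] at hw
    simp at hw
  obtain ⟨k, rfl⟩ := Nat.exists_eq_add_of_le hle
  refine ⟨k, rfl, ?_, hs.2⟩
  have := hs.1
  rw [wk_add, hw, Option.bind_some] at this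
  exact this

/-- the end of a path, seen from an earlier dart -/
theorem Stop_ext {d g u : V × V} {i k : ℕ} (hw : wk b r σ i d = some g)
    (hs : Stop b r σ g k u) : Stop b r σ d (i + k) u := by
  refine ⟨?_, hs.2⟩
  rw [wk_add, hw, Option.bind_some]
  exact hs.1

/-! ### colours -/

theorem col_iff {a t : V × V → ℝ} {d u w : V × V} {n m : ℕ}
    (hs : Stop b r σ d n u) (hs' : Stop b r σ d.swap m w) :
    col b a t r σ d ↔
      ((t u < t w ∧ (a u < 1/2 ↔ Even n)) ∨ (t w < t u ∧ (a w < 1/2 ↔ Even m))) := by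
  constructor
  · rintro ⟨n', m', u', w', h1, h2, h3⟩
    obtain ⟨rfl, rfl⟩ := Stop_unique hs h1
    obtain ⟨rfl, rfl⟩ := Stop_unique hs' h2
    exact h3
  · intro h3
    exact ⟨n, m, u, w, hs, hs', h3⟩

theorem col_symm {a t : V × V → ℝ} {d : V × V} (hc : col b a t r σ d) : col b a t r σ d.swap := by
  obtain ⟨n, m, u, w, h1, h2, h3⟩ := hc
  refine ⟨m, n, w, u, h2, ?_, h3.symm⟩
  rw [Prod.swap_swap]; exact h1

theorem col_swap {a t : V × V → ℝ} {d : V × V} : col b a t r σ d.swap ↔ col b a t r σ d := by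
  constructor
  · intro h
    have := col_symm h
    rwa [Prod.swap_swap] at this
  · exact col_symm

theorem col_alt (h : H2 G r σ) {a t : V × V → ℝ} {d e u w : V × V} {i n m : ℕ}
    (hw : wk b r σ i d = some e)
    (hs : Stop b r σ d n u) (hs' : Stop b r σ d.swap m w) (ht : t u ≠ t w) :
    col b a t r σ d ↔ (Even i ↔ col b a t r σ e) := by
  obtain ⟨k, rfl, hk⟩ := Stop_tail hw hs
  have h2 : Stop b r σ e.swap (i + m) w := Stop_ext (wk_rev h i hw) hs'
  rw [col_iff hs hs', col_iff hk h2, Nat.even_add, Nat.even_add]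
  rcases lt_or_gt_of_ne ht with h3 | h3
  · have h4 : ¬ t w < t u := not_lt.mpr h3.le
    simp only [h3, h4, true_and, false_and, or_false]
    tauto
  · have h4 : ¬ t u < t w := not_lt.mpr h3.le
    simp only [h3, h4, true_and, false_and, false_or]
    tauto

end Pool.Agent.PM.Hv2
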