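import Pool.Agent.Lib.MP_947a32_pr.Halve2A
import Pool.Agent.Lib.MP_947a32_pr.Halve2B
import Pool.Agent.Lib.MP_947a32_pr.RfxA
import Pool.Agent.Lib.MP_947a32_pr.Meas

/-!
# Piece HALVE2, fairness of the colour of a tagged edge (helper5)
-/

set_option autoImplicit false

open Classical MeasureTheory
open scoped ENNReal

namespace Pool.Agent.PM

variable {V : Type} {G : SimpleGraph V}


namespace Hv2

/-- the dart `u` is the deciding end of the path of the edge of `e` -/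
def dcd (b : Bool) (e u : V × V) (x : XX G) : Prop :=
  ∃ n m w, ((Stop b (lab x.2 2) x.1 e n u ∧ Stop b (lab x.2 2) x.1 e.swap m w) ∨
    (Stop b (lab x.2 2) x.1 e n w ∧ Stop b (lab x.2 2) x.1 e.swap m u)) ∧
    lab x.2 1 u < lab x.2 1 w

theorem fair_lab_ne {i : Fin 3} (hi : i ≠ 0) (u : Dt G) (l : Lb G) :
    lab (flipL (u, 0) l) i = lab l i := by
  funext d
  unfold lab
  by_cases h : G.Adj d.1 d.2
  · rw [dif_pos h, dif_pos h]
    exact flipL_ne (by simp [hi]) l
  · rw [dif_neg h, dif_neg h]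

theorem fair_lab_self (u : Dt G) (l : Lb G) :
    lab (flipL (u, 0) l) 0 u.1 = 1 - lab l 0 u.1 := by
  unfold lab
  rw [dif_pos u.2, dif_pos u.2]
  exact flipL_self (u, 0) l

theorem fair_dcd_flip (b : Bool) (e : V × V) (u' : V × V) (u : Dt G) (x : XX G) :
    dcd b e u' (x.1, flipL (u, 0) x.2) ↔ dcd b e u' x := by
  unfold dcd
  simp only [fair_lab_ne (i := 1) (by decide), fair_lab_ne (i := 2) (by decide)]

theorem fair_meas_dcd [Countable V] (b : Bool) (e u : V × V) :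
    MeasurableSet {x : XX G | dcd b e u x} := by
  have hS : ∀ (d : V × V) (n : ℕ) (u : V × V),
      MeasurableSet {x : XX G | Stop b (lab x.2 2) x.1 d n u} := fun d n u =>
    meas_Stop_DS b (DS_of_measurable measurable_fst) (fun d => meas_lab' 2 d) d n u
  have hT : ∀ u w : V × V, MeasurableSet {x : XX G | lab x.2 1 u < lab x.2 1 w} := fun u w =>
    measurableSet_lt ((meas_lab 1 u).comp measurable_snd) ((meas_lab 1 w).comp measurable_snd)
  have he : {x : XX G | dcd b e u x} = ⋃ n : ℕ, ⋃ m : ℕ, ⋃ w : V × V,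
      ((({x : XX G | Stop b (lab x.2 2) x.1 e n u} ∩ {x : XX G | Stop b (lab x.2 2) x.1 e.swap m w}) ∪
        ({x : XX G | Stop b (lab x.2 2) x.1 e n w} ∩ {x : XX G | Stop b (lab x.2 2) x.1 e.swap m u})) ∩
        {x : XX G | lab x.2 1 u < lab x.2 1 w}) := by
    ext x
    simp only [dcd, Set.mem_ofPred_eq, Set.mem_iUnion, Set.mem_inter_iff, Set.mem_union]
  rw [he]
  exact MeasurableSet.iUnion fun n => MeasurableSet.iUnion fun m => MeasurableSet.iUnion fun w =>
    (((hS e n u).inter (hS e.swap m w)).union ((hS e n w).inter (hS e.swap m u))).inter (hT u w)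

theorem fair_meas_col [Countable V] (b : Bool) (e : V × V) :
    MeasurableSet {x : XX G | col b (lab x.2 0) (lab x.2 1) (lab x.2 2) x.1 e} :=
  meas_col b (DS_of_measurable measurable_fst) (fun d => meas_lab' 0 d) (fun d => meas_lab' 1 d)
    (fun d => meas_lab' 2 d) e

theorem fair_meas_ind {X : Type} [MeasurableSpace X] {P : X → Prop}
    (hP : MeasurableSet {x | P x}) : Measurable (fun x => ind (P x)) := by
  have : (fun x => ind (P x)) = Set.indicator {x | P x} (fun _ => (1 : ℝ≥0∞)) := by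
    funext x
    by_cases h : P x
    · simp [ind, h]
    · simp [ind, h]
  rw [this]
  exact measurable_const.indicator hP

/-- exactly one dart decides -/
theorem fair_unique {b : Bool} {e : V × V} {x : XX G} (h : H2 G (lab x.2 2) x.1)
    (ht : TI G (lab x.2 1)) (ha : alive x.1 e)
    (hst : ∀ e : V × V, alive x.1 e → ∃ n u, Stop b (lab x.2 2) x.1 e n u) :
    ∃ u : Dt G, dcd b e u.1 x ∧ ∀ u' : Dt G, dcd b e u'.1 x → u' = u := by
  obtain ⟨n, u, hu⟩ := hst e ha
  obtain ⟨m, w, hw⟩ := hst e.swap (h.swap ha)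
  have hne : u ≠ w := Stop_ne h ha hu hw
  have hau : alive x.1 u := Stop_alive h ha hu
  have haw : alive x.1 w := Stop_alive h (h.swap ha) hw
  have hdu : G.Adj u.1 u.2 := h.adj hau
  have hdw : G.Adj w.1 w.2 := h.adj haw
  have htne : lab x.2 1 u ≠ lab x.2 1 w := fun he => hne (ht u w hdu hdw he)
  have key : ∀ u' : V × V, dcd b e u' x →
      (u' = u ∧ lab x.2 1 u < lab x.2 1 w) ∨ (u' = w ∧ lab x.2 1 w < lab x.2 1 u) := by
    rintro u' ⟨n', m', w', hc, hlt⟩
    rcases hc with ⟨h1, h2⟩ | ⟨h1, h2⟩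
    · obtain ⟨-, rfl⟩ := Stop_unique hu h1
      obtain ⟨-, rfl⟩ := Stop_unique hw h2
      exact Or.inl ⟨rfl, hlt⟩
    · obtain ⟨-, rfl⟩ := Stop_unique hu h1
      obtain ⟨-, rfl⟩ := Stop_unique hw h2
      exact Or.inr ⟨rfl, hlt⟩
  rcases lt_or_gt_of_ne htne with hlt | hlt
  · refine ⟨⟨u, hdu⟩, ⟨n, m, w, Or.inl ⟨hu, hw⟩, hlt⟩, fun u' hu' => ?_⟩
    rcases key u'.1 hu' with ⟨h1, -⟩ | ⟨-, h1⟩
    · exact Subtype.ext h1
    · exact absurd h1 (not_lt.mpr hlt.le)
  · refine ⟨⟨w, hdw⟩, ⟨n, m, u, Or.inr ⟨hu, hw⟩, hlt⟩, fun u' hu' => ?_⟩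
    rcases key u'.1 hu' with ⟨-, h1⟩ | ⟨h1, -⟩
    · exact absurd h1 (not_lt.mpr hlt.le)
    · exact Subtype.ext h1

/-- flipping the coin of the deciding end flips the colour -/
theorem fair_flip {b : Bool} {e : V × V} {x : XX G} {u : Dt G} (hd : dcd b e u.1 x)
    (hu : lab x.2 0 u.1 ≠ 1/2) :
    col b (lab (flipL (u, 0) x.2) 0) (lab (flipL (u, 0) x.2) 1) (lab (flipL (u, 0) x.2) 2) x.1 e ↔
      ¬ col b (lab x.2 0) (lab x.2 1) (lab x.2 2) x.1 e := by
  rw [fair_lab_ne (i := 1) (by decide), fair_lab_ne (i := 2) (by decide)]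
  obtain ⟨n, m, w, hc, hlt⟩ := hd
  have hnlt : ¬ lab x.2 1 w < lab x.2 1 u.1 := not_lt.mpr hlt.le
  have hflip : (lab (flipL (u, 0) x.2) 0 u.1 < 1/2) ↔ ¬ (lab x.2 0 u.1 < 1/2) := by
    rw [fair_lab_self]
    constructor
    · intro h1 h2
      linarith
    · intro h1
      have h2 : 1/2 < lab x.2 0 u.1 := lt_of_le_of_ne (not_lt.mp h1) (Ne.symm hu)
      linarith
  rcases hc with ⟨h1, h2⟩ | ⟨h1, h2⟩
  · rw [col_iff h1 h2, col_iff h1 h2]
    simp only [hlt, hnlt, true_and, false_and, or_false, hflip]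
    tauto
  · rw [col_iff h1 h2, col_iff h1 h2]
    simp only [hlt, hnlt, true_and, false_and, false_or, hflip]
    tauto

/-- fairness: given all local data, the colour of the edge of `e` is a fair coin -/
theorem fair [Countable V] {μ : Measure (St V)} [IsProbabilityMeasure μ] (hG : G.IsTree) (b : Bool)
    {e : V × V} (he : G.Adj e.1 e.2)
    (hs : ∀ᵐ σ ∂μ, WF0 G σ ∧ ∀ v, (σ v).comp = {v})
    (hst : ∀ᵐ x ∂(μ.prod (lam G)), ∀ e : V × V, alive x.1 e →
      ∃ n u, Stop b (lab x.2 2) x.1 e n u)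
    {Φ : XX G → ℝ≥0∞} (hΦ : Measurable Φ)
    (hins : ∀ᵐ x ∂(μ.prod (lam G)), alive x.1 e → ∀ (u : Dt G) (n : ℕ),
      (Stop b (lab x.2 2) x.1 e n u.1 ∨ Stop b (lab x.2 2) x.1 e.swap n u.1) →
        Φ (x.1, flipL (u, 0) x.2) = Φ x) :
    2 * ∫⁻ x, ind (alive x.1 e) *
        (ind (col b (lab x.2 0) (lab x.2 1) (lab x.2 2) x.1 e) * Φ x) ∂(μ.prod (lam G)) =
      ∫⁻ x, ind (alive x.1 e) * Φ x ∂(μ.prod (lam G)) := by
  have _ := he
  -- measurability
  have mA : Measurable (fun x : XX G => ind (alive x.1 e)) :=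
    (fac_meas_alive e).comp measurable_fst
  have mE : ∀ u : V × V, Measurable (fun x : XX G => ind (dcd b e u x)) := fun u =>
    fair_meas_ind (fair_meas_dcd b e u)
  have mC : Measurable (fun x : XX G => ind (col b (lab x.2 0) (lab x.2 1) (lab x.2 2) x.1 e)) :=
    fair_meas_ind (fair_meas_col b e)
  have mN : Measurable (fun x : XX G => ind (¬ col b (lab x.2 0) (lab x.2 1) (lab x.2 2) x.1 e)) :=
    fair_meas_ind (fair_meas_col b e).compl
  have mFC : ∀ u : V × V, Measurable (fun x : XX G => ind (alive x.1 e) * (ind (dcd b e u x) *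
      (ind (col b (lab x.2 0) (lab x.2 1) (lab x.2 2) x.1 e) * Φ x))) := fun u =>
    mA.mul ((mE u).mul (mC.mul hΦ))
  have mFN : ∀ u : V × V, Measurable (fun x : XX G => ind (alive x.1 e) * (ind (dcd b e u x) *
      (ind (¬ col b (lab x.2 0) (lab x.2 1) (lab x.2 2) x.1 e) * Φ x))) := fun u =>
    mA.mul ((mE u).mul (mN.mul hΦ))
  have mF1 : ∀ u : V × V, Measurable (fun x : XX G => ind (alive x.1 e) * (ind (dcd b e u x) *
      Φ x)) := fun u => mA.mul ((mE u).mul hΦ)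
  -- almost sure facts
  have hs' : ∀ᵐ x ∂(μ.prod (lam G)), WF0 G x.1 ∧ ∀ v, (x.1 v).comp = {v} :=
    Measure.quasiMeasurePreserving_fst.ae hs
  have hgen : ∀ᵐ x ∂(μ.prod (lam G)), Gen (0 : ℝ) x.2 := ae_Gen 0
  have huniq : ∀ᵐ x ∂(μ.prod (lam G)), alive x.1 e →
      ∑' u : Dt G, ind (dcd b e u.1 x) = 1 := by
    filter_upwards [hs', hgen, hst] with x h1 h2 h3 ha
    have hH : H2 G (lab x.2 2) x.1 := ⟨hG, h1.1, h1.2, TI_of_Gen h2 2⟩
    obtain ⟨u, hu, hu'⟩ := fair_unique hH (TI_of_Gen h2 1) ha h3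
    rw [tsum_eq_single u]
    · simp [ind, hu]
    · intro u' hne
      have : ¬ dcd b e u'.1 x := fun hd => hne (hu' u' hd)
      simp [ind, this]
  -- sums over the deciding end
  have hsum : ∀ {Ψ : XX G → ℝ≥0∞}, Measurable Ψ →
      ∫⁻ x, ind (alive x.1 e) * Ψ x ∂(μ.prod (lam G)) =
        ∑' u : Dt G, ∫⁻ x, ind (alive x.1 e) * (ind (dcd b e u.1 x) * Ψ x)
          ∂(μ.prod (lam G)) := by
    intro Ψ hΨ
    have mm : ∀ u : Dt G, AEMeasurable (fun x : XX G => ind (alive x.1 e) *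
        (ind (dcd b e u.1 x) * Ψ x)) (μ.prod (lam G)) := fun u =>
      (mA.mul ((mE u.1).mul hΨ)).aemeasurable
    rw [← lintegral_tsum mm]
    refine lintegral_congr_ae ?_
    filter_upwards [huniq] with x hx
    by_cases ha : alive x.1 e
    · have h1 := hx ha
      calc ind (alive x.1 e) * Ψ x = ind (alive x.1 e) * ((∑' u : Dt G, ind (dcd b e u.1 x)) * Ψ x) := by
            rw [h1, one_mul]
        _ = ∑' u : Dt G, ind (alive x.1 e) * (ind (dcd b e u.1 x) * Ψ x) := by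
            rw [← ENNReal.tsum_mul_right, ENNReal.tsum_mul_left]
    · simp [ind, ha]
  have hs1 := hsum (Ψ := fun x => ind (col b (lab x.2 0) (lab x.2 1) (lab x.2 2) x.1 e) * Φ x)
    (mC.mul hΦ)
  rw [hs1, hsum hΦ, ← ENNReal.tsum_mul_left]
  refine tsum_congr fun u => ?_
  -- one deciding end
  have hflip : ∫⁻ x, ind (alive x.1 e) * (ind (dcd b e u.1 x) *
      (ind (col b (lab x.2 0) (lab x.2 1) (lab x.2 2) x.1 e) * Φ x)) ∂(μ.prod (lam G)) =
      ∫⁻ x, ind (alive x.1 e) * (ind (dcd b e u.1 x) *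
      (ind (¬ col b (lab x.2 0) (lab x.2 1) (lab x.2 2) x.1 e) * Φ x)) ∂(μ.prod (lam G)) := by
    rw [← (flip_mpx μ (u, 0)).lintegral_comp (mFC u.1)]
    refine lintegral_congr_ae ?_
    filter_upwards [hs', hgen, hins] with x h1 h2 h3
    by_cases ha : alive x.1 e
    · by_cases hd : dcd b e u.1 x
      · have hd' : dcd b e u.1 (x.1, flipL (u, 0) x.2) := (fair_dcd_flip b e u.1 u x).mpr hd
        have h4 : lab x.2 0 u.1 ≠ 1/2 := by
          unfold lab
          rw [dif_pos u.2]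
          exact (h2.2 _).2
        have h5 := fair_flip hd h4
        have h6 : Φ (x.1, flipL (u, 0) x.2) = Φ x := by
          obtain ⟨n, m, w, hc, -⟩ := hd
          rcases hc with hc | hc
          · exact h3 ha u n (Or.inl hc.1)
          · exact h3 ha u m (Or.inr hc.2)
        have c1 := congrArg ind (propext h5)
        have c2 := congrArg ind (propext (fair_dcd_flip b e u.1 u x))
        simp only [c1, c2, h6]
      · have hd' : ¬ dcd b e u.1 (x.1, flipL (u, 0) x.2) := fun h =>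
          hd ((fair_dcd_flip b e u.1 u x).mp h)
        simp [ind, hd, hd']
    · simp [ind, ha]
  have hadd : ∫⁻ x, ind (alive x.1 e) * (ind (dcd b e u.1 x) * Φ x) ∂(μ.prod (lam G)) =
      ∫⁻ x, ind (alive x.1 e) * (ind (dcd b e u.1 x) *
        (ind (col b (lab x.2 0) (lab x.2 1) (lab x.2 2) x.1 e) * Φ x)) ∂(μ.prod (lam G)) +
      ∫⁻ x, ind (alive x.1 e) * (ind (dcd b e u.1 x) *
        (ind (¬ col b (lab x.2 0) (lab x.2 1) (lab x.2 2) x.1 e) * Φ x)) ∂(μ.prod (lam G)) := by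
    rw [← lintegral_add_left (mFC u.1)]
    refine lintegral_congr fun x => ?_
    by_cases hc : col b (lab x.2 0) (lab x.2 1) (lab x.2 2) x.1 e
    · simp [ind, hc]
    · simp [ind, hc]
  rw [hadd, ← hflip, two_mul]

end Hv2

end Pool.Agent.PM
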