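import Pool.Agent.Lib.MP_947a32_pr.Op2
import Pool.Agent.Lib.MP_947a32_pr.TreeS

/-! # MP_947a32_pr : one stage preserves the invariants (helper92) -/

set_option autoImplicit false

open Classical MeasureTheory
open scoped ENNReal

namespace Pool.Agent.PM

variable {V : Type} {G : SimpleGraph V}


/-! ### alive darts -/

theorem WF0.st_alive_swap {σ : St V} (h : WF0 G σ) {q : V × V} (hq : alive σ q) : alive σ q.swap :=
  h.swap q.1 q hq

theorem WF0.st_alive_of_mem {σ : St V} (h : WF0 G σ) {v : V} {q : V × V} (hq : q ∈ (σ v).ports) :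
    alive σ q := by
  have h1 := (h.eqv v q.1 (h.tail v q hq).1).2.1
  unfold alive
  rw [h1]
  exact hq

theorem WF0.st_mem_iff {σ : St V} (h : WF0 G σ) {v : V} {q : V × V} :
    q ∈ (σ v).ports ↔ q.1 ∈ (σ v).comp ∧ alive σ q := by
  constructor
  · intro hq
    exact ⟨(h.tail v q hq).1, h.st_alive_of_mem hq⟩
  · rintro ⟨h1, h2⟩
    have h3 := (h.eqv v q.1 h1).2.1
    unfold alive at h2
    rwa [h3] at h2

theorem WF0.st_adj_of_alive {σ : St V} (h : WF0 G σ) {q : V × V} (hq : alive σ q) : G.Adj q.1 q.2 :=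
  (h.tail q.1 q hq).2

theorem st_opd_swap (O : Set (V × V)) (q : V × V) : opd O q.swap ↔ opd O q := by
  unfold opd
  rw [Prod.swap_swap]
  exact or_comm

theorem st_hot_opd {O : Set (V × V)} {σ : St V} {d : V × V} (h : hot O σ d) : opd O d := h.2.2.1

theorem st_hot_alive {O : Set (V × V)} {σ : St V} {d : V × V} (h : hot O σ d) : alive σ d := h.1

/-! ### the region -/

theorem st_Rl_symm {σ : St V} (h : WF0 G σ) {O : Set (V × V)} {u w : V} (hr : Rl O σ u w) :
    Rl O σ w u := by
  rcases hr with h1 | h1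
  · left
    rw [(h.eqv u w h1).1]
    exact h.mem u
  · right
    exact (hot_swap O (u, w)).2 h1

theorem st_region_symm {σ : St V} (h : WF0 G σ) {O : Set (V × V)} {u w : V}
    (hr : w ∈ region O σ u) : u ∈ region O σ w := by
  have : Relation.ReflTransGen (Rl O σ) w u := by
    induction hr with
    | refl => exact Relation.ReflTransGen.refl
    | tail _ h2 ih => exact Relation.ReflTransGen.head (st_Rl_symm h h2) ih
  exact this

theorem st_region_self {σ : St V} {O : Set (V × V)} (u : V) : u ∈ region O σ u :=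
  Relation.ReflTransGen.refl

theorem st_region_trans {σ : St V} {O : Set (V × V)} {u v w : V}
    (h1 : v ∈ region O σ u) (h2 : w ∈ region O σ v) : w ∈ region O σ u :=
  Relation.ReflTransGen.trans h1 h2

theorem st_region_eq {σ : St V} (h : WF0 G σ) {O : Set (V × V)} {u w : V}
    (hr : w ∈ region O σ u) : region O σ w = region O σ u := by
  ext x
  exact ⟨fun hx => st_region_trans hr hx, fun hx => st_region_trans (st_region_symm h hr) hx⟩

theorem st_region_comp {σ : St V} {O : Set (V × V)} {u w : V}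
    (hr : w ∈ (σ u).comp) : w ∈ region O σ u :=
  Relation.ReflTransGen.single (Or.inl hr)

theorem st_region_hot {σ : St V} {O : Set (V × V)} {d : V × V}
    (hr : hot O σ d) : d.2 ∈ region O σ d.1 :=
  Relation.ReflTransGen.single (Or.inr hr)

theorem st_hotSet_eq {σ : St V} (h : WF0 G σ) {O : Set (V × V)} (t : V × V → ℝ) {u w : V}
    (hr : w ∈ region O σ u) : hotSet O t σ w = hotSet O t σ u := by
  unfold hotSet
  rw [st_region_eq h hr]

/-- the region of `v` does not cross unopened alive edges -/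
theorem st_region_side (hG : G.IsTree) {σ : St V} (h : WF0 G σ) {O : Set (V × V)} {p : V × V}
    (hp : alive σ p) (ho : ¬ opd O p) {v x : V} (hx : x ∈ region O σ v) :
    side G p x ↔ side G p v := by
  have hadj := h.st_adj_of_alive hp
  induction hx with
  | refl => rfl
  | @tail u w _ h2 ih =>
    refine Iff.trans ?_ ih
    rcases h2 with h2 | h2
    · exact h.sep p hp u w h2
    · have hadj' : G.Adj u w := h.st_adj_of_alive (st_hot_alive h2)
      have ho2 : opd O (u, w) := st_hot_opd h2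
      constructor
      · intro hw
        by_contra hu
        obtain ⟨h3, h4⟩ := side_cross hG hadj hadj'.symm hw hu
        apply ho
        have : p = (u, w).swap := Prod.ext h3.symm h4.symm
        rw [this, st_opd_swap]
        exact ho2
      · intro hu
        by_contra hw
        obtain ⟨h3, h4⟩ := side_cross hG hadj hadj' hu hw
        apply ho
        have : p = (u, w) := Prod.ext h3.symm h4.symm
        rw [this]
        exact ho2

/-! ### chill -/

theorem st_chill_comp (O : Set (V × V)) (σ : St V) (v : V) : (chill O σ v).comp = (σ v).comp := rfl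

theorem st_chill_M (O : Set (V × V)) (σ : St V) (v : V) : (chill O σ v).M = (σ v).M := rfl

theorem st_mem_chill_ports {O : Set (V × V)} {σ : St V} {v : V} {q : V × V} :
    q ∈ (chill O σ v).ports ↔ q ∈ (σ v).ports ∧ (opd O q → hot O σ q) := by
  simp [chill]

theorem st_chill_alive {O : Set (V × V)} {σ : St V} {q : V × V} :
    alive (chill O σ) q ↔ alive σ q ∧ (opd O q → hot O σ q) := st_mem_chill_ports

/-! ### op -/

theorem st_op_not_alive {σ : St V} {d : V × V} (hd : ¬ alive σ d) : op σ d = σ := by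
  funext v
  unfold op
  rw [if_neg]
  rintro ⟨h1, -⟩
  exact hd h1

theorem st_op_other {σ : St V} {d : V × V} {v : V} (h1 : v ∉ (σ d.1).comp) (h2 : v ∉ (σ d.2).comp) :
    op σ d v = σ v := by
  unfold op
  rw [if_neg]
  rintro ⟨-, -, h3 | h3⟩
  · exact h1 h3
  · exact h2 h3

theorem st_op_comp_cases (σ : St V) (d : V × V) (v : V) : (op σ d v).comp = (σ v).comp ∨
    ((v ∈ (σ d.1).comp ∨ v ∈ (σ d.2).comp) ∧
      (op σ d v).comp = (σ d.1).comp ∪ (σ d.2).comp) := by
  unfold op
  by_cases h1 : d ∈ (σ d.1).ports ∧ d.swap ∈ (σ d.2).ports ∧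
      (v ∈ (σ d.1).comp ∨ v ∈ (σ d.2).comp)
  · rw [if_pos h1]
    by_cases h2 : (d ∈ (σ d.1).spec ↔ d.swap ∈ (σ d.2).spec)
    · rw [if_pos h2]
      by_cases h3 : 3 ≤ (σ d.1).ports.card ∧ 3 ≤ (σ d.2).ports.card
      · rw [if_pos h3]
        exact Or.inl rfl
      · rw [if_neg h3]
        by_cases h4 : (σ d.2).ports.card = 2
        · rw [if_pos h4]
          exact Or.inr ⟨h1.2.2, rfl⟩
        · rw [if_neg h4]
          exact Or.inr ⟨h1.2.2, rfl⟩
    · rw [if_neg h2]
      exact Or.inr ⟨h1.2.2, rfl⟩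
  · rw [if_neg h1]
    exact Or.inl rfl

theorem st_op_comp_sub {σ : St V} (h : WF0 G σ) (d : V × V) (v : V) :
    (σ v).comp ⊆ (op σ d v).comp := by
  intro x hx
  rcases st_op_comp_cases σ d v with h1 | ⟨h1, h2⟩
  · rwa [h1]
  · rw [h2]
    rcases h1 with h5 | h5
    · exact Finset.mem_union_left _ (by rwa [(h.eqv _ _ h5).1] at hx)
    · exact Finset.mem_union_right _ (by rwa [(h.eqv _ _ h5).1] at hx)

theorem st_op_comp_mem {σ : St V} {d : V × V} {v x : V} (hx : x ∈ (op σ d v).comp) :
    x ∈ (σ v).comp ∨ ((v ∈ (σ d.1).comp ∨ v ∈ (σ d.2).comp) ∧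
      (x ∈ (σ d.1).comp ∨ x ∈ (σ d.2).comp)) := by
  rcases st_op_comp_cases σ d v with h1 | ⟨h1, h2⟩
  · rw [h1] at hx
    exact Or.inl hx
  · rw [h2] at hx
    exact Or.inr ⟨h1, Finset.mem_union.1 hx⟩

/-! ### run -/

/-- induction principle for `run` -/
theorem st_run_ind {P : Finset (V × V) → St V → Prop} (t : V × V → ℝ)
    (hs : ∀ S σ d, d ∈ S → (∀ d' ∈ S, d' ≠ d → t d < t d') → P S σ → P (S.erase d) (op σ d)) :
    ∀ (n : ℕ) (S : Finset (V × V)) (σ : St V), P S σ → ∃ S' ⊆ S, P S' (run t n S σ) := by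
  intro n
  induction n with
  | zero => exact fun S σ h => ⟨S, Finset.Subset.refl _, h⟩
  | succ n ih =>
    intro S σ h
    unfold run
    split_ifs with h1
    · obtain ⟨S', h2, h3⟩ := ih _ _ (hs S σ h1.choose h1.choose_spec.1 h1.choose_spec.2 h)
      exact ⟨S', h2.trans (Finset.erase_subset _ _), h3⟩
    · exact ⟨S, Finset.Subset.refl _, h⟩

/-- induction principle for `run`, when all times are distinct -/
theorem st_run_full {P : Finset (V × V) → St V → Prop} (t : V × V → ℝ)
    (hs : ∀ S σ d, d ∈ S → (∀ d' ∈ S, d' ≠ d → t d < t d') → P S σ → P (S.erase d) (op σ d)) :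
    ∀ (n : ℕ) (S : Finset (V × V)) (σ : St V), S.card = n →
      (∀ d ∈ S, ∀ d' ∈ S, t d = t d' → d = d') → P S σ → P ∅ (run t n S σ) := by
  intro n
  induction n with
  | zero =>
    intro S σ h0 _ h
    rw [Finset.card_eq_zero] at h0
    rw [h0] at h
    exact h
  | succ n ih =>
    intro S σ h0 hi h
    have hne : S.Nonempty := by
      rw [← Finset.card_pos]
      omega
    have h1 : ∃ d ∈ S, ∀ d' ∈ S, d' ≠ d → t d < t d' := by
      obtain ⟨d, hd, hmin⟩ := S.exists_min_image t hne
      refine ⟨d, hd, fun d' hd' hne' => lt_of_le_of_ne (hmin d' hd') fun h2 => ?_⟩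
      exact hne' (hi d hd d' hd' h2).symm
    unfold run
    rw [dif_pos h1]
    apply ih
    · rw [Finset.card_erase_of_mem h1.choose_spec.1]
      omega
    · intro d hd d' hd'
      exact hi d (Finset.mem_of_mem_erase hd) d' (Finset.mem_of_mem_erase hd')
    · exact hs S σ h1.choose h1.choose_spec.1 h1.choose_spec.2 h

theorem st_run_WF0 (hG : G.IsTree) (t : V × V → ℝ) (n : ℕ) (S : Finset (V × V)) {σ : St V}
    (h : WF0 G σ) : WF0 G (run t n S σ) := by
  obtain ⟨_, _, h1⟩ := st_run_ind (P := fun _ σ => WF0 G σ) t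
    (fun S σ d _ _ h => op_WF0 hG h d) n S σ h
  exact h1

theorem st_run_WF (hG : G.IsTree) (t : V × V → ℝ) (n : ℕ) (S : Finset (V × V)) {σ : St V}
    (h : WF G σ) : WF G (run t n S σ) := by
  obtain ⟨_, _, h1⟩ := st_run_ind (P := fun _ σ => WF G σ) t
    (fun S σ d _ _ h => by
      by_cases hd : alive σ d
      · exact op_WF hG h hd
      · rw [st_op_not_alive hd]
        exact h) n S σ h
  exact h1

theorem st_run_Dec (hG : G.IsTree) (t : V × V → ℝ) (n : ℕ) (S : Finset (V × V)) {σ : St V}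
    (h : WF0 G σ) {v w : V} (hd : Dec σ v w) : Dec (run t n S σ) v w := by
  obtain ⟨_, _, h1⟩ := st_run_ind (P := fun _ σ => WF0 G σ ∧ Dec σ v w) t
    (fun S σ d _ _ h => ⟨op_WF0 hG h.1 d, op_Dec h.1 d h.2⟩) n S σ ⟨h, hd⟩
  exact h1.2

theorem st_op_alive_imp (hG : G.IsTree) {σ : St V} (h : WF0 G σ) {d q : V × V}
    (hq : alive (op σ d) q) : alive σ q ∧ q ≠ d ∧ q ≠ d.swap := by
  by_cases hd : alive σ d
  · exact (op_alive hG h hd q).1 hq
  · rw [st_op_not_alive hd] at hq
    refine ⟨hq, ?_, ?_⟩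
    · rintro rfl
      exact hd hq
    · rintro rfl
      apply hd
      have := h.st_alive_swap hq
      rwa [Prod.swap_swap] at this

theorem st_alive_op_of (hG : G.IsTree) {σ : St V} (h : WF0 G σ) {d q : V × V}
    (hq : alive σ q) (h1 : q ≠ d) (h2 : q ≠ d.swap) : alive (op σ d) q := by
  by_cases hd : alive σ d
  · exact (op_alive hG h hd q).2 ⟨hq, h1, h2⟩
  · rw [st_op_not_alive hd]
    exact hq

theorem st_run_alive (hG : G.IsTree) (t : V × V → ℝ) (n : ℕ) (S : Finset (V × V)) {σ : St V}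
    (h : WF0 G σ) {q : V × V} (hq : alive (run t n S σ) q) : alive σ q := by
  obtain ⟨_, _, h1⟩ := st_run_ind (P := fun _ τ => WF0 G τ ∧ (alive τ q → alive σ q)) t
    (fun S τ d _ _ h => ⟨op_WF0 hG h.1 d, fun h2 => h.2 (st_op_alive_imp hG h.1 h2).1⟩) n S σ ⟨h, id⟩
  exact h1.2 hq

theorem st_alive_run (hG : G.IsTree) (t : V × V → ℝ) (n : ℕ) (S : Finset (V × V)) {σ : St V}
    (h : WF0 G σ) {q : V × V} (hq : alive σ q) (hS : ∀ d ∈ S, q ≠ d ∧ q ≠ d.swap) :
    alive (run t n S σ) q := by
  obtain ⟨_, _, h1⟩ := st_run_ind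
    (P := fun S' τ => WF0 G τ ∧ alive τ q ∧ ∀ d ∈ S', q ≠ d ∧ q ≠ d.swap) t
    (fun S' τ d hd _ h => ⟨op_WF0 hG h.1 d, st_alive_op_of hG h.1 h.2.1 (h.2.2 d hd).1 (h.2.2 d hd).2,
      fun d' hd' => h.2.2 d' (Finset.mem_of_mem_erase hd')⟩) n S σ ⟨h, hq, hS⟩
  exact h1.2.1

theorem st_run_comp_sub (hG : G.IsTree) (t : V × V → ℝ) (n : ℕ) (S : Finset (V × V)) {σ : St V}
    (h : WF0 G σ) (v : V) : (σ v).comp ⊆ (run t n S σ v).comp := by
  obtain ⟨_, _, h1⟩ := st_run_ind (P := fun _ τ => WF0 G τ ∧ (σ v).comp ⊆ (τ v).comp) t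
    (fun S τ d _ _ h => ⟨op_WF0 hG h.1 d, h.2.trans (st_op_comp_sub h.1 d v)⟩) n S σ
    ⟨h, Finset.Subset.refl _⟩
  exact h1.2

/-- during the run all comps stay inside the regions -/
theorem st_run_region (hG : G.IsTree) {σ : St V} (h : WF0 G σ) (O : Set (V × V)) (t : V × V → ℝ)
    (n : ℕ) (S : Finset (V × V)) (hS : ∀ d ∈ S, hot O σ d) :
    ∀ v, ∀ x ∈ (run t n S (chill O σ) v).comp, x ∈ region O σ v := by
  obtain ⟨_, _, h1⟩ := st_run_ind
    (P := fun S' τ => (∀ d ∈ S', hot O σ d) ∧ ∀ v, ∀ x ∈ (τ v).comp, x ∈ region O σ v) t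
    (fun S' τ d hd _ h2 => ⟨fun d' hd' => h2.1 d' (Finset.mem_of_mem_erase hd'), by
      intro v x hx
      rcases st_op_comp_mem hx with h3 | ⟨h3, h4⟩
      · exact h2.2 v x h3
      · have h5 : d.2 ∈ region O σ d.1 := st_region_hot (h2.1 d hd)
        have h6 : ∀ y, (y ∈ (τ d.1).comp ∨ y ∈ (τ d.2).comp) → y ∈ region O σ d.1 := by
          rintro y (hy | hy)
          · exact h2.2 _ y hy
          · exact st_region_trans h5 (h2.2 _ y hy)
        exact st_region_trans (st_region_symm h (h6 v h3)) (h6 x h4)⟩) n S (chill O σ)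
    ⟨hS, fun v x hx => st_region_comp hx⟩
  exact h1.2

/-- the run in the region of `v` does not change anything outside the region -/
theorem st_run_other (hG : G.IsTree) {σ : St V} (h : WF0 G σ) (O : Set (V × V)) (t : V × V → ℝ)
    (n : ℕ) (S : Finset (V × V)) (hS : ∀ d ∈ S, hot O σ d) {w : V}
    (hw : ∀ d ∈ S, w ∉ region O σ d.1) :
    run t n S (chill O σ) w = chill O σ w := by
  obtain ⟨_, _, h1⟩ := st_run_ind
    (P := fun S' τ => (∀ d ∈ S', hot O σ d ∧ w ∉ region O σ d.1) ∧
      (∀ v, ∀ x ∈ (τ v).comp, x ∈ region O σ v) ∧ τ w = chill O σ w) t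
    (fun S' τ d hd _ h2 => by
      obtain ⟨h2a, h2b, h2c⟩ := h2
      have h5 : d.2 ∈ region O σ d.1 := st_region_hot (h2a d hd).1
      have h6 : ∀ y, (y ∈ (τ d.1).comp ∨ y ∈ (τ d.2).comp) → y ∈ region O σ d.1 := by
        rintro y (hy | hy)
        · exact h2b _ y hy
        · exact st_region_trans h5 (h2b _ y hy)
      refine ⟨fun d' hd' => h2a d' (Finset.mem_of_mem_erase hd'), ?_, ?_⟩
      · intro v x hx
        rcases st_op_comp_mem hx with h3 | ⟨h3, h4⟩
        · exact h2b v x h3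
        · exact st_region_trans (st_region_symm h (h6 v h3)) (h6 x h4)
      · rw [st_op_other, h2c]
        · intro h7
          exact (h2a d hd).2 (h6 w (Or.inl h7))
        · intro h7
          exact (h2a d hd).2 (h6 w (Or.inr h7))) n S (chill O σ)
    ⟨fun d hd => ⟨hS d hd, hw d hd⟩, fun v x hx => st_region_comp hx, rfl⟩
  exact h1.2.2

/-! ### the intermediate state used at `v` -/

/-- the state from which `step` reads the new data of `v` -/
noncomputable def st_pre (O : Set (V × V)) (t : V × V → ℝ) (σ : St V) (v : V) : St V :=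
  if h : (hotSet O t σ v).Finite then run t h.toFinset.card h.toFinset (chill O σ)
  else chill O σ

theorem st_step_eq (O : Set (V × V)) (t : V × V → ℝ) (σ : St V) (v : V) :
    step O t σ v = post O (st_pre O t σ v v) := by
  unfold step st_pre
  split_ifs <;> rfl

theorem st_pre_congr {σ : St V} (h : WF0 G σ) {O : Set (V × V)} (t : V × V → ℝ) {u w : V}
    (hr : w ∈ region O σ u) : st_pre O t σ w = st_pre O t σ u := by
  unfold st_pre
  have h1 := st_hotSet_eq h t hr
  by_cases hf : (hotSet O t σ u).Finite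
  · have hf' : (hotSet O t σ w).Finite := by rw [h1]; exact hf
    have h2 : hf'.toFinset = hf.toFinset := by
      ext x
      simp [h1]
    rw [dif_pos hf, dif_pos hf', h2]
  · have hf' : ¬ (hotSet O t σ w).Finite := by rw [h1]; exact hf
    rw [dif_neg hf, dif_neg hf']

theorem st_hotSet_hot {σ : St V} {O : Set (V × V)} {t : V × V → ℝ} {v : V} {d : V × V}
    (hd : d ∈ hotSet O t σ v) : hot O σ d := hd.2.1

theorem st_pre_WF0 (hG : G.IsTree) {σ : St V} (h : WF0 G σ) (O : Set (V × V)) (t : V × V → ℝ)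
    (v : V) : WF0 G (st_pre O t σ v) := by
  unfold st_pre
  split_ifs with hf
  · exact st_run_WF0 hG t _ _ (chill_WF0 hG h O)
  · exact chill_WF0 hG h O

theorem st_pre_WF (hG : G.IsTree) {σ : St V} (h : WF G σ) (O : Set (V × V)) (t : V × V → ℝ)
    (v : V) : WF G (st_pre O t σ v) := by
  unfold st_pre
  split_ifs with hf
  · exact st_run_WF hG t _ _ (chill_WF hG h O)
  · exact chill_WF hG h O

theorem st_pre_region (hG : G.IsTree) {σ : St V} (h : WF0 G σ) (O : Set (V × V)) (t : V × V → ℝ)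
    (v : V) : ∀ u, ∀ x ∈ (st_pre O t σ v u).comp, x ∈ region O σ u := by
  unfold st_pre
  split_ifs with hf
  · apply st_run_region hG h O t
    intro d hd
    exact st_hotSet_hot (hf.mem_toFinset.1 hd)
  · intro u x hx
    exact st_region_comp hx

theorem st_pre_comp_sub (hG : G.IsTree) {σ : St V} (h : WF0 G σ) (O : Set (V × V)) (t : V × V → ℝ)
    (v u : V) : (σ u).comp ⊆ (st_pre O t σ v u).comp := by
  unfold st_pre
  split_ifs with hf
  · exact st_run_comp_sub hG t _ _ (chill_WF0 hG h O) u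
  · exact Finset.Subset.refl _

theorem st_pre_alive (hG : G.IsTree) {σ : St V} (h : WF0 G σ) (O : Set (V × V)) (t : V × V → ℝ)
    {v : V} {q : V × V} (hq : alive (st_pre O t σ v) q) : alive σ q := by
  unfold st_pre at hq
  split_ifs at hq with hf
  · exact (st_chill_alive.1 (st_run_alive hG t _ _ (chill_WF0 hG h O) hq)).1
  · exact (st_chill_alive.1 hq).1

theorem st_alive_pre (hG : G.IsTree) {σ : St V} (h : WF0 G σ) (O : Set (V × V)) (t : V × V → ℝ)
    {v : V} {q : V × V} (hq : alive σ q) (ho : ¬ opd O q) : alive (st_pre O t σ v) q := by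
  have h1 : alive (chill O σ) q := st_chill_alive.2 ⟨hq, fun h2 => absurd h2 ho⟩
  unfold st_pre
  split_ifs with hf
  · apply st_alive_run hG t _ _ (chill_WF0 hG h O) h1
    intro d hd
    have h2 : opd O d := st_hot_opd (st_hotSet_hot (hf.mem_toFinset.1 hd))
    constructor
    · rintro rfl
      exact ho h2
    · rintro rfl
      exact ho ((st_opd_swap O d).2 h2)
  · exact h1

theorem st_pre_Dec (hG : G.IsTree) {σ : St V} (h : WF0 G σ) (O : Set (V × V)) (t : V × V → ℝ)
    (u : V) {v w : V} (hd : Dec (chill O σ) v w) : Dec (st_pre O t σ u) v w := by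
  unfold st_pre
  split_ifs with hf
  · exact st_run_Dec hG t _ _ (chill_WF0 hG h O) hd
  · exact hd

theorem st_pre_other (hG : G.IsTree) {σ : St V} (h : WF0 G σ) (O : Set (V × V)) (t : V × V → ℝ)
    {v w : V} (hw : w ∉ region O σ v) : st_pre O t σ v w = chill O σ w := by
  unfold st_pre
  split_ifs with hf
  · apply st_run_other hG h O t
    · intro d hd
      exact st_hotSet_hot (hf.mem_toFinset.1 hd)
    · intro d hd h1
      have h2 : d.1 ∈ region O σ v := (hf.mem_toFinset.1 hd).1
      exact hw (st_region_trans h2 h1)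
  · rfl

/-- with distinct times and a finite region, all hot darts of the region are processed -/
theorem st_pre_unopened (hG : G.IsTree) {σ : St V} (h : WF0 G σ) {O : Set (V × V)} {t : V × V → ℝ}
    (ht : TI G t) {v : V} (hf : (hotSet O t σ v).Finite) {q : V × V}
    (hq : q ∈ (st_pre O t σ v v).ports) : ¬ opd O q := by
  intro ho
  have hW := st_pre_WF0 hG h O t v
  have hal : alive (st_pre O t σ v) q := hW.st_alive_of_mem hq
  have hq1 : q.1 ∈ region O σ v := st_pre_region hG h O t v v q.1 (hW.tail v q hq).1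
  unfold st_pre at hal
  rw [dif_pos hf] at hal
  have h1 : alive (chill O σ) q := st_run_alive hG t _ _ (chill_WF0 hG h O) hal
  have hhot : hot O σ q := (st_chill_alive.1 h1).2 ho
  have hadj : G.Adj q.1 q.2 := h.st_adj_of_alive (st_hot_alive hhot)
  -- the processed darts are not alive
  have h2 := st_run_full (P := fun S' τ => WF0 G τ ∧
      ∀ d, (d ∈ hf.toFinset ∧ d ∉ S') → ¬ alive τ d ∧ ¬ alive τ d.swap) t
    (fun S' τ d hd _ h3 => ⟨op_WF0 hG h3.1 d, by
      rintro d' ⟨hd', hd''⟩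
      by_cases hdd : d' = d
      · subst hdd
        constructor
        · intro h4
          exact (st_op_alive_imp hG h3.1 h4).2.1 rfl
        · intro h4
          exact (st_op_alive_imp hG h3.1 h4).2.2 rfl
      · have h5 : d' ∉ S' := fun h6 => hd'' (Finset.mem_erase.2 ⟨hdd, h6⟩)
        obtain ⟨h6, h7⟩ := h3.2 d' ⟨hd', h5⟩
        exact ⟨fun h8 => h6 (st_op_alive_imp hG h3.1 h8).1, fun h8 => h7 (st_op_alive_imp hG h3.1 h8).1⟩⟩)
    hf.toFinset.card hf.toFinset (chill O σ) rfl
    (by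
      intro d hd d' hd' h4
      have h5 := st_hotSet_hot (hf.mem_toFinset.1 hd)
      have h6 := st_hotSet_hot (hf.mem_toFinset.1 hd')
      exact ht d d' (h.st_adj_of_alive (st_hot_alive h5)) (h.st_adj_of_alive (st_hot_alive h6)) h4)
    ⟨chill_WF0 hG h O, by rintro d ⟨h3, h4⟩; exact absurd h3 h4⟩
  have hne : t q ≠ t q.swap := by
    intro h3
    have h4 := ht q q.swap hadj hadj.symm h3
    have h5 : q.1 = q.2 := congrArg Prod.fst h4
    exact hadj.ne h5
  rcases lt_or_gt_of_ne hne with h3 | h3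
  · have h4 : q ∈ hotSet O t σ v := ⟨hq1, hhot, h3⟩
    exact (h2.2 q ⟨hf.mem_toFinset.2 h4, by simp⟩).1 hal
  · have h4 : q.swap ∈ hotSet O t σ v := by
      refine ⟨st_region_trans hq1 (st_region_hot hhot), (hot_swap O q).2 hhot, ?_⟩
      rwa [Prod.swap_swap]
    have h5 := (h2.2 q.swap ⟨hf.mem_toFinset.2 h4, by simp⟩).2
    rw [Prod.swap_swap] at h5
    exact h5 hal

theorem st_post_of_unopened {O : Set (V × V)} {L : Loc V} (h1 : ∀ q ∈ L.ports, ¬ opd O q)
    (h2 : L.spec ⊆ L.ports) : post O L = L := by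
  unfold post
  have h3 : L.ports.filter (fun q => ¬ opd O q) = L.ports := Finset.filter_true_of_mem h1
  have h4 : L.spec.filter (fun q => ¬ opd O q) = L.spec :=
    Finset.filter_true_of_mem fun q hq => h1 q (h2 hq)
  rw [h3, h4]

theorem st_step_eq_pre (hG : G.IsTree) {σ : St V} (h : WF0 G σ) {O : Set (V × V)} {t : V × V → ℝ}
    (ht : TI G t) {v : V} (hf : (hotSet O t σ v).Finite) : step O t σ v = st_pre O t σ v v := by
  rw [st_step_eq]
  exact st_post_of_unopened (fun q hq => st_pre_unopened hG h ht hf hq) ((st_pre_WF0 hG h O t v).spec_sub v)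

/-! ### the statements -/

theorem st_mem_step_ports {σ : St V} {O : Set (V × V)} {t : V × V → ℝ} {v : V} {q : V × V} :
    q ∈ (step O t σ v).ports ↔ q ∈ (st_pre O t σ v v).ports ∧ ¬ opd O q := by
  rw [st_step_eq]
  simp [post]

theorem alive_step (hG : G.IsTree) {σ : St V} (h : WF0 G σ) (O : Set (V × V)) (t : V × V → ℝ)
    (q : V × V) : alive (step O t σ) q ↔ alive σ q ∧ ¬ opd O q := by
  constructor
  · intro hq
    obtain ⟨h1, h2⟩ := st_mem_step_ports.1 hq
    exact ⟨st_pre_alive hG h O t h1, h2⟩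
  · rintro ⟨h1, h2⟩
    exact st_mem_step_ports.2 ⟨st_alive_pre hG h O t h1 h2, h2⟩

theorem st_step_comp (O : Set (V × V)) (t : V × V → ℝ) (σ : St V) (v : V) :
    (step O t σ v).comp = (st_pre O t σ v v).comp := by
  rw [st_step_eq]
  rfl

theorem comp_sub_step (hG : G.IsTree) {σ : St V} (h : WF0 G σ) (O : Set (V × V)) (t : V × V → ℝ)
    (v : V) : (σ v).comp ⊆ (step O t σ v).comp := by
  rw [st_step_comp]
  exact st_pre_comp_sub hG h O t v v

theorem step_comp_sub (hG : G.IsTree) {σ : St V} (h : WF0 G σ) (O : Set (V × V)) (t : V × V → ℝ)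
    (v : V) : ∀ u ∈ (step O t σ v).comp, u ∈ region O σ v := by
  rw [st_step_comp]
  exact st_pre_region hG h O t v v

/-- vertices of the new comp are treated in the same run -/
theorem st_step_congr {σ : St V} (h : WF0 G σ) {O : Set (V × V)} (t : V × V → ℝ) {u w : V}
    (hr : w ∈ region O σ u) : step O t σ w = post O (st_pre O t σ u w) := by
  rw [st_step_eq, st_pre_congr h t hr]

theorem step_WF0 (hG : G.IsTree) {σ : St V} (h : WF0 G σ) (O : Set (V × V)) (t : V × V → ℝ) :
    WF0 G (step O t σ) where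
  mem := fun v => comp_sub_step hG h O t v (h.mem v)
  eqv := by
    intro v u hu
    have h1 := step_comp_sub hG h O t v u hu
    rw [st_step_comp] at hu
    obtain ⟨h2, h3, h4⟩ := (st_pre_WF0 hG h O t v).eqv v u hu
    rw [st_step_congr h t h1, st_step_eq]
    refine ⟨h2, ?_, ?_⟩
    · simp only [post, h3]
    · simp only [post, h4]
  tail := by
    intro v p hp
    rw [st_step_comp]
    exact (st_pre_WF0 hG h O t v).tail v p (st_mem_step_ports.1 hp).1
  swap := by
    intro v p hp
    obtain ⟨h1, h2⟩ := st_mem_step_ports.1 hp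
    have h3 : alive σ p := st_pre_alive hG h O t ((st_pre_WF0 hG h O t v).st_alive_of_mem h1)
    exact (alive_step hG h O t p.swap).2 ⟨h.st_alive_swap h3, fun h4 => h2 ((st_opd_swap O p).1 h4)⟩
  spec_sub := by
    intro v p hp
    rw [st_step_eq] at hp ⊢
    simp only [post, Finset.mem_filter] at hp ⊢
    exact ⟨(st_pre_WF0 hG h O t v).spec_sub v hp.1, hp.2⟩
  sep := by
    intro p hp v x hx
    obtain ⟨h1, h2⟩ := (alive_step hG h O t p).1 hp
    exact st_region_side hG h h1 h2 (step_comp_sub hG h O t v x hx)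

theorem st_Dec_chill {O : Set (V × V)} {σ : St V} {v w : V} (hd : Dec σ v w) :
    Dec (chill O σ) v w := fun p hp => hd p (st_mem_chill_ports.1 hp).1

theorem st_Dec_step_of_pre {O : Set (V × V)} {t : V × V → ℝ} {σ : St V} {v w : V}
    (hd : Dec (st_pre O t σ v) v w) : Dec (step O t σ) v w := by
  intro p hp
  have h1 := hd p (st_mem_step_ports.1 hp).1
  rw [st_step_eq]
  exact h1

theorem Dec_step (hG : G.IsTree) {σ : St V} (h : WF0 G σ) (O : Set (V × V)) (t : V × V → ℝ)
    {v w : V} (hd : Dec σ v w) : Dec (step O t σ) v w :=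
  st_Dec_step_of_pre (st_pre_Dec hG h O t v (st_Dec_chill hd))

theorem step_WF (hG : G.IsTree) {σ : St V} (h : WF G σ) {O : Set (V × V)} {t : V × V → ℝ}
    (ht : TI G t) (hf : ∀ v, (hotSet O t σ v).Finite) : WF G (step O t σ) where
  toWF0 := step_WF0 hG h.toWF0 O t
  two := by
    intro v
    rw [st_step_eq_pre hG h.toWF0 ht (hf v)]
    exact (st_pre_WF hG h O t v).two v
  adj := by
    intro v
    rw [st_step_eq_pre hG h.toWF0 ht (hf v)]
    exact (st_pre_WF hG h O t v).adj v
  out := by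
    intro v
    rw [st_step_eq_pre hG h.toWF0 ht (hf v)]
    exact (st_pre_WF hG h O t v).out v
  inn := by
    intro v p hp hM
    have h1 := st_step_eq_pre hG h.toWF0 ht (hf v)
    rw [h1] at hp hM ⊢
    have h2 : (st_pre O t σ v v).M p ∈ region O σ v := st_pre_region hG h.toWF0 O t v v _ hM
    rw [st_step_eq_pre hG h.toWF0 ht (hf _), st_pre_congr h.toWF0 t h2]
    exact (st_pre_WF hG h O t v).inn v p hp hM
  ded := by
    intro v p hp hM hM'
    have h1 := st_step_eq_pre hG h.toWF0 ht (hf v)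
    rw [h1] at hp hM hM' ⊢
    obtain ⟨h2, h3⟩ := (st_pre_WF hG h O t v).ded v p hp hM hM'
    refine ⟨st_Dec_step_of_pre h2, ?_⟩
    by_cases hr : (st_pre O t σ v v).M p ∈ region O σ v
    · apply st_Dec_step_of_pre
      rw [st_pre_congr h.toWF0 t hr]
      exact h3
    · apply st_Dec_step_of_pre
      apply st_pre_Dec hG h.toWF0
      intro r hr'
      have h4 := h3 r
      rw [st_pre_other hG h.toWF0 O t hr] at h4
      exact h4 hr'

/-- partners are decided symmetrically -/
theorem Dec_symm {σ : St V} (h : WF G σ) {v w : V} (hd : Dec σ v w) : G.Adj v w ∧ Dec σ w v := by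
  have h2 := h.two v
  obtain ⟨p, hp, p', hp', hne⟩ := Finset.one_lt_card.1 h2
  have hadj : G.Adj v w := by
    rw [← hd p hp]
    exact h.adj v p hp
  refine ⟨hadj, ?_⟩
  by_cases hw : w ∈ (σ v).comp
  · intro r hr
    rw [(h.eqv v w hw).2.1] at hr
    have h3 := h.inn v r hr (by rw [hd r hr]; exact hw)
    rwa [hd r hr] at h3
  · by_cases hr : (v, w) ∈ (σ v).ports
    · exfalso
      have h4 : ∀ q ∈ (σ v).ports, val (σ v) q (v, w) := fun q hq =>
        (h.out v (v, w) hr rfl q hq).1 (hd q hq)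
      have h5 : (v, w) ∉ (σ v).spec := by
        rcases h4 (v, w) hr with h6 | h6
        · exact h6.2
        · exact absurd rfl h6.1
      have h7 : ∀ q ∈ (σ v).ports, (v, w) = q := by
        intro q hq
        rcases h4 q hq with h6 | h6
        · exact h6.1
        · exact absurd h6.2 h5
      exact hne ((h7 p hp).symm.trans (h7 p' hp'))
    · have h3 := h.ded v p hp (by rw [hd p hp]; exact hw) (by rw [hd p hp]; exact hr)
      rw [hd p hp] at h3
      exact h3.2

theorem Dec_unique {σ : St V} (h : WF G σ) {v w w' : V} (hd : Dec σ v w) (hd' : Dec σ v w') :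
    w = w' := by
  have h2 := h.two v
  obtain ⟨p, hp⟩ : (σ v).ports.Nonempty := by
    rw [← Finset.card_pos]
    omega
  rw [← hd p hp, hd' p hp]

end Pool.Agent.PM
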