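import Pool.Agent.Lib.MP_947a32_pr.Fac
import Pool.Agent.Lib.MP_947a32_pr.Step
import Pool.Agent.Lib.MP_947a32_pr.Loc
import Pool.Agent.Lib.MP_947a32_pr.Equi
import Pool.Agent.Lib.MP_947a32_pr.Meas
import Pool.Agent.Lib.MP_947a32_pr.LawB
import Pool.Agent.Lib.MP_947a32_pr.RfxA

/-!
# Piece NEXT (helper39): the law of the next state
-/

set_option autoImplicit false

open Classical MeasureTheory
open scoped ENNReal

namespace Pool.Agent.PM

variable {V : Type} {G : SimpleGraph V}


section NEXT

variable {μ : Measure (St V)}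

theorem next_countable {Δ : ℕ} (hT : Std G Δ) : Countable V := by
  exact countable_V hT.tree Δ hT.reg

theorem next_wf (hL : Law G μ) : ∀ᵐ x ∂(μ.prod (lam G)), WF G x.1 :=
  Measure.quasiMeasurePreserving_fst.ae hL.wf

theorem next_alive_swap {σ : St V} (h : WF0 G σ) (e : V × V) : alive σ e.swap ↔ alive σ e := by
  constructor
  · intro ha
    exact h.swap e.2 e.swap ha
  · intro ha
    exact h.swap e.1 e ha

theorem next_lab {e : V × V} {x y : XX G} (h : Agr G e x y) {d : V × V} (hd : side G e d.1)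
    (i : Fin 3) : lab x.2 i d = lab y.2 i d := by
  unfold lab
  by_cases hA : G.Adj d.1 d.2
  · rw [dif_pos hA, dif_pos hA]
    exact h.2 ⟨d, hA⟩ i hd
  · rw [dif_neg hA, dif_neg hA]

theorem next_OO (hG : G.IsTree) (δ : ℝ) {e : V × V} {x y : XX G} (hx : WF0 G x.1)
    (hy : WF0 G y.1) (ax : alive x.1 e) (ay : alive y.1 e) (h : Agr G e x y) {d : V × V}
    (hd : side G e d.1) : d ∈ OO δ x ↔ d ∈ OO δ y :=
  rule_local hG hx hy ax ay h.1 (fun _ hd' => ⟨next_lab h hd' 0, next_lab h hd' 2⟩) d hd

/-- the tail comp of `e` does not propose `e` -/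
theorem next_Lc_nhit (hG : G.IsTree) (δ : ℝ) {e : V × V} (he : G.Adj e.1 e.2) :
    Lc G e (fun x : XX G => ind (e ∉ OO δ x)) := by
  intro x y hx hy ax ay h
  have := next_OO hG δ hx hy ax ay h (side_fst he)
  simp only [this]

theorem next_meas_ind {X : Type} [MeasurableSpace X] {P : X → Prop}
    (h : MeasurableSet {x | P x}) : Measurable (fun x => ind (P x)) := by
  have : (fun x => ind (P x)) = Set.indicator {x | P x} (fun _ => (1 : ℝ≥0∞)) := by
    funext x
    by_cases hx : P x
    · simp [ind, hx]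
    · simp [ind, hx]
  rw [this]
  exact measurable_const.indicator h

theorem next_meas_n [Countable V] (δ : ℝ) (d : V × V) :
    Measurable (fun x : XX G => ind (d ∉ OO δ x)) :=
  next_meas_ind (P := fun x : XX G => d ∉ OO δ x) (meas_OO δ d).compl

theorem next_Hd_nhit [Countable V] (hG : G.IsTree) (δ : ℝ) :
    Hd (G := G) (fun x e => ind (e.swap ∉ OO δ x)) := by
  refine ⟨fun e => next_meas_n δ e.swap, fun e he => ?_, fun φ x e => ?_⟩
  · exact next_Lc_nhit hG δ (e := e.swap) he.symm
  · have := rule_map δ φ x e.swap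
    have h2 : (mp φ.toEquiv e).swap = mp φ.toEquiv e.swap := rfl
    simp only [h2, this]

theorem next_alive_ne_top (hL : Law G μ) (e : V × V) : μ {σ | alive σ e} ≠ ∞ := by
  have := hL.prob
  exact measure_ne_top μ _

theorem next_q (hL : Law G μ) (δ : ℝ) {e : V × V} (he : G.Adj e.1 e.2) :
    ∫⁻ x, ind (alive x.1 e) * ind (e.swap ∉ OO δ x) ∂(μ.prod (lam G)) =
      μ {σ | alive σ e} * qb G μ δ e := by
  unfold qb br EE
  rw [ENNReal.mul_div_cancel (hL.pos e he) (next_alive_ne_top hL e)]

theorem next_alive_swap_measure (hL : Law G μ) (e : V × V) :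
    μ {σ | alive σ e.swap} = μ {σ | alive σ e} := by
  refine measure_congr ?_
  filter_upwards [hL.wf] with σ hσ
  exact propext (next_alive_swap hσ.toWF0 e)

theorem next_q' {Δ : ℕ} (hT : Std G Δ) (hL : Law G μ) (δ : ℝ) {e : V × V} (he : G.Adj e.1 e.2) :
    ∫⁻ x, ind (alive x.1 e) * ind (e ∉ OO δ x) ∂(μ.prod (lam G)) =
      μ {σ | alive σ e} * qb G μ δ e := by
  have := next_countable hT
  have h1 := next_q hL δ (e := e.swap) he.symm
  rw [next_alive_swap_measure hL e] at h1
  have h2 : qb G μ δ e.swap = qb G μ δ e :=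
    br_eq hT hL (next_Hd_nhit hT.tree δ) (e := e.swap) (e' := e) he.symm he
  rw [h2] at h1
  rw [← h1]
  refine lintegral_congr_ae ?_
  filter_upwards [next_wf hL] with x hx
  have h3 : alive x.1 e.swap ↔ alive x.1 e := next_alive_swap hx.toWF0 e
  simp only [Prod.swap_swap, h3]

theorem next_qb_le_one (hL : Law G μ) (δ : ℝ) (e : V × V) :
    qb G μ δ e ≤ 1 := by
  have := hL.prob
  unfold qb br EE
  refine ENNReal.div_le_of_le_mul ?_
  rw [one_mul]
  calc ∫⁻ x, ind (alive x.1 e) * ind (e.swap ∉ OO δ x) ∂(μ.prod (lam G))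
      ≤ ∫⁻ x, ind (alive x.1 e) ∂(μ.prod (lam G)) := by
        refine lintegral_mono fun x => ?_
        show ind (alive x.1 e) * ind (e.swap ∉ OO δ x) ≤ ind (alive x.1 e)
        unfold ind
        split_ifs <;> simp
    _ = ∫⁻ σ, ind (alive σ e) ∂μ := by
        have hm : MeasurePreserving (Prod.fst : XX G → St V) (μ.prod (lam G)) μ :=
          measurePreserving_fst
        exact hm.lintegral_comp (fac_meas_alive e)
    _ ≤ μ {σ | alive σ e} := by
        have h1 : (fun σ : St V => ind (alive σ e)) =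
            Set.indicator {σ | alive σ e} (fun _ => (1 : ℝ≥0∞)) := by
          funext σ
          by_cases hx : alive σ e
          · simp [ind, hx]
          · simp [ind, hx]
        rw [h1]
        exact (lintegral_indicator_const_le _ _).trans (by rw [one_mul])

/-- factorisation in the form of a product of conditional expectations -/
theorem next_fac [Countable V] (hG : G.IsTree) (hL : Law G μ) {e : V × V} (he : G.Adj e.1 e.2)
    {f g : XX G → ℝ≥0∞} (hf : Measurable f) (hg : Measurable g) (hfl : Lc G e f)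
    (hgl : Lc G e.swap g) {c : ℝ≥0∞}
    (hc : ∫⁻ x, ind (alive x.1 e) * f x ∂(μ.prod (lam G)) = μ {σ | alive σ e} * c) :
    ∫⁻ x, ind (alive x.1 e) * (f x * g x) ∂(μ.prod (lam G)) =
      c * ∫⁻ x, ind (alive x.1 e) * g x ∂(μ.prod (lam G)) := by
  have h := fac2 hG hL he hf hg hfl hgl
  rw [hc, mul_assoc, mul_comm (μ {σ | alive σ e})] at h
  exact (ENNReal.mul_left_inj (hL.pos e he) (next_alive_ne_top hL e)).mp h

/-- integrals with respect to the next law -/
theorem next_int [Countable V] (hG : G.IsTree) (hL : Law G μ) (δ : ℝ) (e : V × V)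
    {h : St V → ℝ≥0∞} (hh : Measurable h) :
    ∫⁻ σ, ind (alive σ e) * h σ ∂(nextLaw (stp (G := G) δ) μ) =
      ∫⁻ x, ind (alive x.1 e) * (ind (e ∉ OO δ x) * (ind (e.swap ∉ OO δ x) * h (stp δ x)))
        ∂(μ.prod (lam G)) := by
  unfold nextLaw
  rw [lintegral_map (f := fun σ => ind (alive σ e) * h σ) ((fac_meas_alive e).mul hh)
    (meas_stp δ)]
  refine lintegral_congr_ae ?_
  filter_upwards [next_wf hL] with x hx
  have h1 : alive (stp δ x) e ↔ alive x.1 e ∧ ¬ opd (OO δ x) e :=
    alive_step hG hx.toWF0 _ _ e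
  have h2 : ind (alive (stp δ x) e) =
      ind (alive x.1 e) * (ind (e ∉ OO δ x) * ind (e.swap ∉ OO δ x)) := by
    rw [h1]
    unfold ind opd
    by_cases a : alive x.1 e <;> by_cases b : e ∈ OO δ x <;> by_cases c : e.swap ∈ OO δ x <;>
      simp [a, b, c]
  rw [h2]
  ring

theorem next_fst {ν : Measure (St V)} [SFinite ν] (e : V × V)
    {g : St V → ℝ≥0∞} (hg : Measurable g) :
    ∫⁻ x, ind (alive x.1 e) * g x.1 ∂(ν.prod (lam G)) = ∫⁻ σ, ind (alive σ e) * g σ ∂ν := by
  have hm : MeasurePreserving (Prod.fst : XX G → St V) (ν.prod (lam G)) ν :=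
    measurePreserving_fst
  exact hm.lintegral_comp (f := fun σ => ind (alive σ e) * g σ) ((fac_meas_alive e).mul hg)

theorem next_prob [Countable V] (hL : Law G μ) (δ : ℝ) :
    IsProbabilityMeasure (nextLaw (stp (G := G) δ) μ) := by
  have := hL.prob
  unfold nextLaw
  exact Measure.isProbabilityMeasure_map (meas_stp δ).aemeasurable

theorem next_ind_alive {ν : Measure (St V)} [Countable V] (e : V × V) :
    ∫⁻ σ, ind (alive σ e) ∂ν = ν {σ | alive σ e} := by
  have h1 : (fun σ : St V => ind (alive σ e)) =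
      Set.indicator {σ | alive σ e} (fun _ => (1 : ℝ≥0∞)) := by
    funext σ
    by_cases hx : alive σ e
    · simp [ind, hx]
    · simp [ind, hx]
  have hm : MeasurableSet {σ : St V | alive σ e} :=
    meas_ports (s := fun σ : St V => σ) measurable_id e.1 (fun P => e ∈ P)
  rw [h1, lintegral_indicator_const hm, one_mul]

theorem alive_next {Δ : ℕ} (hT : Std G Δ) (hL : Law G μ) (δ : ℝ)
    {e : V × V} (he : G.Adj e.1 e.2) :
    nextLaw (stp (G := G) δ) μ {σ | alive σ e} = μ {σ | alive σ e} * qb G μ δ e ^ 2 := by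
  have := next_countable hT
  have h1 := next_int hT.tree hL δ e (h := fun _ => 1) measurable_const
  simp only [mul_one] at h1
  rw [next_ind_alive] at h1
  rw [h1, next_fac hT.tree hL he (next_meas_n δ e)
    (next_meas_n δ e.swap) (next_Lc_nhit hT.tree δ he)
    (next_Lc_nhit hT.tree δ (e := e.swap) he.symm) (next_q' hT hL δ he), next_q hL δ he]
  ring

theorem next_div {a q I : ℝ≥0∞} (hq : q ≠ 0) (hq' : q ≠ ∞) :
    I / (a * q ^ 2) * q = I / (a * q) := by
  have h1 : a * q ^ 2 = (a * q) * q := by ring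
  rw [h1, mul_comm, ← mul_div_assoc, mul_comm q I, ENNReal.mul_div_mul_right _ _ hq hq']

theorem next_div' {a q K : ℝ≥0∞} (hq : q ≠ 0) (hq' : q ≠ ∞) :
    q * K / (a * q) = K / a := by
  rw [mul_comm q K, ENNReal.mul_div_mul_right _ _ hq hq']

theorem next_le {Δ : ℕ} (hT : Std G Δ) (hL : Law G μ) (δ : ℝ)
    {e : V × V} (he : G.Adj e.1 e.2) (hb : qb G μ δ e ≠ 0) {g : St V → ℝ≥0∞} (hg : Measurable g)
    {R : XX G → V × V → ℝ≥0∞} (hR : Hd R)
    (hle : ∀ᵐ x ∂(μ.prod (lam G)), alive x.1 e → ¬ opd (OO δ x) e → g (stp δ x) ≤ R x e) :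
    EE (G := G) (nextLaw (stp (G := G) δ) μ) e (fun x => g x.1) * qb G μ δ e ≤ br μ e R := by
  have := next_countable hT
  have := next_prob hL δ
  have hb' : qb G μ δ e ≠ ∞ := ne_top_of_le_ne_top ENNReal.one_ne_top (next_qb_le_one hL δ e)
  unfold br EE
  rw [next_fst e hg, alive_next hT hL δ he, next_div hb hb',
    ← next_div' (a := μ {σ | alive σ e}) hb hb']
  refine ENNReal.div_le_div_right ?_ _
  rw [next_int hT.tree hL δ e hg, ← next_fac hT.tree hL he (next_meas_n δ e)
    (hR.meas e) (next_Lc_nhit hT.tree δ he) (hR.loc e he) (next_q' hT hL δ he)]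
  refine lintegral_mono_ae ?_
  filter_upwards [hle] with x hx
  by_cases a : alive x.1 e
  · by_cases b : e ∈ OO δ x
    · simp [ind, b]
    · by_cases c : e.swap ∈ OO δ x
      · simp [ind, c]
      · have h1 : ¬ opd (OO δ x) e := fun h => h.elim b c
        have h2 := hx a h1
        simpa [ind, a, b, c] using h2
  · simp [ind, a]

theorem next_ge {Δ : ℕ} (hT : Std G Δ) (hL : Law G μ) (δ : ℝ)
    {e : V × V} (he : G.Adj e.1 e.2) (hb : qb G μ δ e ≠ 0) {g : St V → ℝ≥0∞} (hg : Measurable g)
    {L R : XX G → V × V → ℝ≥0∞} (hLL : Hd L) (hR : Hd R)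
    (hle : ∀ᵐ x ∂(μ.prod (lam G)), alive x.1 e → ¬ opd (OO δ x) e →
      L x e ≤ g (stp δ x) + R x e) :
    br μ e (fun x e => ind (e.swap ∉ OO δ x) * L x e) ≤
      EE (G := G) (nextLaw (stp (G := G) δ) μ) e (fun x => g x.1) * qb G μ δ e + br μ e R := by
  have := next_countable hT
  have := next_prob hL δ
  have hb' : qb G μ δ e ≠ ∞ := ne_top_of_le_ne_top ENNReal.one_ne_top (next_qb_le_one hL δ e)
  have hmL : Measurable (fun x : XX G => ind (e.swap ∉ OO δ x) * L x e) :=
    (next_meas_n δ e.swap).mul (hLL.meas e)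
  have hlL : Lc G e.swap (fun x : XX G => ind (e.swap ∉ OO δ x) * L x e) := by
    intro x y hx hy ax ay h
    have h1 := next_Lc_nhit hT.tree δ (e := e.swap) he.symm x y hx hy ax ay h
    have h2 := hLL.loc e he x y hx hy ax ay h
    simp only at h1 h2 ⊢
    rw [h1, h2]
  unfold br EE
  rw [next_fst e hg, alive_next hT hL δ he, next_div hb hb',
    ← next_div' (a := μ {σ | alive σ e}) hb hb',
    ← next_div' (a := μ {σ | alive σ e}) (K := ∫⁻ x, ind (alive x.1 e) * R x e ∂(μ.prod (lam G)))
      hb hb', ← ENNReal.add_div]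
  refine ENNReal.div_le_div_right ?_ _
  rw [next_int hT.tree hL δ e hg, ← next_fac hT.tree hL he (next_meas_n δ e)
    (hR.meas e) (next_Lc_nhit hT.tree δ he) (hR.loc e he) (next_q' hT hL δ he),
    ← next_fac hT.tree hL he (next_meas_n δ e)
    hmL (next_Lc_nhit hT.tree δ he) hlL (next_q' hT hL δ he)]
  rw [← lintegral_add_right]
  · refine lintegral_mono_ae ?_
    filter_upwards [hle] with x hx
    by_cases a : alive x.1 e
    · by_cases b : e ∈ OO δ x
      · simp [ind, b]
      · by_cases c : e.swap ∈ OO δ x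
        · simp [ind, c]
        · have h1 : ¬ opd (OO δ x) e := fun h => h.elim b c
          have h2 := hx a h1
          simpa [ind, a, b, c] using h2
    · simp [ind, a]
  · exact ((fac_meas_alive e).comp measurable_fst).mul
      ((next_meas_n δ e).mul (hR.meas e))

/-! ### the next law is a law -/

theorem next_WF_iff {σ : St V} : WF G σ ↔
    (∀ v, v ∈ (σ v).comp) ∧
    (∀ v u, u ∈ (σ v).comp → (∀ w, w ∈ (σ u).comp ↔ w ∈ (σ v).comp) ∧
      (∀ p, p ∈ (σ u).ports ↔ p ∈ (σ v).ports) ∧ (∀ p, p ∈ (σ u).spec ↔ p ∈ (σ v).spec)) ∧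
    (∀ v p, p ∈ (σ v).ports → p.1 ∈ (σ v).comp ∧ G.Adj p.1 p.2) ∧
    (∀ v p, p ∈ (σ v).ports → p.swap ∈ (σ p.2).ports) ∧
    (∀ v p, p ∈ (σ v).spec → p ∈ (σ v).ports) ∧
    (∀ p, p ∈ (σ p.1).ports → ∀ v x, x ∈ (σ v).comp → (side G p x ↔ side G p v)) ∧
    (∀ v, 2 ≤ (σ v).ports.card) ∧
    (∀ v p, p ∈ (σ v).ports → ∀ w, (σ v).M p = w → G.Adj v w) ∧
    (∀ v r, r ∈ (σ v).ports → r.1 = v → ∀ p, p ∈ (σ v).ports →
      ((σ v).M p = r.2 ↔ ((r = p ∧ r ∉ (σ v).spec) ∨ (r ≠ p ∧ r ∈ (σ v).spec)))) ∧
    (∀ v p, p ∈ (σ v).ports → ∀ w, (σ v).M p = w → w ∈ (σ v).comp → (σ w).M p = v) ∧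
    (∀ v p, p ∈ (σ v).ports → ∀ w, (σ v).M p = w → w ∉ (σ v).comp → (v, w) ∉ (σ v).ports →
      (∀ q, q ∈ (σ v).ports → (σ v).M q = w) ∧ (∀ q, q ∈ (σ w).ports → (σ w).M q = v)) := by
  constructor
  · intro h
    refine ⟨h.mem, ?_, h.tail, h.swap, fun v p hp => h.spec_sub v hp, h.sep, h.two, ?_, ?_, ?_, ?_⟩
    · intro v u hu
      obtain ⟨h1, h2, h3⟩ := h.eqv v u hu
      rw [h1, h2, h3]
      exact ⟨fun _ => Iff.rfl, fun _ => Iff.rfl, fun _ => Iff.rfl⟩
    · rintro v p hp w rfl
      exact h.adj v p hp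
    · exact h.out
    · rintro v p hp w rfl hw
      exact h.inn v p hp hw
    · rintro v p hp w rfl hw hw'
      exact h.ded v p hp hw hw'
  · rintro ⟨h1, h2, h3, h4, h5, h6, h7, h8, h9, h10, h11⟩
    refine
      { mem := h1
        eqv := ?_
        tail := h3
        swap := h4
        spec_sub := fun v p hp => h5 v p hp
        sep := h6
        two := h7
        adj := fun v p hp => h8 v p hp _ rfl
        out := h9
        inn := fun v p hp hw => h10 v p hp _ rfl hw
        ded := fun v p hp hw hw' => h11 v p hp _ rfl hw hw' }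
    intro v u hu
    obtain ⟨g1, g2, g3⟩ := h2 v u hu
    exact ⟨Finset.ext g1, Finset.ext g2, Finset.ext g3⟩

theorem next_meas_WF [Countable V] : MeasurableSet {σ : St V | WF G σ} := by
  have mC : ∀ v x, Measurable (fun σ : St V => x ∈ (σ v).comp) := fun v x =>
    measurableSet_setOfPred.mp
      (meas_comp (s := fun σ : St V => σ) measurable_id v (fun P => x ∈ P))
  have mP : ∀ v p, Measurable (fun σ : St V => p ∈ (σ v).ports) := fun v p =>
    measurableSet_setOfPred.mp
      (meas_ports (s := fun σ : St V => σ) measurable_id v (fun P => p ∈ P))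
  have mP2 : ∀ v, Measurable (fun σ : St V => 2 ≤ (σ v).ports.card) := fun v =>
    measurableSet_setOfPred.mp
      (meas_ports (s := fun σ : St V => σ) measurable_id v (fun P => 2 ≤ P.card))
  have mS : ∀ v p, Measurable (fun σ : St V => p ∈ (σ v).spec) := fun v p =>
    measurableSet_setOfPred.mp
      (meas_spec (s := fun σ : St V => σ) measurable_id v (fun P => p ∈ P))
  have mM : ∀ v p w, Measurable (fun σ : St V => (σ v).M p = w) := fun v p w =>
    measurableSet_setOfPred.mp
      (meas_M (s := fun σ : St V => σ) measurable_id v p (fun u => u = w))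
  refine measurableSet_setOfPred.mpr ?_
  rw [show (WF G : St V → Prop) = _ from funext fun σ => propext next_WF_iff]
  refine Measurable.and ?_ (Measurable.and ?_ (Measurable.and ?_ (Measurable.and ?_
    (Measurable.and ?_ (Measurable.and ?_ (Measurable.and ?_ (Measurable.and ?_
    (Measurable.and ?_ (Measurable.and ?_ ?_)))))))))
  · exact Measurable.forall fun v => mC v v
  · refine Measurable.forall fun v => Measurable.forall fun u => (mC v u).imp ?_
    refine Measurable.and ?_ (Measurable.and ?_ ?_)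
    · exact Measurable.forall fun w => (mC u w).iff (mC v w)
    · exact Measurable.forall fun w => (mP u w).iff (mP v w)
    · exact Measurable.forall fun w => (mS u w).iff (mS v w)
  · exact Measurable.forall fun v => Measurable.forall fun p => (mP v p).imp
      ((mC v p.1).and measurable_const)
  · exact Measurable.forall fun v => Measurable.forall fun p => (mP v p).imp (mP p.2 p.swap)
  · exact Measurable.forall fun v => Measurable.forall fun p => (mS v p).imp (mP v p)
  · exact Measurable.forall fun p => (mP p.1 p).imp (Measurable.forall fun v =>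
      Measurable.forall fun x => (mC v x).imp measurable_const)
  · exact Measurable.forall mP2
  · exact Measurable.forall fun v => Measurable.forall fun p => (mP v p).imp
      (Measurable.forall fun w => (mM v p w).imp measurable_const)
  · exact Measurable.forall fun v => Measurable.forall fun r => (mP v r).imp
      (measurable_const.imp (Measurable.forall fun p => (mP v p).imp
        ((mM v p r.2).iff ((measurable_const.and (mS v r).not).or
          (measurable_const.and (mS v r))))))
  · exact Measurable.forall fun v => Measurable.forall fun p => (mP v p).imp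
      (Measurable.forall fun w => (mM v p w).imp ((mC v w).imp (mM w p v)))
  · exact Measurable.forall fun v => Measurable.forall fun p => (mP v p).imp
      (Measurable.forall fun w => (mM v p w).imp ((mC v w).not.imp ((mP v (v, w)).not.imp
        ((Measurable.forall fun q => (mP v q).imp (mM v q w)).and
          (Measurable.forall fun q => (mP w q).imp (mM w q v))))))

/-- the functional of the next state on the tail side of `e`, made conditionally local -/
noncomputable def nextF (δ : ℝ) (e : V × V) (f : St V → ℝ≥0∞) (x : XX G) : ℝ≥0∞ :=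
  ind (e ∉ OO δ x) * f (step (OO δ x \ {e, e.swap}) (lab x.2 1) x.1)

theorem nextF_loc (hG : G.IsTree) (δ : ℝ) {e : V × V} (he : G.Adj e.1 e.2)
    {f : St V → ℝ≥0∞} (hf : TL G e f) : Lc G e (nextF (G := G) δ e f) := by
  intro x y hx hy ax ay h
  have h1 : e ∈ OO δ x ↔ e ∈ OO δ y := next_OO hG δ hx hy ax ay h (side_fst he)
  have ho : ∀ z : XX G, ¬ opd (OO δ z \ {e, e.swap}) e := by
    intro z hz
    rcases hz with hz | hz
    · exact hz.2 (by simp)
    · exact hz.2 (by simp)
  have h2 : ∀ v, side G e v → step (OO δ x \ {e, e.swap}) (lab x.2 1) x.1 v =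
      step (OO δ y \ {e, e.swap}) (lab y.2 1) y.1 v := by
    refine step_local hG hx hy ax ay (ho x) (ho y) h.1 ?_
    intro d hd
    refine ⟨?_, next_lab h hd 1⟩
    have := next_OO hG δ hx hy ax ay h hd
    simp only [Set.mem_sdiff, this]
  unfold nextF
  rw [hf _ _ h2]
  simp only [h1]

theorem nextF_meas [Countable V] (δ : ℝ) (e : V × V) {f : St V → ℝ≥0∞} (hf : Measurable f) :
    Measurable (nextF (G := G) δ e f) := by
  unfold nextF
  refine (next_meas_n δ e).mul (hf.comp ?_)
  refine meas_step measurable_fst ?_ ?_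
  · intro d
    have h1 : {x : XX G | d ∈ OO δ x \ {e, e.swap}} =
        {x : XX G | d ∈ OO δ x} ∩ {_x : XX G | d ∉ ({e, e.swap} : Set (V × V))} := by
      ext x
      simp
    rw [h1]
    exact (meas_OO δ d).inter (MeasurableSet.const _)
  · intro d
    exact (meas_lab 1 d).comp measurable_snd

theorem next_map_XX [Countable V] (hL : Law G μ) (φ : G ≃g G)
    (hm : Measurable (XX.map (G := G) φ)) :
    (μ.prod (lam G)).map (XX.map φ) = μ.prod (lam G) := by
  refine Measure.ext fun s hs => ?_
  rw [← lintegral_indicator_one hs, ← lintegral_indicator_one hs,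
    lintegral_map (measurable_one.indicator hs) hm]
  exact lintegral_XX_map hL φ (measurable_one.indicator hs)

theorem next_meas_XX [Countable V] (φ : G ≃g G) : Measurable (XX.map (G := G) φ) := by
  unfold XX.map
  refine ((meas_map φ).comp measurable_fst).prodMk ?_
  refine measurable_pi_lambda _ fun i => ?_
  exact (measurable_pi_apply _).comp measurable_snd

theorem next_inv [Countable V] (hL : Law G μ) (δ : ℝ) (φ : G ≃g G) :
    (nextLaw (stp (G := G) δ) μ).map (St.map φ.toEquiv) = nextLaw (stp (G := G) δ) μ := by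
  unfold nextLaw
  rw [Measure.map_map (meas_map φ) (meas_stp δ)]
  have h1 : (St.map φ.toEquiv ∘ stp (G := G) δ) = stp δ ∘ XX.map φ := by
    funext x
    exact (stp_map δ φ x).symm
  rw [h1, ← Measure.map_map (meas_stp δ) (next_meas_XX φ), next_map_XX hL φ (next_meas_XX φ)]

theorem next_Law {Δ : ℕ} (hT : Std G Δ) (hL : Law G μ) {δ : ℝ}
    {e : V × V} (he : G.Adj e.1 e.2) (hb : qb G μ δ e ≠ 0)
    (hf : ∀ᵐ x ∂(μ.prod (lam G)), ∀ v, (hotSet (OO δ x) (lab x.2 1) x.1 v).Finite) :
    Law G (nextLaw (stp (G := G) δ) μ) := by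
  have := next_countable hT
  have := hL.prob
  have hq : ∀ e' : V × V, G.Adj e'.1 e'.2 → qb G μ δ e' ≠ 0 := by
    intro e' he'
    have h1 : qb G μ δ e' = qb G μ δ e :=
      br_eq hT hL (next_Hd_nhit hT.tree δ) (e := e') (e' := e) he' he
    rw [h1]
    exact hb
  refine ⟨next_prob hL δ, ?_, next_inv hL δ, ?_, ?_⟩
  · unfold nextLaw
    rw [ae_map_iff (meas_stp δ).aemeasurable next_meas_WF]
    filter_upwards [next_wf hL, hf, ae_Gen (μ := μ) (G := G) δ] with x h1 h2 h3
    exact step_WF hT.tree h1 (TI_of_Gen h3 1) h2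
  · intro e' he'
    rw [alive_next hT hL δ he']
    exact mul_ne_zero (hL.pos e' he') (pow_ne_zero 2 (hq e' he'))
  · intro e' he' f g hfm hgm hfl hgl
    have hs : e'.swap.swap = e' := Prod.swap_swap e'
    have ha0 := hL.pos e' he'
    have ha1 := next_alive_ne_top hL e'
    -- the local versions
    have mF := nextF_meas (G := G) δ e' hfm
    have mG := nextF_meas (G := G) δ e'.swap hgm
    have lF := nextF_loc hT.tree δ he' hfl
    have lG := nextF_loc hT.tree δ (e := e'.swap) he'.symm hgl
    have hns : ∀ x : XX G, e' ∉ OO δ x → e'.swap ∉ OO δ x →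
        OO δ x \ {e', e'.swap} = OO δ x ∧ OO δ x \ {e'.swap, e'.swap.swap} = OO δ x := by
      intro x h1 h2
      constructor
      · ext d
        simp only [Set.mem_sdiff, Set.mem_insert_iff, Set.mem_singleton_iff, not_or]
        constructor
        · exact fun h => h.1
        · intro h
          refine ⟨h, ?_, ?_⟩
          · rintro rfl; exact h1 h
          · rintro rfl; exact h2 h
      · ext d
        simp only [Set.mem_sdiff, Set.mem_insert_iff, Set.mem_singleton_iff, not_or, hs]
        constructor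
        · exact fun h => h.1
        · intro h
          refine ⟨h, ?_, ?_⟩
          · rintro rfl; exact h2 h
          · rintro rfl; exact h1 h
    have e1 : ∫⁻ σ, ind (alive σ e') * (f σ * g σ) ∂(nextLaw (stp (G := G) δ) μ) =
        ∫⁻ x, ind (alive x.1 e') * (nextF δ e' f x * nextF δ e'.swap g x)
          ∂(μ.prod (lam G)) := by
      rw [next_int hT.tree hL δ e' (h := fun σ => f σ * g σ) (hfm.mul hgm)]
      refine lintegral_congr fun x => ?_
      by_cases b : e' ∈ OO δ x
      · simp [ind, b, nextF]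
      · by_cases c : e'.swap ∈ OO δ x
        · simp [ind, c, nextF]
        · obtain ⟨k1, k2⟩ := hns x b c
          unfold nextF
          rw [k1, k2]
          simp only [ind, b, c, stp, not_false_eq_true, if_true, one_mul]
    have e2 : ∫⁻ σ, ind (alive σ e') * f σ ∂(nextLaw (stp (G := G) δ) μ) =
        ∫⁻ x, ind (alive x.1 e') * (nextF δ e' f x * ind (e'.swap ∉ OO δ x))
          ∂(μ.prod (lam G)) := by
      rw [next_int hT.tree hL δ e' hfm]
      refine lintegral_congr fun x => ?_
      by_cases b : e' ∈ OO δ x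
      · simp [ind, b, nextF]
      · by_cases c : e'.swap ∈ OO δ x
        · simp [ind, c, nextF]
        · obtain ⟨k1, k2⟩ := hns x b c
          unfold nextF
          rw [k1]
          simp only [ind, b, c, stp, not_false_eq_true, if_true, one_mul, mul_one]
    have e3 : ∫⁻ σ, ind (alive σ e') * g σ ∂(nextLaw (stp (G := G) δ) μ) =
        ∫⁻ x, ind (alive x.1 e') * (ind (e' ∉ OO δ x) * nextF δ e'.swap g x)
          ∂(μ.prod (lam G)) := by
      rw [next_int hT.tree hL δ e' hgm]
      refine lintegral_congr fun x => ?_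
      by_cases b : e' ∈ OO δ x
      · simp [ind, b, nextF]
      · by_cases c : e'.swap ∈ OO δ x
        · simp [ind, c, nextF]
        · obtain ⟨k1, k2⟩ := hns x b c
          unfold nextF
          rw [k2]
          simp only [ind, b, c, stp, not_false_eq_true, if_true, one_mul]
    have ln := next_Lc_nhit hT.tree δ he'
    have ln' := next_Lc_nhit hT.tree δ (e := e'.swap) he'.symm
    have f1 := fac2 hT.tree hL he' mF mG lF lG
    have f2 := fac2 hT.tree hL he' mF (next_meas_n δ e'.swap) lF ln'
    have f3 := fac2 hT.tree hL he' (next_meas_n δ e') mG ln lG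
    rw [next_q hL δ he'] at f2
    rw [next_q' hT hL δ he'] at f3
    rw [← e1] at f1
    rw [← e2] at f2
    rw [← e3] at f3
    set a := μ {σ | alive σ e'} with hadef
    set q := qb G μ δ e'
    set IF := ∫⁻ x, ind (alive x.1 e') * nextF δ e' f x ∂(μ.prod (lam G))
    set IG := ∫⁻ x, ind (alive x.1 e') * nextF δ e'.swap g x ∂(μ.prod (lam G))
    have g2 : ∫⁻ σ, ind (alive σ e') * f σ ∂(nextLaw (stp (G := G) δ) μ) = IF * q := by
      have : (∫⁻ σ, ind (alive σ e') * f σ ∂(nextLaw (stp (G := G) δ) μ)) * a = (IF * q) * a := by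
        rw [f2]; ring
      exact (ENNReal.mul_left_inj ha0 ha1).mp this
    have g3 : ∫⁻ σ, ind (alive σ e') * g σ ∂(nextLaw (stp (G := G) δ) μ) = IG * q := by
      have : (∫⁻ σ, ind (alive σ e') * g σ ∂(nextLaw (stp (G := G) δ) μ)) * a = (IG * q) * a := by
        rw [f3]; ring
      exact (ENNReal.mul_left_inj ha0 ha1).mp this
    rw [alive_next hT hL δ he', g2, g3]
    calc (∫⁻ σ, ind (alive σ e') * (f σ * g σ) ∂(nextLaw (stp (G := G) δ) μ)) *
          (a * q ^ 2)
        = ((∫⁻ σ, ind (alive σ e') * (f σ * g σ) ∂(nextLaw (stp (G := G) δ) μ)) * a) * q ^ 2 := by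
          ring
      _ = IF * q * (IG * q) := by rw [f1]; ring

end NEXT

end Pool.Agent.PM
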