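import Pool.Agent.Lib.MP_947a32_pr.Halve2A
import Pool.Agent.Lib.MP_947a32_pr.Halve2C
import Pool.Agent.Lib.MP_947a32_pr.Halve2F
import Pool.Agent.Lib.MP_947a32_pr.Halve1
import Pool.Agent.Lib.MP_947a32_pr.Equi
import Pool.Agent.Lib.MP_947a32_pr.Meas
import Pool.Agent.Lib.MP_947a32_pr.Next
import Pool.Agent.Lib.MP_947a32_pr.RfxA
import Pool.Agent.Lib.MP_947a32_pr.Defs2

/-!
# Piece HALVE2 (helper97): the law of the halved state
-/

set_option autoImplicit false

open Classical MeasureTheory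
open scoped ENNReal

namespace Pool.Agent.PM

variable {V : Type} {G : SimpleGraph V}


namespace Hv2

/-! ### forced labels -/

/-- labels kept on the tail side of `e`; the port `e.swap` gets the coin `0` and the time `-1` -/
noncomputable def frL (e : V × V) (l : Lb G) : Lb G := fun i =>
  if i.1.1 = e.swap then (if i.2 = 0 then 0 else -1) else if side G e i.1.1.1 then l i else 0

/-- the data cut at `e`, with `e` forced to be kept -/
noncomputable def fr (e : V × V) (x : XX G) : XX G := (glS G e x.1, frL e x.2)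

theorem meas_fr (e : V × V) : Measurable (fr (G := G) e) := by
  refine ((meas_glS e).comp measurable_fst).prodMk ?_
  refine measurable_pi_lambda _ fun i => ?_
  unfold frL
  by_cases h1 : i.1.1 = e.swap
  · simp only [h1, if_true]
    exact measurable_const
  · simp only [h1, if_false]
    by_cases h2 : side G e i.1.1.1
    · simp only [h2, if_true]
      exact (measurable_pi_apply i).comp measurable_snd
    · simp only [h2, if_false]
      exact measurable_const

theorem frL_congr {e : V × V} {l l' : Lb G}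
    (h : ∀ i : Dt G × Fin 3, side G e i.1.1.1 → l i = l' i) : frL e l = frL e l' := by
  funext i
  unfold frL
  by_cases h1 : i.1.1 = e.swap
  · simp only [h1, if_true]
  · by_cases h2 : side G e i.1.1.1
    · simp only [h1, if_false, h2, if_true, h i h2]
    · simp only [h1, if_false, h2]

theorem lab_frL {e : V × V} (l : Lb G) (i : Fin 3) {q : V × V} (hq : side G e q.1) :
    lab (frL e l) i q = lab l i q := by
  unfold lab
  by_cases h : G.Adj q.1 q.2
  · rw [dif_pos h, dif_pos h]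
    unfold frL
    have h1 : q ≠ e.swap := by
      rintro rfl
      exact not_side_snd e hq
    simp only [h1, if_false, hq, if_true]
  · rw [dif_neg h, dif_neg h]

theorem lab_frL_swap {e : V × V} (he : G.Adj e.1 e.2) (l : Lb G) (i : Fin 3) :
    lab (frL e l) i e.swap = if i = 0 then 0 else -1 := by
  unfold lab
  have h : G.Adj e.swap.1 e.swap.2 := he.symm
  rw [dif_pos h]
  unfold frL
  simp only [if_true]

theorem lab_nonneg {l : Lb G} (hl : ∀ i, 0 ≤ l i) (i : Fin 3) (q : V × V) : 0 ≤ lab l i q := by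
  unfold lab
  by_cases h : G.Adj q.1 q.2
  · rw [dif_pos h]; exact hl _
  · rw [dif_neg h]

theorem cutL {e : V × V} (he : G.Adj e.1 e.2) {l : Lb G} (hl : ∀ i, 0 ≤ l i) :
    CutL G e (lab l 0) (lab l 1) (lab l 2) (lab (frL e l) 0) (lab (frL e l) 1)
      (lab (frL e l) 2) where
  ha := fun q hq => lab_frL l 0 hq
  ht := fun q hq => lab_frL l 1 hq
  hr := fun q hq => lab_frL l 2 hq
  a0 := by rw [lab_frL_swap he]; rfl
  t0 := by rw [lab_frL_swap he]; rfl
  pos := fun q => lab_nonneg hl 1 q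

/-! ### good data -/

/-- everything we need a.s. -/
structure Gd (b : Bool) (x : XX G) : Prop where
  tree : G.IsTree
  wf : WF0 G x.1
  sing : ∀ v, (x.1 v).comp = {v} ∧ (x.1 v).spec = ∅ ∧ (x.1 v).M = fun p => p.2
  ti : ∀ i, TI G (lab x.2 i)
  pos : ∀ i, 0 ≤ x.2 i
  stop : ∀ e : V × V, alive x.1 e → ∃ n u, Stop b (lab x.2 2) x.1 e n u

theorem Gd.h2 {b : Bool} {x : XX G} (h : Gd b x) : H2 G (lab x.2 2) x.1 :=
  ⟨h.tree, h.wf, fun v => (h.sing v).1, h.ti 2⟩

theorem Gd.hw {b : Bool} {x : XX G} (h : Gd b x) : HW G (lab x.2 2) x.1 :=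
  ⟨h.tree, h.wf, fun v => (h.sing v).1, h.ti 2⟩

/-- the forced halving agrees with the true one on the tail side if `e` is kept -/
theorem hv_fr {b : Bool} {x : XX G} (h : Gd b x) {e : V × V} (ha : alive x.1 e)
    (hc : col b (lab x.2 0) (lab x.2 1) (lab x.2 2) x.1 e) {v : V} (hsv : side G e v) :
    hv b x v = hv b (fr e x) v := by
  have hs := h.sing v
  have he : G.Adj e.1 e.2 := h.h2.adj ha
  have hcl := cutL he h.pos
  unfold Pool.Agent.PM.hv halve fr
  simp only [glS_pos x.1 hsv, hs.2.1, Finset.filter_empty]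
  congr 1
  refine Finset.filter_congr fun d hd => ?_
  have hd1 : d.1 = v := h.h2.fst hd
  exact (cut_col h.h2 ha hcl (h.ti 1) h.stop hc (h.h2.alive_of hd) (by rw [hd1]; exact hsv)).symm

/-- the forced halving does not depend on the coins of the ends of the path of `e` -/
theorem hv_ins {b : Bool} {x : XX G} (h : Gd b x) {e : V × V} (ha : alive x.1 e)
    {u : Dt G} {n : ℕ} (hu : Stop b (lab x.2 2) x.1 e n u.1 ∨ Stop b (lab x.2 2) x.1 e.swap n u.1)
    {v : V} (hsv : side G e v) :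
    hv b (fr e (x.1, flipL (u, 0) x.2)) v = hv b (fr e x) v := by
  have he : G.Adj e.1 e.2 := h.h2.adj ha
  rcases hu with hu | hu
  · -- head side end
    have h1 : ¬ side G e u.1.1 := Stop_side h.h2 ha hu
    have h2 : fr e (x.1, flipL (u, 0) x.2) = fr e x := by
      unfold fr
      simp only
      rw [frL_congr (l := flipL (u, 0) x.2) (l' := x.2)]
      intro i hi
      refine flipL_ne ?_ _
      rintro rfl
      exact h1 hi
    rw [h2]
  · -- tail side end
    have hs := h.sing v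
    have hlab : ∀ i : Fin 3, i ≠ 0 → lab (frL e (flipL (u, 0) x.2)) i = lab (frL e x.2) i := by
      intro i hi
      funext q
      unfold lab
      by_cases hq : G.Adj q.1 q.2
      · rw [dif_pos hq, dif_pos hq]
        unfold frL
        have h3 : flipL (u, 0) x.2 (⟨q, hq⟩, i) = x.2 (⟨q, hq⟩, i) := by
          refine flipL_ne ?_ _
          intro h4
          exact hi (congrArg Prod.snd h4)
        simp only [h3]
      · rw [dif_neg hq, dif_neg hq]
    have hcl := cutL he h.pos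
    have hcl2 : CutL G e (lab (flipL (u, 0) x.2) 0) (lab x.2 1) (lab x.2 2)
        (lab (frL e (flipL (u, 0) x.2)) 0) (lab (frL e x.2) 1) (lab (frL e x.2) 2) :=
      ⟨fun q hq => lab_frL _ 0 hq, hcl.ht, hcl.hr, by rw [lab_frL_swap he]; rfl, hcl.t0, hcl.pos⟩
    have h2 : ∀ q : V × V, q ≠ u.1 → lab (flipL (u, 0) x.2) 0 q = lab x.2 0 q := by
      intro q hq
      unfold lab
      by_cases hq' : G.Adj q.1 q.2
      · rw [dif_pos hq', dif_pos hq']
        refine flipL_ne ?_ _
        intro h4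
        exact hq (congrArg (fun z : Dt G × Fin 3 => z.1.1) h4)
      · rw [dif_neg hq', dif_neg hq']
    unfold Pool.Agent.PM.hv halve fr
    simp only [glS_pos x.1 hsv, hs.2.1, Finset.filter_empty]
    rw [hlab 1 (by decide), hlab 2 (by decide)]
    congr 1
    refine Finset.filter_congr fun d hd => ?_
    have hd1 : d.1 = v := h.h2.fst hd
    exact cut_ins h.h2 ha hcl hcl2 h.stop hu h2 (h.h2.alive_of hd) (by rw [hd1]; exact hsv)

/-- the forced functional -/
noncomputable def tf (b : Bool) (e : V × V) (f : St V → ℝ≥0∞) (x : XX G) : ℝ≥0∞ :=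
  f (Pool.Agent.PM.hv b (fr e x))

theorem tf_meas [Countable V] (b : Bool) (e : V × V) {f : St V → ℝ≥0∞} (hf : Measurable f) :
    Measurable (tf (G := G) b e f) :=
  hf.comp ((meas_hv b).comp (meas_fr e))

theorem tf_Lc (b : Bool) (e : V × V) (f : St V → ℝ≥0∞) : Lc G e (tf (G := G) b e f) := by
  intro x y _ _ _ _ h
  unfold tf fr
  rw [gl_congr h.1, frL_congr fun i hi => h.2 i.1 i.2 hi]

theorem tf_eq {b : Bool} {x : XX G} (h : Gd b x) {e : V × V} (ha : alive x.1 e)
    (hc : col b (lab x.2 0) (lab x.2 1) (lab x.2 2) x.1 e) {f : St V → ℝ≥0∞} (hf : TL G e f) :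
    f (Pool.Agent.PM.hv b x) = tf b e f x :=
  hf _ _ fun _ hsv => hv_fr h ha hc hsv

theorem tf_ins {b : Bool} {x : XX G} (h : Gd b x) {e : V × V} (ha : alive x.1 e)
    {u : Dt G} {n : ℕ} (hu : Stop b (lab x.2 2) x.1 e n u.1 ∨ Stop b (lab x.2 2) x.1 e.swap n u.1)
    {f : St V → ℝ≥0∞} (hf : TL G e f) :
    tf b e f (x.1, flipL (u, 0) x.2) = tf b e f x :=
  hf _ _ fun _ hsv => hv_ins h ha hu hsv

theorem alive_hv (b : Bool) (x : XX G) (e : V × V) :
    alive (Pool.Agent.PM.hv b x) e ↔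
      alive x.1 e ∧ col b (lab x.2 0) (lab x.2 1) (lab x.2 2) x.1 e := by
  unfold alive Pool.Agent.PM.hv halve
  rw [Finset.mem_filter]

theorem ae_Gd {Δ : ℕ} (hT : Std G Δ) {μ : Measure (St V)} (hL : Law G μ) (b : Bool)
    (hs : ∀ᵐ σ ∂μ, ∀ v, (σ v).comp = {v} ∧ (σ v).spec = ∅ ∧ (σ v).M = fun p => p.2)
    (hst : ∀ᵐ x ∂(μ.prod (lam G)), ∀ e : V × V, alive x.1 e →
      ∃ n u, Stop b (lab x.2 2) x.1 e n u) :
    ∀ᵐ x : XX G ∂(μ.prod (lam G)), Gd b x := by
  have := countable_V hT.tree Δ hT.reg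
  have := hL.prob
  have h1 : ∀ᵐ x : XX G ∂(μ.prod (lam G)), WF G x.1 :=
    Measure.quasiMeasurePreserving_fst.ae hL.wf
  have h2 : ∀ᵐ x : XX G ∂(μ.prod (lam G)),
      ∀ v, (x.1 v).comp = {v} ∧ (x.1 v).spec = ∅ ∧ (x.1 v).M = fun p => p.2 :=
    Measure.quasiMeasurePreserving_fst.ae hs
  filter_upwards [h1, h2, hst, ae_Gen (μ := μ) (G := G) 0, ae_lab_nonneg (G := G) μ]
    with x h1 h2 h3 h4 h5
  exact ⟨hT.tree, h1.toWF0, h2, fun i => TI_of_Gen h4 i, h5, h3⟩

/-- integrals with respect to the next law -/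
theorem two_mul_int {Δ : ℕ} (hT : Std G Δ) {μ : Measure (St V)} (hL : Law G μ) (b : Bool)
    (hs : ∀ᵐ σ ∂μ, ∀ v, (σ v).comp = {v} ∧ (σ v).spec = ∅ ∧ (σ v).M = fun p => p.2)
    (hst : ∀ᵐ x ∂(μ.prod (lam G)), ∀ e : V × V, alive x.1 e →
      ∃ n u, Stop b (lab x.2 2) x.1 e n u) {e : V × V} (he : G.Adj e.1 e.2)
    {f g : St V → ℝ≥0∞} (hf : Measurable f) (hg : Measurable g) (hfl : TL G e f)
    (hgl : TL G e.swap g) :
    2 * ∫⁻ σ, ind (alive σ e) * (f σ * g σ) ∂(nextLaw (Pool.Agent.PM.hv (G := G) b) μ) =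
      ∫⁻ x, ind (alive x.1 e) * (tf b e f x * tf b e.swap g x) ∂(μ.prod (lam G)) := by
  have := countable_V hT.tree Δ hT.reg
  have := hL.prob
  have hgd := ae_Gd hT hL b hs hst
  have hswap : e.swap.swap = e := Prod.swap_swap e
  have hΦ : Measurable (fun x : XX G => tf b e f x * tf b e.swap g x) :=
    (tf_meas b e hf).mul (tf_meas b e.swap hg)
  have h1 := fair hT.tree b he
    (by filter_upwards [hL.wf, hs] with σ h1 h2 using ⟨h1.toWF0, fun v => (h2 v).1⟩) hst hΦ
    (by
      filter_upwards [hgd] with x hx ha u n hu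
      have ha' : alive x.1 e.swap := hx.h2.swap ha
      show tf b e f (x.1, flipL (u, 0) x.2) * tf b e.swap g (x.1, flipL (u, 0) x.2) = _
      rw [tf_ins hx ha hu hfl, tf_ins hx ha' (n := n) (by rw [hswap]; exact hu.symm) hgl])
  rw [← h1]
  congr 1
  unfold nextLaw
  have hm : Measurable (fun σ : St V => ind (alive σ e) * (f σ * g σ)) :=
    (fac_meas_alive e).mul (hf.mul hg)
  rw [lintegral_map hm (meas_hv b)]
  refine lintegral_congr_ae ?_
  filter_upwards [hgd] with x hx
  by_cases ha : alive x.1 e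
  · by_cases hc : col b (lab x.2 0) (lab x.2 1) (lab x.2 2) x.1 e
    · have ha' : alive x.1 e.swap := hx.h2.swap ha
      have e1 : alive (Pool.Agent.PM.hv b x) e := (alive_hv b x e).mpr ⟨ha, hc⟩
      rw [tf_eq hx ha hc hfl, tf_eq hx ha' (col_symm hc) hgl]
      simp [ind, ha, hc, e1]
    · have e1 : ¬ alive (Pool.Agent.PM.hv b x) e := fun h => hc ((alive_hv b x e).mp h).2
      simp [ind, hc, e1]
  · have e1 : ¬ alive (Pool.Agent.PM.hv b x) e := fun h => ha ((alive_hv b x e).mp h).1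
    simp [ind, ha, e1]

end Hv2

/-- the law of the halved state -/
theorem hv_Law {Δ : ℕ} (hT : Std G Δ) {μ : Measure (St V)} (hL : Law G μ) (b : Bool)
    (hs : ∀ᵐ σ ∂μ, ∀ v, (σ v).comp = {v} ∧ (σ v).spec = ∅ ∧ (σ v).M = fun p => p.2)
    (hk : ∀ᵐ σ ∂μ, ∀ v, 6 ≤ (σ v).ports.card)
    (hst : ∀ᵐ x ∂(μ.prod (lam G)), ∀ e : V × V, alive x.1 e →
      ∃ n u, Stop b (lab x.2 2) x.1 e n u) :
    Law G (nextLaw (hv (G := G) b) μ) := by
  have := countable_V hT.tree Δ hT.reg
  have := hL.prob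
  have hprob : IsProbabilityMeasure (nextLaw (hv (G := G) b) μ) :=
    Measure.isProbabilityMeasure_map (meas_hv b).aemeasurable
  have hgd := Hv2.ae_Gd hT hL b hs hst
  have hk' : ∀ᵐ x : XX G ∂(μ.prod (lam G)), ∀ v, 6 ≤ (x.1 v).ports.card :=
    Measure.quasiMeasurePreserving_fst.ae hk
  -- constants
  have one_TL : ∀ e : V × V, TL G e (fun _ : St V => (1 : ℝ≥0∞)) := fun e σ σ' _ => rfl
  have htf1 : ∀ (e : V × V) (x : XX G), Hv2.tf b e (fun _ => (1 : ℝ≥0∞)) x = 1 := fun e x => rfl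
  have halive : ∀ e : V × V, G.Adj e.1 e.2 →
      2 * nextLaw (hv (G := G) b) μ {σ | alive σ e} = μ {σ | alive σ e} := by
    intro e he
    have h1 := Hv2.two_mul_int hT hL b hs hst he (f := fun _ => (1 : ℝ≥0∞))
      (g := fun _ => (1 : ℝ≥0∞)) measurable_const measurable_const (one_TL e) (one_TL e.swap)
    simp only [htf1, mul_one] at h1
    rw [next_ind_alive] at h1
    rw [h1]
    have h2 : ∫⁻ x : XX G, ind (alive x.1 e) ∂(μ.prod (lam G)) =
        ∫⁻ σ, ∫⁻ _l, ind (alive σ e) ∂(lam G) ∂μ :=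
      lintegral_prod _ ((fac_meas_alive e).comp measurable_fst).aemeasurable
    rw [h2]
    simp only [lintegral_const, measure_univ, mul_one]
    exact next_ind_alive e
  refine ⟨hprob, ?_, ?_, ?_, ?_⟩
  · unfold nextLaw
    rw [ae_map_iff (meas_hv b).aemeasurable next_meas_WF]
    filter_upwards [hgd, hk'] with x hx hkx
    exact halve_WF hx.hw (hx.ti 1) hx.stop hx.sing hkx
  · intro φ
    unfold nextLaw
    rw [Measure.map_map (meas_map φ) (meas_hv b)]
    have h1 : (St.map φ.toEquiv ∘ hv (G := G) b) = hv b ∘ XX.map φ := by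
      funext x
      exact (hv_map b φ x).symm
    rw [h1, ← Measure.map_map (meas_hv b) (next_meas_XX φ), next_map_XX hL φ (next_meas_XX φ)]
  · intro e he h0
    have h1 := halive e he
    rw [h0, mul_zero] at h1
    exact hL.pos e he h1.symm
  · intro e he f g hf hg hfl hgl
    have j1 := Hv2.two_mul_int hT hL b hs hst he hf hg hfl hgl
    have j2 := Hv2.two_mul_int hT hL b hs hst he hf (g := fun _ => (1 : ℝ≥0∞))
      measurable_const hfl (one_TL e.swap)
    have j3 := Hv2.two_mul_int hT hL b hs hst he (f := fun _ => (1 : ℝ≥0∞))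
      measurable_const hg (one_TL e) hgl
    have j4 := halive e he
    have j5 := fac2 hT.tree hL he (Hv2.tf_meas b e hf) (Hv2.tf_meas b e.swap hg)
      (Hv2.tf_Lc b e f) (Hv2.tf_Lc b e.swap g)
    simp only [htf1, mul_one, one_mul] at j2 j3
    rw [← j1, ← j2, ← j3, ← j4] at j5
    have h4 : (4 : ℝ≥0∞) ≠ 0 := by norm_num
    have h4' : (4 : ℝ≥0∞) ≠ ∞ := by norm_num
    refine (ENNReal.mul_right_inj h4 h4').mp ?_
    have e4 : (4 : ℝ≥0∞) = 2 * 2 := by norm_num
    rw [e4]
    calc 2 * 2 * ((∫⁻ σ, ind (alive σ e) * (f σ * g σ) ∂(nextLaw (hv (G := G) b) μ)) *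
          nextLaw (hv (G := G) b) μ {σ | alive σ e})
        = 2 * (∫⁻ σ, ind (alive σ e) * (f σ * g σ) ∂(nextLaw (hv (G := G) b) μ)) *
          (2 * nextLaw (hv (G := G) b) μ {σ | alive σ e}) := by ring
      _ = _ := j5
      _ = _ := by ring

end Pool.Agent.PM
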