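import Pool.Agent.Lib.MP_947a32_pr.Fac

/-!
# Piece HALVE2, measure part (helper97): flipping one label
-/

set_option autoImplicit false

open Classical MeasureTheory
open scoped ENNReal

namespace Pool.Agent.PM

variable {V : Type} {G : SimpleGraph V}

/-- change one label `x` into `1 - x` -/
noncomputable def flipL (i : Dt G × Fin 3) (l : Lb G) : Lb G := Function.update l i (1 - l i)

theorem unif_map_one_sub : unif.map (fun x => 1 - x) = unif := by
  have h : MeasurePreserving (fun x : ℝ => 1 - x) volume volume :=
    Measure.measurePreserving_sub_left volume 1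
  have h2 := h.restrict_preimage (s := Set.Icc (0 : ℝ) 1) measurableSet_Icc
  have h3 : (fun x : ℝ => 1 - x) ⁻¹' Set.Icc (0 : ℝ) 1 = Set.Icc 0 1 := by
    ext x
    simp only [Set.mem_preimage, Set.mem_Icc]
    constructor <;> rintro ⟨h1, h2⟩ <;> constructor <;> linarith
  rw [h3] at h2
  exact h2.map_eq

theorem flip_mp (i : Dt G × Fin 3) : MeasurePreserving (flipL (G := G) i) (lam G) (lam G) := by
  have he : flipL (G := G) i = fun l j => (if j = i then (fun x : ℝ => 1 - x) else id) (l j) := by
    funext l j
    unfold flipL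
    by_cases hj : j = i
    · subst hj; simp
    · simp [hj]
  have hm : ∀ j : Dt G × Fin 3, Measurable (if j = i then (fun x : ℝ => 1 - x) else id) := by
    intro j
    by_cases hj : j = i
    · rw [if_pos hj]; exact measurable_const.sub measurable_id
    · rw [if_neg hj]; exact measurable_id
  refine ⟨?_, ?_⟩
  · rw [he]
    exact measurable_pi_lambda _ fun j => (hm j).comp (measurable_pi_apply j)
  · rw [he]
    unfold lam
    rw [Measure.infinitePi_map_pi (fun _ => unif) hm]
    congr 1
    funext j
    by_cases hj : j = i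
    · rw [if_pos hj]; exact unif_map_one_sub
    · rw [if_neg hj]; exact Measure.map_id

theorem flip_mpx (μ : Measure (St V)) [SFinite μ] (i : Dt G × Fin 3) :
    MeasurePreserving (fun x : XX G => (x.1, flipL i x.2)) (μ.prod (lam G)) (μ.prod (lam G)) :=
  (MeasurePreserving.id μ).prod (flip_mp i)

theorem flipL_self (i : Dt G × Fin 3) (l : Lb G) : flipL i l i = 1 - l i := by
  simp [flipL]

theorem flipL_ne {i j : Dt G × Fin 3} (h : j ≠ i) (l : Lb G) : flipL i l j = l j := by
  simp [flipL, h]

theorem flipL_flipL (i : Dt G × Fin 3) (l : Lb G) : flipL i (flipL i l) = l := by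
  funext j
  by_cases hj : j = i
  · subst hj; rw [flipL_self, flipL_self]; ring
  · rw [flipL_ne hj, flipL_ne hj]

/-- a.s. all labels are in `[0,1]` -/
theorem ae_lab_nonneg [Countable V] (μ : Measure (St V)) [SFinite μ] :
    ∀ᵐ x : XX G ∂(μ.prod (lam G)), ∀ i, 0 ≤ x.2 i := by
  have h1 : ∀ᵐ l : Lb G ∂(lam G), ∀ i, 0 ≤ l i := by
    rw [ae_all_iff]
    intro i
    have h2 : ∀ᵐ y ∂unif, 0 ≤ y := by
      unfold unif
      filter_upwards [ae_restrict_mem measurableSet_Icc] with y hy using hy.1
    exact (measurePreserving_eval_infinitePi (fun _ : Dt G × Fin 3 => unif) i).quasiMeasurePreserving.ae h2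
  exact Measure.quasiMeasurePreserving_snd.ae h1

end Pool.Agent.PM
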