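import Mathlib

set_option autoImplicit false

namespace MP947a32

namespace Tree

variable {V : Type*} {G : SimpleGraph V}

/-- `m` lies on the geodesic between `u` and `v`. -/
def Btw (G : SimpleGraph V) (u m v : V) : Prop := G.dist u m + G.dist m v = G.dist u v

/-- the side of `a` of the edge `ab`: vertices closer to `a` than to `b`. -/
def Side (G : SimpleGraph V) (a b : V) : Set V := {v | G.dist v a < G.dist v b}

theorem exists_parent (hG : G.IsTree) {r v : V} (h : v ≠ r) :
    ∃ w, G.Adj v w ∧ G.dist r w + 1 = G.dist r v := by
  obtain ⟨p, hp⟩ := hG.connected.exists_walk_length_eq_dist v r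
  cases p with
  | nil => exact absurd rfl h
  | cons hvw q =>
    rename_i w
    refine ⟨w, hvw, ?_⟩
    rw [SimpleGraph.Walk.length_cons] at hp
    have h1 : G.dist w r ≤ q.length := SimpleGraph.dist_le q
    have h2 := hG.dist_eq_dist_add_one_of_adj r hvw
    rw [G.dist_comm (u := r) (v := w), G.dist_comm (u := r) (v := v)] at *
    omega

theorem parent_unique (hG : G.IsTree) {r v w₁ w₂ : V} (h₁ : G.Adj v w₁) (h₂ : G.Adj v w₂)
    (d₁ : G.dist r w₁ + 1 = G.dist r v) (d₂ : G.dist r w₂ + 1 = G.dist r v) : w₁ = w₂ := by
  obtain ⟨p₁, hp₁⟩ := hG.connected.exists_walk_length_eq_dist r w₁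
  obtain ⟨p₂, hp₂⟩ := hG.connected.exists_walk_length_eq_dist r w₂
  have l₁ : (p₁.concat h₁.symm).length = G.dist r v := by
    rw [SimpleGraph.Walk.length_concat, hp₁, d₁]
  have l₂ : (p₂.concat h₂.symm).length = G.dist r v := by
    rw [SimpleGraph.Walk.length_concat, hp₂, d₂]
  have i₁ := SimpleGraph.Walk.isPath_of_length_eq_dist _ l₁
  have i₂ := SimpleGraph.Walk.isPath_of_length_eq_dist _ l₂
  have e := hG.isAcyclic.path_unique ⟨_, i₁⟩ ⟨_, i₂⟩
  have e' : p₁.concat h₁.symm = p₂.concat h₂.symm := congrArg Subtype.val e
  have := congrArg SimpleGraph.Walk.penultimate e'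
  simpa using this

theorem dist_adj (hG : G.IsTree) (u : V) {v w : V} (h : G.Adj v w) :
    G.dist u v = G.dist u w + 1 ∨ G.dist u w = G.dist u v + 1 :=
  hG.dist_eq_dist_add_one_of_adj u h

theorem mem_side_or (hG : G.IsTree) {a b : V} (h : G.Adj a b) (v : V) :
    v ∈ Side G a b ∨ v ∈ Side G b a := by
  rcases dist_adj hG v h with h1 | h1
  · right; show G.dist v b < G.dist v a; omega
  · left; show G.dist v a < G.dist v b; omega

theorem not_mem_side_iff (hG : G.IsTree) {a b : V} (h : G.Adj a b) (v : V) :
    v ∉ Side G a b ↔ v ∈ Side G b a := by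
  rcases dist_adj hG v h with h1 | h1 <;>
  · simp only [Side, Set.mem_setOf_eq]; omega

theorem side_disjoint (a b : V) : Disjoint (Side G a b) (Side G b a) := by
  rw [Set.disjoint_left]
  intro v h1 h2
  simp only [Side, Set.mem_setOf_eq] at h1 h2
  omega

theorem side_dist (hG : G.IsTree) {a b v : V} (h : G.Adj a b) (hv : v ∈ Side G a b) :
    G.dist v b = G.dist v a + 1 := by
  have h1 : G.dist v a < G.dist v b := hv
  rcases dist_adj hG v h with h2 | h2 <;> omega

theorem self_mem_side {a b : V} (h : G.Adj a b) : a ∈ Side G a b := by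
  show G.dist a a < G.dist a b
  rw [SimpleGraph.dist_self, SimpleGraph.dist_eq_one_iff_adj.mpr h]
  exact Nat.one_pos

/-- An edge crossing the cut of the edge `ab` is the edge `ab`. -/
theorem side_cross (hG : G.IsTree) {a b u v : V} (hab : G.Adj a b) (huv : G.Adj u v)
    (hu : u ∈ Side G a b) (hv : v ∈ Side G b a) : u = a ∧ v = b := by
  have e1 := side_dist hG hab hu
  have e2 := side_dist hG hab.symm hv
  have c1 := dist_adj hG a huv
  have c2 := dist_adj hG b huv
  rw [G.dist_comm (u := u) (v := b), G.dist_comm (u := u) (v := a)] at e1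
  rw [G.dist_comm (u := v) (v := b), G.dist_comm (u := v) (v := a)] at e2
  have hua : u = a := by
    by_contra hne
    obtain ⟨w, hw, dw⟩ := exists_parent hG hne
    have c3 := dist_adj hG w hab
    have c4 := dist_adj hG b hw
    rw [G.dist_comm (u := w) (v := b), G.dist_comm (u := w) (v := a)] at c3
    have : w = v := parent_unique hG (r := b) hw huv (by omega) (by omega)
    subst this
    omega
  have hvb : v = b := by
    by_contra hne
    obtain ⟨w, hw, dw⟩ := exists_parent hG hne
    have c3 := dist_adj hG w hab
    have c4 := dist_adj hG a hw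
    rw [G.dist_comm (u := w) (v := b), G.dist_comm (u := w) (v := a)] at c3
    have : w = u := parent_unique hG (r := a) hw huv.symm (by omega) (by omega)
    subst this
    omega
  exact ⟨hua, hvb⟩

/-- Distances add up across an edge. -/
theorem dist_of_sides (hG : G.IsTree) {a b u v : V} (hab : G.Adj a b)
    (hu : u ∈ Side G a b) (hv : v ∈ Side G b a) :
    G.dist u v = G.dist u a + 1 + G.dist b v := by
  induction hn : G.dist b v using Nat.strong_induction_on generalizing v with
  | _ n ih =>
    by_cases hvb : v = b
    · subst hvb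
      rw [SimpleGraph.dist_self] at hn
      have := side_dist hG hab hu
      omega
    · obtain ⟨w, hw, dw⟩ := exists_parent hG hvb
      have hwside : w ∈ Side G b a := by
        by_contra hcon
        rw [not_mem_side_iff hG hab.symm] at hcon
        exact hvb (side_cross hG hab hw.symm hcon hv).2
      have i1 := ih (G.dist b w) (by omega) hwside rfl
      rcases dist_adj hG u hw with h1 | h1
      · omega
      · exfalso
        -- dist u w = dist u v + 1 : v is a parent of w seen from u
        by_cases hwb : w = b
        · subst hwb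
          have e := side_dist hG hab hu
          have : v = a := parent_unique hG (r := u) hw.symm hab.symm (by omega) (by omega)
          subst this
          exact absurd hv (by
            rw [not_mem_side_iff hG hab.symm]; exact self_mem_side hab)
        · obtain ⟨z, hz, dz⟩ := exists_parent hG hwb
          have hzside : z ∈ Side G b a := by
            by_contra hcon
            rw [not_mem_side_iff hG hab.symm] at hcon
            exact hwb (side_cross hG hab hz.symm hcon hwside).2
          have i2 := ih (G.dist b z) (by omega) hzside rfl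
          have : v = z := parent_unique hG (r := u) hw.symm hz (by omega) (by omega)
          subst this
          omega

theorem btw_comm {u m v : V} : Btw G u m v ↔ Btw G v m u := by
  unfold Btw
  rw [G.dist_comm (u := u) (v := m), G.dist_comm (u := m) (v := v), G.dist_comm (u := u) (v := v)]
  omega

theorem btw_left (u v : V) : Btw G u u v := by simp [Btw]

theorem btw_right (u v : V) : Btw G u v v := by simp [Btw]

theorem btw_self_iff (hG : G.IsTree) {u m : V} : Btw G u m u ↔ m = u := by
  unfold Btw
  rw [SimpleGraph.dist_self]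
  constructor
  · intro h
    have : G.dist m u = 0 := by omega
    exact hG.connected.dist_eq_zero_iff.mp this
  · rintro rfl; simp

/-- If `m` is between `u` and `v` and `m ≠ v`, there is a next vertex towards `v`. -/
theorem exists_next (hG : G.IsTree) {m v : V} (h : m ≠ v) :
    ∃ w, G.Adj m w ∧ G.dist m v = G.dist w v + 1 := by
  obtain ⟨w, hw, dw⟩ := exists_parent hG h
  refine ⟨w, hw, ?_⟩
  rw [G.dist_comm (u := m) (v := v), G.dist_comm (u := w) (v := v)]
  omega

theorem next_unique (hG : G.IsTree) {m v w₁ w₂ : V} (h₁ : G.Adj m w₁) (h₂ : G.Adj m w₂)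
    (d₁ : G.dist m v = G.dist w₁ v + 1) (d₂ : G.dist m v = G.dist w₂ v + 1) : w₁ = w₂ := by
  refine parent_unique hG (r := v) h₁ h₂ ?_ ?_
  · rw [G.dist_comm (u := v) (v := m), G.dist_comm (u := v) (v := w₁)]; omega
  · rw [G.dist_comm (u := v) (v := m), G.dist_comm (u := v) (v := w₂)]; omega

/-- `v` is on the side of `w` of the edge `m w` iff `w` is the next vertex from `m` to `v`. -/
theorem mem_side_iff_next (hG : G.IsTree) {m w v : V} (h : G.Adj m w) :
    v ∈ Side G w m ↔ G.dist m v = G.dist w v + 1 := by
  simp only [Side, Set.mem_setOf_eq]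
  rw [G.dist_comm (u := v) (v := w), G.dist_comm (u := v) (v := m)]
  have := dist_adj hG v h
  rw [G.dist_comm (u := v) (v := w), G.dist_comm (u := v) (v := m)] at this
  omega

/-- gluing of geodesics at a vertex: the directions to `u` and `v` at `m` are different. -/
theorem btw_of_next_ne (hG : G.IsTree) {u m v w : V} (hw : G.Adj m w)
    (hv : G.dist m v = G.dist w v + 1) (hu : G.dist m u + 1 = G.dist w u) : Btw G u m v := by
  have h1 : v ∈ Side G w m := (mem_side_iff_next hG hw).mpr hv
  have h2 : u ∈ Side G m w := by
    show G.dist u m < G.dist u w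
    rw [G.dist_comm (u := u) (v := m), G.dist_comm (u := u) (v := w)]; omega
  have := dist_of_sides hG hw h2 h1
  unfold Btw
  omega

/-- Medians exist. -/
theorem exists_median (hG : G.IsTree) (u v w : V) :
    ∃ m, Btw G u m v ∧ Btw G v m w ∧ Btw G u m w := by
  classical
  -- choose a point of the segment `u v` closest to `w`
  have hex : ∃ n, ∃ m, Btw G u m v ∧ G.dist m w = n := ⟨_, u, btw_left u v, rfl⟩
  obtain ⟨m, hm, hmn⟩ := Nat.find_spec hex
  have hmin : ∀ z, Btw G u z v → G.dist m w ≤ G.dist z w := by
    intro z hz
    rw [hmn]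
    exact Nat.find_min' hex ⟨z, hz, rfl⟩
  -- general claim
  have key : ∀ u v : V, Btw G u m v → (∀ z, Btw G u z v → G.dist m w ≤ G.dist z w) →
      Btw G v m w := by
    intro u v hm hmin
    by_cases hmv : m = v
    · subst hmv; exact btw_left _ _
    · obtain ⟨x, hx, dx⟩ := exists_next hG hmv
      have tri := hG.connected.dist_triangle (u := u) (v := x) (w := v)
      have hux := dist_adj hG u hx
      have hbx : Btw G u x v := by
        unfold Btw at hm ⊢
        omega
      have h1 := hmin x hbx
      have h2 := dist_adj hG w hx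
      rw [G.dist_comm (u := w) (v := m), G.dist_comm (u := w) (v := x)] at h2
      have h3 : Btw G w m v := btw_of_next_ne hG hx dx (by omega)
      exact btw_comm.mp h3
  refine ⟨m, hm, key u v hm hmin, ?_⟩
  have := key v u (btw_comm.mp hm) (fun z hz => hmin z (btw_comm.mp hz))
  exact this

theorem btw_trans (hG : G.IsTree) {u x y v : V} (h : Btw G u y v) (h' : Btw G u x y) :
    Btw G u x v ∧ Btw G x y v := by
  unfold Btw at *
  have t1 := hG.connected.dist_triangle (u := u) (v := x) (w := v)
  have t2 := hG.connected.dist_triangle (u := x) (v := y) (w := v)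
  omega

theorem dist_zero_iff (hG : G.IsTree) {u v : V} : G.dist u v = 0 ↔ u = v :=
  hG.connected.dist_eq_zero_iff

/-- points of a segment at the same distance from an end are equal -/
theorem btw_unique (hG : G.IsTree) {u x y v : V} (hx : Btw G u x v) (hy : Btw G u y v)
    (h : G.dist u x = G.dist u y) : x = y := by
  induction hn : G.dist u x generalizing x y with
  | zero =>
    have h1 := (dist_zero_iff hG).mp hn
    have h2 := (dist_zero_iff hG).mp (h.symm.trans hn)
    rw [← h1, ← h2]
  | succ n ih =>
    have hxu : x ≠ u := by rintro rfl; simp at hn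
    have hyu : y ≠ u := by rintro rfl; rw [h] at hn; simp at hn
    obtain ⟨x', ax, dx⟩ := exists_next hG hxu
    obtain ⟨y', ay, dy⟩ := exists_next hG hyu
    rw [G.dist_comm (u := x) (v := u), G.dist_comm (u := x') (v := u)] at dx
    rw [G.dist_comm (u := y) (v := u), G.dist_comm (u := y') (v := u)] at dy
    have cx := dist_adj hG v ax
    have cy := dist_adj hG v ay
    have tx := hG.connected.dist_triangle (u := u) (v := x') (w := v)
    have ty := hG.connected.dist_triangle (u := u) (v := y') (w := v)
    rw [G.dist_comm (u := v) (v := x), G.dist_comm (u := v) (v := x')] at cx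
    rw [G.dist_comm (u := v) (v := y), G.dist_comm (u := v) (v := y')] at cy
    unfold Btw at hx hy
    have hx' : Btw G u x' v := by unfold Btw; omega
    have hy' : Btw G u y' v := by unfold Btw; omega
    have e := ih hx' hy' (by omega) (by omega)
    subst e
    -- both x and y are the next vertex from x' towards v
    exact next_unique hG (v := v) ax.symm ay.symm (by omega) (by omega)

end Tree

end MP947a32
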