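import Pool.Agent.Lib.MP_947a32_pr.Defs
import Pool.Agent.Lib.MP_947a32_pr.Tree68

/-!
# MP_947a32_pr, piece OP1 (helper98): structure of `op`, `chill`, `init`
-/

set_option autoImplicit false

open Classical MeasureTheory
open scoped ENNReal

namespace Pool.Agent.PM

variable {V : Type} {G : SimpleGraph V}

/-! ### geometry -/

theorem op1_sideA {σ : St V} (h : WF0 G σ) {d : V × V} (hd : d ∈ (σ d.1).ports) {v : V}
    (hv : v ∈ (σ d.1).comp) : side G d v := by
  have hadj := (h.tail _ _ hd).2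
  exact (h.sep d hd d.1 v hv).2 (MP947a32.Tree.self_mem_side hadj)

theorem op1_sideB {σ : St V} (h : WF0 G σ) {d : V × V} (hd : d ∈ (σ d.1).ports) {v : V}
    (hv : v ∈ (σ d.2).comp) : ¬ side G d v := by
  intro hs
  have h1 : side G d d.2 := (h.sep d hd d.2 v hv).1 hs
  unfold side at h1
  rw [SimpleGraph.dist_self] at h1
  exact Nat.not_lt_zero _ h1

/-- the two comps of an alive edge are disjoint -/
theorem op1_disj {σ : St V} (h : WF0 G σ) {d : V × V} (hd : d ∈ (σ d.1).ports) {v : V}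
    (hv : v ∈ (σ d.1).comp) : v ∉ (σ d.2).comp :=
  fun hv' => op1_sideB h hd hv' (op1_sideA h hd hv)

theorem op1_symm {σ : St V} (h : WF0 G σ) {u v : V} (hu : u ∈ (σ v).comp) :
    v ∈ (σ u).comp := by
  rw [(h.eqv v u hu).1]
  exact h.mem v

theorem op1_portsA {σ : St V} (h : WF0 G σ) {d : V × V} (hd : d ∈ (σ d.1).ports) {p : V × V}
    (hp : p ∈ (σ d.1).ports) : p ∉ (σ d.2).ports := fun hp' =>
  op1_disj h hd (h.tail _ _ hp).1 (h.tail _ _ hp').1

theorem op1_portsB {σ : St V} (h : WF0 G σ) {d : V × V} (hd : d ∈ (σ d.1).ports) {p : V × V}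
    (hp : p ∈ (σ d.2).ports) : p ∉ (σ d.1).ports := fun hp' => op1_portsA h hd hp' hp

/-- an edge different from `p` has both ends on the same side of `p` -/
theorem op1_side_adj (hG : G.IsTree) {p : V × V} (hp : G.Adj p.1 p.2) {u v : V}
    (huv : G.Adj u v) (h1 : (u, v) ≠ p) (h2 : (v, u) ≠ p) : side G p u ↔ side G p v := by
  constructor
  · intro h
    by_contra hv
    obtain ⟨e1, e2⟩ := MP947a32.Tree.side_cross hG hp huv h
      ((MP947a32.Tree.not_mem_side_iff hG hp v).1 hv)
    exact h1 (Prod.ext e1 e2)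
  · intro h
    by_contra hv
    obtain ⟨e1, e2⟩ := MP947a32.Tree.side_cross hG hp huv.symm h
      ((MP947a32.Tree.not_mem_side_iff hG hp u).1 hv)
    exact h2 (Prod.ext e1 e2)

/-! ### `op` by cases -/

/-- `v` lies in one of the two comps of `d` -/
def inAB (σ : St V) (d : V × V) (v : V) : Prop := v ∈ (σ d.1).comp ∨ v ∈ (σ d.2).comp

theorem op_of_not (σ : St V) {d : V × V}
    (hd : ¬ (d ∈ (σ d.1).ports ∧ d.swap ∈ (σ d.2).ports)) : op σ d = σ := by
  funext v
  unfold op
  rw [if_neg]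
  rintro ⟨h1, h2, -⟩
  exact hd ⟨h1, h2⟩

theorem op_out (σ : St V) {d : V × V} {v : V} (hv : ¬ inAB σ d v) : op σ d v = σ v := by
  unfold op
  rw [if_neg]
  rintro ⟨-, -, h3⟩
  exact hv h3

section cases

variable {σ : St V} {d : V × V} {v : V}

theorem op_del (hd : d ∈ (σ d.1).ports) (hd' : d.swap ∈ (σ d.2).ports) (hv : inAB σ d v)
    (hs : d ∈ (σ d.1).spec ↔ d.swap ∈ (σ d.2).spec)
    (hc : 3 ≤ (σ d.1).ports.card ∧ 3 ≤ (σ d.2).ports.card) :
    op σ d v =
      { comp := (σ v).comp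
        ports := ((σ v).ports.erase d).erase d.swap
        spec := ((σ v).spec.erase d).erase d.swap
        M := (σ v).M } := by
  unfold op
  rw [if_pos ⟨hd, hd', hv⟩, if_pos hs, if_pos hc]

theorem op_absB (hd : d ∈ (σ d.1).ports) (hd' : d.swap ∈ (σ d.2).ports) (hv : inAB σ d v)
    (hs : d ∈ (σ d.1).spec ↔ d.swap ∈ (σ d.2).spec)
    (hc : ¬ (3 ≤ (σ d.1).ports.card ∧ 3 ≤ (σ d.2).ports.card)) (hB : (σ d.2).ports.card = 2) :
    op σ d v =
      { comp := (σ d.1).comp ∪ (σ d.2).comp
        ports := (σ d.1).ports.erase d ∪ (σ d.2).ports.erase d.swap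
        spec := (σ d.1).spec.erase d ∪ ((σ d.2).ports.erase d.swap \ (σ d.2).spec)
        M := fun p =>
          if v ∈ (σ d.1).comp then
            (if p ∈ (σ d.2).ports then (σ v).M d else (σ v).M p)
          else
            (if p ∈ (σ d.1).ports then (σ v).M (other (σ d.2).ports d.swap)
              else (σ v).M d.swap) } := by
  unfold op
  rw [if_pos ⟨hd, hd', hv⟩, if_pos hs, if_neg hc, if_pos hB]

theorem op_absA (hd : d ∈ (σ d.1).ports) (hd' : d.swap ∈ (σ d.2).ports) (hv : inAB σ d v)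
    (hs : d ∈ (σ d.1).spec ↔ d.swap ∈ (σ d.2).spec)
    (hc : ¬ (3 ≤ (σ d.1).ports.card ∧ 3 ≤ (σ d.2).ports.card)) (hB : (σ d.2).ports.card ≠ 2) :
    op σ d v =
      { comp := (σ d.1).comp ∪ (σ d.2).comp
        ports := (σ d.1).ports.erase d ∪ (σ d.2).ports.erase d.swap
        spec := ((σ d.1).ports.erase d \ (σ d.1).spec) ∪ (σ d.2).spec.erase d.swap
        M := fun p =>
          if v ∈ (σ d.2).comp then
            (if p ∈ (σ d.1).ports then (σ v).M d.swap else (σ v).M p)
          else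
            (if p ∈ (σ d.2).ports then (σ v).M (other (σ d.1).ports d)
              else (σ v).M d) } := by
  unfold op
  rw [if_pos ⟨hd, hd', hv⟩, if_pos hs, if_neg hc, if_neg hB]

theorem op_mrg (hd : d ∈ (σ d.1).ports) (hd' : d.swap ∈ (σ d.2).ports) (hv : inAB σ d v)
    (hs : ¬ (d ∈ (σ d.1).spec ↔ d.swap ∈ (σ d.2).spec)) :
    op σ d v =
      { comp := (σ d.1).comp ∪ (σ d.2).comp
        ports := (σ d.1).ports.erase d ∪ (σ d.2).ports.erase d.swap
        spec := (σ d.1).spec.erase d ∪ (σ d.2).spec.erase d.swap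
        M := fun p =>
          if v ∈ (σ d.1).comp then
            (if p ∈ (σ d.2).ports then (σ v).M d else (σ v).M p)
          else
            (if p ∈ (σ d.1).ports then (σ v).M d.swap else (σ v).M p) } := by
  unfold op
  rw [if_pos ⟨hd, hd', hv⟩, if_neg hs]

/-- deletion or union of the two comps -/
def isDel (σ : St V) (d : V × V) : Prop :=
  (d ∈ (σ d.1).spec ↔ d.swap ∈ (σ d.2).spec) ∧
    3 ≤ (σ d.1).ports.card ∧ 3 ≤ (σ d.2).ports.card

theorem op_comp_del (hd : d ∈ (σ d.1).ports) (hd' : d.swap ∈ (σ d.2).ports) (hv : inAB σ d v)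
    (hD : isDel σ d) : (op σ d v).comp = (σ v).comp := by
  rw [op_del hd hd' hv hD.1 hD.2]

theorem op_ports_del (hd : d ∈ (σ d.1).ports) (hd' : d.swap ∈ (σ d.2).ports)
    (hv : inAB σ d v) (hD : isDel σ d) :
    (op σ d v).ports = ((σ v).ports.erase d).erase d.swap := by
  rw [op_del hd hd' hv hD.1 hD.2]

theorem op_comp_union (hd : d ∈ (σ d.1).ports) (hd' : d.swap ∈ (σ d.2).ports)
    (hv : inAB σ d v) (hD : ¬ isDel σ d) :
    (op σ d v).comp = (σ d.1).comp ∪ (σ d.2).comp := by
  by_cases hs : (d ∈ (σ d.1).spec ↔ d.swap ∈ (σ d.2).spec)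
  · have hc : ¬ (3 ≤ (σ d.1).ports.card ∧ 3 ≤ (σ d.2).ports.card) := fun hc => hD ⟨hs, hc⟩
    by_cases hB : (σ d.2).ports.card = 2
    · rw [op_absB hd hd' hv hs hc hB]
    · rw [op_absA hd hd' hv hs hc hB]
  · rw [op_mrg hd hd' hv hs]

theorem op_ports_union (hd : d ∈ (σ d.1).ports) (hd' : d.swap ∈ (σ d.2).ports)
    (hv : inAB σ d v) (hD : ¬ isDel σ d) :
    (op σ d v).ports = (σ d.1).ports.erase d ∪ (σ d.2).ports.erase d.swap := by
  by_cases hs : (d ∈ (σ d.1).spec ↔ d.swap ∈ (σ d.2).spec)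
  · have hc : ¬ (3 ≤ (σ d.1).ports.card ∧ 3 ≤ (σ d.2).ports.card) := fun hc => hD ⟨hs, hc⟩
    by_cases hB : (σ d.2).ports.card = 2
    · rw [op_absB hd hd' hv hs hc hB]
    · rw [op_absA hd hd' hv hs hc hB]
  · rw [op_mrg hd hd' hv hs]

/-- in the union case the flips do not depend on the vertex -/
theorem op_spec_union (hd : d ∈ (σ d.1).ports) (hd' : d.swap ∈ (σ d.2).ports) {u : V}
    (hu : inAB σ d u) (hv : inAB σ d v) (hD : ¬ isDel σ d) :
    (op σ d u).spec = (op σ d v).spec := by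
  by_cases hs : (d ∈ (σ d.1).spec ↔ d.swap ∈ (σ d.2).spec)
  · have hc : ¬ (3 ≤ (σ d.1).ports.card ∧ 3 ≤ (σ d.2).ports.card) := fun hc => hD ⟨hs, hc⟩
    by_cases hB : (σ d.2).ports.card = 2
    · rw [op_absB hd hd' hv hs hc hB, op_absB hd hd' hu hs hc hB]
    · rw [op_absA hd hd' hv hs hc hB, op_absA hd hd' hu hs hc hB]
  · rw [op_mrg hd hd' hv hs, op_mrg hd hd' hu hs]

/-- flips only at ports -/
theorem op_spec_sub_union (h : WF0 G σ) (hd : d ∈ (σ d.1).ports)
    (hd' : d.swap ∈ (σ d.2).ports) (hv : inAB σ d v) (hD : ¬ isDel σ d) :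
    (op σ d v).spec ⊆ (σ d.1).ports.erase d ∪ (σ d.2).ports.erase d.swap := by
  have e1 : (σ d.1).spec.erase d ⊆ (σ d.1).ports.erase d :=
    Finset.erase_subset_erase _ (h.spec_sub _)
  have e2 : (σ d.2).spec.erase d.swap ⊆ (σ d.2).ports.erase d.swap :=
    Finset.erase_subset_erase _ (h.spec_sub _)
  by_cases hs : (d ∈ (σ d.1).spec ↔ d.swap ∈ (σ d.2).spec)
  · have hc : ¬ (3 ≤ (σ d.1).ports.card ∧ 3 ≤ (σ d.2).ports.card) := fun hc => hD ⟨hs, hc⟩
    by_cases hB : (σ d.2).ports.card = 2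
    · rw [op_absB hd hd' hv hs hc hB]
      exact Finset.union_subset_union e1 Finset.sdiff_subset
    · rw [op_absA hd hd' hv hs hc hB]
      exact Finset.union_subset_union Finset.sdiff_subset e2
  · rw [op_mrg hd hd' hv hs]
    exact Finset.union_subset_union e1 e2

end cases

theorem op1_notAB {σ : St V} (h : WF0 G σ) {d : V × V} {u v : V} (hu : u ∈ (σ v).comp)
    (hv : ¬ inAB σ d v) : ¬ inAB σ d u := by
  have h1 := op1_symm h hu
  rintro (h2 | h2)
  · apply hv
    left
    rw [(h.eqv _ _ h2).1] at h1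
    exact h1
  · apply hv
    right
    rw [(h.eqv _ _ h2).1] at h1
    exact h1

theorem op1_AB {σ : St V} (h : WF0 G σ) {d : V × V} {u v : V} (hu : u ∈ (σ v).comp)
    (hv : inAB σ d v) : inAB σ d u := by
  by_contra hc
  exact op1_notAB h (op1_symm h hu) hc hv

/-- the ports of the new state at their own tails -/
theorem op_alive' {σ : St V} (h : WF0 G σ) {d : V × V} (hd : d ∈ (σ d.1).ports)
    (q : V × V) :
    q ∈ (op σ d q.1).ports ↔ q ∈ (σ q.1).ports ∧ q ≠ d ∧ q ≠ d.swap := by
  have hd' : d.swap ∈ (σ d.2).ports := h.swap _ _ hd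
  have hmA : d.1 ∈ (σ d.1).comp := h.mem _
  have hmB : d.2 ∈ (σ d.2).comp := h.mem _
  by_cases hv : inAB σ d q.1
  · by_cases hD : isDel σ d
    · rw [op_ports_del hd hd' hv hD]
      simp only [Finset.mem_erase]
      tauto
    · rw [op_ports_union hd hd' hv hD]
      simp only [Finset.mem_union, Finset.mem_erase]
      rcases hv with hv | hv
      · have e := (h.eqv _ _ hv).2.1
        rw [e]
        have hn : q ∉ (σ d.2).ports := fun hc => op1_disj h hd hv (h.tail _ _ hc).1
        have hn2 : q ≠ d.swap := fun hc => hn (by rw [hc]; exact hd')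
        tauto
      · have e := (h.eqv _ _ hv).2.1
        rw [e]
        have hn : q ∉ (σ d.1).ports := fun hc => op1_disj h hd (h.tail _ _ hc).1 hv
        have hn2 : q ≠ d := fun hc => hn (by rw [hc]; exact hd)
        tauto
  · rw [op_out σ hv]
    constructor
    · intro hq
      refine ⟨hq, ?_, ?_⟩
      · rintro rfl
        exact hv (Or.inl hmA)
      · intro hc
        apply hv
        right
        rw [hc]
        exact hmB
    · exact fun hq => hq.1

theorem op_WF0 (hG : G.IsTree) {σ : St V} (h : WF0 G σ) (d : V × V) : WF0 G (op σ d) := by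
  by_cases hdd : d ∈ (σ d.1).ports ∧ d.swap ∈ (σ d.2).ports
  swap
  · rw [op_of_not σ hdd]
    exact h
  obtain ⟨hd, hd'⟩ := hdd
  have hadj : G.Adj d.1 d.2 := (h.tail _ _ hd).2
  have heqv : ∀ v, ∀ u ∈ (op σ d v).comp,
      (op σ d u).comp = (op σ d v).comp ∧ (op σ d u).ports = (op σ d v).ports ∧
        (op σ d u).spec = (op σ d v).spec := by
    intro v u hu
    by_cases hv : inAB σ d v
    · by_cases hD : isDel σ d
      · rw [op_comp_del hd hd' hv hD] at hu
        have hu' : inAB σ d u := op1_AB h hu hv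
        obtain ⟨e1, e2, e3⟩ := h.eqv _ _ hu
        rw [op_del hd hd' hv hD.1 hD.2, op_del hd hd' hu' hD.1 hD.2]
        refine ⟨e1, ?_, ?_⟩
        · show ((σ u).ports.erase d).erase d.swap = ((σ v).ports.erase d).erase d.swap
          rw [e2]
        · show ((σ u).spec.erase d).erase d.swap = ((σ v).spec.erase d).erase d.swap
          rw [e3]
      · rw [op_comp_union hd hd' hv hD] at hu
        have hu' : inAB σ d u := Finset.mem_union.1 hu
        rw [op_comp_union hd hd' hv hD, op_comp_union hd hd' hu' hD,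
          op_ports_union hd hd' hv hD, op_ports_union hd hd' hu' hD]
        exact ⟨rfl, rfl, op_spec_union hd hd' hu' hv hD⟩
    · rw [op_out σ hv] at hu
      rw [op_out σ hv, op_out σ (op1_notAB h hu hv)]
      exact h.eqv _ _ hu
  have htail : ∀ v, ∀ p ∈ (op σ d v).ports, p.1 ∈ (op σ d v).comp ∧ G.Adj p.1 p.2 := by
    intro v p hp
    by_cases hv : inAB σ d v
    · by_cases hD : isDel σ d
      · rw [op_ports_del hd hd' hv hD] at hp
        rw [op_comp_del hd hd' hv hD]
        exact h.tail v p (Finset.mem_of_mem_erase (Finset.mem_of_mem_erase hp))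
      · rw [op_ports_union hd hd' hv hD] at hp
        rw [op_comp_union hd hd' hv hD]
        rcases Finset.mem_union.1 hp with h1 | h1
        · have := h.tail _ p (Finset.mem_of_mem_erase h1)
          exact ⟨Finset.mem_union_left _ this.1, this.2⟩
        · have := h.tail _ p (Finset.mem_of_mem_erase h1)
          exact ⟨Finset.mem_union_right _ this.1, this.2⟩
    · rw [op_out σ hv] at hp ⊢
      exact h.tail v p hp
  refine ⟨?_, heqv, htail, ?_, ?_, ?_⟩
  · intro v
    by_cases hv : inAB σ d v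
    · by_cases hD : isDel σ d
      · rw [op_comp_del hd hd' hv hD]
        exact h.mem v
      · rw [op_comp_union hd hd' hv hD]
        exact Finset.mem_union.2 hv
    · rw [op_out σ hv]
      exact h.mem v
  · intro v p hp
    have h1 : p ∈ (op σ d p.1).ports := by
      rw [(heqv v p.1 (htail v p hp).1).2.1]
      exact hp
    rw [op_alive' h hd] at h1
    have h2 : p.swap ∈ (σ p.2).ports := h.swap _ _ h1.1
    have h3 : p.swap ∈ (op σ d p.swap.1).ports := by
      rw [op_alive' h hd]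
      refine ⟨h2, ?_, ?_⟩
      · rintro rfl
        exact h1.2.2 (Prod.swap_swap _).symm
      · intro hc
        exact h1.2.1 (Prod.swap_injective hc)
    exact h3
  · intro v
    by_cases hv : inAB σ d v
    · by_cases hD : isDel σ d
      · rw [op_del hd hd' hv hD.1 hD.2]
        exact Finset.erase_subset_erase _ (Finset.erase_subset_erase _ (h.spec_sub v))
      · rw [op_ports_union hd hd' hv hD]
        exact op_spec_sub_union h hd hd' hv hD
    · rw [op_out σ hv]
      exact h.spec_sub v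
  · intro p hp v x hx
    rw [op_alive' h hd] at hp
    by_cases hv : inAB σ d v
    · by_cases hD : isDel σ d
      · rw [op_comp_del hd hd' hv hD] at hx
        exact h.sep p hp.1 v x hx
      · rw [op_comp_union hd hd' hv hD] at hx
        have hx' : inAB σ d x := Finset.mem_union.1 hx
        have hpadj : G.Adj p.1 p.2 := (h.tail _ _ hp.1).2
        have hmid : side G p d.1 ↔ side G p d.2 :=
          op1_side_adj hG hpadj hadj (fun hc => hp.2.1 hc.symm) (fun hc => hp.2.2 hc.symm)
        have key : ∀ y, inAB σ d y → (side G p y ↔ side G p d.1) := by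
          rintro y (hy | hy)
          · exact h.sep p hp.1 d.1 y hy
          · exact (h.sep p hp.1 d.2 y hy).trans hmid.symm
        exact (key x hx').trans (key v hv).symm
    · rw [op_out σ hv] at hx
      exact h.sep p hp.1 v x hx

theorem op_alive (hG : G.IsTree) {σ : St V} (h : WF0 G σ) {d : V × V} (hd : alive σ d) (q : V × V) :
    alive (op σ d) q ↔ alive σ q ∧ q ≠ d ∧ q ≠ d.swap :=
  op_alive' h hd q

theorem op1_other_mem {S : Finset (V × V)} {d : V × V} (hd : d ∈ S) : other S d ∈ S := by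
  unfold other
  split_ifs with hex
  · exact hex.exists.choose_spec.1
  · exact hd

theorem op_Dec {σ : St V} (h : WF0 G σ) (d : V × V) {v w : V} (hd : Dec σ v w) :
    Dec (op σ d) v w := by
  by_cases hdd : d ∈ (σ d.1).ports ∧ d.swap ∈ (σ d.2).ports
  swap
  · rw [op_of_not σ hdd]
    exact hd
  obtain ⟨hd1, hd2⟩ := hdd
  by_cases hv : inAB σ d v
  swap
  · intro p hp
    rw [op_out σ hv] at hp ⊢
    exact hd p hp
  by_cases hD : isDel σ d
  · intro p hp
    rw [op_del hd1 hd2 hv hD.1 hD.2] at hp ⊢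
    exact hd p (Finset.mem_of_mem_erase (Finset.mem_of_mem_erase hp))
  intro p hp
  rw [op_ports_union hd1 hd2 hv hD] at hp
  have hA : v ∈ (σ d.1).comp → ∀ q ∈ (σ d.1).ports, (σ v).M q = w := by
    intro hvA q hq
    apply hd
    rw [(h.eqv _ _ hvA).2.1]
    exact hq
  have hB : v ∈ (σ d.2).comp → ∀ q ∈ (σ d.2).ports, (σ v).M q = w := by
    intro hvB q hq
    apply hd
    rw [(h.eqv _ _ hvB).2.1]
    exact hq
  have hvB' : v ∉ (σ d.1).comp → v ∈ (σ d.2).comp := fun hn => hv.resolve_left hn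
  have hvA' : v ∉ (σ d.2).comp → v ∈ (σ d.1).comp := fun hn => hv.resolve_right hn
  have hp1 : p ∉ (σ d.2).ports → p ∈ (σ d.1).ports := by
    intro hn
    rcases Finset.mem_union.1 hp with h1 | h1
    · exact Finset.mem_of_mem_erase h1
    · exact absurd (Finset.mem_of_mem_erase h1) hn
  have hp2 : p ∉ (σ d.1).ports → p ∈ (σ d.2).ports := by
    intro hn
    rcases Finset.mem_union.1 hp with h1 | h1
    · exact absurd (Finset.mem_of_mem_erase h1) hn
    · exact Finset.mem_of_mem_erase h1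
  by_cases hs : (d ∈ (σ d.1).spec ↔ d.swap ∈ (σ d.2).spec)
  · have hc : ¬ (3 ≤ (σ d.1).ports.card ∧ 3 ≤ (σ d.2).ports.card) := fun hc => hD ⟨hs, hc⟩
    by_cases hB2 : (σ d.2).ports.card = 2
    · rw [op_absB hd1 hd2 hv hs hc hB2]
      show (if v ∈ (σ d.1).comp then
            (if p ∈ (σ d.2).ports then (σ v).M d else (σ v).M p)
          else
            (if p ∈ (σ d.1).ports then (σ v).M (other (σ d.2).ports d.swap)
              else (σ v).M d.swap)) = w
      split_ifs with h1 h2 h2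
      · exact hA h1 _ hd1
      · exact hA h1 _ (hp1 h2)
      · exact hB (hvB' h1) _ (op1_other_mem hd2)
      · exact hB (hvB' h1) _ hd2
    · rw [op_absA hd1 hd2 hv hs hc hB2]
      show (if v ∈ (σ d.2).comp then
            (if p ∈ (σ d.1).ports then (σ v).M d.swap else (σ v).M p)
          else
            (if p ∈ (σ d.2).ports then (σ v).M (other (σ d.1).ports d)
              else (σ v).M d)) = w
      split_ifs with h1 h2 h2
      · exact hB h1 _ hd2
      · exact hB h1 _ (hp2 h2)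
      · exact hA (hvA' h1) _ (op1_other_mem hd1)
      · exact hA (hvA' h1) _ hd1
  · rw [op_mrg hd1 hd2 hv hs]
    show (if v ∈ (σ d.1).comp then
            (if p ∈ (σ d.2).ports then (σ v).M d else (σ v).M p)
          else
            (if p ∈ (σ d.1).ports then (σ v).M d.swap else (σ v).M p)) = w
    split_ifs with h1 h2 h2
    · exact hA h1 _ hd1
    · exact hA h1 _ (hp1 h2)
    · exact hB (hvB' h1) _ hd2
    · exact hB (hvB' h1) _ (hp2 h2)

/-! ### `hot`, `chill` -/

theorem opd_swap (O : Set (V × V)) (d : V × V) : opd O d.swap ↔ opd O d := by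
  unfold opd
  rw [Prod.swap_swap]
  exact Or.comm

theorem hot_swap {σ : St V} (O : Set (V × V)) (d : V × V) : hot O σ d.swap ↔ hot O σ d := by
  unfold hot
  rw [opd_swap, Prod.swap_swap, Prod.fst_swap, Prod.snd_swap]
  tauto

theorem chill_mem {σ : St V} (O : Set (V × V)) (v : V) (r : V × V) :
    r ∈ (chill O σ v).ports ↔ r ∈ (σ v).ports ∧ (opd O r → hot O σ r) :=
  Finset.mem_filter

theorem chill_WF0 (hG : G.IsTree) {σ : St V} (h : WF0 G σ) (O : Set (V × V)) :
    WF0 G (chill O σ) := by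
  refine ⟨fun v => h.mem v, ?_, ?_, ?_, ?_, ?_⟩
  · intro v u hu
    obtain ⟨e1, e2, e3⟩ := h.eqv v u hu
    refine ⟨e1, ?_, ?_⟩
    · show (σ u).ports.filter _ = (σ v).ports.filter _
      rw [e2]
    · show (σ u).spec.filter _ = (σ v).spec.filter _
      rw [e3]
  · intro v p hp
    exact h.tail v p ((chill_mem O v p).1 hp).1
  · intro v p hp
    have h1 := (chill_mem O v p).1 hp
    rw [chill_mem]
    refine ⟨h.swap v p h1.1, ?_⟩
    rw [opd_swap, hot_swap]
    exact h1.2
  · intro v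
    exact Finset.filter_subset_filter _ (h.spec_sub v)
  · intro p hp v x hx
    exact h.sep p ((chill_mem O p.1 p).1 hp).1 v x hx

/-! ### the initial state -/

theorem op1_finite (Δ : ℕ) (hreg : ∀ v : V, (G.neighborSet v).encard = ((Δ : ℕ) : ℕ∞)) (v : V) :
    (G.neighborSet v).Finite := by
  apply Set.finite_of_encard_eq_coe (hreg v)

theorem op1_mem_nb (Δ : ℕ) (hreg : ∀ v : V, (G.neighborSet v).encard = ((Δ : ℕ) : ℕ∞))
    (v u : V) : u ∈ nb G v ↔ G.Adj v u := by
  unfold nb
  rw [dif_pos (op1_finite Δ hreg v), Set.Finite.mem_toFinset]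
  exact SimpleGraph.mem_neighborSet _ _ _

theorem op1_card_nb (Δ : ℕ) (hreg : ∀ v : V, (G.neighborSet v).encard = ((Δ : ℕ) : ℕ∞))
    (v : V) : (nb G v).card = Δ := by
  unfold nb
  rw [dif_pos (op1_finite Δ hreg v)]
  have h1 := hreg v
  rw [Set.Finite.encard_eq_coe_toFinset_card (op1_finite Δ hreg v)] at h1
  exact_mod_cast h1

theorem init_ports (Δ : ℕ) (hreg : ∀ v : V, (G.neighborSet v).encard = ((Δ : ℕ) : ℕ∞))
    (v : V) (p : V × V) : p ∈ (init G v).ports ↔ p.1 = v ∧ G.Adj p.1 p.2 := by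
  show p ∈ (nb G v).image (fun u => (v, u)) ↔ _
  rw [Finset.mem_image]
  constructor
  · rintro ⟨u, hu, rfl⟩
    exact ⟨rfl, (op1_mem_nb Δ hreg v u).1 hu⟩
  · rintro ⟨h1, h2⟩
    refine ⟨p.2, (op1_mem_nb Δ hreg v _).2 (h1 ▸ h2), ?_⟩
    exact Prod.ext h1.symm rfl

theorem init_card (Δ : ℕ) (hreg : ∀ v : V, (G.neighborSet v).encard = ((Δ : ℕ) : ℕ∞))
    (v : V) : (init G v).ports.card = Δ := by
  show ((nb G v).image (fun u => (v, u))).card = Δ
  rw [Finset.card_image_of_injective _ (fun a b hab => congrArg Prod.snd hab),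
    op1_card_nb Δ hreg v]

theorem init_WF (hG : G.IsTree) (Δ : ℕ) (hΔ : 2 ≤ Δ)
    (hreg : ∀ v : V, (G.neighborSet v).encard = ((Δ : ℕ) : ℕ∞)) : WF G (init G) := by
  have hc : ∀ v x, x ∈ (init G v).comp ↔ x = v := fun v x => Finset.mem_singleton
  have hM : ∀ v p, (init G v).M p = p.2 := fun v p => rfl
  have hS : ∀ v (r : V × V), r ∉ (init G v).spec := fun v r => Finset.notMem_empty r
  refine { mem := ?_, eqv := ?_, tail := ?_, swap := ?_, spec_sub := ?_, sep := ?_,
           two := ?_, adj := ?_, out := ?_, inn := ?_, ded := ?_ }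
  · intro v
    exact (hc v v).2 rfl
  · intro v u hu
    rw [(hc v u).1 hu]
    exact ⟨rfl, rfl, rfl⟩
  · intro v p hp
    have h1 := (init_ports Δ hreg v p).1 hp
    exact ⟨(hc _ _).2 h1.1, h1.2⟩
  · intro v p hp
    have h1 := (init_ports Δ hreg v p).1 hp
    exact (init_ports Δ hreg p.2 p.swap).2 ⟨rfl, h1.2.symm⟩
  · intro v r hr
    exact absurd hr (hS v r)
  · intro p hp v x hx
    rw [(hc v x).1 hx]
  · intro v
    rw [init_card Δ hreg v]
    exact hΔ
  · intro v p hp
    have h1 := (init_ports Δ hreg v p).1 hp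
    rw [hM, ← h1.1]
    exact h1.2
  · intro v r hr hrv p hp
    have h1 := (init_ports Δ hreg v p).1 hp
    rw [hM]
    unfold val
    constructor
    · intro he
      left
      exact ⟨Prod.ext (hrv.trans h1.1.symm) he.symm, hS v r⟩
    · rintro (h2 | h2)
      · rw [h2.1]
      · exact absurd h2.2 (hS v r)
  · intro v p hp hw
    have h1 := (init_ports Δ hreg v p).1 hp
    rw [hM] at hw
    have h2 := (hc v _).1 hw
    have h3 := h1.2
    rw [h1.1, h2] at h3
    exact absurd h3 (G.loopless.irrefl v)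
  · intro v p hp hw hvw
    exfalso
    have h1 := (init_ports Δ hreg v p).1 hp
    apply hvw
    rw [hM]
    have : (v, p.2) = p := Prod.ext h1.1.symm rfl
    rw [this]
    exact hp

end Pool.Agent.PM
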