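import Pool.Agent.Lib.MP_947a32_pr.Equi
import Pool.Agent.Lib.MP_947a32_pr.Meas
import Pool.Agent.Lib.MP_947a32_pr.Halve1
import Pool.Agent.Lib.MP_947a32_pr.Halve2
import Pool.Agent.Lib.MP_947a32_pr.LawB
import Pool.Agent.Lib.MP_947a32_pr.Nice
import Pool.Agent.Lib.MP_947a32_pr.RfxA
import Pool.Agent.Lib.MP_947a32_pr.Op1
import Pool.Agent.Lib.MP_947a32_pr.Defs2

/-! # HALVE3 (helper66): halving stages, almost sure statements -/

set_option autoImplicit false

open Classical MeasureTheory
open scoped ENNReal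

namespace Pool.Agent.PM

variable {V : Type} {G : SimpleGraph V}


/-! ### elementary facts on `nx` and `wk` -/

theorem h3_nx_some {b : Bool} {r : V × V → ℝ} {σ : St V} {d g : V × V}
    (h : nx b r σ d = some g) : Mate b r (σ d.2).ports d.swap g ∧
      ∀ g', Mate b r (σ d.2).ports d.swap g' → g' = g := by
  unfold nx at h
  split_ifs at h with hx
  have h1 := hx.choose_spec
  have h2 : hx.exists.choose = g := Option.some.inj h
  have h3 := hx.exists.choose_spec
  rw [h2] at h3
  exact ⟨h3, fun g' hg' => hx.unique hg' h3⟩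

theorem h3_nx_eq {b : Bool} {r : V × V → ℝ} {σ : St V} {d g : V × V} :
    nx b r σ d = some g ↔ Mate b r (σ d.2).ports d.swap g ∧
      ∀ g', Mate b r (σ d.2).ports d.swap g' → g' = g := by
  constructor
  · exact h3_nx_some
  · rintro ⟨h1, h2⟩
    have hx : ∃! g, Mate b r (σ d.2).ports d.swap g := ⟨g, h1, h2⟩
    unfold nx
    rw [dif_pos hx]
    exact congrArg some (h2 _ hx.exists.choose_spec)

theorem h3_mate_ne {b : Bool} {r : V × V → ℝ} {P : Finset (V × V)} {d g : V × V}
    (h : Mate b r P d g) : g ≠ d := by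
  obtain ⟨_, _, j, _, h4⟩ := h
  rintro rfl
  omega

theorem h3_nx_onw {b : Bool} {r : V × V → ℝ} {σ : St V} {d g : V × V}
    (h : nx b r σ d = some g) : g ∈ onw σ d := by
  have h1 := (h3_nx_some h).1
  unfold onw
  exact Finset.mem_erase.2 ⟨h3_mate_ne h1, h1.2.1⟩

theorem h3_wk_succ (b : Bool) (r : V × V → ℝ) (σ : St V) (n : ℕ) (d : V × V) :
    wk b r σ (n + 1) d = (nx b r σ d).bind (wk b r σ n) := by
  induction n with
  | zero =>
    show nx b r σ d = (nx b r σ d).bind some
    cases nx b r σ d <;> rfl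
  | succ n ih =>
    show (wk b r σ (n + 1) d).bind (nx b r σ) = _
    rw [ih, Option.bind_assoc]
    rfl

theorem h3_wk_ne {b : Bool} {r : V × V → ℝ} {σ : St V} {n : ℕ} {d : V × V} :
    wk b r σ (n + 1) d ≠ none ↔ ∃ p ∈ onw σ d, nx b r σ d = some p ∧ wk b r σ n p ≠ none := by
  rw [h3_wk_succ]
  constructor
  · intro h
    cases hx : nx b r σ d with
    | none => rw [hx] at h; exact absurd rfl h
    | some g =>
      rw [hx] at h
      exact ⟨g, h3_nx_onw hx, rfl, h⟩
  · rintro ⟨p, _, hp, hw⟩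
    rw [hp]
    exact hw

theorem h3_wk_sum (b : Bool) (r : V × V → ℝ) (σ : St V) (n : ℕ) (d : V × V) :
    ind (wk b r σ (n + 1) d ≠ none) =
      ∑ p ∈ onw σ d, ind (nx b r σ d = some p) * ind (wk b r σ n p ≠ none) := by
  cases hx : nx b r σ d with
  | none =>
    have h1 : ¬ (wk b r σ (n + 1) d ≠ none) := by
      rw [h3_wk_succ, hx]; simp
    rw [ind, if_neg h1]
    symm
    apply Finset.sum_eq_zero
    intro p _
    rw [ind, if_neg (by simp), zero_mul]
  | some g =>
    have hg := h3_nx_onw hx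
    rw [Finset.sum_eq_single_of_mem g hg]
    · rw [h3_wk_succ, hx]
      simp [ind]
    · intro p _ hp
      have : ¬ (some g = some p) := fun h => hp (Option.some.inj h).symm
      rw [ind, if_neg this, zero_mul]

/-! ### measurability -/

theorem h3_meas_rk (P : Finset (V × V)) (d : V × V) :
    Measurable (fun x : XX G => rk (lab x.2 2) P d) := by
  have h1 : (fun x : XX G => rk (lab x.2 2) P d) =
      fun x : XX G => ∑ q ∈ P, if lab x.2 2 q < lab x.2 2 d then 1 else 0 := by
    funext x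
    unfold rk
    rw [Finset.card_filter]
  rw [h1]
  apply Finset.measurable_sum
  intro q _
  apply Measurable.ite _ measurable_const measurable_const
  exact measurableSet_lt ((meas_lab 2 q).comp measurable_snd) ((meas_lab 2 d).comp measurable_snd)

theorem h3_meas_mate0 (b : Bool) (P : Finset (V × V)) (d g : V × V) :
    MeasurableSet {x : XX G | Mate b (lab x.2 2) P d g} := by
  have h1 : {x : XX G | Mate b (lab x.2 2) P d g} =
      (fun x : XX G => (rk (lab x.2 2) P d, rk (lab x.2 2) P g)) ⁻¹'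
        {z : ℕ × ℕ | d ∈ P ∧ g ∈ P ∧ ∃ j : ℕ, 2 * j + 1 < P.card - (if b then 1 else 0) ∧
          ((z.1 = 2 * j ∧ z.2 = 2 * j + 1) ∨ (z.2 = 2 * j ∧ z.1 = 2 * j + 1))} := by
    ext x
    rfl
  rw [h1]
  exact ((h3_meas_rk P d).prodMk (h3_meas_rk P g)) (MeasurableSet.of_discrete)

theorem h3_meas_mate [Countable V] (b : Bool) (v : V) (d g : V × V) :
    MeasurableSet {x : XX G | Mate b (lab x.2 2) (x.1 v).ports d g} := by
  have h1 : {x : XX G | Mate b (lab x.2 2) (x.1 v).ports d g} =
      ⋃ P : Finset (V × V), {x : XX G | (x.1 v).ports = P} ∩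
        {x : XX G | Mate b (lab x.2 2) P d g} := by
    ext x
    simp
  rw [h1]
  exact MeasurableSet.iUnion fun P =>
    (meas_ports measurable_fst v (fun Q => Q = P)).inter (h3_meas_mate0 b P d g)

theorem h3_meas_nx [Countable V] (b : Bool) (d g : V × V) :
    MeasurableSet {x : XX G | nx b (lab x.2 2) x.1 d = some g} := by
  have h1 : {x : XX G | nx b (lab x.2 2) x.1 d = some g} =
      {x : XX G | Mate b (lab x.2 2) (x.1 d.2).ports d.swap g} ∩
        ⋂ g' : V × V, ({x : XX G | Mate b (lab x.2 2) (x.1 d.2).ports d.swap g'}ᶜ ∪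
          {_x : XX G | g' = g}) := by
    ext x
    simp only [Set.mem_setOf_eq, Set.mem_inter_iff, Set.mem_iInter, Set.mem_union,
      Set.mem_compl_iff, h3_nx_eq]
    constructor
    · rintro ⟨h1, h2⟩
      refine ⟨h1, fun g' => ?_⟩
      by_cases h : Mate b (lab x.2 2) (x.1 d.2).ports d.swap g'
      · exact Or.inr (h2 g' h)
      · exact Or.inl h
    · rintro ⟨h1, h2⟩
      refine ⟨h1, fun g' hg' => ?_⟩
      rcases h2 g' with h | h
      · exact absurd hg' h
      · exact h
  rw [h1]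
  refine (h3_meas_mate b d.2 d.swap g).inter (MeasurableSet.iInter fun g' => ?_)
  exact ((h3_meas_mate b d.2 d.swap g').compl).union (MeasurableSet.const _)

theorem h3_meas_nx_none [Countable V] (b : Bool) (d : V × V) :
    MeasurableSet {x : XX G | nx b (lab x.2 2) x.1 d = none} := by
  have h1 : {x : XX G | nx b (lab x.2 2) x.1 d = none} =
      (⋃ g : V × V, {x : XX G | nx b (lab x.2 2) x.1 d = some g})ᶜ := by
    ext x
    simp only [Set.mem_setOf_eq, Set.mem_compl_iff, Set.mem_iUnion, not_exists]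
    cases nx b (lab x.2 2) x.1 d <;> simp
  rw [h1]
  exact (MeasurableSet.iUnion fun g => h3_meas_nx b d g).compl

theorem h3_measurable_ind {X : Type*} [MeasurableSpace X] {P : X → Prop}
    (h : MeasurableSet {x | P x}) : Measurable (fun x => ind (P x)) := by
  unfold ind
  exact Measurable.ite h measurable_const measurable_const

/-! ### locality -/

theorem h3_rk_congr {r r' : V × V → ℝ} {P : Finset (V × V)} {d : V × V} (hd : d ∈ P)
    (h : ∀ q ∈ P, r q = r' q) : rk r P d = rk r' P d := by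
  unfold rk
  congr 1
  apply Finset.filter_congr
  intro q hq
  rw [h q hq, h d hd]

theorem h3_mate_congr {b : Bool} {r r' : V × V → ℝ} {P : Finset (V × V)} {d g : V × V}
    (h : ∀ q ∈ P, r q = r' q) : Mate b r P d g ↔ Mate b r' P d g := by
  unfold Mate
  constructor
  · rintro ⟨h1, h2, h3⟩
    rw [h3_rk_congr h1 h, h3_rk_congr h2 h] at h3
    exact ⟨h1, h2, h3⟩
  · rintro ⟨h1, h2, h3⟩
    rw [← h3_rk_congr h1 h, ← h3_rk_congr h2 h] at h3
    exact ⟨h1, h2, h3⟩

theorem h3_nx_congr {b : Bool} {r r' : V × V → ℝ} {σ σ' : St V} {d : V × V}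
    (hP : (σ d.2).ports = (σ' d.2).ports) (h : ∀ q ∈ (σ d.2).ports, r q = r' q) :
    nx b r σ d = nx b r' σ' d := by
  have key : ∀ g, Mate b r (σ d.2).ports d.swap g ↔ Mate b r' (σ' d.2).ports d.swap g := by
    intro g
    rw [← hP]
    exact h3_mate_congr h
  cases hx : nx b r' σ' d with
  | some g =>
    rw [h3_nx_eq] at hx ⊢
    exact ⟨(key g).2 hx.1, fun g' hg' => hx.2 g' ((key g').1 hg')⟩
  | none =>
    cases hy : nx b r σ d with
    | none => rfl
    | some g =>
      exfalso
      rw [h3_nx_eq] at hy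
      have : nx b r' σ' d = some g :=
        h3_nx_eq.2 ⟨(key g).1 hy.1, fun g' hg' => hy.2 g' ((key g').2 hg')⟩
      rw [hx] at this
      exact absurd this (by simp)

/-- all ports of the comp of `v` start on the tail side of `p`, if `v` is there -/
theorem h3_port_side {σ : St V} (h : WF0 G σ) {p : V × V} (hp : alive σ p) {v : V}
    (hv : side G p v) {q : V × V} (hq : q ∈ (σ v).ports) : side G p q.1 :=
  (h.sep p hp v q.1 (h.tail v q hq).1).2 hv

theorem h3_lab_eq {x y : XX G} {p : V × V} (hA : Agr G p x y) {i : Fin 3} {q : V × V}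
    (hq : side G p q.1) : lab x.2 i q = lab y.2 i q := by
  unfold lab
  split_ifs with h
  · exact hA.2 ⟨q, h⟩ i hq
  · rfl

theorem h3_Tl_nx [Countable V] (b : Bool) :
    Tl (G := G) (fun x e p => ind (nx b (lab x.2 2) x.1 e = some p)) := by
  refine ⟨fun e p => h3_measurable_ind (h3_meas_nx b e p), ?_⟩
  intro e p he x y hx hy hex hey hpx hpy hA
  have hpx' : p ∈ (x.1 e.2).ports := (Finset.mem_erase.1 hpx).2
  have ht := hx.tail e.2 p hpx'
  have hal : alive x.1 p := by
    have := (hx.eqv e.2 p.1 ht.1).2.1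
    unfold alive
    rw [this]
    exact hpx'
  have hs : side G p e.2 := (hx.sep p hal e.2 p.1 ht.1).1 (side_fst ht.2)
  have hxy : x.1 e.2 = y.1 e.2 := hA.1 e.2 hs
  have : nx b (lab x.2 2) x.1 e = nx b (lab y.2 2) y.1 e :=
    h3_nx_congr (by rw [hxy]) fun q hq => h3_lab_eq hA (h3_port_side hx hal hs hq)
  simp only [this]

theorem h3_nx_loc {b : Bool} {x y : XX G} {e : V × V} (he : G.Adj e.1 e.2)
    (hx : WF0 G x.1) (ha : alive x.1 e.swap) (hA : Agr G e.swap x y) :
    nx b (lab x.2 2) x.1 e = nx b (lab y.2 2) y.1 e := by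
  have hs : side G e.swap e.2 := side_fst (p := e.swap) he.symm
  have hxy : x.1 e.2 = y.1 e.2 := hA.1 e.2 hs
  exact h3_nx_congr (by rw [hxy]) fun q hq => h3_lab_eq hA (h3_port_side hx ha hs hq)

theorem h3_nx_equ (b : Bool) (φ : G ≃g G) (x : XX G) (e : V × V) :
    nx b (lab (XX.map φ x).2 2) (XX.map φ x).1 (mp φ.toEquiv e) =
      (nx b (lab x.2 2) x.1 e).map (mp φ.toEquiv) := by
  show nx b (lab (Lb.map φ x.2) 2) (St.map φ.toEquiv x.1) (mp φ.toEquiv e) = _
  rw [lab_map, nx_map]

theorem h3_mp_inj (φ : V ≃ V) {p q : V × V} (h : mp φ p = mp φ q) : p = q := by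
  have h1 : φ p.1 = φ q.1 := congrArg Prod.fst h
  have h2 : φ p.2 = φ q.2 := congrArg Prod.snd h
  exact Prod.ext (φ.injective h1) (φ.injective h2)

theorem h3_Md_nx [Countable V] (b : Bool) :
    Md (G := G) (fun x e p => ind (nx b (lab x.2 2) x.1 e = some p)) := by
  refine ⟨fun e p => h3_measurable_ind (h3_meas_nx b e p), ?_, ?_⟩
  · intro e p he x y hx hy hex hey hpx hA
    simp only [h3_nx_loc he hx hex hA]
  · intro φ x e p
    simp only [h3_nx_equ]
    congr 1
    apply propext
    rw [Option.map_eq_some_iff]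
    constructor
    · rintro ⟨q, hq, hqp⟩
      rw [hq, h3_mp_inj _ hqp]
    · intro h
      exact ⟨p, h, rfl⟩

theorem h3_HP_none [Countable V] (b : Bool) :
    HP (G := G) (fun x e => nx b (lab x.2 2) x.1 e = none) := by
  refine ⟨fun e => h3_meas_nx_none b e, ?_, ?_⟩
  · intro e he x y hx hy hex hey hA
    rw [h3_nx_loc he hx hex hA]
  · intro φ x e
    rw [h3_nx_equ, Option.map_eq_none_iff]

theorem h3_Hd_wk [Countable V] (hT : G.IsTree) (b : Bool) (n : ℕ) :
    Hd (G := G) (fun x e => ind (wk b (lab x.2 2) x.1 n e ≠ none)) := by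
  induction n with
  | zero =>
    have : (fun (x : XX G) (e : V × V) => ind (wk b (lab x.2 2) x.1 0 e ≠ none)) =
        fun _ _ => 1 := by
      funext x e
      rw [ind, if_pos]
      simp [wk]
    rw [this]
    exact Hd_const 1
  | succ n ih =>
    have : (fun (x : XX G) (e : V × V) => ind (wk b (lab x.2 2) x.1 (n + 1) e ≠ none)) =
        fun x e => ∑ p ∈ onw x.1 e, ind (nx b (lab x.2 2) x.1 e = some p) *
          ind (wk b (lab x.2 2) x.1 n p ≠ none) := by
      funext x e
      exact h3_wk_sum b _ _ n e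
    rw [this]
    exact Hd_sum hT (h3_Md_nx b) ih

/-! ### the top port -/

theorem h3_top {r : V × V → ℝ} {P : Finset (V × V)} (hP : P.Nonempty)
    (hr : ∀ d ∈ P, ∀ d' ∈ P, r d = r d' → d = d') : ∃ d ∈ P, rk r P d = P.card - 1 := by
  obtain ⟨d, hd, hmax⟩ := P.exists_max_image r hP
  refine ⟨d, hd, ?_⟩
  have : P.filter (fun q => r q < r d) = P.erase d := by
    ext q
    rw [Finset.mem_filter, Finset.mem_erase]
    constructor
    · rintro ⟨h1, h2⟩
      refine ⟨?_, h1⟩
      rintro rfl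
      exact lt_irrefl _ h2
    · rintro ⟨h1, h2⟩
      exact ⟨h2, lt_of_le_of_ne (hmax q h2) fun h => h1 (hr q h2 d hd h)⟩
  unfold rk
  rw [this, Finset.card_erase_of_mem hd]

theorem h3_top_none {b : Bool} {r : V × V → ℝ} {σ : St V} {d : V × V}
    (hd : rk r (σ d.2).ports d.swap = (σ d.2).ports.card - 1)
    (hb : b = true ∨ Odd (σ d.2).ports.card) : nx b r σ d = none := by
  cases hx : nx b r σ d with
  | none => rfl
  | some g =>
    exfalso
    obtain ⟨_, _, j, hj, hcase⟩ := (h3_nx_some hx).1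
    rw [hd] at hcase
    rcases hb with rfl | ⟨m, hm⟩
    · simp only [if_true] at hj
      omega
    · cases b
      · simp only [Bool.false_eq_true, if_false] at hj
        omega
      · simp only [if_true] at hj
        omega

section AS

variable {μ : Measure (St V)}

theorem h3_ae_fst {P : St V → Prop} (h : ∀ᵐ σ ∂μ, P σ) : ∀ᵐ x ∂(μ.prod (lam G)), P x.1 :=
  Measure.quasiMeasurePreserving_fst.ae h

theorem h3_meas_fst [IsProbabilityMeasure μ] (S : Set (St V)) :
    (μ.prod (lam G)) (Prod.fst ⁻¹' S) = μ S := by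
  have : (Prod.fst ⁻¹' S : Set (XX G)) = S ×ˢ Set.univ := by
    ext x; simp
  rw [this, Measure.prod_prod, measure_univ, mul_one]


theorem h3_exists_top {Δ : ℕ} (hT : Std G Δ) (hL : Law G μ) (b : Bool) (v0 : V)
    (hs : ∀ᵐ σ ∂μ, Sing σ) (hk : ∀ᵐ σ ∂μ, ∀ v, 6 ≤ (σ v).ports.card)
    (hb : b = true ∨ OddPos μ v0) :
    ∃ p : V × V, p.1 = v0 ∧ G.Adj p.1 p.2 ∧
      (μ.prod (lam G)) {x | p ∈ (x.1 v0).ports ∧ nx b (lab x.2 2) x.1 p.swap = none} ≠ 0 := by
  haveI := countable_V hT.tree Δ hT.reg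
  haveI := hL.prob
  by_contra hcon
  push Not at hcon
  have h1 : ∀ᵐ x ∂(μ.prod (lam G)), ∀ p : V × V, p.1 = v0 → G.Adj p.1 p.2 →
      ¬ (p ∈ (x.1 v0).ports ∧ nx b (lab x.2 2) x.1 p.swap = none) := by
    rw [ae_all_iff]
    intro p
    by_cases hp : p.1 = v0 ∧ G.Adj p.1 p.2
    · have := hcon p hp.1 hp.2
      rw [ae_iff]
      apply measure_mono_null _ this
      intro x hx
      by_contra hx2
      exact hx fun _ _ h3 => hx2 h3
    · refine Filter.Eventually.of_forall fun x h2 h3 => absurd ⟨h2, h3⟩ hp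
  have h2 : ∀ᵐ x ∂(μ.prod (lam G)), ¬ (b = true ∨ Odd (x.1 v0).ports.card) := by
    filter_upwards [h1, h3_ae_fst hs, h3_ae_fst hk, h3_ae_fst hL.wf, ae_Gen (μ := μ) (G := G) 0]
      with x hx1 hx2 hx3 hx4 hx5 hodd
    have hne : (x.1 v0).ports.Nonempty := by
      rw [← Finset.card_pos]
      have := hx3 v0
      omega
    have hinj : ∀ d ∈ (x.1 v0).ports, ∀ d' ∈ (x.1 v0).ports,
        lab x.2 2 d = lab x.2 2 d' → d = d' := by
      intro d hd d' hd' h
      exact TI_of_Gen hx5 2 d d' (hx4.tail v0 d hd).2 (hx4.tail v0 d' hd').2 h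
    obtain ⟨p, hp, hrk⟩ := h3_top hne hinj
    have ht := hx4.tail v0 p hp
    have hpv : p.1 = v0 := by
      have := ht.1
      rw [(hx2 v0).1] at this
      exact Finset.mem_singleton.1 this
    refine hx1 p hpv ht.2 ⟨hp, ?_⟩
    apply h3_top_none
    · show rk (lab x.2 2) (x.1 p.1).ports p = (x.1 p.1).ports.card - 1
      rw [hpv]
      exact hrk
    · show b = true ∨ Odd (x.1 p.1).ports.card
      rw [hpv]
      exact hodd
  rcases hb with rfl | ⟨m, hm, hpos⟩
  · have h3 : ∀ᵐ x ∂(μ.prod (lam G)), False := by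
      filter_upwards [h2] with x hx
      exact hx (Or.inl rfl)
    have h4 : (μ.prod (lam G)) Set.univ = 0 := by
      have := ae_iff.1 h3
      simpa using this
    rw [measure_univ] at h4
    exact one_ne_zero h4
  · apply hpos
    rw [← h3_meas_fst (G := G) (μ := μ)]
    apply measure_mono_null _ (ae_iff.1 h2)
    intro x hx
    show ¬ ¬ _
    rw [not_not]
    right
    have hx' : (x.1 v0).ports.card = m := hx
    rw [hx']
    exact hm

theorem h3_none_pos {Δ : ℕ} (hT : Std G Δ) (hL : Law G μ) (b : Bool) (v0 : V)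
    (hs : ∀ᵐ σ ∂μ, Sing σ) (hk : ∀ᵐ σ ∂μ, ∀ v, 6 ≤ (σ v).ports.card)
    (hb : b = true ∨ OddPos μ v0) {e : V × V} (he : G.Adj e.1 e.2) :
    br (G := G) μ e (fun x e => ind (nx b (lab x.2 2) x.1 e = none)) ≠ 0 := by
  haveI := countable_V hT.tree Δ hT.reg
  haveI := hL.prob
  obtain ⟨p, hp1, hp2, hp3⟩ := h3_exists_top hT hL b v0 hs hk hb
  have hp2' : G.Adj p.swap.1 p.swap.2 := hp2.symm
  rw [br_eq hT hL (h3_HP_none b).ind he hp2']
  unfold br EE
  rw [Ne, ENNReal.div_eq_zero_iff, not_or]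
  refine ⟨?_, measure_ne_top _ _⟩
  intro h0
  apply hp3
  have hmeas : Measurable (fun x : XX G => ind (alive x.1 p.swap) *
      ind (nx b (lab x.2 2) x.1 p.swap = none)) := by
    apply Measurable.mul
    · exact h3_measurable_ind (meas_ports measurable_fst p.swap.1 (fun Q => p.swap ∈ Q))
    · exact h3_measurable_ind (h3_meas_nx_none b p.swap)
  rw [lintegral_eq_zero_iff hmeas] at h0
  have h1 : ∀ᵐ x ∂(μ.prod (lam G)),
      ¬ (p ∈ (x.1 v0).ports ∧ nx b (lab x.2 2) x.1 p.swap = none) := by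
    filter_upwards [h0, h3_ae_fst hL.wf] with x hx1 hx2 hx3
    have hal : alive x.1 p.swap := hx2.swap v0 p hx3.1
    have hx1' : ind (alive x.1 p.swap) * ind (nx b (lab x.2 2) x.1 p.swap = none) = 0 := hx1
    rw [ind, if_pos hal, ind, if_pos hx3.2, one_mul] at hx1'
    exact one_ne_zero hx1'
  apply measure_mono_null _ (ae_iff.1 h1)
  intro x hx
  show ¬ ¬ _
  rw [not_not]
  exact hx

/-! ### the paths stop almost surely -/

theorem h3_wk_one (b : Bool) (r : V × V → ℝ) (σ : St V) (e : V × V) :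
    wk b r σ 1 e = nx b r σ e := rfl

theorem h3_sum_nx (b : Bool) (r : V × V → ℝ) (σ : St V) (e : V × V) :
    ∑ p ∈ onw σ e, ind (nx b r σ e = some p) = ind (wk b r σ 1 e ≠ none) := by
  rw [h3_wk_sum b r σ 0 e]
  apply Finset.sum_congr rfl
  intro p _
  have : ind (wk b r σ 0 p ≠ none) = 1 := by
    rw [ind, if_pos]
    simp [wk]
  rw [this, mul_one]

theorem h3_pi_succ {Δ : ℕ} (hT : Std G Δ) (hL : Law G μ) (b : Bool) {e : V × V}
    (he : G.Adj e.1 e.2) (n : ℕ) :
    br (G := G) μ e (fun x e => ind (wk b (lab x.2 2) x.1 (n + 1) e ≠ none)) =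
      br (G := G) μ e (fun x e => ind (wk b (lab x.2 2) x.1 1 e ≠ none)) *
        br (G := G) μ e (fun x e => ind (wk b (lab x.2 2) x.1 n e ≠ none)) := by
  have := countable_V hT.tree Δ hT.reg
  have h1 := factsum hT hL (h3_Tl_nx (G := G) b) (h3_Hd_wk hT.tree b n) he
  have h2 : br (G := G) μ e (fun x e => ind (wk b (lab x.2 2) x.1 (n + 1) e ≠ none)) =
      EE μ e (fun x : XX G => ∑ p ∈ onw x.1 e, ind (nx b (lab x.2 2) x.1 e = some p) *
        ind (wk b (lab x.2 2) x.1 n p ≠ none)) := by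
    unfold br
    congr 1
    funext x
    exact h3_wk_sum b _ _ n e
  have h3 : EE μ e (fun x : XX G => ∑ p ∈ onw x.1 e, ind (nx b (lab x.2 2) x.1 e = some p)) =
      br (G := G) μ e (fun x e => ind (wk b (lab x.2 2) x.1 1 e ≠ none)) := by
    unfold br
    congr 1
    funext x
    exact h3_sum_nx b _ _ e
  rw [h2, h1, h3]

theorem h3_pi_pow {Δ : ℕ} (hT : Std G Δ) (hL : Law G μ) (b : Bool) {e : V × V}
    (he : G.Adj e.1 e.2) (n : ℕ) :
    br (G := G) μ e (fun x e => ind (wk b (lab x.2 2) x.1 n e ≠ none)) =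
      br (G := G) μ e (fun x e => ind (wk b (lab x.2 2) x.1 1 e ≠ none)) ^ n := by
  induction n with
  | zero =>
    rw [pow_zero]
    have : (fun (x : XX G) (e : V × V) => ind (wk b (lab x.2 2) x.1 0 e ≠ none)) =
        fun _ _ => 1 := by
      funext x e
      rw [ind, if_pos]
      simp [wk]
    rw [this]
    exact EE_const hL he 1
  | succ n ih => rw [h3_pi_succ hT hL b he n, ih, pow_succ, mul_comm]

theorem h3_pi_one {Δ : ℕ} (hT : Std G Δ) (hL : Law G μ) (b : Bool) {e : V × V}
    (he : G.Adj e.1 e.2) :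
    br (G := G) μ e (fun x e => ind (wk b (lab x.2 2) x.1 1 e ≠ none)) +
      br (G := G) μ e (fun x e => ind (nx b (lab x.2 2) x.1 e = none)) = 1 := by
  have := countable_V hT.tree Δ hT.reg
  unfold br
  rw [← EE_add ((h3_Hd_wk hT.tree b 1).meas e)]
  have : (fun x : XX G => ind (wk b (lab x.2 2) x.1 1 e ≠ none) +
      ind (nx b (lab x.2 2) x.1 e = none)) = fun _ => 1 := by
    funext x
    rw [h3_wk_one]
    unfold ind
    by_cases h : nx b (lab x.2 2) x.1 e = none
    · rw [if_neg (by rw [not_not]; exact h), if_pos h, zero_add]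
    · rw [if_pos h, if_neg h, add_zero]
  rw [this]
  exact EE_const hL he 1

theorem h3_stop_ae {Δ : ℕ} (hT : Std G Δ) (hL : Law G μ) (b : Bool) (v0 : V)
    (hs : ∀ᵐ σ ∂μ, Sing σ) (hk : ∀ᵐ σ ∂μ, ∀ v, 6 ≤ (σ v).ports.card)
    (hb : b = true ∨ OddPos μ v0) :
    ∀ᵐ x ∂(μ.prod (lam G)), ∀ e : V × V, alive x.1 e →
      ∃ n u, Stop b (lab x.2 2) x.1 e n u := by
  have := countable_V hT.tree Δ hT.reg
  have := hL.prob
  rw [ae_all_iff]
  intro e
  by_cases he : G.Adj e.1 e.2
  swap
  · filter_upwards [h3_ae_fst hL.wf] with x hx hal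
    exact absurd (hx.tail e.1 e hal).2 he
  set ρ := br (G := G) μ e (fun x e => ind (wk b (lab x.2 2) x.1 1 e ≠ none)) with hρ
  have h1 := h3_pi_one hT hL b he
  rw [← hρ] at h1
  have h2 := h3_none_pos hT hL b v0 hs hk hb he
  have hlt : ρ < 1 := by
    rw [← h1]
    apply ENNReal.lt_add_right _ h2
    intro h
    rw [h, top_add] at h1
    exact ENNReal.top_ne_one h1
  have hmeas : MeasurableSet {x : XX G | ∀ n, wk b (lab x.2 2) x.1 n e ≠ none} := by
    have : {x : XX G | ∀ n, wk b (lab x.2 2) x.1 n e ≠ none} =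
        ⋂ n, (fun x : XX G => ind (wk b (lab x.2 2) x.1 n e ≠ none)) ⁻¹' {1} := by
      ext x
      simp only [Set.mem_iInter, Set.mem_preimage, Set.mem_singleton_iff]
      apply forall_congr'
      intro n
      unfold ind
      split_ifs with h
      · simp [h]
      · simp [h]
    rw [this]
    exact MeasurableSet.iInter fun n => ((h3_Hd_wk hT.tree b n).meas e) (measurableSet_singleton 1)
  have h0 : EE (G := G) μ e (fun x => ind (∀ n, wk b (lab x.2 2) x.1 n e ≠ none)) = 0 := by
    have hle : ∀ n : ℕ, EE (G := G) μ e (fun x => ind (∀ n, wk b (lab x.2 2) x.1 n e ≠ none)) ≤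
        ρ ^ n := by
      intro n
      rw [hρ, ← h3_pi_pow hT hL b he n]
      unfold br
      apply EE_mono
      filter_upwards with x _
      unfold ind
      by_cases h : ∀ n, wk b (lab x.2 2) x.1 n e ≠ none
      · rw [if_pos h, if_pos (h n)]
      · rw [if_neg h]
        exact bot_le
    have ht := ENNReal.tendsto_pow_atTop_nhds_zero_of_lt_one hlt
    exact le_antisymm (ge_of_tendsto' ht hle) (bot_le)
  unfold EE at h0
  rw [ENNReal.div_eq_zero_iff] at h0
  rcases h0 with h0 | h0
  swap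
  · exact absurd h0 (measure_ne_top _ _)
  have hm2 : Measurable (fun x : XX G => ind (alive x.1 e) *
      ind (∀ n, wk b (lab x.2 2) x.1 n e ≠ none)) := by
    apply Measurable.mul
    · exact h3_measurable_ind (meas_ports measurable_fst e.1 (fun Q => e ∈ Q))
    · exact h3_measurable_ind hmeas
  rw [lintegral_eq_zero_iff hm2] at h0
  filter_upwards [h0] with x hx hal
  have hx' : ind (alive x.1 e) * ind (∀ n, wk b (lab x.2 2) x.1 n e ≠ none) = 0 := hx
  have hno : ¬ ∀ n, wk b (lab x.2 2) x.1 n e ≠ none := by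
    intro h
    rw [ind, if_pos hal, ind, if_pos h, one_mul] at hx'
    exact one_ne_zero hx'
  push Not at hno
  have hfind := Nat.find_spec hno
  have hmin := fun m => Nat.find_min (H := hno) (m := m)
  cases hn : Nat.find hno with
  | zero =>
    rw [hn] at hfind
    simp [wk] at hfind
  | succ n =>
    rw [hn] at hfind
    have h3 : wk b (lab x.2 2) x.1 n e ≠ none := hmin n (by omega)
    obtain ⟨d, hd⟩ := Option.ne_none_iff_exists'.1 h3
    refine ⟨n, d.swap, ?_, ?_⟩
    · rw [Prod.swap_swap]; exact hd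
    · rw [Prod.swap_swap]
      have h4 : wk b (lab x.2 2) x.1 (n + 1) e = (wk b (lab x.2 2) x.1 n e).bind
        (nx b (lab x.2 2) x.1) := rfl
      rw [h4, hd] at hfind
      exact hfind

end AS

/-! ### flipping the coin of the deciding end -/

section Flip

variable {b : Bool} {r t a a' : V × V → ℝ} {σ : St V}

theorem h3_col_flip (h : Hv2.H2 G r σ)
    (hst : ∀ e, alive σ e → ∃ n u, Stop b r σ e n u) {v : V} {p : V × V}
    (hp : p ∈ (σ v).ports) (hn : nx b r σ p.swap = none) {n : ℕ} {u : V × V}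
    (hs : Stop b r σ p n u) {us : V × V}
    (hus : (t u < t p ∧ us = u) ∨ (t p < t u ∧ us = p)) (ha : ∀ d, d ≠ us → a' d = a d)
    (ha' : a' us < 1/2 ↔ ¬ a us < 1/2) :
    (col b a' t r σ p ↔ ¬ col b a t r σ p) ∧
      ∀ d ∈ (σ v).ports, d ≠ p → (col b a' t r σ d ↔ col b a t r σ d) := by
  have hs' : Stop b r σ p.swap 0 p := ⟨rfl, hn⟩
  have hpv : p.1 = v := h.fst hp
  have hpa : alive σ p := h.alive_of hp
  have hps := Hv2.Stop_side h hpa hs
  constructor
  · rw [Hv2.col_iff hs hs', Hv2.col_iff hs hs']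
    rcases hus with ⟨h1, rfl⟩ | ⟨h1, rfl⟩
    · have h2 : ¬ t p < t us := not_lt.2 h1.le
      simp only [h1, h2, true_and, false_and, or_false]
      tauto
    · have h2 : ¬ t u < t us := not_lt.2 h1.le
      simp only [h1, h2, true_and, false_and, false_or]
      tauto
  · intro d hd hdp
    have hdv : d.1 = v := h.fst hd
    have hda : alive σ d := h.alive_of hd
    -- ends behind a port `q ≠ p` of `v`
    have hend : ∀ q ∈ (σ v).ports, q ≠ p → ∀ w : V × V, ¬ side G q w.1 → w ≠ us := by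
      intro q hq hqp w hw
      have hqv : q.1 = v := h.fst hq
      have e1 : side G q p.1 := by
        rw [hpv, ← hqv]; exact side_fst (h.adj hq)
      have e2 : side G p q.1 := by
        rw [hqv, ← hpv]; exact side_fst (h.adj hp)
      have e3 := side_disj h.tree (h.adj hq) (h.adj hp) e1 e2 hqp w.1 hw
      rcases hus with ⟨_, rfl⟩ | ⟨_, rfl⟩
      · rintro rfl
        exact hps e3
      · rintro rfl
        exact hw e1
    obtain ⟨m, w, hw⟩ := hst d hda
    obtain ⟨m', w', hw'⟩ := hst d.swap (h.swap hda)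
    have hne1 : w ≠ us := hend d hd hdp w (Hv2.Stop_side h hda hw)
    have hne2 : w' ≠ us := by
      cases hx : nx b r σ d.swap with
      | none =>
        have h0 : Stop b r σ d.swap 0 d := ⟨rfl, hx⟩
        obtain ⟨_, rfl⟩ := Hv2.Stop_unique hw' h0
        rcases hus with ⟨_, rfl⟩ | ⟨_, rfl⟩
        · rintro rfl
          apply hps
          rw [hdv, ← hpv]
          exact side_fst (h.adj hp)
        · exact hdp
      | some g =>
        have hg := Hv2.nx_mem h hx
        have hgv : g ∈ (σ v).ports := by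
          have := hg.1
          rw [show d.swap.2 = v from hdv] at this
          exact this
        have hgp : g ≠ p := by
          rintro rfl
          have := Hv2.nx_rev h hx
          rw [hn] at this
          exact absurd this (by simp)
        obtain ⟨k, _, hk⟩ := Hv2.Stop_tail (i := 1) (g := g) hx hw'
        exact hend g hgv hgp w' (Hv2.Stop_side h (h.alive_of hgv) hk)
    rw [Hv2.col_iff hw hw', Hv2.col_iff hw hw', ha w hne1, ha w' hne2]

theorem h3_parity {P : Finset (V × V)} {p : V × V} (hp : p ∈ P) {q q' : V × V → Prop}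
    (h1 : q' p ↔ ¬ q p) (h2 : ∀ d ∈ P, d ≠ p → (q' d ↔ q d)) :
    Odd (P.filter q').card ↔ ¬ Odd (P.filter q).card := by
  have key : ∀ q : V × V → Prop, (P.filter q).card =
      (if q p then 1 else 0) + ((P.erase p).filter q).card := by
    intro q
    conv_lhs => rw [← Finset.insert_erase hp]
    rw [Finset.filter_insert]
    split_ifs with h
    · rw [Finset.card_insert_of_notMem, add_comm]
      simp
    · rw [zero_add]
  have h3 : (P.erase p).filter q' = (P.erase p).filter q := by
    apply Finset.filter_congr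
    intro d hd
    rw [Finset.mem_erase] at hd
    exact h2 d hd.2 hd.1
  rw [key q', key q, h3]
  by_cases hq : q p
  · have hq' : ¬ q' p := fun h => (h1.1 h) hq
    rw [if_pos hq, if_neg hq', zero_add, add_comm, Nat.odd_add_one, not_not]
  · have hq' : q' p := h1.2 hq
    rw [if_neg hq, if_pos hq', zero_add, add_comm, Nat.odd_add_one]

theorem h3_lab_flip_ne (us : Dt G) (l : Lb G) {i : Fin 3} (hi : i ≠ 0) (d : V × V) :
    lab (flipL (us, 0) l) i d = lab l i d := by
  unfold lab
  split_ifs with h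
  · apply flipL_ne
    intro h2
    exact hi (congrArg Prod.snd h2)
  · rfl

theorem h3_lab_flip_other (us : Dt G) (l : Lb G) {d : V × V} (hd : d ≠ us.1) :
    lab (flipL (us, 0) l) 0 d = lab l 0 d := by
  unfold lab
  split_ifs with h
  · apply flipL_ne
    intro h2
    exact hd (congrArg (fun z => z.1.1) h2)
  · rfl

theorem h3_lab_flip_self (us : Dt G) (l : Lb G) :
    lab (flipL (us, 0) l) 0 us.1 = 1 - lab l 0 us.1 := by
  unfold lab
  rw [dif_pos us.2, dif_pos us.2]
  exact flipL_self (us, 0) l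

end Flip

section Odd

variable {μ : Measure (St V)}

theorem h3_OddPos {Δ : ℕ} (hT : Std G Δ) (hL : Law G μ) (b : Bool) (v0 : V)
    (hs : ∀ᵐ σ ∂μ, Sing σ) (hk : ∀ᵐ σ ∂μ, ∀ v, 6 ≤ (σ v).ports.card)
    (hb : b = true ∨ OddPos μ v0) : OddPos (nextLaw (hv (G := G) b) μ) v0 := by
  have := countable_V hT.tree Δ hT.reg
  have := hL.prob
  have hstop := h3_stop_ae hT hL b v0 hs hk hb
  obtain ⟨p, hp1, hp2, hp3⟩ := h3_exists_top hT hL b v0 hs hk hb
  -- it is enough to find mass of odd degrees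
  by_contra hno
  have hodd : ∀ᵐ x ∂(μ.prod (lam G)), ¬ Odd (hv b x v0).ports.card := by
    have h1 : ∀ m : ℕ, Odd m → ∀ᵐ x ∂(μ.prod (lam G)), (hv b x v0).ports.card ≠ m := by
      intro m hm
      by_contra hcon
      apply hno
      refine ⟨m, hm, ?_⟩
      unfold nextLaw
      have hms : MeasurableSet {σ : St V | (σ v0).ports.card = m} :=
        meas_ports measurable_id v0 (fun Q => Q.card = m)
      rw [Measure.map_apply (meas_hv b) hms]
      intro h0
      apply hcon
      rw [ae_iff]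
      have : {x : XX G | ¬ (hv b x v0).ports.card ≠ m} =
          hv b ⁻¹' {σ : St V | (σ v0).ports.card = m} := by
        ext x
        simp
      rw [this]
      exact h0
    have h2 : ∀ᵐ x ∂(μ.prod (lam G)), ∀ m : ℕ, Odd m → (hv b x v0).ports.card ≠ m := by
      rw [ae_all_iff]
      intro m
      by_cases hm : Odd m
      · filter_upwards [h1 m hm] with x hx _
        exact hx
      · exact Filter.Eventually.of_forall fun x h => absurd h hm
    filter_upwards [h2] with x hx hodd
    exact hx _ hodd rfl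
  apply hp3
  have hall : ∀ us : Dt G, ∀ᵐ x ∂(μ.prod (lam G)),
      p ∈ (x.1 v0).ports → nx b (lab x.2 2) x.1 p.swap = none →
      ∀ n u, Stop b (lab x.2 2) x.1 p n u →
        ¬ ((lab x.2 1 u < lab x.2 1 p ∧ us.1 = u) ∨ (lab x.2 1 p < lab x.2 1 u ∧ us.1 = p)) := by
    intro us
    have hflip := (flip_mpx μ (us, (0 : Fin 3))).quasiMeasurePreserving.ae hodd
    filter_upwards [hodd, hflip, hstop, h3_ae_fst hs, h3_ae_fst hL.wf,
      ae_Gen (μ := μ) (G := G) 0] with x hx1 hx2 hx3 hx4 hx5 hx6 hpx hnx n u hu hus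
    have hH : Hv2.H2 G (lab x.2 2) x.1 :=
      ⟨hT.tree, hx5.toWF0, fun v => (hx4 v).1, TI_of_Gen hx6 2⟩
    have e1 : lab (flipL (us, 0) x.2) 1 = lab x.2 1 := by
      funext d; exact h3_lab_flip_ne us x.2 (by decide) d
    have e2 : lab (flipL (us, 0) x.2) 2 = lab x.2 2 := by
      funext d; exact h3_lab_flip_ne us x.2 (by decide) d
    have hgen := hx6.2 (us, 0)
    have e3 : lab x.2 0 us.1 = x.2 (us, 0) := by
      unfold lab
      rw [dif_pos us.2]
    have hcol := h3_col_flip (a := lab x.2 0) (a' := lab (flipL (us, 0) x.2) 0)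
      (t := lab x.2 1) hH hx3 hpx hnx hu hus
      (fun d hd => h3_lab_flip_other us x.2 hd) (by
        rw [h3_lab_flip_self, e3]
        have := hgen.2
        constructor
        · intro h h'
          linarith
        · intro h
          rcases lt_or_gt_of_ne this with h' | h'
          · exact absurd h' h
          · linarith)
    have hpar := h3_parity hpx hcol.1 hcol.2
    apply hx1
    show Odd ((x.1 v0).ports.filter (fun d => col b (lab x.2 0) (lab x.2 1) (lab x.2 2) x.1 d)).card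
    by_contra hc
    apply hx2
    show Odd ((x.1 v0).ports.filter (fun d => col b (lab (flipL (us, 0) x.2) 0)
      (lab (flipL (us, 0) x.2) 1) (lab (flipL (us, 0) x.2) 2) x.1 d)).card
    rw [e1, e2]
    exact hpar.2 hc
  have hall2 := ae_all_iff.2 hall
  have hfin : ∀ᵐ x ∂(μ.prod (lam G)),
      ¬ (p ∈ (x.1 v0).ports ∧ nx b (lab x.2 2) x.1 p.swap = none) := by
    filter_upwards [hall2, hstop, h3_ae_fst hs, h3_ae_fst hL.wf,
      ae_Gen (μ := μ) (G := G) 0] with x hx1 hx3 hx4 hx5 hx6 hpn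
    have hH : Hv2.H2 G (lab x.2 2) x.1 :=
      ⟨hT.tree, hx5.toWF0, fun v => (hx4 v).1, TI_of_Gen hx6 2⟩
    have hpa : alive x.1 p := hH.alive_of hpn.1
    obtain ⟨n, u, hu⟩ := hx3 p hpa
    have hup : Stop b (lab x.2 2) x.1 p.swap 0 p := ⟨rfl, hpn.2⟩
    have hne := Hv2.Stop_ne hH hpa hu hup
    have hua := Hv2.Stop_alive hH hpa hu
    have hadj := (hx5.tail u.1 u hua).2
    rcases lt_trichotomy (lab x.2 1 u) (lab x.2 1 p) with h | h | h
    · exact hx1 ⟨u, hadj⟩ hpn.1 hpn.2 n u hu (Or.inl ⟨h, rfl⟩)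
    · exact hne (TI_of_Gen hx6 1 u p hadj hp2 h)
    · exact hx1 ⟨p, hp2⟩ hpn.1 hpn.2 n u hu (Or.inr ⟨h, rfl⟩)
  apply measure_mono_null _ (ae_iff.1 hfin)
  intro x hx
  show ¬ ¬ _
  rw [not_not]
  exact hx

end Odd

/-! ### one halving stage -/

section Step

variable {μ : Measure (St V)} {Δ : ℕ}

theorem h3_meas_Sing [Countable V] : MeasurableSet {σ : St V | Sing σ} := by
  have : {σ : St V | Sing σ} = ⋂ v : V, ({σ : St V | (id σ v).comp = {v}} ∩
      ({σ : St V | (id σ v).spec = ∅} ∩ ⋂ p : V × V, {σ : St V | (id σ v).M p = p.2})) := by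
    ext σ
    simp only [Set.mem_iInter, Set.mem_inter_iff]
    constructor
    · intro h v
      refine ⟨(h v).1, (h v).2.1, fun p => ?_⟩
      exact congrFun (h v).2.2 p
    · intro h v
      exact ⟨(h v).1, (h v).2.1, funext fun p => (h v).2.2 p⟩
  rw [this]
  refine MeasurableSet.iInter fun v => ?_
  refine (meas_comp measurable_id v (fun Q => Q = {v})).inter ?_
  refine (meas_spec measurable_id v (fun Q => Q = ∅)).inter ?_
  exact MeasurableSet.iInter fun p => meas_M measurable_id v p (fun w => w = p.2)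

theorem h3_meas_card [Countable V] (P : ℕ → Prop) :
    MeasurableSet {σ : St V | ∀ v, P (σ v).ports.card} := by
  have : {σ : St V | ∀ v, P (σ v).ports.card} =
      ⋂ v : V, {σ : St V | P (id σ v).ports.card} := by
    ext σ
    simp
  rw [this]
  exact MeasurableSet.iInter fun v => meas_ports measurable_id v (fun Q => P Q.card)

theorem h3_ae_next {f : XX G → St V} (hf : Measurable f) {P : St V → Prop}
    (hP : MeasurableSet {σ | P σ}) (h : ∀ᵐ x ∂(μ.prod (lam G)), P (f x)) :
    ∀ᵐ σ ∂(nextLaw f μ), P σ := by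
  unfold nextLaw
  rw [ae_map_iff hf.aemeasurable hP]
  exact h

theorem halve_step (hT : Std G Δ) (hL : Law G μ) (b : Bool) (v0 : V)
    (hs : ∀ᵐ σ ∂μ, Sing σ) (hk : ∀ᵐ σ ∂μ, ∀ v, 6 ≤ (σ v).ports.card)
    (hb : b = true ∨ OddPos μ v0) :
    Law G (nextLaw (hv (G := G) b) μ) ∧
    (∀ᵐ σ ∂(nextLaw (hv (G := G) b) μ), Sing σ) ∧
    OddPos (nextLaw (hv (G := G) b) μ) v0 ∧
    (∀ᵐ x ∂(μ.prod (lam G)), ∀ v, (if b then
      (2 * (hv b x v).ports.card ≤ (x.1 v).ports.card + 2 ∧
        (x.1 v).ports.card ≤ 2 * (hv b x v).ports.card + 2) else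
      (2 * (hv b x v).ports.card ≤ (x.1 v).ports.card + 1 ∧
        (x.1 v).ports.card ≤ 2 * (hv b x v).ports.card + 1))) ∧
    (∀ᵐ x ∂(μ.prod (lam G)), ∀ e : V × V, alive x.1 e →
      ∃ n u, Stop b (lab x.2 2) x.1 e n u) := by
  have := countable_V hT.tree Δ hT.reg
  have := hL.prob
  have hstop := h3_stop_ae hT hL b v0 hs hk hb
  refine ⟨hv_Law hT hL b hs hk hstop, ?_, h3_OddPos hT hL b v0 hs hk hb, ?_, hstop⟩
  · apply h3_ae_next (meas_hv b) h3_meas_Sing
    filter_upwards [h3_ae_fst hs] with x hx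
    exact halve_sing hx
  · filter_upwards [hstop, h3_ae_fst hs, h3_ae_fst hL.wf, ae_Gen (μ := μ) (G := G) 0]
      with x hx1 hx2 hx3 hx4 v
    have hW : HW G (lab x.2 2) x.1 := ⟨hT.tree, hx3.toWF0, fun v => (hx2 v).1, TI_of_Gen hx4 2⟩
    cases b
    · simp only [Bool.false_eq_true, if_false]
      exact halve_card_false hW (TI_of_Gen hx4 1) hx1 v
    · simp only [if_true]
      exact halve_card_true hW (TI_of_Gen hx4 1) hx1 v

end Step

/-! ### the initial law -/

section Init

variable {Δ : ℕ}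

theorem h3_meas_init [Countable V] (G : SimpleGraph V) : MeasurableSet {σ : St V | σ = init G} := by
  have : {σ : St V | σ = init G} = ⋂ v : V, ({σ : St V | (id σ v).comp = (init G v).comp} ∩
      ({σ : St V | (id σ v).ports = (init G v).ports} ∩
      ({σ : St V | (id σ v).spec = (init G v).spec} ∩
        ⋂ p : V × V, {σ : St V | (id σ v).M p = (init G v).M p}))) := by
    ext σ
    simp only [Set.mem_iInter, Set.mem_inter_iff]
    constructor
    · intro h v
      have h' : σ = init G := h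
      rw [h']
      exact ⟨rfl, rfl, rfl, fun p => rfl⟩
    · intro h
      show σ = init G
      funext v
      obtain ⟨h1, h2, h3, h4⟩ := h v
      exact Loc.ext h1 h2 h3 (funext h4)
  rw [this]
  refine MeasurableSet.iInter fun v => ?_
  refine (meas_comp measurable_id v (fun Q => Q = (init G v).comp)).inter ?_
  refine (meas_ports measurable_id v (fun Q => Q = (init G v).ports)).inter ?_
  refine (meas_spec measurable_id v (fun Q => Q = (init G v).spec)).inter ?_
  exact MeasurableSet.iInter fun p => meas_M measurable_id v p (fun w => w = (init G v).M p)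

theorem h3_ae_init [Countable V] (G : SimpleGraph V) :
    ∀ᵐ σ ∂(Measure.dirac (init G)), σ = init G := by
  rw [ae_dirac_iff (h3_meas_init G)]

theorem h3_init_card (hT : Std G Δ) (v : V) : (init G v).ports.card = Δ := by
  show ((nb G v).image (fun u => (v, u))).card = Δ
  rw [Finset.card_image_of_injective _ (fun a b h => congrArg Prod.snd h)]
  exact card_nb Δ hT.reg v

theorem h3_init_alive (hT : Std G Δ) {e : V × V} (he : G.Adj e.1 e.2) : alive (init G) e := by
  show e ∈ (nb G e.1).image (fun u => (e.1, u))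
  rw [Finset.mem_image]
  exact ⟨e.2, (mem_nb Δ hT.reg e.1 e.2).2 he, rfl⟩

theorem h3_init_Law (hT : Std G Δ) : Law G (Measure.dirac (init G)) := by
  have := countable_V hT.tree Δ hT.reg
  have hal : ∀ e : V × V, MeasurableSet {σ : St V | alive σ e} := fun e =>
    meas_ports measurable_id e.1 (fun Q => e ∈ Q)
  refine ⟨Measure.dirac.isProbabilityMeasure, ?_, ?_, ?_, ?_⟩
  · filter_upwards [h3_ae_init G] with σ hσ
    rw [hσ]
    exact init_WF hT.tree Δ (by have := hT.three; omega) hT.reg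
  · intro φ
    rw [Measure.map_dirac' (meas_map φ), init_map]
  · intro e he
    rw [Measure.dirac_apply' _ (hal e)]
    rw [Set.indicator_of_mem]
    · exact one_ne_zero
    · exact h3_init_alive hT he
  · intro e he f g hf hg _ _
    have hi : Measurable (fun σ : St V => ind (alive σ e)) := h3_measurable_ind (hal e)
    have e1 : (∫⁻ σ, ind (alive σ e) * (f σ * g σ) ∂Measure.dirac (init G)) =
        ind (alive (init G) e) * (f (init G) * g (init G)) :=
      lintegral_dirac' (init G) (hi.mul (hf.mul hg))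
    have e2 : (∫⁻ σ, ind (alive σ e) * f σ ∂Measure.dirac (init G)) =
        ind (alive (init G) e) * f (init G) := lintegral_dirac' (init G) (hi.mul hf)
    have e3 : (∫⁻ σ, ind (alive σ e) * g σ ∂Measure.dirac (init G)) =
        ind (alive (init G) e) * g (init G) := lintegral_dirac' (init G) (hi.mul hg)
    have e4 : Measure.dirac (init G) {σ : St V | alive σ e} = 1 := by
      rw [Measure.dirac_apply' _ (hal e), Set.indicator_of_mem]
      · rfl
      · exact h3_init_alive hT he
    rw [e1, e2, e3, e4]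
    unfold ind
    rw [if_pos (h3_init_alive hT he)]
    simp

end Init

/-! ### all halving stages -/

section All

variable {Δ : ℕ}

/-- the invariant of the halving stages -/
structure HI (G : SimpleGraph V) (Δ n : ℕ) (v0 : V) (μ : Measure (St V)) : Prop where
  law : Law G μ
  sing : ∀ᵐ σ ∂μ, Sing σ
  odd : n ≠ 0 → OddPos μ v0
  zero : n = 0 → ∀ᵐ σ ∂μ, ∀ v, (σ v).ports.card = Δ
  lo : ∀ᵐ σ ∂μ, ∀ v, 2 ^ n * (σ v).ports.card ≤ Δ + 2 ^ n
  hi : ∀ᵐ σ ∂μ, ∀ v, Δ ≤ 2 ^ n * (σ v).ports.card + 2 ^ n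

theorem h3_HI_zero (hT : Std G Δ) (v0 : V) : HI G Δ 0 v0 (Measure.dirac (init G)) := by
  have := countable_V hT.tree Δ hT.reg
  refine ⟨h3_init_Law hT, ?_, fun h => absurd rfl h, fun _ => ?_, ?_, ?_⟩
  · filter_upwards [h3_ae_init G] with σ hσ v
    rw [hσ]
    exact ⟨rfl, rfl, rfl⟩
  · filter_upwards [h3_ae_init G] with σ hσ v
    rw [hσ, h3_init_card hT v]
  · filter_upwards [h3_ae_init G] with σ hσ v
    rw [hσ, h3_init_card hT v]
    omega
  · filter_upwards [h3_ae_init G] with σ hσ v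
    rw [hσ, h3_init_card hT v]
    omega

theorem h3_HI_succ (hT : Std G Δ) (v0 : V) {n : ℕ} {μ : Measure (St V)} (h : HI G Δ n v0 μ)
    (h7 : 7 * 2 ^ n ≤ Δ) :
    HI G Δ (n + 1) v0 (nextLaw (hv (G := G) (decide (n = 0))) μ) ∧
      (∀ᵐ x ∂(μ.prod (lam G)), ∀ e : V × V, alive x.1 e →
        ∃ k u, Stop (decide (n = 0)) (lab x.2 2) x.1 e k u) := by
  have := countable_V hT.tree Δ hT.reg
  have hk : ∀ᵐ σ ∂μ, ∀ v, 6 ≤ (σ v).ports.card := by
    filter_upwards [h.hi] with σ hσ v
    have h1 := hσ v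
    have hp : 0 < 2 ^ n := by positivity
    by_contra hc
    have h2 : (σ v).ports.card ≤ 5 := by omega
    have h3 : 2 ^ n * (σ v).ports.card ≤ 2 ^ n * 5 := Nat.mul_le_mul_left _ h2
    omega
  have hb : decide (n = 0) = true ∨ OddPos μ v0 := by
    by_cases hn : n = 0
    · left; simp [hn]
    · right; exact h.odd hn
  obtain ⟨s1, s2, s3, s4, s5⟩ := halve_step hT h.law (decide (n = 0)) v0 h.sing hk hb
  refine ⟨⟨s1, s2, fun _ => s3, fun h0 => absurd h0 (Nat.succ_ne_zero n), ?_, ?_⟩, s5⟩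
  · apply h3_ae_next (meas_hv _) (h3_meas_card (fun k => 2 ^ (n + 1) * k ≤ Δ + 2 ^ (n + 1)))
    by_cases hn : n = 0
    · subst hn
      filter_upwards [s4, h3_ae_fst (h.zero rfl)] with x hx1 hx2 v
      have h1 := hx1 v
      have h2 := hx2 v
      simp only [decide_true, if_true] at h1
      simp only [decide_true, zero_add, pow_one]
      omega
    · filter_upwards [s4, h3_ae_fst h.lo] with x hx1 hx2 v
      have h1 := hx1 v
      have h2 := hx2 v
      have hd : decide (n = 0) = false := decide_eq_false hn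
      rw [hd] at h1 ⊢
      simp only [Bool.false_eq_true, if_false] at h1
      have h3 : 2 ^ n * (2 * (hv false x v).ports.card) ≤ 2 ^ n * ((x.1 v).ports.card + 1) :=
        Nat.mul_le_mul_left _ h1.1
      have h4 : 2 ^ (n + 1) * (hv false x v).ports.card =
        2 ^ n * (2 * (hv false x v).ports.card) := by ring
      rw [h4]
      have h5 : 2 ^ n * ((x.1 v).ports.card + 1) = 2 ^ n * (x.1 v).ports.card + 2 ^ n := by ring
      have h6 : 2 ^ (n + 1) = 2 ^ n + 2 ^ n := by ring
      omega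
  · apply h3_ae_next (meas_hv _) (h3_meas_card (fun k => Δ ≤ 2 ^ (n + 1) * k + 2 ^ (n + 1)))
    by_cases hn : n = 0
    · subst hn
      filter_upwards [s4, h3_ae_fst (h.zero rfl)] with x hx1 hx2 v
      have h1 := hx1 v
      have h2 := hx2 v
      simp only [decide_true, if_true] at h1
      simp only [decide_true, zero_add, pow_one]
      omega
    · filter_upwards [s4, h3_ae_fst h.hi] with x hx1 hx2 v
      have h1 := hx1 v
      have h2 := hx2 v
      have hd : decide (n = 0) = false := decide_eq_false hn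
      rw [hd] at h1 ⊢
      simp only [Bool.false_eq_true, if_false] at h1
      have h3 : 2 ^ n * (x.1 v).ports.card ≤ 2 ^ n * (2 * (hv false x v).ports.card + 1) :=
        Nat.mul_le_mul_left _ h1.2
      have h4 : 2 ^ (n + 1) * (hv false x v).ports.card =
        2 ^ n * (2 * (hv false x v).ports.card) := by ring
      rw [h4]
      have h5 : 2 ^ n * (2 * (hv false x v).ports.card + 1) =
        2 ^ n * (2 * (hv false x v).ports.card) + 2 ^ n := by ring
      have h6 : 2 ^ (n + 1) = 2 ^ n + 2 ^ n := by ring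
      omega

theorem halve_all (hT : Std G Δ) : ∃ J : ℕ, ∀ δ : ℝ,
    (∀ n ≤ J, Law G (law (G := G) J δ n)) ∧ Start (law (G := G) J δ J) ∧
    (∀ n < J, ∀ᵐ x ∂((law (G := G) J δ n).prod (lam G)), ∀ e : V × V, alive x.1 e →
      ∃ k u, Stop (decide (n = 0)) (lab x.2 2) x.1 e k u) := by
  have := countable_V hT.tree Δ hT.reg
  have hne : Nonempty V := hT.tree.1.nonempty
  obtain ⟨v0⟩ := hne
  -- the number of halving stages
  have hJ : ∃ J : ℕ, Δ < 8 * 2 ^ J ∧ (J = 0 ∨ 7 * 2 ^ (J - 1) ≤ Δ) ∧ (J = 0 → Δ ≤ 7) ∧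
      (J ≠ 0 → Δ < 7 * 2 ^ J) := by
    by_cases h7 : Δ ≤ 7
    · exact ⟨0, by omega, Or.inl rfl, fun _ => h7, fun h => absurd rfl h⟩
    · have hex : ∃ J : ℕ, Δ < 7 * 2 ^ J := by
        refine ⟨Δ, ?_⟩
        have : Δ < 2 ^ Δ := Nat.lt_two_pow_self
        omega
      have h1 := Nat.find_spec hex
      have h0 : Nat.find hex ≠ 0 := by
        intro h
        rw [h] at h1
        omega
      have h2 := Nat.find_min hex (m := Nat.find hex - 1) (by omega)
      exact ⟨Nat.find hex, by omega, Or.inr (by omega), fun h => absurd h h0, fun _ => h1⟩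
  obtain ⟨J, hJ1, hJ2, hJ3, hJ4⟩ := hJ
  refine ⟨J, fun δ => ?_⟩
  have hlt : ∀ n, n < J → 7 * 2 ^ n ≤ Δ := by
    intro n hn
    rcases hJ2 with h | h
    · omega
    · have : 2 ^ n ≤ 2 ^ (J - 1) := Nat.pow_le_pow_right (by norm_num) (by omega)
      omega
  have hst : ∀ n, n < J → law (G := G) J δ (n + 1) =
      nextLaw (hv (G := G) (decide (n = 0))) (law (G := G) J δ n) := by
    intro n hn
    show nextLaw (stage J δ n) (law J δ n) = _
    congr 1
    funext x
    unfold stage
    rw [if_pos hn]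
  have hHI : ∀ n ≤ J, HI G Δ n v0 (law (G := G) J δ n) := by
    intro n
    induction n with
    | zero => intro _; exact h3_HI_zero hT v0
    | succ n ih =>
      intro hn
      rw [hst n (by omega)]
      exact (h3_HI_succ hT v0 (ih (by omega)) (hlt n (by omega))).1
  refine ⟨fun n hn => (hHI n hn).law, ?_, ?_⟩
  · have h := hHI J le_rfl
    unfold Start
    by_cases hJ0 : J = 0
    · filter_upwards [h.sing, h.zero hJ0] with σ hσ1 hσ2 v
      refine ⟨(hσ1 v).2.1, ?_, ?_⟩
      · rw [hσ2 v]; exact hT.three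
      · rw [hσ2 v]; exact hJ3 hJ0
    · filter_upwards [h.sing, h.lo, h.hi] with σ hσ1 hσ2 hσ3 v
      have hlo := hσ2 v
      have hhi := hσ3 v
      have h7 := hJ4 hJ0
      have h72 : 7 * 2 ^ (J - 1) ≤ Δ := by
        rcases hJ2 with h | h
        · exact absurd h hJ0
        · exact h
      have hpow : 2 ^ J = 2 * 2 ^ (J - 1) := by
        obtain ⟨m, rfl⟩ := Nat.exists_eq_succ_of_ne_zero hJ0
        rw [Nat.succ_sub_one, pow_succ, mul_comm]
      have hp : 0 < 2 ^ (J - 1) := by positivity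
      refine ⟨(hσ1 v).2.1, ?_, ?_⟩
      · by_contra hc
        have h2 : (σ v).ports.card ≤ 2 := by omega
        have h3 : 2 ^ J * (σ v).ports.card ≤ 2 ^ J * 2 := Nat.mul_le_mul_left _ h2
        omega
      · by_contra hc
        have h2 : 8 ≤ (σ v).ports.card := by omega
        have h3 : 2 ^ J * 8 ≤ 2 ^ J * (σ v).ports.card := Nat.mul_le_mul_left _ h2
        omega
  · intro n hn
    exact (h3_HI_succ hT v0 (hHI n hn.le) (hlt n hn)).2

end All

end Pool.Agent.PM
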