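import Mathlib

/-! MP_947a32_pr, piece REC: pure real recursions (helper79). -/

set_option autoImplicit false

open scoped ENNReal

namespace Pool.Agent.PM

/-- the cubic `p (1-p) (5-3p)` is at most `0.92` on `[0,1]` -/
theorem rec_cubic (p : ℝ) (h0 : 0 ≤ p) (h1 : p ≤ 1) : p * (1 - p) * (5 - 3 * p) ≤ 23 / 25 := by
  nlinarith [mul_nonneg h0 (sq_nonneg (p - 2 / 5)), mul_nonneg (sub_nonneg.2 h1) (sq_nonneg (p - 2 / 5)),
    sq_nonneg (p - 2 / 5)]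

theorem rec_close_step {A x y m r p S h x' y' m' r' p' : ℝ} (hA : 0 < A) (hA0 : A ≤ 1 / 10 ^ 31)
    (hx : 0 ≤ x) (hy : 0 ≤ y) (hm : 0 ≤ m) (hr : 0 ≤ r) (hp : 0 ≤ p) (hS : 0 ≤ S) (hh : 0 ≤ h)
    (hx' : 0 ≤ x') (hy' : 0 ≤ y') (hm' : 0 ≤ m') (hr' : 0 ≤ r') (hp' : 0 ≤ p')
    (bx : x ≤ 2 * 10 ^ 6 * A) (by' : y ≤ 5 * 10 ^ 6 * A) (bm : m ≤ A) (br' : r ≤ 10 ^ 12 * A)
    (e0 : h ≤ x + y + m + r + A) (e1 : p + S ≤ 1)
    (ex : x' * (1 - h) ≤ y * (p * S + 5 / 2 * S ^ 2) + 10 ^ 4 * (m + A) +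
        10 ^ 4 * (x + y + m + r + A) ^ 2)
    (ey : y' * (1 - h) ≤ 2 * p * x + 10 ^ 4 * (m + A) + 10 ^ 4 * (x + y + m + r + A) ^ 2)
    (em : m' * (1 - h) ≤ 10 ^ 5 * (x + y + m + r + A) ^ 2)
    (er : r' * (1 - h) ≤ 10 ^ 5 * (x + y + m + A) + 10 ^ 5 * (x + y + m + r + A) ^ 2)
    (ep : p ≤ p' * (1 - h) + 10 ^ 3 * (x + y + m + r + A)) :
    h ≤ 1 / 10 ^ 6 ∧ m' ≤ A ∧ r' ≤ 10 ^ 12 * A ∧
      y' * (1 - h) ≤ 2 * p * x + 3 * 10 ^ 4 * A ∧ y' ≤ 5 * 10 ^ 6 * A ∧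
      x' * (1 - h) ≤ y * (p * S + 5 / 2 * S ^ 2) + 3 * 10 ^ 4 * A ∧ p ≤ p' + 1 / 10 ^ 6 := by
  set E := x + y + m + r + A with hE
  have hE0 : 0 ≤ E := by positivity
  have hE1 : E ≤ 2 * 10 ^ 12 * A := by rw [hE]; linarith
  have hE2 : E ^ 2 ≤ A / 10 ^ 6 := by
    have h1 : E ^ 2 ≤ (2 * 10 ^ 12 * A) ^ 2 := by gcongr
    have h2 : (2 * 10 ^ 12 * A) ^ 2 ≤ A / 10 ^ 6 := by
      have : (2 * 10 ^ 12 * A) ^ 2 = (4 * 10 ^ 24 * A) * A := by ring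
      rw [this]
      have h3 : 4 * 10 ^ 24 * A ≤ 1 / 10 ^ 6 := by
        calc 4 * 10 ^ 24 * A ≤ 4 * 10 ^ 24 * (1 / 10 ^ 31) := by gcongr
          _ ≤ 1 / 10 ^ 6 := by norm_num
      calc 4 * 10 ^ 24 * A * A ≤ (1 / 10 ^ 6) * A := by gcongr
        _ = A / 10 ^ 6 := by ring
    linarith
  have hE3 : E ≤ 1 / 10 ^ 10 := by
    calc E ≤ 2 * 10 ^ 12 * A := hE1
      _ ≤ 2 * 10 ^ 12 * (1 / 10 ^ 31) := by gcongr
      _ ≤ 1 / 10 ^ 10 := by norm_num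
  have hh1 : h ≤ 1 / 10 ^ 6 := by
    have : (1 : ℝ) / 10 ^ 10 ≤ 1 / 10 ^ 6 := by norm_num
    linarith
  have hh2 : (9 / 10 : ℝ) ≤ 1 - h := by norm_num at hh1 ⊢; linarith
  have hp1 : p ≤ 1 := by linarith
  have key : ∀ z c : ℝ, 0 ≤ z → z * (1 - h) ≤ c → z ≤ 10 / 9 * c := by
    intro z c hz hc
    have : z * (9 / 10) ≤ z * (1 - h) := by gcongr
    linarith
  have hpx : 2 * p * x ≤ 2 * x := by
    have : p * x ≤ 1 * x := by gcongr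
    linarith
  refine ⟨hh1, ?_, ?_, ?_, ?_, ?_, ?_⟩
  · have := key m' _ hm' em
    norm_num at this hE2 ⊢
    linarith
  · have := key r' _ hr' er
    norm_num at this hE2 ⊢
    linarith
  · norm_num at ey hE2 ⊢
    linarith
  · have := key y' _ hy' ey
    norm_num at this hE2 ⊢
    linarith
  · norm_num at ex hE2 ⊢
    linarith
  · have : p' * (1 - h) ≤ p' * 1 := by gcongr; linarith
    norm_num at ep hE3 ⊢
    linarith

theorem rec_two {A x y' p p' S' h h' x'' : ℝ} (hA : 0 < A) (hx : 0 ≤ x)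
    (hp' : 0 ≤ p') (hS' : 0 ≤ S') (hy' : 0 ≤ y') (hx'' : 0 ≤ x'') (hh : 0 ≤ h) (hh' : 0 ≤ h')
    (h1 : h ≤ 1 / 10 ^ 6) (h1' : h' ≤ 1 / 10 ^ 6) (e1' : p' + S' ≤ 1)
    (ep : p ≤ p' + 1 / 10 ^ 6)
    (ey : y' * (1 - h) ≤ 2 * p * x + 3 * 10 ^ 4 * A)
    (ex : x'' * (1 - h') ≤ y' * (p' * S' + 5 / 2 * S' ^ 2) + 3 * 10 ^ 4 * A)
    (bx : x ≤ 2 * 10 ^ 6 * A) : x'' ≤ 2 * 10 ^ 6 * A := by
  have hp'1 : p' ≤ 1 := by linarith
  have hS1 : S' ≤ 1 - p' := by linarith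
  set c := (1 - p') * (5 - 3 * p') / 2 with hc
  have hc0 : 0 ≤ c := by
    have : 0 ≤ (1 - p') * (5 - 3 * p') := mul_nonneg (by linarith) (by linarith)
    rw [hc]; linarith
  have hc1 : c ≤ 5 / 2 := by
    rw [hc]
    have : (1 - p') * (5 - 3 * p') ≤ 1 * 5 := by
      gcongr
      · linarith
      · linarith
      · linarith
    linarith
  have hcS : p' * S' + 5 / 2 * S' ^ 2 ≤ c := by
    have h2 : p' * S' ≤ p' * (1 - p') := by gcongr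
    have h3 : S' ^ 2 ≤ (1 - p') ^ 2 := by gcongr
    rw [hc]; nlinarith
  have hcub := rec_cubic p' hp' hp'1
  -- 2 p c ≤ 0.92 + 5/10^6
  have h2pc : 2 * p * c ≤ 93 / 100 * (999 / 1000) := by
    have h4 : 2 * p * c ≤ 2 * (p' + 1 / 10 ^ 6) * c := by gcongr
    have h5 : 2 * (p' + 1 / 10 ^ 6) * c = p' * (1 - p') * (5 - 3 * p') + 2 / 10 ^ 6 * c := by
      rw [hc]; ring
    rw [h5] at h4
    norm_num at h4 ⊢
    linarith
  have hd : (999 / 1000 : ℝ) ≤ (1 - h) * (1 - h') := by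
    norm_num at h1 h1'
    nlinarith
  have hh2 : 0 ≤ 1 - h := by norm_num at h1; linarith
  have hy2 : y' * (p' * S' + 5 / 2 * S' ^ 2) ≤ y' * c := by gcongr
  have e2 : x'' * (1 - h') * (1 - h) ≤ (y' * c + 3 * 10 ^ 4 * A) * (1 - h) := by
    gcongr
    linarith
  have e3 : (y' * (1 - h)) * c ≤ (2 * p * x + 3 * 10 ^ 4 * A) * c := by gcongr
  have e4 : 3 * 10 ^ 4 * A * (1 - h) ≤ 3 * 10 ^ 4 * A * 1 := by gcongr; linarith
  have e5 : 3 * 10 ^ 4 * A * c ≤ 3 * 10 ^ 4 * A * (5 / 2) := by gcongr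
  have e6 : (2 * p * c) * x ≤ (93 / 100 * (999 / 1000)) * x := by gcongr
  have e7 : x'' * (999 / 1000) ≤ x'' * ((1 - h) * (1 - h')) := by gcongr
  norm_num at *
  nlinarith

theorem rec_close : ∃ K A0 : ℝ, 1 ≤ K ∧ 0 < A0 ∧ ∀ A : ℝ, 0 < A → A ≤ A0 →
    ∀ x y m r p S h : ℕ → ℝ,
    (∀ n, 0 ≤ x n ∧ 0 ≤ y n ∧ 0 ≤ m n ∧ 0 ≤ r n ∧ 0 ≤ p n ∧ 0 ≤ S n ∧ 0 ≤ h n) →
    x 0 = 0 → y 0 = 0 → m 0 = 0 → r 0 = 0 →
    (∀ n, x n + y n + m n + r n + A ≤ 1 / 10 ^ 6 →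
      h n ≤ x n + y n + m n + r n + A ∧ p n + S n ≤ 1 ∧
      x (n + 1) * (1 - h n) ≤ y n * (p n * S n + 5 / 2 * S n ^ 2) + 10 ^ 4 * (m n + A) +
        10 ^ 4 * (x n + y n + m n + r n + A) ^ 2 ∧
      y (n + 1) * (1 - h n) ≤ 2 * p n * x n + 10 ^ 4 * (m n + A) +
        10 ^ 4 * (x n + y n + m n + r n + A) ^ 2 ∧
      m (n + 1) * (1 - h n) ≤ 10 ^ 5 * (x n + y n + m n + r n + A) ^ 2 ∧
      r (n + 1) * (1 - h n) ≤ 10 ^ 5 * (x n + y n + m n + A) +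
        10 ^ 5 * (x n + y n + m n + r n + A) ^ 2 ∧
      p (n + 1) * (1 - h n) ≤ p n + 10 ^ 3 * (x n + y n + m n + r n + A) ∧
      p n ≤ p (n + 1) * (1 - h n) + 10 ^ 3 * (x n + y n + m n + r n + A)) →
    ∀ n, x n + y n + m n + r n + A ≤ K * A := by
  refine ⟨2 * 10 ^ 12, 1 / 10 ^ 31, by norm_num, by norm_num, ?_⟩
  intro A hA hA0 x y m r p S h hpos hx0 hy0 hm0 hr0 hrec
  have main : ∀ n, (x n ≤ 2 * 10 ^ 6 * A ∧ y n ≤ 5 * 10 ^ 6 * A ∧ m n ≤ A ∧ r n ≤ 10 ^ 12 * A) ∧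
      (x (n + 1) ≤ 2 * 10 ^ 6 * A) := by
    have small : ∀ n, (x n ≤ 2 * 10 ^ 6 * A ∧ y n ≤ 5 * 10 ^ 6 * A ∧ m n ≤ A ∧ r n ≤ 10 ^ 12 * A) →
        x n + y n + m n + r n + A ≤ 1 / 10 ^ 6 := by
      intro n ⟨b1, b2, b3, b4⟩
      calc x n + y n + m n + r n + A ≤ 2 * 10 ^ 12 * A := by linarith
        _ ≤ 2 * 10 ^ 12 * (1 / 10 ^ 31) := by gcongr
        _ ≤ 1 / 10 ^ 6 := by norm_num
    have stepn : ∀ n, (x n ≤ 2 * 10 ^ 6 * A ∧ y n ≤ 5 * 10 ^ 6 * A ∧ m n ≤ A ∧ r n ≤ 10 ^ 12 * A) →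
        (h n ≤ 1 / 10 ^ 6 ∧ m (n + 1) ≤ A ∧ r (n + 1) ≤ 10 ^ 12 * A ∧
      y (n + 1) * (1 - h n) ≤ 2 * p n * x n + 3 * 10 ^ 4 * A ∧ y (n + 1) ≤ 5 * 10 ^ 6 * A ∧
      x (n + 1) * (1 - h n) ≤ y n * (p n * S n + 5 / 2 * S n ^ 2) + 3 * 10 ^ 4 * A ∧
        p n ≤ p (n + 1) + 1 / 10 ^ 6) ∧ p n + S n ≤ 1 := by
      intro n hb
      obtain ⟨e0, e1, ex, ey, em, er, _, ep⟩ := hrec n (small n hb)
      obtain ⟨q1, q2, q3, q4, q5, q6, q7⟩ := hpos n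
      obtain ⟨q1', q2', q3', q4', q5', q6', q7'⟩ := hpos (n + 1)
      exact ⟨rec_close_step hA hA0 q1 q2 q3 q4 q5 q6 q7 q1' q2' q3' q4' q5' hb.1 hb.2.1 hb.2.2.1
        hb.2.2.2 e0 e1 ex ey em er ep, e1⟩
    intro n
    induction n with
    | zero =>
      have hb : x 0 ≤ 2 * 10 ^ 6 * A ∧ y 0 ≤ 5 * 10 ^ 6 * A ∧ m 0 ≤ A ∧ r 0 ≤ 10 ^ 12 * A := by
        rw [hx0, hy0, hm0, hr0]
        refine ⟨by positivity, by positivity, by positivity, by positivity⟩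
      refine ⟨hb, ?_⟩
      obtain ⟨⟨s1, _, _, _, _, s6, _⟩, _⟩ := stepn 0 hb
      have q := (hpos 1).1
      rw [hy0] at s6
      simp only [zero_add, zero_mul] at s6
      have h9 : (9 / 10 : ℝ) ≤ 1 - h 0 := by norm_num at s1; linarith
      have : x 1 * (9 / 10) ≤ x 1 * (1 - h 0) := by gcongr
      simp only [zero_add]
      norm_num at s6 ⊢
      linarith
    | succ n ih =>
      obtain ⟨hb, hx1⟩ := ih
      obtain ⟨⟨s1, s2, s3, s4, s5, s6, s7⟩, s8⟩ := stepn n hb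
      have hb' : x (n + 1) ≤ 2 * 10 ^ 6 * A ∧ y (n + 1) ≤ 5 * 10 ^ 6 * A ∧ m (n + 1) ≤ A ∧
          r (n + 1) ≤ 10 ^ 12 * A := ⟨hx1, s5, s2, s3⟩
      refine ⟨hb', ?_⟩
      obtain ⟨⟨t1, _, _, _, _, t6, _⟩, t8⟩ := stepn (n + 1) hb'
      obtain ⟨q1, q2, q3, q4, q5, q6, q7⟩ := hpos n
      obtain ⟨q1', q2', q3', q4', q5', q6', q7'⟩ := hpos (n + 1)
      have q'' := (hpos (n + 1 + 1)).1
      exact rec_two hA q1 q5' q6' q2' q'' q7 q7' s1 t1 t8 s7 s4 t6 hb.1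
  intro n
  obtain ⟨⟨b1, b2, b3, b4⟩, _⟩ := main n
  norm_num at b1 b2 b3 b4 ⊢
  linarith

theorem vrec_real (k e : ℝ) (hk : 0 < k) (hk1 : k ≤ 1) (he : e ≤ 1 / 10 ^ 3)
    (u p t : ℕ → ℝ) (hu : ∀ n, 0 ≤ u n) (hp : ∀ n, 0 ≤ p n) (ht : ∀ n, 0 ≤ t n)
    (h1 : ∀ n, u (n + 1) + k * u n ≤ u n + k * (p n / 1000 + t n))
    (h2 : ∀ n, p (n + 1) ≤ 40 * u n + 28 * t n + e * p n)
    (h3 : ∀ n, t (n + 1) ≤ e * (u n + p n)) :
    Filter.Tendsto u Filter.atTop (nhds 0) := by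
  have hV : ∀ n, u (n + 1) + k / 100 * p (n + 1) + 3 * k * t (n + 1) ≤
      (1 - k / 2) * (u n + k / 100 * p n + 3 * k * t n) := by
    intro n
    have a1 := h1 n
    have a2 : k / 100 * p (n + 1) ≤ k / 100 * (40 * u n + 28 * t n + e * p n) := by
      gcongr; exact h2 n
    have a3 : 3 * k * t (n + 1) ≤ 3 * k * (e * (u n + p n)) := by
      gcongr; exact h3 n
    have b1 : k * e * u n ≤ k * (1 / 10 ^ 3) * u n := by
      have := hu n; gcongr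
    have b2 : k * e * p n ≤ k * (1 / 10 ^ 3) * p n := by
      have := hp n; gcongr
    have b3 : k * (k * p n) ≤ 1 * (k * p n) := by
      have := hp n; gcongr
    have b4 : k * (k * t n) ≤ 1 * (k * t n) := by
      have := ht n; gcongr
    have c1 : 0 ≤ k * u n := mul_nonneg hk.le (hu n)
    have c2 : 0 ≤ k * p n := mul_nonneg hk.le (hp n)
    have c3 : 0 ≤ k * t n := mul_nonneg hk.le (ht n)
    norm_num at *
    nlinarith
  have hVn : ∀ n, u n + k / 100 * p n + 3 * k * t n ≤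
      (1 - k / 2) ^ n * (u 0 + k / 100 * p 0 + 3 * k * t 0) := by
    intro n
    induction n with
    | zero => simp
    | succ n ih =>
      have hk2 : 0 ≤ 1 - k / 2 := by linarith
      calc _ ≤ _ := hV n
        _ ≤ (1 - k / 2) * ((1 - k / 2) ^ n * (u 0 + k / 100 * p 0 + 3 * k * t 0)) := by gcongr
        _ = _ := by ring
  have hlim : Filter.Tendsto (fun n => (1 - k / 2) ^ n * (u 0 + k / 100 * p 0 + 3 * k * t 0))
      Filter.atTop (nhds 0) := by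
    have := (tendsto_pow_atTop_nhds_zero_of_lt_one (r := 1 - k / 2) (by linarith) (by linarith)).mul_const
      (u 0 + k / 100 * p 0 + 3 * k * t 0)
    simpa using this
  refine squeeze_zero hu (fun n => ?_) hlim
  have := hVn n
  have c2 : 0 ≤ k / 100 * p n := mul_nonneg (by linarith) (hp n)
  have c3 : 0 ≤ 3 * k * t n := mul_nonneg (by linarith) (ht n)
  linarith

/-- decay of the mass of undecided vertices -/
theorem vrec_close (κ ε : ℝ≥0∞) (hκ : κ ≠ 0) (hκ1 : κ ≤ 1) (hε : ε ≤ ENNReal.ofReal (1 / 10 ^ 3))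
    (U P T : ℕ → ℝ≥0∞) (hU : U 0 ≠ ∞) (hP : P 0 ≠ ∞) (hT : T 0 ≠ ∞)
    (h1 : ∀ n, U (n + 1) + κ * U n ≤ U n + κ * (P n / 1000 + T n))
    (h2 : ∀ n, P (n + 1) ≤ 40 * U n + 28 * T n + ε * P n)
    (h3 : ∀ n, T (n + 1) ≤ ε * (U n + P n)) :
    Filter.Tendsto U Filter.atTop (nhds 0) := by
  have hκt : κ ≠ ∞ := ne_top_of_le_ne_top ENNReal.one_ne_top hκ1
  have hεt : ε ≠ ∞ := ne_top_of_le_ne_top ENNReal.ofReal_ne_top hε
  have hfin : ∀ n, U n ≠ ∞ ∧ P n ≠ ∞ ∧ T n ≠ ∞ := by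
    intro n
    induction n with
    | zero => exact ⟨hU, hP, hT⟩
    | succ n ih =>
      obtain ⟨i1, i2, i3⟩ := ih
      refine ⟨?_, ?_, ?_⟩
      · refine ne_top_of_le_ne_top ?_ (le_trans le_self_add (h1 n))
        exact ENNReal.add_ne_top.2 ⟨i1, ENNReal.mul_ne_top hκt (ENNReal.add_ne_top.2
          ⟨ENNReal.div_ne_top i2 (by norm_num), i3⟩)⟩
      · refine ne_top_of_le_ne_top ?_ (h2 n)
        exact ENNReal.add_ne_top.2 ⟨ENNReal.add_ne_top.2 ⟨ENNReal.mul_ne_top (by norm_num) i1,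
          ENNReal.mul_ne_top (by norm_num) i3⟩, ENNReal.mul_ne_top hεt i2⟩
      · refine ne_top_of_le_ne_top ?_ (h3 n)
        exact ENNReal.mul_ne_top hεt (ENNReal.add_ne_top.2 ⟨i1, i2⟩)
  have e1 : ∀ n, U n = ENNReal.ofReal (U n).toReal := fun n => (ENNReal.ofReal_toReal (hfin n).1).symm
  have hreal : Filter.Tendsto (fun n => (U n).toReal) Filter.atTop (nhds 0) := by
    refine vrec_real κ.toReal ε.toReal (ENNReal.toReal_pos hκ hκt) ?_ ?_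
      (fun n => (U n).toReal) (fun n => (P n).toReal) (fun n => (T n).toReal)
      (fun n => ENNReal.toReal_nonneg) (fun n => ENNReal.toReal_nonneg)
      (fun n => ENNReal.toReal_nonneg) ?_ ?_ ?_
    · have := ENNReal.toReal_mono ENNReal.one_ne_top hκ1
      simpa using this
    · have := ENNReal.toReal_mono ENNReal.ofReal_ne_top hε
      rwa [ENNReal.toReal_ofReal (by norm_num)] at this
    · intro n
      obtain ⟨i1, i2, i3⟩ := hfin n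
      obtain ⟨j1, j2, j3⟩ := hfin (n + 1)
      have hd : P n / 1000 ≠ ∞ := ENNReal.div_ne_top i2 (by norm_num)
      have := ENNReal.toReal_mono (ENNReal.add_ne_top.2 ⟨i1, ENNReal.mul_ne_top hκt
        (ENNReal.add_ne_top.2 ⟨hd, i3⟩)⟩) (h1 n)
      rw [ENNReal.toReal_add j1 (ENNReal.mul_ne_top hκt i1),
        ENNReal.toReal_add i1 (ENNReal.mul_ne_top hκt (ENNReal.add_ne_top.2 ⟨hd, i3⟩)),
        ENNReal.toReal_mul, ENNReal.toReal_mul, ENNReal.toReal_add hd i3, ENNReal.toReal_div] at this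
      simpa using this
    · intro n
      obtain ⟨i1, i2, i3⟩ := hfin n
      have f1 : (40 : ℝ≥0∞) * U n ≠ ∞ := ENNReal.mul_ne_top (by norm_num) i1
      have f2 : (28 : ℝ≥0∞) * T n ≠ ∞ := ENNReal.mul_ne_top (by norm_num) i3
      have f3 : ε * P n ≠ ∞ := ENNReal.mul_ne_top hεt i2
      have := ENNReal.toReal_mono (ENNReal.add_ne_top.2 ⟨ENNReal.add_ne_top.2 ⟨f1, f2⟩, f3⟩) (h2 n)
      rw [ENNReal.toReal_add (ENNReal.add_ne_top.2 ⟨f1, f2⟩) f3, ENNReal.toReal_add f1 f2,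
        ENNReal.toReal_mul, ENNReal.toReal_mul, ENNReal.toReal_mul] at this
      simpa using this
    · intro n
      obtain ⟨i1, i2, i3⟩ := hfin n
      have := ENNReal.toReal_mono (ENNReal.mul_ne_top hεt (ENNReal.add_ne_top.2 ⟨i1, i2⟩)) (h3 n)
      rw [ENNReal.toReal_mul, ENNReal.toReal_add i1 i2] at this
      simpa using this
  have := ENNReal.tendsto_ofReal hreal
  simp only [ENNReal.ofReal_zero] at this
  refine this.congr (fun n => (e1 n).symm)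

end Pool.Agent.PM
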