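import Pool.Agent.Lib.MP_947a32_pr.One
import Pool.Agent.Lib.MP_947a32_pr.Rec

set_option autoImplicit false

open Classical MeasureTheory
open scoped ENNReal

namespace Pool.Agent.PM



section ITER

variable {V : Type} {G : SimpleGraph V}

theorem iter_ae_fst {μ : Measure (St V)} {P : St V → Prop} (h : ∀ᵐ σ ∂μ, P σ) :
    ∀ᵐ x ∂(μ.prod (lam G)), P x.1 :=
  Measure.quasiMeasurePreserving_fst.ae h

theorem iter_EE_zero {μ : Measure (St V)} {e : V × V} {Y : XX G → ℝ≥0∞}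
    (h : ∀ᵐ x ∂(μ.prod (lam G)), Y x = 0) : EE μ e Y = 0 := by
  unfold EE
  rw [lintegral_congr_ae (g := fun _ => 0), lintegral_zero, ENNReal.zero_div]
  filter_upwards [h] with x hx
  rw [hx, mul_zero]

theorem iter_start {μ : Measure (St V)} (h : Start μ) (e : V × V) :
    qx G μ e = 0 ∧ qy G μ e = 0 ∧ qm G μ e = 0 ∧ qr G μ e = 0 := by
  have h' : ∀ᵐ x ∂(μ.prod (lam G)), ∀ v, (x.1 v).spec = ∅ ∧ 3 ≤ (x.1 v).ports.card ∧
      (x.1 v).ports.card ≤ 7 := iter_ae_fst (P := fun σ => ∀ v, (σ v).spec = ∅ ∧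
        3 ≤ (σ v).ports.card ∧ (σ v).ports.card ≤ 7) h
  refine ⟨iter_EE_zero ?_, iter_EE_zero ?_, iter_EE_zero ?_, iter_EE_zero ?_⟩
  · filter_upwards [h'] with x hx
    have := hx e.2
    refine if_neg ?_
    rintro ⟨_, h8⟩
    omega
  · filter_upwards [h'] with x hx
    have := hx e.2
    refine if_neg ?_
    rintro ⟨_, h8⟩
    omega
  · filter_upwards [h'] with x hx
    have := hx e.2
    rw [this.1]
    simp
  · filter_upwards [h'] with x hx
    have := hx e.2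
    have h0 : ind (¬ passS (x.1 e.2)) = 0 := if_neg (fun hn => hn this)
    rw [h0, mul_zero]

end ITER

/-- the one-step inequalities in real numbers -/
theorem iter_real {x y m r q h p S x' y' m' r' p' A η : ℝ≥0∞}
    (hx : x ≠ ∞) (hy : y ≠ ∞) (hm : m ≠ ∞) (hr : r ≠ ∞) (hA : A ≠ ∞)
    (hη : η = x + y + m + r + A)
    (hq : q + h = 1) (hpS : p + S ≤ 1) (hh : h ≤ η)
    (h1 : x' * q ≤ y * (p * S + 5 / 2 * S ^ 2) + 10 ^ 4 * (m + A) + 10 ^ 4 * η ^ 2)
    (h2 : y' * q ≤ 2 * p * x + 10 ^ 4 * (m + A) + 10 ^ 4 * η ^ 2)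
    (h3 : m' * q ≤ 10 ^ 5 * η ^ 2)
    (h4 : r' * q ≤ 10 ^ 5 * (x + y + m + A) + 10 ^ 5 * η ^ 2)
    (h5 : p' * q ≤ p + 10 ^ 3 * η) (h6 : p ≤ p' * q + 10 ^ 3 * η) (hp' : p' * q ≠ ∞) :
    h.toReal ≤ x.toReal + y.toReal + m.toReal + r.toReal + A.toReal ∧
    p.toReal + S.toReal ≤ 1 ∧
    x'.toReal * (1 - h.toReal) ≤ y.toReal * (p.toReal * S.toReal + 5 / 2 * S.toReal ^ 2) +
      10 ^ 4 * (m.toReal + A.toReal) +
      10 ^ 4 * (x.toReal + y.toReal + m.toReal + r.toReal + A.toReal) ^ 2 ∧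
    y'.toReal * (1 - h.toReal) ≤ 2 * p.toReal * x.toReal + 10 ^ 4 * (m.toReal + A.toReal) +
      10 ^ 4 * (x.toReal + y.toReal + m.toReal + r.toReal + A.toReal) ^ 2 ∧
    m'.toReal * (1 - h.toReal) ≤
      10 ^ 5 * (x.toReal + y.toReal + m.toReal + r.toReal + A.toReal) ^ 2 ∧
    r'.toReal * (1 - h.toReal) ≤ 10 ^ 5 * (x.toReal + y.toReal + m.toReal + A.toReal) +
      10 ^ 5 * (x.toReal + y.toReal + m.toReal + r.toReal + A.toReal) ^ 2 ∧
    p'.toReal * (1 - h.toReal) ≤ p.toReal +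
      10 ^ 3 * (x.toReal + y.toReal + m.toReal + r.toReal + A.toReal) ∧
    p.toReal ≤ p'.toReal * (1 - h.toReal) +
      10 ^ 3 * (x.toReal + y.toReal + m.toReal + r.toReal + A.toReal) := by
  have hxy : x + y ≠ ∞ := ENNReal.add_ne_top.2 ⟨hx, hy⟩
  have hxym : x + y + m ≠ ∞ := ENNReal.add_ne_top.2 ⟨hxy, hm⟩
  have hxymr : x + y + m + r ≠ ∞ := ENNReal.add_ne_top.2 ⟨hxym, hr⟩
  have hηt : η ≠ ∞ := by rw [hη]; exact ENNReal.add_ne_top.2 ⟨hxymr, hA⟩
  have hmA : m + A ≠ ∞ := ENNReal.add_ne_top.2 ⟨hm, hA⟩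
  have hp4 : (10 ^ 4 : ℝ≥0∞) ≠ ∞ := ENNReal.pow_ne_top (by simp)
  have hp5 : (10 ^ 5 : ℝ≥0∞) ≠ ∞ := ENNReal.pow_ne_top (by simp)
  have hp3 : (10 ^ 3 : ℝ≥0∞) ≠ ∞ := ENNReal.pow_ne_top (by simp)
  have he2 : η ^ 2 ≠ ∞ := ENNReal.pow_ne_top hηt
  have hp : p ≠ ∞ := (le_self_add.trans hpS |>.trans_lt ENNReal.one_lt_top).ne
  have hS : S ≠ ∞ := (le_add_self.trans hpS |>.trans_lt ENNReal.one_lt_top).ne
  have hht : h ≠ ∞ := (le_add_self.trans hq.le |>.trans_lt ENNReal.one_lt_top).ne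
  have hqt : q ≠ ∞ := (le_self_add.trans hq.le |>.trans_lt ENNReal.one_lt_top).ne
  have hS2 : S ^ 2 ≠ ∞ := ENNReal.pow_ne_top hS
  have h52' : (5 / 2 : ℝ≥0∞) ≠ ∞ := ENNReal.div_ne_top (by simp) (by simp)
  have hpS' : p * S + 5 / 2 * S ^ 2 ≠ ∞ :=
    ENNReal.add_ne_top.2 ⟨ENNReal.mul_ne_top hp hS, ENNReal.mul_ne_top h52' hS2⟩
  have eη : η.toReal = x.toReal + y.toReal + m.toReal + r.toReal + A.toReal := by
    rw [hη, ENNReal.toReal_add hxymr hA, ENNReal.toReal_add hxym hr, ENNReal.toReal_add hxy hm,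
      ENNReal.toReal_add hx hy]
  have eq : q.toReal = 1 - h.toReal := by
    have := congrArg ENNReal.toReal hq
    rw [ENNReal.toReal_add hqt hht, ENNReal.toReal_one] at this
    linarith
  have t4 : ((10 : ℝ≥0∞) ^ 4).toReal = 10 ^ 4 := by simp
  have t5 : ((10 : ℝ≥0∞) ^ 5).toReal = 10 ^ 5 := by simp
  have t3 : ((10 : ℝ≥0∞) ^ 3).toReal = 10 ^ 3 := by simp
  have t52 : ((5 : ℝ≥0∞) / 2).toReal = 5 / 2 := by simp [ENNReal.toReal_div]
  have tm : (10 ^ 4 * (m + A)).toReal = 10 ^ 4 * (m.toReal + A.toReal) := by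
    rw [ENNReal.toReal_mul, t4, ENNReal.toReal_add hm hA]
  have te4 : (10 ^ 4 * η ^ 2).toReal = 10 ^ 4 * η.toReal ^ 2 := by
    rw [ENNReal.toReal_mul, t4, ENNReal.toReal_pow]
  have te5 : (10 ^ 5 * η ^ 2).toReal = 10 ^ 5 * η.toReal ^ 2 := by
    rw [ENNReal.toReal_mul, t5, ENNReal.toReal_pow]
  have te3 : (10 ^ 3 * η).toReal = 10 ^ 3 * η.toReal := by
    rw [ENNReal.toReal_mul, t3]
  have f1 : y * (p * S + 5 / 2 * S ^ 2) ≠ ∞ := ENNReal.mul_ne_top hy hpS'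
  have f2 : 10 ^ 4 * (m + A) ≠ ∞ := ENNReal.mul_ne_top hp4 hmA
  have f3 : 10 ^ 4 * η ^ 2 ≠ ∞ := ENNReal.mul_ne_top hp4 he2
  have f4 : 2 * p * x ≠ ∞ := ENNReal.mul_ne_top (ENNReal.mul_ne_top (by simp) hp) hx
  have f5 : 10 ^ 5 * η ^ 2 ≠ ∞ := ENNReal.mul_ne_top hp5 he2
  have f6 : x + y + m + A ≠ ∞ := ENNReal.add_ne_top.2 ⟨hxym, hA⟩
  have f7 : 10 ^ 5 * (x + y + m + A) ≠ ∞ := ENNReal.mul_ne_top hp5 f6
  have f8 : 10 ^ 3 * η ≠ ∞ := ENNReal.mul_ne_top hp3 hηt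
  have g1 := ENNReal.toReal_mono (ENNReal.add_ne_top.2 ⟨ENNReal.add_ne_top.2 ⟨f1, f2⟩, f3⟩) h1
  have g2 := ENNReal.toReal_mono (ENNReal.add_ne_top.2 ⟨ENNReal.add_ne_top.2 ⟨f4, f2⟩, f3⟩) h2
  have g3 := ENNReal.toReal_mono f5 h3
  have g4 := ENNReal.toReal_mono (ENNReal.add_ne_top.2 ⟨f7, f5⟩) h4
  have g5 := ENNReal.toReal_mono (ENNReal.add_ne_top.2 ⟨hp, f8⟩) h5
  have g6 := ENNReal.toReal_mono (ENNReal.add_ne_top.2 ⟨hp', f8⟩) h6
  have g7 := ENNReal.toReal_mono ENNReal.one_ne_top hpS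
  have g8 := ENNReal.toReal_mono hηt hh
  rw [ENNReal.toReal_add (ENNReal.add_ne_top.2 ⟨f1, f2⟩) f3, ENNReal.toReal_add f1 f2,
    ENNReal.toReal_mul, ENNReal.toReal_mul, ENNReal.toReal_add (ENNReal.mul_ne_top hp hS)
    (ENNReal.mul_ne_top h52' hS2), ENNReal.toReal_mul, ENNReal.toReal_mul, ENNReal.toReal_pow,
    t52, tm, te4, eq] at g1
  rw [ENNReal.toReal_add (ENNReal.add_ne_top.2 ⟨f4, f2⟩) f3, ENNReal.toReal_add f4 f2,
    ENNReal.toReal_mul, ENNReal.toReal_mul, ENNReal.toReal_mul, tm, te4, eq] at g2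
  rw [ENNReal.toReal_mul, te5, eq] at g3
  rw [ENNReal.toReal_add f7 f5, ENNReal.toReal_mul, ENNReal.toReal_mul, t5,
    ENNReal.toReal_add hxym hA, ENNReal.toReal_add hxy hm, ENNReal.toReal_add hx hy, te5, eq] at g4
  rw [ENNReal.toReal_add hp f8, ENNReal.toReal_mul, te3, eq] at g5
  rw [ENNReal.toReal_add hp' f8, ENNReal.toReal_mul, te3, eq] at g6
  rw [ENNReal.toReal_add hp hS, ENNReal.toReal_one] at g7
  rw [eη] at g1 g2 g3 g4 g5 g6 g8
  refine ⟨g8, g7, ?_, ?_, g3, g4, g5, g6⟩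
  · exact g1
  · simpa using g2

theorem iter_small : ∃ δ0 : ℝ, 0 < δ0 ∧ ∀ δ : ℝ, 0 < δ → δ ≤ δ0 →
    ∀ (V : Type) (G : SimpleGraph V) (Δ : ℕ) (μ : Measure (St V)) (e : V × V),
      Std G Δ → Law G μ → Start μ → G.Adj e.1 e.2 →
      ∀ n, Hyp G (iter G δ μ n) δ e Δ := by
  obtain ⟨K, A0, hK, hA0, hrec⟩ := rec_close
  refine ⟨min A0 (1 / (K * 10 ^ 6)) / 10 ^ 6, by positivity, ?_⟩
  intro δ hδ hδ0 V G Δ μ e hT hL hS he
  -- the size of the perturbation
  set A : ℝ := 10 ^ 6 * δ with hA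
  have hApos : 0 < A := by positivity
  have hAle : A ≤ min A0 (1 / (K * 10 ^ 6)) := by
    rw [hA]
    have := (le_div_iff₀ (by positivity : (0:ℝ) < 10 ^ 6)).1 hδ0
    linarith
  have hA1 : A ≤ A0 := hAle.trans (min_le_left _ _)
  have hKA : K * A ≤ 1 / 10 ^ 6 := by
    have h1 : A ≤ 1 / (K * 10 ^ 6) := hAle.trans (min_le_right _ _)
    have hKpos : 0 < K := by linarith
    calc K * A ≤ K * (1 / (K * 10 ^ 6)) := by gcongr
      _ = 1 / 10 ^ 6 := by field_simp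
  have hAA1 : A ≤ 1 := by
    have h1 : A ≤ K * A := by nlinarith
    have : (1:ℝ) / 10 ^ 6 ≤ 1 := by norm_num
    linarith
  have hqA : qA δ = ENNReal.ofReal A := rfl
  -- notation
  let m : ℕ → Measure (St V) := iter G δ μ
  let Pn : ℕ → Prop := fun n => ∀ k < n, Hyp G (m k) δ e Δ
  -- at a stage reached with `Pn`, the law is a `Law` and the parameters are finite
  have hfin : ∀ n, Pn n → Law G (m n) ∧ qx G (m n) e ≠ ∞ ∧ qy G (m n) e ≠ ∞ ∧ qm G (m n) e ≠ ∞ ∧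
      qr G (m n) e ≠ ∞ := by
    intro n hn
    rcases n with _ | n
    · obtain ⟨h1, h2, h3, h4⟩ := iter_start (G := G) hS e
      refine ⟨hL, ?_, ?_, ?_, ?_⟩
      · show qx G μ e ≠ ∞
        rw [h1]; simp
      · show qy G μ e ≠ ∞
        rw [h2]; simp
      · show qm G μ e ≠ ∞
        rw [h3]; simp
      · show qr G μ e ≠ ∞
        rw [h4]; simp
    · have hH := hn n (Nat.lt_succ_self n)
      obtain ⟨hL', ho⟩ := one_step hH
      have heta : eta G (m n) δ e ≠ ∞ := (hH.small.trans_lt ENNReal.ofReal_lt_top).ne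
      have h5 : qx G (m n) e + qy G (m n) e + qm G (m n) e + qr G (m n) e + qA δ ≠ ∞ := heta
      have hqb : qb G (m n) δ e ≠ 0 := by
        intro h0
        have h1 := ho.hb
        rw [h0, zero_add] at h1
        have h2 := ho.hh.trans hH.small
        rw [h1] at h2
        have : ENNReal.ofReal (1 / 10 ^ 6) < 1 := by
          rw [← ENNReal.ofReal_one]
          exact (ENNReal.ofReal_lt_ofReal_iff (by norm_num)).2 (by norm_num)
        exact absurd h2 (not_le.2 this)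
      simp only [ENNReal.add_ne_top] at h5
      obtain ⟨⟨⟨⟨h51, h52⟩, h53⟩, h54⟩, h55⟩ := h5
      have h3S := ho.h3S
      have h3 : q3 G (m n) e ≠ ∞ := (le_self_add.trans h3S |>.trans_lt ENNReal.one_lt_top).ne
      have hS' : qS G (m n) e ≠ ∞ := (le_add_self.trans h3S |>.trans_lt ENNReal.one_lt_top).ne
      have key : ∀ a b : ℝ≥0∞, a * qb G (m n) δ e ≤ b → b ≠ ∞ → a ≠ ∞ := by
        intro a b hab hb hta
        rw [hta, ENNReal.top_mul hqb] at hab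
        exact hb (top_le_iff.1 hab)
      have hsum : qx G (m n) e + qy G (m n) e + qm G (m n) e + qA δ ≠ ∞ :=
        ENNReal.add_ne_top.2 ⟨ENNReal.add_ne_top.2 ⟨ENNReal.add_ne_top.2 ⟨h51, h52⟩, h53⟩, h55⟩
      have hmA : qm G (m n) e + qA δ ≠ ∞ := ENNReal.add_ne_top.2 ⟨h53, h55⟩
      have hp4 : (10 ^ 4 : ℝ≥0∞) ≠ ∞ := ENNReal.pow_ne_top (by simp)
      have hp5 : (10 ^ 5 : ℝ≥0∞) ≠ ∞ := ENNReal.pow_ne_top (by simp)
      have he2 : eta G (m n) δ e ^ 2 ≠ ∞ := ENNReal.pow_ne_top heta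
      have hS2 : qS G (m n) e ^ 2 ≠ ∞ := ENNReal.pow_ne_top hS'
      have h52' : (5 / 2 : ℝ≥0∞) ≠ ∞ := ENNReal.div_ne_top (by simp) (by simp)
      refine ⟨hL', key _ _ ho.x ?_, key _ _ ho.y ?_, key _ _ ho.m ?_, key _ _ ho.r ?_⟩
      · exact ENNReal.add_ne_top.2 ⟨ENNReal.add_ne_top.2 ⟨ENNReal.mul_ne_top h52
          (ENNReal.add_ne_top.2 ⟨ENNReal.mul_ne_top h3 hS', ENNReal.mul_ne_top h52' hS2⟩),
          ENNReal.mul_ne_top hp4 hmA⟩, ENNReal.mul_ne_top hp4 he2⟩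
      · exact ENNReal.add_ne_top.2 ⟨ENNReal.add_ne_top.2 ⟨ENNReal.mul_ne_top
          (ENNReal.mul_ne_top (by simp) h3) h51, ENNReal.mul_ne_top hp4 hmA⟩,
          ENNReal.mul_ne_top hp4 he2⟩
      · exact ENNReal.mul_ne_top hp5 he2
      · exact ENNReal.add_ne_top.2 ⟨ENNReal.mul_ne_top hp5 hsum, ENNReal.mul_ne_top hp5 he2⟩
  -- smallness at a stage reached with `Pn` gives `Hyp`
  have hsmall : ∀ n, Pn n → (qx G (m n) e).toReal + (qy G (m n) e).toReal +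
      (qm G (m n) e).toReal + (qr G (m n) e).toReal + A ≤ 1 / 10 ^ 6 → Hyp G (m n) δ e Δ := by
    intro n hn hle
    obtain ⟨hL', f1, f2, f3, f4⟩ := hfin n hn
    refine ⟨hT, hL', he, hδ, ?_⟩
    unfold eta
    rw [hqA, ← ENNReal.ofReal_toReal f1, ← ENNReal.ofReal_toReal f2, ← ENNReal.ofReal_toReal f3,
      ← ENNReal.ofReal_toReal f4, ← ENNReal.ofReal_add (by positivity) (by positivity),
      ← ENNReal.ofReal_add (by positivity) (by positivity),
      ← ENNReal.ofReal_add (by positivity) (by positivity),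
      ← ENNReal.ofReal_add (by positivity) (by positivity)]
    exact ENNReal.ofReal_le_ofReal hle
  have hAreal : (qA δ).toReal = A := by rw [hqA, ENNReal.toReal_ofReal hApos.le]
  -- the sequences
  let X : ℕ → ℝ := fun n => if Pn n then (qx G (m n) e).toReal else 1
  let Y : ℕ → ℝ := fun n => if Pn n then (qy G (m n) e).toReal else 0
  let Mm : ℕ → ℝ := fun n => if Pn n then (qm G (m n) e).toReal else 0
  let R : ℕ → ℝ := fun n => if Pn n then (qr G (m n) e).toReal else 0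
  let P3 : ℕ → ℝ := fun n => (q3 G (m n) e).toReal
  let PS : ℕ → ℝ := fun n => (qS G (m n) e).toReal
  let Hh : ℕ → ℝ := fun n => (qh G (m n) δ e).toReal
  have hP0 : Pn 0 := fun k hk => absurd hk (Nat.not_lt_zero k)
  obtain ⟨z1, z2, z3, z4⟩ := iter_start (G := G) hS e
  have hmain := hrec A hApos hA1 X Y Mm R P3 PS Hh ?_ ?_ ?_ ?_ ?_ ?_
  · -- conclusion
    have hP : ∀ n, Pn n := by
      intro n
      induction n with
      | zero => exact hP0
      | succ n ih =>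
        intro k hk
        rcases Nat.lt_succ_iff_lt_or_eq.1 hk with h | h
        · exact ih k h
        · subst h
          refine hsmall k ih ?_
          have := hmain k
          simp only [X, Y, Mm, R, if_pos ih] at this
          linarith
    intro n
    exact hP (n + 1) n (Nat.lt_succ_self n)
  · intro n
    refine ⟨?_, ?_, ?_, ?_, ENNReal.toReal_nonneg, ENNReal.toReal_nonneg, ENNReal.toReal_nonneg⟩
    · show 0 ≤ (if Pn n then (qx G (m n) e).toReal else 1)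
      split_ifs
      · exact ENNReal.toReal_nonneg
      · norm_num
    · show 0 ≤ (if Pn n then (qy G (m n) e).toReal else 0)
      split_ifs
      · exact ENNReal.toReal_nonneg
      · norm_num
    · show 0 ≤ (if Pn n then (qm G (m n) e).toReal else 0)
      split_ifs
      · exact ENNReal.toReal_nonneg
      · norm_num
    · show 0 ≤ (if Pn n then (qr G (m n) e).toReal else 0)
      split_ifs
      · exact ENNReal.toReal_nonneg
      · norm_num
  · show (if Pn 0 then (qx G μ e).toReal else 1) = 0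
    rw [if_pos hP0, z1]; rfl
  · show (if Pn 0 then (qy G μ e).toReal else 0) = 0
    rw [if_pos hP0, z2]; rfl
  · show (if Pn 0 then (qm G μ e).toReal else 0) = 0
    rw [if_pos hP0, z3]; rfl
  · show (if Pn 0 then (qr G μ e).toReal else 0) = 0
    rw [if_pos hP0, z4]; rfl
  · intro n hn
    -- `Pn n` must hold
    have hPn : Pn n := by
      by_contra hcon
      have hX : X n = 1 := if_neg hcon
      have hY : Y n = 0 := if_neg hcon
      have hM : Mm n = 0 := if_neg hcon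
      have hR : R n = 0 := if_neg hcon
      rw [hX, hY, hM, hR] at hn
      have : (1:ℝ) / 10 ^ 6 ≤ 1 := by norm_num
      norm_num at hn
      linarith
    have eX : X n = (qx G (m n) e).toReal := if_pos hPn
    have eY : Y n = (qy G (m n) e).toReal := if_pos hPn
    have eM : Mm n = (qm G (m n) e).toReal := if_pos hPn
    have eR : R n = (qr G (m n) e).toReal := if_pos hPn
    rw [eX, eY, eM, eR] at hn
    have hH := hsmall n hPn hn
    have hPn' : Pn (n + 1) := by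
      intro k hk
      rcases Nat.lt_succ_iff_lt_or_eq.1 hk with h | h
      · exact hPn k h
      · subst h; exact hH
    have eX' : X (n + 1) = (qx G (m (n + 1)) e).toReal := if_pos hPn'
    have eY' : Y (n + 1) = (qy G (m (n + 1)) e).toReal := if_pos hPn'
    have eM' : Mm (n + 1) = (qm G (m (n + 1)) e).toReal := if_pos hPn'
    have eR' : R (n + 1) = (qr G (m (n + 1)) e).toReal := if_pos hPn'
    obtain ⟨_, f1, f2, f3, f4⟩ := hfin n hPn
    obtain ⟨_, ho⟩ := one_step hH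
    have hAt : qA δ ≠ ∞ := ENNReal.ofReal_ne_top
    have heta : eta G (m n) δ e ≠ ∞ := (hH.small.trans_lt ENNReal.ofReal_lt_top).ne
    have h3 : q3 G (m n) e ≠ ∞ :=
      (le_self_add.trans ho.h3S |>.trans_lt ENNReal.one_lt_top).ne
    have hp' : q3 G (m (n + 1)) e * qb G (m n) δ e ≠ ∞ := by
      refine (ho.p3u.trans_lt (ENNReal.add_ne_top.2 ⟨h3, ENNReal.mul_ne_top ?_ heta⟩).lt_top).ne
      exact ENNReal.pow_ne_top (by simp)
    have hfinal := iter_real f1 f2 f3 f4 hAt rfl ho.hb ho.h3S ho.hh ho.x ho.y ho.m ho.r ho.p3u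
      ho.p3l hp'
    rw [hAreal] at hfinal
    rw [eX, eY, eM, eR, eX', eY', eM', eR']
    exact hfinal

end Pool.Agent.PM
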