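import Pool.Agent.Lib.MP_947a32_pr.Rinv

/-! # MP_947a32_pr : decision scenario (helper92) -/

set_option autoImplicit false

open Classical MeasureTheory
open scoped ENNReal

namespace Pool.Agent.PM

variable {V : Type} {G : SimpleGraph V}

/-- the comp of `v` before the edge `p0` is processed: intact, or absorbed -/
def o4Side (O : Set (V × V)) (σ : St V) (v : V) (p0 : V × V) (τ : St V) : Prop :=
  p0 ∈ (τ v).ports ∧
    (((τ v).comp = (σ v).comp ∧ (τ v).spec = ∅ ∧ (τ v).M = (σ v).M) ∨
      (p0 ∈ (τ v).spec ∧ (∀ p ∈ (τ v).ports, p ≠ p0 → (τ v).M p = (σ v).M p0) ∧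
        2 ≤ (unop O (τ v)).card))

/-- hypotheses on one side -/
structure o4Hyp (O : Set (V × V)) (σ : St V) (v : V) (p0 : V × V) : Prop where
  mem : p0 ∈ (σ v).ports
  sp : (σ v).spec = ∅
  op : ∀ q ∈ (σ v).ports, opd O q
  tr : ∀ q ∈ (σ v).ports, q ≠ p0 → ¬ tr O σ q

theorem o4_three {S : Finset (V × V)} {p : V × V} {U : Finset (V × V)} (h1 : U ⊆ S) (hp : p ∈ S)
    (hpU : p ∉ U) (h2 : 2 ≤ U.card) : 3 ≤ S.card := by
  have h3 : insert p U ⊆ S := by
    intro y hy
    rcases Finset.mem_insert.1 hy with rfl | hy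
    · exact hp
    · exact h1 hy
  have h4 := Finset.card_le_card h3
  rw [Finset.card_insert_of_notMem hpU] at h4
  omega

theorem o4_unop_sub {O : Set (V × V)} (L : Loc V) : unop O L ⊆ L.ports := Finset.filter_subset _ _

theorem o4_unop_op (hG : G.IsTree) {O : Set (V × V)} {τ : St V} (h : WF0 G τ) {d : V × V}
    (ho : opd O d) (x : V) : unop O (τ x) ⊆ unop O (op τ d x) := by
  intro q hq
  simp only [unop, Finset.mem_filter] at hq ⊢
  refine ⟨ri_port_op hG h hq.1 ?_ ?_, hq.2⟩
  · rintro rfl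
    exact hq.2 ho
  · rintro rfl
    exact hq.2 ((st_opd_swap O d).2 ho)

theorem o4_mem_ports (hG : G.IsTree) {σ τ : St V} {O : Set (V × V)} {S S' : Finset (V × V)}
    (h : RInv G O σ S S' τ) (hσ : WF0 G σ) {v : V} (hc : (τ v).comp = (σ v).comp) {q : V × V}
    (hq : q ∈ (τ v).ports) : q ∈ (σ v).ports := by
  obtain ⟨h1, h2⟩ := h.wf.st_mem_iff.1 hq
  rw [hc] at h1
  exact hσ.st_mem_iff.2 ⟨h1, (st_chill_alive.1 (h.al q h2)).1⟩

/-- the neighbour of the intact comp over `q` -/
theorem o4_nbr (hG : G.IsTree) {σ τ : St V} {O : Set (V × V)} {S S' : Finset (V × V)}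
    (hσ : WF G σ) (h : RInv G O σ S S' τ) {v : V} {p0 : V × V} (H : o4Hyp O σ v p0)
    {q : V × V} (hq : q ∈ (σ v).ports) (hne : q ≠ p0) (hal : alive τ q) :
    q.swap ∉ (τ q.2).spec ∧ 2 ≤ (unop O (τ q.2)).card ∧ 3 ≤ (τ q.2).ports.card := by
  have h1 := H.tr q hq hne
  unfold tr at h1
  push Not at h1
  obtain ⟨h2, h3⟩ := h1
  have h4 : 2 ≤ (unop O (σ q.2)).card := by
    have : bu O σ q ⊆ unop O (σ q.2) := by
      intro g hg
      simp only [bu, onw, unop, Finset.mem_filter, Finset.mem_erase] at hg ⊢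
      exact ⟨hg.1.2, hg.2⟩
    exact (by omega : 2 ≤ (bu O σ q).card).trans (Finset.card_le_card this)
  have h5 : unop O (σ q.2) ⊆ unop O (τ q.2) := by
    intro g hg
    have h6 := h.un q.2 hg
    simp only [unop, Finset.mem_filter] at hg ⊢
    exact ⟨h6, hg.2⟩
  have h6 : 2 ≤ (unop O (τ q.2)).card := h4.trans (Finset.card_le_card h5)
  have h7 : q.swap ∈ (τ q.2).ports := h.wf.st_alive_swap hal
  refine ⟨?_, h6, ?_⟩
  · intro h8
    rcases h.fl q.2 q.swap h8 with h9 | h9
    · exact h2 h9
    · have h10 := Finset.card_le_card h9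
      rw [Finset.card_singleton] at h10
      change (unop O (σ q.2)).card ≤ 1 at h10
      omega
  · apply o4_three (o4_unop_sub _) h7 _ h6
    intro h8
    simp only [unop, Finset.mem_filter] at h8
    exact h8.2 ((st_opd_swap O q).2 (H.op q hq))

theorem o4_side_step (hG : G.IsTree) {σ τ : St V} {O : Set (V × V)} {S S' : Finset (V × V)}
    (hσ : WF G σ) (h : RInv G O σ S S' τ) {v : V} {p0 : V × V} (H : o4Hyp O σ v p0)
    {d : V × V} (ho : opd O d) (hd1 : d ≠ p0) (hd2 : d.swap ≠ p0)
    (hS : o4Side O σ v p0 τ) : o4Side O σ v p0 (op τ d) := by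
  obtain ⟨hp0, hS⟩ := hS
  have hp0' : p0 ∈ (op τ d v).ports := by
    apply ri_port_op hG h.wf.toWF0 hp0 (Ne.symm hd1) (Ne.symm hd2)
  refine ⟨hp0', ?_⟩
  by_cases hq : ∃ q, (d = q ∨ d = q.swap) ∧ q ∈ (τ v).ports
  · obtain ⟨q, hdq, hq⟩ := hq
    have hqp : q ≠ p0 := by
      rcases hdq with rfl | rfl
      · exact hd1
      · rw [Prod.swap_swap] at hd2
        exact hd2
    have hoq : opd O q := by
      rcases hdq with rfl | rfl
      · exact ho
      · exact (st_opd_swap O q).1 ho
    have hqs : q.swap ∉ (τ v).ports := ri_swap hG h.wf.toWF0 hq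
    have hal : alive τ q := h.wf.st_alive_of_mem hq
    rcases hS with ⟨s1, s2, s3⟩ | ⟨s1, s2, s3⟩
    · -- intact
      have hq' : q ∈ (σ v).ports := o4_mem_ports hG h hσ.toWF0 s1 hq
      obtain ⟨n1, n2, n3⟩ := o4_nbr hG hσ h H hq' hqp hal
      have hqspec : q ∉ (τ v).spec := by rw [s2]; simp
      rcases ri_op_touch hG h.wf hdq hq with ⟨-, -, -, c1, c2, c3, c4⟩ | ⟨c1, c2, c3⟩
      · left
        refine ⟨by rw [c1, s1], by rw [c3, s2]; simp, by rw [c4, s3]⟩
      · rcases c3 with ⟨c3, -, -⟩ | ⟨-, c3, -, -, -⟩ | ⟨-, c3, -, c4, c5⟩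
        · exact absurd (iff_of_false hqspec n1) c3
        · omega
        · right
          have hpair : (τ v).ports = {q, p0} := by
            symm
            apply Finset.eq_of_subset_of_card_le
            · intro y hy
              simp only [Finset.mem_insert, Finset.mem_singleton] at hy
              rcases hy with rfl | rfl
              · exact hq
              · exact hp0
            · rw [c3, Finset.card_pair hqp]
          refine ⟨?_, ?_, ?_⟩
          · rw [c4, s2]
            simp only [Finset.sdiff_empty, Finset.mem_union, Finset.mem_erase]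
            exact Or.inl ⟨Ne.symm hqp, hp0⟩
          · intro p hp hpne
            rw [c2, Finset.mem_union] at hp
            rcases hp with hp | hp
            · rw [Finset.mem_erase, hpair] at hp
              simp only [Finset.mem_insert, Finset.mem_singleton] at hp
              rcases hp.2 with h8 | h8
              · exact absurd h8 hp.1
              · exact absurd h8 hpne
            · rw [c5, if_pos (Finset.mem_of_mem_erase hp), ri_other_pair hpair (Ne.symm hqp), s3]
          · have : unop O (τ q.2) ⊆ unop O (op τ d v) := by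
              intro g hg
              simp only [unop, Finset.mem_filter] at hg ⊢
              refine ⟨?_, hg.2⟩
              rw [c2, Finset.mem_union]
              right
              rw [Finset.mem_erase]
              refine ⟨?_, hg.1⟩
              rintro rfl
              exact hg.2 ((st_opd_swap O q).2 hoq)
            exact n2.trans (Finset.card_le_card this)
    · -- absorbed
      right
      have hun : 2 ≤ (unop O (op τ d v)).card :=
        s3.trans (Finset.card_le_card (o4_unop_op hG h.wf.toWF0 ho v))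
      have h3 : 3 ≤ (τ v).ports.card := by
        apply o4_three (o4_unop_sub _) hp0 _ s3
        intro h8
        simp only [unop, Finset.mem_filter] at h8
        exact h8.2 (H.op p0 H.mem)
      refine ⟨?_, ?_, hun⟩
      · rcases ri_op_touch hG h.wf hdq hq with ⟨-, -, -, c1, c2, c3, c4⟩ | ⟨c1, c2, c3⟩
        · rw [c3, Finset.mem_erase]
          exact ⟨Ne.symm hqp, s1⟩
        · rcases c3 with ⟨-, c3, -⟩ | ⟨-, -, -, c3, -⟩ | ⟨-, c3, -, -, -⟩
          · rw [c3, Finset.mem_union, Finset.mem_erase]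
            exact Or.inl ⟨Ne.symm hqp, s1⟩
          · rw [c3, Finset.mem_union, Finset.mem_erase]
            exact Or.inl ⟨Ne.symm hqp, s1⟩
          · omega
      · intro p hp hpne
        rcases ri_op_touch hG h.wf hdq hq with ⟨-, -, -, c1, c2, c3, c4⟩ | ⟨c1, c2, c3⟩
        · rw [c2] at hp
          rw [c4]
          exact s2 p (Finset.mem_of_mem_erase hp) hpne
        · have key : ∀ p, (op τ d v).M p = (if p ∈ (τ q.2).ports then (τ v).M q else (τ v).M p) →
              p ∈ (op τ d v).ports → p ≠ p0 → (op τ d v).M p = (σ v).M p0 := by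
            intro p hM hp hpne
            rw [hM]
            split_ifs with h5
            · exact s2 q hq hqp
            · rw [c2, Finset.mem_union] at hp
              rcases hp with hp | hp
              · exact s2 p (Finset.mem_of_mem_erase hp) hpne
              · exact absurd (Finset.mem_of_mem_erase hp) h5
          rcases c3 with ⟨-, -, c3⟩ | ⟨-, -, -, -, c3⟩ | ⟨-, c3, -, -, -⟩
          · exact key p (c3 p) hp hpne
          · exact key p (c3 p) hp hpne
          · omega
  · have h1 : op τ d v = τ v := ri_op_other h.wf.toWF0 (fun h1 => hq ⟨d, Or.inl rfl, h1⟩)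
        (fun h1 => hq ⟨d.swap, Or.inr (Prod.swap_swap d).symm, h1⟩)
    rw [h1]
    exact hS

/-- when `p0` is processed, the comp of `v` has been absorbed -/
theorem o4_side_last (hG : G.IsTree) {σ τ : St V} {O : Set (V × V)} {S S' : Finset (V × V)}
    (hσ : WF G σ) (h : RInv G O σ S S' τ) {v : V} {p0 : V × V} (H : o4Hyp O σ v p0)
    (hlast : ∀ q ∈ (σ v).ports, q ≠ p0 → ¬ alive τ q) (hS : o4Side O σ v p0 τ) :
    p0 ∈ (τ v).spec ∧ (∀ p ∈ (τ v).ports, p ≠ p0 → (τ v).M p = (σ v).M p0) ∧
      3 ≤ (τ v).ports.card := by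
  obtain ⟨hp0, ⟨s1, s2, s3⟩ | ⟨s1, s2, s3⟩⟩ := hS
  · exfalso
    have h1 : 1 < (τ v).ports.card := h.wf.two v
    obtain ⟨q, hq, hne⟩ := Finset.exists_mem_ne h1 p0
    exact hlast q (o4_mem_ports hG h hσ.toWF0 s1 hq) hne (h.wf.st_alive_of_mem hq)
  · refine ⟨s1, s2, ?_⟩
    apply o4_three (o4_unop_sub _) hp0 _ s3
    intro h8
    simp only [unop, Finset.mem_filter] at h8
    exact h8.2 (H.op p0 H.mem)

/-- decision scenario -/
theorem out4 (hG : G.IsTree) {σ : St V} (h : WF G σ) {O : Set (V × V)} {t : V × V → ℝ}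
    (ht : TI G t) {v : V} (hf : (hotSet O t σ v).Finite) {p0 : V × V} (hp0 : p0 ∈ (σ v).ports)
    (hA : (σ v).spec = ∅) (hB : (σ p0.2).spec = ∅)
    (hAo : ∀ q ∈ (σ v).ports, opd O q) (hBo : ∀ q ∈ (σ p0.2).ports, opd O q)
    (hAt : ∀ q ∈ (σ v).ports, q ≠ p0 → min (t q) (t q.swap) < min (t p0) (t p0.swap))
    (hBt : ∀ q ∈ (σ p0.2).ports, q ≠ p0.swap → min (t q) (t q.swap) < min (t p0) (t p0.swap))
    (hAn : ∀ q ∈ (σ v).ports, q ≠ p0 → ¬ tr O σ q)
    (hBn : ∀ q ∈ (σ p0.2).ports, q ≠ p0.swap → ¬ tr O σ q) :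
    Dec (step O t σ) v ((σ v).M p0) := by
  have h0 := h.toWF0
  have hp0s : p0.swap ∈ (σ p0.2).ports := h.swap v p0 hp0
  have HA : o4Hyp O σ v p0 := ⟨hp0, hA, hAo, hAn⟩
  have HB : o4Hyp O σ p0.2 p0.swap := ⟨hp0s, hB, hBo, hBn⟩
  -- all the ports of the two comps are hot
  have hhot : ∀ x, (∀ q ∈ (σ x).ports, opd O q) → ∀ q ∈ (σ x).ports, hot O σ q := by
    intro x hx q hq
    obtain ⟨-, e2, -⟩ := h0.eqv x q.1 (h0.tail x q hq).1
    refine ⟨h0.st_alive_of_mem hq, h0.swap x q hq, hx q hq, Or.inr (Or.inr (Or.inl ?_))⟩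
    have : unop O (σ q.1) = ∅ := by
      unfold unop
      rw [e2]
      exact Finset.filter_false_of_mem fun g hg => by
        rw [not_not]; exact hx g hg
    rw [this]
    simp
  have hhA := hhot v hAo
  have hhB := hhot p0.2 hBo
  have hreg1 : p0.1 ∈ region O σ v := st_region_comp (h0.tail v p0 hp0).1
  have hreg2 : p0.2 ∈ region O σ v :=
    st_region_trans hreg1 (st_region_hot (hhA p0 hp0))
  -- representative of an edge
  have hrep : ∀ q, hot O σ q → q.1 ∈ region O σ v → ∃ d ∈ hf.toFinset, (d = q ∨ d = q.swap) ∧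
      t d = min (t q) (t q.swap) := by
    intro q hq hr
    have hadj : G.Adj q.1 q.2 := h0.st_adj_of_alive (st_hot_alive hq)
    have hne : t q ≠ t q.swap := by
      intro h3
      have h4 := ht q q.swap hadj hadj.symm h3
      have h5 : q.1 = q.2 := congrArg Prod.fst h4
      exact hadj.ne h5
    rcases lt_or_gt_of_ne hne with h3 | h3
    · exact ⟨q, hf.mem_toFinset.2 ⟨hr, hq, h3⟩, Or.inl rfl, (min_eq_left h3.le).symm⟩
    · refine ⟨q.swap, hf.mem_toFinset.2 ⟨?_, (hot_swap O q).2 hq, ?_⟩, Or.inr rfl,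
        (min_eq_right h3.le).symm⟩
      · exact st_region_trans hr (st_region_hot hq)
      · rwa [Prod.swap_swap]
  have hTI : ∀ d ∈ hf.toFinset, ∀ d' ∈ hf.toFinset, t d = t d' → d = d' := by
    intro d hd d' hd' h4
    have h5 := st_hotSet_hot (hf.mem_toFinset.1 hd)
    have h6 := st_hotSet_hot (hf.mem_toFinset.1 hd')
    exact ht d d' (h0.st_adj_of_alive (st_hot_alive h5)) (h0.st_adj_of_alive (st_hot_alive h6)) h4
  obtain ⟨r0, hr0, hr0', hr0t⟩ := hrep p0 (hhA p0 hp0) hreg1
  -- when `p0` is processed, nothing else is alive at the two comps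
  have hlast : ∀ (S' : Finset (V × V)) (τ : St V), RInv G O σ hf.toFinset S' τ →
      (∀ d' ∈ S', d' ≠ r0 → t r0 < t d') → ∀ q, hot O σ q → q.1 ∈ region O σ v →
      min (t q) (t q.swap) < min (t p0) (t p0.swap) → ¬ alive τ q := by
    intro S' τ hR hmin q hq hr hlt hal
    obtain ⟨d, hd, hd', hdt⟩ := hrep q hq hr
    have hdS : d ∈ S' := by
      by_contra hcon
      obtain ⟨h1, h2⟩ := hR.dead d hd hcon
      rcases hd' with rfl | rfl
      · exact h1 hal
      · rw [Prod.swap_swap] at h2
        exact h2 hal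
    rw [← hdt, ← hr0t] at hlt
    by_cases hdr : d = r0
    · rw [hdr] at hlt
      exact lt_irrefl _ hlt
    · exact lt_asymm hlt (hmin d hdS hdr)
  have key := st_run_full (P := fun S' τ => RInv G O σ hf.toFinset S' τ ∧
      ((o4Side O σ v p0 τ ∧ o4Side O σ p0.2 p0.swap τ) ∨ Dec τ v ((σ v).M p0))) t
    (by
      rintro S' τ d hd hmin ⟨hR, hP⟩
      have hdh : hot O σ d := st_hotSet_hot (hf.mem_toFinset.1 (hR.sub hd))
      have hdo : opd O d := st_hot_opd hdh
      refine ⟨hR.step hG hd hdo, ?_⟩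
      rcases hP with ⟨hP1, hP2⟩ | hP
      · by_cases hdp : d = p0 ∨ d = p0.swap
        · right
          -- `p0` is processed now
          have hdr : d = r0 := by
            by_contra hne
            have h1 := (hf.mem_toFinset.1 (hR.sub hd)).2.2
            have h2 := (hf.mem_toFinset.1 hr0).2.2
            rcases hdp with rfl | rfl <;> rcases hr0' with rfl | rfl
            · exact hne rfl
            · rw [Prod.swap_swap] at h2
              exact lt_asymm h1 h2
            · rw [Prod.swap_swap] at h1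
              exact lt_asymm h1 h2
            · exact hne rfl
          rw [hdr] at hmin
          have hA1 : ∀ q ∈ (σ v).ports, q ≠ p0 → ¬ alive τ q := fun q hq hne =>
            hlast S' τ hR hmin q (hhA q hq) (st_region_comp (h0.tail v q hq).1) (hAt q hq hne)
          have hB1 : ∀ q ∈ (σ p0.2).ports, q ≠ p0.swap → ¬ alive τ q := fun q hq hne =>
            hlast S' τ hR hmin q (hhB q hq)
              (st_region_trans hreg2 (st_region_comp (h0.tail p0.2 q hq).1)) (hBt q hq hne)
          obtain ⟨a1, a2, a3⟩ := o4_side_last hG h hR HA hA1 hP1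
          obtain ⟨b1, b2, b3⟩ := o4_side_last hG h hR HB hB1 hP2
          rcases ri_op_touch hG hR.wf hdp hP1.1 with ⟨-, -, -, -, c2, -, c4⟩ | ⟨-, -, c3⟩
          · intro p hp
            rw [c2, Finset.mem_erase] at hp
            rw [c4]
            exact a2 p hp.2 hp.1
          · exfalso
            rcases c3 with ⟨c3, -, -⟩ | ⟨-, c3, -, -, -⟩ | ⟨-, c3, -, -, -⟩
            · exact c3 (iff_of_true a1 b1)
            · omega
            · omega
        · push Not at hdp
          left
          have hd2 : d.swap ≠ p0 := by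
            intro h1
            apply hdp.2
            rw [← h1, Prod.swap_swap]
          have hd3 : d.swap ≠ p0.swap := by
            intro h1
            exact hdp.1 (Prod.swap_injective h1)
          exact ⟨o4_side_step hG h hR HA hdo hdp.1 hd2 hP1,
            o4_side_step hG h hR HB hdo hdp.2 hd3 hP2⟩
      · exact Or.inr (op_Dec hR.wf.toWF0 d hP))
    hf.toFinset.card hf.toFinset (chill O σ) rfl hTI
    (by
      refine ⟨RInv.init hG h O _, Or.inl ⟨⟨?_, Or.inl ⟨rfl, ?_, rfl⟩⟩, ⟨?_, Or.inl ⟨rfl, ?_, rfl⟩⟩⟩⟩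
      · exact st_mem_chill_ports.2 ⟨hp0, fun _ => hhA p0 hp0⟩
      · simp [chill, hA]
      · exact st_mem_chill_ports.2 ⟨hp0s, fun _ => hhB _ hp0s⟩
      · simp [chill, hB])
  obtain ⟨hR, hP⟩ := key
  apply st_Dec_step_of_pre
  unfold st_pre
  rw [dif_pos hf]
  rcases hP with ⟨hP1, -⟩ | hP
  · exfalso
    have hal : alive _ p0 := hR.wf.st_alive_of_mem hP1.1
    obtain ⟨h1, h2⟩ := hR.dead r0 hr0 (by simp)
    rcases hr0' with h3 | h3
    · rw [h3] at h1
      exact h1 hal
    · rw [h3, Prod.swap_swap] at h2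
      exact h2 hal
  · exact hP

end Pool.Agent.PM
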