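import Pool.Agent.Lib.MP_947a32_pr.NsysB
import Pool.Agent.Lib.MP_947a32_pr.Out4
import Pool.Agent.Lib.MP_947a32_pr.RfxB
import Pool.Agent.Lib.MP_947a32_pr.Defs2

/-! Piece 25-VDEC (helper34): decision probability of a tagged vertex. -/

set_option autoImplicit false
set_option linter.unusedSectionVars false
set_option linter.unusedVariables false

open Classical MeasureTheory
open scoped ENNReal

namespace Pool.Agent.PM

variable {V : Type} {G : SimpleGraph V}

namespace Vd

/-! ### labels -/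

/-- the labels of the ports `P` favour the port `p` -/
def fav (δ : ℝ) (l : Lb G) (P : Finset (V × V)) (p : V × V) : Prop :=
  lab l 0 p < δ ∧ 1 / 2 < lab l 1 p ∧ ∀ q ∈ P, q ≠ p → lab l 1 q < 1 / 2

theorem unif_Iio {δ : ℝ} (h1 : δ ≤ 1) : unif (Set.Iio δ) = ENNReal.ofReal δ := by
  unfold unif
  rw [Measure.restrict_apply measurableSet_Iio]
  have : Set.Iio δ ∩ Set.Icc 0 1 = Set.Ico 0 δ := by
    ext x; simp only [Set.mem_inter_iff, Set.mem_Iio, Set.mem_Icc, Set.mem_Ico]
    constructor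
    · rintro ⟨a, b, c⟩; exact ⟨b, a⟩
    · rintro ⟨a, b⟩; exact ⟨b, a, by linarith⟩
  rw [this, Real.volume_Ico, sub_zero]

theorem unif_Ioi_half : unif (Set.Ioi (1 / 2 : ℝ)) = ENNReal.ofReal (1 / 2) := by
  unfold unif
  rw [Measure.restrict_apply measurableSet_Ioi]
  have : Set.Ioi (1 / 2 : ℝ) ∩ Set.Icc 0 1 = Set.Ioc (1 / 2) 1 := by
    ext x; simp only [Set.mem_inter_iff, Set.mem_Ioi, Set.mem_Icc, Set.mem_Ioc]
    constructor
    · rintro ⟨a, b, c⟩; exact ⟨a, c⟩
    · rintro ⟨a, b⟩; exact ⟨a, by linarith, b⟩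
  rw [this, Real.volume_Ioc]; norm_num

theorem lam_fav {δ : ℝ} (h0 : 0 < δ) (h1 : δ ≤ 1) (P : Finset (V × V))
    (hP : ∀ q ∈ P, G.Adj q.1 q.2) {p : V × V} (hp : p ∈ P) (hc : P.card ≤ 1000) :
    ENNReal.ofReal (δ / 2 ^ 1000) ≤ lam G {l | fav δ l P p} := by
  set I1 : Finset (Dt G × Fin 3) :=
    P.attach.image (fun q => ((⟨q.1, hP q.1 q.2⟩ : Dt G), (1 : Fin 3))) with hI1
  set i0 : Dt G × Fin 3 := ((⟨p, hP p hp⟩ : Dt G), (0 : Fin 3)) with hi0
  set B : Dt G × Fin 3 → Set ℝ := fun i =>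
    if i.2 = 0 then Set.Iio δ else if i.1.1 = p then Set.Ioi (1 / 2) else Set.Iio (1 / 2) with hB
  have hBm : ∀ i, MeasurableSet (B i) := by
    intro i; simp only [hB]; split_ifs
    · exact measurableSet_Iio
    · exact measurableSet_Ioi
    · exact measurableSet_Iio
  have hi0n : i0 ∉ I1 := by
    simp only [hI1, Finset.mem_image, not_exists, not_and]
    intro q _ hq
    have := congrArg Prod.snd hq
    simp only [hi0] at this
    exact absurd this (by decide)
  have hsub : Set.pi (↑(insert i0 I1) : Set (Dt G × Fin 3)) B ⊆ {l : Lb G | fav δ l P p} := by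
    intro l hl
    have hlp : ∀ q (hq : q ∈ P), l ((⟨q, hP q hq⟩ : Dt G), (1 : Fin 3)) ∈
        B ((⟨q, hP q hq⟩ : Dt G), (1 : Fin 3)) := by
      intro q hq
      apply hl
      simp only [Finset.coe_insert, Set.mem_insert_iff, Finset.mem_coe, hI1, Finset.mem_image]
      right; exact ⟨⟨q, hq⟩, Finset.mem_attach _ _, rfl⟩
    have hl0 : l i0 ∈ B i0 := hl i0 (by simp)
    refine ⟨?_, ?_, ?_⟩
    · unfold lab; rw [dif_pos (hP p hp)]
      simpa [hB, hi0] using hl0
    · unfold lab; rw [dif_pos (hP p hp)]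
      simpa [hB] using hlp p hp
    · intro q hq hqp
      unfold lab; rw [dif_pos (hP q hq)]
      simpa [hB, hqp] using hlp q hq
  refine le_trans ?_ (measure_mono hsub)
  have hpi : lam G (Set.pi (↑(insert i0 I1) : Set (Dt G × Fin 3)) B) =
      ∏ i ∈ insert i0 I1, unif (B i) := by
    unfold lam
    exact Measure.infinitePi_pi (μ := fun _ : Dt G × Fin 3 => unif) (fun i _ => hBm i)
  rw [hpi, Finset.prod_insert hi0n]
  have e1 : unif (B i0) = ENNReal.ofReal δ := by
    simp only [hB, hi0, if_true]; exact unif_Iio h1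
  have e2 : ∀ i ∈ I1, ENNReal.ofReal (1 / 2) = unif (B i) := by
    intro i hi
    simp only [hI1, Finset.mem_image] at hi
    obtain ⟨q, _, rfl⟩ := hi
    simp only [hB]
    rw [if_neg (by decide)]
    split_ifs
    · exact unif_Ioi_half.symm
    · exact (unif_Iio (by norm_num)).symm
  rw [e1, ← Finset.prod_congr rfl e2, Finset.prod_const]
  have hcard : I1.card ≤ 1000 := le_trans Finset.card_image_le (by simpa using hc)
  have : ENNReal.ofReal (δ / 2 ^ 1000) = ENNReal.ofReal δ * ENNReal.ofReal (1 / 2) ^ 1000 := by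
    rw [← ENNReal.ofReal_pow (by norm_num), ← ENNReal.ofReal_mul h0.le]
    congr 1; rw [one_div, inv_pow]; rfl
  rw [this]
  refine mul_le_mul' le_rfl ?_
  refine pow_le_pow_of_le_one zero_le ?_ hcard
  rw [ENNReal.ofReal_le_one]; norm_num

/-! ### ind -/

theorem ind_le_one (P : Prop) : ind P ≤ 1 := by unfold ind; split_ifs <;> simp
theorem ind_true {P : Prop} (h : P) : ind P = 1 := by unfold ind; rw [if_pos h]
theorem ind_false {P : Prop} (h : ¬ P) : ind P = 0 := by unfold ind; rw [if_neg h]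
theorem ind_mono {P Q : Prop} (h : P → Q) : ind P ≤ ind Q := by
  by_cases hP : P
  · rw [ind_true hP, ind_true (h hP)]
  · rw [ind_false hP]; exact zero_le
theorem ind_ne_zero {P : Prop} (h : ind P ≠ 0) : P := by
  by_contra hP; exact h (ind_false hP)
theorem ind_congr {P Q : Prop} (h : P ↔ Q) : ind P = ind Q := by rw [propext h]
theorem ind_and (P Q : Prop) : ind (P ∧ Q) = ind P * ind Q := by
  by_cases hP : P <;> by_cases hQ : Q <;> simp [ind, hP, hQ]
theorem meas_ind {X : Type} [MeasurableSpace X] {P : X → Prop} (h : MeasurableSet {x | P x}) :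
    Measurable (fun x => ind (P x)) := by
  unfold ind
  exact Measurable.ite h measurable_const measurable_const

/-! ### measurability -/

section Meas

variable {X : Type} [MeasurableSpace X] [Countable V]

theorem meas_of_ports {s : X → St V} (hs : Measurable s) (v : V) {Q : Finset (V × V) → X → Prop}
    (hQ : ∀ P, MeasurableSet {x | Q P x}) : MeasurableSet {x | Q (s x v).ports x} := by
  have : {x | Q (s x v).ports x} = ⋃ P : Finset (V × V), ({x | (s x v).ports = P} ∩ {x | Q P x}) := by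
    ext x; simp only [Set.mem_ofPred_eq, Set.mem_iUnion, Set.mem_inter_iff]
    constructor
    · intro h; exact ⟨_, rfl, h⟩
    · rintro ⟨P, h1, h2⟩; rw [h1]; exact h2
  rw [this]
  exact MeasurableSet.iUnion fun P => (meas_ports hs v (fun S => S = P)).inter (hQ P)

theorem meas_sum_ports {s : X → St V} (hs : Measurable s) (v : V) {h : X → V × V → ℝ≥0∞}
    (hh : ∀ p, Measurable (fun x => h x p)) (F : Finset (V × V) → Finset (V × V)) :
    Measurable (fun x => ∑ p ∈ F (s x v).ports, h x p) := by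
  have : (fun x => ∑ p ∈ F (s x v).ports, h x p) =
      fun x => ∑' p : V × V, ind (p ∈ F (s x v).ports) * h x p := by
    funext x
    rw [tsum_eq_sum (s := F (s x v).ports)]
    · exact Finset.sum_congr rfl fun p hp => by rw [ind_true hp, one_mul]
    · intro p hp; rw [ind_false hp, zero_mul]
  rw [this]
  refine Measurable.tsum fun p => ?_
  exact (meas_ind (meas_ports hs v (fun S => p ∈ F S))).mul (hh p)

theorem meas_und {s : X → St V} (hs : Measurable s) (v : V) :
    MeasurableSet {x | und (s x) v} := by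
  have : {x | und (s x) v} = (⋃ w : V, {x | Dec (s x) v w})ᶜ := by
    ext x; simp [und]
  rw [this]
  refine (MeasurableSet.iUnion fun w => ?_).compl
  have : {x | Dec (s x) v w} =
      ⋂ p : V × V, ({x | p ∈ (s x v).ports}ᶜ ∪ {x | (s x v).M p = w}) := by
    ext x
    simp only [Dec, Set.mem_ofPred_eq, Set.mem_iInter, Set.mem_union, Set.mem_compl_iff]
    exact forall_congr' fun p => imp_iff_not_or
  rw [this]
  exact MeasurableSet.iInter fun p =>
    ((meas_ports hs v (fun S => p ∈ S)).compl).union (meas_M hs v p (fun u => u = w))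

end Meas

/-! ### geometry -/

variable {σ : St V}

theorem port_side (h : WF0 G σ) {v : V} {p : V × V} (hp : p ∈ (σ v).ports) :
    G.Adj p.1 p.2 ∧ alive σ p ∧ alive σ p.swap ∧ ∀ x ∈ (σ v).comp, side G p x := by
  obtain ⟨h1, h2⟩ := h.tail v p hp
  have ha : p ∈ (σ p.1).ports := by rw [(h.eqv v p.1 h1).2.1]; exact hp
  have hs := h.swap v p hp
  refine ⟨h2, ha, hs, ?_⟩
  intro x hx
  rw [h.sep p ha v x hx, ← h.sep p ha v p.1 h1]
  exact side_fst h2

/-- every port of the comp of `v` other than `p` has its tail on the tail side of `p` -/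
theorem port_tail_side (h : WF0 G σ) {v : V} {p q : V × V} (hp : p ∈ (σ v).ports)
    (hq : q ∈ (σ v).ports) : side G p q.1 :=
  (port_side h hp).2.2.2 _ (h.tail v q hq).1

/-- the head side of a port `q ≠ p` of the same comp is on the tail side of `p` -/
theorem port_head_side (hG : G.IsTree) (h : WF0 G σ) {v : V} {p q : V × V}
    (hp : p ∈ (σ v).ports) (hq : q ∈ (σ v).ports) (hne : q ≠ p) :
    ∀ x, side G q.swap x → side G p x := by
  intro x hx
  have hqa := (port_side h hq).1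
  rw [← side_iff hG hqa] at hx
  exact side_disj hG hqa (port_side h hp).1 (port_tail_side h hq hp) (port_tail_side h hp hq) hne
    x hx

theorem agr_mono {e e' : V × V} {x y : XX G} (h : ∀ v, side G e' v → side G e v)
    (hA : Agr G e x y) : Agr G e' x y :=
  ⟨fun v hv => hA.1 v (h v hv), fun d i hd => hA.2 d i (h _ hd)⟩

theorem agr_symm {e : V × V} {x y : XX G} (hA : Agr G e x y) : Agr G e y x :=
  ⟨fun v hv => (hA.1 v hv).symm, fun d i hd => (hA.2 d i hd).symm⟩

theorem agr_lab {e : V × V} {x y : XX G} (hA : Agr G e x y) (i : Fin 3) {d : V × V}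
    (hd : side G e d.1) : lab x.2 i d = lab y.2 i d := by
  unfold lab
  by_cases h : G.Adj d.1 d.2
  · rw [dif_pos h, dif_pos h]; exact hA.2 ⟨d, h⟩ i hd
  · rw [dif_neg h, dif_neg h]

theorem fav_local {e : V × V} {x y : XX G} (hA : Agr G e x y) {δ : ℝ} {P : Finset (V × V)}
    (hP : ∀ q ∈ P, side G e q.1) {p : V × V} (hp : p ∈ P) : fav δ x.2 P p ↔ fav δ y.2 P p := by
  unfold fav
  rw [agr_lab hA 0 (hP p hp), agr_lab hA 1 (hP p hp)]
  refine and_congr Iff.rfl (and_congr Iff.rfl ?_)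
  refine forall_congr' fun q => ?_
  constructor
  · intro h hq hne; rw [← agr_lab hA 1 (hP q hq)]; exact h hq hne
  · intro h hq hne; rw [agr_lab hA 1 (hP q hq)]; exact h hq hne

theorem meas_fav (δ : ℝ) (P : Finset (V × V)) (p : V × V) :
    MeasurableSet {x : XX G | fav δ x.2 P p} := by
  have e1 : {x : XX G | fav δ x.2 P p} = {x : XX G | lab x.2 0 p < δ} ∩
      ({x : XX G | 1 / 2 < lab x.2 1 p} ∩
        ⋂ q ∈ P, {x : XX G | q ≠ p → lab x.2 1 q < 1 / 2}) := by
    ext x; simp [fav]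
  rw [e1]
  refine (measurableSet_lt ((meas_lab 0 p).comp measurable_snd) measurable_const).inter
    ((measurableSet_lt measurable_const ((meas_lab 1 p).comp measurable_snd)).inter ?_)
  refine MeasurableSet.biInter P.countable_toSet fun q _ => ?_
  by_cases hq : q = p
  · have : {x : XX G | q ≠ p → lab x.2 1 q < 1 / 2} = Set.univ := by
      ext x; simp [hq]
    rw [this]; exact MeasurableSet.univ
  · have : {x : XX G | q ≠ p → lab x.2 1 q < 1 / 2} = {x : XX G | lab x.2 1 q < 1 / 2} := by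
      ext x; simp [hq]
    rw [this]
    exact measurableSet_lt ((meas_lab 1 q).comp measurable_snd) measurable_const

/-! ### the functionals -/

/-- no flips and at most 1000 ports -/
def sm (L : Loc V) : Prop := L.spec = ∅ ∧ L.ports.card ≤ 1000

noncomputable def f0 (δ : ℝ) (x : XX G) (v : V) (p : V × V) : ℝ≥0∞ :=
  ind (und x.1 v ∧ sm (x.1 v) ∧ fav δ x.2 (x.1 v).ports p)

noncomputable def f1 (δ : ℝ) (x : XX G) (v : V) (p : V × V) : ℝ≥0∞ :=
  f0 δ x v p * ind (∀ q ∈ (x.1 v).ports, q ≠ p → ¬ tr (OO δ x) x.1 q)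

noncomputable def g0 (δ : ℝ) (x : XX G) (e : V × V) : ℝ≥0∞ :=
  ind (sm (x.1 e.2) ∧ fav δ x.2 (x.1 e.2).ports e.swap)

noncomputable def g1 (δ : ℝ) (x : XX G) (e : V × V) : ℝ≥0∞ :=
  g0 δ x e * ind (∀ q ∈ onw x.1 e, ¬ tr (OO δ x) x.1 q)

section Nice

variable [Countable V]

theorem meas_sm {X : Type} [MeasurableSpace X] {s : X → St V} (hs : Measurable s) (v : V) :
    MeasurableSet {x | sm (s x v)} :=
  (meas_spec hs v (fun S => S = ∅)).inter (meas_ports hs v (fun S => S.card ≤ 1000))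

theorem meas_f0 (δ : ℝ) (v : V) (p : V × V) : Measurable (fun x : XX G => f0 δ x v p) := by
  refine meas_ind ?_
  exact (meas_und measurable_fst v).inter ((meas_sm measurable_fst v).inter
    (meas_of_ports (Q := fun P (x : XX G) => fav δ x.2 P p) measurable_fst v
      (fun P => meas_fav δ P p)))

theorem meas_all_ntr (hT : G.IsTree) (δ : ℝ) (v : V) (F : Finset (V × V) → V × V → Prop) :
    MeasurableSet {x : XX G | ∀ q, F (x.1 v).ports q → ¬ tr (OO δ x) x.1 q} := by
  refine meas_of_ports (Q := fun P (x : XX G) => ∀ q, F P q → ¬ tr (OO δ x) x.1 q)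
    measurable_fst v (fun P => ?_)
  have : {x : XX G | ∀ q, F P q → ¬ tr (OO δ x) x.1 q} =
      ⋂ q : V × V, {x : XX G | F P q → ¬ tr (OO δ x) x.1 q} := by
    ext x; simp
  rw [this]
  refine MeasurableSet.iInter fun q => ?_
  by_cases hq : F P q
  · have : {x : XX G | F P q → ¬ tr (OO δ x) x.1 q} = {x : XX G | tr (OO δ x) x.1 q}ᶜ := by
      ext x; simp [hq]
    rw [this]; exact ((HP_tr hT δ).meas q).compl
  · have : {x : XX G | F P q → ¬ tr (OO δ x) x.1 q} = Set.univ := by
      ext x; simp [hq]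
    rw [this]; exact MeasurableSet.univ

theorem meas_f1 (hT : G.IsTree) (δ : ℝ) (v : V) (p : V × V) :
    Measurable (fun x : XX G => f1 δ x v p) := by
  refine (meas_f0 δ v p).mul (meas_ind ?_)
  have := meas_all_ntr hT δ v (fun P q => q ∈ P ∧ q ≠ p)
  simpa only [and_imp] using this

theorem meas_g0 (δ : ℝ) (e : V × V) : Measurable (fun x : XX G => g0 δ x e) := by
  refine meas_ind ?_
  exact (meas_sm measurable_fst e.2).inter
    (meas_of_ports (Q := fun P (x : XX G) => fav δ x.2 P e.swap) measurable_fst e.2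
      (fun P => meas_fav δ P e.swap))

theorem meas_g1 (hT : G.IsTree) (δ : ℝ) (e : V × V) : Measurable (fun x : XX G => g1 δ x e) := by
  refine (meas_g0 δ e).mul (meas_ind ?_)
  exact meas_all_ntr hT δ e.2 (fun P q => q ∈ P.erase e.swap)

/-! locality -/

/-- `¬ tr q` is local on the tail side of the port `p ≠ q` of the same comp -/
theorem tr_local_v (hT : G.IsTree) (δ : ℝ) {x y : XX G} (hx : WF0 G x.1) (hy : WF0 G y.1)
    {v : V} {p q : V × V} (hp : p ∈ (x.1 v).ports) (hv : x.1 v = y.1 v) (hq : q ∈ (x.1 v).ports)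
    (hne : q ≠ p) (hA : Agr G p x y) : tr (OO δ x) x.1 q ↔ tr (OO δ y) y.1 q := by
  have hq' : q ∈ (y.1 v).ports := hv ▸ hq
  exact (HP_tr hT δ).loc q (port_side hx hq).1 x y hx hy (port_side hx hq).2.2.1
    (port_side hy hq').2.2.1 (agr_mono (port_head_side hT hx hp hq hne) hA)

theorem und_congr {σ σ' : St V} {v : V} (h : σ v = σ' v) : und σ v ↔ und σ' v := by
  unfold und Dec; rw [h]

theorem f0_local (δ : ℝ) {x y : XX G} (hx : WF0 G x.1)
    {v : V} {p q : V × V} (hp : p ∈ (x.1 v).ports) (hq : q ∈ (x.1 v).ports)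
    (hA : Agr G p x y) : f0 δ x v q = f0 δ y v q := by
  have hv : x.1 v = y.1 v := hA.1 v ((port_side hx hp).2.2.2 v (hx.mem v))
  unfold f0
  apply ind_congr
  rw [und_congr hv, ← hv]
  rw [fav_local hA (fun r hr => port_tail_side hx hp hr) hq]

theorem Vt_f1 (hT : G.IsTree) (δ : ℝ) : Vt (G := G) (fun x v p => f1 δ x v p) := by
  refine ⟨fun v p => meas_f1 hT δ v p, ?_⟩
  intro v p x y hx hy hp hp' hA
  have hv : x.1 v = y.1 v := hA.1 v ((port_side hx hp).2.2.2 v (hx.mem v))
  show f1 δ x v p = f1 δ y v p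
  unfold f1
  rw [f0_local δ hx hp hp hA]
  congr 1
  apply ind_congr
  rw [← hv]
  refine forall_congr' fun q => ?_
  constructor
  · intro h hq hne; rw [← tr_local_v hT δ hx hy hp hv hq hne hA]; exact h hq hne
  · intro h hq hne; rw [tr_local_v hT δ hx hy hp hv hq hne hA]; exact h hq hne

theorem Vt_F (δ : ℝ) : Vt (G := G)
    (fun x v q => ∑ p ∈ (x.1 v).ports.erase q, f0 δ x v p) := by
  refine ⟨fun v q => meas_sum_ports measurable_fst v (fun p => meas_f0 δ v p)
    (fun S => S.erase q), ?_⟩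
  intro v q x y hx hy hq hq' hA
  have hv : x.1 v = y.1 v := hA.1 v ((port_side hx hq).2.2.2 v (hx.mem v))
  show ∑ p ∈ (x.1 v).ports.erase q, f0 δ x v p = ∑ p ∈ (y.1 v).ports.erase q, f0 δ y v p
  rw [← hv]
  exact Finset.sum_congr rfl fun p hp => f0_local δ hx hq (Finset.mem_of_mem_erase hp) hA

theorem lab_map (φ : G ≃g G) (x : XX G) (i : Fin 3) (d : V × V) :
    lab (XX.map φ x).2 i (mp φ.toEquiv d) = lab x.2 i d := by
  unfold lab
  by_cases h : G.Adj d.1 d.2
  · have h' : G.Adj (mp φ.toEquiv d).1 (mp φ.toEquiv d).2 := by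
      show G.Adj (φ d.1) (φ d.2); exact φ.map_adj_iff.2 h
    rw [dif_pos h, dif_pos h']
    refine congrArg x.2 (Prod.ext (Subtype.ext (Prod.ext ?_ ?_)) rfl)
    · show φ.symm (φ d.1) = d.1; exact φ.symm_apply_apply _
    · show φ.symm (φ d.2) = d.2; exact φ.symm_apply_apply _
  · have h' : ¬ G.Adj (mp φ.toEquiv d).1 (mp φ.toEquiv d).2 := by
      show ¬ G.Adj (φ d.1) (φ d.2); rw [φ.map_adj_iff]; exact h
    rw [dif_neg h, dif_neg h']

theorem mp_inj (φ : V ≃ V) : Function.Injective (mp φ) := by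
  intro a b h
  have h1 := congrArg Prod.fst h
  have h2 := congrArg Prod.snd h
  exact Prod.ext (φ.injective h1) (φ.injective h2)

theorem map_ports (φ : G ≃g G) (x : XX G) (v : V) :
    ((XX.map φ x).1 (φ v)).ports = (x.1 v).ports.image (mp φ.toEquiv) := by
  show ((x.1 (φ.symm (φ v))).map φ.toEquiv).ports = _
  rw [φ.symm_apply_apply]; rfl

theorem map_spec (φ : G ≃g G) (x : XX G) (v : V) :
    ((XX.map φ x).1 (φ v)).spec = (x.1 v).spec.image (mp φ.toEquiv) := by
  show ((x.1 (φ.symm (φ v))).map φ.toEquiv).spec = _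
  rw [φ.symm_apply_apply]; rfl

theorem HP_fav (hT : G.IsTree) (δ : ℝ) :
    HP (G := G) (fun x e => sm (x.1 e.2) ∧ fav δ x.2 (x.1 e.2).ports e.swap) := by
  refine ⟨?_, ?_, ?_⟩
  · intro e
    exact (meas_sm measurable_fst e.2).inter
      (meas_of_ports (Q := fun P (x : XX G) => fav δ x.2 P e.swap) measurable_fst e.2
        (fun P => meas_fav δ P e.swap))
  · intro e he x y hx hy ha ha' hA
    have ha2 : e.swap ∈ (x.1 e.2).ports := ha
    have hv : x.1 e.2 = y.1 e.2 := hA.1 e.2 ((port_side hx ha2).2.2.2 e.2 (hx.mem e.2))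
    rw [← hv, fav_local hA (fun r hr => port_tail_side hx ha2 hr) ha2]
  · intro φ x e
    have h2 : (mp φ.toEquiv e).2 = φ e.2 := rfl
    have h3 : (mp φ.toEquiv e).swap = mp φ.toEquiv e.swap := rfl
    rw [h2, h3]
    have i1 : sm ((XX.map φ x).1 (φ e.2)) ↔ sm (x.1 e.2) := by
      unfold sm
      rw [map_ports, map_spec, Finset.image_eq_empty, Finset.card_image_of_injective _ (mp_inj _)]
    have i2 : fav δ (XX.map φ x).2 ((XX.map φ x).1 (φ e.2)).ports (mp φ.toEquiv e.swap) ↔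
        fav δ x.2 (x.1 e.2).ports e.swap := by
      unfold fav
      rw [lab_map, lab_map, map_ports]
      refine and_congr Iff.rfl (and_congr Iff.rfl ?_)
      simp only [Finset.mem_image, forall_exists_index, and_imp, forall_apply_eq_imp_iff₂]
      refine forall_congr' fun q => forall_congr' fun hq => ?_
      rw [lab_map, (mp_inj φ.toEquiv).ne_iff]
    rw [i1, i2]

theorem HP_ntr (hT : G.IsTree) (δ : ℝ) :
    HP (G := G) (fun x e => ∀ q ∈ onw x.1 e, ¬ tr (OO δ x) x.1 q) := by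
  refine ⟨?_, ?_, ?_⟩
  · intro e
    exact meas_all_ntr hT δ e.2 (fun P q => q ∈ P.erase e.swap)
  · intro e he x y hx hy ha ha' hA
    have ha2 : e.swap ∈ (x.1 e.2).ports := ha
    have hv : x.1 e.2 = y.1 e.2 := hA.1 e.2 ((port_side hx ha2).2.2.2 e.2 (hx.mem e.2))
    have ho : onw x.1 e = onw y.1 e := by unfold onw; rw [hv]
    rw [← ho]
    refine forall_congr' fun q => ?_
    constructor
    · intro h hq
      have hq1 := Finset.mem_of_mem_erase hq
      rw [← tr_local_v hT δ hx hy ha2 hv hq1 (Finset.ne_of_mem_erase hq) hA]; exact h hq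
    · intro h hq
      have hq1 := Finset.mem_of_mem_erase hq
      rw [tr_local_v hT δ hx hy ha2 hv hq1 (Finset.ne_of_mem_erase hq) hA]; exact h hq
  · intro φ x e
    have h2 : onw (XX.map φ x).1 (mp φ.toEquiv e) = (onw x.1 e).image (mp φ.toEquiv) := by
      unfold onw
      show ((XX.map φ x).1 (φ e.2)).ports.erase (mp φ.toEquiv e.swap) = _
      rw [map_ports, Finset.image_erase (mp_inj _)]
    rw [h2]
    simp only [Finset.mem_image, forall_exists_index, and_imp, forall_apply_eq_imp_iff₂]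
    refine forall_congr' fun q => forall_congr' fun hq => ?_
    exact not_congr ((HP_tr hT δ).equ φ x q)

theorem Hd_g1 (hT : G.IsTree) (δ : ℝ) : Hd (G := G) (fun x e => g1 δ x e) :=
  (HP.ind (HP_fav hT δ)).mul (HP.ind (HP_ntr hT δ))

theorem Tl_g0 (hT : G.IsTree) (δ : ℝ) : Tl (G := G) (fun x e _ => g0 δ x e) := by
  refine ⟨fun e _ => meas_g0 δ e, ?_⟩
  intro e p he x y hx hy ha ha' hp hp' hA
  have hp1 : p ∈ (x.1 e.2).ports := Finset.mem_of_mem_erase hp
  have hv : x.1 e.2 = y.1 e.2 := hA.1 e.2 ((port_side hx hp1).2.2.2 e.2 (hx.mem e.2))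
  show g0 δ x e = g0 δ y e
  unfold g0
  apply ind_congr
  rw [← hv, fav_local hA (fun r hr => port_tail_side hx hp1 hr) ha]

end Nice

/-! ### deterministic step -/

theorem opd_of_fav {δ : ℝ} {x : XX G} (h : WF0 G x.1) {v : V} (hs : sm (x.1 v)) {p : V × V}
    (hp : p ∈ (x.1 v).ports) (hf : fav δ x.2 (x.1 v).ports p) :
    ∀ q ∈ (x.1 v).ports, opd (OO δ x) q := by
  intro q hq
  left
  have e1 : (x.1 q.1).ports = (x.1 v).ports := (h.eqv v q.1 (h.tail v q hq).1).2.1
  show q ∈ rule δ (lab x.2 0) (lab x.2 2) x.1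
  refine ⟨by rw [e1]; exact hq, Or.inl ⟨by rw [e1]; exact hs.2, p, by rw [e1]; exact hp, hf.1⟩⟩

theorem det_dec {δ : ℝ} {x : XX G} (hT : G.IsTree) (h : WF G x.1) (hg : Gen δ x.2) {v : V}
    (hf : (hotSet (OO δ x) (lab x.2 1) x.1 v).Finite) {p : V × V} (hp : p ∈ (x.1 v).ports)
    (h1 : f1 δ x v p ≠ 0) (h2 : g1 δ x p ≠ 0) : Dec (stp δ x) v ((x.1 v).M p) := by
  have hf0 : f0 δ x v p ≠ 0 := left_ne_zero_of_mul h1
  have hg0 : g0 δ x p ≠ 0 := left_ne_zero_of_mul h2
  have hA := ind_ne_zero (right_ne_zero_of_mul h1)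
  have hB := ind_ne_zero (right_ne_zero_of_mul h2)
  obtain ⟨_, hs, hfv⟩ := ind_ne_zero hf0
  obtain ⟨hs', hfv'⟩ := ind_ne_zero hg0
  have hps : p.swap ∈ (x.1 p.2).ports := h.toWF0.swap v p hp
  refine out4 hT h (TI_of_Gen hg 1) hf hp hs.1 hs'.1 (opd_of_fav h.toWF0 hs hp hfv)
    (opd_of_fav h.toWF0 hs' hps hfv') ?_ ?_ ?_ ?_
  · intro q hq hne
    exact lt_of_le_of_lt (min_le_left _ _) (lt_trans (hfv.2.2 q hq hne)
      (lt_min hfv.2.1 hfv'.2.1))
  · intro q hq hne
    exact lt_of_le_of_lt (min_le_left _ _) (lt_trans (hfv'.2.2 q hq hne)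
      (lt_min hfv.2.1 hfv'.2.1))
  · intro q hq hne; exact hA q hq hne
  · intro q hq hne; exact hB q (Finset.mem_erase.2 ⟨hne, hq⟩)

theorem f1_le_one (δ : ℝ) (x : XX G) (v : V) (p : V × V) : f1 δ x v p ≤ 1 := by
  unfold f1 f0
  exact mul_le_one' (ind_le_one _) (ind_le_one _)

theorem g1_le_one (δ : ℝ) (x : XX G) (e : V × V) : g1 δ x e ≤ 1 := by
  unfold g1 g0
  exact mul_le_one' (ind_le_one _) (ind_le_one _)

theorem det_main {δ : ℝ} {x : XX G} (hT : G.IsTree) (h : WF G x.1) (hg : Gen δ x.2) {v : V}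
    (hf : (hotSet (OO δ x) (lab x.2 1) x.1 v).Finite) :
    ind (und (stp δ x) v) + ∑ p ∈ (x.1 v).ports, f1 δ x v p * g1 δ x p ≤ ind (und x.1 v) := by
  have hund : und (stp δ x) v → und x.1 v := by
    intro hu ⟨w, hw⟩
    exact hu ⟨w, Dec_step hT h.toWF0 _ _ hw⟩
  by_cases hex : ∃ p ∈ (x.1 v).ports, f1 δ x v p * g1 δ x p ≠ 0
  · obtain ⟨p, hp, hne⟩ := hex
    have h1 := left_ne_zero_of_mul hne
    have h2 := right_ne_zero_of_mul hne
    have hd := det_dec hT h hg hf hp h1 h2
    have hf0 : f0 δ x v p ≠ 0 := left_ne_zero_of_mul h1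
    obtain ⟨hu, hs, hfv⟩ := ind_ne_zero hf0
    have e1 : ind (und (stp δ x) v) = 0 := ind_false (fun hu => hu ⟨_, hd⟩)
    have e2 : ∑ q ∈ (x.1 v).ports, f1 δ x v q * g1 δ x q = f1 δ x v p * g1 δ x p := by
      refine Finset.sum_eq_single_of_mem p hp ?_
      intro q hq hqp
      have : f0 δ x v q = 0 := by
        apply ind_false
        rintro ⟨_, _, hfq⟩
        exact absurd (hfv.2.2 q hq hqp) (not_lt.2 hfq.2.1.le)
      unfold f1
      rw [this, zero_mul, zero_mul]
    rw [e1, e2, zero_add, ind_true hu]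
    exact mul_le_one' (f1_le_one _ _ _ _) (g1_le_one _ _ _)
  · push Not at hex
    rw [Finset.sum_eq_zero hex, add_zero]
    exact ind_mono hund

/-! ### estimates -/

section Est

variable {μ : Measure (St V)} {Δ : ℕ} {δ : ℝ} {e : V × V}

theorem delta_le (H : Hyp G μ δ e Δ) : δ ≤ 1 := by
  have h1 : qA δ ≤ ENNReal.ofReal (1 / 10 ^ 6) := le_trans (by unfold eta; exact le_add_self) H.small
  unfold qA at h1
  rw [ENNReal.ofReal_le_ofReal_iff (by norm_num)] at h1
  linarith [h1, show (1 : ℝ) / 10 ^ 6 ≤ 1 by norm_num]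

/-- sums over other ports are controlled by the number of ports -/
theorem sum_erase_le (δ : ℝ) (x : XX G) (v : V) :
    ∑ q ∈ (x.1 v).ports, ∑ p ∈ (x.1 v).ports.erase q, f0 δ x v p ≤
      1000 * ∑ p ∈ (x.1 v).ports, f0 δ x v p := by
  by_cases hs : sm (x.1 v)
  · calc ∑ q ∈ (x.1 v).ports, ∑ p ∈ (x.1 v).ports.erase q, f0 δ x v p
        ≤ ∑ q ∈ (x.1 v).ports, ∑ p ∈ (x.1 v).ports, f0 δ x v p :=
          Finset.sum_le_sum fun q _ => Finset.sum_le_sum_of_subset (Finset.erase_subset _ _)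
      _ = ((x.1 v).ports.card : ℝ≥0∞) * ∑ p ∈ (x.1 v).ports, f0 δ x v p := by
          rw [Finset.sum_const, nsmul_eq_mul]
      _ ≤ 1000 * ∑ p ∈ (x.1 v).ports, f0 δ x v p := by
          refine mul_le_mul' ?_ le_rfl
          exact_mod_cast hs.2
  · have : ∀ p, f0 δ x v p = 0 := fun p => ind_false (fun h => hs h.2.1)
    simp [this]

theorem f0_le (δ : ℝ) (x : XX G) (v : V) :
    ∑ p ∈ (x.1 v).ports, f0 δ x v p ≤ ∑ p ∈ (x.1 v).ports, f1 δ x v p +
      ∑ q ∈ (x.1 v).ports, (∑ p ∈ (x.1 v).ports.erase q, f0 δ x v p) *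
        ind (tr (OO δ x) x.1 q) := by
  have e1 : ∑ q ∈ (x.1 v).ports, (∑ p ∈ (x.1 v).ports.erase q, f0 δ x v p) *
        ind (tr (OO δ x) x.1 q) =
      ∑ p ∈ (x.1 v).ports, ∑ q ∈ (x.1 v).ports.erase p, f0 δ x v p * ind (tr (OO δ x) x.1 q) := by
    simp_rw [Finset.sum_mul]
    rw [Finset.sum_comm' (t' := (x.1 v).ports) (s' := fun p => (x.1 v).ports.erase p)]
    intro q p
    simp only [Finset.mem_erase]
    constructor
    · rintro ⟨a, b, c⟩; exact ⟨⟨b.symm, a⟩, c⟩
    · rintro ⟨⟨a, b⟩, c⟩; exact ⟨b, a.symm, c⟩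
  rw [e1, ← Finset.sum_add_distrib]
  refine Finset.sum_le_sum fun p hp => ?_
  unfold f1
  rw [← Finset.mul_sum, ← mul_add]
  by_cases hall : ∀ q ∈ (x.1 v).ports, q ≠ p → ¬ tr (OO δ x) x.1 q
  · rw [ind_true hall]
    calc f0 δ x v p = f0 δ x v p * 1 := (mul_one _).symm
      _ ≤ _ := mul_le_mul' le_rfl le_self_add
  · push Not at hall
    obtain ⟨q, hq, hqp, htr⟩ := hall
    calc f0 δ x v p = f0 δ x v p * ind (tr (OO δ x) x.1 q) := by rw [ind_true htr, mul_one]
      _ ≤ f0 δ x v p * ∑ q ∈ (x.1 v).ports.erase p, ind (tr (OO δ x) x.1 q) := by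
          refine mul_le_mul' le_rfl ?_
          exact Finset.single_le_sum (f := fun q => ind (tr (OO δ x) x.1 q))
            (fun _ _ => zero_le) (Finset.mem_erase.2 ⟨hqp, hq⟩)
      _ ≤ _ := mul_le_mul' le_rfl le_add_self

theorem g0_le (δ : ℝ) (x : XX G) (e : V × V) :
    g0 δ x e ≤ g1 δ x e + ∑ q ∈ onw x.1 e, g0 δ x e * ind (tr (OO δ x) x.1 q) := by
  rw [← Finset.mul_sum]
  unfold g1
  rw [← mul_add]
  by_cases hall : ∀ q ∈ onw x.1 e, ¬ tr (OO δ x) x.1 q
  · rw [ind_true hall]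
    calc g0 δ x e = g0 δ x e * 1 := (mul_one _).symm
      _ ≤ _ := mul_le_mul' le_rfl le_self_add
  · push Not at hall
    obtain ⟨q, hq, htr⟩ := hall
    calc g0 δ x e = g0 δ x e * ind (tr (OO δ x) x.1 q) := by rw [ind_true htr, mul_one]
      _ ≤ g0 δ x e * ∑ q ∈ onw x.1 e, ind (tr (OO δ x) x.1 q) := by
          refine mul_le_mul' le_rfl ?_
          exact Finset.single_le_sum (f := fun q => ind (tr (OO δ x) x.1 q))
            (fun _ _ => zero_le) hq
      _ ≤ _ := mul_le_mul' le_rfl le_add_self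

theorem g0_sum_le (δ : ℝ) (x : XX G) (e : V × V) :
    ∑ q ∈ onw x.1 e, g0 δ x e ≤ 1000 * g0 δ x e := by
  by_cases hs : sm (x.1 e.2)
  · rw [Finset.sum_const, nsmul_eq_mul]
    refine mul_le_mul' ?_ le_rfl
    have : (onw x.1 e).card ≤ (x.1 e.2).ports.card := Finset.card_le_card (Finset.erase_subset _ _)
    exact_mod_cast le_trans this hs.2
  · have : g0 δ x e = 0 := ind_false (fun h => hs h.1)
    simp [this]

theorem half_absorb {X Y Z : ℝ≥0∞} (h : X ≤ Y + X * Z) (hZ : Z ≤ 1 / 2) (hX : X ≠ ∞) :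
    X ≤ 2 * Y := by
  have h1 : X ≤ Y + X / 2 := by
    refine le_trans h (add_le_add le_rfl ?_)
    rw [div_eq_mul_inv, ← one_div]
    exact mul_le_mul' le_rfl hZ
  have h2 : X / 2 ≠ ∞ := ENNReal.div_ne_top hX (by norm_num)
  have h3 : X / 2 ≤ Y := by
    have h4 : X / 2 + X / 2 ≤ Y + X / 2 := by rw [ENNReal.add_halves]; exact h1
    exact (ENNReal.add_le_add_iff_right h2).1 h4
  calc X = 2 * (X / 2) := by rw [ENNReal.mul_div_cancel (by norm_num) (by norm_num)]
    _ ≤ 2 * Y := mul_le_mul' le_rfl h3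

theorem eta_small (H : Hyp G μ δ e Δ) : 1000 * (10 * eta G μ δ e) ≤ 1 / 2 := by
  calc 1000 * (10 * eta G μ δ e) ≤ 1000 * (10 * ENNReal.ofReal (1 / 10 ^ 6)) := by
        gcongr; exact H.small
    _ = ENNReal.ofReal (1000 * (10 * (1 / 10 ^ 6))) := by
        rw [ENNReal.ofReal_mul (by norm_num), ENNReal.ofReal_mul (by norm_num)]
        norm_num
    _ ≤ ENNReal.ofReal (1 / 2) := ENNReal.ofReal_le_ofReal (by norm_num)
    _ = 1 / 2 := by
        rw [ENNReal.ofReal_div_of_pos (by norm_num)]; norm_num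

theorem sum_f0_le_card (δ : ℝ) (x : XX G) (v : V) :
    ∑ p ∈ (x.1 v).ports, f0 δ x v p ≤ 1000 := by
  by_cases hs : sm (x.1 v)
  · calc ∑ p ∈ (x.1 v).ports, f0 δ x v p ≤ ∑ p ∈ (x.1 v).ports, 1 :=
          Finset.sum_le_sum fun p _ => ind_le_one _
      _ = ((x.1 v).ports.card : ℝ≥0∞) := by simp
      _ ≤ 1000 := by exact_mod_cast hs.2
  · have : ∀ p, f0 δ x v p = 0 := fun p => ind_false (fun h => hs h.2.1)
    simp [this]

/-- lower bound for the favourable event at the comp of `v` -/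
theorem v_lower [Countable V] (hL : Law G μ) (h0 : 0 < δ) (h1 : δ ≤ 1) (v : V) :
    ENNReal.ofReal (δ / 2 ^ 1000) * ∫⁻ σ, ind (und σ v ∧ sm (σ v)) ∂μ ≤
      ∫⁻ x, ∑ p ∈ (x.1 v).ports, f0 δ x v p ∂(μ.prod (lam G)) := by
  have := hL.prob
  have m1 : Measurable (fun σ : St V => ind (und σ v ∧ sm (σ v))) :=
    meas_ind ((meas_und measurable_id v).inter (meas_sm measurable_id v))
  rw [lintegral_prod _ (meas_sum_ports measurable_fst v (fun p => meas_f0 δ v p)
    (fun S => S)).aemeasurable, ← lintegral_const_mul _ m1]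
  refine lintegral_mono_ae ?_
  filter_upwards [hL.wf] with σ hσ
  by_cases hs : und σ v ∧ sm (σ v)
  · obtain ⟨p, hp⟩ : (σ v).ports.Nonempty :=
      Finset.card_pos.1 (lt_of_lt_of_le (by norm_num) (hσ.two v))
    have hadj : ∀ q ∈ (σ v).ports, G.Adj q.1 q.2 := fun q hq => (port_side hσ.toWF0 hq).1
    rw [ind_true hs, mul_one]
    calc ENNReal.ofReal (δ / 2 ^ 1000) ≤ lam G {l | fav δ l (σ v).ports p} :=
          lam_fav h0 h1 _ hadj hp hs.2.2
      _ = ∫⁻ l, ind (fav δ l (σ v).ports p) ∂(lam G) := by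
          have hm : MeasurableSet {l : Lb G | fav δ l (σ v).ports p} :=
            (meas_fav (G := G) δ (σ v).ports p).preimage
              (measurable_prodMk_left (x := σ))
          have : (fun l : Lb G => ind (fav δ l (σ v).ports p)) =
              Set.indicator {l : Lb G | fav δ l (σ v).ports p} 1 := by
            funext l
            by_cases hl : fav δ l (σ v).ports p
            · rw [ind_true hl, Set.indicator_of_mem (by exact hl)]; rfl
            · rw [ind_false hl, Set.indicator_of_notMem (by exact hl)]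
          rw [this, lintegral_indicator_one hm]
      _ ≤ ∫⁻ l, ∑ p ∈ (σ v).ports, f0 δ (σ, l) v p ∂(lam G) := by
          refine lintegral_mono fun l => ?_
          refine le_trans ?_ (Finset.single_le_sum (f := fun p => f0 δ (σ, l) v p)
            (fun _ _ => zero_le) hp)
          exact ind_mono fun h => ⟨hs.1, hs.2, h⟩
  · rw [ind_false hs, mul_zero]; exact zero_le

theorem e_lower [Countable V] (hL : Law G μ) (h0 : 0 < δ) (h1 : δ ≤ 1) (e : V × V) :
    ENNReal.ofReal (δ / 2 ^ 1000) * EE (G := G) μ e (fun x => ind (sm (x.1 e.2))) ≤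
      EE (G := G) μ e (fun x => g0 δ x e) := by
  have := hL.prob
  have mal : Measurable (fun x : XX G => ind (alive x.1 e)) :=
    meas_ind (meas_ports measurable_fst e.1 (fun S => e ∈ S))
  have msm : Measurable (fun x : XX G => ind (sm (x.1 e.2))) :=
    meas_ind (meas_sm measurable_fst e.2)
  unfold EE
  rw [← mul_div_assoc]
  refine ENNReal.div_le_div_right ?_ _
  have m1 : Measurable (fun x : XX G => ind (alive x.1 e) * ind (sm (x.1 e.2))) := mal.mul msm
  have m2 : Measurable (fun x : XX G => ENNReal.ofReal (δ / 2 ^ 1000) *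
      (ind (alive x.1 e) * ind (sm (x.1 e.2)))) := m1.const_mul _
  have m3 : Measurable (fun x : XX G => ind (alive x.1 e) * g0 δ x e) := mal.mul (meas_g0 δ e)
  show ENNReal.ofReal (δ / 2 ^ 1000) *
      ∫⁻ x : XX G, ind (alive x.1 e) * ind (sm (x.1 e.2)) ∂(μ.prod (lam G)) ≤
    ∫⁻ x : XX G, ind (alive x.1 e) * g0 δ x e ∂(μ.prod (lam G))
  rw [← lintegral_const_mul _ m1]
  rw [lintegral_prod _ m2.aemeasurable, lintegral_prod _ m3.aemeasurable]
  refine lintegral_mono_ae ?_
  filter_upwards [hL.wf] with σ hσ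
  by_cases hs : alive σ e ∧ sm (σ e.2)
  · have hp : e.swap ∈ (σ e.2).ports := hσ.toWF0.swap e.1 e hs.1
    have hadj : ∀ q ∈ (σ e.2).ports, G.Adj q.1 q.2 := fun q hq => (port_side hσ.toWF0 hq).1
    have e1 : ∀ l : Lb G, ENNReal.ofReal (δ / 2 ^ 1000) *
        (ind (alive (σ, l).1 e) * ind (sm ((σ, l).1 e.2))) = ENNReal.ofReal (δ / 2 ^ 1000) := by
      intro l
      rw [ind_true (P := alive (σ, l).1 e) hs.1, ind_true (P := sm ((σ, l).1 e.2)) hs.2]; simp
    rw [lintegral_congr e1, lintegral_const, measure_univ, mul_one]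
    calc ENNReal.ofReal (δ / 2 ^ 1000) ≤ lam G {l | fav δ l (σ e.2).ports e.swap} :=
          lam_fav h0 h1 _ hadj hp hs.2.2
      _ = ∫⁻ l, ind (fav δ l (σ e.2).ports e.swap) ∂(lam G) := by
          have hm : MeasurableSet {l : Lb G | fav δ l (σ e.2).ports e.swap} :=
            (meas_fav (G := G) δ (σ e.2).ports e.swap).preimage
              (measurable_prodMk_left (x := σ))
          have : (fun l : Lb G => ind (fav δ l (σ e.2).ports e.swap)) =
              Set.indicator {l : Lb G | fav δ l (σ e.2).ports e.swap} 1 := by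
            funext l
            by_cases hl : fav δ l (σ e.2).ports e.swap
            · rw [ind_true hl, Set.indicator_of_mem (by exact hl)]; rfl
            · rw [ind_false hl, Set.indicator_of_notMem (by exact hl)]
          rw [this, lintegral_indicator_one hm]
      _ ≤ ∫⁻ l, ind (alive (σ, l).1 e) * g0 δ (σ, l) e ∂(lam G) := by
          refine lintegral_mono fun l => ?_
          show _ ≤ ind (alive (σ, l).1 e) * g0 δ (σ, l) e
          rw [ind_true (P := alive (σ, l).1 e) hs.1, one_mul]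
          exact ind_mono fun h => ⟨hs.2, h⟩
  · have e1 : ∀ l : Lb G, ENNReal.ofReal (δ / 2 ^ 1000) *
        (ind (alive (σ, l).1 e) * ind (sm ((σ, l).1 e.2))) = 0 := by
      intro l
      rw [← ind_and, ind_false (P := alive (σ, l).1 e ∧ sm ((σ, l).1 e.2)) hs, mul_zero]
    rw [lintegral_congr e1, lintegral_zero]
    exact zero_le

theorem sm_lower [Countable V] (H : Hyp G μ δ e Δ) :
    1 / 2 ≤ EE (G := G) μ e (fun x => ind (sm (x.1 e.2))) := by
  have := H.law.prob
  have msm : Measurable (fun x : XX G => ind (sm (x.1 e.2))) :=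
    meas_ind (meas_sm measurable_fst e.2)
  have h1 : EE (G := G) μ e (fun _ => (1 : ℝ≥0∞)) ≤
      EE (G := G) μ e (fun x => ind (sm (x.1 e.2)) +
        ((x.1 e.2).ports.card : ℝ≥0∞) * ind (¬ passS (x.1 e.2))) := by
    refine EE_mono ?_
    have hwf : ∀ᵐ x ∂(μ.prod (lam G)), WF G x.1 :=
      Measure.quasiMeasurePreserving_fst.ae H.law.wf
    filter_upwards [hwf] with x hx _
    by_cases hp : passS (x.1 e.2)
    · rw [ind_true (P := sm (x.1 e.2)) ⟨hp.1, le_trans hp.2.2 (by norm_num)⟩]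
      exact le_self_add
    · rw [ind_true hp, mul_one]
      refine le_trans ?_ le_add_self
      exact_mod_cast le_trans (by norm_num) (hx.two e.2)
  rw [EE_const H.law H.adj, EE_add msm] at h1
  have h2 : EE (G := G) μ e (fun x => ((x.1 e.2).ports.card : ℝ≥0∞) * ind (¬ passS (x.1 e.2))) ≤
      ENNReal.ofReal (1 / 10 ^ 6) := by
    refine le_trans ?_ H.small
    show qr G μ e ≤ eta G μ δ e
    unfold eta
    rw [add_assoc]
    exact le_trans le_self_add le_add_self
  have h3 : (1 : ℝ≥0∞) ≤ EE (G := G) μ e (fun x => ind (sm (x.1 e.2))) + 1 / 2 := by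
    refine le_trans h1 (add_le_add le_rfl (le_trans h2 ?_))
    calc ENNReal.ofReal (1 / 10 ^ 6) ≤ ENNReal.ofReal (1 / 2) :=
          ENNReal.ofReal_le_ofReal (by norm_num)
      _ = 1 / 2 := by rw [ENNReal.ofReal_div_of_pos (by norm_num)]; norm_num
  have h4 : (1 / 2 : ℝ≥0∞) + 1 / 2 ≤ EE (G := G) μ e (fun x => ind (sm (x.1 e.2))) + 1 / 2 := by
    rw [ENNReal.add_halves]; exact h3
  exact (ENNReal.add_le_add_iff_right (by norm_num)).1 h4

theorem br_lower [Countable V] (H : Hyp G μ δ e Δ) :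
    ENNReal.ofReal (δ / 2 ^ 1000) * (1 / 2) ≤ 2 * br (G := G) μ e (fun x e => g1 δ x e) := by
  have hT := H.std.tree
  have hL := H.law
  have := hL.prob
  refine le_trans ?_ (half_absorb (Y := br (G := G) μ e (fun x e => g1 δ x e))
    (X := EE (G := G) μ e (fun x => g0 δ x e)) (Z := 1000 * (10 * eta G μ δ e)) ?_
    (eta_small H) ?_)
  · exact le_trans (mul_le_mul' le_rfl (sm_lower H)) (e_lower hL H.dpos (delta_le H) e)
  · have mg1 := meas_g1 hT δ e (G := G)
    have hTl := Tl_g0 (G := G) hT δ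
    have h1 : EE (G := G) μ e (fun x => g0 δ x e) ≤ EE (G := G) μ e (fun x => g1 δ x e +
        ∑ q ∈ onw x.1 e, g0 δ x e * ind (tr (OO δ x) x.1 q)) :=
      EE_mono (Filter.Eventually.of_forall fun x _ => g0_le δ x e)
    rw [EE_add mg1] at h1
    refine le_trans h1 (add_le_add le_rfl ?_)
    rw [factsum H.std hL hTl (HP.ind (HP_tr hT δ)) H.adj]
    have h2 : EE (G := G) μ e (fun x => ∑ q ∈ onw x.1 e, g0 δ x e) ≤
        1000 * EE (G := G) μ e (fun x => g0 δ x e) := by
      rw [← EE_mul_left _ (meas_g0 δ e)]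
      exact EE_mono (Filter.Eventually.of_forall fun x _ => g0_sum_le δ x e)
    calc EE (G := G) μ e (fun x => ∑ q ∈ onw x.1 e, g0 δ x e) *
          br (G := G) μ e (fun x e => ind (tr (OO δ x) x.1 e))
        ≤ (1000 * EE (G := G) μ e (fun x => g0 δ x e)) * (10 * eta G μ δ e) :=
          mul_le_mul' h2 (tr_le H)
      _ = EE (G := G) μ e (fun x => g0 δ x e) * (1000 * (10 * eta G μ δ e)) := by ring
  · have : EE (G := G) μ e (fun x => g0 δ x e) ≤ EE (G := G) μ e (fun _ => (1 : ℝ≥0∞)) :=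
      EE_mono (Filter.Eventually.of_forall fun x _ => ind_le_one _)
    rw [EE_const hL H.adj] at this
    exact ne_top_of_le_ne_top ENNReal.one_ne_top this

theorem F_lower [Countable V] (H : Hyp G μ δ e Δ) (v : V) :
    ENNReal.ofReal (δ / 2 ^ 1000) * ∫⁻ σ, ind (und σ v ∧ sm (σ v)) ∂μ ≤
      2 * ∫⁻ x, ∑ p ∈ (x.1 v).ports, f1 δ x v p ∂(μ.prod (lam G)) := by
  have hT := H.std.tree
  have hL := H.law
  have := hL.prob
  refine le_trans (v_lower hL H.dpos (delta_le H) v) (half_absorb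
    (Z := 1000 * (10 * eta G μ δ e)) ?_ (eta_small H) ?_)
  · have mf1 : Measurable (fun x : XX G => ∑ p ∈ (x.1 v).ports, f1 δ x v p) :=
      meas_sum_ports measurable_fst v (fun p => meas_f1 hT δ v p) (fun S => S)
    have mf0 : Measurable (fun x : XX G => ∑ p ∈ (x.1 v).ports, f0 δ x v p) :=
      meas_sum_ports measurable_fst v (fun p => meas_f0 δ v p) (fun S => S)
    have h1 := lintegral_mono (μ := μ.prod (lam G)) (fun x : XX G => f0_le δ x v)
    rw [lintegral_add_left mf1] at h1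
    refine le_trans h1 (add_le_add le_rfl ?_)
    rw [vfact H.std hL (Vt_F δ) (HP.ind (HP_tr hT δ)) v H.adj]
    have h2 : ∫⁻ x, ∑ q ∈ (x.1 v).ports, ∑ p ∈ (x.1 v).ports.erase q, f0 δ x v p
          ∂(μ.prod (lam G)) ≤
        1000 * ∫⁻ x, ∑ p ∈ (x.1 v).ports, f0 δ x v p ∂(μ.prod (lam G)) := by
      rw [← lintegral_const_mul _ mf0]
      exact lintegral_mono fun x => sum_erase_le δ x v
    refine le_trans (mul_le_mul' h2 (tr_le H)) (le_of_eq ?_)
    ring
  · refine ne_top_of_le_ne_top (b := 1000) (by norm_num) ?_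
    calc ∫⁻ x, ∑ p ∈ (x.1 v).ports, f0 δ x v p ∂(μ.prod (lam G)) ≤
          ∫⁻ x, 1000 ∂(μ.prod (lam G)) := lintegral_mono fun x => sum_f0_le_card δ x v
      _ = 1000 := by rw [lintegral_const, measure_univ, mul_one]

theorem U_split [Countable V] (hL : Law G μ) (v : V) :
    vU μ v ≤ ∫⁻ σ, ind (und σ v ∧ sm (σ v)) ∂μ + (vP μ v / 1000 + vT μ v) := by
  unfold vU vP vT
  have m1 : Measurable (fun σ : St V => ind (und σ v ∧ sm (σ v))) :=
    meas_ind ((meas_und measurable_id v).inter (meas_sm measurable_id v))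
  have mu : Measurable (fun σ : St V => ind (und σ v)) := meas_ind (meas_und measurable_id v)
  have mP : Measurable (fun σ : St V => ((σ v).ports.card : ℝ≥0∞)) := by
    have : (fun σ : St V => ((σ v).ports.card : ℝ≥0∞)) =
        fun σ : St V => ∑ p ∈ (σ v).ports, (1 : ℝ≥0∞) := by funext σ; simp
    rw [this]
    exact meas_sum_ports measurable_id v (fun _ => measurable_const) (fun S => S)
  have m2 : Measurable (fun σ : St V => ind (und σ v) * ((σ v).ports.card : ℝ≥0∞)) := mu.mul mP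
  rw [div_eq_mul_inv, ← lintegral_mul_const _ m2, ← lintegral_add_left (m2.mul_const _),
    ← lintegral_add_left m1]
  refine lintegral_mono fun σ => ?_
  show ind (und σ v) ≤ ind (und σ v ∧ sm (σ v)) +
    (ind (und σ v) * ((σ v).ports.card : ℝ≥0∞) * 1000⁻¹ + ind (und σ v) * ((σ v).spec.card : ℝ≥0∞))
  by_cases hu : und σ v
  · rw [ind_true hu, one_mul, one_mul]
    by_cases hs : sm (σ v)
    · rw [ind_true (P := und σ v ∧ sm (σ v)) ⟨hu, hs⟩]; exact le_self_add
    · refine le_trans ?_ le_add_self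
      unfold sm at hs
      rw [not_and_or] at hs
      rcases hs with hs | hs
      · refine le_trans ?_ le_add_self
        have : 1 ≤ (σ v).spec.card := Finset.card_pos.2 (Finset.nonempty_iff_ne_empty.2 hs)
        exact_mod_cast this
      · refine le_trans ?_ le_self_add
        push Not at hs
        have h3 : (1000 : ℝ≥0∞) ≤ ((σ v).ports.card : ℝ≥0∞) := by exact_mod_cast hs.le
        calc (1 : ℝ≥0∞) = 1000 * 1000⁻¹ := (ENNReal.mul_inv_cancel (by norm_num) (by norm_num)).symm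
          _ ≤ _ := mul_le_mul' h3 le_rfl
  · rw [ind_false hu]; exact zero_le

end Est

end Vd

section Main

variable {μ : Measure (St V)} {Δ : ℕ} {δ : ℝ} {e : V × V}

open Vd

theorem v_dec' (H : Hyp G μ δ e Δ) (v : V) :
    vU (nextLaw (stp (G := G) δ) μ) v + kap δ * vU μ v ≤
      vU μ v + kap δ * (vP μ v / 1000 + vT μ v) := by
  have hT := H.std.tree
  have hL := H.law
  have := hL.prob
  have : Countable V := countable_V hT Δ H.std.reg
  have mU : Measurable (fun σ : St V => ind (und σ v)) := meas_ind (meas_und measurable_id v)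
  have mst : Measurable (stp (G := G) δ) := meas_stp δ
  have e1 : vU (nextLaw (stp (G := G) δ) μ) v =
      ∫⁻ x, ind (und (stp δ x) v) ∂(μ.prod (lam G)) := by
    unfold vU nextLaw
    exact lintegral_map mU mst
  have e2 : vU μ v = ∫⁻ x, ind (und x.1 v) ∂(μ.prod (lam G)) := by
    have m : Measurable (fun x : XX G => ind (und x.1 v)) := mU.comp measurable_fst
    unfold vU
    rw [lintegral_prod _ m.aemeasurable]
    refine lintegral_congr fun σ => ?_
    show ind (und σ v) = ∫⁻ _ : Lb G, ind (und σ v) ∂(lam G)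
    rw [lintegral_const, measure_univ, mul_one]
  -- the deterministic inequality
  have h1 : ∫⁻ x, ind (und (stp δ x) v) ∂(μ.prod (lam G)) +
      ∫⁻ x, ∑ p ∈ (x.1 v).ports, f1 δ x v p * g1 δ x p ∂(μ.prod (lam G)) ≤ vU μ v := by
    have m : Measurable (fun x : XX G => ind (und (stp δ x) v)) := mU.comp mst
    rw [e2, ← lintegral_add_left m]
    refine lintegral_mono_ae ?_
    have hwf : ∀ᵐ x ∂(μ.prod (lam G)), WF G x.1 :=
      Measure.quasiMeasurePreserving_fst.ae hL.wf
    filter_upwards [hwf, ae_Gen δ, ae_region H] with x hx hg hr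
    exact det_main hT hx hg (hotSet_finite hx.toWF0 _ (hr v))
  rw [vfact H.std hL (Vt_f1 hT δ) (Hd_g1 hT δ) v H.adj] at h1
  have h2 := F_lower H v
  have h3 := br_lower H
  have h4 := U_split hL v
  set F := ∫⁻ x, ∑ p ∈ (x.1 v).ports, f1 δ x v p ∂(μ.prod (lam G))
  set B := br (G := G) μ e (fun x e => g1 δ x e)
  set U' := ∫⁻ σ, ind (und σ v ∧ sm (σ v)) ∂μ
  set c := ENNReal.ofReal (δ / 2 ^ 1000) with hc
  have hkap : kap δ * U' ≤ F * B := by
    have h5 : (c * U') * (c * (1 / 2)) ≤ (2 * F) * (2 * B) := mul_le_mul' h2 h3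
    have h6 : kap δ * 8 ≤ c * c := by
      unfold kap
      rw [hc, ← ENNReal.ofReal_mul (by have := H.dpos; positivity),
        show (8 : ℝ≥0∞) = ENNReal.ofReal 8 by norm_num, ← ENNReal.ofReal_mul (by positivity)]
      apply ENNReal.ofReal_le_ofReal
      rw [div_mul_div_comm, ← pow_add, div_mul_eq_mul_div, ← sq]
      rw [div_le_div_iff₀ (by positivity) (by positivity)]
      have : (8 : ℝ) * 2 ^ (1000 + 1000) ≤ 2 ^ 2100 := by
        have h8 : (8 : ℝ) = 2 ^ 3 := by norm_num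
        rw [h8, ← pow_add]
        exact pow_le_pow_right₀ one_le_two (by decide)
      calc δ ^ 2 * 8 * 2 ^ (1000 + 1000) = δ ^ 2 * (8 * 2 ^ (1000 + 1000)) := mul_assoc _ _ _
        _ ≤ δ ^ 2 * 2 ^ 2100 := mul_le_mul_of_nonneg_left this (sq_nonneg _)
    have h7 : 8 * (kap δ * U') ≤ 8 * (F * B) := by
      calc 8 * (kap δ * U') = (kap δ * 8) * U' := by ring
        _ ≤ (c * c) * U' := mul_le_mul' h6 le_rfl
        _ = 2 * ((c * U') * (c * (1 / 2))) := by
            rw [one_div]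
            calc c * c * U' = (c * c * U') * (2 * 2⁻¹) := by
                  rw [ENNReal.mul_inv_cancel (by norm_num) (by norm_num), mul_one]
              _ = _ := by ring
        _ ≤ 2 * ((2 * F) * (2 * B)) := mul_le_mul' le_rfl h5
        _ = 8 * (F * B) := by ring
    exact (ENNReal.mul_le_mul_iff_right (by norm_num) (by norm_num)).1 h7
  rw [e1]
  calc ∫⁻ x, ind (und (stp δ x) v) ∂(μ.prod (lam G)) + kap δ * vU μ v
      ≤ ∫⁻ x, ind (und (stp δ x) v) ∂(μ.prod (lam G)) +
          kap δ * (U' + (vP μ v / 1000 + vT μ v)) := by gcongr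
    _ = (∫⁻ x, ind (und (stp δ x) v) ∂(μ.prod (lam G)) + kap δ * U') +
          kap δ * (vP μ v / 1000 + vT μ v) := by ring
    _ ≤ (∫⁻ x, ind (und (stp δ x) v) ∂(μ.prod (lam G)) + F * B) +
          kap δ * (vP μ v / 1000 + vT μ v) := by gcongr
    _ ≤ vU μ v + kap δ * (vP μ v / 1000 + vT μ v) := by gcongr

end Main

theorem v_dec {μ : Measure (St V)} {Δ : ℕ} {δ : ℝ} {e : V × V} (H : Hyp G μ δ e Δ) (v : V) :
    vU (nextLaw (stp (G := G) δ) μ) v + kap δ * vU μ v ≤
      vU μ v + kap δ * (vP μ v / 1000 + vT μ v) := v_dec' H v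

end Pool.Agent.PM
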