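import Pool.Agent.Lib.MP_947a32_pr.Step

/-! MP_947a32_pr, piece 05-OUT3: `out3`, `out6` (helper78). -/

set_option autoImplicit false

open Classical MeasureTheory
open scoped ENNReal

namespace Pool.Agent.PM

variable {V : Type} {G : SimpleGraph V}


theorem out3_opd_swap (O : Set (V × V)) (d : V × V) : opd O d.swap ↔ opd O d := by
  unfold opd
  rw [Prod.swap_swap]
  exact Or.comm

/-- invariant of the run -/
structure Out3Inv (G : SimpleGraph V) (O : Set (V × V)) (σ τ : St V) : Prop where
  wf : WF G τ
  sub : ∀ q, alive τ q → alive σ q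
  keep : ∀ q, alive σ q → ¬ opd O q → alive τ q
  comp : ∀ v, (σ v).comp ⊆ (τ v).comp
  spec : ∀ v, ∀ q ∈ (τ v).spec, ¬ opd O q → q ∈ (σ q.1).spec ∨ unop O (σ q.1) = {q}

theorem out3_spec_tail {σ : St V} (h : WF0 G σ) {v : V} {q : V × V} (hq : q ∈ (σ v).spec) :
    q ∈ (σ q.1).spec := by
  have h1 := h.spec_sub v hq
  have h2 := (h.tail v q h1).1
  rw [(h.eqv v _ h2).2.2]
  exact hq

theorem out3_ports_tail {σ : St V} (h : WF0 G σ) {v : V} {q : V × V} (hq : q ∈ (σ v).ports) :
    (σ q.1).ports = (σ v).ports ∧ (σ q.1).comp = (σ v).comp := by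
  have h2 := (h.tail v q hq).1
  exact ⟨(h.eqv v _ h2).2.1, (h.eqv v _ h2).1⟩

theorem out3_chill (hG : G.IsTree) {σ : St V} (h : WF G σ) (O : Set (V × V)) :
    Out3Inv G O σ (chill O σ) where
  wf := chill_WF hG h O
  sub q hq := by
    unfold alive chill at hq
    exact (Finset.mem_filter.1 hq).1
  keep q hq ho := by
    unfold alive chill
    exact Finset.mem_filter.2 ⟨hq, fun h => absurd h ho⟩
  comp v := by
    unfold chill
    exact Finset.Subset.refl _
  spec v q hq _ := by
    unfold chill at hq
    exact Or.inl (out3_spec_tail h.toWF0 (Finset.mem_filter.1 hq).1)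

/-- the port of a wire that is toggled -/
theorem out3_wire {O : Set (V × V)} {σ τ : St V} (h0 : WF0 G σ) (h : Out3Inv G O σ τ)
    {c q : V × V} {x : V} (hc : c ∈ (τ x).ports) (hco : opd O c) (h2 : (τ x).ports.card = 2)
    (hq : q ∈ (τ x).ports) (hqc : q ≠ c) (ho : ¬ opd O q) : unop O (σ q.1) = {q} := by
  have hw := h.wf.toWF0
  have hpair : ∀ r ∈ (τ x).ports, r ≠ c → r = q := by
    intro r hr hrc
    by_contra hne
    have hsub : ({c, q, r} : Finset (V × V)) ⊆ (τ x).ports := by
      intro y hy
      simp only [Finset.mem_insert, Finset.mem_singleton] at hy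
      rcases hy with rfl | rfl | rfl
      · exact hc
      · exact hq
      · exact hr
    have h3 := Finset.card_le_card hsub
    rw [h2, Finset.card_insert_of_notMem, Finset.card_insert_of_notMem,
      Finset.card_singleton] at h3
    · omega
    · simpa using fun h => hne h.symm
    · simp only [Finset.mem_insert, Finset.mem_singleton, not_or]
      exact ⟨fun h => hqc h.symm, fun h => hrc h.symm⟩
  have hqt := out3_ports_tail hw hq
  have hqτ : alive τ q := by
    unfold alive
    rw [hqt.1]
    exact hq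
  have hqσ := h.sub q hqτ
  apply Finset.Subset.antisymm
  · intro r hr
    obtain ⟨hr1, hr2⟩ := Finset.mem_filter.1 hr
    have hrt := out3_ports_tail h0 hr1
    have hra : alive σ r := by
      unfold alive
      rw [hrt.1]
      exact hr1
    have hrτ := h.keep r hra hr2
    have hr3 : r.1 ∈ (τ x).comp := by
      have h4 : r.1 ∈ (σ q.1).comp := (h0.tail _ r hr1).1
      have h5 := h.comp q.1 h4
      rw [hqt.2] at h5
      exact h5
    have hr4 : r ∈ (τ x).ports := by
      rw [← (hw.eqv x _ hr3).2.1]
      exact hrτ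
    have hr5 : r ≠ c := by
      rintro rfl
      exact hr2 hco
    rw [Finset.mem_singleton]
    exact hpair r hr4 hr5
  · intro r hr
    rw [Finset.mem_singleton] at hr
    subst hr
    exact Finset.mem_filter.2 ⟨hqσ, ho⟩

theorem out3_op_dead {τ : St V} {d : V × V}
    (hd : ¬ (d ∈ (τ d.1).ports ∧ d.swap ∈ (τ d.2).ports)) : op τ d = τ := by
  funext v
  unfold op
  rw [if_neg]
  rintro ⟨h1, h2, _⟩
  exact hd ⟨h1, h2⟩

theorem out3_op (hG : G.IsTree) {O : Set (V × V)} {σ τ : St V} (h0 : WF0 G σ)
    (h : Out3Inv G O σ τ) {d : V × V} (hdo : opd O d) : Out3Inv G O σ (op τ d) := by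
  by_cases hd : d ∈ (τ d.1).ports ∧ d.swap ∈ (τ d.2).ports
  swap
  · rw [out3_op_dead hd]
    exact h
  have hw := h.wf.toWF0
  have hal : alive τ d := hd.1
  refine ⟨op_WF hG h.wf hal, ?_, ?_, ?_, ?_⟩
  · intro q hq
    exact h.sub q ((op_alive hG hw hal q).1 hq).1
  · intro q hq ho
    refine (op_alive hG hw hal q).2 ⟨h.keep q hq ho, ?_, ?_⟩
    · rintro rfl
      exact ho hdo
    · rintro rfl
      exact ho ((out3_opd_swap O d).2 hdo)
  · intro v
    refine (h.comp v).trans ?_
    unfold op
    by_cases h1 : d ∈ (τ d.1).ports ∧ d.swap ∈ (τ d.2).ports ∧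
        (v ∈ (τ d.1).comp ∨ v ∈ (τ d.2).comp)
    · rw [if_pos h1]
      have hsub : (τ v).comp ⊆ (τ d.1).comp ∪ (τ d.2).comp := by
        rcases h1.2.2 with h5 | h5
        · rw [(hw.eqv _ v h5).1]
          exact Finset.subset_union_left
        · rw [(hw.eqv _ v h5).1]
          exact Finset.subset_union_right
      by_cases h2 : (d ∈ (τ d.1).spec ↔ d.swap ∈ (τ d.2).spec)
      · rw [if_pos h2]
        by_cases h3 : 3 ≤ (τ d.1).ports.card ∧ 3 ≤ (τ d.2).ports.card
        · rw [if_pos h3]
        · rw [if_neg h3]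
          by_cases h4 : (τ d.2).ports.card = 2
          · rw [if_pos h4]
            exact hsub
          · rw [if_neg h4]
            exact hsub
      · rw [if_neg h2]
        exact hsub
    · rw [if_neg h1]
  · intro v q hq ho
    unfold op at hq
    by_cases h1 : d ∈ (τ d.1).ports ∧ d.swap ∈ (τ d.2).ports ∧
        (v ∈ (τ d.1).comp ∨ v ∈ (τ d.2).comp)
    · rw [if_pos h1] at hq
      by_cases h2 : (d ∈ (τ d.1).spec ↔ d.swap ∈ (τ d.2).spec)
      · rw [if_pos h2] at hq
        by_cases h3 : 3 ≤ (τ d.1).ports.card ∧ 3 ≤ (τ d.2).ports.card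
        · rw [if_pos h3] at hq
          exact h.spec v q (Finset.mem_of_mem_erase (Finset.mem_of_mem_erase hq)) ho
        · rw [if_neg h3] at hq
          by_cases h4 : (τ d.2).ports.card = 2
          · rw [if_pos h4] at hq
            rcases Finset.mem_union.1 hq with h5 | h5
            · exact h.spec _ q (Finset.mem_of_mem_erase h5) ho
            · right
              have h6 := Finset.mem_erase.1 (Finset.mem_sdiff.1 h5).1
              exact out3_wire h0 h hd.2 ((out3_opd_swap O d).2 hdo) h4 h6.2 h6.1 ho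
          · rw [if_neg h4] at hq
            rcases Finset.mem_union.1 hq with h5 | h5
            · right
              have h6 := Finset.mem_erase.1 (Finset.mem_sdiff.1 h5).1
              have h7 := h.wf.two d.1
              have h8 := h.wf.two d.2
              have h9 : (τ d.1).ports.card = 2 := by omega
              exact out3_wire h0 h hd.1 hdo h9 h6.2 h6.1 ho
            · exact h.spec _ q (Finset.mem_of_mem_erase h5) ho
      · rw [if_neg h2] at hq
        rcases Finset.mem_union.1 hq with h5 | h5
        · exact h.spec _ q (Finset.mem_of_mem_erase h5) ho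
        · exact h.spec _ q (Finset.mem_of_mem_erase h5) ho
    · rw [if_neg h1] at hq
      exact h.spec v q hq ho

theorem out3_run {P : St V → Prop} {Q : V × V → Prop}
    (hop : ∀ τ d, P τ → Q d → P (op τ d)) (t : V × V → ℝ) :
    ∀ (n : ℕ) (S : Finset (V × V)) (τ : St V), (∀ d ∈ S, Q d) → P τ → P (run t n S τ) := by
  intro n
  induction n with
  | zero =>
    intro S τ _ h
    exact h
  | succ n ih =>
    intro S τ hS h
    rw [run]
    split_ifs with hh
    · exact ih _ _ (fun d hd => hS d (Finset.mem_of_mem_erase hd))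
        (hop _ _ h (hS _ hh.choose_spec.1))
    · exact h

/-- a port becomes flipped only if it is the only unopened port of its old comp -/
theorem out3 (hG : G.IsTree) {σ : St V} (h : WF G σ) (O : Set (V × V)) (t : V × V → ℝ) {v : V}
    {q : V × V} (hq : q ∈ (step O t σ v).spec) :
    q ∈ (σ q.1).spec ∨ unop O (σ q.1) = {q} := by
  unfold step at hq
  split_ifs at hq with hf
  · unfold post at hq
    obtain ⟨hq1, hq2⟩ := Finset.mem_filter.1 hq
    have hI : Out3Inv G O σ (run t hf.toFinset.card hf.toFinset (chill O σ)) := by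
      refine out3_run (P := Out3Inv G O σ) (Q := fun d => opd O d)
        (fun τ d hτ hd => out3_op hG h.toWF0 hτ hd) t _ _ _ ?_ (out3_chill hG h O)
      intro d hd
      exact ((Set.Finite.mem_toFinset hf).1 hd).2.1.2.2.1
    exact hI.spec v q hq1 hq2
  · unfold post at hq
    obtain ⟨hq1, hq2⟩ := Finset.mem_filter.1 hq
    exact (out3_chill hG h O).spec v q hq1 hq2

/-- `x` is reached beyond `p` through hot ports -/
def Out6R (O : Set (V × V)) (σ : St V) : ℕ → V × V → V → Prop
  | 0, _, _ => False
  | j + 1, p, x => x ∈ (σ p.2).comp ∨ ∃ g ∈ onw σ p, hot O σ g ∧ Out6R O σ j g x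

theorem out6_ind_true {P : Prop} (h : P) : ind P = 1 := by simp [ind, h]

theorem out6_card {σ : St V} (h : WF0 G σ) (O : Set (V × V)) :
    ∀ (j : ℕ) (p : V × V) (Q : Finset (V × V)), opd O p →
      (∀ q ∈ Q, unop O (σ q.1) = {q} ∧ Out6R O σ j p q.1) → (Q.card : ℝ≥0∞) ≤ Cn O σ j p := by
  intro j
  induction j with
  | zero =>
    intro p Q _ hQ
    have : Q = ∅ := by
      apply Finset.eq_empty_of_forall_notMem
      intro q hq
      exact (hQ q hq).2
    rw [this]
    simp
  | succ j ih =>
    intro p Q hp hQ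
    have hsub : Q ⊆ Q.filter (fun q => q.1 ∈ (σ p.2).comp) ∪
        ((onw σ p).filter (fun g => hot O σ g)).biUnion
          (fun g => Q.filter (fun q => Out6R O σ j g q.1)) := by
      intro q hq
      rcases (hQ q hq).2 with h1 | ⟨g, hg, hg1, hg2⟩
      · exact Finset.mem_union_left _ (Finset.mem_filter.2 ⟨hq, h1⟩)
      · apply Finset.mem_union_right
        rw [Finset.mem_biUnion]
        exact ⟨g, Finset.mem_filter.2 ⟨hg, hg1⟩, Finset.mem_filter.2 ⟨hq, hg2⟩⟩
    have hc1 : ((Q.filter (fun q => q.1 ∈ (σ p.2).comp)).card : ℝ≥0∞) ≤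
        ind ((bu O σ p).card = 1) := by
      by_cases he : (Q.filter (fun q => q.1 ∈ (σ p.2).comp)) = ∅
      · rw [he]; simp
      · obtain ⟨q, hq⟩ := Finset.nonempty_of_ne_empty he
        obtain ⟨hq1, hq2⟩ := Finset.mem_filter.1 hq
        have hu := (hQ q hq1).1
        have hsame : unop O (σ q.1) = unop O (σ p.2) := by
          unfold unop
          rw [(h.eqv _ _ hq2).2.1]
        have hbu : bu O σ p = {q} := by
          rw [← hu, hsame]
          unfold bu unop onw
          ext r
          simp only [Finset.mem_filter, Finset.mem_erase]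
          constructor
          · rintro ⟨⟨_, h1⟩, h2⟩
            exact ⟨h1, h2⟩
          · rintro ⟨h1, h2⟩
            refine ⟨⟨?_, h1⟩, h2⟩
            rintro rfl
            exact h2 ((out3_opd_swap O p).2 hp)
        have hle : (Q.filter (fun q => q.1 ∈ (σ p.2).comp)) ⊆ {q} := by
          intro r hr
          obtain ⟨hr1, hr2⟩ := Finset.mem_filter.1 hr
          have hru := (hQ r hr1).1
          have hs2 : unop O (σ r.1) = unop O (σ p.2) := by
            unfold unop
            rw [(h.eqv _ _ hr2).2.1]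
          have : ({r} : Finset (V × V)) = {q} := by
            rw [← hru, ← hu, hs2, hsame]
          rw [Finset.singleton_inj.1 this]
          exact Finset.mem_singleton_self q
        have h1 := Finset.card_le_card hle
        rw [Finset.card_singleton] at h1
        rw [out6_ind_true (by rw [hbu, Finset.card_singleton])]
        exact_mod_cast h1
    have hc2 : ((((onw σ p).filter (fun g => hot O σ g)).biUnion
          (fun g => Q.filter (fun q => Out6R O σ j g q.1))).card : ℝ≥0∞) ≤
        ∑ g ∈ onw σ p, ind (opd O g) * Cn O σ j g := by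
      calc ((((onw σ p).filter (fun g => hot O σ g)).biUnion
          (fun g => Q.filter (fun q => Out6R O σ j g q.1))).card : ℝ≥0∞)
          ≤ ((∑ g ∈ (onw σ p).filter (fun g => hot O σ g),
              (Q.filter (fun q => Out6R O σ j g q.1)).card : ℕ) : ℝ≥0∞) := by
            exact_mod_cast Finset.card_biUnion_le
        _ = ∑ g ∈ (onw σ p).filter (fun g => hot O σ g),
              ((Q.filter (fun q => Out6R O σ j g q.1)).card : ℝ≥0∞) := by
            push_cast
            rfl
        _ ≤ ∑ g ∈ (onw σ p).filter (fun g => hot O σ g), ind (opd O g) * Cn O σ j g := by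
            apply Finset.sum_le_sum
            intro g hg
            have hgo : opd O g := (Finset.mem_filter.1 hg).2.2.2.1
            rw [out6_ind_true hgo, one_mul]
            apply ih g _ hgo
            intro q hq
            obtain ⟨hq1, hq2⟩ := Finset.mem_filter.1 hq
            exact ⟨(hQ q hq1).1, hq2⟩
        _ ≤ ∑ g ∈ onw σ p, ind (opd O g) * Cn O σ j g :=
            Finset.sum_le_sum_of_subset (Finset.filter_subset _ _)
    calc (Q.card : ℝ≥0∞) ≤ ((Q.filter (fun q => q.1 ∈ (σ p.2).comp) ∪
        ((onw σ p).filter (fun g => hot O σ g)).biUnion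
          (fun g => Q.filter (fun q => Out6R O σ j g q.1))).card : ℝ≥0∞) := by
          exact_mod_cast Finset.card_le_card hsub
      _ ≤ ((Q.filter (fun q => q.1 ∈ (σ p.2).comp)).card : ℝ≥0∞) +
        ((((onw σ p).filter (fun g => hot O σ g)).biUnion
          (fun g => Q.filter (fun q => Out6R O σ j g q.1))).card : ℝ≥0∞) := by
          exact_mod_cast Finset.card_union_le _ _
      _ ≤ _ := by
          rw [Cn]
          exact add_le_add hc1 hc2

theorem out6_mono {O : Set (V × V)} {σ : St V} :
    ∀ (j k : ℕ) (p : V × V) (x : V), j ≤ k → Out6R O σ j p x → Out6R O σ k p x := by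
  intro j
  induction j with
  | zero => intro k p x _ h; exact absurd h (by simp [Out6R])
  | succ j ih =>
    intro k p x hk h
    obtain ⟨k, rfl⟩ : ∃ k', k = k' + 1 := ⟨k - 1, by omega⟩
    rcases h with h | ⟨g, hg, hg1, hg2⟩
    · exact Or.inl h
    · exact Or.inr ⟨g, hg, hg1, ih k g x (by omega) hg2⟩

theorem out6_region {O : Set (V × V)} {σ : St V} (h : WF0 G σ) {v x : V}
    (hx : x ∈ region O σ v) :
    x ∈ (σ v).comp ∨ ∃ p ∈ (σ v).ports, hot O σ p ∧ ∃ j, Out6R O σ j p x := by
  have hx' : Relation.ReflTransGen (Rl O σ) v x := hx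
  clear hx
  induction hx' using Relation.ReflTransGen.head_induction_on with
  | refl => exact Or.inl (h.mem x)
  | head hab hbx ih =>
    rename_i a b
    rcases hab with hab | hab
    · have he := h.eqv a b hab
      rw [he.1, he.2.1] at ih
      exact ih
    · have hd : (a, b) ∈ (σ a).ports := hab.1
      rcases ih with ih | ⟨p, hp, hp1, j, hj⟩
      · exact Or.inr ⟨(a, b), hd, hab, 1, Or.inl ih⟩
      · by_cases hpe : p = (a, b).swap
        · subst hpe
          cases j with
          | zero => exact absurd hj (by simp [Out6R])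
          | succ j =>
            rcases hj with hj | ⟨g, hg, hg1, hg2⟩
            · exact Or.inl hj
            · exact Or.inr ⟨g, Finset.mem_of_mem_erase hg, hg1, j, hg2⟩
        · exact Or.inr ⟨(a, b), hd, hab, j + 1,
            Or.inr ⟨p, Finset.mem_erase.2 ⟨hpe, hp⟩, hp1, hj⟩⟩

/-- number of flipped ports of the new comp -/
theorem out6 (hG : G.IsTree) {σ : St V} (h : WF G σ) (O : Set (V × V)) (t : V × V → ℝ) (v : V)
    (hs : ∀ x ∈ region O σ v, ∀ q ∈ (σ x).spec, opd O q) :
    ((step O t σ v).spec.card : ℝ≥0∞) ≤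
      ind ((unop O (σ v)).card = 1) + ∑ p ∈ (σ v).ports, ind (hot O σ p) * CC O σ p := by
  have hW := step_WF0 hG h.toWF0 O t
  have hun : ∀ q ∈ (step O t σ v).spec, ¬ opd O q := by
    intro q hq
    unfold step at hq
    split_ifs at hq with hf
    · exact (Finset.mem_filter.1 hq).2
    · exact (Finset.mem_filter.1 hq).2
  have hQ : ∀ q ∈ (step O t σ v).spec, q.1 ∈ region O σ v ∧ unop O (σ q.1) = {q} := by
    intro q hq
    have h1 : q.1 ∈ region O σ v :=
      step_comp_sub hG h.toWF0 O t v _ (hW.tail v q (hW.spec_sub v hq)).1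
    refine ⟨h1, ?_⟩
    rcases out3 hG h O t hq with h2 | h2
    · exact absurd (hs _ h1 q h2) (hun q hq)
    · exact h2
  -- one depth for all
  have hdepth : ∀ Q : Finset (V × V), (∀ q ∈ Q, q.1 ∈ region O σ v) →
      ∃ k, ∀ q ∈ Q, q.1 ∈ (σ v).comp ∨ ∃ p ∈ (σ v).ports, hot O σ p ∧ Out6R O σ k p q.1 := by
    intro Q
    induction Q using Finset.induction_on with
    | empty => intro _; exact ⟨0, by simp⟩
    | insert a s _ ih =>
      intro hs'
      obtain ⟨k, hk⟩ := ih (fun q hq => hs' q (Finset.mem_insert_of_mem hq))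
      rcases out6_region h.toWF0 (hs' a (Finset.mem_insert_self a s)) with ha | ⟨p, hp, hp1, j, hj⟩
      · refine ⟨k, ?_⟩
        intro q hq
        rcases Finset.mem_insert.1 hq with rfl | hq
        · exact Or.inl ha
        · exact hk q hq
      · refine ⟨max j k, ?_⟩
        intro q hq
        rcases Finset.mem_insert.1 hq with rfl | hq
        · exact Or.inr ⟨p, hp, hp1, out6_mono _ _ _ _ (le_max_left _ _) hj⟩
        · rcases hk q hq with h1 | ⟨p', hp', hp1', h2⟩
          · exact Or.inl h1
          · exact Or.inr ⟨p', hp', hp1', out6_mono _ _ _ _ (le_max_right _ _) h2⟩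
  obtain ⟨k, hk⟩ := hdepth _ (fun q hq => (hQ q hq).1)
  set Q := (step O t σ v).spec with hQdef
  have hsub : Q ⊆ Q.filter (fun q => q.1 ∈ (σ v).comp) ∪
      ((σ v).ports.filter (fun g => hot O σ g)).biUnion
        (fun g => Q.filter (fun q => Out6R O σ k g q.1)) := by
    intro q hq
    rcases hk q hq with h1 | ⟨g, hg, hg1, hg2⟩
    · exact Finset.mem_union_left _ (Finset.mem_filter.2 ⟨hq, h1⟩)
    · apply Finset.mem_union_right
      rw [Finset.mem_biUnion]
      exact ⟨g, Finset.mem_filter.2 ⟨hg, hg1⟩, Finset.mem_filter.2 ⟨hq, hg2⟩⟩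
  have hc1 : ((Q.filter (fun q => q.1 ∈ (σ v).comp)).card : ℝ≥0∞) ≤
      ind ((unop O (σ v)).card = 1) := by
    by_cases he : (Q.filter (fun q => q.1 ∈ (σ v).comp)) = ∅
    · rw [he]; simp
    · obtain ⟨q, hq⟩ := Finset.nonempty_of_ne_empty he
      obtain ⟨hq1, hq2⟩ := Finset.mem_filter.1 hq
      have hu := (hQ q hq1).2
      have hsame : unop O (σ q.1) = unop O (σ v) := by
        unfold unop
        rw [(h.toWF0.eqv _ _ hq2).2.1]
      have hle : (Q.filter (fun q => q.1 ∈ (σ v).comp)) ⊆ {q} := by
        intro r hr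
        obtain ⟨hr1, hr2⟩ := Finset.mem_filter.1 hr
        have hru := (hQ r hr1).2
        have hs2 : unop O (σ r.1) = unop O (σ v) := by
          unfold unop
          rw [(h.toWF0.eqv _ _ hr2).2.1]
        have : ({r} : Finset (V × V)) = {q} := by
          rw [← hru, ← hu, hs2, hsame]
        rw [Finset.singleton_inj.1 this]
        exact Finset.mem_singleton_self q
      have h1 := Finset.card_le_card hle
      rw [Finset.card_singleton] at h1
      rw [out6_ind_true (by rw [← hsame, hu, Finset.card_singleton])]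
      exact_mod_cast h1
  have hc2 : ((((σ v).ports.filter (fun g => hot O σ g)).biUnion
        (fun g => Q.filter (fun q => Out6R O σ k g q.1))).card : ℝ≥0∞) ≤
      ∑ g ∈ (σ v).ports, ind (hot O σ g) * CC O σ g := by
    calc ((((σ v).ports.filter (fun g => hot O σ g)).biUnion
        (fun g => Q.filter (fun q => Out6R O σ k g q.1))).card : ℝ≥0∞)
        ≤ ((∑ g ∈ (σ v).ports.filter (fun g => hot O σ g),
            (Q.filter (fun q => Out6R O σ k g q.1)).card : ℕ) : ℝ≥0∞) := by
          exact_mod_cast Finset.card_biUnion_le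
      _ = ∑ g ∈ (σ v).ports.filter (fun g => hot O σ g),
            ((Q.filter (fun q => Out6R O σ k g q.1)).card : ℝ≥0∞) := by
          push_cast
          rfl
      _ ≤ ∑ g ∈ (σ v).ports.filter (fun g => hot O σ g), ind (hot O σ g) * CC O σ g := by
          apply Finset.sum_le_sum
          intro g hg
          have hgh : hot O σ g := (Finset.mem_filter.1 hg).2
          rw [out6_ind_true hgh, one_mul]
          refine le_trans (out6_card h.toWF0 O k g _ hgh.2.2.1 ?_) (le_iSup (fun j => Cn O σ j g) k)
          intro q hq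
          obtain ⟨hq1, hq2⟩ := Finset.mem_filter.1 hq
          exact ⟨(hQ q hq1).2, hq2⟩
      _ ≤ ∑ g ∈ (σ v).ports, ind (hot O σ g) * CC O σ g :=
          Finset.sum_le_sum_of_subset (Finset.filter_subset _ _)
  calc (Q.card : ℝ≥0∞) ≤ ((Q.filter (fun q => q.1 ∈ (σ v).comp) ∪
      ((σ v).ports.filter (fun g => hot O σ g)).biUnion
        (fun g => Q.filter (fun q => Out6R O σ k g q.1))).card : ℝ≥0∞) := by
        exact_mod_cast Finset.card_le_card hsub
    _ ≤ ((Q.filter (fun q => q.1 ∈ (σ v).comp)).card : ℝ≥0∞) +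
      ((((σ v).ports.filter (fun g => hot O σ g)).biUnion
        (fun g => Q.filter (fun q => Out6R O σ k g q.1))).card : ℝ≥0∞) := by
        exact_mod_cast Finset.card_union_le _ _
    _ ≤ _ := add_le_add hc1 hc2

end Pool.Agent.PM
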