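import Pool.Agent.Lib.MP_947a32_pr.NsysB
import Pool.Agent.Lib.MP_947a32_pr.Clu
import Pool.Agent.Lib.MP_947a32_pr.Out3
import Pool.Agent.Lib.MP_947a32_pr.RfxB
import Pool.Agent.Lib.MP_947a32_pr.Defs2

set_option autoImplicit false

open Classical MeasureTheory
open scoped ENNReal

namespace Pool.Agent.PM


/-! ## Piece VTXA (helper28): tagged vertex, size and flips -/

section VTXA

variable {V : Type} {G : SimpleGraph V}

/-! ### closure lemmas for `Vt` -/

theorem vt_ind_congr {P Q : Prop} (h : P ↔ Q) : ind P = ind Q := by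
  rw [propext h]

/-- the comp lies on the tail side of each of its ports -/
theorem vt_comp_side {σ : St V} (h : WF0 G σ) {v : V} {p : V × V} (hp : p ∈ (σ v).ports) :
    ∀ x ∈ (σ v).comp, side G p x := by
  intro x hx
  obtain ⟨h1, h2⟩ := h.tail v p hp
  have h3 : p ∈ (σ p.1).ports := by
    rw [(h.eqv v p.1 h1).2.1]; exact hp
  have h4 := (h.sep p h3 v p.1 h1).1 (side_fst h2)
  exact (h.sep p h3 v x hx).2 h4

theorem vt_alive {σ : St V} (h : WF0 G σ) {v : V} {p : V × V} (hp : p ∈ (σ v).ports) :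
    alive σ p := by
  unfold alive
  rw [(h.eqv v p.1 (h.tail v p hp).1).2.1]; exact hp

theorem vt_alive_swap {σ : St V} (h : WF0 G σ) {v : V} {p : V × V} (hp : p ∈ (σ v).ports) :
    alive σ p.swap := h.swap v p hp

theorem vt_side {σ : St V} (h : WF0 G σ) {v : V} {p : V × V} (hp : p ∈ (σ v).ports) :
    side G p v := vt_comp_side h hp v (h.mem v)

theorem vt_lab {p : V × V} {x y : XX G} (ha : Agr G p x y) (i : Fin 3) (d : V × V)
    (hd : side G p d.1) : lab x.2 i d = lab y.2 i d := by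
  unfold lab
  split_ifs with hh
  · exact ha.2 ⟨d, hh⟩ i hd
  · rfl

/-- proposals on the tail side of a port -/
theorem vt_OO (hG : G.IsTree) {δ : ℝ} {x y : XX G} (hx : WF0 G x.1) (hy : WF0 G y.1) {v : V}
    {p : V × V} (hpx : p ∈ (x.1 v).ports) (hpy : p ∈ (y.1 v).ports) (ha : Agr G p x y)
    (d : V × V) (hd : side G p d.1) : d ∈ OO δ x ↔ d ∈ OO δ y :=
  rule_local hG hx hy (vt_alive hx hpx) (vt_alive hy hpy) ha.1
    (fun d hd => ⟨vt_lab ha 0 d hd, vt_lab ha 2 d hd⟩) d hd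

theorem Vt_const (c : ℝ≥0∞) : Vt (G := G) (fun _ _ _ => c) :=
  ⟨fun _ _ => measurable_const, fun _ _ _ _ _ _ _ _ _ => rfl⟩

theorem Vt.mul {f g : XX G → V → V × V → ℝ≥0∞} (hf : Vt f) (hg : Vt g) :
    Vt (fun x v p => f x v p * g x v p) :=
  ⟨fun v p => (hf.meas v p).mul (hg.meas v p), fun v p x y h1 h2 h3 h4 h5 => by
    rw [hf.loc v p x y h1 h2 h3 h4 h5, hg.loc v p x y h1 h2 h3 h4 h5]⟩

theorem Vt.add {f g : XX G → V → V × V → ℝ≥0∞} (hf : Vt f) (hg : Vt g) :
    Vt (fun x v p => f x v p + g x v p) :=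
  ⟨fun v p => (hf.meas v p).add (hg.meas v p), fun v p x y h1 h2 h3 h4 h5 => by
    rw [hf.loc v p x y h1 h2 h3 h4 h5, hg.loc v p x y h1 h2 h3 h4 h5]⟩

/-- functions of the state at `v` -/
theorem Vt_st (F : St V → V → V × V → ℝ≥0∞) (hm : ∀ v p, Measurable (fun σ => F σ v p))
    (hl : ∀ v p σ σ', σ v = σ' v → F σ v p = F σ' v p) :
    Vt (G := G) (fun x v p => F x.1 v p) :=
  ⟨fun v p => (hm v p).comp measurable_fst, fun v p x y h1 _ h3 _ h5 =>
    hl v p x.1 y.1 (h5.1 v (vt_side h1 h3))⟩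

theorem vt_meas_ind {X : Type} [MeasurableSpace X] {P : X → Prop} (hP : MeasurableSet {x | P x}) :
    Measurable (fun x => ind (P x)) := by
  unfold ind
  exact Measurable.ite hP measurable_const measurable_const

theorem Vt_prop [Countable V] (hG : G.IsTree) (δ : ℝ) :
    Vt (G := G) (fun x _ p => ind (p ∈ OO δ x)) :=
  ⟨fun _ p => vt_meas_ind (meas_OO δ p), fun v p x y h1 h2 h3 h4 h5 => by
    exact vt_ind_congr (vt_OO (δ := δ) hG h1 h2 h3 h4 h5 p (side_fst (h1.tail v p h3).2))⟩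

theorem Vt_nprop [Countable V] (hG : G.IsTree) (δ : ℝ) :
    Vt (G := G) (fun x _ p => ind (p ∉ OO δ x)) :=
  ⟨fun _ p => vt_meas_ind (meas_OO δ p).compl, fun v p x y h1 h2 h3 h4 h5 => by
    exact vt_ind_congr
      (not_congr (vt_OO (δ := δ) hG h1 h2 h3 h4 h5 p (side_fst (h1.tail v p h3).2)))⟩

theorem vt_meas_fst_ports [Countable V] (v : V) (P : Finset (V × V) → Prop) :
    MeasurableSet {x : XX G | P (x.1 v).ports} := meas_ports (s := fun x : XX G => x.1) measurable_fst v P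

/-- sums over random finite sets -/
theorem vt_meas_sum [Countable V] {X : Type} [MeasurableSpace X] {s : X → Finset (V × V)}
    (hs : ∀ S, MeasurableSet {x | s x = S}) {H : X → V × V → ℝ≥0∞}
    (hH : ∀ r, Measurable (fun x => H x r)) : Measurable (fun x => ∑ r ∈ s x, H x r) := by
  intro B hB
  have : (fun x => ∑ r ∈ s x, H x r) ⁻¹' B =
      ⋃ S : Finset (V × V), {x | s x = S} ∩ (fun x => ∑ r ∈ S, H x r) ⁻¹' B := by
    ext x
    simp only [Set.mem_preimage, Set.mem_iUnion, Set.mem_inter_iff, Set.mem_ofPred_eq]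
    constructor
    · intro h; exact ⟨s x, rfl, h⟩
    · rintro ⟨S, rfl, h⟩; exact h
  rw [this]
  exact MeasurableSet.iUnion (fun S => (hs S).inter
    ((Finset.measurable_sum S (fun r _ => hH r)) hB))

theorem Vt_allop [Countable V] (hG : G.IsTree) (δ : ℝ) :
    Vt (G := G) (fun x v _ => ind (allop (OO δ x) (x.1 v))) := by
  refine ⟨fun v _ => vt_meas_ind ?_, fun v p x y h1 h2 h3 h4 h5 => ?_⟩
  · unfold allop
    have h1 : MeasurableSet {x : XX G | 3 ≤ (ordp (x.1 v)).card} := by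
      have : {x : XX G | 3 ≤ (ordp (x.1 v)).card} = ⋃ S : Finset (V × V),
          {x : XX G | (x.1 v).ports = S} ∩ {x : XX G | 3 ≤ (S \ (x.1 v).spec).card} := by
        ext x
        simp only [Set.mem_ofPred_eq, Set.mem_iUnion, Set.mem_inter_iff, ordp]
        constructor
        · intro h; exact ⟨_, rfl, h⟩
        · rintro ⟨S, rfl, h⟩; exact h
      rw [this]
      refine MeasurableSet.iUnion (fun S => (vt_meas_fst_ports v (fun P => P = S)).inter ?_)
      exact meas_spec (s := fun x : XX G => x.1) measurable_fst v (fun P => 3 ≤ (S \ P).card)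
    have h2 : MeasurableSet {x : XX G | ∀ q ∈ (x.1 v).ports, q ∈ OO δ x} := by
      have : {x : XX G | ∀ q ∈ (x.1 v).ports, q ∈ OO δ x} = ⋂ q : V × V,
          ({x : XX G | q ∉ (x.1 v).ports} ∪ {x : XX G | q ∈ OO δ x}) := by
        ext x
        simp only [Set.mem_ofPred_eq, Set.mem_iInter, Set.mem_union]
        constructor
        · intro h q; by_cases hq : q ∈ (x.1 v).ports
          · exact Or.inr (h q hq)
          · exact Or.inl hq
        · intro h q hq; exact (h q).resolve_left (fun h => h hq)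
      rw [this]
      exact MeasurableSet.iInter (fun q => (vt_meas_fst_ports v (fun P => q ∉ P)).union (meas_OO δ q))
    exact h1.inter h2
  · have hv : x.1 v = y.1 v := h5.1 v (vt_side h1 h3)
    have : allop (OO δ x) (x.1 v) ↔ allop (OO δ y) (y.1 v) := by
      unfold allop
      rw [← hv]
      refine and_congr_right (fun _ => forall₂_congr (fun q hq => ?_))
      exact vt_OO hG h1 h2 h3 h4 h5 q (vt_comp_side h1 h3 q.1 (h1.tail v q hq).1)
    exact vt_ind_congr this

theorem vt_agr (hG : G.IsTree) {x y : XX G} (h1 : WF0 G x.1) {v : V} {p r : V × V}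
    (hp : p ∈ (x.1 v).ports) (hr : r ∈ (x.1 v).ports) (hne : r ≠ p) (ha : Agr G p x y) :
    Agr G r.swap x y := by
  have hadj := (h1.tail v r hr).2
  have hpadj := (h1.tail v p hp).2
  have key : ∀ z, side G r.swap z → side G p z := by
    intro z hz
    have h2 : ¬ side G r z := (side_iff hG hadj z).2 hz
    exact side_disj hG hadj hpadj (vt_comp_side h1 hr p.1 (h1.tail v p hp).1)
      (vt_comp_side h1 hp r.1 (h1.tail v r hr).1) hne z h2
  exact ⟨fun z hz => ha.1 z (key z hz), fun d i hd => ha.2 d i (key _ hd)⟩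

/-- observables at the other ports -/
theorem Vt_erase [Countable V] (hG : G.IsTree) {f : XX G → V → V × V → ℝ≥0∞}
    (hf1 : ∀ v r, Measurable (fun x => f x v r))
    (hf2 : ∀ (v : V) (p r : V × V) (x y : XX G), WF0 G x.1 → WF0 G y.1 → p ∈ (x.1 v).ports →
      p ∈ (y.1 v).ports → r ∈ (x.1 v).ports → r ≠ p → Agr G p x y → f x v r = f y v r)
    {g : XX G → V × V → ℝ≥0∞} (hg : Hd g) :
    Vt (fun x v p => ∑ r ∈ ((x.1 v).ports).erase p, f x v r * g x r) := by
  refine ⟨fun v p => ?_, fun v p x y h1 h2 h3 h4 h5 => ?_⟩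
  · refine vt_meas_sum (s := fun x : XX G => ((x.1 v).ports).erase p) (fun S => ?_)
      (fun r => (hf1 v r).mul (hg.meas r))
    exact vt_meas_fst_ports v (fun P => P.erase p = S)
  · have hv : x.1 v = y.1 v := h5.1 v (vt_side h1 h3)
    show ∑ r ∈ ((x.1 v).ports).erase p, f x v r * g x r =
      ∑ r ∈ ((y.1 v).ports).erase p, f y v r * g y r
    rw [← hv]
    refine Finset.sum_congr rfl (fun r hr => ?_)
    obtain ⟨hr1, hr2⟩ := Finset.mem_erase.1 hr
    have hadj := (h1.tail v r hr2).2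
    have ha := vt_agr hG h1 h3 hr2 hr1 h5
    rw [hf2 v p r x y h1 h2 h3 h4 hr2 hr1 h5]
    congr 1
    exact hg.loc r hadj x y h1 h2 (vt_alive_swap h1 hr2) (vt_alive_swap h2 (hv ▸ hr2)) ha

/-! ### pointwise bounds -/

theorem vt_ind_le_one (P : Prop) : ind P ≤ 1 := by
  unfold ind; split_ifs <;> simp

theorem vt_ind_true {P : Prop} (h : P) : ind P = 1 := by simp [ind, h]

theorem vt_ind_false {P : Prop} (h : ¬ P) : ind P = 0 := by simp [ind, h]

/-- if all but at most one of the kept ports are opened, some kept port is hit -/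
theorem vt_kept {σ : St V} {O : Set (V × V)} (hR : RF O σ Set.univ) {v : V}
    (hu : (unop O (σ v)).card ≤ 1) (hk : ¬ (ordp (σ v)).card ≤ 2) (ha : ¬ allop O (σ v)) :
    ∃ r ∈ (σ v).ports, r ∉ O ∧ r.swap ∈ O := by
  have hk3 : 3 ≤ (ordp (σ v)).card := by omega
  have hl := (hR.large v (Set.mem_univ v) hk3).resolve_left (fun h => ha ⟨hk3, h⟩)
  by_contra hcon
  push Not at hcon
  have hsub : (σ v).ports.filter (fun q => q ∉ O) ⊆ unop O (σ v) := by
    intro r hr
    obtain ⟨h1, h2⟩ := Finset.mem_filter.1 hr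
    refine Finset.mem_filter.2 ⟨h1, ?_⟩
    unfold opd
    push Not
    exact ⟨h2, hcon r h1 h2⟩
  have := Finset.card_le_card hsub
  rw [hl] at this
  omega

/-- number of ports not proposed -/
theorem vt_kept_card {σ : St V} {O : Set (V × V)} (hR : RF O σ Set.univ) (v : V) :
    ((σ v).ports.filter (fun q => q ∉ O)).card ≤ 7 := by
  by_cases hk : (ordp (σ v)).card ≤ 2
  · have := hR.small v (Set.mem_univ v) hk
    rw [Finset.filter_eq_empty_iff.2 (fun q hq h => h (this q hq))]; simp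
  · have hk3 : 3 ≤ (ordp (σ v)).card := by omega
    rcases hR.large v (Set.mem_univ v) hk3 with h | h
    · rw [Finset.filter_eq_empty_iff.2 (fun q hq h' => h' (h q hq))]; simp
    · rw [h]; exact min_le_right _ _

theorem vt_sum_ind (S : Finset (V × V)) (P : V × V → Prop) [DecidablePred P] :
    ∑ p ∈ S, ind (P p) = ((S.filter P).card : ℝ≥0∞) := by
  have h : ∀ p ∈ S, ind (P p) = if P p then (1 : ℝ≥0∞) else 0 := fun p _ => by
    unfold ind; congr
  rw [Finset.sum_congr rfl h, Finset.sum_boole]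

theorem vt_six {X : Type} [MeasurableSpace X] {ν : Measure X} {f1 f2 f3 f4 f5 f6 : X → ℝ≥0∞}
    (m1 : Measurable f1) (m2 : Measurable f2) (m3 : Measurable f3) (m4 : Measurable f4)
    (m5 : Measurable f5) :
    ∫⁻ x, (f1 x + f2 x + f3 x + f4 x + f5 x + f6 x) ∂ν = ∫⁻ x, f1 x ∂ν + ∫⁻ x, f2 x ∂ν +
      ∫⁻ x, f3 x ∂ν + ∫⁻ x, f4 x ∂ν + ∫⁻ x, f5 x ∂ν + ∫⁻ x, f6 x ∂ν := by
  rw [lintegral_add_left (f := fun x => f1 x + f2 x + f3 x + f4 x + f5 x) (by fun_prop),
    lintegral_add_left (f := fun x => f1 x + f2 x + f3 x + f4 x) (by fun_prop),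
    lintegral_add_left (f := fun x => f1 x + f2 x + f3 x) (by fun_prop),
    lintegral_add_left (f := fun x => f1 x + f2 x) (by fun_prop),
    lintegral_add_left (f := fun x => f1 x) (by fun_prop)]

/-- hot ports at a comp -/
theorem vt_hot_le {σ : St V} {O : Set (V × V)} (h : WF0 G σ) (hR : RF O σ Set.univ) {v : V}
    {p : V × V} (hp : p ∈ (σ v).ports) :
    ind (hot O σ p) ≤ ind (p ∈ (σ v).spec) + ind (p ∈ O) * ind (tr O σ p) + ind (p.swap ∈ O) +
      ind ((ordp (σ v)).card ≤ 2) + ind (allop O (σ v)) +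
      ∑ r ∈ (σ v).ports.erase p, ind (r ∉ O) * ind (r.swap ∈ O) := by
  by_cases hh : hot O σ p
  · rw [vt_ind_true hh]
    obtain ⟨h1, h2⟩ := hot_cases h hp hh
    rcases h2 with h2 | h2 | h2
    · rw [vt_ind_true h2]
      simp only [add_assoc]
      exact le_self_add
    · by_cases hk : (ordp (σ v)).card ≤ 2
      · rw [vt_ind_true hk]
        refine le_trans ?_ (le_trans le_self_add le_self_add)
        exact le_add_self
      · by_cases ha : allop O (σ v)
        · rw [vt_ind_true ha]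
          refine le_trans ?_ le_self_add
          exact le_add_self
        · obtain ⟨r, hr1, hr2, hr3⟩ := vt_kept hR h2 hk ha
          by_cases hrp : r = p
          · subst hrp
            rw [vt_ind_true hr3]
            refine le_trans ?_ (le_trans (le_trans le_self_add le_self_add) le_self_add)
            exact le_add_self
          · refine le_trans ?_ le_add_self
            have h3 : (1 : ℝ≥0∞) = ind (r ∉ O) * ind (r.swap ∈ O) := by
              rw [vt_ind_true hr2, vt_ind_true hr3, mul_one]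
            rw [h3]
            exact Finset.single_le_sum (f := fun r => ind (r ∉ O) * ind (r.swap ∈ O))
              (fun _ _ => zero_le) (Finset.mem_erase.2 ⟨hrp, hr1⟩)
    · rcases h1 with h1 | h1
      · rw [vt_ind_true h1, vt_ind_true h2, mul_one]
        refine le_trans ?_ (le_trans (le_trans (le_trans le_self_add le_self_add) le_self_add)
          le_self_add)
        exact le_add_self
      · rw [vt_ind_true h1]
        refine le_trans ?_ (le_trans (le_trans le_self_add le_self_add) le_self_add)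
        exact le_add_self
  · rw [vt_ind_false hh]; exact zero_le

/-- weights times the hot sum -/
theorem vt_hot_sum {σ : St V} {O : Set (V × V)} (h : WF0 G σ) (hR : RF O σ Set.univ) (v : V)
    (W : ℝ≥0∞) (N : V × V → ℝ≥0∞) :
    W * ∑ p ∈ (σ v).ports, ind (hot O σ p) * N p ≤
      ∑ p ∈ (σ v).ports, (W * ind (p ∈ (σ v).spec)) * N p +
      ∑ p ∈ (σ v).ports, (W * ind (p ∈ O)) * (ind (tr O σ p) * N p) +
      ∑ p ∈ (σ v).ports, W * (ind (p.swap ∈ O) * N p) +
      ∑ p ∈ (σ v).ports, (W * ind ((ordp (σ v)).card ≤ 2)) * N p +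
      ∑ p ∈ (σ v).ports, (W * ind (allop O (σ v))) * N p +
      ∑ p ∈ (σ v).ports, (W * ∑ r ∈ (σ v).ports.erase p, ind (r ∉ O) * ind (r.swap ∈ O)) * N p := by
  rw [Finset.mul_sum, ← Finset.sum_add_distrib, ← Finset.sum_add_distrib,
    ← Finset.sum_add_distrib, ← Finset.sum_add_distrib, ← Finset.sum_add_distrib]
  refine Finset.sum_le_sum (fun p hp => ?_)
  calc W * (ind (hot O σ p) * N p)
      ≤ W * ((ind (p ∈ (σ v).spec) + ind (p ∈ O) * ind (tr O σ p) + ind (p.swap ∈ O) +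
      ind ((ordp (σ v)).card ≤ 2) + ind (allop O (σ v)) +
      ∑ r ∈ (σ v).ports.erase p, ind (r ∉ O) * ind (r.swap ∈ O)) * N p) := by
        gcongr
        exact vt_hot_le h hR hp
    _ = _ := by ring

/-- exactly one unopened port -/
theorem vt_one {σ : St V} {O : Set (V × V)} (hR : RF O σ Set.univ) (v : V) :
    ind ((unop O (σ v)).card = 1) ≤ ∑ r ∈ (σ v).ports, ind (r ∉ O) * ind (r.swap ∈ O) := by
  by_cases hu : (unop O (σ v)).card = 1
  · rw [vt_ind_true hu]
    obtain ⟨q, hq⟩ := Finset.card_eq_one.1 hu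
    have hq1 : q ∈ unop O (σ v) := by rw [hq]; exact Finset.mem_singleton_self q
    obtain ⟨hq2, hq3⟩ := Finset.mem_filter.1 hq1
    have hk : ¬ (ordp (σ v)).card ≤ 2 := fun hk =>
      hq3 (Or.inl (hR.small v (Set.mem_univ v) hk q hq2))
    have ha : ¬ allop O (σ v) := fun ha => hq3 (Or.inl (ha.2 q hq2))
    obtain ⟨r, hr1, hr2, hr3⟩ := vt_kept hR hu.le hk ha
    have h3 : (1 : ℝ≥0∞) = ind (r ∉ O) * ind (r.swap ∈ O) := by
      rw [vt_ind_true hr2, vt_ind_true hr3, mul_one]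
    rw [h3]
    exact Finset.single_le_sum (f := fun r => ind (r ∉ O) * ind (r.swap ∈ O))
      (fun _ _ => zero_le) hr1
  · rw [vt_ind_false hu]; exact zero_le

/-! ### expectations -/

variable {μ : Measure (St V)} {Δ : ℕ} {δ : ℝ} {e : V × V}

theorem vt_meas_und [Countable V] (v : V) : MeasurableSet {σ : St V | und σ v} := by
  have : {σ : St V | und σ v} = (⋃ w : V, ⋂ p : V × V,
      ({σ : St V | p ∉ (σ v).ports} ∪ {σ : St V | (σ v).M p = w}))ᶜ := by
    ext σ
    simp only [und, Dec, Set.mem_ofPred_eq, Set.mem_compl_iff, Set.mem_iUnion, Set.mem_iInter,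
      Set.mem_union, not_exists]
    refine forall_congr' (fun w => not_congr ?_)
    constructor
    · intro h p; by_cases hp : p ∈ (σ v).ports
      · exact Or.inr (h p hp)
      · exact Or.inl hp
    · intro h p hp; exact (h p).resolve_left (fun h => h hp)
  rw [this]
  refine (MeasurableSet.iUnion (fun w => MeasurableSet.iInter (fun p => ?_))).compl
  exact (meas_ports (s := fun σ : St V => σ) measurable_id v (fun P => p ∉ P)).union
    (meas_M (s := fun σ : St V => σ) measurable_id v p (fun u => u = w))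

theorem vt_und_congr {σ σ' : St V} {v : V} (h : σ v = σ' v) : und σ v ↔ und σ' v := by
  unfold und Dec; rw [h]

/-- weight: undecided -/
theorem Vt_und [Countable V] : Vt (G := G) (fun x v _ => ind (und x.1 v)) :=
  Vt_st (fun σ v _ => ind (und σ v)) (fun v _ => vt_meas_ind (vt_meas_und v))
    (fun _ _ _ _ h => vt_ind_congr (vt_und_congr h))

/-- observables of ports and flips -/
theorem Vt_F [Countable V] (F : Finset (V × V) → Finset (V × V) → V × V → ℝ≥0∞) :
    Vt (G := G) (fun x v p => F (x.1 v).ports (x.1 v).spec p) := by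
  refine Vt_st (fun σ v p => F (σ v).ports (σ v).spec p) (fun v p => ?_)
    (fun v p σ σ' h => by rw [h])
  intro B hB
  have : (fun σ : St V => F (σ v).ports (σ v).spec p) ⁻¹' B =
      ⋃ S : Finset (V × V), {σ : St V | (σ v).ports = S} ∩
        {σ : St V | F S (σ v).spec p ∈ B} := by
    ext σ
    simp only [Set.mem_preimage, Set.mem_iUnion, Set.mem_inter_iff, Set.mem_ofPred_eq]
    constructor
    · intro h; exact ⟨_, rfl, h⟩
    · rintro ⟨S, rfl, h⟩; exact h
  rw [this]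
  exact MeasurableSet.iUnion (fun S =>
    (meas_ports (s := fun σ : St V => σ) measurable_id v (fun P => P = S)).inter
    (meas_spec (s := fun σ : St V => σ) measurable_id v (fun P => F S P p ∈ B)))

theorem vt_fst (hL : Law G μ) {w : St V → ℝ≥0∞} (hw : Measurable w) :
    ∫⁻ x, w x.1 ∂(μ.prod (lam G)) = ∫⁻ σ, w σ ∂μ := by
  have := hL.prob
  exact (measurePreserving_fst (μ := μ) (ν := lam G)).lintegral_comp hw

theorem vt_qh_le (H : Hyp G μ δ e Δ) : qh G μ δ e ≤ eta G μ δ e := by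
  refine le_trans (qh_le H) ?_
  unfold eta
  have h1 : ENNReal.ofReal (2000 * δ) ≤ qA δ := by
    unfold qA
    refine ENNReal.ofReal_le_ofReal ?_
    have := H.dpos
    nlinarith
  calc qx G μ e + qy G μ e + qm G μ e + ENNReal.ofReal (2000 * δ)
      ≤ qx G μ e + qy G μ e + qm G μ e + (qr G μ e + qA δ) := by
        gcongr
        exact le_trans h1 le_add_self
    _ = _ := by ring

theorem vt_t_le (H : Hyp G μ δ e Δ) :
    br (G := G) μ e (fun x e => ind (e.swap ∈ OO δ x) * NN (OO δ x) x.1 e) ≤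
      11 * eta G μ δ e := by
  refine le_trans (hit_nn_le H) ?_
  have h1 : qx G μ e + qy G μ e + qm G μ e + qA δ ≤ eta G μ δ e := by
    unfold eta
    calc qx G μ e + qy G μ e + qm G μ e + qA δ
        ≤ qx G μ e + qy G μ e + qm G μ e + (qr G μ e + qA δ) := by gcongr; exact le_add_self
      _ = _ := by ring
  have h2 : 200 * eta G μ δ e ^ 2 ≤ 1 * eta G μ δ e := by
    rw [pow_two, ← mul_assoc]
    gcongr
    calc 200 * eta G μ δ e ≤ 200 * ENNReal.ofReal (1 / 10 ^ 6) := by gcongr; exact H.small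
      _ ≤ 1 := by
        rw [show (200 : ℝ≥0∞) = ENNReal.ofReal 200 by simp, ← ENNReal.ofReal_mul (by norm_num)]
        rw [← ENNReal.ofReal_one]
        exact ENNReal.ofReal_le_ofReal (by norm_num)
  calc 10 * (qx G μ e + qy G μ e + qm G μ e + qA δ) + 200 * eta G μ δ e ^ 2
      ≤ 10 * eta G μ δ e + 1 * eta G μ δ e := by gcongr
    _ = _ := by ring

theorem vt_ae (H : Hyp G μ δ e Δ) : ∀ᵐ x ∂(μ.prod (lam G)),
    WF G x.1 ∧ RF (OO δ x) x.1 Set.univ ∧ Gen δ x.2 := by
  have hc : Countable V := countable_V H.std.tree Δ H.std.reg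
  have hp := H.law.prob
  have h1 : ∀ᵐ x ∂(μ.prod (lam G)), WF G x.1 :=
    Measure.quasiMeasurePreserving_fst.ae H.law.wf
  have h2 : ∀ᵐ x ∂(μ.prod (lam G)), Gen δ x.2 := ae_Gen δ
  filter_upwards [h1, h2] with x hx1 hx2
  exact ⟨hx1, RF_of_Gen (σ := x.1) hx1.toWF0 (δ := δ) (l := x.2) hx2, hx2⟩

theorem vt_und_step (hG : G.IsTree) {σ : St V} (h : WF0 G σ) (O : Set (V × V))
    (t : V × V → ℝ) (v : V) : ind (und (step O t σ) v) ≤ ind (und σ v) := by
  by_cases hu : und (step O t σ) v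
  · have : und σ v := fun ⟨w, hw⟩ => hu ⟨w, Dec_step hG h O t hw⟩
    rw [vt_ind_true hu, vt_ind_true this]
  · rw [vt_ind_false hu]; exact zero_le

/-- the measure theoretic part of the bound of hot sums: kept hits -/
theorem vt_kept_hit (H : Hyp G μ δ e Δ) (v : V) {W : XX G → V → V × V → ℝ≥0∞} (hW : Vt W)
    (hWc : ∀ x v p q, W x v p = W x v q) (d : V × V) :
    ∫⁻ x, ∑ r ∈ (x.1 v).ports, (W x v r * ind (r ∉ OO δ x)) * ind (r.swap ∈ OO δ x)
      ∂(μ.prod (lam G)) ≤ 7 * qh G μ δ e * ∫⁻ x, W x v d ∂(μ.prod (lam G)) := by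
  have hc : Countable V := countable_V H.std.tree Δ H.std.reg
  rw [vfact H.std H.law (hW.mul (Vt_nprop H.std.tree δ)) (HP_hit H.std.tree δ).ind v H.adj]
  have h1 : ∫⁻ x, ∑ p ∈ (x.1 v).ports, W x v p * ind (p ∉ OO δ x) ∂(μ.prod (lam G)) ≤
      ∫⁻ x, W x v d * 7 ∂(μ.prod (lam G)) := by
    refine lintegral_mono_ae ?_
    filter_upwards [vt_ae H] with x hx
    calc ∑ p ∈ (x.1 v).ports, W x v p * ind (p ∉ OO δ x)
        = ∑ p ∈ (x.1 v).ports, W x v d * ind (p ∉ OO δ x) :=
          Finset.sum_congr rfl (fun p _ => by rw [hWc x v p d])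
      _ = W x v d * (((x.1 v).ports.filter (fun p => p ∉ OO δ x)).card : ℝ≥0∞) := by
          rw [← Finset.mul_sum, vt_sum_ind]
      _ ≤ W x v d * 7 := by
          gcongr
          exact_mod_cast vt_kept_card hx.2.1 v
  rw [lintegral_mul_const _ (hW.meas v d)] at h1
  calc (∫⁻ x, ∑ p ∈ (x.1 v).ports, W x v p * ind (p ∉ OO δ x) ∂(μ.prod (lam G))) *
        br μ e (fun x e => ind (e.swap ∈ OO δ x))
      ≤ ((∫⁻ x, W x v d ∂(μ.prod (lam G))) * 7) * br μ e (fun x e => ind (e.swap ∈ OO δ x)) := by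
        gcongr
    _ = _ := by unfold qh; ring

/-! ### the two estimates -/

theorem vt_next_P (H : Hyp G μ δ e Δ) (v : V) :
    vP (nextLaw (stp (G := G) δ) μ) v ≤
      ∫⁻ x, ind (und x.1 v) * (7 + 7 * ∑ p ∈ (x.1 v).ports, ind (hot (OO δ x) x.1 p) *
        NN (OO δ x) x.1 p) ∂(μ.prod (lam G)) := by
  refine le_trans (lintegral_map_le _ _) (lintegral_mono_ae ?_)
  filter_upwards [vt_ae H] with x hx
  have h5 := out5 H.std.tree hx.1.toWF0 (OO δ x) (lab x.2 1) v
    (fun z _ => unop_le hx.1.toWF0 hx.2.1 z)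
  refine mul_le_mul' (vt_und_step H.std.tree hx.1.toWF0 _ _ v) (le_trans h5 ?_)
  gcongr
  exact_mod_cast unop_le hx.1.toWF0 hx.2.1 v

theorem vt_next_T (H : Hyp G μ δ e Δ) (v : V) :
    vT (nextLaw (stp (G := G) δ) μ) v ≤
      ∫⁻ x, ind (und x.1 v) * (∑ r ∈ (x.1 v).ports, ind (r ∉ OO δ x) * ind (r.swap ∈ OO δ x) +
        ∑ p ∈ (x.1 v).ports, ind (hot (OO δ x) x.1 p) * CC (OO δ x) x.1 p)
          ∂(μ.prod (lam G)) := by
  refine le_trans (lintegral_map_le _ _) (lintegral_mono_ae ?_)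
  filter_upwards [vt_ae H] with x hx
  have h6 := out6 H.std.tree hx.1 (OO δ x) (lab x.2 1) v
    (fun z _ q hq => Or.inl (hx.2.1.spec z (Set.mem_univ z) q hq))
  refine mul_le_mul' (vt_und_step H.std.tree hx.1.toWF0 _ _ v) (le_trans h6 ?_)
  gcongr
  exact vt_one hx.2.1 v

theorem vt_meas_hot [Countable V] (v : V)
    {g : XX G → V × V → ℝ≥0∞} (hg : ∀ p, Measurable (fun x => g x p)) :
    Measurable (fun x : XX G => ∑ p ∈ (x.1 v).ports, g x p) :=
  vt_meas_sum (s := fun x : XX G => (x.1 v).ports)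
    (fun S => vt_meas_fst_ports v (fun P => P = S)) hg

theorem vt_meas_P [Countable V] (v : V) :
    Measurable (fun σ : St V => ind (und σ v) * ((σ v).ports.card : ℝ≥0∞)) := by
  refine (vt_meas_ind (vt_meas_und v)).mul ?_
  intro B _
  exact meas_ports (s := fun σ : St V => σ) measurable_id v (fun P => (P.card : ℝ≥0∞) ∈ B)

theorem vt_meas_T [Countable V] (v : V) :
    Measurable (fun σ : St V => ind (und σ v) * ((σ v).spec.card : ℝ≥0∞)) := by
  refine (vt_meas_ind (vt_meas_und v)).mul ?_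
  intro B _
  exact meas_spec (s := fun σ : St V => σ) measurable_id v (fun P => (P.card : ℝ≥0∞) ∈ B)

theorem vt_U (H : Hyp G μ δ e Δ) (v : V) :
    ∫⁻ x, ind (und x.1 v) ∂(μ.prod (lam G)) = vU μ v := by
  have hc : Countable V := countable_V H.std.tree Δ H.std.reg
  exact vt_fst H.law (w := fun σ => ind (und σ v)) (vt_meas_ind (vt_meas_und v))

theorem vt_P (H : Hyp G μ δ e Δ) (v : V) :
    ∫⁻ x, ind (und x.1 v) * ((x.1 v).ports.card : ℝ≥0∞) ∂(μ.prod (lam G)) = vP μ v := by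
  have hc : Countable V := countable_V H.std.tree Δ H.std.reg
  exact vt_fst H.law (w := fun σ => ind (und σ v) * ((σ v).ports.card : ℝ≥0∞)) (vt_meas_P v)

theorem vt_T (H : Hyp G μ δ e Δ) (v : V) :
    ∫⁻ x, ind (und x.1 v) * ((x.1 v).spec.card : ℝ≥0∞) ∂(μ.prod (lam G)) = vT μ v := by
  have hc : Countable V := countable_V H.std.tree Δ H.std.reg
  exact vt_fst H.law (w := fun σ => ind (und σ v) * ((σ v).spec.card : ℝ≥0∞)) (vt_meas_T v)

/-- `∑ p, W * g p` with `g` a nice functional -/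
theorem vt_port_sum (H : Hyp G μ δ e Δ) (v : V) {F : XX G → V → V × V → ℝ≥0∞} (hF : Vt F)
    {g : XX G → V × V → ℝ≥0∞} (hg : Hd g) {A B : ℝ≥0∞}
    (hA : ∫⁻ x, ∑ p ∈ (x.1 v).ports, F x v p ∂(μ.prod (lam G)) ≤ A) (hB : br μ e g ≤ B) :
    ∫⁻ x, ∑ p ∈ (x.1 v).ports, F x v p * g x p ∂(μ.prod (lam G)) ≤ A * B := by
  rw [vfact H.std H.law hF hg v H.adj]
  exact mul_le_mul' hA hB

/-- `∑ p, W = W * card` -/
theorem vt_sum_P (H : Hyp G μ δ e Δ) (v : V) :
    ∫⁻ x, ∑ _p ∈ (x.1 v).ports, ind (und x.1 v) ∂(μ.prod (lam G)) = vP μ v := by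
  rw [← vt_P H v]
  refine lintegral_congr (fun x => ?_)
  rw [Finset.sum_const, nsmul_eq_mul, mul_comm]

theorem vt_sum_P_le (H : Hyp G μ δ e Δ) (v : V) (Q : XX G → V × V → Prop) :
    ∫⁻ x, ∑ p ∈ (x.1 v).ports, ind (und x.1 v) * ind (Q x p) ∂(μ.prod (lam G)) ≤ vP μ v := by
  rw [← vt_sum_P H v]
  refine lintegral_mono (fun x => Finset.sum_le_sum (fun p _ => ?_))
  calc ind (und x.1 v) * ind (Q x p) ≤ ind (und x.1 v) * 1 := by
        gcongr; exact vt_ind_le_one _
    _ = _ := mul_one _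

theorem vt_sum_T (H : Hyp G μ δ e Δ) (v : V) :
    ∫⁻ x, ∑ p ∈ (x.1 v).ports, ind (und x.1 v) * ind (p ∈ (x.1 v).spec) ∂(μ.prod (lam G)) ≤
      vT μ v := by
  rw [← vt_T H v]
  refine lintegral_mono_ae ?_
  filter_upwards [vt_ae H] with x hx
  rw [← Finset.mul_sum, vt_sum_ind]
  gcongr
  intro p hp
  exact (Finset.mem_filter.1 hp).2

theorem vt_sum_small (H : Hyp G μ δ e Δ) (v : V) :
    ∫⁻ x, ∑ _p ∈ (x.1 v).ports, ind (und x.1 v) * ind ((ordp (x.1 v)).card ≤ 2)
      ∂(μ.prod (lam G)) ≤ 2 * vU μ v + vT μ v := by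
  have hc : Countable V := countable_V H.std.tree Δ H.std.reg
  have mu : Measurable (fun x : XX G => ind (und x.1 v)) :=
    (vt_meas_ind (vt_meas_und v)).comp measurable_fst
  have mu2 : Measurable (fun x : XX G => 2 * ind (und x.1 v)) := mu.const_mul 2
  rw [← vt_T H v, ← vt_U H v, ← lintegral_const_mul _ mu, ← lintegral_add_left mu2]
  refine lintegral_mono_ae ?_
  filter_upwards [vt_ae H] with x hx
  rw [Finset.sum_const, nsmul_eq_mul]
  by_cases hk : (ordp (x.1 v)).card ≤ 2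
  · have h1 : (x.1 v).ports.card ≤ 2 + (x.1 v).spec.card := by
      have := Finset.card_le_card_sdiff_add_card (s := (x.1 v).ports) (t := (x.1 v).spec)
      unfold ordp at hk
      omega
    have h2 : ((x.1 v).ports.card : ℝ≥0∞) ≤ 2 + ((x.1 v).spec.card : ℝ≥0∞) := by
      exact_mod_cast h1
    rw [vt_ind_true hk, mul_one]
    calc ((x.1 v).ports.card : ℝ≥0∞) * ind (und x.1 v)
        ≤ (2 + ((x.1 v).spec.card : ℝ≥0∞)) * ind (und x.1 v) := by gcongr
      _ = _ := by ring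
  · rw [vt_ind_false hk, mul_zero, mul_zero]; exact zero_le

theorem vt_sum_allop (H : Hyp G μ δ e Δ) (v : V) :
    ∫⁻ x, ∑ _p ∈ (x.1 v).ports, ind (und x.1 v) * ind (allop (OO δ x) (x.1 v))
      ∂(μ.prod (lam G)) ≤ qA δ * vU μ v := by
  have hc : Countable V := countable_V H.std.tree Δ H.std.reg
  have := v_allop H.std H.law H.dpos v (w := fun σ => ind (und σ v))
    (vt_meas_ind (vt_meas_und v))
  refine le_trans (le_of_eq (lintegral_congr (fun x => ?_))) this
  rw [Finset.sum_const, nsmul_eq_mul]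
  ring

theorem vt_sum_other (H : Hyp G μ δ e Δ) (v : V) :
    ∫⁻ x, ∑ p ∈ (x.1 v).ports, ind (und x.1 v) *
      ∑ r ∈ ((x.1 v).ports).erase p, ind (r ∉ OO δ x) * ind (r.swap ∈ OO δ x)
      ∂(μ.prod (lam G)) ≤ 7 * qh G μ δ e * vP μ v := by
  have hc : Countable V := countable_V H.std.tree Δ H.std.reg
  have hW : Vt (G := G) (fun x v _ => ind (und x.1 v) * ((x.1 v).ports.card : ℝ≥0∞)) :=
    Vt_und.mul (Vt_F (fun P _ _ => (P.card : ℝ≥0∞)))
  have h1 := vt_kept_hit H v hW (fun _ _ _ _ => rfl) e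
  rw [vt_P H v] at h1
  refine le_trans (lintegral_mono (fun x => ?_)) h1
  calc ∑ p ∈ (x.1 v).ports, ind (und x.1 v) *
      ∑ r ∈ ((x.1 v).ports).erase p, ind (r ∉ OO δ x) * ind (r.swap ∈ OO δ x)
      ≤ ∑ _p ∈ (x.1 v).ports, ind (und x.1 v) *
        ∑ r ∈ (x.1 v).ports, ind (r ∉ OO δ x) * ind (r.swap ∈ OO δ x) := by
        refine Finset.sum_le_sum (fun p _ => ?_)
        gcongr
        exact Finset.erase_subset _ _
    _ = _ := by
        rw [Finset.sum_const, nsmul_eq_mul, Finset.mul_sum, Finset.mul_sum]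
        refine Finset.sum_congr rfl (fun r _ => ?_)
        ring

theorem v_size (H : Hyp G μ δ e Δ) (v : V) :
    vP (nextLaw (stp (G := G) δ) μ) v ≤
      40 * vU μ v + 28 * vT μ v + 1000 * eta G μ δ e * vP μ v := by
  have hc : Countable V := countable_V H.std.tree Δ H.std.reg
  have hG := H.std.tree
  have hNN : Hd (G := G) (fun x p => NN (OO δ x) x.1 p) := Hd_NN hG δ
  have hhit : Hd (G := G) (fun x p => ind (p.swap ∈ OO δ x)) := (HP_hit hG δ).ind
  have htr : Hd (G := G) (fun x p => ind (tr (OO δ x) x.1 p)) := (HP_tr hG δ).ind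
  have hu : Vt (G := G) (fun x v _ => ind (und x.1 v)) := Vt_und
  have hOth : Vt (G := G) (fun x v p =>
      ∑ r ∈ ((x.1 v).ports).erase p, ind (r ∉ OO δ x) * ind (r.swap ∈ OO δ x)) := by
    refine Vt_erase hG (f := fun x _ r => ind (r ∉ OO δ x)) (fun _ r => ?_) ?_ hhit
    · exact vt_meas_ind (meas_OO δ r).compl
    · intro v p r x y h1 h2 h3 h4 h5 _ h7
      exact vt_ind_congr (not_congr (vt_OO (δ := δ) hG h1 h2 h3 h4 h7 r
        (vt_comp_side h1 h3 r.1 (h1.tail v r h5).1)))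
  -- the six terms
  have S1 := vt_port_sum H v (hu.mul (Vt_F (fun _ S p => ind (p ∈ S)))) hNN (vt_sum_T H v)
    (nn_le H)
  have S2 := vt_port_sum H v (hu.mul (Vt_prop hG δ)) (htr.mul hNN)
    (vt_sum_P_le H v (fun x p => p ∈ OO δ x)) (tr_nn_le H)
  have S3 := vt_port_sum H v hu (hhit.mul hNN) (vt_sum_P H v).le (vt_t_le H)
  have S4 := vt_port_sum H v (hu.mul (Vt_F (fun P S _ => ind ((P \ S).card ≤ 2)))) hNN
    (vt_sum_small H v) (nn_le H)
  have S5 := vt_port_sum H v (hu.mul (Vt_allop hG δ)) hNN (vt_sum_allop H v) (nn_le H)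
  have S6 := vt_port_sum H v (hu.mul hOth) hNN (vt_sum_other H v) (nn_le H)
  have m1 : Measurable (fun x : XX G => ∑ p ∈ (x.1 v).ports,
      (ind (und x.1 v) * ind (p ∈ (x.1 v).spec)) * NN (OO δ x) x.1 p) :=
    vt_meas_hot v (fun p =>
      ((hu.mul (Vt_F (fun _ S p => ind (p ∈ S)))).meas v p).mul (hNN.meas p))
  have m2 : Measurable (fun x : XX G => ∑ p ∈ (x.1 v).ports,
      (ind (und x.1 v) * ind (p ∈ OO δ x)) * (ind (tr (OO δ x) x.1 p) * NN (OO δ x) x.1 p)) :=
    vt_meas_hot v (fun p =>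
      ((hu.mul (Vt_prop hG δ)).meas v p).mul ((htr.mul hNN).meas p))
  have m3 : Measurable (fun x : XX G => ∑ p ∈ (x.1 v).ports,
      ind (und x.1 v) * (ind (p.swap ∈ OO δ x) * NN (OO δ x) x.1 p)) :=
    vt_meas_hot v (fun p => (hu.meas v p).mul ((hhit.mul hNN).meas p))
  have m4 : Measurable (fun x : XX G => ∑ p ∈ (x.1 v).ports,
      (ind (und x.1 v) * ind ((ordp (x.1 v)).card ≤ 2)) * NN (OO δ x) x.1 p) :=
    vt_meas_hot v (fun p =>
      ((hu.mul (Vt_F (fun P S _ => ind ((P \ S).card ≤ 2)))).meas v p).mul (hNN.meas p))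
  have m5 : Measurable (fun x : XX G => ∑ p ∈ (x.1 v).ports,
      (ind (und x.1 v) * ind (allop (OO δ x) (x.1 v))) * NN (OO δ x) x.1 p) :=
    vt_meas_hot v (fun p =>
      ((hu.mul (Vt_allop hG δ)).meas v p).mul (hNN.meas p))
  have mu : Measurable (fun x : XX G => ind (und x.1 v)) := hu.meas v e
  refine le_trans (vt_next_P H v) ?_
  have key : ∫⁻ x, ind (und x.1 v) * (7 + 7 * ∑ p ∈ (x.1 v).ports, ind (hot (OO δ x) x.1 p) *
        NN (OO δ x) x.1 p) ∂(μ.prod (lam G)) ≤
      7 * vU μ v + 7 * (vT μ v * 2 + vP μ v * (70 * eta G μ δ e) +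
        vP μ v * (11 * eta G μ δ e) + (2 * vU μ v + vT μ v) * 2 + (qA δ * vU μ v) * 2 +
        (7 * qh G μ δ e * vP μ v) * 2) := by
    calc ∫⁻ x, ind (und x.1 v) * (7 + 7 * ∑ p ∈ (x.1 v).ports, ind (hot (OO δ x) x.1 p) *
        NN (OO δ x) x.1 p) ∂(μ.prod (lam G))
        ≤ ∫⁻ x, (7 * ind (und x.1 v) + 7 * (
          ∑ p ∈ (x.1 v).ports, (ind (und x.1 v) * ind (p ∈ (x.1 v).spec)) * NN (OO δ x) x.1 p +
          ∑ p ∈ (x.1 v).ports, (ind (und x.1 v) * ind (p ∈ OO δ x)) *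
            (ind (tr (OO δ x) x.1 p) * NN (OO δ x) x.1 p) +
          ∑ p ∈ (x.1 v).ports, ind (und x.1 v) * (ind (p.swap ∈ OO δ x) * NN (OO δ x) x.1 p) +
          ∑ p ∈ (x.1 v).ports, (ind (und x.1 v) * ind ((ordp (x.1 v)).card ≤ 2)) *
            NN (OO δ x) x.1 p +
          ∑ p ∈ (x.1 v).ports, (ind (und x.1 v) * ind (allop (OO δ x) (x.1 v))) *
            NN (OO δ x) x.1 p +
          ∑ p ∈ (x.1 v).ports, (ind (und x.1 v) * ∑ r ∈ (x.1 v).ports.erase p,
            ind (r ∉ OO δ x) * ind (r.swap ∈ OO δ x)) * NN (OO δ x) x.1 p))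
            ∂(μ.prod (lam G)) := by
          refine lintegral_mono_ae ?_
          filter_upwards [vt_ae H] with x hx
          have h1 := vt_hot_sum hx.1.toWF0 hx.2.1 v (ind (und x.1 v))
            (fun p => NN (OO δ x) x.1 p)
          calc ind (und x.1 v) * (7 + 7 * ∑ p ∈ (x.1 v).ports, ind (hot (OO δ x) x.1 p) *
              NN (OO δ x) x.1 p)
              = 7 * ind (und x.1 v) + 7 * (ind (und x.1 v) * ∑ p ∈ (x.1 v).ports,
                ind (hot (OO δ x) x.1 p) * NN (OO δ x) x.1 p) := by ring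
            _ ≤ _ := by gcongr
      _ ≤ _ := by
          rw [lintegral_add_left (mu.const_mul 7), lintegral_const_mul _ mu,
            lintegral_const_mul' _ _ (by norm_num), vt_six m1 m2 m3 m4 m5, vt_U H v]
          gcongr
          exact S4
  refine le_trans key ?_
  have hA : qA δ ≤ ENNReal.ofReal (1 / 10 ^ 6) := le_trans (by unfold eta; exact le_add_self) H.small
  have h14 : 14 * qA δ ≤ 1 := by
    calc 14 * qA δ ≤ 14 * ENNReal.ofReal (1 / 10 ^ 6) := by gcongr
      _ ≤ 1 := by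
        rw [show (14 : ℝ≥0∞) = ENNReal.ofReal 14 by simp, ← ENNReal.ofReal_mul (by norm_num)]
        rw [← ENNReal.ofReal_one]
        exact ENNReal.ofReal_le_ofReal (by norm_num)
  calc 7 * vU μ v + 7 * (vT μ v * 2 + vP μ v * (70 * eta G μ δ e) +
        vP μ v * (11 * eta G μ δ e) + (2 * vU μ v + vT μ v) * 2 + (qA δ * vU μ v) * 2 +
        (7 * qh G μ δ e * vP μ v) * 2)
      ≤ 7 * vU μ v + 7 * (vT μ v * 2 + vP μ v * (70 * eta G μ δ e) +
        vP μ v * (11 * eta G μ δ e) + (2 * vU μ v + vT μ v) * 2 + (qA δ * vU μ v) * 2 +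
        (7 * eta G μ δ e * vP μ v) * 2) := by gcongr; exact vt_qh_le H
    _ = (14 * qA δ) * vU μ v + 35 * vU μ v + 28 * vT μ v + 665 * eta G μ δ e * vP μ v := by ring
    _ ≤ 1 * vU μ v + 39 * vU μ v + 28 * vT μ v + 1000 * eta G μ δ e * vP μ v := by
        gcongr
        · norm_num
        · norm_num
    _ = _ := by ring

theorem v_spec (H : Hyp G μ δ e Δ) (v : V) :
    vT (nextLaw (stp (G := G) δ) μ) v ≤ 1000 * eta G μ δ e * (vU μ v + vP μ v) := by
  have hc : Countable V := countable_V H.std.tree Δ H.std.reg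
  have hG := H.std.tree
  have hCC : Hd (G := G) (fun x p => CC (OO δ x) x.1 p) := Hd_CC hG δ
  have hhit : Hd (G := G) (fun x p => ind (p.swap ∈ OO δ x)) := (HP_hit hG δ).ind
  have hu : Vt (G := G) (fun x v _ => ind (und x.1 v)) := Vt_und
  have S1 := vt_kept_hit H v hu (fun _ _ _ _ => rfl) e
  rw [vt_U H v] at S1
  have S2 := vt_port_sum H v (hu.mul (Vt_prop hG δ)) hCC
    (vt_sum_P_le H v (fun x p => p ∈ OO δ x)) (cc_le H)
  have S3 := vt_port_sum H v hu (hhit.mul hCC) (vt_sum_P H v).le (hit_cc_le H)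
  have m1 : Measurable (fun x : XX G => ∑ r ∈ (x.1 v).ports,
      (ind (und x.1 v) * ind (r ∉ OO δ x)) * ind (r.swap ∈ OO δ x)) :=
    vt_meas_hot v (fun p => ((hu.mul (Vt_nprop hG δ)).meas v p).mul (hhit.meas p))
  have m2 : Measurable (fun x : XX G => ∑ p ∈ (x.1 v).ports,
      (ind (und x.1 v) * ind (p ∈ OO δ x)) * CC (OO δ x) x.1 p) :=
    vt_meas_hot v (fun p => ((hu.mul (Vt_prop hG δ)).meas v p).mul (hCC.meas p))
  refine le_trans (vt_next_T H v) ?_
  have key : ∫⁻ x, ind (und x.1 v) * (∑ r ∈ (x.1 v).ports, ind (r ∉ OO δ x) *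
        ind (r.swap ∈ OO δ x) + ∑ p ∈ (x.1 v).ports, ind (hot (OO δ x) x.1 p) *
          CC (OO δ x) x.1 p) ∂(μ.prod (lam G)) ≤
      7 * qh G μ δ e * vU μ v + (vP μ v * (20 * eta G μ δ e) +
        vP μ v * (1000 * eta G μ δ e ^ 2)) := by
    calc ∫⁻ x, ind (und x.1 v) * (∑ r ∈ (x.1 v).ports, ind (r ∉ OO δ x) *
        ind (r.swap ∈ OO δ x) + ∑ p ∈ (x.1 v).ports, ind (hot (OO δ x) x.1 p) *
          CC (OO δ x) x.1 p) ∂(μ.prod (lam G))
        ≤ ∫⁻ x, (∑ r ∈ (x.1 v).ports, (ind (und x.1 v) * ind (r ∉ OO δ x)) *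
            ind (r.swap ∈ OO δ x) + (∑ p ∈ (x.1 v).ports, (ind (und x.1 v) * ind (p ∈ OO δ x)) *
            CC (OO δ x) x.1 p + ∑ p ∈ (x.1 v).ports, ind (und x.1 v) *
            (ind (p.swap ∈ OO δ x) * CC (OO δ x) x.1 p))) ∂(μ.prod (lam G)) := by
          refine lintegral_mono (fun x => ?_)
          rw [mul_add, Finset.mul_sum, Finset.mul_sum]
          refine add_le_add (Finset.sum_le_sum (fun r _ => (mul_assoc _ _ _).ge)) ?_
          rw [← Finset.sum_add_distrib]
          refine Finset.sum_le_sum (fun p _ => ?_)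
          have h1 : ind (hot (OO δ x) x.1 p) ≤ ind (p ∈ OO δ x) + ind (p.swap ∈ OO δ x) := by
            by_cases hh : hot (OO δ x) x.1 p
            · rcases hh.2.2.1 with h2 | h2
              · rw [vt_ind_true h2]; exact le_trans (vt_ind_le_one _) le_self_add
              · rw [vt_ind_true h2]; exact le_trans (vt_ind_le_one _) le_add_self
            · rw [vt_ind_false hh]; exact zero_le
          calc ind (und x.1 v) * (ind (hot (OO δ x) x.1 p) * CC (OO δ x) x.1 p)
              ≤ ind (und x.1 v) * ((ind (p ∈ OO δ x) + ind (p.swap ∈ OO δ x)) *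
                CC (OO δ x) x.1 p) := by gcongr
            _ = _ := by ring
      _ ≤ _ := by
          rw [lintegral_add_left m1, lintegral_add_left m2]
          gcongr
  refine le_trans key ?_
  have h2 : 1000 * eta G μ δ e ^ 2 ≤ 1 * eta G μ δ e := by
    rw [pow_two, ← mul_assoc]
    gcongr
    calc 1000 * eta G μ δ e ≤ 1000 * ENNReal.ofReal (1 / 10 ^ 6) := by gcongr; exact H.small
      _ ≤ 1 := by
        rw [show (1000 : ℝ≥0∞) = ENNReal.ofReal 1000 by simp, ← ENNReal.ofReal_mul (by norm_num)]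
        rw [← ENNReal.ofReal_one]
        exact ENNReal.ofReal_le_ofReal (by norm_num)
  calc 7 * qh G μ δ e * vU μ v + (vP μ v * (20 * eta G μ δ e) +
        vP μ v * (1000 * eta G μ δ e ^ 2))
      ≤ 7 * eta G μ δ e * vU μ v + (vP μ v * (20 * eta G μ δ e) +
        vP μ v * (1 * eta G μ δ e)) := by gcongr; exact vt_qh_le H
    _ = 7 * (eta G μ δ e * vU μ v) + 21 * (eta G μ δ e * vP μ v) := by ring
    _ ≤ 1000 * (eta G μ δ e * vU μ v) + 1000 * (eta G μ δ e * vP μ v) := by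
        gcongr
        · norm_num
        · norm_num
    _ = _ := by ring

end VTXA

end Pool.Agent.PM
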