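import Pool.Agent.Lib.MP_947a32_pr.Iter
import Pool.Agent.Lib.MP_947a32_pr.VtxA
import Pool.Agent.Lib.MP_947a32_pr.Vdec
import Pool.Agent.Lib.MP_947a32_pr.Halve3
import Pool.Agent.Lib.MP_947a32_pr.Halve1

/-!
# Piece JOINT (helper85): one probability space
-/

set_option autoImplicit false

open Classical MeasureTheory
open scoped ENNReal

namespace Pool.Agent.PM


section JOINT

variable {V : Type} {G : SimpleGraph V} {Δ : ℕ}

/-! ### the joint law of the state and the labels of the next stage -/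

theorem joint_meas_stage [Countable V] (J : ℕ) (δ : ℝ) (n : ℕ) :
    Measurable (stage (G := G) J δ n) := by
  unfold stage
  by_cases h : n < J
  · simp only [h, if_true]
    exact meas_hv _
  · simp only [h, if_false]
    exact meas_stp _

theorem joint_sig_congr (J : ℕ) (δ : ℝ) (n : ℕ) :
    ∀ ω ω' : Om G, (∀ i ∈ {i : Dt G × ℕ × Fin 3 | i.2.1 < n}, ω i = ω' i) →
      sig J δ ω n = sig J δ ω' n := by
  induction n with
  | zero => intro ω ω' _; rfl
  | succ n ih =>
    intro ω ω' h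
    have h1 : sig J δ ω n = sig J δ ω' n :=
      ih ω ω' (fun i hi => h i (Nat.lt_succ_of_lt hi))
    have h2 : stg ω n = stg ω' n := by
      funext i
      exact h (i.1, n, i.2) (Nat.lt_succ_self n)
    simp only [sig, h1, h2]

theorem joint_stg_congr (n : ℕ) :
    ∀ ω ω' : Om G, (∀ i ∈ {i : Dt G × ℕ × Fin 3 | i.2.1 = n}, ω i = ω' i) →
      stg ω n = stg ω' n := by
  intro ω ω' h
  funext i
  exact h (i.1, n, i.2) rfl

theorem joint_meas_stg (n : ℕ) : Measurable (fun ω : Om G => stg ω n) :=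
  measurable_pi_lambda _ fun i => measurable_pi_apply (i.1, n, i.2)

theorem joint_map_stg (n : ℕ) : (PP G).map (fun ω => stg ω n) = lam G := by
  have hf : Function.Injective (fun i : Dt G × Fin 3 => (i.1, n, i.2)) := by
    intro i j h
    simp only [Prod.mk.injEq, true_and] at h
    exact Prod.ext h.1 h.2
  exact Measure.map_infinitePi_infinitePi_of_inj (P := fun _ : Dt G × ℕ × Fin 3 => unif) hf

theorem joint_indep [Countable V] (J : ℕ) (δ : ℝ) (n : ℕ) :
    ProbabilityTheory.IndepFun (fun ω : Om G => sig J δ ω n) (fun ω : Om G => stg ω n) (PP G) := by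
  have h1 : Measurable[facSigma {i : Dt G × ℕ × Fin 3 | i.2.1 < n}]
      (fun ω : Om G => sig J δ ω n) :=
    fac_measurable (meas_sig J δ n) (joint_sig_congr J δ n)
  have h2 : Measurable[facSigma {i : Dt G × ℕ × Fin 3 | i.2.1 = n}]
      (fun ω : Om G => stg ω n) :=
    fac_measurable (joint_meas_stg n) (joint_stg_congr n)
  have hd : Disjoint {i : Dt G × ℕ × Fin 3 | i.2.1 < n} {i : Dt G × ℕ × Fin 3 | i.2.1 = n} := by
    rw [Set.disjoint_left]
    intro i h1 h2
    exact absurd h2 (ne_of_lt h1)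
  have h3 := fac_indep hd
  exact ProbabilityTheory.indep_of_indep_of_le_left
    (ProbabilityTheory.indep_of_indep_of_le_right h3 h2.comap_le) h1.comap_le

theorem joint_prod [Countable V] (J : ℕ) (δ : ℝ) (n : ℕ) :
    (PP G).map (fun ω => (sig J δ ω n, stg ω n)) =
      ((PP G).map (fun ω => sig J δ ω n)).prod (lam G) := by
  have h := (ProbabilityTheory.indepFun_iff_map_prod_eq_prod_map_map
    (meas_sig J δ n).aemeasurable (joint_meas_stg n).aemeasurable).1 (joint_indep (G := G) J δ n)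
  rw [h, joint_map_stg]

theorem joint_law [Countable V] (J : ℕ) (δ : ℝ) (n : ℕ) :
    (PP G).map (fun ω => sig J δ ω n) = law (G := G) J δ n := by
  induction n with
  | zero =>
    simp only [sig, law]
    rw [Measure.map_const]
    simp
  | succ n ih =>
    simp only [sig, law, nextLaw]
    rw [← ih, ← joint_prod, Measure.map_map (joint_meas_stage J δ n)
      ((meas_sig J δ n).prodMk (joint_meas_stg n))]
    rfl

theorem joint (hT : Std G Δ) (J : ℕ) (δ : ℝ) (n : ℕ) :
    (PP G).map (fun ω => (sig J δ ω n, stg ω n)) = (law (G := G) J δ n).prod (lam G) := by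
  have : Countable V := countable_V hT.tree Δ hT.reg
  rw [joint_prod, joint_law]

theorem joint_ae (hT : Std G Δ) (J : ℕ) (δ : ℝ) (n : ℕ) {P : XX G → Prop}
    (h : ∀ᵐ x ∂((law (G := G) J δ n).prod (lam G)), P x) :
    ∀ᵐ ω ∂(PP G), P (sig J δ ω n, stg ω n) := by
  have : Countable V := countable_V hT.tree Δ hT.reg
  rw [← joint hT J δ n] at h
  exact ae_of_ae_map ((meas_sig J δ n).prodMk (joint_meas_stg n)).aemeasurable h

theorem joint_ae_fst (hT : Std G Δ) (J : ℕ) (δ : ℝ) (n : ℕ) {P : St V → Prop}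
    (h : ∀ᵐ σ ∂(law (G := G) J δ n), P σ) : ∀ᵐ ω ∂(PP G), P (sig J δ ω n) := by
  have : Countable V := countable_V hT.tree Δ hT.reg
  rw [← joint_law] at h
  exact ae_of_ae_map (meas_sig J δ n).aemeasurable h

/-! ### finite dependence -/

/-- the labels of stage `n` on the darts of `D` -/
noncomputable def jLD (G : SimpleGraph V) (D : Finset (V × V)) (n : ℕ) :
    Finset (Dt G × ℕ × Fin 3) :=
  (D.subtype (fun d => G.Adj d.1 d.2)) ×ˢ (({n} : Finset ℕ) ×ˢ (Finset.univ : Finset (Fin 3)))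

theorem jLD_lab {D : Finset (V × V)} {n : ℕ} {ω ω' : Om G}
    (h : ∀ i ∈ jLD G D n, ω' i = ω i) {d : V × V} (hd : d ∈ D) (i : Fin 3) :
    lab (stg ω' n) i d = lab (stg ω n) i d := by
  unfold lab stg
  by_cases hA : G.Adj d.1 d.2
  · simp only [hA, dif_pos]
    apply h
    simp [jLD, hd]
  · simp only [hA, dif_neg, not_false_eq_true]

/-- the good event for finite dependence -/
def jGood (J : ℕ) (δ : ℝ) (ω : Om G) : Prop := ∀ n, WF G (sig J δ ω n) ∧
  (J ≤ n → ∀ v, (region (OO δ (sig J δ ω n, stg ω n)) (sig J δ ω n) v).Finite) ∧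
  (n < J → ∀ e : V × V, alive (sig J δ ω n) e →
      ∃ k u, Stop (decide (n = 0)) (lab (stg ω n) 2) (sig J δ ω n) e k u)

theorem jGood_fin {J : ℕ} {δ : ℝ} {ω : Om G} (h : jGood J δ ω) : ∀ n v,
    ∃ I : Finset (Dt G × ℕ × Fin 3), ∀ ω' : Om G,
      (∀ i ∈ I, ω' i = ω i) → sig J δ ω' n v = sig J δ ω n v := by
  intro n
  induction n with
  | zero => exact fun v => ⟨∅, fun ω' _ => rfl⟩
  | succ n ih =>
    intro v
    choose I hI using ih
    obtain ⟨hW, hR, hS⟩ := h n
    by_cases hn : n < J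
    · -- halving stage
      have hf : ∀ d ∈ (sig J δ ω n v).ports,
          (∃ k u, Stop (decide (n = 0)) (lab (stg ω n) 2) (sig J δ ω n) d k u) ∧
          ∃ k u, Stop (decide (n = 0)) (lab (stg ω n) 2) (sig J δ ω n) d.swap k u := by
        intro d hd
        have h1 : alive (sig J δ ω n) d := by
          have := hW.eqv v d.1 (hW.tail v d hd).1
          unfold alive
          rw [this.2.1]
          exact hd
        have h2 : alive (sig J δ ω n) d.swap := hW.swap v d hd
        exact ⟨hS hn d h1, hS hn d.swap h2⟩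
      obtain ⟨K, D, hKD⟩ := hv_fin (decide (n = 0)) (a := lab (stg ω n) 0)
        (t := lab (stg ω n) 1) (r := lab (stg ω n) 2) v (hW.spec_sub v) hf
      refine ⟨K.biUnion I ∪ jLD G D n, fun ω' hω => ?_⟩
      have hs : ∀ x ∈ K, sig J δ ω' n x = sig J δ ω n x := fun x hx =>
        hI x ω' fun i hi => hω i (Finset.mem_union_left _ (Finset.mem_biUnion.2 ⟨x, hx, hi⟩))
      have hl : ∀ i ∈ jLD G D n, ω' i = ω i := fun i hi => hω i (Finset.mem_union_right _ hi)
      have := hKD (sig J δ ω' n) (lab (stg ω' n) 0) (lab (stg ω' n) 1) (lab (stg ω' n) 2) hs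
        (fun d hd => ⟨jLD_lab hl hd 0, jLD_lab hl hd 1, jLD_lab hl hd 2⟩)
      simpa only [sig, stage, hn, if_true, hv] using this
    · -- engine stage
      have hn' : J ≤ n := not_lt.1 hn
      obtain ⟨K, hK⟩ := step_fin hW.toWF0 (O := OO δ (sig J δ ω n, stg ω n))
        (t := lab (stg ω n) 1) v (hR hn' v)
      have hRf : ∀ d : V × V, ∃ R : Finset (V × V), ∀ (σ' : St V) (a' r' : V × V → ℝ),
          σ' d.1 = sig J δ ω n d.1 →
          (∀ q ∈ R, a' q = lab (stg ω n) 0 q ∧ r' q = lab (stg ω n) 2 q) →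
          (d ∈ rule δ a' r' σ' ↔ d ∈ rule δ (lab (stg ω n) 0) (lab (stg ω n) 2) (sig J δ ω n)) :=
        fun d => rule_fin δ _ _ d
      choose R hRR using hRf
      let D : Finset (V × V) := (K ×ˢ K) ∪ (K ×ˢ K).biUnion R
      refine ⟨K.biUnion I ∪ jLD G D n, fun ω' hω => ?_⟩
      have hs : ∀ x ∈ K, sig J δ ω' n x = sig J δ ω n x := fun x hx =>
        hI x ω' fun i hi => hω i (Finset.mem_union_left _ (Finset.mem_biUnion.2 ⟨x, hx, hi⟩))
      have hl : ∀ i ∈ jLD G D n, ω' i = ω i := fun i hi => hω i (Finset.mem_union_right _ hi)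
      have hmem : ∀ d : V × V, d.1 ∈ K → d.2 ∈ K → d ∈ K ×ˢ K := fun d h1 h2 =>
        Finset.mem_product.2 ⟨h1, h2⟩
      have := hK (sig J δ ω' n) (OO δ (sig J δ ω' n, stg ω' n)) (lab (stg ω' n) 1) hs
        (fun d h1 h2 => ⟨hRR d _ _ _ (hs d.1 h1) (fun q hq => by
            have hqD : q ∈ D := Finset.mem_union_right _
              (Finset.mem_biUnion.2 ⟨d, hmem d h1 h2, hq⟩)
            exact ⟨jLD_lab hl hqD 0, jLD_lab hl hqD 2⟩),
          jLD_lab hl (Finset.mem_union_left _ (hmem d h1 h2)) 1⟩)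
      simpa only [sig, stage, hn, if_false, stp] using this

theorem jGood_ae (hT : Std G Δ) (J : ℕ) (δ : ℝ)
    (hL : ∀ n, Law G (law (G := G) J δ n))
    (h1 : ∀ n, J ≤ n → ∀ᵐ x ∂((law (G := G) J δ n).prod (lam G)),
      ∀ v, (region (OO δ x) x.1 v).Finite)
    (h2 : ∀ n < J, ∀ᵐ x ∂((law (G := G) J δ n).prod (lam G)), ∀ e : V × V, alive x.1 e →
      ∃ k u, Stop (decide (n = 0)) (lab x.2 2) x.1 e k u) :
    ∀ᵐ ω ∂(PP G), jGood J δ ω := by
  refine ae_all_iff.2 fun n => ?_
  refine (joint_ae_fst hT J δ n (hL n).wf).and (Filter.Eventually.and ?_ ?_)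
  · by_cases hn : J ≤ n
    · filter_upwards [joint_ae hT J δ n (h1 n hn)] with ω hω _ using hω
    · exact Filter.Eventually.of_forall fun ω h => absurd h hn
  · by_cases hn : n < J
    · filter_upwards [joint_ae hT J δ n (h2 n hn)] with ω hω _ using hω
    · exact Filter.Eventually.of_forall fun ω h => absurd h hn

/-- finite dependence -/
theorem sig_fin (hT : Std G Δ) (J : ℕ) (δ : ℝ)
    (hL : ∀ n, Law G (law (G := G) J δ n))
    (h1 : ∀ n, J ≤ n → ∀ᵐ x ∂((law (G := G) J δ n).prod (lam G)),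
      ∀ v, (region (OO δ x) x.1 v).Finite)
    (h2 : ∀ n < J, ∀ᵐ x ∂((law (G := G) J δ n).prod (lam G)), ∀ e : V × V, alive x.1 e →
      ∃ k u, Stop (decide (n = 0)) (lab x.2 2) x.1 e k u) :
    ∀ᵐ ω ∂(PP G), ∀ n v, ∃ I : Finset (Dt G × ℕ × Fin 3), ∀ ω' : Om G,
      (∀ i ∈ I, ω' i = ω i) → sig J δ ω' n v = sig J δ ω n v := by
  filter_upwards [jGood_ae hT J δ hL h1 h2] with ω hω
  exact jGood_fin hω

/-! ### decisions -/

theorem joint_Dec_succ (hG : G.IsTree) (J : ℕ) (δ : ℝ) (ω : Om G) (n : ℕ)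
    (hW : WF0 G (sig J δ ω n)) {v w : V} (hd : Dec (sig J δ ω n) v w) :
    Dec (sig J δ ω (n + 1)) v w := by
  by_cases hn : n < J
  · simp only [sig, stage, hn, if_true, hv]
    intro p hp
    have hp' : p ∈ (sig J δ ω n v).ports := (Finset.mem_filter.1 hp).1
    exact hd p hp'
  · simp only [sig, stage, hn, if_false, stp]
    exact Dec_step hG hW _ _ hd

theorem law_add (J : ℕ) (δ : ℝ) (n : ℕ) :
    law (G := G) J δ (J + n) = iter G δ (law (G := G) J δ J) n := by
  induction n with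
  | zero => rfl
  | succ n ih =>
    have h : ¬ (J + n < J) := by omega
    have h2 : (stage (G := G) J δ (J + n)) = stp δ := by
      funext x
      simp only [stage, h, if_false]
    show nextLaw (G := G) (stage J δ (J + n)) (law J δ (J + n)) = _
    rw [h2, ih]
    rfl

theorem kap_ne_zero {δ : ℝ} (h : 0 < δ) : kap δ ≠ 0 := by
  unfold kap
  rw [Ne, ENNReal.ofReal_eq_zero, not_le]
  positivity

theorem kap_le_one {δ : ℝ} (h : 0 < δ) (h1 : δ ≤ 1) : kap δ ≤ 1 := by
  unfold kap
  rw [ENNReal.ofReal_le_one]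
  have h2 : δ ^ 2 ≤ 1 := pow_le_one₀ h.le h1
  have h3 : (1 : ℝ) ≤ 2 ^ 2100 := one_le_pow₀ (by norm_num)
  calc δ ^ 2 / 2 ^ 2100 ≤ 1 / 1 := div_le_div₀ zero_le_one h2 zero_lt_one h3
    _ = 1 := by norm_num

theorem joint_eps {ν : Measure (St V)} {δ : ℝ} {e : V × V} (H : Hyp G ν δ e Δ) :
    1000 * eta G ν δ e ≤ ENNReal.ofReal (1 / 10 ^ 3) := by
  calc 1000 * eta G ν δ e ≤ 1000 * ENNReal.ofReal (1 / 10 ^ 6) := by
        gcongr
        exact H.small
    _ = ENNReal.ofReal 1000 * ENNReal.ofReal (1 / 10 ^ 6) := by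
        congr 1
        norm_num
    _ = ENNReal.ofReal (1000 * (1 / 10 ^ 6)) := (ENNReal.ofReal_mul (by norm_num)).symm
    _ ≤ ENNReal.ofReal (1 / 10 ^ 3) := ENNReal.ofReal_le_ofReal (by norm_num)

theorem vU_tendsto {δ : ℝ} (h0 : 0 < δ) (h1 : δ ≤ 1) {ν : Measure (St V)} {e : V × V}
    (hν : Start ν) (hp : IsProbabilityMeasure ν)
    (H : ∀ n, Hyp G (iter G δ ν n) δ e Δ) (v : V) :
    Filter.Tendsto (fun n => vU (iter G δ ν n) v) Filter.atTop (nhds 0) := by
  refine vrec_close (kap δ) (ENNReal.ofReal (1 / 10 ^ 3)) (kap_ne_zero h0) (kap_le_one h0 h1)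
    le_rfl _ (fun n => vP (iter G δ ν n) v) (fun n => vT (iter G δ ν n) v) ?_ ?_ ?_ ?_ ?_ ?_
  · -- U 0
    have : vU ν v ≤ 1 := by
      unfold vU
      calc ∫⁻ σ, ind (und σ v) ∂ν ≤ ∫⁻ _, 1 ∂ν := by
            refine lintegral_mono fun σ => ?_
            unfold ind
            split_ifs <;> simp
        _ = 1 := by simp
    exact ne_top_of_le_ne_top ENNReal.one_ne_top this
  · have : vP ν v ≤ 7 := by
      unfold vP
      calc ∫⁻ σ, ind (und σ v) * ((σ v).ports.card : ℝ≥0∞) ∂ν ≤ ∫⁻ _, 7 ∂ν := by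
            refine lintegral_mono_ae ?_
            filter_upwards [hν] with σ hσ
            have h7 : (((σ v).ports.card : ℕ) : ℝ≥0∞) ≤ 7 := by
              exact_mod_cast (hσ v).2.2
            calc ind (und σ v) * ((σ v).ports.card : ℝ≥0∞) ≤ 1 * 7 := by
                  gcongr
                  unfold ind
                  split_ifs <;> simp
              _ = 7 := one_mul _
        _ = 7 := by simp
    exact ne_top_of_le_ne_top (by norm_num) this
  · have : vT ν v ≤ 0 := by
      unfold vT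
      calc ∫⁻ σ, ind (und σ v) * ((σ v).spec.card : ℝ≥0∞) ∂ν ≤ ∫⁻ _, 0 ∂ν := by
            refine lintegral_mono_ae ?_
            filter_upwards [hν] with σ hσ
            rw [(hσ v).1]
            simp
        _ = 0 := by simp
    exact ne_top_of_le_ne_top (by norm_num) this
  · intro n
    exact v_dec (H n) v
  · intro n
    refine (v_size (H n) v).trans ?_
    gcongr
    exact joint_eps (H n)
  · intro n
    refine (v_spec (H n) v).trans ?_
    gcongr
    exact joint_eps (H n)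

/-- everything about the core algorithm -/
theorem core (hT : Std G Δ) : ∃ (J : ℕ) (δ : ℝ),
    (∀ᵐ ω ∂(PP G), ∀ n, WF G (sig J δ ω n)) ∧
    (∀ᵐ ω ∂(PP G), ∀ v, ∃ n w, Dec (sig J δ ω n) v w) ∧
    (∀ᵐ ω ∂(PP G), ∀ n v w, Dec (sig J δ ω n) v w → Dec (sig J δ ω (n + 1)) v w) ∧
    (∀ᵐ ω ∂(PP G), ∀ n v, ∃ I : Finset (Dt G × ℕ × Fin 3), ∀ ω' : Om G,
      (∀ i ∈ I, ω' i = ω i) → sig J δ ω' n v = sig J δ ω n v) := by
  have hC : Countable V := countable_V hT.tree Δ hT.reg
  obtain ⟨δ0, hδ0, hiter⟩ := iter_small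
  obtain ⟨J, hJ⟩ := halve_all hT
  set δ : ℝ := min δ0 1 with hδ
  have hδp : 0 < δ := lt_min hδ0 one_pos
  have hδ1 : δ ≤ 1 := min_le_right _ _
  obtain ⟨hLJ, hSt, hStop⟩ := hJ δ
  -- some dart
  have hne : Nonempty V := hT.tree.1.nonempty
  obtain ⟨e, he⟩ : ∃ e : V × V, G.Adj e.1 e.2 := by
    obtain ⟨v⟩ := hne
    have h3 : (G.neighborSet v).encard ≠ 0 := by
      rw [hT.reg v]
      have := hT.three
      exact_mod_cast (by omega : Δ ≠ 0)
    obtain ⟨u, hu⟩ := Set.encard_ne_zero.1 h3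
    exact ⟨(v, u), hu⟩
  have H : ∀ n, Hyp G (iter G δ (law (G := G) J δ J) n) δ e Δ :=
    hiter δ hδp (min_le_left _ _) V G Δ _ e hT (hLJ J le_rfl) hSt he
  have hL : ∀ n, Law G (law (G := G) J δ n) := by
    intro n
    by_cases hn : n ≤ J
    · exact hLJ n hn
    · obtain ⟨k, rfl⟩ := Nat.exists_eq_add_of_le (not_le.1 hn).le
      rw [law_add]
      exact (H k).law
  have hreg : ∀ n, J ≤ n → ∀ᵐ x ∂((law (G := G) J δ n).prod (lam G)),
      ∀ v, (region (OO δ x) x.1 v).Finite := by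
    intro n hn
    obtain ⟨k, rfl⟩ := Nat.exists_eq_add_of_le hn
    rw [law_add]
    exact ae_region (H k)
  have hWF : ∀ᵐ ω ∂(PP G), ∀ n, WF G (sig J δ ω n) :=
    ae_all_iff.2 fun n => joint_ae_fst hT J δ n (hL n).wf
  refine ⟨J, δ, hWF, ?_, ?_, sig_fin hT J δ hL hreg hStop⟩
  · -- decisions
    refine ae_all_iff.2 fun v => ?_
    rw [ae_iff]
    have hle : ∀ n, (PP G) {ω | ¬ ∃ n w, Dec (sig J δ ω n) v w} ≤
        vU (iter G δ (law (G := G) J δ J) n) v := by
      intro n
      rw [← law_add, vU, ← joint_law]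
      have hms : MeasurableSet {σ : St V | und σ v} := by
        unfold und Dec
        have h1 : ∀ w : V, MeasurableSet {σ : St V | ∀ p ∈ (σ v).ports, (σ v).M p = w} := by
          intro w
          have : {σ : St V | ∀ p ∈ (σ v).ports, (σ v).M p = w} =
              ⋂ p : V × V, ({σ : St V | p ∈ (σ v).ports}ᶜ ∪ {σ : St V | (σ v).M p = w}) := by
            ext σ
            simp [imp_iff_not_or]
          rw [this]
          refine MeasurableSet.iInter fun p => ?_
          exact (meas_ports measurable_id v (fun S => p ∈ S)).compl.union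
            (meas_M measurable_id v p (fun u => u = w))
        have h2 : {σ : St V | ¬ ∃ w, ∀ p ∈ (σ v).ports, (σ v).M p = w} =
            (⋃ w : V, {σ : St V | ∀ p ∈ (σ v).ports, (σ v).M p = w})ᶜ := by
          ext σ
          simp
        rw [h2]
        exact (MeasurableSet.iUnion h1).compl
      have hind : (fun σ : St V => ind (und σ v)) = {σ : St V | und σ v}.indicator 1 := by
        funext σ
        unfold ind
        by_cases h : und σ v <;> simp [Set.indicator, h]
      rw [hind, lintegral_indicator_one hms, Measure.map_apply (meas_sig J δ (J + n)) hms]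
      refine measure_mono ?_
      intro ω hω
      simp only [Set.mem_ofPred_eq, not_exists] at hω
      simp only [Set.mem_preimage, Set.mem_ofPred_eq, und, not_exists]
      exact fun w => hω (J + n) w
    have hlim := vU_tendsto hδp hδ1 hSt (hLJ J le_rfl).prob H v
    have := ge_of_tendsto' hlim hle
    exact le_antisymm this zero_le
  · filter_upwards [hWF] with ω hω n v w hd
    exact joint_Dec_succ hT.tree J δ ω n (hω n).toWF0 hd

end JOINT

end Pool.Agent.PM
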