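import Pool.Agent.Lib.MP_947a32_pr.NsysA
import Pool.Agent.Lib.MP_947a32_pr.Clu
import Pool.Agent.Lib.MP_947a32_pr.RfxB

/-! MP_947a32_pr, piece NSYSB (helper42): first moment of the flip counter, finiteness of the hot
regions. -/

set_option autoImplicit false

open Classical MeasureTheory
open scoped ENNReal

namespace Pool.Agent.PM


namespace NsysB

section Pointwise

variable {V : Type} {G : SimpleGraph V} {O : Set (V × V)} {σ : St V} {e : V × V}

theorem ind_true {P : Prop} (h : P) : ind P = 1 := if_pos h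

theorem ind_false {P : Prop} (h : ¬ P) : ind P = 0 := if_neg h

theorem ind_le_one (P : Prop) : ind P ≤ 1 := by
  by_cases h : P
  · rw [ind_true h]
  · rw [ind_false h]; exact zero_le_one

/-- the weight `s 1[not passS] + s 1[allop]` -/
noncomputable def W (O : Set (V × V)) (σ : St V) (e : V × V) : ℝ≥0∞ :=
  ((σ e.2).ports.card : ℝ≥0∞) * ind (¬ passS (σ e.2)) +
    ind (allop O (σ e.2)) * ((σ e.2).ports.card : ℝ≥0∞)

theorem pass_or_allop (hR : RF O σ Set.univ) {x : V} (hp : passS (σ x)) :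
    pass O (σ x) ∨ allop O (σ x) := by
  obtain ⟨h1, h2, h3⟩ := hp
  have hord : ordp (σ x) = (σ x).ports := by
    unfold ordp; rw [h1, Finset.sdiff_empty]
  have h4 : 3 ≤ (ordp (σ x)).card := by rw [hord]; exact h2
  rcases hR.large x (Set.mem_univ x) h4 with h5 | h5
  · exact Or.inr ⟨h4, h5⟩
  · left
    refine ⟨⟨h1, h2, h3⟩, ?_⟩
    rw [hord, min_eq_left h3] at h5
    have h6 := Finset.filter_card_eq h5
    exact h6

theorem one_le_W (hR : RF O σ Set.univ) (he : e.swap ∈ (σ e.2).ports)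
    (hnp : ¬ pass O (σ e.2)) : 1 ≤ W O σ e := by
  have hc : (1 : ℝ≥0∞) ≤ ((σ e.2).ports.card : ℝ≥0∞) := by
    have : 1 ≤ (σ e.2).ports.card := Finset.card_pos.mpr ⟨_, he⟩
    exact_mod_cast this
  unfold W
  by_cases hS : passS (σ e.2)
  · rcases pass_or_allop hR hS with h | h
    · exact absurd h hnp
    · rw [ind_true h, one_mul]
      exact hc.trans le_add_self
  · rw [ind_true hS, mul_one]
    exact hc.trans le_self_add

theorem sum_le_W (hR : RF O σ Set.univ) (hnp : ¬ pass O (σ e.2)) (f : V × V → ℝ≥0∞)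
    (hf : ∀ q, f q ≤ 1) : ∑ q ∈ onw σ e, f q ≤ W O σ e := by
  have hc : ∑ q ∈ onw σ e, f q ≤ ((σ e.2).ports.card : ℝ≥0∞) := by
    calc ∑ q ∈ onw σ e, f q ≤ ∑ q ∈ onw σ e, (1 : ℝ≥0∞) := Finset.sum_le_sum (fun q _ => hf q)
      _ = ((onw σ e).card : ℝ≥0∞) := by simp
      _ ≤ ((σ e.2).ports.card : ℝ≥0∞) := by
        exact_mod_cast Finset.card_le_card (Finset.erase_subset _ _)
  unfold W
  by_cases hS : passS (σ e.2)
  · rcases pass_or_allop hR hS with h | h
    · exact absurd h hnp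
    · rw [ind_true h, one_mul]
      exact hc.trans le_add_self
  · rw [ind_true hS, mul_one]
    exact hc.trans le_self_add

theorem sum_prop_le (hR : RF O σ Set.univ) : ∑ q ∈ onw σ e, ind (q ∈ O) ≤ W O σ e := by
  by_cases hp : pass O (σ e.2)
  · have h0 : ∑ q ∈ onw σ e, ind (q ∈ O) = 0 := by
      apply Finset.sum_eq_zero
      intro q hq
      apply ind_false
      exact hp.2 q (Finset.mem_of_mem_erase hq)
    rw [h0]; exact zero_le
  · exact sum_le_W hR hp _ (fun q => ind_le_one _)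

theorem sum_hit_le (hR : RF O σ Set.univ) (he : e.swap ∈ (σ e.2).ports) :
    ∑ _q ∈ onw σ e, ind (e.swap ∈ O) ≤ W O σ e := by
  by_cases hp : e.swap ∈ O
  · apply sum_le_W hR _ _ (fun q => ind_le_one _)
    intro h
    exact h.2 _ he hp
  · have h0 : ∑ _q ∈ onw σ e, ind (e.swap ∈ O) = 0 := by
      apply Finset.sum_eq_zero
      intro q hq
      exact ind_false hp
    rw [h0]; exact zero_le

theorem bu1_le (hR : RF O σ Set.univ) (he : e.swap ∈ (σ e.2).ports) :
    ind ((bu O σ e).card = 1) ≤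
      W O σ e + ∑ q ∈ onw σ e, ind (pass O (σ e.2)) * ind (q.swap ∈ O) := by
  by_cases hb : (bu O σ e).card = 1
  · rw [ind_true hb]
    by_cases hp : pass O (σ e.2)
    · have h2 : 2 ≤ (onw σ e).card := by
        unfold onw
        rw [Finset.card_erase_of_mem he]
        have := hp.1.2.1
        omega
      have h3 : ∃ q ∈ onw σ e, opd O q := by
        by_contra hcon
        push Not at hcon
        have : bu O σ e = onw σ e := Finset.filter_true_of_mem hcon
        rw [this] at hb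
        omega
      obtain ⟨q, hq, hq'⟩ := h3
      have hqO : q ∉ O := hp.2 q (Finset.mem_of_mem_erase hq)
      have hqs : q.swap ∈ O := by
        rcases hq' with h | h
        · exact absurd h hqO
        · exact h
      calc (1 : ℝ≥0∞) = ind (pass O (σ e.2)) * ind (q.swap ∈ O) := by
            rw [ind_true hp, ind_true hqs, one_mul]
        _ ≤ ∑ q ∈ onw σ e, ind (pass O (σ e.2)) * ind (q.swap ∈ O) :=
            Finset.single_le_sum (f := fun q => ind (pass O (σ e.2)) * ind (q.swap ∈ O))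
              (fun _ _ => zero_le) hq
        _ ≤ _ := le_add_self
    · exact (one_le_W hR he hp).trans le_self_add
  · rw [ind_false hb]; exact zero_le

/-- at most seven ports are kept -/
theorem kept_le (hR : RF O σ Set.univ) (x : V) :
    ((σ x).ports.filter (fun q => q ∉ O)).card ≤ 7 := by
  by_cases h : 3 ≤ (ordp (σ x)).card
  · rcases hR.large x (Set.mem_univ x) h with h1 | h1
    · have : (σ x).ports.filter (fun q => q ∉ O) = ∅ := by
        apply Finset.filter_false_of_mem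
        intro q hq h2
        exact h2 (h1 q hq)
      rw [this]; simp
    · rw [h1]; exact min_le_right _ _
  · have h1 := hR.small x (Set.mem_univ x) (by omega)
    have : (σ x).ports.filter (fun q => q ∉ O) = ∅ := by
      apply Finset.filter_false_of_mem
      intro q hq h2
      exact h2 (h1 q hq)
    rw [this]; simp

theorem hit_bu1_le (hR : RF O σ Set.univ) (he : e.swap ∈ (σ e.2).ports) :
    ind (e.swap ∈ O) * ind ((bu O σ e).card = 1) ≤
      ∑ r ∈ onw σ e, (ind (¬ passS (σ e.2)) * ind (r ∉ O)) * ind (r.swap ∈ O) := by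
  by_cases hO : e.swap ∈ O
  · by_cases hb : (bu O σ e).card = 1
    · obtain ⟨q, hq⟩ := Finset.card_eq_one.mp hb
      have hqb : q ∈ bu O σ e := by rw [hq]; exact Finset.mem_singleton_self q
      have hqo : q ∈ onw σ e := (Finset.mem_filter.mp hqb).1
      have hqn : ¬ opd O q := (Finset.mem_filter.mp hqb).2
      have hqp : q ∈ (σ e.2).ports := Finset.mem_of_mem_erase hqo
      have hqO : q ∉ O := fun h => hqn (Or.inl h)
      have hnall : ¬ ∀ q ∈ (σ e.2).ports, q ∈ O := fun h => hqO (h q hqp)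
      have hk : 3 ≤ (ordp (σ e.2)).card := by
        by_contra hk
        exact hnall (hR.small e.2 (Set.mem_univ _) (by omega))
      have hnS : ¬ passS (σ e.2) := by
        intro hS
        rcases pass_or_allop hR hS with h | h
        · exact h.2 _ he hO
        · exact hnall h.2
      have hkept : 3 ≤ ((σ e.2).ports.filter (fun q => q ∉ O)).card := by
        rcases hR.large e.2 (Set.mem_univ _) hk with h | h
        · exact absurd h hnall
        · rw [h]; exact le_min hk (by norm_num)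
      have h3 : ∃ r ∈ (σ e.2).ports.filter (fun q => q ∉ O), r ≠ q := by
        by_contra hcon
        push Not at hcon
        have : (σ e.2).ports.filter (fun q => q ∉ O) ⊆ {q} := by
          intro r hr
          rw [Finset.mem_singleton]
          exact hcon r hr
        have := Finset.card_le_card this
        rw [Finset.card_singleton] at this
        omega
      obtain ⟨r, hr, hrq⟩ := h3
      have hrp : r ∈ (σ e.2).ports := (Finset.mem_filter.mp hr).1
      have hrO : r ∉ O := (Finset.mem_filter.mp hr).2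
      have hre : r ≠ e.swap := by
        rintro rfl
        exact hrO hO
      have hro : r ∈ onw σ e := Finset.mem_erase.mpr ⟨hre, hrp⟩
      have hrs : r.swap ∈ O := by
        by_contra hrs
        have h5 : r ∈ bu O σ e := Finset.mem_filter.mpr ⟨hro, fun h => h.elim hrO hrs⟩
        rw [hq, Finset.mem_singleton] at h5
        exact hrq h5
      rw [ind_true hO, ind_true hb, one_mul]
      calc (1 : ℝ≥0∞) = (ind (¬ passS (σ e.2)) * ind (r ∉ O)) * ind (r.swap ∈ O) := by
            rw [ind_true hnS, ind_true hrO, ind_true hrs, one_mul, one_mul]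
        _ ≤ _ := Finset.single_le_sum
              (f := fun r => (ind (¬ passS (σ e.2)) * ind (r ∉ O)) * ind (r.swap ∈ O))
              (fun _ _ => zero_le) hro
    · rw [ind_false hb, mul_zero]; exact zero_le
  · rw [ind_false hO, zero_mul]; exact zero_le

theorem ind_opd_le (q : V × V) : ind (opd O q) ≤ ind (q ∈ O) + ind (q.swap ∈ O) := by
  by_cases h1 : q ∈ O
  · rw [ind_true h1]
    exact (ind_le_one _).trans le_self_add
  · by_cases h2 : q.swap ∈ O
    · rw [ind_true h2]
      exact (ind_le_one _).trans le_add_self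
    · have : ¬ opd O q := fun h => h.elim h1 h2
      rw [ind_false this]
      exact zero_le

theorem Cn_step (j : ℕ) :
    Cn O σ (j + 1) e ≤ ind ((bu O σ e).card = 1) +
      (∑ q ∈ onw σ e, ind (q ∈ O) * Cn O σ j q +
        ∑ q ∈ onw σ e, 1 * (ind (q.swap ∈ O) * Cn O σ j q)) := by
  change ind ((bu O σ e).card = 1) + ∑ q ∈ onw σ e, ind (opd O q) * Cn O σ j q ≤ _
  rw [← Finset.sum_add_distrib]
  gcongr with q hq
  rw [one_mul, ← add_mul]
  gcongr
  exact ind_opd_le q

theorem Cn_mono : ∀ (j : ℕ) (p : V × V), Cn O σ j p ≤ Cn O σ (j + 1) p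
  | 0, p => zero_le
  | j + 1, p => by
    change ind ((bu O σ p).card = 1) + ∑ q ∈ onw σ p, ind (opd O q) * Cn O σ j q ≤
      ind ((bu O σ p).card = 1) + ∑ q ∈ onw σ p, ind (opd O q) * Cn O σ (j + 1) q
    gcongr with q hq
    exact Cn_mono j q

end Pointwise

section Expect

variable {V : Type} {G : SimpleGraph V} {μ : Measure (St V)} {Δ : ℕ} {δ : ℝ} {e : V × V}

theorem countV (H : Hyp G μ δ e Δ) : Countable V := countable_V H.std.tree Δ H.std.reg

theorem ae_good (H : Hyp G μ δ e Δ) :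
    ∀ᵐ x ∂(μ.prod (lam G)), WF G x.1 ∧ RF (OO δ x) x.1 Set.univ := by
  have := countV H
  have := H.law.prob
  have h1 : ∀ᵐ x ∂(μ.prod (lam G)), WF G x.1 :=
    Measure.quasiMeasurePreserving_fst.ae H.law.wf
  have h2 := ae_Gen (G := G) (μ := μ) δ
  filter_upwards [h1, h2] with x hx hx2
  exact ⟨hx, RF_of_Gen hx.toWF0 hx2⟩

/-- `EE_mono` with all pointwise facts at hand -/
theorem EE_le (H : Hyp G μ δ e Δ) {Y Z : XX G → ℝ≥0∞}
    (h : ∀ x : XX G, WF G x.1 → RF (OO δ x) x.1 Set.univ → e.swap ∈ (x.1 e.2).ports → Y x ≤ Z x) :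
    EE μ e Y ≤ EE μ e Z := by
  apply EE_mono
  filter_upwards [ae_good H] with x hx ha
  exact h x hx.1 hx.2 (hx.1.swap e.1 e ha)

theorem HdS [Countable V] : Hd (G := G) (fun x e => ind (¬ passS (x.1 e.2))) :=
  Hd_F (G := G) (fun P S => ind (¬ (S = ∅ ∧ 3 ≤ P.card ∧ P.card ≤ 7))) (by
    intro φ P S
    have hinj : Function.Injective (mp φ) := by
      intro a b hab
      have h1 : φ a.1 = φ b.1 := congrArg Prod.fst hab
      have h2 : φ a.2 = φ b.2 := congrArg Prod.snd hab
      exact Prod.ext (φ.injective h1) (φ.injective h2)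
    rw [Finset.image_eq_empty, Finset.card_image_of_injective _ hinj])

theorem HdC [Countable V] : Hd (G := G) (fun x e => ((x.1 e.2).ports.card : ℝ≥0∞)) :=
  Hd_F (G := G) (fun P _ => (P.card : ℝ≥0∞)) (by
    intro φ P S
    have hinj : Function.Injective (mp φ) := by
      intro a b hab
      have h1 : φ a.1 = φ b.1 := congrArg Prod.fst hab
      have h2 : φ a.2 = φ b.2 := congrArg Prod.snd hab
      exact Prod.ext (φ.injective h1) (φ.injective h2)
    rw [Finset.card_image_of_injective _ hinj])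

theorem TlS [Countable V] : Tl (G := G) (fun x e _ => ind (¬ passS (x.1 e.2))) :=
  Tl_F (G := G) (fun P S _ _ => ind (¬ (S = ∅ ∧ 3 ≤ P.card ∧ P.card ≤ 7)))

theorem EW_le (H : Hyp G μ δ e Δ) :
    EE μ e (fun x : XX G => W (OO δ x) x.1 e) ≤ qr G μ e + qA δ := by
  have := countV H
  unfold W
  rw [EE_add ((HdC.mul HdS).meas e)]
  exact add_le_add le_rfl (br_allop_card H.std H.law H.dpos H.adj)

theorem qr_qA_le : qr G μ e + qA δ ≤ eta G μ δ e := by
  have h : eta G μ δ e = (qx G μ e + qy G μ e + qm G μ e) + (qr G μ e + qA δ) := by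
    unfold eta; ring
  rw [h]; exact le_add_self

theorem qh_le_eta (H : Hyp G μ δ e Δ) : qh G μ δ e ≤ eta G μ δ e := by
  refine (qh_le H).trans ?_
  have h1 : ENNReal.ofReal (2000 * δ) ≤ qA δ := by
    unfold qA
    apply ENNReal.ofReal_le_ofReal
    have := H.dpos
    nlinarith
  have h2 : qx G μ e + qy G μ e + qm G μ e + qr G μ e + qA δ =
      (qx G μ e + qy G μ e + qm G μ e + qA δ) + qr G μ e := by ring
  unfold eta
  rw [h2]
  exact (add_le_add le_rfl h1).trans le_self_add

/-- `Σ ind(q proposed) g` -/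
theorem E_prop_le (H : Hyp G μ δ e Δ) {g : XX G → V × V → ℝ≥0∞} (hg : Hd g) :
    EE μ e (fun x => ∑ q ∈ onw x.1 e, ind (q ∈ OO δ x) * g x q) ≤ eta G μ δ e * br μ e g := by
  have := countV H
  rw [factsum H.std H.law (Tl_prop H.std.tree δ) hg H.adj]
  refine mul_le_mul_left ?_ _
  refine (EE_le H ?_).trans ((EW_le H).trans qr_qA_le)
  intro x _ hR _
  exact sum_prop_le hR

/-- `Σ hit g`, with the tagged edge proposed -/
theorem E_hit_le (H : Hyp G μ δ e Δ) {g : XX G → V × V → ℝ≥0∞} (hg : Hd g) :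
    EE μ e (fun x => ∑ q ∈ onw x.1 e, ind (e.swap ∈ OO δ x) * g x q) ≤
      eta G μ δ e * br μ e g := by
  have := countV H
  rw [factsum H.std H.law (Tl_hit H.std.tree δ) hg H.adj]
  refine mul_le_mul_left ?_ _
  refine (EE_le H ?_).trans ((EW_le H).trans qr_qA_le)
  intro x _ hR he
  exact sum_hit_le hR he

theorem qr_le_one (H : Hyp G μ δ e Δ) : qr G μ e ≤ 1 := by
  calc qr G μ e ≤ qr G μ e + qA δ := le_self_add
    _ ≤ eta G μ δ e := qr_qA_le
    _ ≤ ENNReal.ofReal (1 / 10 ^ 6) := H.small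
    _ ≤ 1 := by
      rw [← ENNReal.ofReal_one]
      apply ENNReal.ofReal_le_ofReal
      norm_num

theorem E_one_le (H : Hyp G μ δ e Δ) {g : XX G → V × V → ℝ≥0∞} (hg : Hd g) :
    EE μ e (fun x => ∑ q ∈ onw x.1 e, 1 * g x q) ≤ 8 * br μ e g := by
  rw [factsum H.std H.law (Tl_const 1) hg H.adj]
  refine mul_le_mul_left ?_ _
  have h1 : EE μ e (fun x : XX G => ∑ _p ∈ onw x.1 e, (1 : ℝ≥0∞)) ≤
      br (G := G) μ e (fun x e => ((x.1 e.2).ports.card : ℝ≥0∞)) := by
    refine EE_le H ?_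
    intro x _ _ _
    rw [Finset.sum_const, nsmul_eq_mul, mul_one]
    change ((onw x.1 e).card : ℝ≥0∞) ≤ ((x.1 e.2).ports.card : ℝ≥0∞)
    exact Nat.cast_le.mpr (Finset.card_le_card (Finset.erase_subset _ _))
  refine h1.trans ((card_le H).trans ?_)
  calc 7 + qr G μ e ≤ 7 + 1 := add_le_add le_rfl (qr_le_one H)
    _ = 8 := by norm_num

theorem E_pass_le (H : Hyp G μ δ e Δ) :
    EE μ e (fun x : XX G => ∑ q ∈ onw x.1 e,
      ind (pass (OO δ x) (x.1 e.2)) * ind (q.swap ∈ OO δ x)) ≤ 7 * eta G μ δ e := by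
  have := countV H
  have hg : Hd (G := G) (fun x e => ind (e.swap ∈ OO δ x)) := (HP_hit H.std.tree δ).ind
  have h1 := factsum H.std H.law (Tl_pass H.std.tree δ) hg H.adj
  rw [h1]
  have h2 : EE μ e (fun x : XX G => ∑ _p ∈ onw x.1 e, ind (pass (OO δ x) (x.1 e.2))) ≤
      EE (G := G) μ e (fun _ => 7) := by
    refine EE_le H ?_
    intro x _ _ _
    by_cases hp : pass (OO δ x) (x.1 e.2)
    · rw [Finset.sum_const, nsmul_eq_mul, ind_true hp, mul_one]
      have h3 : (onw x.1 e).card ≤ 7 :=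
        (Finset.card_le_card (Finset.erase_subset _ _)).trans hp.1.2.2
      exact_mod_cast h3
    · rw [ind_false hp]; simp
  rw [EE_const H.law H.adj] at h2
  exact mul_le_mul' h2 (qh_le_eta H)

theorem E_kept_le (H : Hyp G μ δ e Δ) :
    EE μ e (fun x : XX G => ∑ r ∈ onw x.1 e,
      (ind (¬ passS (x.1 e.2)) * ind (r ∉ OO δ x)) * ind (r.swap ∈ OO δ x)) ≤
      7 * eta G μ δ e * eta G μ δ e := by
  have := countV H
  have hg : Hd (G := G) (fun x e => ind (e.swap ∈ OO δ x)) := (HP_hit H.std.tree δ).ind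
  have h1 := factsum H.std H.law (TlS.mul (Tl_nprop H.std.tree δ)) hg H.adj
  rw [h1]
  have h2 : EE μ e (fun x : XX G => ∑ r ∈ onw x.1 e,
      ind (¬ passS (x.1 e.2)) * ind (r ∉ OO δ x)) ≤
      EE (G := G) μ e (fun x => 7 * (((x.1 e.2).ports.card : ℝ≥0∞) * ind (¬ passS (x.1 e.2)))) := by
    refine EE_le H ?_
    intro x _ hR he
    have h3 : ∑ r ∈ onw x.1 e, ind (r ∉ OO δ x) ≤ 7 := by
      have h4 : ∑ r ∈ onw x.1 e, ind (r ∉ OO δ x) ≤
          ∑ r ∈ (x.1 e.2).ports, ind (r ∉ OO δ x) :=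
        Finset.sum_le_sum_of_subset (Finset.erase_subset _ _)
      refine h4.trans ?_
      have h5 : ∑ r ∈ (x.1 e.2).ports, ind (r ∉ OO δ x) =
          (((x.1 e.2).ports.filter (fun q => q ∉ OO δ x)).card : ℝ≥0∞) := by
        rw [Finset.natCast_card_filter]
        refine Finset.sum_congr rfl (fun r _ => ?_)
        by_cases hr : r ∉ OO δ x
        · rw [ind_true hr, if_pos hr]
        · rw [ind_false hr, if_neg hr]
      rw [h5]
      exact_mod_cast kept_le hR e.2
    rw [← Finset.mul_sum]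
    have hc : (1 : ℝ≥0∞) ≤ ((x.1 e.2).ports.card : ℝ≥0∞) := by
      have : 1 ≤ (x.1 e.2).ports.card := Finset.card_pos.mpr ⟨_, he⟩
      exact_mod_cast this
    calc ind (¬ passS (x.1 e.2)) * ∑ r ∈ onw x.1 e, ind (r ∉ OO δ x)
        ≤ (((x.1 e.2).ports.card : ℝ≥0∞) * ind (¬ passS (x.1 e.2))) * 7 := by
          refine mul_le_mul' ?_ h3
          calc ind (¬ passS (x.1 e.2)) = 1 * ind (¬ passS (x.1 e.2)) := (one_mul _).symm
            _ ≤ _ := mul_le_mul' hc le_rfl
      _ = _ := mul_comm _ _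
  rw [EE_mul_left 7 ((HdC.mul HdS).meas e)] at h2
  refine mul_le_mul' (h2.trans ?_) (qh_le_eta H)
  refine mul_le_mul' le_rfl ?_
  exact le_self_add.trans qr_qA_le

/-- first moments at depth `j` -/
noncomputable def Uc (G : SimpleGraph V) (μ : Measure (St V)) (δ : ℝ) (e : V × V) (j : ℕ) : ℝ≥0∞ :=
  br (G := G) μ e (fun x e => Cn (OO δ x) x.1 j e)

noncomputable def Tc (G : SimpleGraph V) (μ : Measure (St V)) (δ : ℝ) (e : V × V) (j : ℕ) : ℝ≥0∞ :=
  br (G := G) μ e (fun x e => ind (e.swap ∈ OO δ x) * Cn (OO δ x) x.1 j e)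

theorem Uc_step (H : Hyp G μ δ e Δ) (j : ℕ) :
    Uc G μ δ e (j + 1) ≤ 8 * eta G μ δ e + (eta G μ δ e * Uc G μ δ e j + 8 * Tc G μ δ e j) := by
  have := countV H
  have hCn : Hd (G := G) (fun x e => Cn (OO δ x) x.1 j e) := Hd_Cn H.std.tree δ j
  have hhit : Hd (G := G) (fun x e => ind (e.swap ∈ OO δ x)) := (HP_hit H.std.tree δ).ind
  have hW : Hd (G := G) (fun x e => W (OO δ x) x.1 e) :=
    (HdC.mul HdS).add ((HP_allop H.std.tree δ).ind.mul HdC)
  have h1 : Hd (G := G) (fun x e => ∑ q ∈ onw x.1 e,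
      ind (pass (OO δ x) (x.1 e.2)) * ind (q.swap ∈ OO δ x)) :=
    Hd_sum H.std.tree ((HP_pass H.std.tree δ).ind.Md_fst) hhit
  have h2 : Hd (G := G) (fun x e => ∑ q ∈ onw x.1 e,
      ind (q ∈ OO δ x) * Cn (OO δ x) x.1 j q) :=
    Hd_sum H.std.tree (Md_prop H.std.tree δ) hCn
  calc Uc G μ δ e (j + 1)
      ≤ EE (G := G) μ e (fun x => (W (OO δ x) x.1 e + ∑ q ∈ onw x.1 e,
          ind (pass (OO δ x) (x.1 e.2)) * ind (q.swap ∈ OO δ x)) +
          (∑ q ∈ onw x.1 e, ind (q ∈ OO δ x) * Cn (OO δ x) x.1 j q +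
            ∑ q ∈ onw x.1 e, 1 * (ind (q.swap ∈ OO δ x) * Cn (OO δ x) x.1 j q))) := by
        refine EE_le H ?_
        intro x _ hR he
        exact (Cn_step j).trans (add_le_add (bu1_le hR he) le_rfl)
    _ = (EE (G := G) μ e (fun x => W (OO δ x) x.1 e) + EE (G := G) μ e (fun x => ∑ q ∈ onw x.1 e,
          ind (pass (OO δ x) (x.1 e.2)) * ind (q.swap ∈ OO δ x))) +
          (EE (G := G) μ e (fun x => ∑ q ∈ onw x.1 e, ind (q ∈ OO δ x) * Cn (OO δ x) x.1 j q) +
          EE (G := G) μ e (fun x => ∑ q ∈ onw x.1 e,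
            1 * (ind (q.swap ∈ OO δ x) * Cn (OO δ x) x.1 j q))) := by
        rw [EE_add ((hW.add h1).meas e), EE_add (hW.meas e), EE_add (h2.meas e)]
    _ ≤ (eta G μ δ e + 7 * eta G μ δ e) + (eta G μ δ e * Uc G μ δ e j + 8 * Tc G μ δ e j) := by
        refine add_le_add (add_le_add ((EW_le H).trans qr_qA_le) (E_pass_le H))
          (add_le_add (E_prop_le H hCn) (E_one_le H (hhit.mul hCn)))
    _ = _ := by ring

theorem Tc_step (H : Hyp G μ δ e Δ) (j : ℕ) :
    Tc G μ δ e (j + 1) ≤ 7 * eta G μ δ e * eta G μ δ e +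
      (eta G μ δ e * Uc G μ δ e j + eta G μ δ e * Tc G μ δ e j) := by
  have := countV H
  have hCn : Hd (G := G) (fun x e => Cn (OO δ x) x.1 j e) := Hd_Cn H.std.tree δ j
  have hhit : Hd (G := G) (fun x e => ind (e.swap ∈ OO δ x)) := (HP_hit H.std.tree δ).ind
  have h1 : Hd (G := G) (fun x e => ∑ r ∈ onw x.1 e,
      (ind (¬ passS (x.1 e.2)) * ind (r ∉ OO δ x)) * ind (r.swap ∈ OO δ x)) :=
    Hd_sum H.std.tree (HdS.Md_fst.mul (Md_nprop H.std.tree δ)) hhit
  have h2 : Hd (G := G) (fun x e => ∑ q ∈ onw x.1 e,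
      ind (q ∈ OO δ x) * Cn (OO δ x) x.1 j q) :=
    Hd_sum H.std.tree (Md_prop H.std.tree δ) hCn
  calc Tc G μ δ e (j + 1)
      ≤ EE (G := G) μ e (fun x => (∑ r ∈ onw x.1 e,
          (ind (¬ passS (x.1 e.2)) * ind (r ∉ OO δ x)) * ind (r.swap ∈ OO δ x)) +
          (∑ q ∈ onw x.1 e, ind (q ∈ OO δ x) * Cn (OO δ x) x.1 j q +
            ∑ q ∈ onw x.1 e, ind (e.swap ∈ OO δ x) *
              (ind (q.swap ∈ OO δ x) * Cn (OO δ x) x.1 j q))) := by
        refine EE_le H ?_
        intro x _ hR he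
        calc ind (e.swap ∈ OO δ x) * Cn (OO δ x) x.1 (j + 1) e
            ≤ ind (e.swap ∈ OO δ x) * (ind ((bu (OO δ x) x.1 e).card = 1) +
              (∑ q ∈ onw x.1 e, ind (q ∈ OO δ x) * Cn (OO δ x) x.1 j q +
                ∑ q ∈ onw x.1 e, 1 * (ind (q.swap ∈ OO δ x) * Cn (OO δ x) x.1 j q))) :=
              mul_le_mul' le_rfl (Cn_step j)
          _ = ind (e.swap ∈ OO δ x) * ind ((bu (OO δ x) x.1 e).card = 1) +
              (ind (e.swap ∈ OO δ x) * ∑ q ∈ onw x.1 e, ind (q ∈ OO δ x) * Cn (OO δ x) x.1 j q +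
                ind (e.swap ∈ OO δ x) *
                  ∑ q ∈ onw x.1 e, 1 * (ind (q.swap ∈ OO δ x) * Cn (OO δ x) x.1 j q)) := by
              ring
          _ ≤ _ := by
              refine add_le_add (hit_bu1_le hR he) (add_le_add ?_ (le_of_eq ?_))
              · calc ind (e.swap ∈ OO δ x) * ∑ q ∈ onw x.1 e,
                      ind (q ∈ OO δ x) * Cn (OO δ x) x.1 j q
                    ≤ 1 * ∑ q ∈ onw x.1 e, ind (q ∈ OO δ x) * Cn (OO δ x) x.1 j q :=
                    mul_le_mul' (ind_le_one _) le_rfl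
                  _ = _ := one_mul _
              · rw [Finset.mul_sum]
                refine Finset.sum_congr rfl ?_
                intro q _
                rw [one_mul]
    _ = EE (G := G) μ e (fun x => ∑ r ∈ onw x.1 e,
          (ind (¬ passS (x.1 e.2)) * ind (r ∉ OO δ x)) * ind (r.swap ∈ OO δ x)) +
          (EE (G := G) μ e (fun x => ∑ q ∈ onw x.1 e, ind (q ∈ OO δ x) * Cn (OO δ x) x.1 j q) +
          EE (G := G) μ e (fun x => ∑ q ∈ onw x.1 e, ind (e.swap ∈ OO δ x) *
            (ind (q.swap ∈ OO δ x) * Cn (OO δ x) x.1 j q))) := by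
        rw [EE_add (h1.meas e), EE_add (h2.meas e)]
    _ ≤ _ := add_le_add (E_kept_le H) (add_le_add (E_prop_le H hCn) (E_hit_le H (hhit.mul hCn)))

theorem small_mul (H : Hyp G μ δ e Δ) : 1000 * eta G μ δ e ≤ 1 := by
  calc 1000 * eta G μ δ e ≤ 1000 * ENNReal.ofReal (1 / 10 ^ 6) := mul_le_mul' le_rfl H.small
    _ = ENNReal.ofReal 1000 * ENNReal.ofReal (1 / 10 ^ 6) := by
      congr 1
      rw [ENNReal.ofReal_ofNat]
    _ = ENNReal.ofReal (1000 * (1 / 10 ^ 6)) := (ENNReal.ofReal_mul (by norm_num)).symm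
    _ ≤ 1 := by
      rw [← ENNReal.ofReal_one]
      apply ENNReal.ofReal_le_ofReal
      norm_num

theorem UT_le (H : Hyp G μ δ e Δ) (j : ℕ) :
    Uc G μ δ e j ≤ 20 * eta G μ δ e ∧ Tc G μ δ e j ≤ 100 * (eta G μ δ e * eta G μ δ e) := by
  have hs := small_mul H
  induction j with
  | zero =>
    have h0 : Uc G μ δ e 0 = 0 := by
      unfold Uc br
      change EE (G := G) μ e (fun _ => 0) = 0
      exact EE_const H.law H.adj 0
    have h1 : Tc G μ δ e 0 = 0 := by
      unfold Tc br
      change EE (G := G) μ e (fun x => ind (e.swap ∈ OO δ x) * 0) = 0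
      simp only [mul_zero]
      exact EE_const H.law H.adj 0
    rw [h0, h1]
    exact ⟨zero_le, zero_le⟩
  | succ j ih =>
    obtain ⟨hU, hT⟩ := ih
    set η := eta G μ δ e with hη
    constructor
    · calc Uc G μ δ e (j + 1) ≤ 8 * η + (η * Uc G μ δ e j + 8 * Tc G μ δ e j) := Uc_step H j
        _ ≤ 8 * η + (η * (20 * η) + 8 * (100 * (η * η))) := by gcongr
        _ = 8 * η + (820 * η) * η := by ring
        _ ≤ 8 * η + 1 * η := by
          gcongr
          refine le_trans ?_ hs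
          gcongr
          norm_num
        _ = 9 * η := by ring
        _ ≤ 20 * η := by gcongr; norm_num
    · calc Tc G μ δ e (j + 1) ≤ 7 * η * η + (η * Uc G μ δ e j + η * Tc G μ δ e j) := Tc_step H j
        _ ≤ 7 * η * η + (η * (20 * η) + η * (100 * (η * η))) := by gcongr
        _ = (27 + 100 * η) * (η * η) := by ring
        _ ≤ (27 + 1) * (η * η) := by
          gcongr
          refine le_trans ?_ hs
          gcongr
          norm_num
        _ ≤ 100 * (η * η) := by gcongr; norm_num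

/-- monotone convergence for `br` -/
theorem br_iSup {g : ℕ → XX G → V × V → ℝ≥0∞} (hg : ∀ j, Measurable (fun x => g j x e))
    (hm : ∀ j x, g j x e ≤ g (j + 1) x e) {f : XX G → ℝ≥0∞} (hf : Measurable f)
    (ha : Measurable (fun x : XX G => ind (alive x.1 e))) (c : ℝ≥0∞)
    (h : ∀ j, EE (G := G) μ e (fun x => f x * g j x e) ≤ c) :
    EE (G := G) μ e (fun x => f x * ⨆ j, g j x e) ≤ c := by
  unfold EE at h ⊢
  have h1 : (∫⁻ x, ind (alive x.1 e) * (f x * ⨆ j, g j x e) ∂(μ.prod (lam G))) =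
      ⨆ j, ∫⁻ x, ind (alive x.1 e) * (f x * g j x e) ∂(μ.prod (lam G)) := by
    rw [← lintegral_iSup]
    · congr 1
      funext x
      rw [ENNReal.mul_iSup, ENNReal.mul_iSup]
    · intro j
      exact ha.mul (hf.mul (hg j))
    · apply monotone_nat_of_le_succ
      intro j x
      exact mul_le_mul' le_rfl (mul_le_mul' le_rfl (hm j x))
  rw [h1, ENNReal.iSup_div]
  exact iSup_le h

theorem meas_alive [Countable V] (e : V × V) : Measurable (fun x : XX G => ind (alive x.1 e)) := by
  have h : MeasurableSet {x : XX G | alive x.1 e} :=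
    meas_ports (s := fun x : XX G => x.1) measurable_fst e.1 (fun P => e ∈ P)
  unfold ind
  exact Measurable.ite h measurable_const measurable_const

end Expect

end NsysB

open NsysB

section NSYSB

variable {V : Type} {G : SimpleGraph V} {μ : Measure (St V)} {Δ : ℕ} {δ : ℝ} {e : V × V}

theorem cc_le (H : Hyp G μ δ e Δ) :
    br (G := G) μ e (fun x e => CC (OO δ x) x.1 e) ≤ 20 * eta G μ δ e := by
  have := countV H
  have h := br_iSup (G := G) (μ := μ) (e := e) (g := fun j x e => Cn (OO δ x) x.1 j e)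
    (fun j => (Hd_Cn H.std.tree δ j).meas e) (fun j x => Cn_mono j e)
    (f := fun _ => 1) measurable_const (NsysB.meas_alive e) (20 * eta G μ δ e) (by
      intro j
      simp only [one_mul]
      exact (UT_le H j).1)
  simp only [one_mul] at h
  exact h

theorem hit_cc_le (H : Hyp G μ δ e Δ) :
    br (G := G) μ e (fun x e => ind (e.swap ∈ OO δ x) * CC (OO δ x) x.1 e) ≤
      1000 * eta G μ δ e ^ 2 := by
  have := countV H
  have h := br_iSup (G := G) (μ := μ) (e := e) (g := fun j x e => Cn (OO δ x) x.1 j e)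
    (fun j => (Hd_Cn H.std.tree δ j).meas e) (fun j x => Cn_mono j e)
    (f := fun x => ind (e.swap ∈ OO δ x)) ((HP_hit H.std.tree δ).ind.meas e) (NsysB.meas_alive e)
    (100 * (eta G μ δ e * eta G μ δ e)) (fun j => (UT_le H j).2)
  refine le_trans h ?_
  rw [pow_two]
  gcongr
  norm_num

/-- the hot regions are finite -/
theorem ae_region (H : Hyp G μ δ e Δ) :
    ∀ᵐ x ∂(μ.prod (lam G)), ∀ v, (region (OO δ x) x.1 v).Finite := by
  have := countV H
  have := H.law.prob
  have key : ∀ᵐ x ∂(μ.prod (lam G)), ∀ p : V × V, G.Adj p.1 p.2 → alive x.1 p →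
      NN (OO δ x) x.1 p ≠ ∞ := by
    rw [ae_all_iff]
    intro p
    by_cases hp : G.Adj p.1 p.2
    · have h1 : br (G := G) μ p (fun x e => NN (OO δ x) x.1 e) ≤ 2 := by
        rw [br_eq H.std H.law (Hd_NN H.std.tree δ) hp H.adj]
        exact nn_le H
      unfold br EE at h1
      rw [ENNReal.div_le_iff (H.law.pos p hp) (measure_ne_top _ _)] at h1
      have h2 : ∫⁻ x, ind (alive x.1 p) * NN (OO δ x) x.1 p ∂(μ.prod (lam G)) ≠ ∞ := by
        refine ne_top_of_le_ne_top ?_ h1
        exact ENNReal.mul_ne_top (by norm_num) (measure_ne_top _ _)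
      have h3 := ae_lt_top ((NsysB.meas_alive p).mul ((Hd_NN H.std.tree δ).meas p)) h2
      filter_upwards [h3] with x hx _ ha
      have hx' : ind (alive x.1 p) * NN (OO δ x) x.1 p < ∞ := hx
      rw [ind_true ha, one_mul] at hx'
      exact hx'.ne
    · filter_upwards with x h
      exact absurd h hp
  filter_upwards [key, ae_good H] with x hx hg v
  refine region_finite H.std.tree hg.1.toWF0 v ?_
  intro p hp _
  have ht := hg.1.tail v p hp
  apply hx p ht.2
  have h4 := (hg.1.eqv v p.1 ht.1).2.1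
  unfold alive
  rw [h4]
  exact hp

end NSYSB

end Pool.Agent.PM
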