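import Pool.Agent.Lib.MP_947a32_pr.Step

/-! # MP_947a32_pr : outcome of one stage, first and second scenario (helper3) -/

set_option autoImplicit false

open Classical MeasureTheory
open scoped ENNReal

namespace Pool.Agent.PM

variable {V : Type} {G : SimpleGraph V}

/-! ### no hot port -/

theorem o12_region_eq {σ : St V} (h : WF0 G σ) {O : Set (V × V)} {v : V}
    (hh : ∀ p ∈ (σ v).ports, ¬ hot O σ p) {x : V} (hx : x ∈ region O σ v) : x ∈ (σ v).comp := by
  induction hx with
  | refl => exact h.mem v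
  | @tail u w _ h2 ih =>
    rcases h2 with h2 | h2
    · rw [(h.eqv v u ih).1] at h2
      exact h2
    · exfalso
      have h3 : (u, w) ∈ (σ v).ports := by
        have h4 : (u, w) ∈ (σ u).ports := h2.1
        rwa [(h.eqv v u ih).2.1] at h4
      exact hh _ h3 h2

theorem o12_hotSet_empty {σ : St V} (h : WF0 G σ) {O : Set (V × V)} {v : V} (t : V × V → ℝ)
    (hh : ∀ p ∈ (σ v).ports, ¬ hot O σ p) : hotSet O t σ v = ∅ := by
  ext d
  simp only [Set.mem_empty_iff_false, iff_false]
  rintro ⟨h1, h2, -⟩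
  have h3 := o12_region_eq h hh h1
  have h4 : d ∈ (σ v).ports := by
    have h5 : d ∈ (σ d.1).ports := h2.1
    rwa [(h.eqv v d.1 h3).2.1] at h5
  exact hh d h4 h2

theorem o12_filter {O : Set (V × V)} {σ : St V} (S : Finset (V × V)) :
    ((S.filter (fun q => opd O q → hot O σ q)).filter (fun q => ¬ opd O q)) =
      S.filter (fun q => ¬ opd O q) := by
  ext q
  simp only [Finset.mem_filter]
  constructor
  · rintro ⟨⟨h1, _⟩, h2⟩
    exact ⟨h1, h2⟩
  · rintro ⟨h1, h2⟩
    exact ⟨⟨h1, fun h3 => absurd h3 h2⟩, h2⟩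

theorem out1 (hG : G.IsTree) {σ : St V} (h : WF0 G σ) (O : Set (V × V)) (t : V × V → ℝ) (v : V)
    (hh : ∀ p ∈ (σ v).ports, ¬ hot O σ p) :
    (step O t σ v).comp = (σ v).comp ∧ (step O t σ v).ports = unop O (σ v) ∧
      (step O t σ v).spec = (σ v).spec.filter (fun q => ¬ opd O q) ∧
      (step O t σ v).M = (σ v).M := by
  have h0 := o12_hotSet_empty h t hh
  have hf : (hotSet O t σ v).Finite := by rw [h0]; exact Set.finite_empty
  have h1 : step O t σ v = post O (chill O σ v) := by
    unfold step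
    rw [dif_pos hf]
    have h2 : hf.toFinset = ∅ := by
      rw [Set.Finite.toFinset_eq_empty]
      exact h0
    rw [h2]
    rfl
  rw [h1]
  refine ⟨rfl, ?_, ?_, rfl⟩
  · exact o12_filter _
  · exact o12_filter _

/-! ### the merger through a wire -/

theorem o12_ne_comp (hG : G.IsTree) {τ : St V} (h : WF0 G τ) {x : V × V} (hx : alive τ x) :
    x.2 ∉ (τ x.1).comp := by
  intro h1
  have h2 := h.sep x hx x.1 x.2 h1
  exact not_side_snd x (h2.2 (side_fst (h.st_adj_of_alive hx)))

theorem o12_op_ports (τ : St V) {d : V × V} (h1 : d ∈ (τ d.1).ports) (h2 : d.swap ∈ (τ d.2).ports)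
    {u : V} (hu : u ∈ (τ d.1).comp ∨ u ∈ (τ d.2).comp)
    (hc : ¬ ((d ∈ (τ d.1).spec ↔ d.swap ∈ (τ d.2).spec) ∧
      (3 ≤ (τ d.1).ports.card ∧ 3 ≤ (τ d.2).ports.card))) :
    (op τ d u).ports = (τ d.1).ports.erase d ∪ (τ d.2).ports.erase d.swap ∧
      (op τ d u).comp = (τ d.1).comp ∪ (τ d.2).comp := by
  unfold op
  rw [if_pos ⟨h1, h2, hu⟩]
  by_cases h3 : (d ∈ (τ d.1).spec ↔ d.swap ∈ (τ d.2).spec)
  · rw [if_pos h3]
    have h4 : ¬ (3 ≤ (τ d.1).ports.card ∧ 3 ≤ (τ d.2).ports.card) := fun h5 => hc ⟨h3, h5⟩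
    rw [if_neg h4]
    by_cases h5 : (τ d.2).ports.card = 2
    · rw [if_pos h5]; exact ⟨rfl, rfl⟩
    · rw [if_neg h5]; exact ⟨rfl, rfl⟩
  · rw [if_neg h3]
    exact ⟨rfl, rfl⟩

theorem o12_op_spec_merge (τ : St V) {d : V × V} (h1 : d ∈ (τ d.1).ports)
    (h2 : d.swap ∈ (τ d.2).ports)
    {u : V} (hu : u ∈ (τ d.1).comp ∨ u ∈ (τ d.2).comp)
    (hc : ¬ (d ∈ (τ d.1).spec ↔ d.swap ∈ (τ d.2).spec)) :
    (op τ d u).spec = (τ d.1).spec.erase d ∪ (τ d.2).spec.erase d.swap := by
  unfold op
  rw [if_pos ⟨h1, h2, hu⟩, if_neg hc]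

/-- merge, for both orientations of the edge -/
theorem o12_merge {τ : St V} (h : WF0 G τ) {x : V × V} (hx : alive τ x)
    (hc : ¬ (x ∈ (τ x.1).spec ↔ x.swap ∈ (τ x.2).spec)) {e : V × V} (he : e = x ∨ e = x.swap)
    {u : V} (hu : u ∈ (τ x.1).comp ∨ u ∈ (τ x.2).comp) :
    (op τ e u).ports = (τ x.1).ports.erase x ∪ (τ x.2).ports.erase x.swap ∧
      (op τ e u).spec = (τ x.1).spec.erase x ∪ (τ x.2).spec.erase x.swap := by
  have hx1 : x ∈ (τ x.1).ports := hx
  have hx2 : x.swap ∈ (τ x.2).ports := h.swap x.1 x hx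
  rcases he with rfl | rfl
  · exact ⟨(o12_op_ports τ hx1 hx2 hu (fun h3 => hc h3.1)).1, o12_op_spec_merge τ hx1 hx2 hu hc⟩
  · have h1 : x.swap ∈ (τ x.swap.1).ports := hx2
    have h2 : x.swap.swap ∈ (τ x.swap.2).ports := by rw [Prod.swap_swap]; exact hx1
    have hc' : ¬ (x.swap ∈ (τ x.swap.1).spec ↔ x.swap.swap ∈ (τ x.swap.2).spec) := by
      rw [Prod.swap_swap]
      intro h3
      exact hc h3.symm
    have hu' : u ∈ (τ x.swap.1).comp ∨ u ∈ (τ x.swap.2).comp := hu.symm
    have h4 := (o12_op_ports τ h1 h2 hu' (fun h3 => hc' h3.1)).1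
    have h5 := o12_op_spec_merge τ h1 h2 hu' hc'
    rw [h4, h5]
    simp only [Prod.swap_swap]
    exact ⟨Finset.union_comm _ _, Finset.union_comm _ _⟩

/-- absorption of a wire, for both orientations of the edge -/
theorem o12_absorb {τ : St V} (h : WF0 G τ) {x z : V × V} (hx : alive τ x)
    (hs : (τ x.1).spec = ∅) (h3 : 3 ≤ (τ x.1).ports.card) (hw : (τ x.2).ports = {x.swap, z})
    (hz : z ≠ x.swap) (hws : (τ x.2).spec = ∅) {e : V × V} (he : e = x ∨ e = x.swap)
    {u : V} (hu : u ∈ (τ x.1).comp ∨ u ∈ (τ x.2).comp) :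
    (op τ e u).ports = (τ x.1).ports.erase x ∪ {z} ∧ (op τ e u).spec = {z} ∧
      (op τ e u).comp = (τ x.1).comp ∪ (τ x.2).comp := by
  have hx1 : x ∈ (τ x.1).ports := hx
  have hx2 : x.swap ∈ (τ x.2).ports := h.swap x.1 x hx
  have hcard : (τ x.2).ports.card = 2 := by
    rw [hw, Finset.card_pair (Ne.symm hz)]
  have her : (τ x.2).ports.erase x.swap = {z} := by
    rw [hw, Finset.erase_insert]
    rw [Finset.mem_singleton]
    exact Ne.symm hz
  rcases he with rfl | rfl
  · have hiff : (e ∈ (τ e.1).spec ↔ e.swap ∈ (τ e.2).spec) := by rw [hs, hws]; simp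
    have hnot : ¬ (3 ≤ (τ e.1).ports.card ∧ 3 ≤ (τ e.2).ports.card) := by omega
    obtain ⟨h4, h5⟩ := o12_op_ports τ hx1 hx2 hu (fun h6 => hnot h6.2)
    refine ⟨by rw [h4, her], ?_, h5⟩
    unfold op
    rw [if_pos ⟨hx1, hx2, hu⟩, if_pos hiff, if_neg hnot, if_pos hcard]
    simp only [hs, hws, her]
    simp
  · have h1 : x.swap ∈ (τ x.swap.1).ports := hx2
    have h2 : x.swap.swap ∈ (τ x.swap.2).ports := by rw [Prod.swap_swap]; exact hx1
    have hu' : u ∈ (τ x.swap.1).comp ∨ u ∈ (τ x.swap.2).comp := hu.symm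
    have hiff : (x.swap ∈ (τ x.swap.1).spec ↔ x.swap.swap ∈ (τ x.swap.2).spec) := by
      simp [hs, hws]
    have hnot : ¬ (3 ≤ (τ x.swap.1).ports.card ∧ 3 ≤ (τ x.swap.2).ports.card) := by
      simp only [Prod.fst_swap, Prod.snd_swap]
      omega
    have hn2 : ¬ (τ x.swap.2).ports.card = 2 := by
      simp only [Prod.snd_swap]
      omega
    obtain ⟨h4, h5⟩ := o12_op_ports τ h1 h2 hu' (fun h6 => hnot h6.2)
    refine ⟨?_, ?_, ?_⟩
    · rw [h4]
      simp only [Prod.fst_swap, Prod.snd_swap, Prod.swap_swap]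
      rw [her, Finset.union_comm]
    · unfold op
      rw [if_pos ⟨h1, h2, hu'⟩, if_pos hiff, if_neg hnot, if_neg hn2]
      simp only [Prod.fst_swap, Prod.snd_swap, Prod.swap_swap, hs, hws, her]
      simp
    · rw [h5]
      simp only [Prod.fst_swap, Prod.snd_swap]
      exact Finset.union_comm _ _

theorem o12_chill_eq {σ : St V} {O : Set (V × V)} {v : V} (hs : (σ v).spec ⊆ (σ v).ports)
    (hh : ∀ q ∈ (σ v).ports, opd O q → hot O σ q) :
    (chill O σ v).ports = (σ v).ports ∧ (chill O σ v).spec = (σ v).spec := by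
  constructor
  · exact Finset.filter_true_of_mem hh
  · exact Finset.filter_true_of_mem fun q hq => hh q (hs hq)

/-- merger through a wire -/
theorem out2 (hG : G.IsTree) {σ : St V} (h : WF G σ) {O : Set (V × V)} {t : V × V → ℝ}
    (ht : TI G t) {v : V} {p g : V × V}
    (hv : (σ v).spec = ∅) (hv3 : 3 ≤ (σ v).ports.card) (hp : p ∈ (σ v).ports)
    (hv' : ∀ q ∈ (σ v).ports, q ≠ p → ¬ opd O q)
    (hw : (σ p.2).spec = ∅) (hg : g ≠ p.swap) (hwp : (σ p.2).ports = {p.swap, g})
    (hop : opd O p) (hog : opd O g)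
    (hz : (σ g.2).spec = ∅) (hz3 : 3 ≤ (σ g.2).ports.card)
    (hz' : ∀ q ∈ (σ g.2).ports, q ≠ g.swap → ¬ opd O q) :
    (step O t σ v).spec = ∅ ∧
      (step O t σ v).ports = (σ v).ports.erase p ∪ (σ g.2).ports.erase g.swap ∧
      (step O t σ v).ports.card + 2 = (σ v).ports.card + (σ g.2).ports.card := by
  have h0 := h.toWF0
  -- basic facts
  have hpa : alive σ p := h0.st_alive_of_mem hp
  have hp1 : p.1 ∈ (σ v).comp := (h0.tail v p hp).1
  have eA := h0.eqv v p.1 hp1
  have hgp : g ∈ (σ p.2).ports := by rw [hwp]; simp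
  have hga : alive σ g := h0.st_alive_of_mem hgp
  have hg1 : g.1 ∈ (σ p.2).comp := (h0.tail _ g hgp).1
  have eW := h0.eqv p.2 g.1 hg1
  have hps : p.swap ∈ (σ p.2).ports := by rw [hwp]; simp
  have hgs : g.swap ∈ (σ g.2).ports := h0.swap g.1 g hga
  -- hot darts
  have hunW : unop O (σ p.2) = ∅ := by
    unfold unop
    rw [hwp]
    rw [Finset.filter_eq_empty_iff]
    intro q hq
    rw [Finset.mem_insert, Finset.mem_singleton] at hq
    rw [not_not]
    rcases hq with rfl | rfl
    · exact (st_opd_swap O p).2 hop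
    · exact hog
  have hhp : hot O σ p := ⟨hpa, hps, hop, Or.inr (Or.inr (Or.inr (by rw [hunW]; simp)))⟩
  have hhg : hot O σ g := by
    refine ⟨hga, hgs, hog, Or.inr (Or.inr (Or.inl ?_))⟩
    have : unop O (σ g.1) = unop O (σ p.2) := by
      unfold unop
      rw [eW.2.1]
    rw [this, hunW]
    simp
  have hhps : hot O σ p.swap := (hot_swap O p).2 hhp
  have hhgs : hot O σ g.swap := (hot_swap O g).2 hhg
  -- all opened ports of the three comps are hot
  have aA : ∀ q ∈ (σ v).ports, opd O q → q = p := fun q hq ho => by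
    by_contra hne
    exact hv' q hq hne ho
  have aZ : ∀ q ∈ (σ g.2).ports, opd O q → q = g.swap := fun q hq ho => by
    by_contra hne
    exact hz' q hq hne ho
  have aW : ∀ q ∈ (σ p.2).ports, q = p.swap ∨ q = g := fun q hq => by
    rw [hwp, Finset.mem_insert, Finset.mem_singleton] at hq
    exact hq
  -- the region
  have hreg : ∀ x ∈ region O σ v, x ∈ (σ v).comp ∨ x ∈ (σ p.2).comp ∨ x ∈ (σ g.2).comp := by
    intro x hx
    induction hx with
    | refl => exact Or.inl (h0.mem v)
    | @tail u w _ h2 ih =>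
      rcases h2 with h2 | h2
      · rcases ih with ih | ih | ih
        · rw [(h0.eqv _ _ ih).1] at h2; exact Or.inl h2
        · rw [(h0.eqv _ _ ih).1] at h2; exact Or.inr (Or.inl h2)
        · rw [(h0.eqv _ _ ih).1] at h2; exact Or.inr (Or.inr h2)
      · have h3 : (u, w) ∈ (σ u).ports := h2.1
        have h4 : opd O (u, w) := h2.2.2.1
        rcases ih with ih | ih | ih
        · rw [(h0.eqv _ _ ih).2.1] at h3
          have h5 := aA _ h3 h4
          have h6 : w = p.2 := congrArg Prod.snd h5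
          rw [h6]
          exact Or.inr (Or.inl (h0.mem _))
        · rw [(h0.eqv _ _ ih).2.1] at h3
          rcases aW _ h3 with h5 | h5
          · have h6 : w = p.1 := congrArg Prod.snd h5
            rw [h6]
            exact Or.inl hp1
          · have h6 : w = g.2 := congrArg Prod.snd h5
            rw [h6]
            exact Or.inr (Or.inr (h0.mem _))
        · rw [(h0.eqv _ _ ih).2.1] at h3
          have h5 := aZ _ h3 h4
          have h6 : w = g.1 := congrArg Prod.snd h5
          rw [h6]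
          exact Or.inr (Or.inl hg1)
  have hrp : p.1 ∈ region O σ v := st_region_comp hp1
  have hrp2 : p.2 ∈ region O σ v := st_region_trans hrp (st_region_hot hhp)
  have hrg1 : g.1 ∈ region O σ v := st_region_trans hrp2 (st_region_comp hg1)
  have hrg2 : g.2 ∈ region O σ v := st_region_trans hrg1 (st_region_hot hhg)
  have hadjp : G.Adj p.1 p.2 := h0.st_adj_of_alive hpa
  have hadjg : G.Adj g.1 g.2 := h0.st_adj_of_alive hga
  have hneswap : ∀ q : V × V, G.Adj q.1 q.2 → t q ≠ t q.swap := by
    intro q hq h3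
    have h4 := ht q q.swap hq hq.symm h3
    exact hq.ne (congrArg Prod.fst h4)
  -- representatives
  obtain ⟨d1, hd1, hd1t⟩ : ∃ d1, (d1 = p ∨ d1 = p.swap) ∧ t d1 < t d1.swap := by
    rcases lt_or_gt_of_ne (hneswap p hadjp) with h3 | h3
    · exact ⟨p, Or.inl rfl, h3⟩
    · exact ⟨p.swap, Or.inr rfl, by rwa [Prod.swap_swap]⟩
  obtain ⟨d2, hd2, hd2t⟩ : ∃ d2, (d2 = g ∨ d2 = g.swap) ∧ t d2 < t d2.swap := by
    rcases lt_or_gt_of_ne (hneswap g hadjg) with h3 | h3
    · exact ⟨g, Or.inl rfl, h3⟩
    · exact ⟨g.swap, Or.inr rfl, by rwa [Prod.swap_swap]⟩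
  have hpg : p ≠ g := by
    intro h3
    have h4 : p.2 ∈ (σ p.2).comp := h0.mem _
    have h5 := o12_ne_comp hG h0 hpa
    apply h5
    rw [← h3] at hg1
    rw [← (h0.eqv p.2 p.1 hg1).1] at h4
    exact h4
  have hd12 : d1 ≠ d2 := by
    rcases hd1 with rfl | rfl <;> rcases hd2 with rfl | rfl
    · exact hpg
    · intro h3
      apply hg
      rw [h3, Prod.swap_swap]
    · exact Ne.symm hg
    · intro h3
      exact hpg (Prod.swap_injective h3)
  have hset : hotSet O t σ v = {d1, d2} := by
    ext d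
    simp only [Set.mem_insert_iff, Set.mem_singleton_iff]
    constructor
    · rintro ⟨h3, h4, h5⟩
      have key : d = p ∨ d = p.swap ∨ d = g ∨ d = g.swap := by
        have h6 : d ∈ (σ d.1).ports := h4.1
        have h7 : opd O d := h4.2.2.1
        rcases hreg _ h3 with h8 | h8 | h8
        · rw [(h0.eqv _ _ h8).2.1] at h6
          exact Or.inl (aA _ h6 h7)
        · rw [(h0.eqv _ _ h8).2.1] at h6
          rcases aW _ h6 with h9 | h9
          · exact Or.inr (Or.inl h9)
          · exact Or.inr (Or.inr (Or.inl h9))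
        · rw [(h0.eqv _ _ h8).2.1] at h6
          exact Or.inr (Or.inr (Or.inr (aZ _ h6 h7)))
      have comb : ∀ a b : V × V, (b = a ∨ b = a.swap) → t b < t b.swap →
          (d = a ∨ d = a.swap) → d = b := by
        intro a b hb hbt hda
        rcases hb with rfl | rfl <;> rcases hda with rfl | rfl
        · rfl
        · rw [Prod.swap_swap] at h5
          exact absurd h5 (not_lt.2 hbt.le)
        · rw [Prod.swap_swap] at hbt
          exact absurd h5 (not_lt.2 hbt.le)
        · rfl
      rcases key with h6 | h6 | h6 | h6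
      · exact Or.inl (comb p d1 hd1 hd1t (Or.inl h6))
      · exact Or.inl (comb p d1 hd1 hd1t (Or.inr h6))
      · exact Or.inr (comb g d2 hd2 hd2t (Or.inl h6))
      · exact Or.inr (comb g d2 hd2 hd2t (Or.inr h6))
    · rintro (rfl | rfl)
      · refine ⟨?_, ?_, hd1t⟩
        · rcases hd1 with rfl | rfl
          · exact hrp
          · exact hrp2
        · rcases hd1 with rfl | rfl
          · exact hhp
          · exact hhps
      · refine ⟨?_, ?_, hd2t⟩
        · rcases hd2 with rfl | rfl
          · exact hrg1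
          · exact hrg2
        · rcases hd2 with rfl | rfl
          · exact hhg
          · exact hhgs
  have hf : (hotSet O t σ v).Finite := by
    rw [hset]
    exact Set.toFinite _
  have hS : hf.toFinset = {d1, d2} := by
    ext d
    rw [Set.Finite.mem_toFinset, hset]
    simp
  -- the start of the run
  have cA : ∀ u ∈ (σ v).comp, (chill O σ u).ports = (σ v).ports ∧ (chill O σ u).spec = ∅ := by
    intro u hu
    have e1 := h0.eqv v u hu
    have h3 := o12_chill_eq (σ := σ) (O := O) (v := u) (h0.spec_sub u) (by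
      intro q hq ho
      rw [e1.2.1] at hq
      rw [aA q hq ho]
      exact hhp)
    rw [h3.1, h3.2, e1.2.1, e1.2.2, hv]
    exact ⟨rfl, rfl⟩
  have cW : ∀ u ∈ (σ p.2).comp, (chill O σ u).ports = {p.swap, g} ∧ (chill O σ u).spec = ∅ := by
    intro u hu
    have e1 := h0.eqv _ u hu
    have h3 := o12_chill_eq (σ := σ) (O := O) (v := u) (h0.spec_sub u) (by
      intro q hq ho
      rw [e1.2.1] at hq
      rcases aW q hq with rfl | rfl
      · exact hhps
      · exact hhg)
    rw [h3.1, h3.2, e1.2.1, e1.2.2, hw, hwp]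
    exact ⟨rfl, rfl⟩
  have cZ : ∀ u ∈ (σ g.2).comp, (chill O σ u).ports = (σ g.2).ports ∧ (chill O σ u).spec = ∅ := by
    intro u hu
    have e1 := h0.eqv _ u hu
    have h3 := o12_chill_eq (σ := σ) (O := O) (v := u) (h0.spec_sub u) (by
      intro q hq ho
      rw [e1.2.1] at hq
      rw [aZ q hq ho]
      exact hhgs)
    rw [h3.1, h3.2, e1.2.1, e1.2.2, hz]
    exact ⟨rfl, rfl⟩
  have hAZ : g.2 ∉ (σ v).comp := by
    intro h3
    have h4 := hgs
    rw [(h0.eqv v g.2 h3).2.1] at h4
    have h5 := aA _ h4 ((st_opd_swap O g).2 hog)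
    apply hg
    rw [← h5, Prod.swap_swap]
  have hAW : p.2 ∉ (σ v).comp := by
    intro h3
    apply o12_ne_comp hG h0 hpa
    rw [eA.1]
    exact h3
  have hWZ : g.2 ∉ (σ p.2).comp := by
    intro h3
    apply o12_ne_comp hG h0 hga
    rw [eW.1]
    exact h3
  -- final ports
  set FP : Finset (V × V) := (σ v).ports.erase p ∪ (σ g.2).ports.erase g.swap with hFP
  have hgA : g ∉ (σ v).ports.erase p := by
    intro h3
    have h4 := (h0.tail v g (Finset.mem_of_mem_erase h3)).1
    apply hAW
    have e2 := (h0.eqv v g.1 h4).1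
    rw [← e2, eW.1]
    exact h0.mem _
  have hpZ : p.swap ∉ (σ g.2).ports.erase g.swap := by
    intro h3
    have h4 := (h0.tail _ p.swap (Finset.mem_of_mem_erase h3)).1
    have h4' : p.2 ∈ (σ g.2).comp := h4
    apply hWZ
    rw [(h0.eqv g.2 p.2 h4').1]
    exact h0.mem _
  -- the invariant of the run
  let P : Finset (V × V) → St V → Prop := fun S τ => WF0 G τ ∧
    ((S = {d1, d2} ∧ τ = chill O σ) ∨
     (S = {d2} ∧ (τ g.1).ports = (σ v).ports.erase p ∪ {g} ∧ (τ g.1).spec = {g} ∧
        v ∈ (τ g.1).comp ∧ (τ g.2).ports = (σ g.2).ports ∧ (τ g.2).spec = ∅) ∨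
     (S = {d1} ∧ (τ p.2).ports = (σ g.2).ports.erase g.swap ∪ {p.swap} ∧ (τ p.2).spec = {p.swap} ∧
        v ∈ (τ p.1).comp ∧ (τ p.1).ports = (σ v).ports ∧ (τ p.1).spec = ∅) ∨
     (S = ∅ ∧ (τ v).ports = FP ∧ (τ v).spec = ∅))
  have hcW0 : WF0 G (chill O σ) := chill_WF0 hG h0 O
  have hcp : alive (chill O σ) p := by
    unfold alive
    rw [(cA p.1 hp1).1]
    exact hp
  have hcg : alive (chill O σ) g := by
    unfold alive
    rw [(cW g.1 hg1).1]
    simp
  have hstart : P {d1, d2} (chill O σ) := ⟨hcW0, Or.inl ⟨rfl, rfl⟩⟩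
  have hstep : ∀ S τ d, d ∈ S → (∀ d' ∈ S, d' ≠ d → t d < t d') → P S τ →
      P (S.erase d) (op τ d) := by
    rintro S τ d hd - ⟨hτ, hP⟩
    refine ⟨op_WF0 hG hτ d, ?_⟩
    rcases hP with ⟨hS1, hτ1⟩ | ⟨hS1, h3, h4, h5, h6, h7⟩ | ⟨hS1, h3, h4, h5, h6, h7⟩ | ⟨hS1, -, -⟩
    · rw [hτ1]
      rw [hS1, Finset.mem_insert, Finset.mem_singleton] at hd
      rcases hd with rfl | rfl
      · -- first the edge of `p`
        right; left
        have hab := fun u hu => o12_absorb (τ := chill O σ) (x := p) (z := g) hcW0 hcp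
          (cA p.1 hp1).2 (by rw [(cA p.1 hp1).1]; exact hv3) (cW p.2 (h0.mem _)).1 hg
          (cW p.2 (h0.mem _)).2 (e := d) hd1 (u := u) hu
        have hg1' : g.1 ∈ (chill O σ p.1).comp ∨ g.1 ∈ (chill O σ p.2).comp := Or.inr hg1
        obtain ⟨a1, a2, a3⟩ := hab g.1 hg1'
        refine ⟨?_, ?_, a2, ?_, ?_, ?_⟩
        · rw [hS1, Finset.erase_insert]
          rw [Finset.mem_singleton]
          exact hd12
        · rw [a1, (cA p.1 hp1).1]
        · rw [a3]
          apply Finset.mem_union_left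
          show v ∈ (σ p.1).comp
          rw [eA.1]
          exact h0.mem v
        · rw [st_op_other, (cZ g.2 (h0.mem _)).1]
          · rcases hd1 with rfl | rfl
            · show g.2 ∉ (σ d.1).comp
              rw [eA.1]; exact hAZ
            · exact hWZ
          · rcases hd1 with rfl | rfl
            · exact hWZ
            · show g.2 ∉ (σ p.1).comp
              rw [eA.1]; exact hAZ
        · rw [st_op_other, (cZ g.2 (h0.mem _)).2]
          · rcases hd1 with rfl | rfl
            · show g.2 ∉ (σ d.1).comp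
              rw [eA.1]; exact hAZ
            · exact hWZ
          · rcases hd1 with rfl | rfl
            · exact hWZ
            · show g.2 ∉ (σ p.1).comp
              rw [eA.1]; exact hAZ
      · -- first the edge of `g`
        right; right; left
        have hcgs : alive (chill O σ) g.swap := hcW0.st_alive_swap hcg
        have hWs : (chill O σ g.swap.2).ports = {g.swap.swap, p.swap} := by
          rw [Prod.swap_swap]
          show (chill O σ g.1).ports = _
          rw [(cW g.1 hg1).1, Finset.pair_comm]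
        have hd2' : d = g.swap ∨ d = g.swap.swap := by
          rw [Prod.swap_swap]
          exact hd2.symm
        have hab := fun u hu => o12_absorb (τ := chill O σ) (x := g.swap) (z := p.swap) hcW0 hcgs
          (cZ g.2 (h0.mem _)).2 (by
            show 3 ≤ (chill O σ g.2).ports.card
            rw [(cZ g.2 (h0.mem _)).1]; exact hz3) hWs
          (by rw [Prod.swap_swap]; exact Ne.symm hg)
          (cW g.1 hg1).2 (e := d) hd2' (u := u) hu
        have hp2' : p.2 ∈ (chill O σ g.swap.1).comp ∨ p.2 ∈ (chill O σ g.swap.2).comp := by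
          right
          show p.2 ∈ (σ g.1).comp
          rw [eW.1]
          exact h0.mem _
        obtain ⟨a1, a2, a3⟩ := hab p.2 hp2'
        have hnot1 : p.1 ∉ (σ g.1).comp := by
          rw [eW.1]
          intro h8
          apply hAW
          rw [← eA.1, (h0.eqv p.2 p.1 h8).1]
          exact h0.mem _
        have hnot2 : p.1 ∉ (σ g.2).comp := by
          intro h8
          apply hAZ
          rw [← eA.1, (h0.eqv g.2 p.1 h8).1]
          exact h0.mem _
        have hother : op (chill O σ) d p.1 = chill O σ p.1 := by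
          apply st_op_other
          · rcases hd2 with rfl | rfl
            · exact hnot1
            · exact hnot2
          · rcases hd2 with rfl | rfl
            · exact hnot2
            · exact hnot1
        refine ⟨?_, ?_, a2, ?_, ?_, ?_⟩
        · rw [hS1, Finset.pair_comm, Finset.erase_insert]
          rw [Finset.mem_singleton]
          exact Ne.symm hd12
        · rw [a1]
          show (chill O σ g.2).ports.erase g.swap ∪ {p.swap} = _
          rw [(cZ g.2 (h0.mem _)).1]
        · rw [hother]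
          show v ∈ (σ p.1).comp
          rw [eA.1]
          exact h0.mem v
        · rw [hother, (cA p.1 hp1).1]
        · rw [hother, (cA p.1 hp1).2]
    · -- then the edge of `g`
      right; right; right
      rw [hS1, Finset.mem_singleton] at hd
      subst hd
      have hal : alive τ g := by
        unfold alive
        rw [h3]
        simp
      have hc : ¬ (g ∈ (τ g.1).spec ↔ g.swap ∈ (τ g.2).spec) := by
        rw [h4, h7]
        simp
      obtain ⟨a1, a2⟩ := o12_merge hτ hal hc hd2 (Or.inl h5)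
      refine ⟨by rw [hS1, Finset.erase_singleton], ?_, ?_⟩
      · rw [a1, h3, h6, hFP]
        congr 1
        rw [Finset.union_comm, ← Finset.insert_eq, Finset.erase_insert hgA]
      · rw [a2, h4, h7]
        simp
    · -- then the edge of `p`
      right; right; right
      rw [hS1, Finset.mem_singleton] at hd
      subst hd
      have hal : alive τ p := by
        unfold alive
        rw [h6]
        exact hp
      have hc : ¬ (p ∈ (τ p.1).spec ↔ p.swap ∈ (τ p.2).spec) := by
        rw [h4, h7]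
        simp
      obtain ⟨a1, a2⟩ := o12_merge hτ hal hc hd1 (Or.inl h5)
      refine ⟨by rw [hS1, Finset.erase_singleton], ?_, ?_⟩
      · rw [a1, h3, h6, hFP]
        congr 1
        rw [Finset.union_comm, ← Finset.insert_eq, Finset.erase_insert hpZ]
      · rw [a2, h4, h7]
        simp
    · rw [hS1] at hd
      exact absurd hd (Finset.notMem_empty d)
  have hend := st_run_full (P := P) t hstep ({d1, d2} : Finset (V × V)).card {d1, d2} (chill O σ)
    rfl (by
      intro a ha b hb hab
      rw [Finset.mem_insert, Finset.mem_singleton] at ha hb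
      have adj1 : G.Adj d1.1 d1.2 := by
        rcases hd1 with rfl | rfl
        · exact hadjp
        · exact hadjp.symm
      have adj2 : G.Adj d2.1 d2.2 := by
        rcases hd2 with rfl | rfl
        · exact hadjg
        · exact hadjg.symm
      rcases ha with rfl | rfl <;> rcases hb with rfl | rfl
      · rfl
      · exact ht _ _ adj1 adj2 hab
      · exact ht _ _ adj2 adj1 hab
      · rfl) hstart
  have hfin : ((run t ({d1, d2} : Finset (V × V)).card {d1, d2} (chill O σ)) v).ports = FP ∧
      ((run t ({d1, d2} : Finset (V × V)).card {d1, d2} (chill O σ)) v).spec = ∅ := by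
    obtain ⟨-, hP⟩ := hend
    rcases hP with ⟨hS1, -⟩ | ⟨hS1, -⟩ | ⟨hS1, -⟩ | ⟨-, h3, h4⟩
    · exact absurd hS1.symm (Finset.insert_ne_empty _ _)
    · exact absurd hS1.symm (Finset.singleton_ne_empty _)
    · exact absurd hS1.symm (Finset.singleton_ne_empty _)
    · exact ⟨h3, h4⟩
  have hst : step O t σ v = post O (run t ({d1, d2} : Finset (V × V)).card {d1, d2} (chill O σ) v) := by
    unfold step
    rw [dif_pos hf, hS]
  have hFPun : FP.filter (fun q => ¬ opd O q) = FP := by
    apply Finset.filter_true_of_mem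
    intro q hq
    rw [hFP, Finset.mem_union] at hq
    rcases hq with hq | hq
    · rw [Finset.mem_erase] at hq
      exact hv' q hq.2 hq.1
    · rw [Finset.mem_erase] at hq
      exact hz' q hq.2 hq.1
  have hports : (step O t σ v).ports = FP := by
    rw [hst]
    show (run t _ _ (chill O σ) v).ports.filter _ = _
    rw [hfin.1, hFPun]
  refine ⟨?_, hports, ?_⟩
  · rw [hst]
    show (run t _ _ (chill O σ) v).spec.filter _ = _
    rw [hfin.2]
    simp
  · rw [hports, hFP, Finset.card_union_of_disjoint, Finset.card_erase_of_mem hp,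
      Finset.card_erase_of_mem hgs]
    · omega
    · rw [Finset.disjoint_left]
      intro q hq hq'
      have h3 := (h0.tail v q (Finset.mem_of_mem_erase hq)).1
      have h4 := (h0.tail g.2 q (Finset.mem_of_mem_erase hq')).1
      apply hAZ
      rw [← (h0.eqv v q.1 h3).1, (h0.eqv g.2 q.1 h4).1]
      exact h0.mem _

end Pool.Agent.PM
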