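import Pool.Agent.Lib.MP_947a32_pr.Clu
import Pool.Agent.Lib.MP_947a32_pr.Out3
import Pool.Agent.Lib.MP_947a32_pr.Out12
import Pool.Agent.Lib.MP_947a32_pr.RfxA

set_option autoImplicit false

open Classical MeasureTheory
open scoped ENNReal

namespace Pool.Agent.PM

variable {V : Type} {G : SimpleGraph V}


/-! ## Piece PW: pointwise inequalities, `D` = head comp of `e`, edge of `e` not opened -/
section PW

/-- standing hypotheses of the pointwise inequalities -/
structure PH (G : SimpleGraph V) (O : Set (V × V)) (t : V × V → ℝ) (σ : St V) (e : V × V) : Prop where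
  tree : G.IsTree
  wf : WF G σ
  rf : RF O σ Set.univ
  ti : TI G t
  alv : alive σ e
  nop : ¬ opd O e

variable {O : Set (V × V)} {t : V × V → ℝ} {σ : St V} {e : V × V}

/-! ### generalities -/

theorem pw_ind_true {P : Prop} (h : P) : ind P = 1 := by simp [ind, h]

theorem pw_ind_false {P : Prop} (h : ¬ P) : ind P = 0 := by simp [ind, h]

theorem pw_ind_le_one (P : Prop) : ind P ≤ 1 := by
  unfold ind; split_ifs <;> simp

theorem pw_ind_mono {P Q : Prop} (h : P → Q) : ind P ≤ ind Q := by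
  unfold ind
  split_ifs with h1 h2 h2
  · exact le_rfl
  · exact absurd (h h1) h2
  · exact zero_le
  · exact le_rfl

theorem pw_one_le_sum {ι : Type} {s : Finset ι} {f : ι → ℝ≥0∞} {i : ι} (hi : i ∈ s)
    (hf : 1 ≤ f i) : 1 ≤ ∑ j ∈ s, f j :=
  hf.trans (Finset.single_le_sum (f := f) (fun _ _ => zero_le) hi)

theorem pw_xw_le_one (L : Loc V) : xw L ≤ 1 := by
  unfold xw
  split_ifs with h
  · apply ENNReal.div_le_of_le_mul
    rw [one_mul]
    exact_mod_cast Nat.sub_le _ _
  · exact zero_le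

theorem pw_opd_swap (O : Set (V × V)) (d : V × V) : opd O d.swap ↔ opd O d := by
  unfold opd
  rw [Prod.swap_swap]
  exact Or.comm

theorem pw_NN_ge (O : Set (V × V)) (σ : St V) (p : V × V) : 1 ≤ NN O σ p := by
  unfold NN
  exact le_iSup_of_le 0 (by simp [Nn])

/-! ### the head comp of `e` -/

theorem pw_mem (h : PH G O t σ e) : e.swap ∈ (σ e.2).ports :=
  h.wf.toWF0.swap _ _ h.alv

theorem pw_nO (h : PH G O t σ e) : e.swap ∉ O := fun hh => h.nop (Or.inr hh)

theorem pw_nopd (h : PH G O t σ e) : ¬ opd O e.swap := fun hh =>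
  h.nop ((pw_opd_swap O e).1 hh)

theorem pw_ordp (h : PH G O t σ e) : 3 ≤ (ordp (σ e.2)).card := by
  by_contra hlt
  exact pw_nO h (h.rf.small e.2 (Set.mem_univ _) (by omega) _ (pw_mem h))

theorem pw_kept (h : PH G O t σ e) :
    ((σ e.2).ports.filter (fun q => q ∉ O)).card = min (ordp (σ e.2)).card 7 := by
  rcases h.rf.large e.2 (Set.mem_univ _) (pw_ordp h) with h1 | h1
  · exact absurd (h1 _ (pw_mem h)) (pw_nO h)
  · exact h1

theorem pw_passS_pass (h : PH G O t σ e) (hp : passS (σ e.2)) : pass O (σ e.2) := by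
  refine ⟨hp, ?_⟩
  have hk := pw_kept h
  obtain ⟨h1, h2, h3⟩ := hp
  have ho : ordp (σ e.2) = (σ e.2).ports := by simp [ordp, h1]
  rw [ho, min_eq_left h3] at hk
  have := Finset.filter_card_eq hk
  exact this

theorem pw_not_pass (h : PH G O t σ e) (hp : ¬ pass O (σ e.2)) : ¬ passS (σ e.2) :=
  fun h1 => hp (pw_passS_pass h h1)

/-- the general facts on a state-passive neighbour comp, etc.: a proposing comp without flips is
a wire, `allop` or big -/
theorem pw_prop_cases (hR : RF O σ Set.univ) {x : V} {q : V × V} (hq : q ∈ (σ x).ports)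
    (hqO : q ∈ O) (hs : (σ x).spec = ∅) (h2 : 2 ≤ (σ x).ports.card) :
    (σ x).ports.card = 2 ∨ allop O (σ x) ∨ big (σ x) := by
  have ho : ordp (σ x) = (σ x).ports := by simp [ordp, hs]
  rcases Nat.lt_or_ge (σ x).ports.card 3 with h3 | h3
  · left; omega
  right
  rcases hR.large x (Set.mem_univ _) (by rw [ho]; exact h3) with h1 | h1
  · left
    exact ⟨by rw [ho]; exact h3, h1⟩
  · right
    refine ⟨hs, ?_⟩
    by_contra hlt
    rw [ho, min_eq_left (by omega)] at h1
    exact Finset.filter_card_eq h1 q hq hqO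

theorem pw_unop_bu {p : V × V} (hp : opd O p) : unop O (σ p.2) = bu O σ p := by
  unfold unop bu onw
  ext q
  simp only [Finset.mem_filter, Finset.mem_erase]
  constructor
  · rintro ⟨h1, h2⟩
    refine ⟨⟨?_, h1⟩, h2⟩
    rintro rfl
    exact h2 ((pw_opd_swap O p).2 hp)
  · rintro ⟨⟨_, h1⟩, h2⟩
    exact ⟨h1, h2⟩

theorem pw_onw_mem {p : V × V} (hp : p ∈ onw σ e) : p ∈ (σ e.2).ports :=
  Finset.mem_of_mem_erase hp

theorem pw_ports_cases {p : V × V} (hp : p ∈ (σ e.2).ports) : p = e.swap ∨ p ∈ onw σ e := by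
  by_cases h : p = e.swap
  · exact Or.inl h
  · exact Or.inr (Finset.mem_erase.2 ⟨h, hp⟩)

theorem pw_passive_opd (hp : pass O (σ e.2)) {p : V × V} (h1 : p ∈ (σ e.2).ports)
    (h2 : opd O p) : p.swap ∈ O := by
  rcases h2 with h2 | h2
  · exact absurd h2 (hp.2 p h1)
  · exact h2

/-- sum over ports with the hot indicator = sum over onward ports -/
theorem pw_sum_hot (h : PH G O t σ e) (F : V × V → ℝ≥0∞) :
    ∑ p ∈ (σ e.2).ports, ind (hot O σ p) * F p = ∑ p ∈ onw σ e, ind (hot O σ p) * F p := by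
  unfold onw
  rw [← Finset.add_sum_erase _ _ (pw_mem h)]
  have : ¬ hot O σ e.swap := fun hh => pw_nopd h hh.2.2.1
  rw [pw_ind_false this, zero_mul, zero_add]

/-- `P0`: passive, not hit -/
theorem pw_P0 (h : PH G O t σ e) (hp : pass O (σ e.2))
    (hh : ∀ p ∈ onw σ e, p.swap ∉ O) :
    (step O t σ e.2).ports = (σ e.2).ports ∧ (step O t σ e.2).spec = ∅ := by
  have hno : ∀ p ∈ (σ e.2).ports, ¬ opd O p := by
    intro p hpp ho
    rcases pw_ports_cases hpp with rfl | h1
    · exact pw_nopd h ho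
    · exact hh p h1 (pw_passive_opd hp hpp ho)
  obtain ⟨_, h1, h2, _⟩ := out1 h.tree h.wf.toWF0 O t e.2
    (fun p hpp hot' => hno p hpp hot'.2.2.1)
  refine ⟨?_, ?_⟩
  · rw [h1, unop, Finset.filter_true_of_mem hno]
  · rw [h2, hp.1.1]; simp

/-- the possible situations of a passive head comp -/
theorem pw_P (h : PH G O t σ e) (hp : pass O (σ e.2)) :
    ((step O t σ e.2).ports = (σ e.2).ports ∧ (step O t σ e.2).spec = ∅) ∨
    1 ≤ BadP O σ e ∨
    (∃ p ∈ onw σ e, wire (σ p.2) ∧ ∃ g ∈ onw σ p, passS (σ g.2) ∧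
      (step O t σ e.2).ports.card + 2 = (σ e.2).ports.card + (σ g.2).ports.card) ∨
    (∃ p ∈ onw σ e, p.swap ∈ O ∧ big (σ p.2) ∧
      (step O t σ e.2).ports.card + 1 = (σ e.2).ports.card) := by
  by_cases h0 : ∀ p ∈ onw σ e, p.swap ∉ O
  · exact Or.inl (pw_P0 h hp h0)
  push Not at h0
  obtain ⟨p, hpo, hpO⟩ := h0
  right
  by_cases h2 : ∃ q ∈ (onw σ e).erase p, q.swap ∈ O
  · -- two hits
    left
    obtain ⟨q, hq, hqO⟩ := h2
    have hh : (1 : ℝ≥0∞) ≤ hit2 O σ e := by
      unfold hit2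
      exact pw_one_le_sum hpo (pw_one_le_sum hq
        (by rw [pw_ind_true hpO, pw_ind_true hqO, one_mul]))
    unfold BadP
    refine hh.trans ?_
    simp only [add_assoc]
    exact le_self_add
  push Not at h2
  have hpp := pw_onw_mem hpo
  have hpne : p ≠ e.swap := (Finset.mem_erase.1 hpo).1
  have hps : p.swap ∈ (σ p.2).ports := by
    have := h.wf.toWF0.swap e.2 p hpp
    exact this
  have hop : opd O p := Or.inr hpO
  have hno : ∀ q ∈ (σ e.2).ports, q ≠ p → ¬ opd O q := by
    intro q hq hne ho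
    rcases pw_ports_cases hq with rfl | h1
    · exact pw_nopd h ho
    · exact h2 q (Finset.mem_erase.2 ⟨hne, h1⟩) (pw_passive_opd hp hq ho)
  by_cases hs : (σ p.2).spec = ∅
  swap
  · left
    have : (1 : ℝ≥0∞) ≤ ∑ p ∈ onw σ e, ind (p.swap ∈ O ∧ (σ p.2).spec ≠ ∅) :=
      pw_one_le_sum hpo (by rw [pw_ind_true ⟨hpO, hs⟩])
    unfold BadP
    refine this.trans ?_
    calc _ ≤ hit2 O σ e + ∑ p ∈ onw σ e, ind (p.swap ∈ O ∧ (σ p.2).spec ≠ ∅) := le_add_self
      _ ≤ _ := by simp only [add_assoc]; gcongr; exact le_self_add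
  rcases pw_prop_cases h.rf hps hpO hs (h.wf.two _) with hw | ha | hb
  · -- wire
    have hwire : wire (σ p.2) := ⟨hs, hw⟩
    obtain ⟨g, hg, hports⟩ : ∃ g, g ≠ p.swap ∧ (σ p.2).ports = {p.swap, g} := by
      obtain ⟨a, b, hab, hp2⟩ := Finset.card_eq_two.1 hw
      rw [hp2] at hps
      rcases Finset.mem_insert.1 hps with h3 | h3
      · exact ⟨b, by rw [h3]; exact hab.symm, by rw [hp2, h3]⟩
      · rw [Finset.mem_singleton] at h3
        exact ⟨a, by rw [h3]; exact hab, by rw [hp2, h3, Finset.pair_comm]⟩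
    have hgm : g ∈ (σ p.2).ports := by rw [hports]; simp
    have hgo : g ∈ onw σ p := Finset.mem_erase.2 ⟨hg, hgm⟩
    by_cases hz : pass O (σ g.2) ∧ ∀ q ∈ onw σ g, q.swap ∉ O
    · right; left
      have hgO : g ∈ O := by
        apply h.rf.small p.2 (Set.mem_univ _) _ g hgm
        have : ordp (σ p.2) ⊆ (σ p.2).ports := Finset.sdiff_subset
        exact (Finset.card_le_card this).trans hw.le
      obtain ⟨hz1, hz2⟩ := hz
      have hgo' : opd O g := Or.inl hgO
      obtain ⟨h5, h6, h7⟩ := out2 h.tree h.wf h.ti (v := e.2) (p := p) (g := g) hp.1.1 hp.1.2.1 hpp hno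
        hs hg hports hop hgo' hz1.1.1 hz1.1.2.1 (by
          intro q hq hne ho
          rcases ho with ho | ho
          · exact hz1.2 q hq ho
          · exact hz2 q (Finset.mem_erase.2 ⟨hne, hq⟩) ho)
      exact ⟨p, hpo, hwire, g, hgo, hz1.1, h7⟩
    · left
      have hzb : 1 ≤ zb O σ g := by
        unfold zb
        by_cases hz1 : pass O (σ g.2)
        · rw [pw_ind_true hz1, one_mul]
          have hz2 : ∃ q ∈ onw σ g, q.swap ∈ O := by
            by_contra hcon
            push Not at hcon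
            exact hz ⟨hz1, hcon⟩
          obtain ⟨q, hq, hqO⟩ := hz2
          exact le_add_left (pw_one_le_sum hq (by rw [pw_ind_true hqO]))
        · rw [pw_ind_true hz1]
          exact le_self_add
      have : (1 : ℝ≥0∞) ≤ ∑ p ∈ onw σ e, ind (wire (σ p.2)) * ∑ g ∈ onw σ p, zb O σ g := by
        apply pw_one_le_sum hpo
        rw [pw_ind_true hwire, one_mul]
        exact pw_one_le_sum hgo hzb
      unfold BadP
      exact this.trans le_add_self
  · left
    have : (1 : ℝ≥0∞) ≤ ∑ p ∈ onw σ e, ind (p.swap ∈ O ∧ allop O (σ p.2)) :=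
      pw_one_le_sum hpo (by rw [pw_ind_true ⟨hpO, ha⟩])
    unfold BadP
    refine this.trans ?_
    calc _ ≤ hit2 O σ e + ∑ p ∈ onw σ e, ind (p.swap ∈ O ∧ (σ p.2).spec ≠ ∅) +
        ∑ p ∈ onw σ e, ind (p.swap ∈ O ∧ allop O (σ p.2)) := le_add_self
      _ ≤ _ := by
        rw [add_assoc (hit2 O σ e + _ + _)]
        exact le_self_add
  · by_cases htr : tr O σ p
    · left
      have : (1 : ℝ≥0∞) ≤ ∑ p ∈ onw σ e, ind (p.swap ∈ O ∧ big (σ p.2) ∧ tr O σ p) :=
        pw_one_le_sum hpo (by rw [pw_ind_true ⟨hpO, hb, htr⟩])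
      unfold BadP
      refine this.trans ?_
      calc _ ≤ hit2 O σ e + ∑ p ∈ onw σ e, ind (p.swap ∈ O ∧ (σ p.2).spec ≠ ∅) +
          ∑ p ∈ onw σ e, ind (p.swap ∈ O ∧ allop O (σ p.2)) +
          ∑ p ∈ onw σ e, ind (p.swap ∈ O ∧ big (σ p.2) ∧ tr O σ p) := le_add_self
        _ ≤ _ := le_self_add
    · right; right
      -- no hot port
      have hunop : unop O (σ e.2) = (σ e.2).ports.erase p := by
        unfold unop
        ext q
        simp only [Finset.mem_filter, Finset.mem_erase]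
        constructor
        · rintro ⟨h3, h4⟩
          refine ⟨?_, h3⟩
          rintro rfl
          exact h4 hop
        · rintro ⟨h3, h4⟩
          exact ⟨h4, hno q h4 h3⟩
      have hcard : (unop O (σ e.2)).card + 1 = (σ e.2).ports.card := by
        rw [hunop, Finset.card_erase_of_mem hpp]
        have := hp.1.2.1
        omega
      have hnh : ∀ q ∈ (σ e.2).ports, ¬ hot O σ q := by
        intro q hq hhot
        by_cases hqp : q = p
        · subst hqp
          rcases (hot_cases h.wf.toWF0 hq hhot).2 with h3 | h3 | h3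
          · rw [hp.1.1] at h3; simp at h3
          · have := hp.1.2.1
            omega
          · exact htr h3
        · exact hno q hq hqp hhot.2.2.1
      obtain ⟨_, h5, _, _⟩ := out1 h.tree h.wf.toWF0 O t e.2 hnh
      exact ⟨p, hpo, hpO, hb, by rw [h5]; exact hcard⟩

/-- the possible situations of a non-passive head comp -/
theorem pw_R (h : PH G O t σ e) (hp : ¬ pass O (σ e.2)) :
    ((σ e.2).spec ≠ ∅ ∨ (∃ p ∈ onw σ e, p ∉ O ∧ p.swap ∈ O) ∨ (∃ p ∈ onw σ e, p ∈ O ∧ tr O σ p)) ∨
    ((step O t σ e.2).ports.card = 7 ∧ (step O t σ e.2).spec = ∅) := by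
  by_cases hs : (σ e.2).spec = ∅
  swap
  · exact Or.inl (Or.inl hs)
  by_cases h1 : ∃ p ∈ onw σ e, p ∉ O ∧ p.swap ∈ O
  · exact Or.inl (Or.inr (Or.inl h1))
  by_cases h2 : ∃ p ∈ onw σ e, p ∈ O ∧ tr O σ p
  · exact Or.inl (Or.inr (Or.inr h2))
  right
  push Not at h1 h2
  have ho : ordp (σ e.2) = (σ e.2).ports := by simp [ordp, hs]
  have h3 : 3 ≤ (σ e.2).ports.card := by have := pw_ordp h; rwa [ho] at this
  have h8 : 8 ≤ (σ e.2).ports.card := by
    by_contra hlt
    exact pw_not_pass h hp ⟨hs, h3, by omega⟩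
  have hk := pw_kept h
  rw [ho, min_eq_right (by omega)] at hk
  have hunop : unop O (σ e.2) = (σ e.2).ports.filter (fun q => q ∉ O) := by
    unfold unop
    apply Finset.filter_congr
    intro q hq
    rw [not_iff_not]
    constructor
    · rintro (h4 | h4)
      · exact h4
      · rcases pw_ports_cases hq with rfl | h5
        · exact absurd (Or.inr h4) (pw_nopd h)
        · by_contra h6
          exact h1 q h5 h6 h4
    · intro h4; exact Or.inl h4
  have hnh : ∀ q ∈ (σ e.2).ports, ¬ hot O σ q := by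
    intro q hq hhot
    obtain ⟨h4, h5⟩ := hot_cases h.wf.toWF0 hq hhot
    rcases pw_ports_cases hq with rfl | h6
    · exact pw_nopd h h4
    have h7 : q ∈ O := by
      rcases h4 with h4 | h4
      · exact h4
      · by_contra h8'
        exact h1 q h6 h8' h4
    rcases h5 with h5 | h5 | h5
    · rw [hs] at h5; simp at h5
    · rw [hunop, hk] at h5; omega
    · exact h2 q h6 h7 h5
  obtain ⟨_, h5, h6, _⟩ := out1 h.tree h.wf.toWF0 O t e.2 hnh
  refine ⟨by rw [h5, hunop, hk], ?_⟩
  rw [h6, hs]; simp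

theorem pw_R_bad (h : PH G O t σ e) (hp : ¬ pass O (σ e.2))
    (hc : (σ e.2).spec ≠ ∅ ∨ (∃ p ∈ onw σ e, p ∉ O ∧ p.swap ∈ O) ∨
      (∃ p ∈ onw σ e, p ∈ O ∧ tr O σ p)) : 1 ≤ Bad O σ e := by
  unfold Bad
  rw [pw_ind_true (P := ¬ pass O (σ e.2) ∧ e.swap ∉ O) ⟨hp, pw_nO h⟩, one_mul]
  refine le_add_left ?_
  unfold BadR
  rcases hc with hc | ⟨p, h1, h2, h3⟩ | ⟨p, h1, h2, h3⟩
  · rw [pw_ind_true hc, add_assoc]
    exact le_self_add
  · have : (1 : ℝ≥0∞) ≤ ∑ p ∈ onw σ e, ind (p ∉ O) * ind (p.swap ∈ O) :=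
      pw_one_le_sum h1 (by rw [pw_ind_true h2, pw_ind_true h3, one_mul])
    refine this.trans ?_
    rw [add_right_comm]
    exact le_add_self
  · have : (1 : ℝ≥0∞) ≤ ∑ p ∈ onw σ e, ind (p ∈ O) * ind (tr O σ p) :=
      pw_one_le_sum h1 (by rw [pw_ind_true h2, pw_ind_true h3, one_mul])
    exact this.trans le_add_self

theorem pw_P_bad (hp : pass O (σ e.2)) (hb : 1 ≤ BadP O σ e) : 1 ≤ Bad O σ e := by
  unfold Bad
  rw [pw_ind_true hp, one_mul]
  exact le_add_right hb

theorem pw_wire (h : PH G O t σ e) :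
    ind (wire (step O t σ e.2)) ≤
      ind (thr (σ e.2)) * ∑ p ∈ onw σ e, ind (p.swap ∈ O ∧ big (σ p.2)) + Bad O σ e := by
  by_cases hw : wire (step O t σ e.2)
  swap
  · rw [pw_ind_false hw]; exact zero_le
  rw [pw_ind_true hw]
  by_cases hp : pass O (σ e.2)
  · rcases pw_P h hp with ⟨h1, _⟩ | h1 | ⟨p, hp1, hp2, g, hg1, hg2, hg3⟩ | ⟨p, hp1, hp2, hp3, hp4⟩
    · exfalso
      have := hw.2
      rw [h1] at this
      have := hp.1.2.1
      omega
    · exact le_add_left (pw_P_bad hp h1)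
    · exfalso
      have h1 := hw.2
      have h2 := hp.1.2.1
      have h3 := hg2.2.1
      omega
    · apply le_add_right
      have h1 := hw.2
      have h3 : thr (σ e.2) := ⟨hp.1, by omega⟩
      rw [pw_ind_true h3, one_mul]
      exact pw_one_le_sum hp1 (by rw [pw_ind_true ⟨hp2, hp3⟩])
  · rcases pw_R h hp with h1 | ⟨h1, _⟩
    · exact le_add_left (pw_R_bad h hp h1)
    · exfalso
      have := hw.2
      omega

theorem pw_xw (h : PH G O t σ e) :
    xw (step O t σ e.2) ≤
      ind (passS (σ e.2)) * (∑ p ∈ onw σ e, ind (wire (σ p.2)) *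
        ∑ g ∈ onw σ p, ind (passS (σ g.2)) * phi2 (σ e.2).ports.card (σ g.2).ports.card) +
      Bad O σ e := by
  by_cases hp : pass O (σ e.2)
  · rcases pw_P h hp with ⟨h1, _⟩ | h1 | ⟨p, hp1, hp2, g, hg1, hg2, hg3⟩ | ⟨p, hp1, hp2, hp3, hp4⟩
    · have : ¬ big (step O t σ e.2) := by
        intro hb
        have h2 := hb.2
        rw [h1] at h2
        have := hp.1.2.2
        omega
      simp [xw, this]
    · exact le_add_left ((pw_xw_le_one _).trans (pw_P_bad hp h1))
    · apply le_add_right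
      rw [pw_ind_true hp.1, one_mul]
      refine le_trans ?_ (Finset.single_le_sum (f := fun p => ind (wire (σ p.2)) *
        ∑ g ∈ onw σ p, ind (passS (σ g.2)) * phi2 (σ e.2).ports.card (σ g.2).ports.card)
        (fun _ _ => zero_le) hp1)
      rw [pw_ind_true hp2, one_mul]
      refine le_trans ?_ (Finset.single_le_sum (f := fun g => ind (passS (σ g.2)) *
        phi2 (σ e.2).ports.card (σ g.2).ports.card) (fun _ _ => zero_le) hg1)
      rw [pw_ind_true hg2, one_mul]
      unfold xw phi2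
      split_ifs with hb
      · have e1 : (step O t σ e.2).ports.card - 7 =
            (σ e.2).ports.card + (σ g.2).ports.card - 9 := by omega
        have e2 : (step O t σ e.2).ports.card =
            (σ e.2).ports.card + (σ g.2).ports.card - 2 := by omega
        rw [e1, e2]
      · exact zero_le
    · have : ¬ big (step O t σ e.2) := by
        intro hb
        have h2 := hb.2
        have := hp.1.2.2
        omega
      simp [xw, this]
  · rcases pw_R h hp with h1 | ⟨h1, _⟩
    · exact le_add_left ((pw_xw_le_one _).trans (pw_R_bad h hp h1))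
    · have : ¬ big (step O t σ e.2) := by
        intro hb
        have h2 := hb.2
        omega
      simp [xw, this]

/-- at least two kept onward ports -/
theorem pw_two_kept (h : PH G O t σ e) :
    2 ≤ ((onw σ e).filter (fun q => q ∉ O)).card := by
  have hk := pw_kept h
  have h3 := pw_ordp h
  have : (onw σ e).filter (fun q => q ∉ O) =
      ((σ e.2).ports.filter (fun q => q ∉ O)).erase e.swap := by
    ext q
    simp only [onw, Finset.mem_filter, Finset.mem_erase]
    tauto
  rw [this, Finset.card_erase_of_mem, hk]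
  · have : 3 ≤ min (ordp (σ e.2)).card 7 := le_min h3 (by norm_num)
    omega
  · exact Finset.mem_filter.2 ⟨pw_mem h, pw_nO h⟩

/-- few unopened ports: some kept onward port is hit -/
theorem pw_few (h : PH G O t σ e) (hu : (unop O (σ e.2)).card ≤ 1) :
    ∃ p ∈ onw σ e, p ∉ O ∧ p.swap ∈ O := by
  by_contra hcon
  push Not at hcon
  have hsub : (onw σ e).filter (fun q => q ∉ O) ⊆ unop O (σ e.2) := by
    intro q hq
    obtain ⟨h1, h2⟩ := Finset.mem_filter.1 hq
    refine Finset.mem_filter.2 ⟨pw_onw_mem h1, ?_⟩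
    rintro (h3 | h3)
    · exact h2 h3
    · exact hcon q h1 h2 h3
  have := Finset.card_le_card hsub
  have := pw_two_kept h
  omega

theorem pw_spec (h : PH G O t σ e) :
    ((step O t σ e.2).spec.card : ℝ≥0∞) ≤
      ind (pass O (σ e.2)) * (hit2 O σ e + ∑ p ∈ onw σ e, ind (p.swap ∈ O) * CC O σ p) +
      ind (¬ passS (σ e.2)) * (∑ p ∈ onw σ e, ind (p ∉ O) * ind (p.swap ∈ O) +
        ∑ p ∈ onw σ e, (1 + ind (p.swap ∈ O)) * CC O σ p) := by
  have h6 := out6 h.tree h.wf O t e.2 (fun x _ q hq =>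
    Or.inl (h.rf.spec x (Set.mem_univ _) q hq))
  rw [pw_sum_hot h] at h6
  refine h6.trans ?_
  by_cases hp : pass O (σ e.2)
  · rw [pw_ind_true hp, one_mul]
    apply le_add_right
    gcongr with p hp1
    · by_cases hu : (unop O (σ e.2)).card = 1
      swap
      · rw [pw_ind_false hu]; exact zero_le
      rw [pw_ind_true hu]
      -- all onward ports are hit
      have hun : unop O (σ e.2) = {e.swap} := by
        obtain ⟨a, ha⟩ := Finset.card_eq_one.1 hu
        have hm : e.swap ∈ unop O (σ e.2) := Finset.mem_filter.2 ⟨pw_mem h, pw_nopd h⟩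
        rw [ha, Finset.mem_singleton] at hm
        rw [ha, hm]
      have hall : ∀ p ∈ onw σ e, p.swap ∈ O := by
        intro p hp1
        apply pw_passive_opd hp (pw_onw_mem hp1)
        by_contra hno
        have hm : p ∈ unop O (σ e.2) := Finset.mem_filter.2 ⟨pw_onw_mem hp1, hno⟩
        rw [hun, Finset.mem_singleton] at hm
        exact (Finset.mem_erase.1 hp1).1 hm
      have hc : 2 ≤ (onw σ e).card := by
        unfold onw
        rw [Finset.card_erase_of_mem (pw_mem h)]
        have := hp.1.2.1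
        omega
      obtain ⟨p, hp1, q, hq1, hne⟩ := Finset.one_lt_card.1 (by omega : 1 < (onw σ e).card)
      unfold hit2
      apply pw_one_le_sum hp1
      apply pw_one_le_sum (Finset.mem_erase.2 ⟨hne.symm, hq1⟩)
      rw [pw_ind_true (hall p hp1), pw_ind_true (hall q hq1), one_mul]
    · exact pw_ind_mono (fun hh => pw_passive_opd hp (pw_onw_mem hp1) hh.2.2.1)
  · rw [pw_ind_false hp, zero_mul, zero_add, pw_ind_true (pw_not_pass h hp), one_mul]
    gcongr with p hp1
    · by_cases hu : (unop O (σ e.2)).card = 1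
      swap
      · rw [pw_ind_false hu]; exact zero_le
      rw [pw_ind_true hu]
      obtain ⟨p, hp1, hp2, hp3⟩ := pw_few h hu.le
      exact pw_one_le_sum hp1 (by rw [pw_ind_true hp2, pw_ind_true hp3, one_mul])
    · exact (pw_ind_le_one _).trans le_self_add

theorem pw_size (h : PH G O t σ e) :
    ((step O t σ e.2).ports.card : ℝ≥0∞) * ind (¬ passS (step O t σ e.2)) ≤
      ind (pass O (σ e.2)) * (7 * ∑ p ∈ onw σ e, ind (p.swap ∈ O) * (1 + NN O σ p)) +
      ind (¬ passS (σ e.2)) * (7 * ind ((σ e.2).spec ≠ ∅) +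
        7 * ∑ p ∈ onw σ e, ind (p ∉ O) * ind (p.swap ∈ O) +
        7 * ∑ p ∈ onw σ e, ind (p ∈ (σ e.2).spec) * NN O σ p +
        14 * ∑ p ∈ onw σ e, (1 + ind (p.swap ∈ O)) * (ind (tr O σ p) * NN O σ p) +
        7 * ∑ p ∈ onw σ e, (∑ r ∈ onw σ e, ind (r ∉ O) * ind (r.swap ∈ O)) * NN O σ p) := by
  have h5 := out5 h.tree h.wf.toWF0 O t e.2 (fun x _ => unop_le h.wf.toWF0 h.rf x)
  rw [pw_sum_hot h] at h5
  have h5' : ((step O t σ e.2).ports.card : ℝ≥0∞) ≤
      7 + 7 * ∑ p ∈ onw σ e, ind (hot O σ p) * NN O σ p := by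
    refine h5.trans ?_
    gcongr
    exact_mod_cast unop_le h.wf.toWF0 h.rf e.2
  have hle : ((step O t σ e.2).ports.card : ℝ≥0∞) * ind (¬ passS (step O t σ e.2)) ≤
      ((step O t σ e.2).ports.card : ℝ≥0∞) := by
    calc _ ≤ ((step O t σ e.2).ports.card : ℝ≥0∞) * 1 := by gcongr; exact pw_ind_le_one _
      _ = _ := mul_one _
  by_cases hp : pass O (σ e.2)
  · rw [pw_ind_true hp, one_mul]
    apply le_add_right
    by_cases h0 : ∀ p ∈ onw σ e, p.swap ∉ O
    · obtain ⟨h1, h2⟩ := pw_P0 h hp h0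
      have : passS (step O t σ e.2) := ⟨h2, by rw [h1]; exact hp.1.2.1, by rw [h1]; exact hp.1.2.2⟩
      rw [pw_ind_false (by simpa using this), mul_zero]
      exact zero_le
    · push Not at h0
      obtain ⟨p, hp1, hp2⟩ := h0
      refine (hle.trans h5').trans ?_
      calc 7 + 7 * ∑ p ∈ onw σ e, ind (hot O σ p) * NN O σ p
          ≤ 7 * (∑ p ∈ onw σ e, ind (p.swap ∈ O)) +
            7 * ∑ p ∈ onw σ e, ind (p.swap ∈ O) * NN O σ p := by
            gcongr with q hq1
            · calc (7 : ℝ≥0∞) = 7 * 1 := (mul_one _).symm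
                _ ≤ _ := by
                  gcongr
                  exact pw_one_le_sum hp1 (by rw [pw_ind_true hp2])
            · exact pw_ind_mono (fun hh => pw_passive_opd hp (pw_onw_mem hq1) hh.2.2.1)
        _ = _ := by
          rw [← mul_add, ← Finset.sum_add_distrib]
          congr 1
          apply Finset.sum_congr rfl
          intro q _
          rw [mul_add, mul_one]
  · rw [pw_ind_false hp, zero_mul, zero_add, pw_ind_true (pw_not_pass h hp), one_mul]
    rcases pw_R h hp with hc | ⟨h1, h2⟩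
    swap
    · have : passS (step O t σ e.2) := ⟨h2, by omega, by omega⟩
      rw [pw_ind_false (by simpa using this), mul_zero]
      exact zero_le
    refine (hle.trans h5').trans ?_
    set A := ∑ p ∈ onw σ e, ind (p ∉ O) * ind (p.swap ∈ O) with hA
    set B := ∑ p ∈ onw σ e, ind (p ∈ (σ e.2).spec) * NN O σ p with hB
    set C := ∑ p ∈ onw σ e, (1 + ind (p.swap ∈ O)) * (ind (tr O σ p) * NN O σ p) with hC
    set E := ∑ p ∈ onw σ e, A * NN O σ p with hE
    have k1 : (1 : ℝ≥0∞) ≤ ind ((σ e.2).spec ≠ ∅) + A + C := by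
      rcases hc with hc | ⟨p, g1, g2, g3⟩ | ⟨p, g1, g2, g3⟩
      · rw [pw_ind_true hc, add_assoc]; exact le_self_add
      · have : 1 ≤ A := pw_one_le_sum g1 (by rw [pw_ind_true g2, pw_ind_true g3, one_mul])
        rw [add_right_comm]
        exact le_add_left this
      · have : 1 ≤ C := by
          apply pw_one_le_sum g1
          rw [pw_ind_true g3, one_mul]
          calc (1 : ℝ≥0∞) = 1 * 1 := (one_mul _).symm
            _ ≤ _ := mul_le_mul' le_self_add (pw_NN_ge O σ p)
        exact le_add_left this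
    have k2 : ∑ p ∈ onw σ e, ind (hot O σ p) * NN O σ p ≤ B + C + E := by
      rw [hB, hC, hE, ← Finset.sum_add_distrib, ← Finset.sum_add_distrib]
      apply Finset.sum_le_sum
      intro p hp1
      by_cases hh : hot O σ p
      swap
      · rw [pw_ind_false hh, zero_mul]; exact zero_le
      rw [pw_ind_true hh, one_mul]
      rcases (hot_cases h.wf.toWF0 (pw_onw_mem hp1) hh).2 with g1 | g1 | g1
      · rw [pw_ind_true g1, one_mul, add_assoc]
        exact le_self_add
      · obtain ⟨r, r1, r2, r3⟩ := pw_few h g1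
        have : 1 ≤ A := pw_one_le_sum r1 (by rw [pw_ind_true r2, pw_ind_true r3, one_mul])
        refine le_add_left ?_
        calc NN O σ p = 1 * NN O σ p := (one_mul _).symm
          _ ≤ _ := by gcongr
      · rw [pw_ind_true g1, one_mul]
        refine le_add_right (le_add_left ?_)
        calc NN O σ p = 1 * NN O σ p := (one_mul _).symm
          _ ≤ _ := by gcongr; exact le_self_add
    calc 7 + 7 * ∑ p ∈ onw σ e, ind (hot O σ p) * NN O σ p
        ≤ 7 * (ind ((σ e.2).spec ≠ ∅) + A + C) + 7 * (B + C + E) := by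
          gcongr
          calc (7 : ℝ≥0∞) = 7 * 1 := (mul_one _).symm
            _ ≤ _ := by gcongr
      _ = _ := by
        have : (14 : ℝ≥0∞) = 7 + 7 := by norm_num
        rw [this]
        ring

theorem pw_thr_le (h : PH G O t σ e) :
    ind (thr (step O t σ e.2)) ≤ ind (thr (σ e.2)) +
      (ind (pass O (σ e.2)) * ∑ p ∈ onw σ e, ind (p.swap ∈ O) + ind (¬ passS (σ e.2))) := by
  by_cases hp : pass O (σ e.2)
  · by_cases h0 : ∀ p ∈ onw σ e, p.swap ∉ O
    · obtain ⟨h1, h2⟩ := pw_P0 h hp h0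
      apply le_add_right
      apply pw_ind_mono
      rintro ⟨_, h3⟩
      exact ⟨hp.1, by rw [← h1]; exact h3⟩
    · push Not at h0
      obtain ⟨p, hp1, hp2⟩ := h0
      refine (pw_ind_le_one _).trans (le_add_left (le_add_right ?_))
      rw [pw_ind_true hp, one_mul]
      exact pw_one_le_sum hp1 (by rw [pw_ind_true hp2])
  · refine (pw_ind_le_one _).trans (le_add_left (le_add_left ?_))
    rw [pw_ind_true (pw_not_pass h hp)]

theorem pw_thr_ge (h : PH G O t σ e) :
    ind (thr (σ e.2)) ≤ ind (thr (step O t σ e.2)) +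
      ind (pass O (σ e.2)) * ∑ p ∈ onw σ e, ind (p.swap ∈ O) := by
  by_cases ht : thr (σ e.2)
  swap
  · rw [pw_ind_false ht]; exact zero_le
  have hp := pw_passS_pass h ht.1
  by_cases h0 : ∀ p ∈ onw σ e, p.swap ∉ O
  · obtain ⟨h1, h2⟩ := pw_P0 h hp h0
    apply le_add_right
    apply pw_ind_mono
    rintro ⟨h3, h4⟩
    exact ⟨⟨h2, by rw [h1]; exact h3.2.1, by rw [h1]; exact h3.2.2⟩, by rw [h1]; exact h4⟩
  · push Not at h0
    obtain ⟨p, hp1, hp2⟩ := h0
    refine (pw_ind_le_one _).trans (le_add_left ?_)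
    rw [pw_ind_true hp, one_mul]
    exact pw_one_le_sum hp1 (by rw [pw_ind_true hp2])

end PW

end Pool.Agent.PM
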