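import Pool.Agent.Lib.MP_947a32_pr.Defs2
import Pool.Agent.Lib.MP_947a32_pr.Next
import Pool.Agent.Lib.MP_947a32_pr.Clu
import Pool.Agent.Lib.MP_947a32_pr.NsysB
import Pool.Agent.Lib.MP_947a32_pr.Pw
import Pool.Agent.Lib.MP_947a32_pr.BadE

/-! one-step inequalities (helper40) -/

set_option autoImplicit false

open Classical MeasureTheory
open scoped ENNReal

namespace Pool.Agent.PM


section ONE

variable {V : Type} {G : SimpleGraph V} {μ : Measure (St V)} {Δ : ℕ} {δ : ℝ} {e : V × V}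

theorem mulL {a b c : ℝ≥0∞} (h : b ≤ c) : a * b ≤ a * c := mul_le_mul' le_rfl h

theorem one_sum5 (a b c d f : ℝ≥0∞) : a ≤ a + b + c + d + f ∧ b ≤ a + b + c + d + f ∧
    c ≤ a + b + c + d + f ∧ d ≤ a + b + c + d + f ∧ f ≤ a + b + c + d + f := by
  refine ⟨?_, ?_, ?_, ?_, ?_⟩
  · rw [add_assoc, add_assoc, add_assoc]; exact le_self_add
  · rw [add_comm a b, add_assoc, add_assoc, add_assoc]; exact le_self_add
  · rw [add_comm (a + b) c, add_assoc, add_assoc]; exact le_self_add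
  · rw [add_comm (a + b + c) d, add_assoc]; exact le_self_add
  · exact le_add_self

theorem qx_le_eta : qx G μ e ≤ eta G μ δ e := (one_sum5 _ _ _ _ _).1
theorem qy_le_eta : qy G μ e ≤ eta G μ δ e := (one_sum5 _ _ _ _ _).2.1
theorem qm_le_eta : qm G μ e ≤ eta G μ δ e := (one_sum5 _ _ _ _ _).2.2.1
theorem qr_le_eta : qr G μ e ≤ eta G μ δ e := (one_sum5 _ _ _ _ _).2.2.2.1
theorem qA_le_eta : qA δ ≤ eta G μ δ e := (one_sum5 _ _ _ _ _).2.2.2.2

theorem qh_le_eta (H : Hyp G μ δ e Δ) : qh G μ δ e ≤ eta G μ δ e := by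
  refine (qh_le H).trans ?_
  unfold eta
  have h1 : ENNReal.ofReal (2000 * δ) ≤ qA δ := by
    refine ENNReal.ofReal_le_ofReal ?_
    have := H.dpos
    nlinarith
  calc qx G μ e + qy G μ e + qm G μ e + ENNReal.ofReal (2000 * δ)
      ≤ qx G μ e + qy G μ e + qm G μ e + (qr G μ e + qA δ) := by
        gcongr
        exact h1.trans le_add_self
    _ = _ := by ring

theorem eta_le_one (H : Hyp G μ δ e Δ) : eta G μ δ e ≤ 1 := by
  refine H.small.trans ?_
  rw [← ENNReal.ofReal_one]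
  exact ENNReal.ofReal_le_ofReal (by norm_num)

theorem qb_ne_zero (H : Hyp G μ δ e Δ) : qb G μ δ e ≠ 0 := by
  intro h0
  have h1 := qb_add_qh H.std H.law δ H.adj
  rw [h0, zero_add] at h1
  have h2 := (qh_le_eta H).trans H.small
  rw [h1] at h2
  have : ENNReal.ofReal (1 / 10 ^ 6) < 1 := by
    rw [← ENNReal.ofReal_one]
    exact (ENNReal.ofReal_lt_ofReal_iff (by norm_num)).2 (by norm_num)
  exact absurd h2 (not_le.2 this)

/-- the pointwise hypotheses hold a.s. -/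
theorem ae_PH (H : Hyp G μ δ e Δ) : ∀ᵐ x ∂(μ.prod (lam G)), alive x.1 e → ¬ opd (OO δ x) e →
    PH G (OO δ x) (lab x.2 1) x.1 e := by
  filter_upwards [ae_facts H.std H.law δ] with x hx ha ho
  exact ⟨H.std.tree, hx.1, hx.2.1, hx.2.2, ha, ho⟩

theorem one_meas_F [Countable V] (v : V) (F : Finset (V × V) → Finset (V × V) → ℝ≥0∞) :
    Measurable (fun σ : St V => F (σ v).ports (σ v).spec) := by
  intro A _
  have h : (fun σ : St V => F (σ v).ports (σ v).spec) ⁻¹' A =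
      ⋃ P : Finset (V × V), {σ : St V | (σ v).ports = P} ∩ {σ : St V | F P (σ v).spec ∈ A} := by
    ext σ
    simp only [Set.mem_preimage, Set.mem_iUnion, Set.mem_inter_iff, Set.mem_ofPred_eq]
    constructor
    · intro h; exact ⟨_, rfl, h⟩
    · rintro ⟨P, rfl, h⟩; exact h
  rw [h]
  exact MeasurableSet.iUnion fun P =>
    (meas_ports measurable_id v (fun Q => Q = P)).inter
      (meas_spec measurable_id v (fun Q => F P Q ∈ A))

/-- `next_le` for observables of the head comp -/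
theorem one_next (H : Hyp G μ δ e Δ) (F : Finset (V × V) → Finset (V × V) → ℝ≥0∞)
    {R : XX G → V × V → ℝ≥0∞} (hR : Hd R)
    (hle : ∀ᵐ x ∂(μ.prod (lam G)), alive x.1 e → ¬ opd (OO δ x) e →
      F (stp δ x e.2).ports (stp δ x e.2).spec ≤ R x e) :
    br (G := G) (nextLaw (stp (G := G) δ) μ) e (fun x e => F (x.1 e.2).ports (x.1 e.2).spec) *
      qb G μ δ e ≤ br μ e R := by
  have := countable_V H.std.tree Δ H.std.reg
  exact next_le H.std H.law δ H.adj (qb_ne_zero H) (one_meas_F e.2 F) hR hle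

/-- passive sum -/
theorem E_pass1 (H : Hyp G μ δ e Δ) {g : XX G → V × V → ℝ≥0∞} (hg : Hd g) :
    EE (G := G) μ e (fun x => ind (pass (OO δ x) (x.1 e.2)) * ∑ p ∈ onw x.1 e, g x p) ≤
      6 * br μ e g := by
  have := countable_V H.std.tree Δ H.std.reg
  simp_rw [Finset.mul_sum]
  exact E_fact H (Tl_pass H.std.tree δ) hg (EE_pass H)

theorem E_npass1 (H : Hyp G μ δ e Δ) {g : XX G → V × V → ℝ≥0∞} (hg : Hd g) :
    EE (G := G) μ e (fun x => ind (¬ passS (x.1 e.2)) * ∑ p ∈ onw x.1 e, g x p) ≤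
      qr G μ e * br μ e g := by
  have := countable_V H.std.tree Δ H.std.reg
  simp_rw [Finset.mul_sum]
  exact E_fact H Tl_npassS hg (EE_npassS H)

theorem E_kept1 (H : Hyp G μ δ e Δ) {g : XX G → V × V → ℝ≥0∞} (hg : Hd g) :
    EE (G := G) μ e (fun x => ind (¬ passS (x.1 e.2)) *
      ∑ p ∈ onw x.1 e, ind (p ∉ OO δ x) * g x p) ≤ 4 * qr G μ e * br μ e g := by
  have := countable_V H.std.tree Δ H.std.reg
  have h : EE (G := G) μ e (fun x => ind (¬ passS (x.1 e.2)) *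
      ∑ p ∈ onw x.1 e, ind (p ∉ OO δ x) * g x p) =
      EE (G := G) μ e (fun x => ∑ p ∈ onw x.1 e,
        (ind (¬ passS (x.1 e.2)) * ind (p ∉ OO δ x)) * g x p) := by
    congr 1
    funext x
    rw [Finset.mul_sum]
    exact Finset.sum_congr rfl fun p _ => (mul_assoc _ _ _).symm
  rw [h]
  exact E_fact H (Tl_npassS.mul (Tl_nprop H.std.tree δ)) hg (EE_kept H)

theorem E_spec1 (H : Hyp G μ δ e Δ) {g : XX G → V × V → ℝ≥0∞} (hg : Hd g) :
    EE (G := G) μ e (fun x => ∑ p ∈ onw x.1 e, ind (p ∈ (x.1 e.2).spec) * g x p) ≤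
      qm G μ e * br μ e g := by
  have := countable_V H.std.tree Δ H.std.reg
  exact E_fact H Tl_spec hg (EE_spec H)

theorem one_npassS_le (H : Hyp G μ δ e Δ) :
    br (G := G) μ e (fun x e => ind (¬ passS (x.1 e.2))) ≤ qr G μ e := by
  refine EE_mono ?_
  filter_upwards [ae_facts H.std H.law δ] with x hx _
  calc ind (¬ passS (x.1 e.2)) = 1 * ind (¬ passS (x.1 e.2)) := (one_mul _).symm
    _ ≤ _ := by
      gcongr
      exact le_trans (by norm_num) (two_le hx.1 e.2)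

theorem one_spec_ne_le :
    br (G := G) μ e (fun x e => ind ((x.1 e.2).spec ≠ ∅)) ≤ qm G μ e := by
  refine EE_mono (Filter.Eventually.of_forall fun x _ => ?_)
  show ind ((x.1 e.2).spec ≠ ∅) ≤ ((x.1 e.2).spec.card : ℝ≥0∞)
  by_cases h : (x.1 e.2).spec ≠ ∅
  · rw [ind_true h]
    have := Finset.card_pos.2 (Finset.nonempty_iff_ne_empty.2 h)
    exact_mod_cast this
  · rw [ind_false h]; exact zero_le

theorem q3_le_one (H : Hyp G μ δ e Δ) : q3 G μ e ≤ 1 := le_self_add.trans (q3S_le H)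
theorem qS_le_one (H : Hyp G μ δ e Δ) : qS G μ e ≤ 1 := le_add_self.trans (q3S_le H)

/-! nice functionals of the state -/

theorem image_card (φ : V ≃ V) (P : Finset (V × V)) : (P.image (mp φ)).card = P.card := by
  refine Finset.card_image_of_injective _ ?_
  rintro ⟨a, b⟩ ⟨c, d⟩ h
  simpa [mp] using h

theorem image_empty_iff (φ : V ≃ V) (P : Finset (V × V)) : (P.image (mp φ) = ∅) = (P = ∅) := by
  rw [Finset.image_eq_empty]

theorem Hd_passS [Countable V] : Hd (G := G) (fun x e => ind (passS (x.1 e.2))) :=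
  Hd_F (fun P S => ind (S = ∅ ∧ 3 ≤ P.card ∧ P.card ≤ 7)) (fun φ P S => by
    simp only [image_card, image_empty_iff])

theorem Hd_npassS [Countable V] : Hd (G := G) (fun x e => ind (¬ passS (x.1 e.2))) :=
  Hd_F (fun P S => ind (¬ (S = ∅ ∧ 3 ≤ P.card ∧ P.card ≤ 7))) (fun φ P S => by
    simp only [image_card, image_empty_iff])

theorem Hd_thr [Countable V] : Hd (G := G) (fun x e => ind (thr (x.1 e.2))) :=
  Hd_F (fun P S => ind ((S = ∅ ∧ 3 ≤ P.card ∧ P.card ≤ 7) ∧ P.card = 3)) (fun φ P S => by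
    simp only [image_card, image_empty_iff])

theorem Hd_wire [Countable V] : Hd (G := G) (fun x e => ind (wire (x.1 e.2))) :=
  Hd_F (fun P S => ind (S = ∅ ∧ P.card = 2)) (fun φ P S => by
    simp only [image_card, image_empty_iff])

theorem HP_big' [Countable V] : HP (G := G) (fun x e => big (x.1 e.2)) :=
  HP_F (fun P S => (S = ∅ ∧ 8 ≤ P.card)) (fun φ P S => by
    simp only [image_card, image_empty_iff])

theorem Hd_specne [Countable V] : Hd (G := G) (fun x e => ind ((x.1 e.2).spec ≠ ∅)) :=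
  Hd_F (fun _ S => ind (S ≠ ∅)) (fun φ P S => by
    simp only [ne_eq, image_empty_iff])

theorem Hd_sum0 [Countable V] (hT : G.IsTree) {g : XX G → V × V → ℝ≥0∞} (hg : Hd g) :
    Hd (fun x e => ∑ p ∈ onw x.1 e, g x p) := by
  have := Hd_sum hT (Md_const (G := G) 1) hg
  simpa only [one_mul] using this

/-! ### the wires -/

theorem one_y (H : Hyp G μ δ e Δ) :
    qy G (nextLaw (stp (G := G) δ) μ) e * qb G μ δ e ≤ 2 * q3 G μ e * qx G μ e +
      10 ^ 4 * (qm G μ e + qA δ) + 10 ^ 4 * eta G μ δ e ^ 2 := by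
  have := countable_V H.std.tree Δ H.std.reg
  have hG := H.std.tree
  set gb : XX G → V × V → ℝ≥0∞ := fun x e => ind (e.swap ∈ OO δ x ∧ big (x.1 e.2)) with hgb
  have hgbH : Hd gb := ((HP_hit hG δ).and HP_big').ind
  have hR : Hd (G := G) (fun x e => ind (thr (x.1 e.2)) * ∑ p ∈ onw x.1 e, gb x p +
      Bad (OO δ x) x.1 e) := (Hd_thr.mul (Hd_sum0 hG hgbH)).add (Hd_Bad hG δ)
  have h1 := one_next H (fun P S => ind (S = ∅ ∧ P.card = 2)) hR (by
    filter_upwards [ae_PH H] with x hx ha ho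
    exact pw_wire (hx ha ho))
  refine h1.trans ?_
  have hTl : Tl (G := G) (fun x e _ => ind (thr (x.1 e.2))) := Tl_thr
  have h2 : br (G := G) μ e (fun x e => ind (thr (x.1 e.2)) * ∑ p ∈ onw x.1 e, gb x p +
      Bad (OO δ x) x.1 e) ≤ 2 * q3 G μ e * br μ e gb +
        br (G := G) μ e (fun x e => Bad (OO δ x) x.1 e) := by
    unfold br
    rw [EE_add ((Hd_thr.mul (Hd_sum0 hG hgbH)).meas e)]
    gcongr
    simp_rw [Finset.mul_sum]
    refine E_fact H hTl hgbH ?_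
    unfold q3 br
    rw [← EE_mul_left (2 : ℝ≥0∞) (Hd_thr.meas e)]
    refine EE_mono ?_
    filter_upwards [ae_facts H.std H.law δ] with x hx ha
    rw [Finset.sum_const, nsmul_eq_mul]
    by_cases ht : thr (x.1 e.2)
    · have h1 := card_onw hx.1.toWF0 ha
      have h2 := ht.2
      have h3 : (onw x.1 e).card = 2 := by omega
      rw [h3]; norm_num
    · rw [ind_false ht]; simp
  refine h2.trans ?_
  have h3 : br μ e gb ≤ qx G μ e + qA δ := by
    refine (br_bighit H.std H.law H.dpos H.adj).trans ?_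
    gcongr
    refine ENNReal.ofReal_le_ofReal ?_
    have := H.dpos
    nlinarith
  have h4 := Bad_le H
  have h5 := q3_le_one H
  calc 2 * q3 G μ e * br μ e gb + br (G := G) μ e (fun x e => Bad (OO δ x) x.1 e)
      ≤ 2 * q3 G μ e * (qx G μ e + qA δ) +
        (10 ^ 3 * (qm G μ e + qA δ) + 10 ^ 3 * eta G μ δ e ^ 2) := by gcongr
    _ = 2 * q3 G μ e * qx G μ e + 2 * q3 G μ e * qA δ +
        (10 ^ 3 * (qm G μ e + qA δ) + 10 ^ 3 * eta G μ δ e ^ 2) := by ring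
    _ ≤ 2 * q3 G μ e * qx G μ e + 2 * 1 * qA δ +
        (10 ^ 3 * (qm G μ e + qA δ) + 10 ^ 3 * eta G μ δ e ^ 2) := by gcongr
    _ ≤ 2 * q3 G μ e * qx G μ e + 2 * (qm G μ e + qA δ) +
        (10 ^ 3 * (qm G μ e + qA δ) + 10 ^ 3 * eta G μ δ e ^ 2) := by
        gcongr
        · norm_num
        · exact le_add_self
    _ = 2 * q3 G μ e * qx G μ e + 1002 * (qm G μ e + qA δ) + 10 ^ 3 * eta G μ δ e ^ 2 := by ring
    _ ≤ _ := by gcongr <;> norm_num


/-! ### the flips -/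

theorem Hd_hitg [Countable V] (hT : G.IsTree) (δ : ℝ) {g : XX G → V × V → ℝ≥0∞} (hg : Hd g) :
    Hd (fun x e => ind (e.swap ∈ OO δ x) * g x e) := (HP_hit hT δ).ind.mul hg

theorem one_hit2 (H : Hyp G μ δ e Δ) :
    br (G := G) μ e (fun x e => ind (pass (OO δ x) (x.1 e.2)) * hit2 (OO δ x) x.1 e) ≤
      30 * (qh G μ δ e * qh G μ δ e) := by
  have := countable_V H.std.tree Δ H.std.reg
  have hh : Hd (G := G) (fun x e => ind (e.swap ∈ OO δ x)) := (HP_hit H.std.tree δ).ind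
  refine le_trans (le_of_eq ?_) (E_pass2 H hh hh)
  unfold br
  congr 1
  funext x
  show ind (pass (OO δ x) (x.1 e.2)) * hit2 (OO δ x) x.1 e = _
  have h : hit2 (OO δ x) x.1 e = ∑ p ∈ onw x.1 e, ∑ r ∈ (onw x.1 e).erase p,
      ind (r.swap ∈ OO δ x) * ind (p.swap ∈ OO δ x) := by
    unfold hit2
    exact Finset.sum_congr rfl fun p _ => Finset.sum_congr rfl fun q _ => mul_comm _ _
  rw [h]

theorem one_m (H : Hyp G μ δ e Δ) :
    qm G (nextLaw (stp (G := G) δ) μ) e * qb G μ δ e ≤ 10 ^ 5 * eta G μ δ e ^ 2 := by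
  have := countable_V H.std.tree Δ H.std.reg
  have hG := H.std.tree
  have hh : Hd (G := G) (fun x e => ind (e.swap ∈ OO δ x)) := (HP_hit H.std.tree δ).ind
  have hC : Hd (G := G) (fun x e => CC (OO δ x) x.1 e) := Hd_CC hG δ
  have hp : Hd (G := G) (fun x e => ind (pass (OO δ x) (x.1 e.2))) := (HP_pass hG δ).ind
  have hA1 : Hd (G := G) (fun x e => ind (pass (OO δ x) (x.1 e.2)) * hit2 (OO δ x) x.1 e) :=
    hp.mul (Hd_hit2 hG δ)
  have hA2 : Hd (G := G) (fun x e => ind (pass (OO δ x) (x.1 e.2)) *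
      ∑ p ∈ onw x.1 e, ind (p.swap ∈ OO δ x) * CC (OO δ x) x.1 p) :=
    hp.mul (Hd_sum0 hG (hh.mul hC))
  have hA3 : Hd (G := G) (fun x e => ind (¬ passS (x.1 e.2)) *
      ∑ p ∈ onw x.1 e, ind (p ∉ OO δ x) * ind (p.swap ∈ OO δ x)) :=
    Hd_npassS.mul (Hd_sum hG (Md_nprop hG δ) hh)
  have hA4 : Hd (G := G) (fun x e => ind (¬ passS (x.1 e.2)) *
      ∑ p ∈ onw x.1 e, CC (OO δ x) x.1 p) := Hd_npassS.mul (Hd_sum0 hG hC)
  have hA5 : Hd (G := G) (fun x e => ind (¬ passS (x.1 e.2)) *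
      ∑ p ∈ onw x.1 e, ind (p.swap ∈ OO δ x) * CC (OO δ x) x.1 p) :=
    Hd_npassS.mul (Hd_sum0 hG (hh.mul hC))
  have h1 := one_next H (fun _ S => (S.card : ℝ≥0∞)) ((((hA1.add hA2).add hA3).add hA4).add hA5) (by
    filter_upwards [ae_PH H] with x hx ha ho
    refine (pw_spec (hx ha ho)).trans (le_of_eq ?_)
    have e1 : ∑ p ∈ onw x.1 e, (1 + ind (p.swap ∈ OO δ x)) * CC (OO δ x) x.1 p =
        ∑ p ∈ onw x.1 e, CC (OO δ x) x.1 p +
          ∑ p ∈ onw x.1 e, ind (p.swap ∈ OO δ x) * CC (OO δ x) x.1 p := by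
      rw [← Finset.sum_add_distrib]
      exact Finset.sum_congr rfl fun p _ => by ring
    rw [e1]
    ring)
  refine h1.trans ?_
  have e1 := one_hit2 H
  have e2 := E_pass1 H (hh.mul hC)
  have e3 := E_kept1 H hh
  have e4 := E_npass1 H hC
  have e5 := E_npass1 H (hh.mul hC)
  have c1 := cc_le H
  have c2 := hit_cc_le H
  have hle := qh_le_eta H
  have hr : qr G μ e ≤ eta G μ δ e := qr_le_eta
  have he1 := eta_le_one H
  set η := eta G μ δ e with hη
  unfold br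
  rw [EE_add ((((hA1.add hA2).add hA3).add hA4).meas e), EE_add (((hA1.add hA2).add hA3).meas e),
    EE_add ((hA1.add hA2).meas e), EE_add (hA1.meas e)]
  calc _ ≤ 30 * (qh G μ δ e * qh G μ δ e) +
        6 * br μ e (fun x e => ind (e.swap ∈ OO δ x) * CC (OO δ x) x.1 e) +
        4 * qr G μ e * br μ e (fun x e => ind (e.swap ∈ OO δ x)) +
        qr G μ e * br μ e (fun x e => CC (OO δ x) x.1 e) +
        qr G μ e * br μ e (fun x e => ind (e.swap ∈ OO δ x) * CC (OO δ x) x.1 e) :=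
        add_le_add (add_le_add (add_le_add (add_le_add e1 e2) e3) e4) e5
    _ ≤ 30 * (η * η) + 6 * (1000 * η ^ 2) + 4 * η * η + η * (20 * η) + 1 * (1000 * η ^ 2) := by
        gcongr
        · exact hle
        · exact hr.trans he1
    _ = 7054 * η ^ 2 := by ring
    _ ≤ 10 ^ 5 * η ^ 2 := by gcongr; norm_num

/-! ### the size -/

theorem one_r (H : Hyp G μ δ e Δ) :
    qr G (nextLaw (stp (G := G) δ) μ) e * qb G μ δ e ≤
      10 ^ 5 * (qx G μ e + qy G μ e + qm G μ e + qA δ) + 10 ^ 5 * eta G μ δ e ^ 2 := by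
  have := countable_V H.std.tree Δ H.std.reg
  have hG := H.std.tree
  have hh : Hd (G := G) (fun x e => ind (e.swap ∈ OO δ x)) := (HP_hit H.std.tree δ).ind
  have hN : Hd (G := G) (fun x e => NN (OO δ x) x.1 e) := Hd_NN hG δ
  have htr : Hd (G := G) (fun x e => ind (tr (OO δ x) x.1 e)) := (HP_tr hG δ).ind
  have hp : Hd (G := G) (fun x e => ind (pass (OO δ x) (x.1 e.2))) := (HP_pass hG δ).ind
  have h7 : Hd (G := G) (fun _ _ => (7 : ℝ≥0∞)) := Hd_const 7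
  have h14 : Hd (G := G) (fun _ _ => (14 : ℝ≥0∞)) := Hd_const 14
  -- the eight terms
  have hB1 : Hd (G := G) (fun x e => 7 * (ind (pass (OO δ x) (x.1 e.2)) *
      ∑ p ∈ onw x.1 e, ind (p.swap ∈ OO δ x))) := h7.mul (hp.mul (Hd_sum0 hG hh))
  have hB2 : Hd (G := G) (fun x e => 7 * (ind (pass (OO δ x) (x.1 e.2)) *
      ∑ p ∈ onw x.1 e, ind (p.swap ∈ OO δ x) * NN (OO δ x) x.1 p)) :=
    h7.mul (hp.mul (Hd_sum0 hG (hh.mul hN)))
  have hB3 : Hd (G := G) (fun x e => 7 * ind ((x.1 e.2).spec ≠ ∅)) := h7.mul Hd_specne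
  have hB4 : Hd (G := G) (fun x e => 7 * (ind (¬ passS (x.1 e.2)) *
      ∑ p ∈ onw x.1 e, ind (p ∉ OO δ x) * ind (p.swap ∈ OO δ x))) :=
    h7.mul (Hd_npassS.mul (Hd_sum hG (Md_nprop hG δ) hh))
  have hB5 : Hd (G := G) (fun x e => 7 * ∑ p ∈ onw x.1 e,
      ind (p ∈ (x.1 e.2).spec) * NN (OO δ x) x.1 p) := h7.mul (Hd_sum hG Md_spec hN)
  have hB6 : Hd (G := G) (fun x e => 14 * (ind (¬ passS (x.1 e.2)) *
      ∑ p ∈ onw x.1 e, ind (tr (OO δ x) x.1 p) * NN (OO δ x) x.1 p)) :=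
    h14.mul (Hd_npassS.mul (Hd_sum0 hG (htr.mul hN)))
  have hB7 : Hd (G := G) (fun x e => 14 * (ind (¬ passS (x.1 e.2)) *
      ∑ p ∈ onw x.1 e, ind (p.swap ∈ OO δ x) * NN (OO δ x) x.1 p)) :=
    h14.mul (Hd_npassS.mul (Hd_sum0 hG (hh.mul hN)))
  have hB8 : Hd (G := G) (fun x e => 7 * (ind (¬ passS (x.1 e.2)) *
      ∑ p ∈ onw x.1 e, (∑ r ∈ onw x.1 e, ind (r ∉ OO δ x) * ind (r.swap ∈ OO δ x)) *
        NN (OO δ x) x.1 p)) :=
    h7.mul (Hd_npassS.mul (Hd_sum hG (Hd.Md_fst (Hd_sum hG (Md_nprop hG δ) hh)) hN))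
  have h1 := one_next H (fun P S => (P.card : ℝ≥0∞) * ind (¬ (S = ∅ ∧ 3 ≤ P.card ∧ P.card ≤ 7)))
    (((((((hB1.add hB2).add hB3).add hB4).add hB5).add hB6).add hB7).add hB8) (by
    filter_upwards [ae_PH H] with x hx ha ho
    refine (pw_size (hx ha ho)).trans ?_
    have hi := ind_le_one (¬ passS (x.1 e.2))
    have t1 : ∑ p ∈ onw x.1 e, (1 + ind (p.swap ∈ OO δ x)) *
        (ind (tr (OO δ x) x.1 p) * NN (OO δ x) x.1 p) ≤
        ∑ p ∈ onw x.1 e, ind (tr (OO δ x) x.1 p) * NN (OO δ x) x.1 p +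
          ∑ p ∈ onw x.1 e, ind (p.swap ∈ OO δ x) * NN (OO δ x) x.1 p := by
      rw [← Finset.sum_add_distrib]
      refine Finset.sum_le_sum fun p _ => ?_
      rw [add_mul, one_mul]
      gcongr
      calc ind (tr (OO δ x) x.1 p) * NN (OO δ x) x.1 p ≤ 1 * NN (OO δ x) x.1 p := by
            gcongr; exact ind_le_one _
        _ = _ := one_mul _
    calc _ ≤ ind (pass (OO δ x) (x.1 e.2)) * (7 * ∑ p ∈ onw x.1 e, ind (p.swap ∈ OO δ x) *
            (1 + NN (OO δ x) x.1 p)) +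
          ind (¬ passS (x.1 e.2)) * (7 * ind ((x.1 e.2).spec ≠ ∅) +
          7 * ∑ p ∈ onw x.1 e, ind (p ∉ OO δ x) * ind (p.swap ∈ OO δ x) +
          7 * ∑ p ∈ onw x.1 e, ind (p ∈ (x.1 e.2).spec) * NN (OO δ x) x.1 p +
          14 * (∑ p ∈ onw x.1 e, ind (tr (OO δ x) x.1 p) * NN (OO δ x) x.1 p +
          ∑ p ∈ onw x.1 e, ind (p.swap ∈ OO δ x) * NN (OO δ x) x.1 p) +
          7 * ∑ p ∈ onw x.1 e, (∑ r ∈ onw x.1 e, ind (r ∉ OO δ x) * ind (r.swap ∈ OO δ x)) *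
            NN (OO δ x) x.1 p) := by gcongr
      _ = 7 * (ind (pass (OO δ x) (x.1 e.2)) * ∑ p ∈ onw x.1 e, ind (p.swap ∈ OO δ x)) +
          7 * (ind (pass (OO δ x) (x.1 e.2)) *
            ∑ p ∈ onw x.1 e, ind (p.swap ∈ OO δ x) * NN (OO δ x) x.1 p) +
          7 * (ind (¬ passS (x.1 e.2)) * ind ((x.1 e.2).spec ≠ ∅)) +
          7 * (ind (¬ passS (x.1 e.2)) *
            ∑ p ∈ onw x.1 e, ind (p ∉ OO δ x) * ind (p.swap ∈ OO δ x)) +
          7 * (ind (¬ passS (x.1 e.2)) *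
            ∑ p ∈ onw x.1 e, ind (p ∈ (x.1 e.2).spec) * NN (OO δ x) x.1 p) +
          14 * (ind (¬ passS (x.1 e.2)) *
            ∑ p ∈ onw x.1 e, ind (tr (OO δ x) x.1 p) * NN (OO δ x) x.1 p) +
          14 * (ind (¬ passS (x.1 e.2)) *
            ∑ p ∈ onw x.1 e, ind (p.swap ∈ OO δ x) * NN (OO δ x) x.1 p) +
          7 * (ind (¬ passS (x.1 e.2)) *
            ∑ p ∈ onw x.1 e, (∑ r ∈ onw x.1 e, ind (r ∉ OO δ x) * ind (r.swap ∈ OO δ x)) *
              NN (OO δ x) x.1 p) := by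
          have : ∑ p ∈ onw x.1 e, ind (p.swap ∈ OO δ x) * (1 + NN (OO δ x) x.1 p) =
              ∑ p ∈ onw x.1 e, ind (p.swap ∈ OO δ x) +
              ∑ p ∈ onw x.1 e, ind (p.swap ∈ OO δ x) * NN (OO δ x) x.1 p := by
            rw [← Finset.sum_add_distrib]
            exact Finset.sum_congr rfl fun p _ => by ring
          rw [this]
          ring
      _ ≤ 7 * (ind (pass (OO δ x) (x.1 e.2)) * ∑ p ∈ onw x.1 e, ind (p.swap ∈ OO δ x)) +
          7 * (ind (pass (OO δ x) (x.1 e.2)) *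
            ∑ p ∈ onw x.1 e, ind (p.swap ∈ OO δ x) * NN (OO δ x) x.1 p) +
          7 * (1 * ind ((x.1 e.2).spec ≠ ∅)) +
          7 * (ind (¬ passS (x.1 e.2)) *
            ∑ p ∈ onw x.1 e, ind (p ∉ OO δ x) * ind (p.swap ∈ OO δ x)) +
          7 * (1 *
            ∑ p ∈ onw x.1 e, ind (p ∈ (x.1 e.2).spec) * NN (OO δ x) x.1 p) +
          14 * (ind (¬ passS (x.1 e.2)) *
            ∑ p ∈ onw x.1 e, ind (tr (OO δ x) x.1 p) * NN (OO δ x) x.1 p) +
          14 * (ind (¬ passS (x.1 e.2)) *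
            ∑ p ∈ onw x.1 e, ind (p.swap ∈ OO δ x) * NN (OO δ x) x.1 p) +
          7 * (ind (¬ passS (x.1 e.2)) *
            ∑ p ∈ onw x.1 e, (∑ r ∈ onw x.1 e, ind (r ∉ OO δ x) * ind (r.swap ∈ OO δ x)) *
              NN (OO δ x) x.1 p) := by gcongr
      _ = _ := by rw [one_mul, one_mul])
  refine h1.trans ?_
  have e1 := E_pass1 H hh
  have e2 := E_pass1 H (hh.mul hN)
  have e3 := one_spec_ne_le (G := G) (μ := μ) (e := e)
  have e4 := E_kept1 H hh
  have e5 := E_spec1 H hN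
  have e6 := E_npass1 H (htr.mul hN)
  have e7 := E_npass1 H (hh.mul hN)
  have e8 := E_npass2 (e := e) H hN hh
  have u2 := nn_le H
  have tt := hit_nn_le H
  have vv := tr_nn_le H
  have hqh := qh_le H
  have hle := qh_le_eta H
  have hr : qr G μ e ≤ eta G μ δ e := qr_le_eta
  have he1 := eta_le_one H
  have hd : ENNReal.ofReal (2000 * δ) ≤ qA δ := by
    refine ENNReal.ofReal_le_ofReal ?_
    have := H.dpos
    nlinarith
  set η := eta G μ δ e with hη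
  set B : ℝ≥0∞ := qx G μ e + qy G μ e + qm G μ e + qA δ with hB
  have hqB : qh G μ δ e ≤ B := hqh.trans (by rw [hB]; gcongr)
  have hmB : qm G μ e ≤ B := by
    rw [hB]; exact le_add_self.trans le_self_add
  unfold br
  rw [EE_add (((((((hB1.add hB2).add hB3).add hB4).add hB5).add hB6).add hB7).meas e),
    EE_add ((((((hB1.add hB2).add hB3).add hB4).add hB5).add hB6).meas e),
    EE_add (((((hB1.add hB2).add hB3).add hB4).add hB5).meas e),
    EE_add ((((hB1.add hB2).add hB3).add hB4).meas e),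
    EE_add (((hB1.add hB2).add hB3).meas e),
    EE_add ((hB1.add hB2).meas e), EE_add (hB1.meas e),
    EE_mul_left 7 ((hp.mul (Hd_sum0 hG hh)).meas e),
    EE_mul_left 7 ((hp.mul (Hd_sum0 hG (hh.mul hN))).meas e),
    EE_mul_left 7 (Hd_specne.meas e),
    EE_mul_left 7 ((Hd_npassS.mul (Hd_sum hG (Md_nprop hG δ) hh)).meas e),
    EE_mul_left 7 ((Hd_sum hG Md_spec hN).meas e),
    EE_mul_left 14 ((Hd_npassS.mul (Hd_sum0 hG (htr.mul hN))).meas e),
    EE_mul_left 14 ((Hd_npassS.mul (Hd_sum0 hG (hh.mul hN))).meas e),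
    EE_mul_left 7 ((Hd_npassS.mul (Hd_sum hG (Hd.Md_fst (Hd_sum hG (Md_nprop hG δ) hh)) hN)).meas e)]
  have q1 : qr G μ e ≤ 1 := hr.trans he1
  have k1 : 7 * (6 * br (G := G) μ e (fun x e => ind (e.swap ∈ OO δ x))) ≤ 7 * (6 * B) := by
    refine mulL (mulL hqB)
  have k2 : 7 * (6 * br (G := G) μ e (fun x e => ind (e.swap ∈ OO δ x) * NN (OO δ x) x.1 e)) ≤
      7 * (6 * (10 * B + 200 * η ^ 2)) := mulL (mulL tt)
  have k3 : 7 * br (G := G) μ e (fun x e => ind ((x.1 e.2).spec ≠ ∅)) ≤ 7 * B := mulL (e3.trans hmB)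
  have k4 : 7 * (4 * qr G μ e * br (G := G) μ e (fun x e => ind (e.swap ∈ OO δ x))) ≤
      7 * (4 * η * η) := mulL (mul_le_mul' (mulL hr) hle)
  have k5 : 7 * (qm G μ e * br (G := G) μ e (fun x e => NN (OO δ x) x.1 e)) ≤ 7 * (B * 2) :=
    mulL (mul_le_mul' hmB u2)
  have k6 : 14 * (qr G μ e * br (G := G) μ e (fun x e => ind (tr (OO δ x) x.1 e) * NN (OO δ x) x.1 e)) ≤
      14 * (η * (70 * η)) := mulL (mul_le_mul' hr vv)
  have k7 : 14 * (qr G μ e * br (G := G) μ e (fun x e => ind (e.swap ∈ OO δ x) * NN (OO δ x) x.1 e)) ≤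
      14 * (1 * (10 * B + 200 * η ^ 2)) := mulL (mul_le_mul' q1 tt)
  have k8 : 7 * (4 * qr G μ e * br (G := G) μ e (fun x e => ind (e.swap ∈ OO δ x) * NN (OO δ x) x.1 e) +
      7 * qr G μ e * br (G := G) μ e (fun x e => ind (e.swap ∈ OO δ x)) *
        br μ e (fun x e => NN (OO δ x) x.1 e)) ≤
      7 * (4 * 1 * (10 * B + 200 * η ^ 2) + 7 * η * η * 2) :=
    mulL (add_le_add (mul_le_mul' (mulL q1) tt) (mul_le_mul' (mul_le_mul' (mulL hr) hle) u2))
  calc _ ≤ 7 * (6 * B) + 7 * (6 * (10 * B + 200 * η ^ 2)) + 7 * B + 7 * (4 * η * η) + 7 * (B * 2) +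
        14 * (η * (70 * η)) + 14 * (1 * (10 * B + 200 * η ^ 2)) +
        7 * (4 * 1 * (10 * B + 200 * η ^ 2) + 7 * η * η * 2) :=
        add_le_add (add_le_add (add_le_add (add_le_add (add_le_add (add_le_add (add_le_add
          ((mulL e1).trans k1) ((mulL e2).trans k2)) k3) ((mulL e4).trans k4))
          ((mulL e5).trans k5)) ((mulL e6).trans k6)) ((mulL e7).trans k7))
          ((mulL e8).trans k8)
    _ = (7 * 6 + 7 * 6 * 10 + 7 + 14 + 140 + 280) * B +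
        (7 * 6 * 200 + 28 + 980 + 2800 + 5600 + 98) * η ^ 2 := by ring
    _ ≤ 10 ^ 5 * B + 10 ^ 5 * η ^ 2 := by
        refine add_le_add (mul_le_mul' ?_ le_rfl) (mul_le_mul' ?_ le_rfl) <;> norm_num

/-! ### comps with three ports -/

theorem one_p3u (H : Hyp G μ δ e Δ) :
    q3 G (nextLaw (stp (G := G) δ) μ) e * qb G μ δ e ≤ q3 G μ e + 10 ^ 3 * eta G μ δ e := by
  have := countable_V H.std.tree Δ H.std.reg
  have hG := H.std.tree
  have hh : Hd (G := G) (fun x e => ind (e.swap ∈ OO δ x)) := (HP_hit H.std.tree δ).ind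
  have hp : Hd (G := G) (fun x e => ind (pass (OO δ x) (x.1 e.2))) := (HP_pass hG δ).ind
  have hB : Hd (G := G) (fun x e => ind (pass (OO δ x) (x.1 e.2)) *
      ∑ p ∈ onw x.1 e, ind (p.swap ∈ OO δ x)) := hp.mul (Hd_sum0 hG hh)
  have h1 := one_next H (fun P S => ind ((S = ∅ ∧ 3 ≤ P.card ∧ P.card ≤ 7) ∧ P.card = 3))
    (Hd_thr.add (hB.add Hd_npassS)) (by
      filter_upwards [ae_PH H] with x hx ha ho
      exact pw_thr_le (hx ha ho))
  refine h1.trans ?_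
  unfold br
  rw [EE_add (Hd_thr.meas e), EE_add (hB.meas e)]
  refine add_le_add le_rfl ?_
  calc _ ≤ 6 * qh G μ δ e + qr G μ e := add_le_add (E_pass1 H hh) (one_npassS_le H)
    _ ≤ 6 * eta G μ δ e + eta G μ δ e := by
        gcongr
        · exact qh_le_eta H
        · exact qr_le_eta
    _ = 7 * eta G μ δ e := by ring
    _ ≤ 10 ^ 3 * eta G μ δ e := by gcongr; norm_num

theorem one_p3l (H : Hyp G μ δ e Δ) :
    q3 G μ e ≤ q3 G (nextLaw (stp (G := G) δ) μ) e * qb G μ δ e + 10 ^ 3 * eta G μ δ e := by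
  have := countable_V H.std.tree Δ H.std.reg
  have hG := H.std.tree
  have hh : Hd (G := G) (fun x e => ind (e.swap ∈ OO δ x)) := (HP_hit H.std.tree δ).ind
  have hnh : Hd (G := G) (fun x e => ind (e.swap ∉ OO δ x)) := (HP_hit H.std.tree δ).not.ind
  have hp : Hd (G := G) (fun x e => ind (pass (OO δ x) (x.1 e.2))) := (HP_pass hG δ).ind
  have hB : Hd (G := G) (fun x e => ind (pass (OO δ x) (x.1 e.2)) *
      ∑ p ∈ onw x.1 e, ind (p.swap ∈ OO δ x)) := hp.mul (Hd_sum0 hG hh)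
  have h1 := next_ge H.std H.law δ H.adj (qb_ne_zero H)
    (one_meas_F e.2 (fun P S => ind ((S = ∅ ∧ 3 ≤ P.card ∧ P.card ≤ 7) ∧ P.card = 3)))
    (L := fun x e => ind (thr (x.1 e.2))) (R := fun x e => ind (pass (OO δ x) (x.1 e.2)) *
      ∑ p ∈ onw x.1 e, ind (p.swap ∈ OO δ x)) Hd_thr hB (by
      filter_upwards [ae_PH H] with x hx ha ho
      exact pw_thr_ge (hx ha ho))
  have h2 : q3 G μ e ≤ br (G := G) μ e
      (fun x e => ind (e.swap ∉ OO δ x) * ind (thr (x.1 e.2))) +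
      qh G μ δ e := by
    unfold q3 qh br
    rw [← EE_add ((hnh.mul Hd_thr).meas e)]
    refine EE_mono (Filter.Eventually.of_forall fun x _ => ?_)
    show ind (thr (x.1 e.2)) ≤ ind (e.swap ∉ OO δ x) * ind (thr (x.1 e.2)) + ind (e.swap ∈ OO δ x)
    by_cases h : e.swap ∈ OO δ x
    · rw [ind_true h]
      exact (ind_le_one _).trans le_add_self
    · rw [ind_true h, one_mul]
      exact le_self_add
  calc q3 G μ e ≤ _ := h2
    _ ≤ (q3 G (nextLaw (stp (G := G) δ) μ) e * qb G μ δ e + 6 * qh G μ δ e) + qh G μ δ e := by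
        refine add_le_add (h1.trans (add_le_add le_rfl (E_pass1 H hh))) le_rfl
    _ = q3 G (nextLaw (stp (G := G) δ) μ) e * qb G μ δ e + 7 * qh G μ δ e := by ring
    _ ≤ q3 G (nextLaw (stp (G := G) δ) μ) e * qb G μ δ e + 10 ^ 3 * eta G μ δ e := by
        gcongr
        · norm_num
        · exact qh_le_eta H


/-! ### big comps -/

/-- passive with exactly `a` ports -/
noncomputable def pa (a : ℕ) (L : Loc V) : ℝ≥0∞ := ind (passS L ∧ L.ports.card = a)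

theorem pa_split (L : Loc V) (F : ℕ → ℝ≥0∞) :
    ind (passS L) * F L.ports.card = ∑ a ∈ Finset.Icc 3 7, F a * pa a L := by
  by_cases h : passS L
  · rw [ind_true h, one_mul, Finset.sum_eq_single L.ports.card]
    · unfold pa
      rw [ind_true ⟨h, rfl⟩, mul_one]
    · intro b _ hb
      unfold pa
      rw [ind_false (fun hh => hb hh.2.symm), mul_zero]
    · intro hn
      exact absurd (Finset.mem_Icc.2 ⟨h.2.1, h.2.2⟩) hn
  · rw [ind_false h, zero_mul]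
    symm
    refine Finset.sum_eq_zero fun a _ => ?_
    unfold pa
    rw [ind_false (fun hh => h hh.1), mul_zero]

theorem Hd_pa [Countable V] (a : ℕ) : Hd (G := G) (fun x e => pa a (x.1 e.2)) :=
  Hd_F (fun P S => ind ((S = ∅ ∧ 3 ≤ P.card ∧ P.card ≤ 7) ∧ P.card = a)) (fun φ P S => by
    simp only [image_card, image_empty_iff])

theorem Tl_pa [Countable V] (a : ℕ) : Tl (G := G) (fun x e _ => pa a (x.1 e.2)) :=
  Tl_F (fun P S _ _ => ind ((S = ∅ ∧ 3 ≤ P.card ∧ P.card ≤ 7) ∧ P.card = a))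

theorem Tl_wire [Countable V] : Tl (G := G) (fun x e _ => ind (wire (x.1 e.2))) :=
  Tl_F (fun P S _ _ => ind (S = ∅ ∧ P.card = 2))

noncomputable def qn (G : SimpleGraph V) (μ : Measure (St V)) (e : V × V) (a : ℕ) : ℝ≥0∞ :=
  br (G := G) μ e (fun x e => pa a (x.1 e.2))

theorem qn_three : qn G μ e 3 = q3 G μ e := rfl

theorem qn_sum (H : Hyp G μ δ e Δ) : qn G μ e 4 + qn G μ e 5 + qn G μ e 6 + qn G μ e 7 ≤ qS G μ e := by
  have := countable_V H.std.tree Δ H.std.reg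
  unfold qn qS br
  rw [← EE_add ((Hd_pa 4).meas e), ← EE_add (((Hd_pa 4).add (Hd_pa 5)).meas e),
    ← EE_add ((((Hd_pa 4).add (Hd_pa 5)).add (Hd_pa 6)).meas e)]
  refine EE_mono (Filter.Eventually.of_forall fun x _ => ?_)
  show pa 4 (x.1 e.2) + pa 5 (x.1 e.2) + pa 6 (x.1 e.2) + pa 7 (x.1 e.2) ≤
    ind (passS (x.1 e.2) ∧ 4 ≤ (x.1 e.2).ports.card)
  generalize x.1 e.2 = L
  by_cases h : passS L
  · have h3 := h.2.1
    have h7 := h.2.2
    obtain h' | h' | h' | h' | h' : L.ports.card = 3 ∨ L.ports.card = 4 ∨ L.ports.card = 5 ∨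
      L.ports.card = 6 ∨ L.ports.card = 7 := by omega
    all_goals simp [pa, ind, h, h']
  · simp [pa, ind, h]

theorem one_W (H : Hyp G μ δ e Δ) (b : ℕ) :
    br (G := G) μ e (fun x e => ind (wire (x.1 e.2)) * ∑ g ∈ onw x.1 e, pa b (x.1 g.2)) ≤
      qy G μ e * qn G μ e b := by
  have := countable_V H.std.tree Δ H.std.reg
  unfold br
  simp_rw [Finset.mul_sum]
  refine E_fact H Tl_wire (Hd_pa b) ?_
  unfold qy br
  refine EE_mono ?_
  filter_upwards [ae_facts H.std H.law δ] with x hx ha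
  rw [Finset.sum_const, nsmul_eq_mul]
  by_cases ht : wire (x.1 e.2)
  · have h1 := card_onw hx.1.toWF0 ha
    have h2 := ht.2
    have h3 : (onw x.1 e).card = 1 := by omega
    rw [h3]; simp
  · rw [ind_false ht]; simp

theorem one_P (H : Hyp G μ δ e Δ) (a : ℕ) {g : XX G → V × V → ℝ≥0∞} (hg : Hd g) :
    EE (G := G) μ e (fun x => pa a (x.1 e.2) * ∑ p ∈ onw x.1 e, g x p) ≤
      ((a - 1 : ℕ) : ℝ≥0∞) * qn G μ e a * br μ e g := by
  have := countable_V H.std.tree Δ H.std.reg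
  simp_rw [Finset.mul_sum]
  refine E_fact H (Tl_pa a) hg ?_
  unfold qn br
  rw [← EE_mul_left _ ((Hd_pa a).meas e)]
  refine EE_mono ?_
  filter_upwards [ae_facts H.std H.law δ] with x hx ha
  rw [Finset.sum_const, nsmul_eq_mul]
  by_cases ht : passS (x.1 e.2) ∧ (x.1 e.2).ports.card = a
  · have h1 := card_onw hx.1.toWF0 ha
    have h3 : (onw x.1 e).card = a - 1 := by omega
    rw [h3]
  · unfold pa
    rw [ind_false ht]; simp

theorem phi2_comm (a b : ℕ) : phi2 a b = phi2 b a := by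
  unfold phi2
  rw [add_comm a b]

theorem phi2_sym (a b : ℕ) (ha : 1 ≤ a) (hb : 1 ≤ b) :
    phi2 a b * ((a - 1 : ℕ) : ℝ≥0∞) + phi2 b a * ((b - 1 : ℕ) : ℝ≥0∞) ≤ ((a + b - 9 : ℕ) : ℝ≥0∞) := by
  rw [phi2_comm b a, ← mul_add]
  have h : ((a - 1 : ℕ) : ℝ≥0∞) + ((b - 1 : ℕ) : ℝ≥0∞) = ((a + b - 2 : ℕ) : ℝ≥0∞) := by
    rw [← Nat.cast_add]
    congr 1
    omega
  rw [h, mul_comm]
  exact ENNReal.mul_div_le

theorem one_sym (ν : ℕ → ℝ≥0∞) :
    ∑ a ∈ Finset.Icc 3 7, ∑ b ∈ Finset.Icc 3 7, phi2 a b * (((a - 1 : ℕ) : ℝ≥0∞) * (ν a * ν b)) ≤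
      ν 3 * (ν 4 + ν 5 + ν 6 + ν 7) + 5 / 2 * (ν 4 + ν 5 + ν 6 + ν 7) ^ 2 := by
  set T := ∑ a ∈ Finset.Icc 3 7, ∑ b ∈ Finset.Icc 3 7,
    phi2 a b * (((a - 1 : ℕ) : ℝ≥0∞) * (ν a * ν b)) with hT
  have hT' : T = ∑ a ∈ Finset.Icc 3 7, ∑ b ∈ Finset.Icc 3 7,
      phi2 b a * (((b - 1 : ℕ) : ℝ≥0∞) * (ν a * ν b)) := by
    rw [hT, Finset.sum_comm]
    refine Finset.sum_congr rfl fun a _ => Finset.sum_congr rfl fun b _ => ?_
    rw [mul_comm (ν b) (ν a)]
  have h2T : 2 * T ≤ ∑ a ∈ Finset.Icc 3 7, ∑ b ∈ Finset.Icc 3 7,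
      ((a + b - 9 : ℕ) : ℝ≥0∞) * (ν a * ν b) := by
    rw [two_mul]
    nth_rewrite 2 [hT']
    rw [hT, ← Finset.sum_add_distrib]
    refine Finset.sum_le_sum fun a ha => ?_
    rw [← Finset.sum_add_distrib]
    refine Finset.sum_le_sum fun b hb => ?_
    have h1 := (Finset.mem_Icc.1 ha).1
    have h2 := (Finset.mem_Icc.1 hb).1
    calc phi2 a b * (((a - 1 : ℕ) : ℝ≥0∞) * (ν a * ν b)) +
          phi2 b a * (((b - 1 : ℕ) : ℝ≥0∞) * (ν a * ν b))
        = (phi2 a b * ((a - 1 : ℕ) : ℝ≥0∞) + phi2 b a * ((b - 1 : ℕ) : ℝ≥0∞)) * (ν a * ν b) := by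
          ring
      _ ≤ _ := by
          refine mul_le_mul' (phi2_sym a b (by omega) (by omega)) le_rfl
  have hI : Finset.Icc 3 7 = ({3, 4, 5, 6, 7} : Finset ℕ) := by decide
  have hexp : ∑ a ∈ Finset.Icc 3 7, ∑ b ∈ Finset.Icc 3 7,
      ((a + b - 9 : ℕ) : ℝ≥0∞) * (ν a * ν b) =
      2 * (ν 3 * ν 7) + 2 * (ν 4 * ν 6) + 4 * (ν 4 * ν 7) + ν 5 * ν 5 + 4 * (ν 5 * ν 6) +
      6 * (ν 5 * ν 7) + 3 * (ν 6 * ν 6) + 8 * (ν 6 * ν 7) + 5 * (ν 7 * ν 7) := by
    rw [hI]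
    simp only [Finset.sum_insert, Finset.sum_singleton, Finset.mem_insert, Finset.mem_singleton,
      Nat.reduceEqDiff, or_self, not_false_eq_true, Nat.reduceAdd, Nat.reduceSub, Nat.cast_zero,
      zero_mul, zero_add, add_zero, Nat.cast_one, one_mul, Nat.cast_ofNat]
    ring
  have h3 : 2 * T ≤ 2 * (ν 3 * (ν 4 + ν 5 + ν 6 + ν 7) + 5 / 2 * (ν 4 + ν 5 + ν 6 + ν 7) ^ 2) := by
    refine h2T.trans ?_
    rw [hexp, mul_add, ← mul_assoc 2 (5 / 2), ENNReal.mul_div_cancel (by simp) (by simp)]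
    calc _ ≤ (2 * (ν 3 * ν 7) + 2 * (ν 4 * ν 6) + 4 * (ν 4 * ν 7) + ν 5 * ν 5 + 4 * (ν 5 * ν 6) +
          6 * (ν 5 * ν 7) + 3 * (ν 6 * ν 6) + 8 * (ν 6 * ν 7) + 5 * (ν 7 * ν 7)) +
          (2 * ν 3 * (ν 4 + ν 5 + ν 6) + 5 * ν 4 ^ 2 + 4 * ν 5 ^ 2 + 2 * ν 6 ^ 2 +
          10 * (ν 4 * ν 5) + 8 * (ν 4 * ν 6) + 6 * (ν 4 * ν 7) + 6 * (ν 5 * ν 6) +
          4 * (ν 5 * ν 7) + 2 * (ν 6 * ν 7)) := le_self_add
      _ = _ := by ring
  exact (ENNReal.mul_le_mul_iff_right (by simp) (by simp)).1 h3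

theorem one_x (H : Hyp G μ δ e Δ) :
    qx G (nextLaw (stp (G := G) δ) μ) e * qb G μ δ e ≤
      qy G μ e * (q3 G μ e * qS G μ e + 5 / 2 * qS G μ e ^ 2) +
      10 ^ 4 * (qm G μ e + qA δ) + 10 ^ 4 * eta G μ δ e ^ 2 := by
  have := countable_V H.std.tree Δ H.std.reg
  have hG := H.std.tree
  have hW : ∀ b, Hd (G := G) (fun x e => ind (wire (x.1 e.2)) *
      ∑ g ∈ onw x.1 e, pa b (x.1 g.2)) := fun b => Hd_wire.mul (Hd_sum0 hG (Hd_pa b))
  have hab : ∀ a b, Hd (G := G) (fun x e => phi2 a b * (pa a (x.1 e.2) *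
      ∑ p ∈ onw x.1 e, ind (wire (x.1 p.2)) * ∑ g ∈ onw x.1 p, pa b (x.1 g.2))) :=
    fun a b => (Hd_const _).mul ((Hd_pa a).mul (Hd_sum0 hG (hW b)))
  -- the main term
  let Mn : XX G → V × V → ℝ≥0∞ := fun x e => ∑ a ∈ Finset.Icc 3 7, ∑ b ∈ Finset.Icc 3 7,
    phi2 a b * (pa a (x.1 e.2) *
      ∑ p ∈ onw x.1 e, ind (wire (x.1 p.2)) * ∑ g ∈ onw x.1 p, pa b (x.1 g.2))
  have hsumHd : ∀ (S : Finset ℕ) (F : ℕ → XX G → V × V → ℝ≥0∞), (∀ a, Hd (F a)) →
      Hd (fun x e => ∑ a ∈ S, F a x e) := by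
    intro S F hF
    induction S using Finset.induction_on with
    | empty => simpa using Hd_const (G := G) 0
    | insert a S ha ih =>
      simp_rw [Finset.sum_insert ha]
      exact (hF a).add ih
  have hMn : Hd Mn := hsumHd _ _ fun a => hsumHd _ _ fun b => hab a b
  have hsumE : ∀ (S : Finset ℕ) (F : ℕ → XX G → V × V → ℝ≥0∞), (∀ a, Hd (F a)) →
      EE (G := G) μ e (fun x => ∑ a ∈ S, F a x e) = ∑ a ∈ S, EE (G := G) μ e (fun x => F a x e) := by
    intro S F hF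
    induction S using Finset.induction_on with
    | empty =>
      simp only [Finset.sum_empty]
      exact EE_const H.law H.adj 0
    | insert a S ha ih =>
      simp_rw [Finset.sum_insert ha]
      rw [EE_add ((hF a).meas e), ih]
  have h1 := one_next H (fun P S => xw (⟨∅, P, S, fun p => p.1⟩ : Loc V))
      (hMn.add (Hd_Bad hG δ)) (by
    filter_upwards [ae_PH H] with x hx ha ho
    show xw (stp δ x e.2) ≤ _
    refine (pw_xw (hx ha ho)).trans (le_of_eq ?_)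
    show _ = Mn x e + Bad (OO δ x) x.1 e
    congr 1
    show _ = ∑ a ∈ Finset.Icc 3 7, ∑ b ∈ Finset.Icc 3 7,
      phi2 a b * (pa a (x.1 e.2) *
        ∑ p ∈ onw x.1 e, ind (wire (x.1 p.2)) * ∑ g ∈ onw x.1 p, pa b (x.1 g.2))
    have e1 : ∀ s : ℕ, ∑ p ∈ onw x.1 e, ind (wire (x.1 p.2)) * ∑ g ∈ onw x.1 p,
        ind (passS (x.1 g.2)) * phi2 s (x.1 g.2).ports.card =
        ∑ b ∈ Finset.Icc 3 7, phi2 s b * ∑ p ∈ onw x.1 e, ind (wire (x.1 p.2)) *
          ∑ g ∈ onw x.1 p, pa b (x.1 g.2) := by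
      intro s
      simp_rw [Finset.mul_sum]
      rw [Finset.sum_comm]
      refine Finset.sum_congr rfl fun p _ => ?_
      rw [Finset.sum_comm]
      refine Finset.sum_congr rfl fun g _ => ?_
      rw [pa_split (x.1 g.2) (fun b => phi2 s b), Finset.mul_sum]
      refine Finset.sum_congr rfl fun b _ => ?_
      ring
    rw [pa_split (x.1 e.2) (fun s => ∑ p ∈ onw x.1 e, ind (wire (x.1 p.2)) *
      ∑ g ∈ onw x.1 p, ind (passS (x.1 g.2)) * phi2 s (x.1 g.2).ports.card)]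
    refine Finset.sum_congr rfl fun a _ => ?_
    rw [e1 a, Finset.sum_mul]
    refine Finset.sum_congr rfl fun b _ => ?_
    ring)
  refine h1.trans ?_
  have h2 : br μ e Mn ≤ qy G μ e * (q3 G μ e * qS G μ e + 5 / 2 * qS G μ e ^ 2) := by
    have h3 : br μ e Mn = ∑ a ∈ Finset.Icc 3 7, ∑ b ∈ Finset.Icc 3 7,
        EE (G := G) μ e (fun x => phi2 a b * (pa a (x.1 e.2) *
          ∑ p ∈ onw x.1 e, ind (wire (x.1 p.2)) * ∑ g ∈ onw x.1 p, pa b (x.1 g.2))) := by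
      unfold br
      rw [hsumE _ _ (fun a => hsumHd _ _ fun b => hab a b)]
      exact Finset.sum_congr rfl fun a _ => hsumE _ _ (fun b => hab a b)
    rw [h3]
    calc _ ≤ ∑ a ∈ Finset.Icc 3 7, ∑ b ∈ Finset.Icc 3 7, phi2 a b *
          (((a - 1 : ℕ) : ℝ≥0∞) * qn G μ e a * (qy G μ e * qn G μ e b)) := by
          refine Finset.sum_le_sum fun a _ => Finset.sum_le_sum fun b _ => ?_
          rw [EE_mul_left _ (((Hd_pa a).mul (Hd_sum0 hG (hW b))).meas e)]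
          refine mulL ((one_P H a (hW b)).trans (mulL (one_W H b)))
      _ = qy G μ e * ∑ a ∈ Finset.Icc 3 7, ∑ b ∈ Finset.Icc 3 7, phi2 a b *
          (((a - 1 : ℕ) : ℝ≥0∞) * (qn G μ e a * qn G μ e b)) := by
          rw [Finset.mul_sum]
          refine Finset.sum_congr rfl fun a _ => ?_
          rw [Finset.mul_sum]
          refine Finset.sum_congr rfl fun b _ => ?_
          ring
      _ ≤ qy G μ e * (qn G μ e 3 * (qn G μ e 4 + qn G μ e 5 + qn G μ e 6 + qn G μ e 7) +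
          5 / 2 * (qn G μ e 4 + qn G μ e 5 + qn G μ e 6 + qn G μ e 7) ^ 2) :=
          mulL (one_sym _)
      _ ≤ _ := by
          have := qn_sum H
          rw [qn_three]
          gcongr
  unfold br
  rw [EE_add (hMn.meas e)]
  calc _ ≤ qy G μ e * (q3 G μ e * qS G μ e + 5 / 2 * qS G μ e ^ 2) +
        (10 ^ 3 * (qm G μ e + qA δ) + 10 ^ 3 * eta G μ δ e ^ 2) := add_le_add h2 (Bad_le H)
    _ ≤ qy G μ e * (q3 G μ e * qS G μ e + 5 / 2 * qS G μ e ^ 2) +
        (10 ^ 4 * (qm G μ e + qA δ) + 10 ^ 4 * eta G μ δ e ^ 2) := by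
        refine add_le_add le_rfl (add_le_add (mul_le_mul' ?_ le_rfl) (mul_le_mul' ?_ le_rfl)) <;>
          norm_num
    _ = _ := by ring

theorem one_step (H : Hyp G μ δ e Δ) :
    Law G (nextLaw (stp (G := G) δ) μ) ∧
      OneStep G μ (nextLaw (stp (G := G) δ) μ) δ e := by
  refine ⟨next_Law H.std H.law H.adj (qb_ne_zero H) ?_, ?_⟩
  · filter_upwards [ae_region H, ae_facts H.std H.law δ] with x hx hf v
    exact hotSet_finite hf.1.toWF0 _ (hx v)
  · exact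
    { hh := qh_le_eta H
      hb := qb_add_qh H.std H.law δ H.adj
      h3S := q3S_le H
      x := one_x H
      y := one_y H
      m := one_m H
      r := one_r H
      p3u := one_p3u H
      p3l := one_p3l H }

end ONE

end Pool.Agent.PM
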