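import Pool.Agent.Lib.MP_947a32_pr.Op1

/-!
# MP_947a32_pr, piece OP2 (helper98): matching semantics is preserved by `op` and `chill`
-/

set_option autoImplicit false

open Classical MeasureTheory
open scoped ENNReal

namespace Pool.Agent.PM

variable {V : Type} {G : SimpleGraph V}


/-! ### geometry of the two comps -/

theorem op2_sideA {σ : St V} (h : WF0 G σ) {d : V × V} (hd : d ∈ (σ d.1).ports) {v : V}
    (hv : v ∈ (σ d.1).comp) : side G d v := by
  have hadj := (h.tail _ _ hd).2
  exact (h.sep d hd d.1 v hv).2 (MP947a32.Tree.self_mem_side hadj)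

theorem op2_sideB {σ : St V} (h : WF0 G σ) {d : V × V} (hd : d ∈ (σ d.1).ports) {v : V}
    (hv : v ∈ (σ d.2).comp) : ¬ side G d v := by
  intro hs
  have h1 : side G d d.2 := (h.sep d hd d.2 v hv).1 hs
  unfold side at h1
  rw [SimpleGraph.dist_self] at h1
  exact Nat.not_lt_zero _ h1

theorem op2_disj {σ : St V} (h : WF0 G σ) {d : V × V} (hd : d ∈ (σ d.1).ports) {v : V}
    (hv : v ∈ (σ d.1).comp) : v ∉ (σ d.2).comp :=
  fun hv' => op2_sideB h hd hv' (op2_sideA h hd hv)

theorem op2_cross (hG : G.IsTree) {σ : St V} (h : WF0 G σ) {d : V × V}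
    (hd : d ∈ (σ d.1).ports) {v w : V} (hv : v ∈ (σ d.1).comp) (hw : w ∈ (σ d.2).comp)
    (hvw : G.Adj v w) : v = d.1 ∧ w = d.2 := by
  have hadj := (h.tail _ _ hd).2
  have h1 : v ∈ MP947a32.Tree.Side G d.1 d.2 := op2_sideA h hd hv
  have h2 : w ∉ MP947a32.Tree.Side G d.1 d.2 := op2_sideB h hd hw
  exact MP947a32.Tree.side_cross hG hadj hvw h1
    ((MP947a32.Tree.not_mem_side_iff hG hadj w).1 h2)

theorem op2_symm {σ : St V} (h : WF0 G σ) {u v : V} (hu : u ∈ (σ v).comp) :
    v ∈ (σ u).comp := by
  rw [(h.eqv v u hu).1]
  exact h.mem v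

theorem op2_portsA {σ : St V} (h : WF0 G σ) {d : V × V} (hd : d ∈ (σ d.1).ports) {p : V × V}
    (hp : p ∈ (σ d.1).ports) : p ∉ (σ d.2).ports := fun hp' =>
  op2_disj h hd (h.tail _ _ hp).1 (h.tail _ _ hp').1

theorem op2_portsB {σ : St V} (h : WF0 G σ) {d : V × V} (hd : d ∈ (σ d.1).ports) {p : V × V}
    (hp : p ∈ (σ d.2).ports) : p ∉ (σ d.1).ports := fun hp' => op2_portsA h hd hp' hp

theorem op2_val {L L' : Loc V} (hs : L.spec = L'.spec) (p r : V × V) :
    val L p r ↔ val L' p r := by
  unfold val
  rw [hs]

/-! ### the general merger of two comps -/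

theorem op2_merge (hG : G.IsTree) {σ σ' : St V} (h : WF G σ) (h' : WF0 G σ') {d : V × V}
    (hd : d ∈ (σ d.1).ports) (hds : d.swap ∈ (σ d.2).ports)
    (hD : ∀ v w, Dec σ v w → Dec σ' v w)
    (hout : ∀ v, v ∉ (σ d.1).comp → v ∉ (σ d.2).comp → σ' v = σ v)
    (hcomp : ∀ v, v ∈ (σ d.1).comp ∨ v ∈ (σ d.2).comp →
      (σ' v).comp = (σ d.1).comp ∪ (σ d.2).comp)
    (hports : ∀ v, v ∈ (σ d.1).comp ∨ v ∈ (σ d.2).comp →
      (σ' v).ports = (σ d.1).ports.erase d ∪ (σ d.2).ports.erase d.swap)
    (fA fB : V × V → V × V)
    (hMA : ∀ v ∈ (σ d.1).comp, ∀ p ∈ (σ d.1).ports.erase d ∪ (σ d.2).ports.erase d.swap,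
      (σ' v).M p = (σ v).M (fA p))
    (hMB : ∀ v ∈ (σ d.2).comp, ∀ p ∈ (σ d.1).ports.erase d ∪ (σ d.2).ports.erase d.swap,
      (σ' v).M p = (σ v).M (fB p))
    (hfA : ∀ p ∈ (σ d.1).ports.erase d ∪ (σ d.2).ports.erase d.swap, fA p ∈ (σ d.1).ports)
    (hfB : ∀ p ∈ (σ d.1).ports.erase d ∪ (σ d.2).ports.erase d.swap, fB p ∈ (σ d.2).ports)
    (hvA : ∀ r ∈ (σ d.1).ports, r ≠ d →
      ∀ p ∈ (σ d.1).ports.erase d ∪ (σ d.2).ports.erase d.swap,
        (val (σ d.1) (fA p) r ↔ val (σ' d.1) p r))
    (hvB : ∀ r ∈ (σ d.2).ports, r ≠ d.swap →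
      ∀ p ∈ (σ d.1).ports.erase d ∪ (σ d.2).ports.erase d.swap,
        (val (σ d.2) (fB p) r ↔ val (σ' d.1) p r))
    (hAB : ∀ p ∈ (σ d.1).ports.erase d ∪ (σ d.2).ports.erase d.swap,
        (val (σ d.1) (fA p) d ↔ val (σ d.2) (fB p) d.swap)) :
    WF G σ' := by
  have h0 : WF0 G σ := h.toWF0
  -- facts on the old comps
  have eA : ∀ v ∈ (σ d.1).comp, (σ v).comp = (σ d.1).comp ∧ (σ v).ports = (σ d.1).ports ∧
      (σ v).spec = (σ d.1).spec := fun v hv => h0.eqv _ _ hv
  have eB : ∀ v ∈ (σ d.2).comp, (σ v).comp = (σ d.2).comp ∧ (σ v).ports = (σ d.2).ports ∧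
      (σ v).spec = (σ d.2).spec := fun v hv => h0.eqv _ _ hv
  have hmA : d.1 ∈ (σ d.1).comp := h0.mem _
  have hmB : d.2 ∈ (σ d.2).comp := h0.mem _
  have hspec : ∀ v, v ∈ (σ d.1).comp ∨ v ∈ (σ d.2).comp → (σ' v).spec = (σ' d.1).spec := by
    intro v hv
    have : v ∈ (σ' d.1).comp := by
      rw [hcomp d.1 (Or.inl hmA)]
      exact Finset.mem_union.2 hv
    exact (h'.eqv _ _ this).2.2
  have htA : ∀ r ∈ (σ d.1).ports, r.1 ∈ (σ d.1).comp := fun r hr => (h0.tail _ _ hr).1
  have htB : ∀ r ∈ (σ d.2).ports, r.1 ∈ (σ d.2).comp := fun r hr => (h0.tail _ _ hr).1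
  -- crossing values
  have hMd1 : ∀ p ∈ (σ d.1).ports, ((σ d.1).M p = d.2 ↔ val (σ d.1) p d) :=
    fun p hp => h.out d.1 d hd rfl p hp
  have hMd2 : ∀ p ∈ (σ d.2).ports, ((σ d.2).M p = d.1 ↔ val (σ d.2) p d.swap) :=
    fun p hp => h.out d.2 d.swap hds rfl p hp
  refine { toWF0 := h', two := ?_, adj := ?_, out := ?_, inn := ?_, ded := ?_ }
  · intro v
    by_cases hv : v ∈ (σ d.1).comp ∨ v ∈ (σ d.2).comp
    · rw [hports v hv, Finset.card_union_of_disjoint]
      · rw [Finset.card_erase_of_mem hd, Finset.card_erase_of_mem hds]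
        have h1 := h.two d.1
        have h2 := h.two d.2
        omega
      · rw [Finset.disjoint_left]
        intro p hp hp'
        exact op2_portsA h0 hd (Finset.mem_of_mem_erase hp) (Finset.mem_of_mem_erase hp')
    · push Not at hv
      rw [hout v hv.1 hv.2]
      exact h.two v
  · intro v p hp
    by_cases hv : v ∈ (σ d.1).comp ∨ v ∈ (σ d.2).comp
    · rw [hports v hv] at hp
      rcases hv with hv | hv
      · rw [hMA v hv p hp]
        exact h.adj v _ (by rw [(eA v hv).2.1]; exact hfA p hp)
      · rw [hMB v hv p hp]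
        exact h.adj v _ (by rw [(eB v hv).2.1]; exact hfB p hp)
    · push Not at hv
      rw [hout v hv.1 hv.2] at hp ⊢
      exact h.adj v p hp
  · intro v r hr hrv p hp
    by_cases hv : v ∈ (σ d.1).comp ∨ v ∈ (σ d.2).comp
    · have hs := hspec v hv
      rw [hports v hv] at hp hr
      rw [op2_val hs]
      rcases hv with hv | hv
      · have hrA : r ∈ (σ d.1).ports ∧ r ≠ d := by
          rcases Finset.mem_union.1 hr with h1 | h1
          · exact ⟨Finset.mem_of_mem_erase h1, Finset.ne_of_mem_erase h1⟩
          · exfalso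
            have := htB r (Finset.mem_of_mem_erase h1)
            rw [hrv] at this
            exact op2_disj h0 hd hv this
        rw [hMA v hv p hp, ← hvA r hrA.1 hrA.2 p hp, ← op2_val (eA v hv).2.2]
        exact h.out v r (by rw [(eA v hv).2.1]; exact hrA.1) hrv _
          (by rw [(eA v hv).2.1]; exact hfA p hp)
      · have hrB : r ∈ (σ d.2).ports ∧ r ≠ d.swap := by
          rcases Finset.mem_union.1 hr with h1 | h1
          · exfalso
            have := htA r (Finset.mem_of_mem_erase h1)
            rw [hrv] at this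
            exact op2_disj h0 hd this hv
          · exact ⟨Finset.mem_of_mem_erase h1, Finset.ne_of_mem_erase h1⟩
        rw [hMB v hv p hp, ← hvB r hrB.1 hrB.2 p hp, ← op2_val (eB v hv).2.2]
        exact h.out v r (by rw [(eB v hv).2.1]; exact hrB.1) hrv _
          (by rw [(eB v hv).2.1]; exact hfB p hp)
    · push Not at hv
      rw [hout v hv.1 hv.2] at hp hr ⊢
      exact h.out v r hr hrv p hp
  · intro v p hp hw
    by_cases hv : v ∈ (σ d.1).comp ∨ v ∈ (σ d.2).comp
    · rw [hports v hv] at hp
      rw [hcomp v hv] at hw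
      rcases hv with hv | hv
      · rw [hMA v hv p hp] at hw ⊢
        have hpA : fA p ∈ (σ v).ports := by rw [(eA v hv).2.1]; exact hfA p hp
        rcases Finset.mem_union.1 hw with hwA | hwB
        · rw [hMA _ hwA p hp]
          exact h.inn v _ hpA (by rw [(eA v hv).1]; exact hwA)
        · obtain ⟨e1, e2⟩ := op2_cross hG h0 hd hv hwB (h.adj v _ hpA)
          rw [hMB _ hwB p hp, e2, e1]
          rw [e1] at e2
          exact (hMd2 _ (hfB p hp)).2 ((hAB p hp).1 ((hMd1 _ (hfA p hp)).1 e2))
      · rw [hMB v hv p hp] at hw ⊢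
        have hpB : fB p ∈ (σ v).ports := by rw [(eB v hv).2.1]; exact hfB p hp
        rcases Finset.mem_union.1 hw with hwA | hwB
        · obtain ⟨e1, e2⟩ := op2_cross hG h0 hd hwA hv (h.adj v _ hpB).symm
          rw [hMA _ hwA p hp, e1, e2]
          rw [e2] at e1
          exact (hMd1 _ (hfA p hp)).2 ((hAB p hp).2 ((hMd2 _ (hfB p hp)).1 e1))
        · rw [hMB _ hwB p hp]
          exact h.inn v _ hpB (by rw [(eB v hv).1]; exact hwB)
    · push Not at hv
      rw [hout v hv.1 hv.2] at hp hw ⊢
      have hvw := op2_symm h0 hw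
      have h1 : (σ v).M p ∉ (σ d.1).comp := by
        intro hc
        rw [(eA _ hc).1] at hvw
        exact hv.1 hvw
      have h2 : (σ v).M p ∉ (σ d.2).comp := by
        intro hc
        rw [(eB _ hc).1] at hvw
        exact hv.2 hvw
      rw [hout _ h1 h2]
      exact h.inn v p hp hw
  · intro v p hp hw hvw
    by_cases hv : v ∈ (σ d.1).comp ∨ v ∈ (σ d.2).comp
    · rw [hports v hv] at hp hvw
      rw [hcomp v hv] at hw
      rcases hv with hv | hv
      · rw [hMA v hv p hp] at hw hvw ⊢
        have hpA : fA p ∈ (σ v).ports := by rw [(eA v hv).2.1]; exact hfA p hp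
        have hwA : (σ v).M (fA p) ∉ (σ v).comp := by
          rw [(eA v hv).1]
          exact fun hc => hw (Finset.mem_union_left _ hc)
        have hnp : (v, (σ v).M (fA p)) ∉ (σ v).ports := by
          rw [(eA v hv).2.1]
          intro hc
          by_cases hcd : (v, (σ v).M (fA p)) = d
          · apply hw
            have : (σ v).M (fA p) = d.2 := congrArg Prod.snd hcd
            rw [this]
            exact Finset.mem_union_right _ hmB
          · exact hvw (Finset.mem_union_left _ (Finset.mem_erase.2 ⟨hcd, hc⟩))
        obtain ⟨h1, h2⟩ := h.ded v _ hpA hwA hnp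
        exact ⟨hD _ _ h1, hD _ _ h2⟩
      · rw [hMB v hv p hp] at hw hvw ⊢
        have hpB : fB p ∈ (σ v).ports := by rw [(eB v hv).2.1]; exact hfB p hp
        have hwB : (σ v).M (fB p) ∉ (σ v).comp := by
          rw [(eB v hv).1]
          exact fun hc => hw (Finset.mem_union_right _ hc)
        have hnp : (v, (σ v).M (fB p)) ∉ (σ v).ports := by
          rw [(eB v hv).2.1]
          intro hc
          by_cases hcd : (v, (σ v).M (fB p)) = d.swap
          · apply hw
            have : (σ v).M (fB p) = d.1 := congrArg Prod.snd hcd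
            rw [this]
            exact Finset.mem_union_left _ hmA
          · exact hvw (Finset.mem_union_right _ (Finset.mem_erase.2 ⟨hcd, hc⟩))
        obtain ⟨h1, h2⟩ := h.ded v _ hpB hwB hnp
        exact ⟨hD _ _ h1, hD _ _ h2⟩
    · push Not at hv
      rw [hout v hv.1 hv.2] at hp hw hvw ⊢
      obtain ⟨h1, h2⟩ := h.ded v p hp hw hvw
      exact ⟨hD _ _ h1, hD _ _ h2⟩

/-! ### `op` -/

theorem op2_other {P : Finset (V × V)} {d : V × V} (hd : d ∈ P) (hc : P.card = 2) :
    ∃ g, P = {d, g} ∧ g ≠ d ∧ other P d = g := by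
  obtain ⟨a, b, hab, rfl⟩ := Finset.card_eq_two.1 hc
  have key : ∀ g, g ≠ d → ({a, b} : Finset (V × V)) = {d, g} → other {a, b} d = g := by
    intro g hgd hP
    have hex : ∃! x, x ∈ ({a, b} : Finset (V × V)) ∧ x ≠ d := by
      refine ⟨g, ⟨by rw [hP]; simp, hgd⟩, ?_⟩
      rintro x ⟨hx, hxd⟩
      rw [hP] at hx
      simp only [Finset.mem_insert, Finset.mem_singleton] at hx
      exact hx.resolve_left hxd
    unfold other
    rw [dif_pos hex]
    exact hex.unique hex.exists.choose_spec ⟨by rw [hP]; simp, hgd⟩
  simp only [Finset.mem_insert, Finset.mem_singleton] at hd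
  rcases hd with rfl | rfl
  · exact ⟨b, rfl, hab.symm, key b hab.symm rfl⟩
  · exact ⟨a, Finset.pair_comm _ _, hab, key a hab (Finset.pair_comm _ _)⟩

theorem op2_val_spec {L : Loc V} {p r : V × V} (hne : r ≠ p) : val L p r ↔ r ∈ L.spec := by
  unfold val
  constructor
  · rintro (⟨h1, _⟩ | ⟨_, h1⟩)
    · exact absurd h1 hne
    · exact h1
  · exact fun h1 => Or.inr ⟨hne, h1⟩

theorem op2_val_self {L : Loc V} {r : V × V} : val L r r ↔ r ∉ L.spec := by
  unfold val
  constructor
  · rintro (⟨_, h1⟩ | ⟨h1, _⟩)
    · exact h1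
    · exact absurd rfl h1
  · exact fun h1 => Or.inl ⟨rfl, h1⟩

theorem op_WF (hG : G.IsTree) {σ : St V} (h : WF G σ) {d : V × V} (hd : alive σ d) :
    WF G (op σ d) := by
  have h0 : WF0 G σ := h.toWF0
  have hd1 : d ∈ (σ d.1).ports := hd
  have hd2 : d.swap ∈ (σ d.2).ports := h0.swap _ _ hd1
  have h' : WF0 G (op σ d) := op_WF0 hG h0 d
  have hD : ∀ v w, Dec σ v w → Dec (op σ d) v w := fun v w => op_Dec h0 d
  have hout : ∀ v, v ∉ (σ d.1).comp → v ∉ (σ d.2).comp → op σ d v = σ v := by
    intro v h1 h2
    unfold op
    rw [if_neg]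
    rintro ⟨-, -, h3 | h3⟩
    · exact h1 h3
    · exact h2 h3
  have hmA : d.1 ∈ (σ d.1).comp := h0.mem _
  have hmB : d.2 ∈ (σ d.2).comp := h0.mem _
  have eA : ∀ v ∈ (σ d.1).comp, (σ v).comp = (σ d.1).comp ∧ (σ v).ports = (σ d.1).ports ∧
      (σ v).spec = (σ d.1).spec := fun v hv => h0.eqv _ _ hv
  have eB : ∀ v ∈ (σ d.2).comp, (σ v).comp = (σ d.2).comp ∧ (σ v).ports = (σ d.2).ports ∧
      (σ v).spec = (σ d.2).spec := fun v hv => h0.eqv _ _ hv
  have hsA : ∀ r ∈ (σ d.1).spec, r ∈ (σ d.1).ports := fun r hr => h0.spec_sub _ hr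
  have hsB : ∀ r ∈ (σ d.2).spec, r ∈ (σ d.2).ports := fun r hr => h0.spec_sub _ hr
  have hne : ∀ p ∈ (σ d.1).ports, p ≠ d.swap := by
    intro p hp he
    rw [he] at hp
    exact op2_portsA h0 hd1 hp hd2
  have hne' : ∀ p ∈ (σ d.2).ports, p ≠ d := by
    intro p hp he
    rw [he] at hp
    exact op2_portsB h0 hd1 hp hd1
  by_cases hspec : (d ∈ (σ d.1).spec ↔ d.swap ∈ (σ d.2).spec)
  · by_cases hcard : 3 ≤ (σ d.1).ports.card ∧ 3 ≤ (σ d.2).ports.card
    · -- deletion
      have hop : ∀ v, v ∈ (σ d.1).comp ∨ v ∈ (σ d.2).comp → op σ d v =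
          { comp := (σ v).comp
            ports := ((σ v).ports.erase d).erase d.swap
            spec := ((σ v).spec.erase d).erase d.swap
            M := (σ v).M } := by
        intro v hv
        unfold op
        rw [if_pos ⟨hd1, hd2, hv⟩, if_pos hspec, if_pos hcard]
      have hM : ∀ v, (op σ d v).M = (σ v).M := by
        intro v
        by_cases hv : v ∈ (σ d.1).comp ∨ v ∈ (σ d.2).comp
        · rw [hop v hv]
        · push Not at hv
          rw [hout v hv.1 hv.2]
      have hC : ∀ v, (op σ d v).comp = (σ v).comp := by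
        intro v
        by_cases hv : v ∈ (σ d.1).comp ∨ v ∈ (σ d.2).comp
        · rw [hop v hv]
        · push Not at hv
          rw [hout v hv.1 hv.2]
      have hnot : ∀ v, v ∉ (σ d.1).comp → v ∉ (σ d.2).comp → d ∉ (σ v).ports ∧
          d.swap ∉ (σ v).ports := by
        intro v h1 h2
        constructor
        · intro hc
          have := op2_symm h0 (h0.tail _ _ hc).1
          exact h1 this
        · intro hc
          have := op2_symm h0 (h0.tail _ _ hc).1
          exact h2 this
      have hP : ∀ v r, r ∈ (op σ d v).ports ↔ r ∈ (σ v).ports ∧ r ≠ d ∧ r ≠ d.swap := by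
        intro v r
        by_cases hv : v ∈ (σ d.1).comp ∨ v ∈ (σ d.2).comp
        · rw [hop v hv]
          simp only [Finset.mem_erase]
          tauto
        · push Not at hv
          rw [hout v hv.1 hv.2]
          constructor
          · intro hr
            refine ⟨hr, ?_, ?_⟩
            · rintro rfl
              exact (hnot v hv.1 hv.2).1 hr
            · rintro rfl
              exact (hnot v hv.1 hv.2).2 hr
          · exact fun hr => hr.1
      have hS : ∀ v r, r ≠ d → r ≠ d.swap → (r ∈ (op σ d v).spec ↔ r ∈ (σ v).spec) := by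
        intro v r h1 h2
        by_cases hv : v ∈ (σ d.1).comp ∨ v ∈ (σ d.2).comp
        · rw [hop v hv]
          simp only [Finset.mem_erase]
          tauto
        · push Not at hv
          rw [hout v hv.1 hv.2]
      refine { toWF0 := h', two := ?_, adj := ?_, out := ?_, inn := ?_, ded := ?_ }
      · intro v
        by_cases hv : v ∈ (σ d.1).comp ∨ v ∈ (σ d.2).comp
        · rw [hop v hv]
          rcases hv with hv | hv
          · show 2 ≤ (((σ v).ports.erase d).erase d.swap).card
            rw [(eA v hv).2.1]
            rw [Finset.erase_eq_of_notMem (a := d.swap), Finset.card_erase_of_mem hd1]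
            · omega
            · intro hc
              exact hne _ (Finset.mem_of_mem_erase hc) rfl
          · show 2 ≤ (((σ v).ports.erase d).erase d.swap).card
            rw [(eB v hv).2.1]
            rw [Finset.erase_eq_of_notMem (a := d), Finset.card_erase_of_mem hd2]
            · omega
            · intro hc
              exact hne' _ hc rfl
        · push Not at hv
          rw [hout v hv.1 hv.2]
          exact h.two v
      · intro v p hp
        rw [hM]
        exact h.adj v p ((hP v p).1 hp).1
      · intro v r hr hrv p hp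
        rw [hM]
        rw [h.out v r ((hP v r).1 hr).1 hrv p ((hP v p).1 hp).1]
        unfold val
        rw [hS v r ((hP v r).1 hr).2.1 ((hP v r).1 hr).2.2]
      · intro v p hp hw
        rw [hM] at hw ⊢
        rw [hM]
        rw [hC] at hw
        exact h.inn v p ((hP v p).1 hp).1 hw
      · intro v p hp hw hvw
        rw [hM] at hw hvw ⊢
        rw [hC] at hw
        have hpo := (hP v p).1 hp
        by_cases hvw' : (v, (σ v).M p) ∈ (σ v).ports
        · have hcd : (v, (σ v).M p) = d ∨ (v, (σ v).M p) = d.swap := by
            by_contra hcon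
            push Not at hcon
            exact hvw ((hP v _).2 ⟨hvw', hcon.1, hcon.2⟩)
          -- the values at `d` do not depend on the selected port
          have k1 : ∀ q ∈ (σ d.1).ports, q ≠ d → ((σ d.1).M q = d.2 ↔ d ∈ (σ d.1).spec) := by
            intro q hq hqd
            rw [h.out d.1 d hd1 rfl q hq]
            exact op2_val_spec (fun hc => hqd hc.symm)
          have k2 : ∀ q ∈ (σ d.2).ports, q ≠ d.swap →
              ((σ d.2).M q = d.1 ↔ d.swap ∈ (σ d.2).spec) := by
            intro q hq hqd
            exact (h.out d.2 d.swap hd2 rfl q hq).trans (op2_val_spec (fun hc => hqd hc.symm))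
          have hall : d ∈ (σ d.1).spec →
              Dec (op σ d) d.1 d.2 ∧ Dec (op σ d) d.2 d.1 := by
            intro hin
            constructor
            · intro q hq
              rw [hM]
              have := (hP d.1 q).1 hq
              exact (k1 q this.1 this.2.1).2 hin
            · intro q hq
              rw [hM]
              have := (hP d.2 q).1 hq
              exact (k2 q this.1 this.2.2).2 (hspec.1 hin)
          rcases hcd with hcd | hcd
          · have e1 : v = d.1 := congrArg Prod.fst hcd
            have e2 : (σ v).M p = d.2 := congrArg Prod.snd hcd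
            rw [e2, e1]
            rw [e1] at e2 hpo
            exact hall ((k1 p hpo.1 hpo.2.1).1 e2)
          · have e1 : v = d.2 := congrArg Prod.fst hcd
            have e2 : (σ v).M p = d.1 := congrArg Prod.snd hcd
            rw [e2, e1]
            rw [e1] at e2 hpo
            exact (hall (hspec.2 ((k2 p hpo.1 hpo.2.2).1 e2))).symm
        · obtain ⟨h1, h2⟩ := h.ded v p hpo.1 hw hvw'
          exact ⟨hD _ _ h1, hD _ _ h2⟩
    · by_cases hB2 : (σ d.2).ports.card = 2
      · -- the comp of `d.2` is absorbed
        obtain ⟨g, hg, hgd, hog⟩ := op2_other hd2 hB2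
        have hop : ∀ v, v ∈ (σ d.1).comp ∨ v ∈ (σ d.2).comp → op σ d v =
            { comp := (σ d.1).comp ∪ (σ d.2).comp
              ports := (σ d.1).ports.erase d ∪ (σ d.2).ports.erase d.swap
              spec := (σ d.1).spec.erase d ∪ ((σ d.2).ports.erase d.swap \ (σ d.2).spec)
              M := fun p =>
                if v ∈ (σ d.1).comp then
                  (if p ∈ (σ d.2).ports then (σ v).M d else (σ v).M p)
                else
                  (if p ∈ (σ d.1).ports then (σ v).M (other (σ d.2).ports d.swap)
                    else (σ v).M d.swap) } := by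
          intro v hv
          unfold op
          rw [if_pos ⟨hd1, hd2, hv⟩, if_pos hspec, if_neg hcard, if_pos hB2]
        have hgB : g ∈ (σ d.2).ports := by rw [hg]; simp
        have hPB : ∀ r ∈ (σ d.2).ports, r ≠ d.swap → r = g := by
          intro r hr hrd
          rw [hg] at hr
          simp only [Finset.mem_insert, Finset.mem_singleton] at hr
          exact hr.resolve_left hrd
        have hspA : ∀ r ∈ (σ d.1).ports, r ≠ d →
            (r ∈ (op σ d d.1).spec ↔ r ∈ (σ d.1).spec) := by
          intro r hr hrd
          rw [hop d.1 (Or.inl hmA)]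
          simp only [Finset.mem_union, Finset.mem_erase, Finset.mem_sdiff]
          constructor
          · rintro (h1 | h1)
            · exact h1.2
            · exact absurd h1.1.2 (op2_portsA h0 hd1 hr)
          · exact fun h1 => Or.inl ⟨hrd, h1⟩
        have hspg : (g ∈ (op σ d d.1).spec ↔ g ∉ (σ d.2).spec) := by
          rw [hop d.1 (Or.inl hmA)]
          simp only [Finset.mem_union, Finset.mem_erase, Finset.mem_sdiff]
          constructor
          · rintro (h1 | h1)
            · exact absurd (hsA _ h1.2) (op2_portsB h0 hd1 hgB)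
            · exact h1.2
          · exact fun h1 => Or.inr ⟨⟨hgd, hgB⟩, h1⟩
        refine op2_merge hG h h' hd1 hd2 hD hout (fun v hv => by rw [hop v hv])
          (fun v hv => by rw [hop v hv])
          (fun p => if p ∈ (σ d.2).ports then d else p)
          (fun p => if p ∈ (σ d.1).ports then g else d.swap) ?_ ?_ ?_ ?_ ?_ ?_ ?_
        · intro v hv p hp
          rw [hop v (Or.inl hv)]
          simp only [if_pos hv]
          split_ifs <;> rfl
        · intro v hv p hp
          have hv' : v ∉ (σ d.1).comp := fun hc => op2_disj h0 hd1 hc hv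
          rw [hop v (Or.inr hv)]
          simp only [if_neg hv', hog]
          split_ifs <;> rfl
        · intro p hp
          split_ifs with h1
          · exact hd1
          · rcases Finset.mem_union.1 hp with h2 | h2
            · exact Finset.mem_of_mem_erase h2
            · exact absurd (Finset.mem_of_mem_erase h2) h1
        · intro p hp
          split_ifs with h1
          · exact hgB
          · exact hd2
        · intro r hr hrd p hp
          split_ifs with h1
          · have hrp : r ≠ p := by
              rintro rfl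
              exact op2_portsA h0 hd1 hr h1
            rw [op2_val_spec hrd, op2_val_spec hrp, hspA r hr hrd]
          · unfold val
            rw [hspA r hr hrd]
        · intro r hr hrd p hp
          have hrg := hPB r hr hrd
          subst hrg
          split_ifs with h1
          · have hrp : r ≠ p := by
              rintro rfl
              exact op2_portsA h0 hd1 h1 hr
            rw [op2_val_self, op2_val_spec hrp, hspg]
          · have hpr : p = r := by
              rcases Finset.mem_union.1 hp with h2 | h2
              · exact absurd (Finset.mem_of_mem_erase h2) h1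
              · exact hPB p (Finset.mem_of_mem_erase h2) (Finset.ne_of_mem_erase h2)
            rw [hpr, op2_val_self, op2_val_spec hrd, hspg, not_not]
        · intro p hp
          rcases Finset.mem_union.1 hp with h2 | h2
          · have h3 : p ∈ (σ d.1).ports := Finset.mem_of_mem_erase h2
            have h4 : p ∉ (σ d.2).ports := op2_portsA h0 hd1 h3
            rw [if_neg h4, if_pos h3, op2_val_spec (Finset.ne_of_mem_erase h2).symm,
              op2_val_spec hgd.symm]
            exact hspec
          · have h3 : p ∈ (σ d.2).ports := Finset.mem_of_mem_erase h2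
            have h4 : p ∉ (σ d.1).ports := op2_portsB h0 hd1 h3
            rw [if_pos h3, if_neg h4, op2_val_self, op2_val_self]
            exact not_congr hspec
      · -- the comp of `d.1` is absorbed
        have hA2 : (σ d.1).ports.card = 2 := by
          have h1 := h.two d.1
          have h2 := h.two d.2
          omega
        obtain ⟨g, hg, hgd, hog⟩ := op2_other hd1 hA2
        have hop : ∀ v, v ∈ (σ d.1).comp ∨ v ∈ (σ d.2).comp → op σ d v =
            { comp := (σ d.1).comp ∪ (σ d.2).comp
              ports := (σ d.1).ports.erase d ∪ (σ d.2).ports.erase d.swap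
              spec := ((σ d.1).ports.erase d \ (σ d.1).spec) ∪ (σ d.2).spec.erase d.swap
              M := fun p =>
                if v ∈ (σ d.2).comp then
                  (if p ∈ (σ d.1).ports then (σ v).M d.swap else (σ v).M p)
                else
                  (if p ∈ (σ d.2).ports then (σ v).M (other (σ d.1).ports d)
                    else (σ v).M d) } := by
          intro v hv
          unfold op
          rw [if_pos ⟨hd1, hd2, hv⟩, if_pos hspec, if_neg hcard, if_neg hB2]
        have hgA : g ∈ (σ d.1).ports := by rw [hg]; simp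
        have hPA : ∀ r ∈ (σ d.1).ports, r ≠ d → r = g := by
          intro r hr hrd
          rw [hg] at hr
          simp only [Finset.mem_insert, Finset.mem_singleton] at hr
          exact hr.resolve_left hrd
        have hspB : ∀ r ∈ (σ d.2).ports, r ≠ d.swap →
            (r ∈ (op σ d d.1).spec ↔ r ∈ (σ d.2).spec) := by
          intro r hr hrd
          rw [hop d.1 (Or.inl hmA)]
          simp only [Finset.mem_union, Finset.mem_erase, Finset.mem_sdiff]
          constructor
          · rintro (h1 | h1)
            · exact absurd h1.1.2 (op2_portsB h0 hd1 hr)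
            · exact h1.2
          · exact fun h1 => Or.inr ⟨hrd, h1⟩
        have hspg : (g ∈ (op σ d d.1).spec ↔ g ∉ (σ d.1).spec) := by
          rw [hop d.1 (Or.inl hmA)]
          simp only [Finset.mem_union, Finset.mem_erase, Finset.mem_sdiff]
          constructor
          · rintro (h1 | h1)
            · exact h1.2
            · exact absurd (hsB _ h1.2) (op2_portsA h0 hd1 hgA)
          · exact fun h1 => Or.inl ⟨⟨hgd, hgA⟩, h1⟩
        refine op2_merge hG h h' hd1 hd2 hD hout (fun v hv => by rw [hop v hv])
          (fun v hv => by rw [hop v hv])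
          (fun p => if p ∈ (σ d.2).ports then g else d)
          (fun p => if p ∈ (σ d.1).ports then d.swap else p) ?_ ?_ ?_ ?_ ?_ ?_ ?_
        · intro v hv p hp
          have hv' : v ∉ (σ d.2).comp := op2_disj h0 hd1 hv
          rw [hop v (Or.inl hv)]
          simp only [if_neg hv', hog]
          split_ifs <;> rfl
        · intro v hv p hp
          rw [hop v (Or.inr hv)]
          simp only [if_pos hv]
          split_ifs <;> rfl
        · intro p hp
          split_ifs with h1
          · exact hgA
          · exact hd1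
        · intro p hp
          split_ifs with h1
          · exact hd2
          · rcases Finset.mem_union.1 hp with h2 | h2
            · exact absurd (Finset.mem_of_mem_erase h2) h1
            · exact Finset.mem_of_mem_erase h2
        · intro r hr hrd p hp
          have hrg := hPA r hr hrd
          subst hrg
          split_ifs with h1
          · have hrp : r ≠ p := by
              rintro rfl
              exact op2_portsA h0 hd1 hr h1
            rw [op2_val_self, op2_val_spec hrp, hspg]
          · have hpr : p = r := by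
              rcases Finset.mem_union.1 hp with h2 | h2
              · exact hPA p (Finset.mem_of_mem_erase h2) (Finset.ne_of_mem_erase h2)
              · exact absurd (Finset.mem_of_mem_erase h2) h1
            rw [hpr, op2_val_self, op2_val_spec hrd, hspg, not_not]
        · intro r hr hrd p hp
          split_ifs with h1
          · have hrp : r ≠ p := by
              rintro rfl
              exact op2_portsA h0 hd1 h1 hr
            rw [op2_val_spec hrd, op2_val_spec hrp, hspB r hr hrd]
          · unfold val
            rw [hspB r hr hrd]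
        · intro p hp
          rcases Finset.mem_union.1 hp with h2 | h2
          · have h3 : p ∈ (σ d.1).ports := Finset.mem_of_mem_erase h2
            have h4 : p ∉ (σ d.2).ports := op2_portsA h0 hd1 h3
            rw [if_neg h4, if_pos h3, op2_val_self, op2_val_self]
            exact not_congr hspec
          · have h3 : p ∈ (σ d.2).ports := Finset.mem_of_mem_erase h2
            have h4 : p ∉ (σ d.1).ports := op2_portsB h0 hd1 h3
            rw [if_pos h3, if_neg h4, op2_val_spec hgd.symm,
              op2_val_spec (Finset.ne_of_mem_erase h2).symm]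
            exact hspec
  · -- merge
    have hop : ∀ v, v ∈ (σ d.1).comp ∨ v ∈ (σ d.2).comp → op σ d v =
        { comp := (σ d.1).comp ∪ (σ d.2).comp
          ports := (σ d.1).ports.erase d ∪ (σ d.2).ports.erase d.swap
          spec := (σ d.1).spec.erase d ∪ (σ d.2).spec.erase d.swap
          M := fun p =>
            if v ∈ (σ d.1).comp then
              (if p ∈ (σ d.2).ports then (σ v).M d else (σ v).M p)
            else
              (if p ∈ (σ d.1).ports then (σ v).M d.swap else (σ v).M p) } := by
      intro v hv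
      unfold op
      rw [if_pos ⟨hd1, hd2, hv⟩, if_neg hspec]
    have hspA : ∀ r ∈ (σ d.1).ports, r ≠ d →
        (r ∈ (op σ d d.1).spec ↔ r ∈ (σ d.1).spec) := by
      intro r hr hrd
      rw [hop d.1 (Or.inl hmA)]
      simp only [Finset.mem_union, Finset.mem_erase]
      constructor
      · rintro (h1 | h1)
        · exact h1.2
        · exact absurd (hsB _ h1.2) (op2_portsA h0 hd1 hr)
      · exact fun h1 => Or.inl ⟨hrd, h1⟩
    have hspB : ∀ r ∈ (σ d.2).ports, r ≠ d.swap →
        (r ∈ (op σ d d.1).spec ↔ r ∈ (σ d.2).spec) := by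
      intro r hr hrd
      rw [hop d.1 (Or.inl hmA)]
      simp only [Finset.mem_union, Finset.mem_erase]
      constructor
      · rintro (h1 | h1)
        · exact absurd (hsA _ h1.2) (op2_portsB h0 hd1 hr)
        · exact h1.2
      · exact fun h1 => Or.inr ⟨hrd, h1⟩
    have hxor : (d ∈ (σ d.1).spec ↔ d.swap ∉ (σ d.2).spec) := by tauto
    refine op2_merge hG h h' hd1 hd2 hD hout (fun v hv => by rw [hop v hv])
      (fun v hv => by rw [hop v hv])
      (fun p => if p ∈ (σ d.2).ports then d else p)
      (fun p => if p ∈ (σ d.1).ports then d.swap else p) ?_ ?_ ?_ ?_ ?_ ?_ ?_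
    · intro v hv p hp
      rw [hop v (Or.inl hv)]
      simp only [if_pos hv]
      split_ifs <;> rfl
    · intro v hv p hp
      have hv' : v ∉ (σ d.1).comp := fun hc => op2_disj h0 hd1 hc hv
      rw [hop v (Or.inr hv)]
      simp only [if_neg hv']
      split_ifs <;> rfl
    · intro p hp
      split_ifs with h1
      · exact hd1
      · rcases Finset.mem_union.1 hp with h2 | h2
        · exact Finset.mem_of_mem_erase h2
        · exact absurd (Finset.mem_of_mem_erase h2) h1
    · intro p hp
      split_ifs with h1
      · exact hd2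
      · rcases Finset.mem_union.1 hp with h2 | h2
        · exact absurd (Finset.mem_of_mem_erase h2) h1
        · exact Finset.mem_of_mem_erase h2
    · intro r hr hrd p hp
      split_ifs with h1
      · have hrp : r ≠ p := by
          rintro rfl
          exact op2_portsA h0 hd1 hr h1
        rw [op2_val_spec hrd, op2_val_spec hrp, hspA r hr hrd]
      · unfold val
        rw [hspA r hr hrd]
    · intro r hr hrd p hp
      split_ifs with h1
      · have hrp : r ≠ p := by
          rintro rfl
          exact op2_portsA h0 hd1 h1 hr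
        rw [op2_val_spec hrd, op2_val_spec hrp, hspB r hr hrd]
      · unfold val
        rw [hspB r hr hrd]
    · intro p hp
      rcases Finset.mem_union.1 hp with h2 | h2
      · have h3 : p ∈ (σ d.1).ports := Finset.mem_of_mem_erase h2
        have h4 : p ∉ (σ d.2).ports := op2_portsA h0 hd1 h3
        rw [if_neg h4, if_pos h3, op2_val_spec (Finset.ne_of_mem_erase h2).symm,
          op2_val_self]
        exact hxor
      · have h3 : p ∈ (σ d.2).ports := Finset.mem_of_mem_erase h2
        have h4 : p ∉ (σ d.1).ports := op2_portsB h0 hd1 h3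
        rw [if_pos h3, if_neg h4, op2_val_self,
          op2_val_spec (Finset.ne_of_mem_erase h2).symm]
        tauto

/-! ### `chill` -/

theorem chill_WF (hG : G.IsTree) {σ : St V} (h : WF G σ) (O : Set (V × V)) :
    WF G (chill O σ) := by
  have h0 : WF0 G σ := h.toWF0
  have hP : ∀ v r, r ∈ (chill O σ v).ports ↔ r ∈ (σ v).ports ∧ (opd O r → hot O σ r) := by
    intro v r
    exact Finset.mem_filter
  have hS : ∀ v r, (opd O r → hot O σ r) → (r ∈ (chill O σ v).spec ↔ r ∈ (σ v).spec) := by
    intro v r hr
    show r ∈ (σ v).spec.filter _ ↔ _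
    rw [Finset.mem_filter]
    exact ⟨fun h1 => h1.1, fun h1 => ⟨h1, hr⟩⟩
  -- data of a removed port
  have hrem : ∀ v r, r ∈ (σ v).ports → r ∉ (chill O σ v).ports →
      r ∉ (σ v).spec ∧ 2 ≤ (unop O (σ v)).card := by
    intro v r hr hr'
    have hnot : opd O r ∧ ¬ hot O σ r := by
      by_contra hcon
      apply hr'
      rw [hP]
      refine ⟨hr, fun ho => ?_⟩
      by_contra hh
      exact hcon ⟨ho, hh⟩
    obtain ⟨ho, hh⟩ := hnot
    have ht := (h0.tail v r hr).1
    obtain ⟨e1, e2, e3⟩ := h0.eqv v r.1 ht
    have hr1 : r ∈ (σ r.1).ports := by rw [e2]; exact hr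
    have hr2 : r.swap ∈ (σ r.2).ports := h0.swap v r hr
    have hun : unop O (σ r.1) = unop O (σ v) := by
      unfold unop
      rw [e2]
    constructor
    · intro hc
      apply hh
      refine ⟨hr1, hr2, ho, Or.inl ?_⟩
      rw [e3]
      exact hc
    · by_contra hc
      push Not at hc
      apply hh
      refine ⟨hr1, hr2, ho, Or.inr (Or.inr (Or.inl ?_))⟩
      rw [hun]
      omega
  refine { toWF0 := chill_WF0 hG h0 O, two := ?_, adj := ?_, out := ?_, inn := ?_, ded := ?_ }
  · intro v
    by_cases hall : ∀ r ∈ (σ v).ports, r ∈ (chill O σ v).ports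
    · exact le_trans (h.two v) (Finset.card_le_card hall)
    · push Not at hall
      obtain ⟨r, hr, hr'⟩ := hall
      refine le_trans (hrem v r hr hr').2 (Finset.card_le_card ?_)
      intro q hq
      have hq' := Finset.mem_filter.1 hq
      rw [hP]
      exact ⟨hq'.1, fun ho => absurd ho hq'.2⟩
  · intro v p hp
    exact h.adj v p ((hP v p).1 hp).1
  · intro v r hr hrv p hp
    show (σ v).M p = r.2 ↔ _
    rw [h.out v r ((hP v r).1 hr).1 hrv p ((hP v p).1 hp).1]
    unfold val
    rw [hS v r ((hP v r).1 hr).2]
  · intro v p hp hw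
    exact h.inn v p ((hP v p).1 hp).1 hw
  · intro v p hp hw hvw
    have hpo := ((hP v p).1 hp).1
    have hw' : (σ v).M p ∉ (σ v).comp := hw
    by_cases hvw' : (v, (σ v).M p) ∈ (σ v).ports
    · exfalso
      have hvw2 : (v, (σ v).M p) ∉ (chill O σ v).ports := hvw
      have hns := (hrem v _ hvw' hvw2).1
      have hval := (h.out v _ hvw' rfl p hpo).1 rfl
      have hne : (v, (σ v).M p) ≠ p := by
        intro hc
        apply hvw2
        rw [hc]
        exact hp
      rw [op2_val_spec hne] at hval
      exact hns hval
    · obtain ⟨h1, h2⟩ := h.ded v p hpo hw' hvw'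
      constructor
      · intro q hq
        exact h1 q ((hP v q).1 hq).1
      · intro q hq
        exact h2 q ((hP _ q).1 hq).1

end Pool.Agent.PM
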