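import Pool.Agent.Lib.MP_947a32_pr.Step

/-! # MP_947a32_pr : normal form of `op` seen from one comp, invariants of `run` (helper92) -/

set_option autoImplicit false

open Classical MeasureTheory
open scoped ENNReal

namespace Pool.Agent.PM

variable {V : Type} {G : SimpleGraph V}

theorem ri_other_pair {S : Finset (V × V)} {q g : V × V} (h : S = {q, g}) (hne : g ≠ q) :
    other S q = g := by
  have h1 : ∃! g', g' ∈ S ∧ g' ≠ q := by
    refine ⟨g, ⟨by rw [h]; simp, hne⟩, ?_⟩
    rintro y ⟨hy, hy'⟩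
    rw [h] at hy
    simp only [Finset.mem_insert, Finset.mem_singleton] at hy
    rcases hy with hy | hy
    · exact absurd hy hy'
    · exact hy
  unfold other
  rw [dif_pos h1]
  exact h1.unique h1.exists.choose_spec ⟨by rw [h]; simp, hne⟩

/-- the head of a port is not in the comp -/
theorem ri_head (hG : G.IsTree) {τ : St V} (h : WF0 G τ) {x : V} {q : V × V}
    (hq : q ∈ (τ x).ports) : q.2 ∉ (τ x).comp := by
  have hal : alive τ q := h.st_alive_of_mem hq
  intro h1
  have h2 := (h.sep q hal x q.2 h1)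
  have h3 := (h.sep q hal x q.1 (h.tail x q hq).1)
  exact not_side_snd q (h2.2 (h3.1 (side_fst (h.st_adj_of_alive hal))))

theorem ri_head' (hG : G.IsTree) {τ : St V} (h : WF0 G τ) {x : V} {q : V × V}
    (hq : q ∈ (τ x).ports) : x ∉ (τ q.2).comp := by
  intro h1
  apply ri_head hG h hq
  rw [(h.eqv q.2 x h1).1]
  exact h.mem q.2

theorem ri_swap (hG : G.IsTree) {τ : St V} (h : WF0 G τ) {x : V} {q : V × V}
    (hq : q ∈ (τ x).ports) : q.swap ∉ (τ x).ports := by
  intro h1
  exact ri_head hG h hq (h.tail x q.swap h1).1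

theorem ri_op_other {τ : St V} (h : WF0 G τ) {d : V × V} {x : V}
    (h1 : d ∉ (τ x).ports) (h2 : d.swap ∉ (τ x).ports) : op τ d x = τ x := by
  by_cases hd : alive τ d
  · apply st_op_other
    · intro h3
      apply h1
      rw [(h.eqv d.1 x h3).2.1]
      exact hd
    · intro h3
      apply h2
      rw [(h.eqv d.2 x h3).2.1]
      exact h.st_alive_swap hd
  · rw [st_op_not_alive hd]

/-- `op` seen from the comp of `x`, `q` is the port of this comp which is processed -/
theorem ri_op_touch (hG : G.IsTree) {τ : St V} (h : WF G τ) {d q : V × V}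
    (hd : d = q ∨ d = q.swap) {x : V} (hq : q ∈ (τ x).ports) :
    ((q ∈ (τ x).spec ↔ q.swap ∈ (τ q.2).spec) ∧ 3 ≤ (τ x).ports.card ∧ 3 ≤ (τ q.2).ports.card ∧
      (op τ d x).comp = (τ x).comp ∧ (op τ d x).ports = (τ x).ports.erase q ∧
      (op τ d x).spec = (τ x).spec.erase q ∧ (op τ d x).M = (τ x).M) ∨
    ((op τ d x).comp = (τ x).comp ∪ (τ q.2).comp ∧
      (op τ d x).ports = (τ x).ports.erase q ∪ (τ q.2).ports.erase q.swap ∧
      ((¬ (q ∈ (τ x).spec ↔ q.swap ∈ (τ q.2).spec) ∧
        (op τ d x).spec = (τ x).spec.erase q ∪ (τ q.2).spec.erase q.swap ∧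
        ∀ p, (op τ d x).M p = if p ∈ (τ q.2).ports then (τ x).M q else (τ x).M p) ∨
      ((q ∈ (τ x).spec ↔ q.swap ∈ (τ q.2).spec) ∧ (τ q.2).ports.card = 2 ∧
        (d = q ∨ 3 ≤ (τ x).ports.card) ∧
        (op τ d x).spec = (τ x).spec.erase q ∪ ((τ q.2).ports.erase q.swap \ (τ q.2).spec) ∧
        ∀ p, (op τ d x).M p = if p ∈ (τ q.2).ports then (τ x).M q else (τ x).M p) ∨
      ((q ∈ (τ x).spec ↔ q.swap ∈ (τ q.2).spec) ∧ (τ x).ports.card = 2 ∧
        (d = q.swap ∨ 3 ≤ (τ q.2).ports.card) ∧
        (op τ d x).spec = ((τ x).ports.erase q \ (τ x).spec) ∪ (τ q.2).spec.erase q.swap ∧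
        ∀ p, (op τ d x).M p =
          if p ∈ (τ q.2).ports then (τ x).M (other (τ x).ports q) else (τ x).M q))) := by
  have h0 := h.toWF0
  have hq1 : q.1 ∈ (τ x).comp := (h0.tail x q hq).1
  obtain ⟨e1, e2, e3⟩ := h0.eqv x q.1 hq1
  have hx1 : x ∈ (τ q.1).comp := by rw [e1]; exact h0.mem x
  have hx2 : x ∉ (τ q.2).comp := ri_head' hG h0 hq
  have hsw : q.swap ∉ (τ x).ports := ri_swap hG h0 hq
  have hsw' : q.swap ∉ (τ x).spec := fun h1 => hsw (h0.spec_sub x h1)
  have hq' : q.swap ∈ (τ q.2).ports := h0.swap x q hq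
  have c1 : 2 ≤ (τ x).ports.card := h.two x
  have c2 : 2 ≤ (τ q.2).ports.card := h.two q.2
  rcases hd with rfl | rfl
  · -- `d = q`
    have hc : d ∈ (τ d.1).ports ∧ d.swap ∈ (τ d.2).ports ∧
        (x ∈ (τ d.1).comp ∨ x ∈ (τ d.2).comp) := ⟨by rw [e2]; exact hq, hq', Or.inl hx1⟩
    unfold op
    rw [if_pos hc]
    by_cases h2 : (d ∈ (τ d.1).spec ↔ d.swap ∈ (τ d.2).spec)
    · rw [if_pos h2]
      rw [e3] at h2
      by_cases h3 : 3 ≤ (τ d.1).ports.card ∧ 3 ≤ (τ d.2).ports.card
      · rw [if_pos h3]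
        rw [e2] at h3
        left
        refine ⟨h2, h3.1, h3.2, rfl, ?_, ?_, rfl⟩
        · exact Finset.erase_eq_of_notMem (fun h4 => hsw (Finset.mem_of_mem_erase h4))
        · exact Finset.erase_eq_of_notMem (fun h4 => hsw' (Finset.mem_of_mem_erase h4))
      · rw [if_neg h3]
        right
        by_cases h4 : (τ d.2).ports.card = 2
        · rw [if_pos h4]
          refine ⟨by rw [e1], by rw [e2], Or.inr (Or.inl ⟨h2, h4, Or.inl rfl, by rw [e3], ?_⟩)⟩
          intro p
          simp only [hx1, if_true]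
        · rw [if_neg h4]
          rw [e2] at h3
          have h5 : (τ x).ports.card = 2 := by
            by_contra h6
            exact h3 ⟨by omega, by omega⟩
          refine ⟨by rw [e1], by rw [e2], Or.inr (Or.inr ⟨h2, h5, Or.inr (by omega), by rw [e2, e3], ?_⟩)⟩
          intro p
          simp only [hx2, if_false, e2]
    · rw [if_neg h2]
      rw [e3] at h2
      right
      refine ⟨by rw [e1], by rw [e2], Or.inl ⟨h2, by rw [e3], ?_⟩⟩
      intro p
      simp only [hx1, if_true]
  · -- `d = q.swap`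
    have hc : q.swap ∈ (τ q.swap.1).ports ∧ q.swap.swap ∈ (τ q.swap.2).ports ∧
        (x ∈ (τ q.swap.1).comp ∨ x ∈ (τ q.swap.2).comp) := by
      refine ⟨hq', ?_, Or.inr hx1⟩
      rw [Prod.swap_swap]
      change q ∈ (τ q.1).ports
      rw [e2]
      exact hq
    unfold op
    rw [if_pos hc]
    simp only [Prod.swap_swap, Prod.fst_swap, Prod.snd_swap]
    by_cases h2 : (q.swap ∈ (τ q.2).spec ↔ q ∈ (τ q.1).spec)
    · rw [if_pos h2]
      have h2' : (q ∈ (τ x).spec ↔ q.swap ∈ (τ q.2).spec) := by rw [h2, e3]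
      by_cases h3 : 3 ≤ (τ q.2).ports.card ∧ 3 ≤ (τ q.1).ports.card
      · rw [if_pos h3]
        rw [e2] at h3
        left
        refine ⟨h2', h3.2, h3.1, rfl, ?_, ?_, rfl⟩
        · change ((τ x).ports.erase q.swap).erase q = _
          rw [Finset.erase_eq_of_notMem hsw]
        · change ((τ x).spec.erase q.swap).erase q = _
          rw [Finset.erase_eq_of_notMem hsw']
      · rw [if_neg h3]
        right
        by_cases h4 : (τ q.1).ports.card = 2
        · rw [if_pos h4]
          rw [e2] at h4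
          refine ⟨by dsimp only; rw [e1, Finset.union_comm], by dsimp only; rw [e2, Finset.union_comm],
            Or.inr (Or.inr ⟨h2', h4, Or.inl trivial, by dsimp only; rw [e2, e3, Finset.union_comm], ?_⟩)⟩
          intro p
          simp only [hx2, if_false, e2]
        · rw [if_neg h4]
          rw [e2] at h3 h4
          have h5 : (τ q.2).ports.card = 2 := by
            by_contra h6
            exact h3 ⟨by omega, by omega⟩
          refine ⟨by dsimp only; rw [e1, Finset.union_comm], by dsimp only; rw [e2, Finset.union_comm],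
            Or.inr (Or.inl ⟨h2', h5, Or.inr (by omega), by dsimp only; rw [e3, Finset.union_comm], ?_⟩)⟩
          intro p
          simp only [hx1, if_true]
    · rw [if_neg h2]
      have h2' : ¬ (q ∈ (τ x).spec ↔ q.swap ∈ (τ q.2).spec) := by rw [← e3]; tauto
      right
      refine ⟨by dsimp only; rw [e1, Finset.union_comm], by dsimp only; rw [e2, Finset.union_comm],
        Or.inl ⟨h2', by dsimp only; rw [e3, Finset.union_comm], ?_⟩⟩
      intro p
      simp only [hx2, if_false]

theorem ri_two {S : Finset (V × V)} (h : S.card = 2) {a b g : V × V} (ha : a ∈ S) (hb : b ∈ S)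
    (hab : a ≠ b) (hg : g ∈ S) : g = a ∨ g = b := by
  by_contra hcon
  push Not at hcon
  have h1 : ({a, b, g} : Finset (V × V)) ⊆ S := by
    intro y hy
    simp only [Finset.mem_insert, Finset.mem_singleton] at hy
    rcases hy with rfl | rfl | rfl
    · exact ha
    · exact hb
    · exact hg
  have h2 := Finset.card_le_card h1
  rw [Finset.card_eq_three.2 ⟨a, b, g, hab, fun h => hcon.1 h.symm, fun h => hcon.2 h.symm, rfl⟩,
    h] at h2
  omega

/-- ports which are not processed persist -/
theorem ri_port_op (hG : G.IsTree) {τ : St V} (h : WF0 G τ) {d : V × V} {x : V} {q : V × V}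
    (hq : q ∈ (τ x).ports) (h1 : q ≠ d) (h2 : q ≠ d.swap) : q ∈ (op τ d x).ports := by
  obtain ⟨h3, h4⟩ := h.st_mem_iff.1 hq
  exact (op_WF0 hG h d).st_mem_iff.2 ⟨st_op_comp_sub h d x h3, st_alive_op_of hG h h4 h1 h2⟩

/-- invariants of the run; `S'` = darts still to be processed -/
structure RInv (G : SimpleGraph V) (O : Set (V × V)) (σ : St V) (S S' : Finset (V × V))
    (τ : St V) : Prop where
  wf : WF G τ
  sub : S' ⊆ S
  dead : ∀ d ∈ S, d ∉ S' → ¬ alive τ d ∧ ¬ alive τ d.swap
  un : ∀ x, unop O (σ x) ⊆ (τ x).ports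
  fl : ∀ x, ∀ r ∈ (τ x).spec, r ∈ (σ r.1).spec ∨ unop O (σ r.1) ⊆ {r}
  cs : ∀ x, (σ x).comp ⊆ (τ x).comp
  al : ∀ q, alive τ q → alive (chill O σ) q

theorem RInv.init (hG : G.IsTree) {σ : St V} (h : WF G σ) (O : Set (V × V))
    (S : Finset (V × V)) : RInv G O σ S S (chill O σ) where
  wf := chill_WF hG h O
  sub := Finset.Subset.refl _
  dead := fun d h1 h2 => absurd h1 h2
  un := by
    intro x q hq
    simp only [unop, Finset.mem_filter] at hq
    exact st_mem_chill_ports.2 ⟨hq.1, fun h1 => absurd h1 hq.2⟩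
  fl := by
    intro x r hr
    left
    simp only [chill, Finset.mem_filter] at hr
    have h1 := (h.tail x r (h.spec_sub x hr.1)).1
    rw [(h.eqv x r.1 h1).2.2]
    exact hr.1
  cs := fun x => Finset.Subset.refl _
  al := fun q hq => hq

theorem RInv.fl_toggle {σ τ : St V} {O : Set (V × V)} {S S' : Finset (V × V)}
    (h : RInv G O σ S S' τ) {y : V} (hc : (τ y).ports.card = 2) {q r : V × V}
    (hq : q ∈ (τ y).ports) (ho : opd O q) (hr : r ∈ (τ y).ports) (hne : r ≠ q) :
    unop O (σ r.1) ⊆ {r} := by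
  intro g hg
  have h1 := h.un r.1 hg
  have h2 := (h.wf.tail y r hr).1
  rw [(h.wf.eqv y r.1 h2).2.1] at h1
  simp only [unop, Finset.mem_filter] at hg
  rcases ri_two hc hr hq hne h1 with h3 | h3
  · rw [h3]; exact Finset.mem_singleton_self _
  · rw [h3] at hg
    exact absurd ho hg.2

theorem RInv.step (hG : G.IsTree) {σ τ : St V} {O : Set (V × V)} {S S' : Finset (V × V)}
    (h : RInv G O σ S S' τ) {d : V × V} (hd : d ∈ S') (ho : opd O d) :
    RInv G O σ S (S'.erase d) (op τ d) where
  wf := by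
    by_cases h1 : alive τ d
    · exact op_WF hG h.wf h1
    · rw [st_op_not_alive h1]
      exact h.wf
  sub := (Finset.erase_subset _ _).trans h.sub
  dead := by
    intro d' hd' hd''
    by_cases hdd : d' = d
    · subst hdd
      constructor
      · intro h4
        exact (st_op_alive_imp hG h.wf.toWF0 h4).2.1 rfl
      · intro h4
        exact (st_op_alive_imp hG h.wf.toWF0 h4).2.2 rfl
    · have h5 : d' ∉ S' := fun h6 => hd'' (Finset.mem_erase.2 ⟨hdd, h6⟩)
      obtain ⟨h6, h7⟩ := h.dead d' hd' h5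
      exact ⟨fun h8 => h6 (st_op_alive_imp hG h.wf.toWF0 h8).1,
        fun h8 => h7 (st_op_alive_imp hG h.wf.toWF0 h8).1⟩
  un := by
    intro x q hq
    have h1 := h.un x hq
    simp only [unop, Finset.mem_filter] at hq
    apply ri_port_op hG h.wf.toWF0 h1
    · rintro rfl
      exact hq.2 ho
    · rintro rfl
      exact hq.2 ((st_opd_swap O d).2 ho)
  fl := by
    intro x r hr
    by_cases hq : ∃ q, (d = q ∨ d = q.swap) ∧ q ∈ (τ x).ports
    · obtain ⟨q, hdq, hq⟩ := hq
      have hoq : opd O q := by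
        rcases hdq with rfl | rfl
        · exact ho
        · exact (st_opd_swap O q).1 ho
      have hq' : q.swap ∈ (τ q.2).ports := h.wf.swap x q hq
      rcases ri_op_touch hG h.wf hdq hq with ⟨-, -, -, -, -, h5, -⟩ | ⟨-, -, h5⟩
      · rw [h5] at hr
        exact h.fl x r (Finset.mem_of_mem_erase hr)
      · rcases h5 with ⟨-, h5, -⟩ | ⟨-, hc, -, h5, -⟩ | ⟨-, hc, -, h5, -⟩
        · rw [h5, Finset.mem_union] at hr
          rcases hr with hr | hr
          · exact h.fl x r (Finset.mem_of_mem_erase hr)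
          · exact h.fl _ r (Finset.mem_of_mem_erase hr)
        · rw [h5, Finset.mem_union] at hr
          rcases hr with hr | hr
          · exact h.fl x r (Finset.mem_of_mem_erase hr)
          · right
            rw [Finset.mem_sdiff, Finset.mem_erase] at hr
            exact h.fl_toggle hc hq' ((st_opd_swap O q).2 hoq) hr.1.2 hr.1.1
        · rw [h5, Finset.mem_union] at hr
          rcases hr with hr | hr
          · right
            rw [Finset.mem_sdiff, Finset.mem_erase] at hr
            exact h.fl_toggle hc hq hoq hr.1.2 hr.1.1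
          · exact h.fl _ r (Finset.mem_of_mem_erase hr)
    · rw [ri_op_other h.wf.toWF0 (fun h1 => hq ⟨d, Or.inl rfl, h1⟩)
        (fun h1 => hq ⟨d.swap, Or.inr (Prod.swap_swap d).symm, h1⟩)] at hr
      exact h.fl x r hr
  cs := fun x => (h.cs x).trans (st_op_comp_sub h.wf.toWF0 d x)
  al := fun q hq => h.al q (st_op_alive_imp hG h.wf.toWF0 hq).1

/-- the invariants, for the state read by `step` -/
theorem ri_pre (hG : G.IsTree) {σ : St V} (h : WF G σ) {O : Set (V × V)} {t : V × V → ℝ}
    {v : V} (hf : (hotSet O t σ v).Finite) : ∃ S', RInv G O σ hf.toFinset S' (st_pre O t σ v) := by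
  obtain ⟨S', -, h1⟩ := st_run_ind
    (P := fun S' τ => RInv G O σ hf.toFinset S' τ) t
    (fun S' τ d hd _ h2 => h2.step hG hd
      (st_hot_opd (st_hotSet_hot (hf.mem_toFinset.1 (h2.sub hd))))) hf.toFinset.card hf.toFinset
    (chill O σ) (RInv.init hG h O _)
  refine ⟨S', ?_⟩
  unfold st_pre
  rw [dif_pos hf]
  exact h1

end Pool.Agent.PM
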