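import Pool.Agent.Lib.MP_947a32_pr.Defs

/-! Skeleton of MP_947a32_pr: all statements between the pieces (helper40). -/

set_option autoImplicit false

open Classical MeasureTheory
open scoped ENNReal

namespace Pool.Agent.PM

variable {V : Type} {G : SimpleGraph V}

/-! ## Piece TREE (file Tree.lean) -/
section TREE

theorem side_iff (hG : G.IsTree) {p : V × V} (hp : G.Adj p.1 p.2) (x : V) :
    ¬ side G p x ↔ side G p.swap x := sorry
theorem side_fst {p : V × V} (hp : G.Adj p.1 p.2) : side G p p.1 := sorry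
theorem not_side_snd (p : V × V) : ¬ side G p p.2 := sorry
theorem side_cross (hG : G.IsTree) {p : V × V} (hp : G.Adj p.1 p.2) {x y : V} (hxy : G.Adj x y)
    (hx : side G p x) (hy : ¬ side G p y) : x = p.1 ∧ y = p.2 := sorry
/-- `q` lies on the head side of `p` and points away from `p` -/
theorem side_nest (hG : G.IsTree) {p q : V × V} (hp : G.Adj p.1 p.2) (hq : G.Adj q.1 q.2)
    (h1 : side G q p.2) (h2 : ¬ side G p q.1) (hne : q ≠ p.swap) :
    ∀ x, ¬ side G q x → ¬ side G p x := sorry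
theorem side_disj (hG : G.IsTree) {q q' : V × V} (hq : G.Adj q.1 q.2) (hq' : G.Adj q'.1 q'.2)
    (h1 : side G q q'.1) (h2 : side G q' q.1) (hne : q ≠ q') :
    ∀ x, ¬ side G q x → side G q' x := sorry
theorem side_map (hG : G.IsTree) (φ : G ≃g G) (p : V × V) (x : V) :
    side G (mp φ.toEquiv p) (φ x) ↔ side G p x := sorry
theorem exists_aut (hG : G.IsTree) (Δ : ℕ)
    (hreg : ∀ v : V, (G.neighborSet v).encard = ((Δ : ℕ) : ℕ∞)) {p q : V × V}
    (hp : G.Adj p.1 p.2) (hq : G.Adj q.1 q.2) : ∃ φ : G ≃g G, mp φ.toEquiv p = q := sorry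
theorem countable_V (hG : G.IsTree) (Δ : ℕ)
    (hreg : ∀ v : V, (G.neighborSet v).encard = ((Δ : ℕ) : ℕ∞)) : Countable V := sorry
theorem mem_nb (Δ : ℕ) (hreg : ∀ v : V, (G.neighborSet v).encard = ((Δ : ℕ) : ℕ∞)) (v u : V) :
    u ∈ nb G v ↔ G.Adj v u := sorry
theorem card_nb (Δ : ℕ) (hreg : ∀ v : V, (G.neighborSet v).encard = ((Δ : ℕ) : ℕ∞)) (v : V) :
    (nb G v).card = Δ := sorry

end TREE

/-! ## Piece OP (file Op.lean) -/
section OP

theorem init_WF (hG : G.IsTree) (Δ : ℕ) (hΔ : 2 ≤ Δ)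
    (hreg : ∀ v : V, (G.neighborSet v).encard = ((Δ : ℕ) : ℕ∞)) : WF G (init G) := sorry
theorem op_WF0 (hG : G.IsTree) {σ : St V} (h : WF0 G σ) (d : V × V) : WF0 G (op σ d) := sorry
theorem op_WF (hG : G.IsTree) {σ : St V} (h : WF G σ) {d : V × V} (hd : alive σ d) :
    WF G (op σ d) := sorry
theorem op_alive (hG : G.IsTree) {σ : St V} (h : WF0 G σ) {d : V × V} (hd : alive σ d) (q : V × V) :
    alive (op σ d) q ↔ alive σ q ∧ q ≠ d ∧ q ≠ d.swap := sorry
theorem op_Dec {σ : St V} (h : WF0 G σ) (d : V × V) {v w : V} (hd : Dec σ v w) :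
    Dec (op σ d) v w := sorry
theorem hot_swap {σ : St V} (O : Set (V × V)) (d : V × V) : hot O σ d.swap ↔ hot O σ d := sorry
theorem chill_WF0 (hG : G.IsTree) {σ : St V} (h : WF0 G σ) (O : Set (V × V)) :
    WF0 G (chill O σ) := sorry
theorem chill_WF (hG : G.IsTree) {σ : St V} (h : WF G σ) (O : Set (V × V)) :
    WF G (chill O σ) := sorry

end OP

/-! ## Piece STEP (file Step.lean) -/
section STEP

theorem alive_step (hG : G.IsTree) {σ : St V} (h : WF0 G σ) (O : Set (V × V)) (t : V × V → ℝ)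
    (q : V × V) : alive (step O t σ) q ↔ alive σ q ∧ ¬ opd O q := sorry
theorem step_WF0 (hG : G.IsTree) {σ : St V} (h : WF0 G σ) (O : Set (V × V)) (t : V × V → ℝ) :
    WF0 G (step O t σ) := sorry
theorem step_WF (hG : G.IsTree) {σ : St V} (h : WF G σ) {O : Set (V × V)} {t : V × V → ℝ}
    (ht : TI G t) (hf : ∀ v, (hotSet O t σ v).Finite) : WF G (step O t σ) := sorry
theorem comp_sub_step (hG : G.IsTree) {σ : St V} (h : WF0 G σ) (O : Set (V × V)) (t : V × V → ℝ)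
    (v : V) : (σ v).comp ⊆ (step O t σ v).comp := sorry
theorem step_comp_sub (hG : G.IsTree) {σ : St V} (h : WF0 G σ) (O : Set (V × V)) (t : V × V → ℝ)
    (v : V) : ∀ u ∈ (step O t σ v).comp, u ∈ region O σ v := sorry
theorem Dec_step (hG : G.IsTree) {σ : St V} (h : WF0 G σ) (O : Set (V × V)) (t : V × V → ℝ)
    {v w : V} (hd : Dec σ v w) : Dec (step O t σ) v w := sorry
/-- partners are decided symmetrically -/
theorem Dec_symm {σ : St V} (h : WF G σ) {v w : V} (hd : Dec σ v w) : G.Adj v w ∧ Dec σ w v := sorry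
theorem Dec_unique {σ : St V} (h : WF G σ) {v w w' : V} (hd : Dec σ v w) (hd' : Dec σ v w') :
    w = w' := sorry

end STEP

/-! ## Piece CLU (file Clu.lean): finiteness of the hot cluster and counting -/
section CLU

theorem hot_cases {σ : St V} {O : Set (V × V)} {v : V} {p : V × V} (h : WF0 G σ)
    (hp : p ∈ (σ v).ports) (hh : hot O σ p) :
    opd O p ∧ (p ∈ (σ v).spec ∨ (unop O (σ v)).card ≤ 1 ∨ tr O σ p) := sorry
theorem region_finite (hG : G.IsTree) {σ : St V} (h : WF0 G σ) {O : Set (V × V)} (v : V)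
    (hN : ∀ p ∈ (σ v).ports, hot O σ p → NN O σ p ≠ ∞) : (region O σ v).Finite := sorry
theorem hotSet_finite {σ : St V} (h : WF0 G σ) {O : Set (V × V)} (t : V × V → ℝ) {v : V}
    (hf : (region O σ v).Finite) : (hotSet O t σ v).Finite := sorry
theorem region_finite_of_hotSet {σ : St V} (h : WF0 G σ) {O : Set (V × V)} {t : V × V → ℝ}
    (ht : TI G t) {v : V} (hf : (hotSet O t σ v).Finite) : (region O σ v).Finite := sorry
/-- size of the new comp -/
theorem out5 (hG : G.IsTree) {σ : St V} (h : WF0 G σ) (O : Set (V × V)) (t : V × V → ℝ) (v : V)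
    (hU : ∀ x ∈ region O σ v, (unop O (σ x)).card ≤ 7) :
    ((step O t σ v).ports.card : ℝ≥0∞) ≤
      (unop O (σ v)).card + 7 * ∑ p ∈ (σ v).ports, ind (hot O σ p) * NN O σ p := sorry
/-- number of flipped ports of the new comp -/
theorem out6 (hG : G.IsTree) {σ : St V} (h : WF G σ) (O : Set (V × V)) (t : V × V → ℝ) (v : V)
    (hs : ∀ x ∈ region O σ v, ∀ q ∈ (σ x).spec, opd O q) :
    ((step O t σ v).spec.card : ℝ≥0∞) ≤
      ind ((unop O (σ v)).card = 1) + ∑ p ∈ (σ v).ports, ind (hot O σ p) * CC O σ p := sorry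

end CLU

/-! ## Piece OUT (file Out.lean): outcome of one stage in special situations -/
section OUT

theorem out1 (hG : G.IsTree) {σ : St V} (h : WF0 G σ) (O : Set (V × V)) (t : V × V → ℝ) (v : V)
    (hh : ∀ p ∈ (σ v).ports, ¬ hot O σ p) :
    (step O t σ v).comp = (σ v).comp ∧ (step O t σ v).ports = unop O (σ v) ∧
      (step O t σ v).spec = (σ v).spec.filter (fun q => ¬ opd O q) ∧
      (step O t σ v).M = (σ v).M := sorry

/-- merger through a wire -/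
theorem out2 (hG : G.IsTree) {σ : St V} (h : WF G σ) {O : Set (V × V)} {t : V × V → ℝ}
    (ht : TI G t) {v : V} {p g : V × V}
    (hv : (σ v).spec = ∅) (hv3 : 3 ≤ (σ v).ports.card) (hp : p ∈ (σ v).ports)
    (hv' : ∀ q ∈ (σ v).ports, q ≠ p → ¬ opd O q)
    (hw : (σ p.2).spec = ∅) (hg : g ≠ p.swap) (hwp : (σ p.2).ports = {p.swap, g})
    (hop : opd O p) (hog : opd O g)
    (hz : (σ g.2).spec = ∅) (hz3 : 3 ≤ (σ g.2).ports.card)
    (hz' : ∀ q ∈ (σ g.2).ports, q ≠ g.swap → ¬ opd O q) :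
    (step O t σ v).spec = ∅ ∧
      (step O t σ v).ports = (σ v).ports.erase p ∪ (σ g.2).ports.erase g.swap ∧
      (step O t σ v).ports.card + 2 = (σ v).ports.card + (σ g.2).ports.card := sorry

/-- a port becomes flipped only if it is the only unopened port of its old comp -/
theorem out3 (hG : G.IsTree) {σ : St V} (h : WF G σ) (O : Set (V × V)) (t : V × V → ℝ) {v : V}
    {q : V × V} (hq : q ∈ (step O t σ v).spec) :
    q ∈ (σ q.1).spec ∨ unop O (σ q.1) = {q} := sorry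

/-- decision scenario -/
theorem out4 (hG : G.IsTree) {σ : St V} (h : WF G σ) {O : Set (V × V)} {t : V × V → ℝ}
    (ht : TI G t) {v : V} (hf : (hotSet O t σ v).Finite) {p0 : V × V} (hp0 : p0 ∈ (σ v).ports)
    (hA : (σ v).spec = ∅) (hB : (σ p0.2).spec = ∅)
    (hAo : ∀ q ∈ (σ v).ports, opd O q) (hBo : ∀ q ∈ (σ p0.2).ports, opd O q)
    (hAt : ∀ q ∈ (σ v).ports, q ≠ p0 → min (t q) (t q.swap) < min (t p0) (t p0.swap))
    (hBt : ∀ q ∈ (σ p0.2).ports, q ≠ p0.swap → min (t q) (t q.swap) < min (t p0) (t p0.swap))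
    (hAn : ∀ q ∈ (σ v).ports, q ≠ p0 → ¬ tr O σ q)
    (hBn : ∀ q ∈ (σ p0.2).ports, q ≠ p0.swap → ¬ tr O σ q) :
    Dec (step O t σ) v ((σ v).M p0) := sorry

end OUT

/-! ## Piece LOC (file Loc.lean): locality and finite dependence -/
section LOC

theorem rule_local (hG : G.IsTree) {σ σ' : St V} (h : WF0 G σ) (h' : WF0 G σ') {e : V × V}
    (ha : alive σ e) (ha' : alive σ' e) {δ : ℝ} {a a' r r' : V × V → ℝ}
    (hs : ∀ v, side G e v → σ v = σ' v)
    (hl : ∀ d : V × V, side G e d.1 → a d = a' d ∧ r d = r' d) :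
    ∀ d : V × V, side G e d.1 → (d ∈ rule δ a r σ ↔ d ∈ rule δ a' r' σ') := sorry
theorem step_local (hG : G.IsTree) {σ σ' : St V} (h : WF0 G σ) (h' : WF0 G σ') {e : V × V}
    (ha : alive σ e) (ha' : alive σ' e) {O O' : Set (V × V)} {t t' : V × V → ℝ}
    (ho : ¬ opd O e) (ho' : ¬ opd O' e)
    (hs : ∀ v, side G e v → σ v = σ' v)
    (hl : ∀ d : V × V, side G e d.1 → ((d ∈ O ↔ d ∈ O') ∧ t d = t' d)) :
    ∀ v, side G e v → step O t σ v = step O' t' σ' v := sorry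
theorem rule_fin {σ : St V} (δ : ℝ) (a r : V × V → ℝ) (d : V × V) :
    ∃ K : Finset (V × V), ∀ (σ' : St V) (a' r' : V × V → ℝ), σ' d.1 = σ d.1 →
      (∀ q ∈ K, a' q = a q ∧ r' q = r q) → (d ∈ rule δ a' r' σ' ↔ d ∈ rule δ a r σ) := sorry
theorem step_fin {σ : St V} (h : WF0 G σ) {O : Set (V × V)} {t : V × V → ℝ} (v : V)
    (hf : (region O σ v).Finite) :
    ∃ K : Finset V, ∀ (σ' : St V) (O' : Set (V × V)) (t' : V × V → ℝ),
      (∀ x ∈ K, σ' x = σ x) →
      (∀ d : V × V, d.1 ∈ K → d.2 ∈ K → ((d ∈ O' ↔ d ∈ O) ∧ t' d = t d)) →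
      step O' t' σ' v = step O t σ v := sorry

end LOC

/-! ## Piece EQ (file Equi.lean) -/
section EQ

theorem init_map (φ : G ≃g G) : St.map φ.toEquiv (init G) = init G := sorry
theorem rule_map (δ : ℝ) (φ : G ≃g G) (x : XX G) (d : V × V) :
    mp φ.toEquiv d ∈ OO δ (XX.map φ x) ↔ d ∈ OO δ x := sorry
theorem stp_map (δ : ℝ) (φ : G ≃g G) (x : XX G) :
    stp δ (XX.map φ x) = St.map φ.toEquiv (stp δ x) := sorry
theorem sig_map (J : ℕ) (δ : ℝ) (φ : G ≃g G) (ω : Om G) (n : ℕ) :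
    sig J δ (Om.map φ ω) n = St.map φ.toEquiv (sig J δ ω n) := sorry
theorem WF_map (φ : G ≃g G) {σ : St V} (h : WF G σ) : WF G (St.map φ.toEquiv σ) := sorry
theorem Dec_map (φ : G ≃g G) {σ : St V} {v w : V} :
    Dec (St.map φ.toEquiv σ) (φ v) (φ w) ↔ Dec σ v w := sorry

end EQ

/-! ## Piece MEAS (file Meas.lean) -/
section MEAS

variable {X : Type} [MeasurableSpace X]

theorem meas_ports [Countable V] {s : X → St V} (hs : Measurable s) (v : V)
    (P : Finset (V × V) → Prop) : MeasurableSet {x | P (s x v).ports} := sorry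
theorem meas_spec [Countable V] {s : X → St V} (hs : Measurable s) (v : V)
    (P : Finset (V × V) → Prop) : MeasurableSet {x | P (s x v).spec} := sorry
theorem meas_comp [Countable V] {s : X → St V} (hs : Measurable s) (v : V)
    (P : Finset V → Prop) : MeasurableSet {x | P (s x v).comp} := sorry
theorem meas_M [Countable V] {s : X → St V} (hs : Measurable s) (v : V) (p : V × V)
    (P : V → Prop) : MeasurableSet {x | P ((s x v).M p)} := sorry
/-- a map into states is measurable iff all its discrete observables are -/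
theorem measurable_St [Countable V] {s : X → St V}
    (h1 : ∀ v c, MeasurableSet {x | (s x v).comp = c})
    (h2 : ∀ v c, MeasurableSet {x | (s x v).ports = c})
    (h3 : ∀ v c, MeasurableSet {x | (s x v).spec = c})
    (h4 : ∀ v p w, MeasurableSet {x | (s x v).M p = w}) : Measurable s := sorry
theorem meas_rule [Countable V] {s : X → St V} (hs : Measurable s) (δ : ℝ)
    {a r : X → V × V → ℝ} (ha : ∀ d, Measurable (fun x => a x d))
    (hr : ∀ d, Measurable (fun x => r x d)) (d : V × V) :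
    MeasurableSet {x | d ∈ rule δ (a x) (r x) (s x)} := sorry
theorem meas_step [Countable V] {s : X → St V} (hs : Measurable s) {O : X → Set (V × V)}
    (hO : ∀ d, MeasurableSet {x | d ∈ O x}) {t : X → V × V → ℝ}
    (ht : ∀ d, Measurable (fun x => t x d)) : Measurable (fun x => step (O x) (t x) (s x)) := sorry
theorem meas_lab (i : Fin 3) (d : V × V) : Measurable (fun l : Lb G => lab l i d) := sorry
theorem meas_OO [Countable V] (δ : ℝ) (d : V × V) :
    MeasurableSet {x : XX G | d ∈ OO δ x} := sorry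
theorem meas_stp [Countable V] (δ : ℝ) : Measurable (stp (G := G) δ) := sorry
theorem meas_hv [Countable V] (b : Bool) : Measurable (hv (G := G) b) := sorry
theorem meas_map [Countable V] (φ : G ≃g G) : Measurable (St.map (V := V) φ.toEquiv) := sorry
theorem meas_sig [Countable V] (J : ℕ) (δ : ℝ) (n : ℕ) :
    Measurable (fun ω : Om G => sig J δ ω n) := sorry

end MEAS

/-! ## Piece LAW (file Law.lean): consequences of `Law` -/
section LAW

instance : IsProbabilityMeasure unif := sorry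
instance : IsProbabilityMeasure (lam G) := by unfold lam; infer_instance
instance : IsProbabilityMeasure (PP G) := by unfold PP; infer_instance

variable {μ : Measure (St V)}

/-- property (M) for functionals of state and labels that are conditionally local -/
theorem fac2 [Countable V] (hG : G.IsTree) (hL : Law G μ) {e : V × V} (he : G.Adj e.1 e.2)
    {f g : XX G → ℝ≥0∞} (hf : Measurable f) (hg : Measurable g) (hfl : Lc G e f)
    (hgl : Lc G e.swap g) :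
    (∫⁻ x, ind (alive x.1 e) * (f x * g x) ∂(μ.prod (lam G))) * μ {σ | alive σ e} =
      (∫⁻ x, ind (alive x.1 e) * f x ∂(μ.prod (lam G))) *
        (∫⁻ x, ind (alive x.1 e) * g x ∂(μ.prod (lam G))) := sorry
theorem lintegral_XX_map [Countable V] (hL : Law G μ) (φ : G ≃g G) {f : XX G → ℝ≥0∞}
    (hf : Measurable f) :
    ∫⁻ x, f (XX.map φ x) ∂(μ.prod (lam G)) = ∫⁻ x, f x ∂(μ.prod (lam G)) := sorry
/-- `br` does not depend on the dart -/
theorem br_eq {Δ : ℕ} (hT : Std G Δ) (hL : Law G μ) {g : XX G → V × V → ℝ≥0∞} (hg : Hd g) {e e' : V × V} (he : G.Adj e.1 e.2)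
    (he' : G.Adj e'.1 e'.2) : br μ e g = br μ e' g := sorry
/-- factorisation at the onward ports -/
theorem factsum {Δ : ℕ} (hT : Std G Δ) (hL : Law G μ)
    {f : XX G → V × V → V × V → ℝ≥0∞} (hf : Tl f) {g : XX G → V × V → ℝ≥0∞} (hg : Hd g)
    {e : V × V} (he : G.Adj e.1 e.2) :
    EE μ e (fun x => ∑ p ∈ onw x.1 e, f x e p * g x p) =
      EE μ e (fun x => ∑ p ∈ onw x.1 e, f x e p) * br μ e g := sorry
/-- factorisation at the ports of the comp of a vertex -/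
theorem vfact {Δ : ℕ} (hT : Std G Δ) (hL : Law G μ)
    {f : XX G → V → V × V → ℝ≥0∞} (hf : Vt f) {g : XX G → V × V → ℝ≥0∞} (hg : Hd g)
    (v : V) {e : V × V} (he : G.Adj e.1 e.2) :
    ∫⁻ x, ∑ p ∈ (x.1 v).ports, f x v p * g x p ∂(μ.prod (lam G)) =
      (∫⁻ x, ∑ p ∈ (x.1 v).ports, f x v p ∂(μ.prod (lam G))) * br μ e g := sorry
/-- the same with an indicator/weight depending on the state at `v` only -/
theorem EE_mono {e : V × V} {Y Z : XX G → ℝ≥0∞}
    (h : ∀ᵐ x ∂(μ.prod (lam G)), alive x.1 e → Y x ≤ Z x) : EE μ e Y ≤ EE μ e Z := sorry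
theorem EE_const (hL : Law G μ) {e : V × V} (he : G.Adj e.1 e.2) (c : ℝ≥0∞) :
    EE (G := G) μ e (fun _ => c) = c := sorry
theorem EE_add {e : V × V} {Y Z : XX G → ℝ≥0∞} (hY : Measurable Y) :
    EE μ e (fun x => Y x + Z x) = EE μ e Y + EE μ e Z := sorry
theorem EE_mul_left {e : V × V} (c : ℝ≥0∞) {Y : XX G → ℝ≥0∞} (hY : Measurable Y) :
    EE μ e (fun x => c * Y x) = c * EE μ e Y := sorry

end LAW

/-! ## Piece NEXT (file Next.lean): the law of the next state -/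
section NEXT

variable {μ : Measure (St V)}

theorem alive_next {Δ : ℕ} (hT : Std G Δ) (hL : Law G μ) (δ : ℝ)
    {e : V × V} (he : G.Adj e.1 e.2) :
    nextLaw (stp (G := G) δ) μ {σ | alive σ e} = μ {σ | alive σ e} * qb G μ δ e ^ 2 := sorry
theorem next_le {Δ : ℕ} (hT : Std G Δ) (hL : Law G μ) (δ : ℝ)
    {e : V × V} (he : G.Adj e.1 e.2) (hb : qb G μ δ e ≠ 0) {g : St V → ℝ≥0∞} (hg : Measurable g)
    {R : XX G → V × V → ℝ≥0∞} (hR : Hd R)
    (hle : ∀ᵐ x ∂(μ.prod (lam G)), alive x.1 e → ¬ opd (OO δ x) e → g (stp δ x) ≤ R x e) :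
    EE (G := G) (nextLaw (stp (G := G) δ) μ) e (fun x => g x.1) * qb G μ δ e ≤ br μ e R := sorry
theorem next_ge {Δ : ℕ} (hT : Std G Δ) (hL : Law G μ) (δ : ℝ)
    {e : V × V} (he : G.Adj e.1 e.2) (hb : qb G μ δ e ≠ 0) {g : St V → ℝ≥0∞} (hg : Measurable g)
    {L R : XX G → V × V → ℝ≥0∞} (hLL : Hd L) (hR : Hd R)
    (hle : ∀ᵐ x ∂(μ.prod (lam G)), alive x.1 e → ¬ opd (OO δ x) e →
      L x e ≤ g (stp δ x) + R x e) :
    br μ e (fun x e => ind (e.swap ∉ OO δ x) * L x e) ≤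
      EE (G := G) (nextLaw (stp (G := G) δ) μ) e (fun x => g x.1) * qb G μ δ e + br μ e R := sorry
theorem next_Law {Δ : ℕ} (hT : Std G Δ) (hL : Law G μ) {δ : ℝ}
    {e : V × V} (he : G.Adj e.1 e.2) (hb : qb G μ δ e ≠ 0)
    (hf : ∀ᵐ x ∂(μ.prod (lam G)), ∀ v, (hotSet (OO δ x) (lab x.2 1) x.1 v).Finite) :
    Law G (nextLaw (stp (G := G) δ) μ) := sorry

end NEXT


/-! ## Piece NICE (file Nice.lean): calculus of nice functionals.  Closure lemmas first, then the list. -/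
section NICE

theorem Hd_const (c : ℝ≥0∞) : Hd (G := G) (fun _ _ => c) := sorry
theorem Hd.add {f g : XX G → V × V → ℝ≥0∞} (hf : Hd f) (hg : Hd g) :
    Hd (fun x e => f x e + g x e) := sorry
theorem Hd.mul {f g : XX G → V × V → ℝ≥0∞} (hf : Hd f) (hg : Hd g) :
    Hd (fun x e => f x e * g x e) := sorry
theorem HP.ind {P : XX G → V × V → Prop} (hP : HP P) : Hd (fun x e => ind (P x e)) := sorry
theorem HP.and {P Q : XX G → V × V → Prop} (hP : HP P) (hQ : HP Q) :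
    HP (fun x e => P x e ∧ Q x e) := sorry
theorem HP.or {P Q : XX G → V × V → Prop} (hP : HP P) (hQ : HP Q) :
    HP (fun x e => P x e ∨ Q x e) := sorry
theorem HP.not {P : XX G → V × V → Prop} (hP : HP P) : HP (fun x e => ¬ P x e) := sorry
/-- observables of the ports and flips of the head comp -/
theorem Hd_F [Countable V] (F : Finset (V × V) → Finset (V × V) → ℝ≥0∞)
    (hF : ∀ (φ : V ≃ V) P S, F (P.image (mp φ)) (S.image (mp φ)) = F P S) :
    Hd (G := G) (fun x e => F (x.1 e.2).ports (x.1 e.2).spec) := sorry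
theorem HP_F [Countable V] (F : Finset (V × V) → Finset (V × V) → Prop)
    (hF : ∀ (φ : V ≃ V) P S, F (P.image (mp φ)) (S.image (mp φ)) ↔ F P S) :
    HP (G := G) (fun x e => F (x.1 e.2).ports (x.1 e.2).spec) := sorry
theorem Hd_sum [Countable V] (hT : G.IsTree) {f : XX G → V × V → V × V → ℝ≥0∞} (hf : Md f)
    {g : XX G → V × V → ℝ≥0∞} (hg : Hd g) :
    Hd (fun x e => ∑ p ∈ onw x.1 e, f x e p * g x p) := sorry
theorem Hd_iSup {g : ℕ → XX G → V × V → ℝ≥0∞} (hg : ∀ j, Hd (g j)) :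
    Hd (fun x e => ⨆ j, g j x e) := sorry
theorem Md_const (c : ℝ≥0∞) : Md (G := G) (fun _ _ _ => c) := sorry
theorem Md.add {f g : XX G → V × V → V × V → ℝ≥0∞} (hf : Md f) (hg : Md g) :
    Md (fun x e p => f x e p + g x e p) := sorry
theorem Md.mul {f g : XX G → V × V → V × V → ℝ≥0∞} (hf : Md f) (hg : Md g) :
    Md (fun x e p => f x e p * g x e p) := sorry
theorem Hd.Md_fst {g : XX G → V × V → ℝ≥0∞} (hg : Hd g) : Md (fun x e _ => g x e) := sorry
theorem Hd.Md_snd (hT : G.IsTree) {g : XX G → V × V → ℝ≥0∞} (hg : Hd g) :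
    Md (fun x _ p => g x p) := sorry
theorem Md_prop [Countable V] (hT : G.IsTree) (δ : ℝ) :
    Md (G := G) (fun x _ p => ind (p ∈ OO δ x)) := sorry
theorem Md_nprop [Countable V] (hT : G.IsTree) (δ : ℝ) :
    Md (G := G) (fun x _ p => ind (p ∉ OO δ x)) := sorry
theorem Md_spec [Countable V] : Md (G := G) (fun x e p => ind (p ∈ (x.1 e.2).spec)) := sorry
theorem Md_erase [Countable V] (hT : G.IsTree) {f : XX G → V × V → V × V → ℝ≥0∞} (hf : Md f)
    {g : XX G → V × V → ℝ≥0∞} (hg : Hd g) :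
    Md (fun x e p => ∑ q ∈ (onw x.1 e).erase p, f x e q * g x q) := sorry
theorem Tl_const (c : ℝ≥0∞) : Tl (G := G) (fun _ _ _ => c) := sorry
theorem Tl.add {f g : XX G → V × V → V × V → ℝ≥0∞} (hf : Tl f) (hg : Tl g) :
    Tl (fun x e p => f x e p + g x e p) := sorry
theorem Tl.mul {f g : XX G → V × V → V × V → ℝ≥0∞} (hf : Tl f) (hg : Tl g) :
    Tl (fun x e p => f x e p * g x e p) := sorry
theorem Tl_F [Countable V] (F : Finset (V × V) → Finset (V × V) → V × V → V × V → ℝ≥0∞) :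
    Tl (G := G) (fun x e p => F (x.1 e.2).ports (x.1 e.2).spec e p) := sorry
theorem Tl_prop [Countable V] (hT : G.IsTree) (δ : ℝ) :
    Tl (G := G) (fun x _ p => ind (p ∈ OO δ x)) := sorry
theorem Tl_nprop [Countable V] (hT : G.IsTree) (δ : ℝ) :
    Tl (G := G) (fun x _ p => ind (p ∉ OO δ x)) := sorry
theorem Tl_hit [Countable V] (hT : G.IsTree) (δ : ℝ) :
    Tl (G := G) (fun x e _ => ind (e.swap ∈ OO δ x)) := sorry
theorem Tl_pass [Countable V] (hT : G.IsTree) (δ : ℝ) :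
    Tl (G := G) (fun x e _ => ind (pass (OO δ x) (x.1 e.2))) := sorry
theorem Tl_allop [Countable V] (hT : G.IsTree) (δ : ℝ) :
    Tl (G := G) (fun x e _ => ind (allop (OO δ x) (x.1 e.2))) := sorry
/-- other onward ports -/
theorem Tl_erase [Countable V] (hT : G.IsTree)
    {f : XX G → V × V → V × V → V × V → ℝ≥0∞}
    (hf1 : ∀ e p q, Measurable (fun x => f x e p q))
    (hf2 : ∀ (e p q : V × V) (x y : XX G), WF0 G x.1 → WF0 G y.1 → e.swap ∈ (x.1 e.2).ports →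
      e.swap ∈ (y.1 e.2).ports → p ∈ onw x.1 e → p ∈ onw y.1 e → q ∈ onw x.1 e → q ≠ p →
      Agr G p x y → f x e p q = f y e p q)
    {g : XX G → V × V → ℝ≥0∞} (hg : Hd g) :
    Tl (fun x e p => ∑ q ∈ (onw x.1 e).erase p, f x e p q * g x q) := sorry

-- the list
theorem HP_hit [Countable V] (hT : G.IsTree) (δ : ℝ) : HP (G := G) (fun x e => e.swap ∈ OO δ x) := sorry
theorem HP_pass [Countable V] (hT : G.IsTree) (δ : ℝ) :
    HP (G := G) (fun x e => pass (OO δ x) (x.1 e.2)) := sorry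
theorem HP_allop [Countable V] (hT : G.IsTree) (δ : ℝ) :
    HP (G := G) (fun x e => allop (OO δ x) (x.1 e.2)) := sorry
theorem HP_bu [Countable V] (hT : G.IsTree) (δ : ℝ) (F : ℕ → Prop) :
    HP (G := G) (fun x e => F (bu (OO δ x) x.1 e).card) := sorry
theorem HP_tr [Countable V] (hT : G.IsTree) (δ : ℝ) : HP (G := G) (fun x e => tr (OO δ x) x.1 e) := sorry
theorem Hd_Nn [Countable V] (hT : G.IsTree) (δ : ℝ) (j : ℕ) :
    Hd (G := G) (fun x e => Nn (OO δ x) x.1 j e) := sorry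
theorem Hd_NN [Countable V] (hT : G.IsTree) (δ : ℝ) :
    Hd (G := G) (fun x e => NN (OO δ x) x.1 e) := sorry
theorem Hd_Cn [Countable V] (hT : G.IsTree) (δ : ℝ) (j : ℕ) :
    Hd (G := G) (fun x e => Cn (OO δ x) x.1 j e) := sorry
theorem Hd_CC [Countable V] (hT : G.IsTree) (δ : ℝ) :
    Hd (G := G) (fun x e => CC (OO δ x) x.1 e) := sorry
theorem Hd_zb [Countable V] (hT : G.IsTree) (δ : ℝ) :
    Hd (G := G) (fun x e => zb (OO δ x) x.1 e) := sorry
theorem Hd_hit2 [Countable V] (hT : G.IsTree) (δ : ℝ) :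
    Hd (G := G) (fun x e => hit2 (OO δ x) x.1 e) := sorry
theorem Hd_Bad [Countable V] (hT : G.IsTree) (δ : ℝ) :
    Hd (G := G) (fun x e => Bad (OO δ x) x.1 e) := sorry

end NICE

/-! ## Piece RFX (file Rfx.lean): facts on labels and the rule -/
section RFX

variable {μ : Measure (St V)}

theorem ae_Gen [Countable V] [SFinite μ] (δ : ℝ) : ∀ᵐ x ∂(μ.prod (lam G)), Gen δ x.2 := sorry
theorem TI_of_Gen {δ : ℝ} {l : Lb G} (hl : Gen δ l) (i : Fin 3) : TI G (lab l i) := sorry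
theorem RF_of_Gen {σ : St V} (h : WF0 G σ) {δ : ℝ} {l : Lb G} (hl : Gen δ l) :
    RF (OO δ (σ, l)) σ Set.univ := sorry
/-- at most 7 unopened ports -/
theorem unop_le {O : Set (V × V)} {σ : St V} (h : WF0 G σ) (hR : RF O σ Set.univ) (v : V) :
    (unop O (σ v)).card ≤ 7 := sorry
theorem br_allop {Δ : ℕ} (hT : Std G Δ) (hL : Law G μ) {δ : ℝ} (hδ : 0 < δ) {e : V × V}
    (he : G.Adj e.1 e.2) :
    br (G := G) μ e (fun x e => ind (allop (OO δ x) (x.1 e.2))) ≤ ENNReal.ofReal (1000 * δ) := sorry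
theorem br_allop_card {Δ : ℕ} (hT : Std G Δ) (hL : Law G μ) {δ : ℝ} (hδ : 0 < δ) {e : V × V}
    (he : G.Adj e.1 e.2) :
    br (G := G) μ e (fun x e => ind (allop (OO δ x) (x.1 e.2)) * ((x.1 e.2).ports.card : ℝ≥0∞)) ≤
      ENNReal.ofReal (10 ^ 6 * δ) := sorry
/-- exchangeability of the ranks -/
theorem br_bighit {Δ : ℕ} (hT : Std G Δ) (hL : Law G μ) {δ : ℝ} (hδ : 0 < δ) {e : V × V}
    (he : G.Adj e.1 e.2) :
    br (G := G) μ e (fun x e => ind (e.swap ∈ OO δ x ∧ big (x.1 e.2))) ≤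
      qx G μ e + ENNReal.ofReal (1000 * δ) := sorry
/-- the comp of `v` is activated with probability at most `1000 δ`, independently of the state -/
theorem v_allop {Δ : ℕ} (hT : Std G Δ) (hL : Law G μ) {δ : ℝ} (hδ : 0 < δ) (v : V)
    {w : St V → ℝ≥0∞} (hw : Measurable w) :
    ∫⁻ x, w x.1 * (ind (allop (OO δ x) (x.1 v)) * ((x.1 v).ports.card : ℝ≥0∞)) ∂(μ.prod (lam G)) ≤
      ENNReal.ofReal (10 ^ 6 * δ) * ∫⁻ σ, w σ ∂μ := sorry

end RFX

/-! ## Piece NSYS (file Nsys.lean): first moments of the hot cluster -/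
section NSYS

variable {μ : Measure (St V)} {Δ : ℕ} {δ : ℝ} {e : V × V}

theorem qb_add_qh (hT : Std G Δ) (hL : Law G μ) (δ : ℝ) (he : G.Adj e.1 e.2) :
    qb G μ δ e + qh G μ δ e = 1 := sorry
theorem qh_le (H : Hyp G μ δ e Δ) :
    qh G μ δ e ≤ qx G μ e + qy G μ e + qm G μ e + ENNReal.ofReal (2000 * δ) := sorry
theorem q3S_le (H : Hyp G μ δ e Δ) : q3 G μ e + qS G μ e ≤ 1 := sorry
theorem card_le (H : Hyp G μ δ e Δ) :
    br (G := G) μ e (fun x e => ((x.1 e.2).ports.card : ℝ≥0∞)) ≤ 7 + qr G μ e := sorry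
theorem nn_le (H : Hyp G μ δ e Δ) : br (G := G) μ e (fun x e => NN (OO δ x) x.1 e) ≤ 2 := sorry
theorem hit_nn_le (H : Hyp G μ δ e Δ) :
    br (G := G) μ e (fun x e => ind (e.swap ∈ OO δ x) * NN (OO δ x) x.1 e) ≤
      10 * (qx G μ e + qy G μ e + qm G μ e + qA δ) + 200 * eta G μ δ e ^ 2 := sorry
theorem tr_nn_le (H : Hyp G μ δ e Δ) :
    br (G := G) μ e (fun x e => ind (tr (OO δ x) x.1 e) * NN (OO δ x) x.1 e) ≤
      70 * eta G μ δ e := sorry
theorem cc_le (H : Hyp G μ δ e Δ) :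
    br (G := G) μ e (fun x e => CC (OO δ x) x.1 e) ≤ 20 * eta G μ δ e := sorry
theorem hit_cc_le (H : Hyp G μ δ e Δ) :
    br (G := G) μ e (fun x e => ind (e.swap ∈ OO δ x) * CC (OO δ x) x.1 e) ≤
      1000 * eta G μ δ e ^ 2 := sorry
theorem tr_le (H : Hyp G μ δ e Δ) :
    br (G := G) μ e (fun x e => ind (tr (OO δ x) x.1 e)) ≤ 10 * eta G μ δ e := sorry
theorem zb_le (H : Hyp G μ δ e Δ) :
    br (G := G) μ e (fun x e => zb (OO δ x) x.1 e) ≤ 10 * eta G μ δ e := sorry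
theorem bighittr_le (H : Hyp G μ δ e Δ) :
    br (G := G) μ e (fun x e => ind (e.swap ∈ OO δ x ∧ big (x.1 e.2) ∧ tr (OO δ x) x.1 e)) ≤
      qA δ + 10 * eta G μ δ e ^ 2 := sorry
/-- the hot regions are finite -/
theorem ae_region (H : Hyp G μ δ e Δ) :
    ∀ᵐ x ∂(μ.prod (lam G)), ∀ v, (region (OO δ x) x.1 v).Finite := sorry

end NSYS

/-! ## Piece PW (file Pw.lean): pointwise inequalities, `D` = head comp of `e`, edge of `e` not opened -/
section PW

/-- standing hypotheses of the pointwise inequalities -/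
structure PH (G : SimpleGraph V) (O : Set (V × V)) (t : V × V → ℝ) (σ : St V) (e : V × V) : Prop where
  tree : G.IsTree
  wf : WF G σ
  rf : RF O σ Set.univ
  ti : TI G t
  alv : alive σ e
  nop : ¬ opd O e

variable {O : Set (V × V)} {t : V × V → ℝ} {σ : St V} {e : V × V}

theorem pw_wire (h : PH G O t σ e) :
    ind (wire (step O t σ e.2)) ≤
      ind (thr (σ e.2)) * ∑ p ∈ onw σ e, ind (p.swap ∈ O ∧ big (σ p.2)) + Bad O σ e := sorry
theorem pw_xw (h : PH G O t σ e) :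
    xw (step O t σ e.2) ≤
      ind (passS (σ e.2)) * (∑ p ∈ onw σ e, ind (wire (σ p.2)) *
        ∑ g ∈ onw σ p, ind (passS (σ g.2)) * phi2 (σ e.2).ports.card (σ g.2).ports.card) +
      Bad O σ e := sorry
theorem pw_spec (h : PH G O t σ e) :
    ((step O t σ e.2).spec.card : ℝ≥0∞) ≤
      ind (pass O (σ e.2)) * (hit2 O σ e + ∑ p ∈ onw σ e, ind (p.swap ∈ O) * CC O σ p) +
      ind (¬ passS (σ e.2)) * (∑ p ∈ onw σ e, ind (p ∉ O) * ind (p.swap ∈ O) +
        ∑ p ∈ onw σ e, (1 + ind (p.swap ∈ O)) * CC O σ p) := sorry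
theorem pw_size (h : PH G O t σ e) :
    ((step O t σ e.2).ports.card : ℝ≥0∞) * ind (¬ passS (step O t σ e.2)) ≤
      ind (pass O (σ e.2)) * (7 * ∑ p ∈ onw σ e, ind (p.swap ∈ O) * (1 + NN O σ p)) +
      ind (¬ passS (σ e.2)) * (7 * ind ((σ e.2).spec ≠ ∅) +
        7 * ∑ p ∈ onw σ e, ind (p ∉ O) * ind (p.swap ∈ O) +
        7 * ∑ p ∈ onw σ e, ind (p ∈ (σ e.2).spec) * NN O σ p +
        14 * ∑ p ∈ onw σ e, (1 + ind (p.swap ∈ O)) * (ind (tr O σ p) * NN O σ p) +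
        7 * ∑ p ∈ onw σ e, (∑ r ∈ onw σ e, ind (r ∉ O) * ind (r.swap ∈ O)) * NN O σ p) := sorry
theorem pw_thr_le (h : PH G O t σ e) :
    ind (thr (step O t σ e.2)) ≤ ind (thr (σ e.2)) +
      (ind (pass O (σ e.2)) * ∑ p ∈ onw σ e, ind (p.swap ∈ O) + ind (¬ passS (σ e.2))) := sorry
theorem pw_thr_ge (h : PH G O t σ e) :
    ind (thr (σ e.2)) ≤ ind (thr (step O t σ e.2)) +
      ind (pass O (σ e.2)) * ∑ p ∈ onw σ e, ind (p.swap ∈ O) := sorry

end PW

/-! ## Piece ONE (file One.lean): one-step inequalities -/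
section ONE

variable {μ : Measure (St V)} {Δ : ℕ} {δ : ℝ} {e : V × V}

/-- the conclusions of one step; `μ'` is the next law -/
structure OneStep (G : SimpleGraph V) (μ μ' : Measure (St V)) (δ : ℝ) (e : V × V) : Prop where
  hh : qh G μ δ e ≤ eta G μ δ e
  hb : qb G μ δ e + qh G μ δ e = 1
  h3S : q3 G μ e + qS G μ e ≤ 1
  x : qx G μ' e * qb G μ δ e ≤ qy G μ e * (q3 G μ e * qS G μ e + 5 / 2 * qS G μ e ^ 2) +
    10 ^ 4 * (qm G μ e + qA δ) + 10 ^ 4 * eta G μ δ e ^ 2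
  y : qy G μ' e * qb G μ δ e ≤ 2 * q3 G μ e * qx G μ e +
    10 ^ 4 * (qm G μ e + qA δ) + 10 ^ 4 * eta G μ δ e ^ 2
  m : qm G μ' e * qb G μ δ e ≤ 10 ^ 5 * eta G μ δ e ^ 2
  r : qr G μ' e * qb G μ δ e ≤ 10 ^ 5 * (qx G μ e + qy G μ e + qm G μ e + qA δ) +
    10 ^ 5 * eta G μ δ e ^ 2
  p3u : q3 G μ' e * qb G μ δ e ≤ q3 G μ e + 10 ^ 3 * eta G μ δ e
  p3l : q3 G μ e ≤ q3 G μ' e * qb G μ δ e + 10 ^ 3 * eta G μ δ e

theorem Bad_le (H : Hyp G μ δ e Δ) :
    br (G := G) μ e (fun x e => Bad (OO δ x) x.1 e) ≤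
      10 ^ 3 * (qm G μ e + qA δ) + 10 ^ 3 * eta G μ δ e ^ 2 := sorry
theorem one_step (H : Hyp G μ δ e Δ) :
    Law G (nextLaw (stp (G := G) δ) μ) ∧
      OneStep G μ (nextLaw (stp (G := G) δ) μ) δ e := sorry

end ONE

/-! ## Piece REC (file Rec.lean): pure real recursion -/
section REC

/-- `A` is the size of the perturbation; the recursion stays below `K A` for ever -/
theorem rec_close : ∃ K A0 : ℝ, 1 ≤ K ∧ 0 < A0 ∧ ∀ A : ℝ, 0 < A → A ≤ A0 →
    ∀ x y m r p S h : ℕ → ℝ,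
    (∀ n, 0 ≤ x n ∧ 0 ≤ y n ∧ 0 ≤ m n ∧ 0 ≤ r n ∧ 0 ≤ p n ∧ 0 ≤ S n ∧ 0 ≤ h n) →
    x 0 = 0 → y 0 = 0 → m 0 = 0 → r 0 = 0 →
    (∀ n, x n + y n + m n + r n + A ≤ 1 / 10 ^ 6 →
      h n ≤ x n + y n + m n + r n + A ∧ p n + S n ≤ 1 ∧
      x (n + 1) * (1 - h n) ≤ y n * (p n * S n + 5 / 2 * S n ^ 2) + 10 ^ 4 * (m n + A) +
        10 ^ 4 * (x n + y n + m n + r n + A) ^ 2 ∧
      y (n + 1) * (1 - h n) ≤ 2 * p n * x n + 10 ^ 4 * (m n + A) +
        10 ^ 4 * (x n + y n + m n + r n + A) ^ 2 ∧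
      m (n + 1) * (1 - h n) ≤ 10 ^ 5 * (x n + y n + m n + r n + A) ^ 2 ∧
      r (n + 1) * (1 - h n) ≤ 10 ^ 5 * (x n + y n + m n + A) +
        10 ^ 5 * (x n + y n + m n + r n + A) ^ 2 ∧
      p (n + 1) * (1 - h n) ≤ p n + 10 ^ 3 * (x n + y n + m n + r n + A) ∧
      p n ≤ p (n + 1) * (1 - h n) + 10 ^ 3 * (x n + y n + m n + r n + A)) →
    ∀ n, x n + y n + m n + r n + A ≤ K * A := sorry

/-- decay of the mass of undecided vertices -/
theorem vrec_close (κ ε : ℝ≥0∞) (hκ : κ ≠ 0) (hκ1 : κ ≤ 1) (hε : ε ≤ ENNReal.ofReal (1 / 10 ^ 3))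
    (U P T : ℕ → ℝ≥0∞) (hU : U 0 ≠ ∞) (hP : P 0 ≠ ∞) (hT : T 0 ≠ ∞)
    (h1 : ∀ n, U (n + 1) + κ * U n ≤ U n + κ * (P n / 1000 + T n))
    (h2 : ∀ n, P (n + 1) ≤ 40 * U n + 28 * T n + ε * P n)
    (h3 : ∀ n, T (n + 1) ≤ ε * (U n + P n)) :
    Filter.Tendsto U Filter.atTop (nhds 0) := sorry

end REC

/-! ## Piece ITER (file Iter.lean): the engine stages -/
section ITER

/-- `n` engine stages starting from the law `μ` -/
noncomputable def iter (G : SimpleGraph V) (δ : ℝ) (μ : Measure (St V)) : ℕ → Measure (St V)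
  | 0 => μ
  | n + 1 => nextLaw (stp (G := G) δ) (iter G δ μ n)

/-- the starting hypothesis: no flips, between 3 and 7 ports -/
def Start (μ : Measure (St V)) : Prop :=
  ∀ᵐ σ ∂μ, ∀ v, (σ v).spec = ∅ ∧ 3 ≤ (σ v).ports.card ∧ (σ v).ports.card ≤ 7

theorem iter_small : ∃ δ0 : ℝ, 0 < δ0 ∧ ∀ δ : ℝ, 0 < δ → δ ≤ δ0 →
    ∀ (V : Type) (G : SimpleGraph V) (Δ : ℕ) (μ : Measure (St V)) (e : V × V),
      Std G Δ → Law G μ → Start μ → G.Adj e.1 e.2 →
      ∀ n, Hyp G (iter G δ μ n) δ e Δ := sorry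

end ITER

/-! ## Piece VTX (file Vtx.lean): tagged vertex -/
section VTX

variable {μ : Measure (St V)} {Δ : ℕ} {δ : ℝ} {e : V × V}

theorem v_size (H : Hyp G μ δ e Δ) (v : V) :
    vP (nextLaw (stp (G := G) δ) μ) v ≤
      40 * vU μ v + 28 * vT μ v + 1000 * eta G μ δ e * vP μ v := sorry
theorem v_spec (H : Hyp G μ δ e Δ) (v : V) :
    vT (nextLaw (stp (G := G) δ) μ) v ≤ 1000 * eta G μ δ e * (vU μ v + vP μ v) := sorry

/-- decision probability -/
noncomputable def kap (δ : ℝ) : ℝ≥0∞ := ENNReal.ofReal (δ ^ 2 / 2 ^ 2100)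

theorem v_dec (H : Hyp G μ δ e Δ) (v : V) :
    vU (nextLaw (stp (G := G) δ) μ) v + kap δ * vU μ v ≤
      vU μ v + kap δ * (vP μ v / 1000 + vT μ v) := sorry

end VTX

/-! ## Piece HALVE (files Halve1.lean ...) -/
section HALVE

variable {μ : Measure (St V)} {Δ : ℕ}

/-- all comps are singletons, as in the initial state -/
def Sing (σ : St V) : Prop := ∀ v, (σ v).comp = {v} ∧ (σ v).spec = ∅ ∧ (σ v).M = fun p => p.2

/-- some odd degree has positive probability -/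
def OddPos (μ : Measure (St V)) (v : V) : Prop := ∃ m, Odd m ∧ μ {σ | (σ v).ports.card = m} ≠ 0

theorem halve_step (hT : Std G Δ) (hL : Law G μ) (b : Bool) (v0 : V)
    (hs : ∀ᵐ σ ∂μ, Sing σ) (hk : ∀ᵐ σ ∂μ, ∀ v, 6 ≤ (σ v).ports.card)
    (hb : b = true ∨ OddPos μ v0) :
    Law G (nextLaw (hv (G := G) b) μ) ∧
    (∀ᵐ σ ∂(nextLaw (hv (G := G) b) μ), Sing σ) ∧
    OddPos (nextLaw (hv (G := G) b) μ) v0 ∧
    (∀ᵐ x ∂(μ.prod (lam G)), ∀ v, (if b then
      (2 * (hv b x v).ports.card ≤ (x.1 v).ports.card + 2 ∧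
        (x.1 v).ports.card ≤ 2 * (hv b x v).ports.card + 2) else
      (2 * (hv b x v).ports.card ≤ (x.1 v).ports.card + 1 ∧
        (x.1 v).ports.card ≤ 2 * (hv b x v).ports.card + 1))) ∧
    (∀ᵐ x ∂(μ.prod (lam G)), ∀ e : V × V, alive x.1 e →
      ∃ n u, Stop b (lab x.2 2) x.1 e n u) := sorry
theorem hv_map (b : Bool) (φ : G ≃g G) (x : XX G) :
    hv b (XX.map φ x) = St.map φ.toEquiv (hv b x) := sorry
/-- finite dependence of the halving -/
theorem hv_fin (b : Bool) {σ : St V} {a t r : V × V → ℝ} (v : V)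
    (hf : ∀ d ∈ (σ v).ports, (∃ n u, Stop b r σ d n u) ∧ ∃ n u, Stop b r σ d.swap n u) :
    ∃ (K : Finset V) (D : Finset (V × V)), ∀ (σ' : St V) (a' t' r' : V × V → ℝ),
      (∀ x ∈ K, σ' x = σ x) → (∀ d ∈ D, a' d = a d ∧ t' d = t d ∧ r' d = r d) →
      halve b a' t' r' σ' v = halve b a t r σ v := sorry
/-- after the halving stages -/
theorem halve_all (hT : Std G Δ) : ∃ J : ℕ, ∀ δ : ℝ,
    (∀ n ≤ J, Law G (law (G := G) J δ n)) ∧ Start (law (G := G) J δ J) ∧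
    (∀ n < J, ∀ᵐ x ∂((law (G := G) J δ n).prod (lam G)), ∀ e : V × V, alive x.1 e →
      ∃ k u, Stop (decide (n = 0)) (lab x.2 2) x.1 e k u) := sorry

end HALVE

/-! ## Piece JOINT (file Joint.lean): one probability space -/
section JOINT

variable {Δ : ℕ}

theorem joint (hT : Std G Δ) (J : ℕ) (δ : ℝ) (n : ℕ) :
    (PP G).map (fun ω => (sig J δ ω n, stg ω n)) = (law (G := G) J δ n).prod (lam G) := sorry

/-- finite dependence -/
theorem sig_fin (hT : Std G Δ) (J : ℕ) (δ : ℝ)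
    (hL : ∀ n, Law G (law (G := G) J δ n))
    (h1 : ∀ n, J ≤ n → ∀ᵐ x ∂((law (G := G) J δ n).prod (lam G)),
      ∀ v, (region (OO δ x) x.1 v).Finite)
    (h2 : ∀ n < J, ∀ᵐ x ∂((law (G := G) J δ n).prod (lam G)), ∀ e : V × V, alive x.1 e →
      ∃ k u, Stop (decide (n = 0)) (lab x.2 2) x.1 e k u) :
    ∀ᵐ ω ∂(PP G), ∀ n v, ∃ I : Finset (Dt G × ℕ × Fin 3), ∀ ω' : Om G,
      (∀ i ∈ I, ω' i = ω i) → sig J δ ω' n v = sig J δ ω n v := sorry

/-- everything about the core algorithm -/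
theorem core (hT : Std G Δ) : ∃ (J : ℕ) (δ : ℝ),
    (∀ᵐ ω ∂(PP G), ∀ n, WF G (sig J δ ω n)) ∧
    (∀ᵐ ω ∂(PP G), ∀ v, ∃ n w, Dec (sig J δ ω n) v w) ∧
    (∀ᵐ ω ∂(PP G), ∀ n v w, Dec (sig J δ ω n) v w → Dec (sig J δ ω (n + 1)) v w) ∧
    (∀ᵐ ω ∂(PP G), ∀ n v, ∃ I : Finset (Dt G × ℕ × Fin 3), ∀ ω' : Om G,
      (∀ i ∈ I, ω' i = ω i) → sig J δ ω' n v = sig J δ ω n v) := sorry

end JOINT

/-! ## Piece FINAL (file Final.lean): transfer to the frozen statement -/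
section FINAL

theorem final (Δ : ℕ) (hΔ : 3 ≤ Δ) (V : Type) (G : SimpleGraph V) (hG : G.IsTree)
    (hreg : ∀ v : V, (G.neighborSet v).encard = ((Δ : ℕ) : ℕ∞)) :
    ∃ (μ : MeasureTheory.Measure ℝ) (_ : MeasureTheory.IsProbabilityMeasure μ)
      (F : (V → ℝ) → V → V),
      (∀ v w : V, MeasurableSet {ω : V → ℝ | F ω v = w}) ∧
      (∀ (φ : G ≃g G) (ω : V → ℝ) (v : V),
        F (fun u => ω (φ.symm u)) (φ v) = φ (F ω v)) ∧
      (∀ᵐ ω ∂(MeasureTheory.Measure.infinitePi (fun _ : V => μ)),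
        ∀ v : V, G.Adj v (F ω v) ∧ F ω (F ω v) = v) ∧
      (∀ᵐ ω ∂(MeasureTheory.Measure.infinitePi (fun _ : V => μ)),
        ∀ v : V, ∃ r : ℕ, ∀ ω' : V → ℝ,
          (∀ u : V, G.dist v u ≤ r → ω' u = ω u) → F ω' v = F ω v) := sorry

end FINAL

end Pool.Agent.PM
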